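import Pool.Agent.Lib.AO.Calc

/-
Module CPB1 / CPB (library AO, MP_7bfba2_an).
LEMMA 3.1.  Let χ be the cutoff of exists_cut.  χc ζ := (χ ζ : ℂ).  The function Fc := χc * TT u v on ball p (2δ), 0 elsewhere, is C¹ with compact support (TT u v is C¹ on ball p (2δ):
u, v are C³ there).  pompeiu: for ‖z - p‖ <= δ/2, TT u v z = Fc z = (1/π) ∫ cb Fc ζ/(z - ζ), cb Fc = cb χc * TT u v + χc * (κ/4) dz u.
 (a) |∫ χc κ/4 dz u/(z-ζ)| <= ∫_{ball p δ} (‖fderiv u ζ‖/8)/‖z-ζ‖ (norm_dz).
 (b) cb χc is supported in the annulus 3δ/4 <= ‖ζ-p‖ <= 7δ/8, where ‖z-ζ‖ >= δ/4, |cb χc| <= C/δ: the term with (dz u)²/2 is at most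
     (C/δ)(4/δ) ∫_{Ann} ‖fderiv u‖²/8.
 (c) the term with cz (dz v): with k ζ := cb χc ζ/(z - ζ) (C¹, compactly supported in the open annulus region, extended by 0), parts_cz gives -∫ dz v * cz k, and
     |cz k| <= C/δ³ (fderiv of cb χc = conj of dz χ is <= C/δ², 1/|z-ζ| <= 4/δ, derivative of 1/(z-ζ) <= 16/δ²), supported in ball p δ.
     (To apply parts_cz with a globally C¹ function replace dz v by χ2 * dz v with a second cutoff χ2 = 1 on ball p (7δ/8), supported in ball p (2δ).)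
Integrability on ball p δ: u, v are C¹ on a neighbourhood of closedBall p δ.  The set ball p δ \ ball p (3δ/4) contains the annulus up to nothing.
-/

set_option autoImplicit false

open Complex MeasureTheory Set Metric Filter
open scoped Real ContDiff Topology

noncomputable section

namespace AO

namespace CPB1Aux

theorem cb_cz_comm (f : ℂ → ℂ) (z : ℂ) (hf : ContDiffAt ℝ 2 f z) : cb (cz f) z = cz (cb f) z := by
  have h1 := hasFDerivAt_dir f z 1 hf
  have h2 := hasFDerivAt_dir f z I hf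
  have h3 := (h1.sub (h2.const_mul Complex.I)).const_mul ((2 : ℂ)⁻¹)
  have h4 := (h1.add (h2.const_mul Complex.I)).const_mul ((2 : ℂ)⁻¹)
  have h5 := h3.congr_of_eventuallyEq (f₁ := cz f) (Eventually.of_forall fun w => by
    simp only [cz, dx, dy, Pi.sub_apply]
    ring)
  have h6 := h4.congr_of_eventuallyEq (f₁ := cb f) (Eventually.of_forall fun w => by
    simp only [cb, dx, dy, Pi.add_apply]
    ring)
  have hs := snd_symm f z 1 I hf
  have e1 : cb (cz f) z = (fderiv ℝ (cz f) z 1 + Complex.I * fderiv ℝ (cz f) z Complex.I) / 2 := rfl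
  have e2 : cz (cb f) z = (fderiv ℝ (cb f) z 1 - Complex.I * fderiv ℝ (cb f) z Complex.I) / 2 := rfl
  rw [e1, e2, h5.fderiv, h6.fderiv]
  simp only [ContinuousLinearMap.smul_apply, ContinuousLinearMap.sub_apply,
    ContinuousLinearMap.add_apply, ContinuousLinearMap.comp_apply,
    ContinuousLinearMap.apply_apply, smul_eq_mul, hs]
  ring

end CPB1Aux

open CPB1Aux in
/-- The stress tensor is almost holomorphic. -/
theorem cb_TT (u v g : ℂ → ℝ) (β : ℝ) (z : ℂ) (hv : ContDiffAt ℝ 3 v z) (hu : ContDiffAt ℝ 2 u z)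
    (ev : ∀ᶠ w in 𝓝 z, lap v w = -(Real.exp (u w) + β)) (eu : lap u z = -(Real.exp (u z) + g z)) :
    cb (TT u v) z = ((g z / 4 : ℝ) : ℂ) * dz u z := by
  have hdu : ContDiffAt ℝ (1 : ℕ) (dz u) z := contDiffAt_dz u z 1 hu
  have hdu' : DifferentiableAt ℝ (dz u) z := hdu.differentiableAt (by norm_num)
  have hdv : ContDiffAt ℝ (2 : ℕ) (dz v) z := contDiffAt_dz v z 2 hv
  have hcz : DifferentiableAt ℝ (cz (dz v)) z :=
    (contDiffAt_cz (dz v) z 1 hdv).1.differentiableAt (by norm_num)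
  have hsq : DifferentiableAt ℝ (fun w => dz u w * dz u w) z := hdu'.mul hdu'
  have hud : DifferentiableAt ℝ u z := hu.differentiableAt (by norm_num)
  -- the quadratic term
  have e0 : TT u v = fun w => cz (dz v) w - (2 : ℂ)⁻¹ * (dz u w * dz u w) := by
    funext w
    unfold TT
    ring
  have e1 : cb (fun w => (2 : ℂ)⁻¹ * (dz u w * dz u w)) z = dz u z * cb (dz u) z := by
    rw [cb_mul (fun _ => (2 : ℂ)⁻¹) (fun w => dz u w * dz u w) z (differentiableAt_const _) hsq,
      cb_mul (dz u) (dz u) z hdu' hdu']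
    have e2 : cb (fun _ : ℂ => (2 : ℂ)⁻¹) z = 0 := by
      have h := cz_holo (fun _ => (2 : ℂ)⁻¹) 0 z (hasDerivAt_const z _)
      exact h.2
    rw [e2]
    ring
  -- the linear term
  have e3 : cb (cz (dz v)) z = -((Real.exp (u z) : ℝ) : ℂ) / 4 * dz u z := by
    rw [cb_cz_comm (dz v) z hdv]
    have hv2 : ∀ᶠ w in 𝓝 z, ContDiffAt ℝ 2 v w :=
      (hv.eventually (by simp)).mono fun w hw => hw.of_le (by norm_num)
    have h1 : cb (dz v) =ᶠ[𝓝 z] fun w => ((-(Real.exp (u w) + β) / 4 : ℝ) : ℂ) := by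
      filter_upwards [hv2, ev] with w hw1 hw2
      rw [cb_dz v w hw1, hw2]
    have h2 : cz (cb (dz v)) z = cz (fun w => ((-(Real.exp (u w) + β) / 4 : ℝ) : ℂ)) z := by
      unfold cz dx dy
      rw [h1.fderiv_eq]
    have hexp : DifferentiableAt ℝ (fun w => Real.exp (u w)) z := hud.exp
    have h4 : (fun w => -(Real.exp (u w) + β) / 4) =
        fun w => (-(1 / 4) * Real.exp (u w)) - β / 4 := by
      funext w
      ring
    have h3 : DifferentiableAt ℝ (fun w => -(Real.exp (u w) + β) / 4) z := by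
      rw [h4]
      exact (hexp.const_mul _).sub (differentiableAt_const _)
    rw [h2, cz_ofReal _ z h3]
    rw [h4, dz_sub _ _ z (hexp.const_mul _) (differentiableAt_const _),
      dz_const_mul _ _ z hexp, dz_exp u z hud]
    have h5 : dz (fun _ : ℂ => β / 4) z = 0 := by
      unfold dz dx dy
      simp
    rw [h5]
    push_cast
    ring
  rw [e0, cb_sub _ _ z hcz (hsq.const_mul _), e1, e3, cb_dz u z hu, eu]
  push_cast
  ring

end AO

end
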