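import Pool.Agent.Lib.AO.Calc

/-
STUB Cut (library AO, MP_7bfba2_an). Replace the sorry, keep the statement.
Take one smooth bump χ0 (ContDiffBump at 0 with rIn = 3/4, rOut = 7/8) and put χ(z) = χ0((z - p)/δ).  χ0 is smooth with compact support, so all derivatives are bounded;
fderiv χ z = δ⁻¹ fderiv χ0 ((z-p)/δ), dz χ z = δ⁻¹ dz χ0 ((z-p)/δ), fderiv (dz χ) z = δ⁻² fderiv (dz χ0) ((z-p)/δ).
-/

set_option autoImplicit false

open Complex MeasureTheory Set Metric Filter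
open scoped Real ContDiff Topology

noncomputable section

namespace AO

namespace CutAux

theorem dz_affine (f : ℂ → ℝ) (c : ℝ) (p z : ℂ) :
    dz (fun z => f (c • (z - p))) z = (c : ℂ) * dz f (c • (z - p)) := by
  have h : fderiv ℝ (fun z => f (c • (z - p))) z = c • fderiv ℝ f (c • (z - p)) := by
    have h1 := fderiv_comp_sub (𝕜 := ℝ) (f := fun z => f (c • z)) (x := z) p
    rw [h1, fderiv_comp_smul (𝕜 := ℝ) (f := f) c]
  simp only [dz, dx, dy, h, smul_apply, smul_eq_mul]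
  push_cast
  ring

theorem fderiv_affine {E : Type} [NormedAddCommGroup E] [NormedSpace ℝ E] (f : ℂ → E) (c : ℝ)
    (p z : ℂ) : fderiv ℝ (fun z => f (c • (z - p))) z = c • fderiv ℝ f (c • (z - p)) := by
  have h1 := fderiv_comp_sub (𝕜 := ℝ) (f := fun z => f (c • z)) (x := z) p
  rw [h1, fderiv_comp_smul (𝕜 := ℝ) (f := f) c]

end CutAux

open CutAux

theorem exists_cut : ∃ C : ℝ, 0 < C ∧ ∀ (p : ℂ) (δ : ℝ), 0 < δ → ∃ χ : ℂ → ℝ, ContDiff ℝ ∞ χ ∧
    (∀ z, 0 ≤ χ z) ∧ (∀ z, χ z ≤ 1) ∧ (∀ z ∈ closedBall p (3 * δ / 4), χ z = 1) ∧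
    (∀ z, z ∉ ball p (7 * δ / 8) → χ z = 0) ∧ (∀ z, ‖fderiv ℝ χ z‖ ≤ C / δ) ∧
    (∀ z, ‖fderiv ℝ (dz χ) z‖ ≤ C / δ ^ 2) := by
  let b : ContDiffBump (0 : ℂ) := ⟨3 / 4, 7 / 8, by norm_num, by norm_num⟩
  have hb : ContDiff ℝ ∞ (b : ℂ → ℝ) := b.contDiff
  have hbs : HasCompactSupport (b : ℂ → ℝ) := b.hasCompactSupport
  have hd1 : Continuous (fderiv ℝ (b : ℂ → ℝ)) := hb.continuous_fderiv (by norm_num)
  obtain ⟨C1, hC1⟩ := hd1.bounded_above_of_compact_support (hbs.fderiv ℝ)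
  have hdz : ContDiff ℝ 1 (dz (b : ℂ → ℝ)) := by
    rw [contDiff_iff_contDiffAt]
    intro z
    have := contDiffAt_dz (b : ℂ → ℝ) z 1 (hb.contDiffAt.of_le (by norm_cast))
    exact_mod_cast this
  have hdzs : HasCompactSupport (dz (b : ℂ → ℝ)) := by
    have := (hbs.fderiv ℝ).comp_left (g := fun L : ℂ →L[ℝ] ℝ =>
      (((L 1 : ℝ) : ℂ) - Complex.I * ((L Complex.I : ℝ) : ℂ)) / 2) (by simp)
    exact this
  have hd2 : Continuous (fderiv ℝ (dz (b : ℂ → ℝ))) := hdz.continuous_fderiv (by norm_num)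
  obtain ⟨C2, hC2⟩ := hd2.bounded_above_of_compact_support (hdzs.fderiv ℝ)
  refine ⟨max 1 (max C1 C2), lt_max_of_lt_left one_pos, fun p δ hδ => ?_⟩
  have hnorm : ∀ z : ℂ, ‖δ⁻¹ • (z - p)‖ = ‖z - p‖ / δ := by
    intro z
    rw [norm_smul, Real.norm_of_nonneg (by positivity), div_eq_inv_mul]
  refine ⟨fun z => b (δ⁻¹ • (z - p)), ?_, fun z => b.nonneg, fun z => b.le_one, fun z hz => ?_,
    fun z hz => ?_, fun z => ?_, fun z => ?_⟩
  · have h1 : ContDiff ℝ ∞ fun z : ℂ => δ⁻¹ • (z - p) :=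
      (contDiff_id.sub contDiff_const).const_smul δ⁻¹
    exact hb.comp h1
  · apply b.one_of_mem_closedBall
    rw [mem_closedBall_zero_iff, hnorm, div_le_iff₀ hδ]
    rw [mem_closedBall, dist_eq_norm] at hz
    change _ ≤ 3 / 4 * δ
    linarith
  · apply b.zero_of_le_dist
    rw [dist_zero_right, hnorm, le_div_iff₀ hδ]
    rw [mem_ball, dist_eq_norm, not_lt] at hz
    change 7 / 8 * δ ≤ _
    linarith
  · rw [fderiv_affine, norm_smul, Real.norm_of_nonneg (by positivity), ← div_eq_inv_mul]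
    gcongr
    exact (hC1 _).trans ((le_max_left _ _).trans (le_max_right _ _))
  · have e : dz (fun z => b (δ⁻¹ • (z - p))) = fun z => ((δ⁻¹ : ℝ) : ℂ) * dz b (δ⁻¹ • (z - p)) := by
      funext z
      exact dz_affine _ _ _ _
    have e2 : (fun z => ((δ⁻¹ : ℝ) : ℂ) * dz b (δ⁻¹ • (z - p))) =
        fun z => (δ⁻¹ : ℝ) • (fun z => dz b (δ⁻¹ • (z - p))) z := by
      funext z
      exact (Complex.real_smul (x := δ⁻¹) (z := dz b (δ⁻¹ • (z - p)))).symm
    rw [e, e2, fderiv_fun_const_smul, fderiv_affine, norm_smul, norm_smul,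
      Real.norm_of_nonneg (by positivity)]
    · have := (hC2 (δ⁻¹ • (z - p))).trans ((le_max_right _ _).trans (le_max_right 1 (max C1 C2)))
      calc δ⁻¹ * (δ⁻¹ * ‖fderiv ℝ (dz b) (δ⁻¹ • (z - p))‖) ≤ δ⁻¹ * (δ⁻¹ * max 1 (max C1 C2)) := by
            gcongr
        _ = _ := by field_simp
    · have h1 : DifferentiableAt ℝ (dz b) (δ⁻¹ • (z - p)) := hdz.differentiable (by norm_num) _
      exact h1.comp z (((differentiable_id.sub_const p).const_smul δ⁻¹) z)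

end AO

end
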