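import Pool.Agent.Lib.AO.Pomp
import Pool.Agent.Lib.AO.Cut
import Pool.Agent.Lib.AO.CPB1

/-
STUB CPB2 / CPB (library AO, MP_7bfba2_an). Replace the sorry, keep the statement.
LEMMA 3.1.  Let χ be the cutoff of exists_cut.  χc ζ := (χ ζ : ℂ).  The function Fc := χc * TT u v on ball p (2δ), 0 elsewhere, is C¹ with compact support (TT u v is C¹ on ball p (2δ):
u, v are C³ there).  pompeiu: for ‖z - p‖ <= δ/2, TT u v z = Fc z = (1/π) ∫ cb Fc ζ/(z - ζ), cb Fc = cb χc * TT u v + χc * (κ/4) dz u.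
 (a) |∫ χc κ/4 dz u/(z-ζ)| <= ∫_{ball p δ} (‖fderiv u ζ‖/8)/‖z-ζ‖ (norm_dz).
 (b) cb χc is supported in the annulus 3δ/4 <= ‖ζ-p‖ <= 7δ/8, where ‖z-ζ‖ >= δ/4, |cb χc| <= C/δ: the term with (dz u)²/2 is at most
     (C/δ)(4/δ) ∫_{Ann} ‖fderiv u‖²/8.
 (c) the term with cz (dz v): with k ζ := cb χc ζ/(z - ζ) (C¹, compactly supported in the open annulus region, extended by 0), parts_cz gives -∫ dz v * cz k, and
     |cz k| <= C/δ³ (fderiv of cb χc = conj of dz χ is <= C/δ², 1/|z-ζ| <= 4/δ, derivative of 1/(z-ζ) <= 16/δ²), supported in ball p δ.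
     (To apply parts_cz with a globally C¹ function replace dz v by χ2 * dz v with a second cutoff χ2 = 1 on ball p (7δ/8), supported in ball p (2δ).)
Integrability on ball p δ: u, v are C¹ on a neighbourhood of closedBall p δ.  The set ball p δ \ ball p (3δ/4) contains the annulus up to nothing.
-/

set_option autoImplicit false

open Complex MeasureTheory Set Metric Filter
open scoped Real ContDiff Topology

noncomputable section

namespace AO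


namespace CPB2Aux

theorem cut_zero {χ : ℂ → ℝ} (h0 : ∀ z, 0 ≤ χ z) {z : ℂ} (hz : χ z = 0) : fderiv ℝ χ z = 0 := by
  have h : IsLocalMin χ z := Filter.Eventually.of_forall (fun w => by rw [hz]; exact h0 w)
  exact h.fderiv_eq_zero

theorem cut_one {χ : ℂ → ℝ} (h1 : ∀ z, χ z ≤ 1) {z : ℂ} (hz : χ z = 1) : fderiv ℝ χ z = 0 := by
  have h : IsLocalMax χ z := Filter.Eventually.of_forall (fun w => by rw [hz]; exact h1 w)
  exact h.fderiv_eq_zero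

theorem dz_zero {χ : ℂ → ℝ} {z : ℂ} (h : fderiv ℝ χ z = 0) : dz χ z = 0 := by
  rw [← norm_eq_zero, norm_dz, h]
  simp

theorem cz_congr {f g : ℂ → ℂ} {z : ℂ} (h : f =ᶠ[𝓝 z] g) : cz f z = cz g z := by
  unfold cz dx dy
  rw [h.fderiv_eq]

theorem cb_congr {f g : ℂ → ℂ} {z : ℂ} (h : f =ᶠ[𝓝 z] g) : cb f z = cb g z := by
  unfold cb dx dy
  rw [h.fderiv_eq]

theorem cz_zero' {f : ℂ → ℂ} {z : ℂ} (h : f =ᶠ[𝓝 z] fun _ => 0) : cz f z = 0 := by
  rw [cz_congr h]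
  unfold cz dx dy
  simp

theorem cb_zero' {f : ℂ → ℂ} {z : ℂ} (h : f =ᶠ[𝓝 z] fun _ => 0) : cb f z = 0 := by
  rw [cb_congr h]
  unfold cb dx dy
  simp

theorem nhds_out {p ζ : ℂ} {r R : ℝ} (hrR : r < R) (hζ : ζ ∉ ball p R) {f : ℂ → ℂ}
    (h0 : ∀ w, w ∉ ball p r → f w = 0) : f =ᶠ[𝓝 ζ] fun _ => 0 := by
  have hop : IsOpen (closedBall p r)ᶜ := isClosed_closedBall.isOpen_compl
  have hmem : ζ ∈ (closedBall p r)ᶜ := by
    rw [mem_compl_iff, mem_closedBall]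
    rw [mem_ball] at hζ
    linarith
  filter_upwards [hop.mem_nhds hmem] with w hw
  exact h0 w (fun h => hw (ball_subset_closedBall h))

theorem glue {χ g : ℂ → ℂ} {p : ℂ} {r R : ℝ} (hrR : r < R) {n : ℕ} (hχ : ContDiff ℝ n χ)
    (h0 : ∀ ζ, ζ ∉ ball p r → χ ζ = 0) (hg : ∀ ζ ∈ ball p R, ContDiffAt ℝ n g ζ) :
    ContDiff ℝ n (fun ζ => χ ζ * g ζ) := by
  rw [contDiff_iff_contDiffAt]
  intro ζ
  by_cases hζ : ζ ∈ ball p R
  · exact hχ.contDiffAt.mul (hg ζ hζ)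
  · have h : (fun ζ => χ ζ * g ζ) =ᶠ[𝓝 ζ] fun _ => 0 :=
      nhds_out hrR hζ (fun w hw => by rw [h0 w hw, zero_mul])
    exact contDiffAt_const.congr_of_eventuallyEq h

theorem csupp {f : ℂ → ℂ} {p : ℂ} {r : ℝ} (h0 : ∀ ζ, ζ ∉ ball p r → f ζ = 0) :
    HasCompactSupport f := by
  refine HasCompactSupport.intro (isCompact_closedBall p r) ?_
  intro x hx
  exact h0 x (fun h => hx (ball_subset_closedBall h))

theorem continuous_cb {f : ℂ → ℂ} (hf : ContDiff ℝ 1 f) : Continuous (cb f) := by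
  have h : ContDiff ℝ 0 (cb f) := by
    rw [contDiff_iff_contDiffAt]
    intro ζ
    have h1 := (contDiffAt_cz f ζ 0 (by simpa using hf.contDiffAt)).2
    exact_mod_cast h1
  exact h.continuous

theorem continuous_cz {f : ℂ → ℂ} (hf : ContDiff ℝ 1 f) : Continuous (cz f) := by
  have h : ContDiff ℝ 0 (cz f) := by
    rw [contDiff_iff_contDiffAt]
    intro ζ
    have h1 := (contDiffAt_cz f ζ 0 (by simpa using hf.contDiffAt)).1
    exact_mod_cast h1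
  exact h.continuous

theorem csupp_cb {f : ℂ → ℂ} (hc : HasCompactSupport f) : HasCompactSupport (cb f) := by
  have h1 : HasCompactSupport (fderiv ℝ f) := hc.fderiv (𝕜 := ℝ)
  have h2 : cb f = (fun L : ℂ →L[ℝ] ℂ => (L 1 + Complex.I * L Complex.I) / 2) ∘ fderiv ℝ f := rfl
  rw [h2]
  exact h1.comp_left (by simp)

theorem inv_holo {z ζ : ℂ} (h : ζ ≠ z) :
    HasDerivAt (fun w : ℂ => (z - w)⁻¹) ((z - ζ)⁻¹ ^ 2) ζ := by
  have h1 : HasDerivAt (fun w : ℂ => z - w) (-1) ζ := by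
    simpa using (hasDerivAt_id ζ).const_sub z
  have h2 : z - ζ ≠ 0 := sub_ne_zero.2 h.symm
  have h3 := h1.inv h2
  have h4 : (- -1 / (z - ζ) ^ 2 : ℂ) = (z - ζ)⁻¹ ^ 2 := by
    rw [neg_neg, inv_pow, one_div]
  rw [h4] at h3
  exact h3

theorem le_inf (n : ℕ) : ((n : ℕ) : WithTop ℕ∞) ≤ (∞ : WithTop ℕ∞) := by
  exact_mod_cast (le_top : (n : ℕ∞) ≤ ⊤)

end CPB2Aux

open CPB2Aux in
theorem cp_bound : ∃ C : ℝ, 0 < C ∧ ∀ (p : ℂ) (δ : ℝ) (u v κ : ℂ → ℝ), 0 < δ →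
    ContDiffOn ℝ 3 u (ball p (2 * δ)) → ContDiffOn ℝ 3 v (ball p (2 * δ)) →
    (∀ z ∈ ball p (2 * δ), cb (TT u v) z = ((κ z / 4 : ℝ) : ℂ) * dz u z) → (∀ z, |κ z| ≤ 1) →
    ∀ z, ‖z - p‖ ≤ δ / 2 → ‖TT u v z‖ ≤ C * ((∫ ζ in ball p δ, ‖fderiv ℝ v ζ‖) / δ ^ 3 +
      (∫ ζ in ball p δ \ ball p (3 * δ / 4), ‖fderiv ℝ u ζ‖ ^ 2) / δ ^ 2 +
      ∫ ζ in ball p δ, ‖fderiv ℝ u ζ‖ / ‖z - ζ‖) := by
  obtain ⟨C0, hC0, hcut⟩ := exists_cut
  refine ⟨1 + 6 * C0, by positivity, ?_⟩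
  intro p δ u v κ hδ hu hv hT hκ z hz
  obtain ⟨χ, χs, χ0, χ1, χone, χzero, χd, χdd⟩ := hcut p δ hδ
  obtain ⟨ψ, ψs, ψ0, ψ1, ψone, ψzero, -, -⟩ := hcut p (2 * δ) (by positivity)
  -- regularity of u, v
  have huA : ∀ ζ ∈ ball p (2 * δ), ContDiffAt ℝ 3 u ζ := fun ζ hζ =>
    hu.contDiffAt (isOpen_ball.mem_nhds hζ)
  have hvA : ∀ ζ ∈ ball p (2 * δ), ContDiffAt ℝ 3 v ζ := fun ζ hζ =>
    hv.contDiffAt (isOpen_ball.mem_nhds hζ)
  have hdu2 : ∀ ζ ∈ ball p (2 * δ), ContDiffAt ℝ (2 : ℕ) (dz u) ζ := fun ζ hζ =>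
    contDiffAt_dz u ζ 2 (by exact_mod_cast huA ζ hζ)
  have hdv2 : ∀ ζ ∈ ball p (2 * δ), ContDiffAt ℝ (2 : ℕ) (dz v) ζ := fun ζ hζ =>
    contDiffAt_dz v ζ 2 (by exact_mod_cast hvA ζ hζ)
  have hdu1 : ∀ ζ ∈ ball p (2 * δ), ContDiffAt ℝ (1 : ℕ) (dz u) ζ := fun ζ hζ =>
    (hdu2 ζ hζ).of_le (by exact_mod_cast (by norm_num : (1 : ℕ) ≤ 2))
  have hdv1 : ∀ ζ ∈ ball p (2 * δ), ContDiffAt ℝ (1 : ℕ) (dz v) ζ := fun ζ hζ =>
    (hdv2 ζ hζ).of_le (by exact_mod_cast (by norm_num : (1 : ℕ) ≤ 2))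
  have hddv : ∀ ζ ∈ ball p (2 * δ), ContDiffAt ℝ (1 : ℕ) (cz (dz v)) ζ := fun ζ hζ =>
    (contDiffAt_cz (dz v) ζ 1 (by exact_mod_cast hdv2 ζ hζ)).1
  have hTT : ∀ ζ ∈ ball p (2 * δ), ContDiffAt ℝ (1 : ℕ) (TT u v) ζ := by
    intro ζ hζ
    have h1 : ContDiffAt ℝ (1 : ℕ) (fun z => cz (dz v) z - (dz u z) ^ 2 / 2) ζ := by
      refine (hddv ζ hζ).sub ?_
      have h2 := ((hdu1 ζ hζ).pow 2).mul (contDiffAt_const (c := (2 : ℂ)⁻¹))
      simpa [div_eq_mul_inv] using h2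
    exact h1
  -- the cutoffs
  set χc : ℂ → ℂ := fun w => ((χ w : ℝ) : ℂ) with hχc
  set ψc : ℂ → ℂ := fun w => ((ψ w : ℝ) : ℂ) with hψc
  have χcs : ContDiff ℝ ∞ χc := Complex.ofRealCLM.contDiff.comp χs
  have ψcs : ContDiff ℝ ∞ ψc := Complex.ofRealCLM.contDiff.comp ψs
  have χcz : ∀ ζ, ζ ∉ ball p (7 * δ / 8) → χc ζ = 0 := by
    intro ζ hζ
    simp only [hχc, χzero ζ hζ, Complex.ofReal_zero]
  have ψcz : ∀ ζ, ζ ∉ ball p (7 * δ / 4) → ψc ζ = 0 := by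
    intro ζ hζ
    have : ζ ∉ ball p (7 * (2 * δ) / 8) := by
      rw [show 7 * (2 * δ) / 8 = 7 * δ / 4 by ring]
      exact hζ
    simp only [hψc, ψzero ζ this, Complex.ofReal_zero]
  have ψc1 : ∀ ζ ∈ closedBall p (3 * δ / 2), ψc ζ = 1 := by
    intro ζ hζ
    have : ζ ∈ closedBall p (3 * (2 * δ) / 4) := by
      rw [show 3 * (2 * δ) / 4 = 3 * δ / 2 by ring]
      exact hζ
    simp only [hψc, ψone ζ this, Complex.ofReal_one]
  have χdiff : ∀ ζ, DifferentiableAt ℝ χ ζ := fun ζ =>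
    (χs.differentiable (by simp)).differentiableAt
  set b : ℂ → ℂ := cb χc with hb
  have hbe : ∀ ζ, b ζ = (starRingEnd ℂ) (dz χ ζ) := fun ζ => cb_ofReal χ ζ (χdiff ζ)
  have hbn : ∀ ζ, ‖b ζ‖ ≤ C0 / δ / 2 := by
    intro ζ
    rw [hbe, RCLike.norm_conj, norm_dz]
    linarith [χd ζ]
  have hb0 : ∀ ζ, ζ ∉ ball p (7 * δ / 8) → b ζ = 0 := by
    intro ζ hζ
    rw [hbe, dz_zero (cut_zero χ0 (χzero ζ hζ)), map_zero]
  have hb1 : ∀ ζ ∈ closedBall p (3 * δ / 4), b ζ = 0 := by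
    intro ζ hζ
    rw [hbe, dz_zero (cut_one χ1 (χone ζ hζ)), map_zero]
  have hbs : ContDiff ℝ (1 : ℕ) b := by
    rw [contDiff_iff_contDiffAt]
    intro ζ
    refine (contDiffAt_cz χc ζ 1 ?_).2
    exact (χcs.contDiffAt).of_le (le_inf _)
  -- distances
  have hz34 : z ∈ ball p (3 * δ / 4) := by
    rw [mem_ball, dist_eq_norm]
    linarith
  have hdist : ∀ ζ, ζ ∉ ball p (3 * δ / 4) → δ / 4 ≤ ‖z - ζ‖ := by
    intro ζ hζ
    rw [mem_ball, dist_eq_norm, not_lt] at hζ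
    have h1 : ‖ζ - p‖ ≤ ‖z - ζ‖ + ‖z - p‖ := by
      have : ζ - p = -(z - ζ) + (z - p) := by ring
      rw [this]
      exact (norm_add_le _ _).trans (by rw [norm_neg])
    linarith
  have hne : ∀ ζ, ζ ∉ ball p (3 * δ / 4) → ζ ≠ z := by
    intro ζ hζ h
    rw [h] at hζ
    exact hζ hz34
  -- the kernel k
  set k : ℂ → ℂ := fun ζ => b ζ * (z - ζ)⁻¹ with hk
  have hk0 : ∀ ζ, ζ ∉ ball p (7 * δ / 8) → k ζ = 0 := by
    intro ζ hζ
    simp only [hk, hb0 ζ hζ, zero_mul]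
  have hkin : ∀ ζ ∈ ball p (3 * δ / 4), k =ᶠ[𝓝 ζ] fun _ => 0 := by
    intro ζ hζ
    filter_upwards [isOpen_ball.mem_nhds hζ] with w hw
    simp only [hk, hb1 w (ball_subset_closedBall hw), zero_mul]
  have hinvs : ∀ ζ, ζ ≠ z → ContDiffAt ℝ (1 : ℕ) (fun w : ℂ => (z - w)⁻¹) ζ := by
    intro ζ hζ
    refine ContDiffAt.inv ?_ (sub_ne_zero.2 hζ.symm)
    exact contDiffAt_const.sub contDiffAt_id
  have hks : ContDiff ℝ (1 : ℕ) k := by
    rw [contDiff_iff_contDiffAt]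
    intro ζ
    by_cases hζ : ζ ∈ ball p (3 * δ / 4)
    · exact contDiffAt_const.congr_of_eventuallyEq (hkin ζ hζ)
    · exact (hbs.contDiffAt).mul (hinvs ζ (hne ζ hζ))
  have hkc : HasCompactSupport k := csupp hk0
  -- bound of cz k
  have hczk0 : ∀ ζ, ζ ∉ ball p δ → cz k ζ = 0 := by
    intro ζ hζ
    exact cz_zero' (nhds_out (by linarith) hζ hk0)
  have hczk : ∀ ζ, ‖cz k ζ‖ ≤ 12 * C0 / δ ^ 3 := by
    intro ζ
    by_cases hζ : ζ ∈ ball p (3 * δ / 4)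
    · rw [cz_zero' (hkin ζ hζ), norm_zero]
      positivity
    · have hzz := hne ζ hζ
      have h1 : cz k ζ = cz b ζ * (z - ζ)⁻¹ + b ζ * (z - ζ)⁻¹ ^ 2 := by
        have h2 := cz_mul b (fun w : ℂ => (z - w)⁻¹) ζ
          ((hbs.contDiffAt).differentiableAt (by norm_num))
          ((hinvs ζ hzz).differentiableAt (by norm_num))
        rw [(cz_holo _ _ _ (inv_holo hzz)).1] at h2
        exact h2
      have h3 : ‖(z - ζ)⁻¹‖ ≤ 4 / δ := by
        rw [norm_inv]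
        have h4 := hdist ζ hζ
        rw [show 4 / δ = (δ / 4)⁻¹ by rw [inv_div]]
        exact inv_anti₀ (by positivity) h4
      have h5 : ‖cz b ζ‖ ≤ C0 / δ ^ 2 := by
        have h6 : b = fun w => (starRingEnd ℂ) (dz χ w) := funext hbe
        have h7 : DifferentiableAt ℝ (dz χ) ζ := by
          have h8 : ContDiffAt ℝ (1 : ℕ) (dz χ) ζ :=
            contDiffAt_dz χ ζ 1 ((χs.contDiffAt).of_le (le_inf _))
          exact h8.differentiableAt (by norm_num)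
        rw [h6, cz_conj _ _ h7, RCLike.norm_conj]
        exact (norm_cb_le _ _).trans (χdd ζ)
      have h9 : ‖(z - ζ)⁻¹ ^ 2‖ ≤ (4 / δ) ^ 2 := by
        rw [norm_pow]
        exact pow_le_pow_left₀ (norm_nonneg _) h3 2
      rw [h1]
      calc ‖cz b ζ * (z - ζ)⁻¹ + b ζ * (z - ζ)⁻¹ ^ 2‖
          ≤ ‖cz b ζ * (z - ζ)⁻¹‖ + ‖b ζ * (z - ζ)⁻¹ ^ 2‖ := norm_add_le _ _
        _ = ‖cz b ζ‖ * ‖(z - ζ)⁻¹‖ + ‖b ζ‖ * ‖(z - ζ)⁻¹ ^ 2‖ := by rw [norm_mul, norm_mul]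
        _ ≤ C0 / δ ^ 2 * (4 / δ) + C0 / δ / 2 * (4 / δ) ^ 2 := by
            gcongr
            exact hbn ζ
        _ = 12 * C0 / δ ^ 3 := by
            field_simp
            ring
  -- the term with `dz v`
  set f : ℂ → ℂ := fun ζ => ψc ζ * dz v ζ with hf
  have hfs : ContDiff ℝ (1 : ℕ) f :=
    glue (by linarith : 7 * δ / 4 < 2 * δ) (ψcs.of_le (le_inf _)) ψcz hdv1
  have hparts : ∫ ζ, cz f ζ * k ζ = -∫ ζ, f ζ * cz k ζ :=
    parts_cz f k (by exact_mod_cast hfs) (by exact_mod_cast hks) hkc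
  have hczf : ∀ ζ, cz f ζ * k ζ = cz (dz v) ζ * k ζ := by
    intro ζ
    by_cases hζ : ζ ∈ ball p (3 * δ / 2)
    · have h1 : f =ᶠ[𝓝 ζ] dz v := by
        filter_upwards [isOpen_ball.mem_nhds hζ] with w hw
        simp only [hf, ψc1 w (ball_subset_closedBall hw), one_mul]
      rw [cz_congr h1]
    · have h2 : ζ ∉ ball p (7 * δ / 8) := fun h => hζ (ball_subset_ball (by linarith) h)
      rw [hk0 ζ h2, mul_zero, mul_zero]
  have hDint : Integrable (fun ζ => cz (dz v) ζ * k ζ) := by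
    have h1 : Integrable (fun ζ => cz f ζ * k ζ) := by
      have h2 : Continuous (fun ζ => cz f ζ * k ζ) :=
        (continuous_cz (by exact_mod_cast hfs)).mul hks.continuous
      refine h2.integrable_of_hasCompactSupport ?_
      exact hkc.mul_left
    exact h1.congr (Filter.Eventually.of_forall hczf)
  -- integrability on balls
  have hcu : ContinuousOn (fderiv ℝ u) (ball p (2 * δ)) :=
    (hu.continuousOn_fderiv_of_isOpen isOpen_ball (by norm_num))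
  have hcv : ContinuousOn (fderiv ℝ v) (ball p (2 * δ)) :=
    (hv.continuousOn_fderiv_of_isOpen isOpen_ball (by norm_num))
  have hsubc : closedBall p δ ⊆ ball p (2 * δ) := closedBall_subset_ball (by linarith)
  have hIv : IntegrableOn (fun ζ => ‖fderiv ℝ v ζ‖) (ball p δ) :=
    (((hcv.mono hsubc).norm).integrableOn_compact (isCompact_closedBall p δ)).mono_set
      ball_subset_closedBall
  have hIu2 : IntegrableOn (fun ζ => ‖fderiv ℝ u ζ‖ ^ 2) (ball p δ \ ball p (3 * δ / 4)) :=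
    ((((hcu.mono hsubc).norm).pow 2).integrableOn_compact (isCompact_closedBall p δ)).mono_set
      (sdiff_subset.trans ball_subset_closedBall)
  have hIu1 : IntegrableOn (fun ζ => ‖fderiv ℝ u ζ‖ / ‖z - ζ‖) (ball p δ) := by
    have h1 : Continuous (fun ζ => ψc ζ * ((‖fderiv ℝ u ζ‖ : ℝ) : ℂ)) := by
      rw [continuous_iff_continuousAt]
      intro ζ
      by_cases hζ : ζ ∈ ball p (2 * δ)
      · refine (ψcs.continuous.continuousAt).mul ?_
        exact (Complex.continuous_ofReal.continuousAt).comp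
          ((hcu.continuousAt (isOpen_ball.mem_nhds hζ)).norm)
      · have h2 : (fun ζ => ψc ζ * ((‖fderiv ℝ u ζ‖ : ℝ) : ℂ)) =ᶠ[𝓝 ζ] fun _ => 0 :=
          nhds_out (by linarith : 7 * δ / 4 < 2 * δ) hζ
            (fun w hw => by rw [ψcz w hw, zero_mul])
        exact continuousAt_const.congr h2.symm
    have h3 : HasCompactSupport (fun ζ => ψc ζ * ((‖fderiv ℝ u ζ‖ : ℝ) : ℂ)) :=
      csupp (fun w hw => by rw [ψcz w hw, zero_mul])
    have h4 := (integrable_pomp _ h1 h3 z).norm.integrableOn (s := ball p δ)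
    refine h4.congr_fun ?_ measurableSet_ball
    intro ζ hζ
    have h5 : ψc ζ = 1 := ψc1 ζ (ball_subset_closedBall (ball_subset_ball (by linarith) hζ))
    show ‖ψc ζ * ((‖fderiv ℝ u ζ‖ : ℝ) : ℂ) / (z - ζ)‖ = ‖fderiv ℝ u ζ‖ / ‖z - ζ‖
    rw [h5, one_mul, norm_div, Complex.norm_real, norm_norm]
  -- bound of the term with `dz v`
  set Iv := ∫ ζ in ball p δ, ‖fderiv ℝ v ζ‖ with hIvd
  set Iu2 := ∫ ζ in ball p δ \ ball p (3 * δ / 4), ‖fderiv ℝ u ζ‖ ^ 2 with hIu2d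
  set Iu1 := ∫ ζ in ball p δ, ‖fderiv ℝ u ζ‖ / ‖z - ζ‖ with hIu1d
  have hDbd : ‖∫ ζ, cz (dz v) ζ * k ζ‖ ≤ 6 * C0 / δ ^ 3 * Iv := by
    have h0 : ∫ ζ, cz (dz v) ζ * k ζ = -∫ ζ, f ζ * cz k ζ := by
      rw [← hparts]
      exact integral_congr_ae (Filter.Eventually.of_forall (fun ζ => (hczf ζ).symm))
    rw [h0, norm_neg]
    have h1 : Integrable ((ball p δ).indicator (fun ζ => 6 * C0 / δ ^ 3 * ‖fderiv ℝ v ζ‖)) :=
      (integrable_indicator_iff measurableSet_ball).2 (hIv.const_mul _)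
    have h2 : ‖∫ ζ, f ζ * cz k ζ‖ ≤
        ∫ ζ, (ball p δ).indicator (fun ζ => 6 * C0 / δ ^ 3 * ‖fderiv ℝ v ζ‖) ζ := by
      refine norm_integral_le_of_norm_le h1 (Filter.Eventually.of_forall ?_)
      intro ζ
      by_cases hζ : ζ ∈ ball p δ
      · rw [indicator_of_mem hζ, norm_mul]
        have h3 : ‖f ζ‖ ≤ ‖fderiv ℝ v ζ‖ / 2 := by
          have h4 : f ζ = ψc ζ * dz v ζ := rfl
          rw [h4, norm_mul, norm_dz]
          have h5 : ‖ψc ζ‖ ≤ 1 := by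
            have h6 : ψc ζ = ((ψ ζ : ℝ) : ℂ) := rfl
            rw [h6, Complex.norm_real, Real.norm_eq_abs, abs_of_nonneg (ψ0 ζ)]
            exact ψ1 ζ
          calc ‖ψc ζ‖ * (‖fderiv ℝ v ζ‖ / 2) ≤ 1 * (‖fderiv ℝ v ζ‖ / 2) := by gcongr
            _ = _ := one_mul _
        calc ‖f ζ‖ * ‖cz k ζ‖ ≤ (‖fderiv ℝ v ζ‖ / 2) * (12 * C0 / δ ^ 3) := by
              gcongr
              exact hczk ζ
          _ = 6 * C0 / δ ^ 3 * ‖fderiv ℝ v ζ‖ := by ring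
      · rw [indicator_of_notMem hζ, hczk0 ζ hζ, mul_zero, norm_zero]
    refine h2.trans (le_of_eq ?_)
    rw [integral_indicator measurableSet_ball, integral_const_mul]
  -- the representation
  set Fc : ℂ → ℂ := fun ζ => χc ζ * TT u v ζ with hFc
  have hFs : ContDiff ℝ (1 : ℕ) Fc :=
    glue (by linarith : 7 * δ / 8 < 2 * δ) (χcs.of_le (le_inf _)) χcz hTT
  have hFcs : HasCompactSupport Fc := csupp (fun w hw => by
    show χc w * TT u v w = 0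
    rw [χcz w hw, zero_mul])
  have hFs' : ContDiff ℝ 1 Fc := by exact_mod_cast hFs
  have hrep := pompeiu Fc hFs' hFcs z
  have hFz : Fc z = TT u v z := by
    have h1 : χc z = 1 := by
      show ((χ z : ℝ) : ℂ) = 1
      rw [χone z (ball_subset_closedBall hz34), Complex.ofReal_one]
    show χc z * TT u v z = TT u v z
    rw [h1, one_mul]
  have hcbF : ∀ ζ, cb Fc ζ = b ζ * TT u v ζ + χc ζ * (((κ ζ / 4 : ℝ) : ℂ) * dz u ζ) := by
    intro ζ
    by_cases hζ : ζ ∈ ball p (2 * δ)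
    · rw [← hT ζ hζ]
      exact cb_mul χc (TT u v) ζ ((χcs.differentiable (by simp)).differentiableAt)
        ((hTT ζ hζ).differentiableAt (by norm_num))
    · have h1 : ζ ∉ ball p (7 * δ / 8) := fun h => hζ (ball_subset_ball (by linarith) h)
      rw [hb0 ζ h1, χcz ζ h1, zero_mul, zero_mul, add_zero]
      refine cb_zero' (nhds_out (by linarith : 7 * δ / 8 < 2 * δ) hζ ?_)
      intro w hw
      show χc w * TT u v w = 0
      rw [χcz w hw, zero_mul]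
  have hWint : Integrable (fun ζ => cb Fc ζ / (z - ζ)) :=
    integrable_pomp (cb Fc) (continuous_cb hFs') (csupp_cb hFcs) z
  have hsplit : ∫ ζ, cb Fc ζ / (z - ζ) =
      (∫ ζ, (cb Fc ζ / (z - ζ) - cz (dz v) ζ * k ζ)) + ∫ ζ, cz (dz v) ζ * k ζ := by
    rw [integral_sub hWint hDint]
    ring
  have hdiff : ∀ ζ, cb Fc ζ / (z - ζ) - cz (dz v) ζ * k ζ =
      (χc ζ * (((κ ζ / 4 : ℝ) : ℂ) * dz u ζ)) * (z - ζ)⁻¹ -
        k ζ * ((dz u ζ) ^ 2 / 2) := by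
    intro ζ
    rw [hcbF ζ]
    show (b ζ * (cz (dz v) ζ - (dz u ζ) ^ 2 / 2) + χc ζ * (((κ ζ / 4 : ℝ) : ℂ) * dz u ζ)) /
      (z - ζ) - cz (dz v) ζ * (b ζ * (z - ζ)⁻¹) = _
    show _ = (χc ζ * (((κ ζ / 4 : ℝ) : ℂ) * dz u ζ)) * (z - ζ)⁻¹ -
      (b ζ * (z - ζ)⁻¹) * ((dz u ζ) ^ 2 / 2)
    rw [div_eq_mul_inv]
    ring
  have hABbd : ‖∫ ζ, (cb Fc ζ / (z - ζ) - cz (dz v) ζ * k ζ)‖ ≤
      1 / 8 * Iu1 + C0 / (4 * δ ^ 2) * Iu2 := by
    have i1 : Integrable ((ball p δ).indicator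
        (fun ζ => 1 / 8 * (‖fderiv ℝ u ζ‖ / ‖z - ζ‖))) :=
      (integrable_indicator_iff measurableSet_ball).2 (hIu1.const_mul _)
    have hms : MeasurableSet (ball p δ \ ball p (3 * δ / 4)) :=
      measurableSet_ball.diff measurableSet_ball
    have i2 : Integrable ((ball p δ \ ball p (3 * δ / 4)).indicator
        (fun ζ => C0 / (4 * δ ^ 2) * ‖fderiv ℝ u ζ‖ ^ 2)) :=
      (integrable_indicator_iff hms).2 (hIu2.const_mul _)
    have h2 : ‖∫ ζ, (cb Fc ζ / (z - ζ) - cz (dz v) ζ * k ζ)‖ ≤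
        ∫ ζ, ((ball p δ).indicator (fun ζ => 1 / 8 * (‖fderiv ℝ u ζ‖ / ‖z - ζ‖)) ζ +
          (ball p δ \ ball p (3 * δ / 4)).indicator
            (fun ζ => C0 / (4 * δ ^ 2) * ‖fderiv ℝ u ζ‖ ^ 2) ζ) := by
      refine norm_integral_le_of_norm_le (i1.add i2) (Filter.Eventually.of_forall ?_)
      intro ζ
      show ‖cb Fc ζ / (z - ζ) - cz (dz v) ζ * k ζ‖ ≤ _
      rw [hdiff ζ]
      refine (norm_sub_le _ _).trans (add_le_add ?_ ?_)
      · by_cases hζ : ζ ∈ ball p δ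
        · rw [indicator_of_mem hζ, norm_mul, norm_mul, norm_mul, norm_dz, norm_inv]
          have h3 : ‖χc ζ‖ ≤ 1 := by
            have h6 : χc ζ = ((χ ζ : ℝ) : ℂ) := rfl
            rw [h6, Complex.norm_real, Real.norm_eq_abs, abs_of_nonneg (χ0 ζ)]
            exact χ1 ζ
          have h4 : ‖((κ ζ / 4 : ℝ) : ℂ)‖ ≤ 1 / 4 := by
            rw [Complex.norm_real, Real.norm_eq_abs, abs_div, abs_of_pos (by norm_num : (0:ℝ) < 4)]
            linarith [hκ ζ]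
          calc ‖χc ζ‖ * (‖((κ ζ / 4 : ℝ) : ℂ)‖ * (‖fderiv ℝ u ζ‖ / 2)) * ‖z - ζ‖⁻¹
              ≤ 1 * (1 / 4 * (‖fderiv ℝ u ζ‖ / 2)) * ‖z - ζ‖⁻¹ := by gcongr
            _ = 1 / 8 * (‖fderiv ℝ u ζ‖ / ‖z - ζ‖) := by
                rw [div_eq_mul_inv ‖fderiv ℝ u ζ‖ ‖z - ζ‖]
                ring
        · have h1 : ζ ∉ ball p (7 * δ / 8) := fun h => hζ (ball_subset_ball (by linarith) h)
          rw [indicator_of_notMem hζ, χcz ζ h1, zero_mul, zero_mul, norm_zero]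
      · by_cases hζ : ζ ∈ ball p δ \ ball p (3 * δ / 4)
        · rw [indicator_of_mem hζ, norm_mul]
          have h3 : ‖k ζ‖ ≤ (C0 / δ / 2) * (4 / δ) := by
            have h4 : k ζ = b ζ * (z - ζ)⁻¹ := rfl
            rw [h4, norm_mul, norm_inv]
            have h5 : ‖z - ζ‖⁻¹ ≤ 4 / δ := by
              rw [show 4 / δ = (δ / 4)⁻¹ by rw [inv_div]]
              exact inv_anti₀ (by positivity) (hdist ζ hζ.2)
            gcongr
            exact hbn ζ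
          have h6 : ‖(dz u ζ) ^ 2 / 2‖ = ‖fderiv ℝ u ζ‖ ^ 2 / 8 := by
            rw [norm_div, norm_pow, norm_dz]
            have : ‖(2 : ℂ)‖ = 2 := by simp
            rw [this]
            ring
          rw [h6]
          calc ‖k ζ‖ * (‖fderiv ℝ u ζ‖ ^ 2 / 8)
              ≤ (C0 / δ / 2) * (4 / δ) * (‖fderiv ℝ u ζ‖ ^ 2 / 8) := by gcongr
            _ = C0 / (4 * δ ^ 2) * ‖fderiv ℝ u ζ‖ ^ 2 := by
                field_simp
                ring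
        · rw [indicator_of_notMem hζ]
          have h3 : k ζ = 0 := by
            by_cases h4 : ζ ∈ ball p (3 * δ / 4)
            · exact (hkin ζ h4).self_of_nhds
            · refine hk0 ζ (fun h5 => hζ ⟨ball_subset_ball (by linarith) h5, h4⟩)
          rw [h3, zero_mul, norm_zero]
    refine h2.trans (le_of_eq ?_)
    rw [integral_add i1 i2, integral_indicator measurableSet_ball, integral_indicator hms,
      integral_const_mul, integral_const_mul]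
  -- conclusion
  have hIv0 : 0 ≤ Iv := integral_nonneg (fun _ => norm_nonneg _)
  have hIu20 : 0 ≤ Iu2 := integral_nonneg (fun _ => by positivity)
  have hIu10 : 0 ≤ Iu1 := integral_nonneg (fun _ => by positivity)
  rw [← hFz, hrep, norm_mul, hsplit]
  have hpi : ‖((1 / π : ℝ) : ℂ)‖ ≤ 1 := by
    rw [Complex.norm_real, Real.norm_eq_abs, abs_of_nonneg (by positivity),
      div_le_one Real.pi_pos]
    linarith [Real.pi_gt_three]
  have htot := (norm_add_le (∫ ζ, (cb Fc ζ / (z - ζ) - cz (dz v) ζ * k ζ))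
    (∫ ζ, cz (dz v) ζ * k ζ)).trans (add_le_add hABbd hDbd)
  have hd3 : 0 ≤ Iv / δ ^ 3 := by positivity
  have hd2 : 0 ≤ Iu2 / δ ^ 2 := by positivity
  calc _ ≤ 1 * ((1 / 8 * Iu1 + C0 / (4 * δ ^ 2) * Iu2) + 6 * C0 / δ ^ 3 * Iv) := by
        gcongr
    _ = 6 * C0 * (Iv / δ ^ 3) + C0 / 4 * (Iu2 / δ ^ 2) + 1 / 8 * Iu1 := by
        field_simp
        ring
    _ ≤ (1 + 6 * C0) * (Iv / δ ^ 3 + Iu2 / δ ^ 2 + Iu1) := by
        nlinarith [mul_nonneg hC0.le hd3, mul_nonneg hC0.le hd2, mul_nonneg hC0.le hIu10]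

end AO

end
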