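import Pool.Agent.Lib.AO.Calc1

/-!
Wirtinger calculus, second order: Laplacians and smoothness of partial derivatives.
-/

set_option autoImplicit false

open Complex MeasureTheory Set Metric Filter
open scoped Real ContDiff Topology

noncomputable section

namespace AO

section aux

variable {E : Type} [NormedAddCommGroup E] [NormedSpace ℝ E]

theorem hasFDerivAt_dir (h : ℂ → E) (z e : ℂ) (hh : ContDiffAt ℝ 2 h z) :
    HasFDerivAt (fun w => fderiv ℝ h w e) ((ContinuousLinearMap.apply ℝ E e).comp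
      (fderiv ℝ (fderiv ℝ h) z)) z := by
  have h1 : ContDiffAt ℝ 1 (fderiv ℝ h) z := hh.fderiv_right (by norm_num)
  have h2 : HasFDerivAt (fderiv ℝ h) (fderiv ℝ (fderiv ℝ h) z) z :=
    (h1.differentiableAt (by norm_num)).hasFDerivAt
  exact (ContinuousLinearMap.apply ℝ E e).hasFDerivAt.comp z h2

theorem fderiv_dir (h : ℂ → E) (z e v : ℂ) (hh : ContDiffAt ℝ 2 h z) :
    fderiv ℝ (fun w => fderiv ℝ h w e) z v = fderiv ℝ (fderiv ℝ h) z v e := by
  rw [(hasFDerivAt_dir h z e hh).fderiv]; rfl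

theorem snd_symm (h : ℂ → E) (z e v : ℂ) (hh : ContDiffAt ℝ 2 h z) :
    fderiv ℝ (fderiv ℝ h) z v e = fderiv ℝ (fderiv ℝ h) z e v := by
  have := hh.isSymmSndFDerivAt (by simp)
  exact this v e

end aux

theorem lap_eq (u : ℂ → ℝ) (z : ℂ) (hu : ContDiffAt ℝ 2 u z) :
    lap u z = fderiv ℝ (fderiv ℝ u) z 1 1 + fderiv ℝ (fderiv ℝ u) z I I := by
  have h1 := fderiv_dir u z 1 1 hu
  have h2 := fderiv_dir u z I I hu
  unfold lap dx dy
  rw [h1, h2]

theorem cb_dz (u : ℂ → ℝ) (z : ℂ) (hu : ContDiffAt ℝ 2 u z) :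
    cb (dz u) z = ((lap u z / 4 : ℝ) : ℂ) := by
  have h1 := hasFDerivAt_dir u z 1 hu
  have h2 := hasFDerivAt_dir u z I hu
  have h1c := Complex.ofRealCLM.hasFDerivAt.comp z h1
  have h2c := Complex.ofRealCLM.hasFDerivAt.comp z h2
  have h3 := (h1c.sub (h2c.const_mul Complex.I)).const_mul ((2 : ℂ)⁻¹)
  have h5 := h3.congr_of_eventuallyEq (f₁ := dz u) (Eventually.of_forall fun w => by
    simp only [dz, dx, dy, Function.comp, Complex.ofRealCLM_apply, Pi.sub_apply]
    ring)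
  have hs := snd_symm u z 1 I hu
  rw [lap_eq u z hu]
  unfold cb dx dy
  rw [h5.fderiv]
  simp only [ContinuousLinearMap.smul_apply, ContinuousLinearMap.sub_apply,
    ContinuousLinearMap.comp_apply, ContinuousLinearMap.apply_apply, Complex.ofRealCLM_apply,
    smul_eq_mul, hs]
  push_cast
  linear_combination (-(1 / 4 : ℂ) * (fderiv ℝ (fderiv ℝ u) z I I : ℝ)) * Complex.I_sq

theorem lap_add (u v : ℂ → ℝ) (z : ℂ) (hu : ContDiffAt ℝ 2 u z) (hv : ContDiffAt ℝ 2 v z) :
    lap (fun w => u w + v w) z = lap u z + lap v z := by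
  rw [lap_eq _ z (hu.add hv), lap_eq u z hu, lap_eq v z hv]
  have h0 : fderiv ℝ (fun w => u w + v w) =ᶠ[𝓝 z] fun w => fderiv ℝ u w + fderiv ℝ v w := by
    have e1 := (hu.eventually (by simp)).and (hv.eventually (by simp))
    filter_upwards [e1] with w hw
    exact fderiv_add (hw.1.differentiableAt (by norm_num)) (hw.2.differentiableAt (by norm_num))
  have hu1 : ContDiffAt ℝ 1 (fderiv ℝ u) z := hu.fderiv_right (by norm_num)
  have hv1 : ContDiffAt ℝ 1 (fderiv ℝ v) z := hv.fderiv_right (by norm_num)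
  have h1 : fderiv ℝ (fderiv ℝ (fun w => u w + v w)) z =
      fderiv ℝ (fderiv ℝ u) z + fderiv ℝ (fderiv ℝ v) z := by
    rw [h0.fderiv_eq]
    exact fderiv_add (hu1.differentiableAt (by norm_num)) (hv1.differentiableAt (by norm_num))
  rw [h1]
  simp only [ContinuousLinearMap.add_apply]
  ring

theorem lap_const_mul (k : ℝ) (u : ℂ → ℝ) (z : ℂ) (hu : ContDiffAt ℝ 2 u z) :
    lap (fun w => k * u w) z = k * lap u z := by
  rw [lap_eq _ z (contDiffAt_const.mul hu), lap_eq u z hu]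
  have h0 : fderiv ℝ (fun w => k * u w) =ᶠ[𝓝 z] fun w => k • fderiv ℝ u w := by
    have e1 := (hu.eventually (by simp))
    filter_upwards [e1] with w hw
    exact fderiv_const_mul (hw.differentiableAt (by norm_num)) k
  have hu1 : ContDiffAt ℝ 1 (fderiv ℝ u) z := hu.fderiv_right (by norm_num)
  have h1 : fderiv ℝ (fderiv ℝ (fun w => k * u w)) z = k • fderiv ℝ (fderiv ℝ u) z := by
    rw [h0.fderiv_eq]
    exact fderiv_const_smul (hu1.differentiableAt (by norm_num)) k
  rw [h1]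
  simp only [ContinuousLinearMap.smul_apply, smul_eq_mul]
  ring

theorem lap_sub (u v : ℂ → ℝ) (z : ℂ) (hu : ContDiffAt ℝ 2 u z) (hv : ContDiffAt ℝ 2 v z) :
    lap (fun w => u w - v w) z = lap u z - lap v z := by
  have h : (fun w => u w - v w) = fun w => u w + (-1) * v w := by
    funext w; ring
  rw [h, lap_add u _ z hu (contDiffAt_const.mul hv), lap_const_mul _ v z hv]
  ring

/-- Laplacian of `exp u`. -/
theorem lap_exp (u : ℂ → ℝ) (z : ℂ) (hu : ContDiffAt ℝ 2 u z) :
    lap (fun w => Real.exp (u w)) z = Real.exp (u z) * (lap u z + ‖fderiv ℝ u z‖ ^ 2) := by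
  have hd : ∀ e : ℂ, (fun w => fderiv ℝ (fun w => Real.exp (u w)) w e) =ᶠ[𝓝 z]
      fun w => Real.exp (u w) * fderiv ℝ u w e := by
    intro e
    filter_upwards [hu.eventually (by simp)] with w hw
    have h1 := (hw.differentiableAt (by norm_num)).hasFDerivAt.exp
    rw [h1.fderiv]
    rfl
  have hd2 : ∀ e : ℂ, fderiv ℝ (fun w => fderiv ℝ (fun w => Real.exp (u w)) w e) z e =
      Real.exp (u z) * (fderiv ℝ (fderiv ℝ u) z e e + (fderiv ℝ u z e) ^ 2) := by
    intro e
    rw [(hd e).fderiv_eq]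
    have h1 := (hu.differentiableAt (by norm_num)).hasFDerivAt.exp
    have h2 := h1.mul (hasFDerivAt_dir u z e hu)
    have h3 : fderiv ℝ (fun w => Real.exp (u w) * fderiv ℝ u w e) z = _ := h2.fderiv
    rw [h3]
    simp only [ContinuousLinearMap.add_apply, ContinuousLinearMap.smul_apply,
      ContinuousLinearMap.comp_apply, ContinuousLinearMap.apply_apply, smul_eq_mul]
    ring
  have hn : ‖fderiv ℝ u z‖ ^ 2 = (fderiv ℝ u z 1) ^ 2 + (fderiv ℝ u z I) ^ 2 := by
    have h1 := norm_dz u z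
    have h2 : ‖dz u z‖ ^ 2 = ((fderiv ℝ u z 1) ^ 2 + (fderiv ℝ u z I) ^ 2) / 4 := by
      rw [← Complex.normSq_eq_norm_sq, Complex.normSq_apply]
      simp only [dz, dx, dy]
      simp
      ring
    rw [h1] at h2
    linarith [h2]
  rw [lap_eq u z hu, hn]
  have : lap (fun w => Real.exp (u w)) z =
      fderiv ℝ (fun w => fderiv ℝ (fun w => Real.exp (u w)) w 1) z 1 +
      fderiv ℝ (fun w => fderiv ℝ (fun w => Real.exp (u w)) w I) z I := rfl
  rw [this, hd2, hd2]
  ring

/-- The Laplacian depends only on the germ. -/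
theorem lap_congr (u v : ℂ → ℝ) (z : ℂ) (h : u =ᶠ[𝓝 z] v) : lap u z = lap v z := by
  have h1 : fderiv ℝ u =ᶠ[𝓝 z] fderiv ℝ v := h.fderiv
  have hx : dx u =ᶠ[𝓝 z] dx v := by
    filter_upwards [h1] with w hw
    simp only [dx, hw]
  have hy : dy u =ᶠ[𝓝 z] dy v := by
    filter_upwards [h1] with w hw
    simp only [dy, hw]
  have h2 : dx (dx u) z = dx (dx v) z := by
    unfold dx at hx ⊢
    rw [hx.fderiv_eq]
  have h3 : dy (dy u) z = dy (dy v) z := by
    unfold dy at hy ⊢
    rw [hy.fderiv_eq]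
  rw [lap, lap, h2, h3]

theorem lap_scale (u : ℂ → ℝ) (k : ℝ) (z : ℂ) (hu : ContDiffAt ℝ 2 u (k * z)) :
    lap (fun w => u (k * w)) z = k ^ 2 * lap u (k * z) := by
  have h1 : ∀ (e : ℂ), (fun w => fderiv ℝ (fun w => u (k * w)) w e) =
      fun w => k * fderiv ℝ u (k * w) e := by
    intro e
    funext w
    have h2 : fderiv ℝ (fun x => u (k • x)) w = k • fderiv ℝ u (k • w) := fderiv_comp_smul ..
    simp only [Complex.real_smul] at h2
    rw [h2]
    rfl
  have h3 : ∀ (e : ℂ), fderiv ℝ (fun w => fderiv ℝ (fun w => u (k * w)) w e) z e =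
      k ^ 2 * fderiv ℝ (fderiv ℝ u) (k * z) e e := by
    intro e
    rw [h1 e]
    have h4 := hasFDerivAt_dir u (k * z) e hu
    have h5 : HasFDerivAt (fun w : ℂ => (k : ℂ) * w) (k • ContinuousLinearMap.id ℝ ℂ) z := by
      have := (hasFDerivAt_id (𝕜 := ℝ) z).const_smul k
      exact this.congr_of_eventuallyEq (Eventually.of_forall fun w => by simp)
    have h6 := (h4.comp z h5).const_mul k
    have h7 : fderiv ℝ (fun w => k * fderiv ℝ u (k * w) e) z = _ := h6.fderiv
    rw [h7]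
    simp only [ContinuousLinearMap.smul_apply, ContinuousLinearMap.comp_apply,
      ContinuousLinearMap.apply_apply, smul_eq_mul, map_smul, ContinuousLinearMap.id_apply]
    ring
  have : lap (fun w => u (k * w)) z =
      fderiv ℝ (fun w => fderiv ℝ (fun w => u (k * w)) w 1) z 1 +
      fderiv ℝ (fun w => fderiv ℝ (fun w => u (k * w)) w I) z I := rfl
  rw [this, h3, h3, lap_eq u _ hu]
  ring

theorem lap_translate (u : ℂ → ℝ) (a z : ℂ) : lap (fun w => u (w + a)) z = lap u (z + a) := by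
  have h1 : ∀ w, fderiv ℝ (fun w => u (w + a)) w = fderiv ℝ u (w + a) := fun w =>
    fderiv_comp_add_right (f := u) (x := w) a
  have h2 : ∀ e : ℂ, (fun w => fderiv ℝ (fun w => u (w + a)) w e) =
      fun w => (fun y => fderiv ℝ u y e) (w + a) := by
    intro e; funext w; rw [h1]
  have h3 : ∀ e : ℂ, fderiv ℝ (fun w => fderiv ℝ (fun w => u (w + a)) w e) z =
      fderiv ℝ (fun y => fderiv ℝ u y e) (z + a) := by
    intro e
    rw [h2 e]
    exact fderiv_comp_add_right (f := fun y => fderiv ℝ u y e) (x := z) a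
  show fderiv ℝ (fun w => fderiv ℝ (fun w => u (w + a)) w 1) z 1 +
      fderiv ℝ (fun w => fderiv ℝ (fun w => u (w + a)) w I) z I =
      fderiv ℝ (fun y => fderiv ℝ u y 1) (z + a) 1 + fderiv ℝ (fun y => fderiv ℝ u y I) (z + a) I
  rw [h3, h3]

theorem contDiffAt_dx {E : Type} [NormedAddCommGroup E] [NormedSpace ℝ E] (h : ℂ → E) (z : ℂ) (n : ℕ)
    (hh : ContDiffAt ℝ (n + 1 : ℕ) h z) : ContDiffAt ℝ n (dx h) z ∧ ContDiffAt ℝ n (dy h) z := by
  have h1 : ContDiffAt ℝ n (fderiv ℝ h) z := hh.fderiv_right (by push_cast; exact le_rfl)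
  exact ⟨h1.clm_apply contDiffAt_const, h1.clm_apply contDiffAt_const⟩

theorem contDiffAt_dz (u : ℂ → ℝ) (z : ℂ) (n : ℕ) (hu : ContDiffAt ℝ (n + 1 : ℕ) u z) :
    ContDiffAt ℝ n (dz u) z := by
  obtain ⟨h1, h2⟩ := contDiffAt_dx u z n hu
  have h1c : ContDiffAt ℝ n (fun w => Complex.ofRealCLM (dx u w)) z :=
    Complex.ofRealCLM.contDiff.contDiffAt.comp z h1
  have h2c : ContDiffAt ℝ n (fun w => Complex.ofRealCLM (dy u w)) z :=
    Complex.ofRealCLM.contDiff.contDiffAt.comp z h2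
  have h3 := (h1c.sub (contDiffAt_const.mul h2c (f := fun _ => Complex.I))).mul
    (contDiffAt_const (c := (2 : ℂ)⁻¹))
  refine h3.congr_of_eventuallyEq (Eventually.of_forall fun w => ?_)
  simp only [dz, Complex.ofRealCLM_apply]
  ring

theorem contDiffAt_cz (f : ℂ → ℂ) (z : ℂ) (n : ℕ) (hf : ContDiffAt ℝ (n + 1 : ℕ) f z) :
    ContDiffAt ℝ n (cz f) z ∧ ContDiffAt ℝ n (cb f) z := by
  obtain ⟨h1, h2⟩ := contDiffAt_dx f z n hf
  constructor
  · have h3 := (h1.sub (contDiffAt_const.mul h2 (f := fun _ => Complex.I))).mul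
      (contDiffAt_const (c := (2 : ℂ)⁻¹))
    refine h3.congr_of_eventuallyEq (Eventually.of_forall fun w => ?_)
    simp only [cz]
    ring
  · have h3 := (h1.add (contDiffAt_const.mul h2 (f := fun _ => Complex.I))).mul
      (contDiffAt_const (c := (2 : ℂ)⁻¹))
    refine h3.congr_of_eventuallyEq (Eventually.of_forall fun w => ?_)
    simp only [cb]
    ring

end AO

end
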