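import Pool.Agent.Lib.AO.Defs

/-
STUB Calc1 / Calc (library AO, MP_7bfba2_an). Replace the sorries, keep the statements.
Wirtinger calculus.  Everything follows from the definitions (Defs.lean), the real linearity of fderiv and the symmetry of second
derivatives (ContDiffAt.isSymmSndFDerivAt).  If a function is not differentiable its fderiv is 0 and the identities norm_dz,
fderiv_eq_dz, fderiv_eq_cz hold trivially.
norm_dz: the functional L(e) = a e.re + b e.im has operator norm sqrt(a²+b²) (e = a + I b attains it; Complex.norm_def...).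
cb_dz: cb (dz u) = (1/4)(u_xx + u_yy) + (i/4)(dy dx u - dx dy u), the second term is 0 by symmetry.
-/

set_option autoImplicit false

open Complex MeasureTheory Set Metric Filter
open scoped Real ContDiff Topology

noncomputable section

namespace AO

namespace Calc1Aux

variable {E : Type} [NormedAddCommGroup E] [NormedSpace ℝ E]

theorem fd_eq (h : ℂ → E) (z e : ℂ) :
    fderiv ℝ h z e = e.re • dx h z + e.im • dy h z := by
  have he : e = e.re • (1 : ℂ) + e.im • Complex.I := by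
    apply Complex.ext <;> simp
  conv_lhs => rw [he]
  rw [map_add, map_smul, map_smul]
  rfl

theorem dx_of {h : ℂ → E} {h' : ℂ →L[ℝ] E} {z : ℂ} (H : HasFDerivAt h h' z) :
    dx h z = h' 1 := by
  unfold dx
  rw [H.fderiv]

theorem dy_of {h : ℂ → E} {h' : ℂ →L[ℝ] E} {z : ℂ} (H : HasFDerivAt h h' z) :
    dy h z = h' Complex.I := by
  unfold dy
  rw [H.fderiv]

theorem dx_add {f g : ℂ → E} {z : ℂ} (hf : DifferentiableAt ℝ f z)
    (hg : DifferentiableAt ℝ g z) : dx (fun w => f w + g w) z = dx f z + dx g z :=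
  dx_of (hf.hasFDerivAt.add hg.hasFDerivAt)

theorem dy_add {f g : ℂ → E} {z : ℂ} (hf : DifferentiableAt ℝ f z)
    (hg : DifferentiableAt ℝ g z) : dy (fun w => f w + g w) z = dy f z + dy g z :=
  dy_of (hf.hasFDerivAt.add hg.hasFDerivAt)

theorem dx_sub {f g : ℂ → E} {z : ℂ} (hf : DifferentiableAt ℝ f z)
    (hg : DifferentiableAt ℝ g z) : dx (fun w => f w - g w) z = dx f z - dx g z :=
  dx_of (hf.hasFDerivAt.sub hg.hasFDerivAt)

theorem dy_sub {f g : ℂ → E} {z : ℂ} (hf : DifferentiableAt ℝ f z)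
    (hg : DifferentiableAt ℝ g z) : dy (fun w => f w - g w) z = dy f z - dy g z :=
  dy_of (hf.hasFDerivAt.sub hg.hasFDerivAt)

theorem dx_mul {f g : ℂ → ℂ} {z : ℂ} (hf : DifferentiableAt ℝ f z)
    (hg : DifferentiableAt ℝ g z) :
    dx (fun w => f w * g w) z = dx f z * g z + f z * dx g z := by
  have h := dx_of (hf.hasFDerivAt.mul hg.hasFDerivAt)
  simp only [ContinuousLinearMap.add_apply, ContinuousLinearMap.smul_apply, smul_eq_mul] at h
  refine h.trans ?_
  show f z * dx g z + g z * dx f z = _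
  ring

theorem dy_mul {f g : ℂ → ℂ} {z : ℂ} (hf : DifferentiableAt ℝ f z)
    (hg : DifferentiableAt ℝ g z) :
    dy (fun w => f w * g w) z = dy f z * g z + f z * dy g z := by
  have h := dy_of (hf.hasFDerivAt.mul hg.hasFDerivAt)
  simp only [ContinuousLinearMap.add_apply, ContinuousLinearMap.smul_apply, smul_eq_mul] at h
  refine h.trans ?_
  show f z * dy g z + g z * dy f z = _
  ring

theorem dx_ofReal {u : ℂ → ℝ} {z : ℂ} (hu : DifferentiableAt ℝ u z) :
    dx (fun w => ((u w : ℝ) : ℂ)) z = ((dx u z : ℝ) : ℂ) :=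
  dx_of (Complex.ofRealCLM.hasFDerivAt.comp z hu.hasFDerivAt)

theorem dy_ofReal {u : ℂ → ℝ} {z : ℂ} (hu : DifferentiableAt ℝ u z) :
    dy (fun w => ((u w : ℝ) : ℂ)) z = ((dy u z : ℝ) : ℂ) :=
  dy_of (Complex.ofRealCLM.hasFDerivAt.comp z hu.hasFDerivAt)

theorem dx_conj {f : ℂ → ℂ} {z : ℂ} (hf : DifferentiableAt ℝ f z) :
    dx (fun w => (starRingEnd ℂ) (f w)) z = (starRingEnd ℂ) (dx f z) :=
  dx_of (Complex.conjCLE.toContinuousLinearMap.hasFDerivAt.comp z hf.hasFDerivAt)

theorem dy_conj {f : ℂ → ℂ} {z : ℂ} (hf : DifferentiableAt ℝ f z) :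
    dy (fun w => (starRingEnd ℂ) (f w)) z = (starRingEnd ℂ) (dy f z) :=
  dy_of (Complex.conjCLE.toContinuousLinearMap.hasFDerivAt.comp z hf.hasFDerivAt)

theorem norm_dx_le (F : ℂ → E) (z : ℂ) : ‖dx F z‖ ≤ ‖fderiv ℝ F z‖ := by
  have h := (fderiv ℝ F z).le_opNorm 1
  rwa [norm_one, mul_one] at h

theorem norm_dy_le (F : ℂ → E) (z : ℂ) : ‖dy F z‖ ≤ ‖fderiv ℝ F z‖ := by
  have h := (fderiv ℝ F z).le_opNorm Complex.I
  rwa [Complex.norm_I, mul_one] at h

end Calc1Aux

open Calc1Aux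

theorem fderiv_eq_dz (u : ℂ → ℝ) (z e : ℂ) : fderiv ℝ u z e = 2 * (dz u z * e).re := by
  rw [fd_eq]
  unfold dz
  simp [Complex.mul_re, Complex.div_re, Complex.div_im]
  ring

theorem norm_dz (u : ℂ → ℝ) (z : ℂ) : ‖dz u z‖ = ‖fderiv ℝ u z‖ / 2 := by
  apply le_antisymm
  · by_cases h0 : dz u z = 0
    · rw [h0, norm_zero]
      positivity
    · have h1 := (fderiv ℝ u z).le_opNorm ((starRingEnd ℂ) (dz u z))
      rw [fderiv_eq_dz, Complex.mul_conj, Complex.ofReal_re, Complex.norm_conj,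
        Complex.normSq_eq_norm_sq, Real.norm_eq_abs] at h1
      have h2 : 0 < ‖dz u z‖ := norm_pos_iff.2 h0
      rw [abs_of_nonneg (by positivity)] at h1
      have h3 : (2 * ‖dz u z‖) * ‖dz u z‖ ≤ ‖fderiv ℝ u z‖ * ‖dz u z‖ := by
        calc (2 * ‖dz u z‖) * ‖dz u z‖ = 2 * ‖dz u z‖ ^ 2 := by ring
          _ ≤ _ := h1
      have h4 := le_of_mul_le_mul_right h3 h2
      linarith
  · have h1 : ‖fderiv ℝ u z‖ ≤ 2 * ‖dz u z‖ := by
      refine ContinuousLinearMap.opNorm_le_bound _ (by positivity) fun e => ?_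
      rw [fderiv_eq_dz, Real.norm_eq_abs, abs_mul, abs_two, mul_assoc]
      refine mul_le_mul_of_nonneg_left ?_ zero_le_two
      exact (Complex.abs_re_le_norm _).trans (norm_mul_le _ _)
    linarith

theorem fderiv_eq_cz (F : ℂ → ℂ) (z e : ℂ) :
    fderiv ℝ F z e = cz F z * e + cb F z * (starRingEnd ℂ) e := by
  rw [fd_eq]
  unfold cz cb
  have h1 : (starRingEnd ℂ) e = e.re - e.im * Complex.I := by
    apply Complex.ext <;> simp
  have h2 : e = e.re + e.im * Complex.I := (Complex.re_add_im e).symm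
  rw [h1]
  conv_rhs => rw [h2]
  simp only [Complex.real_smul]
  have h3 : Complex.I * Complex.I = -1 := Complex.I_mul_I
  simp only [Complex.add_re, Complex.add_im, Complex.ofReal_re, Complex.ofReal_im,
    Complex.mul_re, Complex.mul_im, Complex.I_re, Complex.I_im, mul_zero, mul_one, zero_mul,
    sub_zero, add_zero, zero_add]
  linear_combination ((e.im : ℂ) * dy F z) * h3

theorem norm_cz_le (F : ℂ → ℂ) (z : ℂ) : ‖cz F z‖ ≤ ‖fderiv ℝ F z‖ := by
  unfold cz
  rw [norm_div, Complex.norm_ofNat]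
  have h1 := norm_sub_le (dx F z) (Complex.I * dy F z)
  rw [norm_mul, Complex.norm_I, one_mul] at h1
  have h2 := norm_dx_le F z
  have h3 := norm_dy_le F z
  linarith

theorem norm_cb_le (F : ℂ → ℂ) (z : ℂ) : ‖cb F z‖ ≤ ‖fderiv ℝ F z‖ := by
  unfold cb
  rw [norm_div, Complex.norm_ofNat]
  have h1 := norm_add_le (dx F z) (Complex.I * dy F z)
  rw [norm_mul, Complex.norm_I, one_mul] at h1
  have h2 := norm_dx_le F z
  have h3 := norm_dy_le F z
  linarith

theorem dz_add (u v : ℂ → ℝ) (z : ℂ) (hu : DifferentiableAt ℝ u z) (hv : DifferentiableAt ℝ v z) :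
    dz (fun w => u w + v w) z = dz u z + dz v z := by
  unfold dz
  rw [dx_add hu hv, dy_add hu hv]
  push_cast
  ring

theorem dz_sub (u v : ℂ → ℝ) (z : ℂ) (hu : DifferentiableAt ℝ u z) (hv : DifferentiableAt ℝ v z) :
    dz (fun w => u w - v w) z = dz u z - dz v z := by
  unfold dz
  rw [dx_sub hu hv, dy_sub hu hv]
  push_cast
  ring

theorem dz_const_mul (k : ℝ) (u : ℂ → ℝ) (z : ℂ) (hu : DifferentiableAt ℝ u z) :
    dz (fun w => k * u w) z = k * dz u z := by
  have h := hu.hasFDerivAt.const_mul k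
  have h1 : dx (fun w => k * u w) z = k * dx u z := dx_of h
  have h2 : dy (fun w => k * u w) z = k * dy u z := dy_of h
  unfold dz
  rw [h1, h2]
  push_cast
  ring

theorem dz_exp (u : ℂ → ℝ) (z : ℂ) (hu : DifferentiableAt ℝ u z) :
    dz (fun w => Real.exp (u w)) z = Real.exp (u z) * dz u z := by
  have h := hu.hasFDerivAt.exp
  have h1 : dx (fun w => Real.exp (u w)) z = Real.exp (u z) * dx u z := dx_of h
  have h2 : dy (fun w => Real.exp (u w)) z = Real.exp (u z) * dy u z := dy_of h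
  unfold dz
  rw [h1, h2]
  push_cast
  ring

theorem cz_add (f g : ℂ → ℂ) (z : ℂ) (hf : DifferentiableAt ℝ f z) (hg : DifferentiableAt ℝ g z) :
    cz (fun w => f w + g w) z = cz f z + cz g z := by
  unfold cz
  rw [dx_add hf hg, dy_add hf hg]
  ring

theorem cz_sub (f g : ℂ → ℂ) (z : ℂ) (hf : DifferentiableAt ℝ f z) (hg : DifferentiableAt ℝ g z) :
    cz (fun w => f w - g w) z = cz f z - cz g z := by
  unfold cz
  rw [dx_sub hf hg, dy_sub hf hg]
  ring

theorem cz_mul (f g : ℂ → ℂ) (z : ℂ) (hf : DifferentiableAt ℝ f z) (hg : DifferentiableAt ℝ g z) :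
    cz (fun w => f w * g w) z = cz f z * g z + f z * cz g z := by
  unfold cz
  rw [dx_mul hf hg, dy_mul hf hg]
  ring

theorem cb_add (f g : ℂ → ℂ) (z : ℂ) (hf : DifferentiableAt ℝ f z) (hg : DifferentiableAt ℝ g z) :
    cb (fun w => f w + g w) z = cb f z + cb g z := by
  unfold cb
  rw [dx_add hf hg, dy_add hf hg]
  ring

theorem cb_sub (f g : ℂ → ℂ) (z : ℂ) (hf : DifferentiableAt ℝ f z) (hg : DifferentiableAt ℝ g z) :
    cb (fun w => f w - g w) z = cb f z - cb g z := by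
  unfold cb
  rw [dx_sub hf hg, dy_sub hf hg]
  ring

theorem cb_mul (f g : ℂ → ℂ) (z : ℂ) (hf : DifferentiableAt ℝ f z) (hg : DifferentiableAt ℝ g z) :
    cb (fun w => f w * g w) z = cb f z * g z + f z * cb g z := by
  unfold cb
  rw [dx_mul hf hg, dy_mul hf hg]
  ring

theorem cz_ofReal (u : ℂ → ℝ) (z : ℂ) (hu : DifferentiableAt ℝ u z) :
    cz (fun w => ((u w : ℝ) : ℂ)) z = dz u z := by
  unfold cz dz
  rw [dx_ofReal hu, dy_ofReal hu]

theorem cb_ofReal (u : ℂ → ℝ) (z : ℂ) (hu : DifferentiableAt ℝ u z) :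
    cb (fun w => ((u w : ℝ) : ℂ)) z = (starRingEnd ℂ) (dz u z) := by
  unfold cb dz
  rw [dx_ofReal hu, dy_ofReal hu, map_div₀, map_sub, map_mul, Complex.conj_I,
    Complex.conj_ofReal, Complex.conj_ofReal, Complex.conj_ofNat]
  ring

theorem cz_conj (f : ℂ → ℂ) (z : ℂ) (hf : DifferentiableAt ℝ f z) :
    cz (fun w => (starRingEnd ℂ) (f w)) z = (starRingEnd ℂ) (cb f z) := by
  unfold cb cz
  rw [dx_conj hf, dy_conj hf, map_div₀, map_add, map_mul, Complex.conj_I, Complex.conj_ofNat]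
  ring

theorem cb_conj (f : ℂ → ℂ) (z : ℂ) (hf : DifferentiableAt ℝ f z) :
    cb (fun w => (starRingEnd ℂ) (f w)) z = (starRingEnd ℂ) (cz f z) := by
  unfold cb cz
  rw [dx_conj hf, dy_conj hf, map_div₀, map_sub, map_mul, Complex.conj_I, Complex.conj_ofNat]
  ring

/-- A holomorphic function. -/
theorem cz_holo (f : ℂ → ℂ) (f' z : ℂ) (hf : HasDerivAt f f' z) : cz f z = f' ∧ cb f z = 0 := by
  have h := hf.hasFDerivAt.restrictScalars ℝ
  have h1 : dx f z = f' := by
    rw [dx_of h]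
    simp
  have h2 : dy f z = Complex.I * f' := by
    rw [dy_of h]
    simp
  unfold cz cb
  rw [h1, h2, ← mul_assoc, Complex.I_mul_I]
  constructor <;> ring

end AO

end
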