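import Pool.Agent.Lib.AO.CellInt

/-
STUB CellBall (library AO, MP_7bfba2_an). Replace the sorries, keep the statements.
Integrals over small balls as integrals over parts of the cell.  By int_Q_add with a = p one may replace Q ℓ by the cell centred at p:
∫ z in Q ℓ, k z = ∫ z in Q ℓ, k (z + p) for periodic k.  Apply it to k z = indicator of {dl ℓ (z - p) < r} times h: on Q ℓ, dl ℓ z = ‖z‖, so the
set {z in Q ℓ : dl ℓ z < r} is ball 0 r up to nothing (ball 0 r is contained in Q ℓ up to a null set as r <= ℓ/2; the boundary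
points re z = ℓ/2 do not occur since ‖z‖ < ℓ/2).
two_balls: the sets {dl (z-p) < r} and {dl (z-x) < r'} are disjoint by dl_add_le.
-/

set_option autoImplicit false

open Complex MeasureTheory Set Metric Filter
open scoped Real ContDiff Topology

noncomputable section

namespace AO

variable {ℓ : ℝ}

namespace CellBallAux

theorem open_lt (p : ℂ) (r : ℝ) : IsOpen {z : ℂ | dl ℓ (z - p) < r} :=
  isOpen_lt (continuous_dl.comp (continuous_id.sub continuous_const)) continuous_const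

theorem closed_ge (p : ℂ) (r : ℝ) : IsClosed {z : ℂ | r ≤ dl ℓ (z - p)} :=
  isClosed_le continuous_const (continuous_dl.comp (continuous_id.sub continuous_const))

/-- Integrals over periodic sets, moved to the cell centred at `p`. -/
theorem move (hl : 0 < ℓ) (h : ℂ → ℝ) (hh : Per ℓ h) (p : ℂ) (S T : Set ℂ) (hS : MeasurableSet S)
    (hT : MeasurableSet T) (hS1 : ∀ z, z + (ℓ : ℂ) ∈ S ↔ z ∈ S) (hS2 : ∀ z, z + ℓ * Complex.I ∈ S ↔ z ∈ S)
    (hST : ∀ z ∈ Q ℓ, z + p ∈ S ↔ z ∈ T) :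
    ∫ z in Q ℓ ∩ S, h z = ∫ z in Q ℓ ∩ T, h (z + p) := by
  classical
  rw [← setIntegral_indicator hS, ← setIntegral_indicator hT]
  have hk : Per ℓ (S.indicator h) := by
    constructor
    · intro z
      by_cases hz : z ∈ S
      · rw [indicator_of_mem ((hS1 z).2 hz), indicator_of_mem hz, hh.1]
      · rw [indicator_of_notMem (fun hc => hz ((hS1 z).1 hc)), indicator_of_notMem hz]
    · intro z
      by_cases hz : z ∈ S
      · rw [indicator_of_mem ((hS2 z).2 hz), indicator_of_mem hz, hh.2]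
      · rw [indicator_of_notMem (fun hc => hz ((hS2 z).1 hc)), indicator_of_notMem hz]
  rw [← int_Q_add hl _ hk p]
  refine setIntegral_congr_fun measurableSet_Q fun z hz => ?_
  show S.indicator h (z + p) = T.indicator (fun z => h (z + p)) z
  by_cases hzT : z ∈ T
  · rw [indicator_of_mem ((hST z hz).2 hzT), indicator_of_mem hzT]
  · rw [indicator_of_notMem (fun hc => hzT ((hST z hz).1 hc)), indicator_of_notMem hzT]

theorem per1 (p z : ℂ) : dl ℓ (z + (ℓ : ℂ) - p) = dl ℓ (z - p) := by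
  rw [show z + (ℓ : ℂ) - p = (z - p) + ℓ by ring, (per_dl (ℓ := ℓ)).1]

theorem per2 (p z : ℂ) : dl ℓ (z + ℓ * Complex.I - p) = dl ℓ (z - p) := by
  rw [show z + ℓ * Complex.I - p = (z - p) + ℓ * Complex.I by ring, (per_dl (ℓ := ℓ)).2]

end CellBallAux

open CellBallAux

theorem int_ball_eq (hl : 0 < ℓ) (h : ℂ → ℝ) (hh : Per ℓ h) (p : ℂ) (r : ℝ) (hr : r ≤ ℓ / 2) :
    ∫ z in ball p r, h z = ∫ z in {z ∈ Q ℓ | dl ℓ (z - p) < r}, h z := by
  have h1 : {z ∈ Q ℓ | dl ℓ (z - p) < r} = Q ℓ ∩ {z | dl ℓ (z - p) < r} := rfl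
  rw [h1, move hl h hh p {z | dl ℓ (z - p) < r} (ball 0 r) (open_lt p r).measurableSet measurableSet_ball
    (fun z => by rw [mem_setOf_eq, mem_setOf_eq, per1]) (fun z => by rw [mem_setOf_eq, mem_setOf_eq, per2])
    (fun z hz => by rw [mem_setOf_eq, add_sub_cancel_right, dl_eq_of_mem hl z hz, mem_ball_zero_iff])]
  have h2 : Q ℓ ∩ ball 0 r = ball 0 r := by
    apply inter_eq_right.2
    intro z hz
    rw [mem_ball_zero_iff] at hz
    have hre := (abs_le.1 (Complex.abs_re_le_norm z))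
    have him := (abs_le.1 (Complex.abs_im_le_norm z))
    exact ⟨⟨by linarith, by linarith⟩, ⟨by linarith, by linarith⟩⟩
  rw [h2]
  have h3 := (measurePreserving_add_right (volume : Measure ℂ) p).setIntegral_preimage_emb
    (measurableEmbedding_addRight p) h (ball p r)
  rw [← h3]
  congr 2
  ext z
  simp [mem_ball, dist_eq_norm]

/-- The integral over the complement of a ball in the torus. -/
theorem int_Q_split (hl : 0 < ℓ) (h : ℂ → ℝ) (hh : Per ℓ h) (hi : IntegrableOn h (Q ℓ)) (p : ℂ) (r : ℝ)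
    (hr : r ≤ ℓ / 2) :
    ∫ z in Q ℓ, h z = (∫ z in ball p r, h z) + ∫ z in {z ∈ Q ℓ | r ≤ dl ℓ (z - p)}, h z := by
  rw [int_ball_eq hl h hh p r hr, ← integral_inter_add_diff (open_lt (ℓ := ℓ) p r).measurableSet hi]
  congr 2
  apply congrArg
  ext z
  simp only [mem_diff, mem_setOf_eq, not_lt]

theorem int_ball_le (hl : 0 < ℓ) (h : ℂ → ℝ) (hh : Per ℓ h) (hi : IntegrableOn h (Q ℓ)) (h0 : ∀ z, 0 ≤ h z)
    (p : ℂ) (r : ℝ) (hr : r ≤ ℓ / 2) : ∫ z in ball p r, h z ≤ ∫ z in Q ℓ, h z := by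
  rw [int_Q_split hl h hh hi p r hr]
  have : 0 ≤ ∫ z in {z ∈ Q ℓ | r ≤ dl ℓ (z - p)}, h z := integral_nonneg fun z => h0 z
  linarith

theorem two_balls (hl : 0 < ℓ) (h : ℂ → ℝ) (hh : Per ℓ h) (hi : IntegrableOn h (Q ℓ)) (h0 : ∀ z, 0 ≤ h z)
    (p x : ℂ) (r r' : ℝ) (hr : r ≤ ℓ / 2) (hr' : r' ≤ ℓ / 2) (hd : r + r' ≤ dl ℓ (x - p)) :
    (∫ z in ball p r, h z) + ∫ z in ball x r', h z ≤ ∫ z in Q ℓ, h z := by
  rw [int_ball_eq hl h hh p r hr, int_ball_eq hl h hh x r' hr']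
  have hdis : Disjoint {z ∈ Q ℓ | dl ℓ (z - p) < r} {z ∈ Q ℓ | dl ℓ (z - x) < r'} := by
    rw [Set.disjoint_left]
    rintro z ⟨_, h1⟩ ⟨_, h2⟩
    have h3 := dl_add_le (ℓ := ℓ) (x - z) (z - p)
    rw [sub_add_sub_cancel] at h3
    have h4 := dl_neg (ℓ := ℓ) (z - x)
    rw [neg_sub] at h4
    linarith
  have hs1 : {z ∈ Q ℓ | dl ℓ (z - p) < r} ⊆ Q ℓ := fun z hz => hz.1
  have hs2 : {z ∈ Q ℓ | dl ℓ (z - x) < r'} ⊆ Q ℓ := fun z hz => hz.1
  have hm2 : MeasurableSet {z ∈ Q ℓ | dl ℓ (z - x) < r'} :=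
    measurableSet_Q.inter (open_lt (ℓ := ℓ) x r').measurableSet
  rw [← setIntegral_union hdis hm2 (hi.mono_set hs1) (hi.mono_set hs2)]
  exact setIntegral_mono_set hi (Filter.Eventually.of_forall h0)
    (HasSubset.Subset.eventuallyLE (union_subset hs1 hs2))

/-- The sets `{dl (z - p) ≥ r}`, moved to the cell centred at `p`. -/
theorem int_out_eq (hl : 0 < ℓ) (h : ℂ → ℝ) (hh : Per ℓ h) (p : ℂ) (r : ℝ) :
    ∫ z in {z ∈ Q ℓ | r ≤ dl ℓ (z - p)}, h z = ∫ z in {z ∈ Q ℓ | r ≤ ‖z‖}, h (z + p) := by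
  have h1 : {z ∈ Q ℓ | r ≤ dl ℓ (z - p)} = Q ℓ ∩ {z | r ≤ dl ℓ (z - p)} := rfl
  have h2 : {z ∈ Q ℓ | r ≤ ‖z‖} = Q ℓ ∩ {z | r ≤ ‖z‖} := rfl
  rw [h1, h2, move hl h hh p {z | r ≤ dl ℓ (z - p)} {z | r ≤ ‖z‖} (closed_ge p r).measurableSet
    (isClosed_le continuous_const continuous_norm).measurableSet
    (fun z => by rw [mem_setOf_eq, mem_setOf_eq, per1]) (fun z => by rw [mem_setOf_eq, mem_setOf_eq, per2])
    (fun z hz => by rw [mem_setOf_eq, mem_setOf_eq, add_sub_cancel_right, dl_eq_of_mem hl z hz])]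

end AO

end
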