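import Pool.Agent.Lib.AO.CellInt1

/-!
Integrals of derivatives of periodic functions over the cell vanish; Green's identity.
-/

set_option autoImplicit false

open Complex MeasureTheory Set Metric Filter
open scoped Real ContDiff Topology

noncomputable section

namespace AO

variable {ℓ : ℝ} {E : Type} [NormedAddCommGroup E] [NormedSpace ℝ E]

theorem int_Q_prod (g : ℂ → ℝ) (hg : Continuous g) :
    ∫ z in Q ℓ, g z = (∫ x in Ico (-(ℓ / 2)) (ℓ / 2), ∫ y in Ico (-(ℓ / 2)) (ℓ / 2),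
      g ((x : ℂ) + (y : ℂ) * I)) ∧
    ∫ z in Q ℓ, g z = (∫ y in Ico (-(ℓ / 2)) (ℓ / 2), ∫ x in Ico (-(ℓ / 2)) (ℓ / 2),
      g ((x : ℂ) + (y : ℂ) * I)) := by
  set S : Set ℝ := Ico (-(ℓ / 2)) (ℓ / 2) with hS
  set g' : ℝ × ℝ → ℝ := fun p => g ((p.1 : ℂ) + (p.2 : ℂ) * I) with hg'
  have hc : Continuous g' := by
    apply hg.comp
    fun_prop
  have hi : IntegrableOn g' (S ×ˢ S) (volume.prod volume) := by
    have h1 : IntegrableOn g' (Icc (-(ℓ / 2)) (ℓ / 2) ×ˢ Icc (-(ℓ / 2)) (ℓ / 2))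
        (volume.prod volume) :=
      hc.continuousOn.integrableOn_compact (isCompact_Icc.prod isCompact_Icc)
    exact h1.mono_set (Set.prod_mono Ico_subset_Icc_self Ico_subset_Icc_self)
  have h0 : ∫ z in Q ℓ, g z = ∫ p in S ×ˢ S, g' p ∂(volume.prod volume) := by
    have h2 := Complex.volume_preserving_equiv_real_prod.setIntegral_preimage_emb
      Complex.measurableEquivRealProd.measurableEmbedding g' (S ×ˢ S)
    rw [Measure.volume_eq_prod] at h2
    rw [← h2]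
    have h3 : Complex.measurableEquivRealProd ⁻¹' (S ×ˢ S) = Q ℓ := by
      ext z
      simp [Q, hS, Complex.measurableEquivRealProd_apply]
    rw [h3]
    congr 1
    funext z
    simp only [hg', Complex.measurableEquivRealProd_apply]
    rw [Complex.re_add_im]
  have hi' : Integrable g' ((volume.restrict S).prod (volume.restrict S)) := by
    rw [Measure.prod_restrict]
    exact hi
  refine ⟨?_, ?_⟩
  · rw [h0, ← Measure.prod_restrict, integral_prod _ hi']
  · rw [h0, ← Measure.prod_restrict, integral_prod_symm _ hi']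

theorem int_Ico_deriv (hl : 0 < ℓ) (f f' : ℝ → ℝ) (hf : ∀ x, HasDerivAt f (f' x) x)
    (hc : Continuous f') (hp : f (ℓ / 2) = f (-(ℓ / 2))) :
    ∫ x in Ico (-(ℓ / 2)) (ℓ / 2), f' x = 0 := by
  rw [integral_Ico_eq_integral_Ioc, ← intervalIntegral.integral_of_le (by linarith),
    intervalIntegral.integral_eq_sub_of_hasDerivAt (fun x _ => hf x) (hc.intervalIntegrable _ _),
    hp, sub_self]

theorem continuous_dir (h : ℂ → ℝ) (hs : ContDiff ℝ 1 h) (e : ℂ) :
    Continuous fun z => fderiv ℝ h z e :=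
  (hs.continuous_fderiv (by norm_num)).clm_apply continuous_const

theorem int_Q_dx (hl : 0 < ℓ) (h : ℂ → ℝ) (hs : ContDiff ℝ 1 h) (hh : Per ℓ h) :
    ∫ z in Q ℓ, dx h z = 0 := by
  rw [(int_Q_prod (ℓ := ℓ) (dx h) (continuous_dir h hs 1)).2]
  have : ∀ y : ℝ, ∫ x in Ico (-(ℓ / 2)) (ℓ / 2), dx h ((x : ℂ) + (y : ℂ) * I) = 0 := by
    intro y
    apply int_Ico_deriv hl (fun x : ℝ => h ((x : ℂ) + (y : ℂ) * I))
    · intro x
      have h1 : HasFDerivAt h (fderiv ℝ h ((x : ℂ) + (y : ℂ) * I)) ((x : ℂ) + (y : ℂ) * I) :=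
        (hs.differentiable (by norm_num) _).hasFDerivAt
      have h2 : HasDerivAt (fun x : ℝ => (x : ℂ) + (y : ℂ) * I) 1 x :=
        (Complex.ofRealCLM.hasDerivAt (x := x)).add_const _
      exact h1.comp_hasDerivAt x h2
    · exact (continuous_dir h hs 1).comp (by fun_prop)
    · have h3 := hh.1 (((-(ℓ / 2) : ℝ) : ℂ) + (y : ℂ) * I)
      show h (((ℓ / 2 : ℝ) : ℂ) + (y : ℂ) * I) = h (((-(ℓ / 2) : ℝ) : ℂ) + (y : ℂ) * I)
      rw [← h3]
      congr 1
      push_cast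
      ring
  simp [this]

theorem int_Q_dy (hl : 0 < ℓ) (h : ℂ → ℝ) (hs : ContDiff ℝ 1 h) (hh : Per ℓ h) :
    ∫ z in Q ℓ, dy h z = 0 := by
  rw [(int_Q_prod (ℓ := ℓ) (dy h) (continuous_dir h hs I)).1]
  have : ∀ x : ℝ, ∫ y in Ico (-(ℓ / 2)) (ℓ / 2), dy h ((x : ℂ) + (y : ℂ) * I) = 0 := by
    intro x
    apply int_Ico_deriv hl (fun y : ℝ => h ((x : ℂ) + (y : ℂ) * I))
    · intro y
      have h1 : HasFDerivAt h (fderiv ℝ h ((x : ℂ) + (y : ℂ) * I)) ((x : ℂ) + (y : ℂ) * I) :=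
        (hs.differentiable (by norm_num) _).hasFDerivAt
      have h2 : HasDerivAt (fun y : ℝ => (x : ℂ) + (y : ℂ) * I) I y := by
        have := ((Complex.ofRealCLM.hasDerivAt (x := y)).mul_const I).const_add (x : ℂ)
        simpa using this
      exact h1.comp_hasDerivAt y h2
    · exact (continuous_dir h hs I).comp (by fun_prop)
    · have h3 := hh.2 ((x : ℂ) + ((-(ℓ / 2) : ℝ) : ℂ) * I)
      show h ((x : ℂ) + ((ℓ / 2 : ℝ) : ℂ) * I) = h ((x : ℂ) + ((-(ℓ / 2) : ℝ) : ℂ) * I)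
      rw [← h3]
      congr 1
      push_cast
      ring
  simp [this]

theorem per_dx (h : ℂ → E) (hh : Per ℓ h) : Per ℓ (dx h) ∧ Per ℓ (dy h) := by
  have key : ∀ a : ℂ, (∀ z, h (z + a) = h z) → ∀ z, fderiv ℝ h (z + a) = fderiv ℝ h z := by
    intro a ha z
    have h1 : fderiv ℝ (fun w => h (w + a)) z = fderiv ℝ h (z + a) :=
      fderiv_comp_add_right (f := h) (x := z) a
    rw [← h1]
    congr 1
    funext w
    exact ha w
  refine ⟨⟨fun z => ?_, fun z => ?_⟩, ⟨fun z => ?_, fun z => ?_⟩⟩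
  · simp only [dx, key _ hh.1 z]
  · simp only [dx, key _ hh.2 z]
  · simp only [dy, key _ hh.1 z]
  · simp only [dy, key _ hh.2 z]

theorem per_lap (h : ℂ → ℝ) (hh : Per ℓ h) : Per ℓ (lap h) := by
  obtain ⟨h1, h2⟩ := per_dx h hh
  have h3 := (per_dx _ h1).1
  have h4 := (per_dx _ h2).2
  refine ⟨fun z => ?_, fun z => ?_⟩
  · simp only [lap, h3.1 z, h4.1 z]
  · simp only [lap, h3.2 z, h4.2 z]

theorem contDiff_dx (h : ℂ → ℝ) (hs : ContDiff ℝ 2 h) :
    ContDiff ℝ 1 (dx h) ∧ ContDiff ℝ 1 (dy h) := by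
  have h1 : ContDiff ℝ 1 (fderiv ℝ h) := hs.fderiv_right (by norm_num)
  exact ⟨h1.clm_apply contDiff_const, h1.clm_apply contDiff_const⟩

theorem int_Q_lap (hl : 0 < ℓ) (h : ℂ → ℝ) (hs : ContDiff ℝ 2 h) (hh : Per ℓ h) :
    ∫ z in Q ℓ, lap h z = 0 := by
  obtain ⟨s1, s2⟩ := contDiff_dx h hs
  obtain ⟨p1, p2⟩ := per_dx h hh
  have i1 : IntegrableOn (dx (dx h)) (Q ℓ) :=
    integrableOn_Q_of_continuous hl _ (continuous_dir _ s1 1)
  have i2 : IntegrableOn (dy (dy h)) (Q ℓ) :=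
    integrableOn_Q_of_continuous hl _ (continuous_dir _ s2 I)
  have : ∫ z in Q ℓ, lap h z = (∫ z in Q ℓ, dx (dx h) z) + ∫ z in Q ℓ, dy (dy h) z :=
    integral_add i1 i2
  rw [this, int_Q_dx hl _ s1 p1, int_Q_dy hl _ s2 p2, add_zero]

theorem int_Q_green (hl : 0 < ℓ) (g h : ℂ → ℝ) (sg : ContDiff ℝ 2 g) (sh : ContDiff ℝ 2 h)
    (hg : Per ℓ g) (hh : Per ℓ h) : ∫ z in Q ℓ, g z * lap h z = ∫ z in Q ℓ, h z * lap g z := by
  obtain ⟨sg1, sg2⟩ := contDiff_dx g sg
  obtain ⟨sh1, sh2⟩ := contDiff_dx h sh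
  obtain ⟨pg1, pg2⟩ := per_dx g hg
  obtain ⟨ph1, ph2⟩ := per_dx h hh
  have sg0 : ContDiff ℝ 1 g := sg.of_le (by norm_num)
  have sh0 : ContDiff ℝ 1 h := sh.of_le (by norm_num)
  set X : ℂ → ℝ := fun z => g z * dx h z - h z * dx g z with hX
  set Y : ℂ → ℝ := fun z => g z * dy h z - h z * dy g z with hY
  have sX : ContDiff ℝ 1 X := (sg0.mul sh1).sub (sh0.mul sg1)
  have sY : ContDiff ℝ 1 Y := (sg0.mul sh2).sub (sh0.mul sg2)
  have pX : Per ℓ X := by
    refine ⟨fun z => ?_, fun z => ?_⟩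
    · simp only [hX, hg.1 z, hh.1 z, pg1.1 z, ph1.1 z]
    · simp only [hX, hg.2 z, hh.2 z, pg1.2 z, ph1.2 z]
  have pY : Per ℓ Y := by
    refine ⟨fun z => ?_, fun z => ?_⟩
    · simp only [hY, hg.1 z, hh.1 z, pg2.1 z, ph2.1 z]
    · simp only [hY, hg.2 z, hh.2 z, pg2.2 z, ph2.2 z]
  have dX : ∀ z, dx X z = g z * dx (dx h) z - h z * dx (dx g) z := by
    intro z
    have a1 := (sg0.differentiable (by norm_num) z).hasFDerivAt
    have a2 := (sh0.differentiable (by norm_num) z).hasFDerivAt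
    have a3 := (sg1.differentiable (by norm_num) z).hasFDerivAt
    have a4 := (sh1.differentiable (by norm_num) z).hasFDerivAt
    have a5 : HasFDerivAt X _ z := (a1.mul a4).sub (a2.mul a3)
    unfold dx at a5 ⊢
    rw [a5.fderiv]
    simp only [ContinuousLinearMap.add_apply, ContinuousLinearMap.smul_apply,
      ContinuousLinearMap.sub_apply, smul_eq_mul]
    ring
  have dY : ∀ z, dy Y z = g z * dy (dy h) z - h z * dy (dy g) z := by
    intro z
    have a1 := (sg0.differentiable (by norm_num) z).hasFDerivAt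
    have a2 := (sh0.differentiable (by norm_num) z).hasFDerivAt
    have a3 := (sg2.differentiable (by norm_num) z).hasFDerivAt
    have a4 := (sh2.differentiable (by norm_num) z).hasFDerivAt
    have a5 : HasFDerivAt Y _ z := (a1.mul a4).sub (a2.mul a3)
    unfold dy at a5 ⊢
    rw [a5.fderiv]
    simp only [ContinuousLinearMap.add_apply, ContinuousLinearMap.smul_apply,
      ContinuousLinearMap.sub_apply, smul_eq_mul]
    ring
  have cl : ∀ f : ℂ → ℝ, ContDiff ℝ 2 f → Continuous (lap f) := by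
    intro f sf
    obtain ⟨s1, s2⟩ := contDiff_dx f sf
    exact (continuous_dir _ s1 1).add (continuous_dir _ s2 I)
  have i1 : IntegrableOn (fun z => g z * lap h z) (Q ℓ) :=
    integrableOn_Q_of_continuous hl _ (sg.continuous.mul (cl h sh))
  have i2 : IntegrableOn (fun z => h z * lap g z) (Q ℓ) :=
    integrableOn_Q_of_continuous hl _ (sh.continuous.mul (cl g sg))
  have i3 : IntegrableOn (dx X) (Q ℓ) := integrableOn_Q_of_continuous hl _ (continuous_dir _ sX 1)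
  have i4 : IntegrableOn (dy Y) (Q ℓ) := integrableOn_Q_of_continuous hl _ (continuous_dir _ sY I)
  have h5 : (∫ z in Q ℓ, g z * lap h z) - ∫ z in Q ℓ, h z * lap g z =
      (∫ z in Q ℓ, dx X z) + ∫ z in Q ℓ, dy Y z := by
    rw [← integral_sub i1 i2, ← integral_add i3 i4]
    congr 1
    funext z
    rw [dX z, dY z]
    simp only [lap]
    ring
  rw [int_Q_dx hl X sX pX, int_Q_dy hl Y sY pY] at h5
  linarith

end AO

end
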