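import Pool.Agent.Lib.AO.Dist
import Pool.Agent.Lib.AO.Calc

/-
STUB CellInt1 / CellInt (library AO, MP_7bfba2_an). Replace the sorries, keep the statements.
Integrals of ℓ ℤ[i]-periodic functions over the cell Q ℓ.
int_Q_add, integrableOn_Q_add: Q ℓ is an additive fundamental domain of the lattice (Mathlib: ZSpan.isAddFundamentalDomain for the basis (ℓ, ℓ i), or
directly IsAddFundamentalDomain.mk), and so is its translate; IsAddFundamentalDomain.setIntegral_eq and integrableOn_iff.  Alternatively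
use Q ℓ = product of two intervals (Complex.measurableEquivRealProd is measure preserving), Fubini and Function.Periodic.
int_Q_neg: -Q ℓ is a fundamental domain (equal to a translate of Q up to a null set).
int_Q_dx: Fubini and the fundamental theorem of calculus on [-ℓ/2, ℓ/2].
-/

set_option autoImplicit false

open Complex MeasureTheory Set Metric Filter
open scoped Real ContDiff Topology

noncomputable section

namespace AO

variable {ℓ : ℝ} {E : Type} [NormedAddCommGroup E] [NormedSpace ℝ E]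


namespace CellInt1Aux

/-- The lattice as an additive subgroup. -/
def Lt (ℓ : ℝ) : AddSubgroup ℂ where
  carrier := Lat ℓ
  add_mem' := fun hz hw => lat_add hz hw
  zero_mem' := lat_zero
  neg_mem' := fun hz => lat_neg hz

instance : Countable (Lt ℓ) := by
  have h : (Lat ℓ) = Set.range (fun p : ℤ × ℤ => (ℓ : ℂ) * ((p.1 : ℂ) + (p.2 : ℂ) * Complex.I)) := by
    ext z
    constructor
    · rintro ⟨m, n, h⟩
      exact ⟨(m, n), h.symm⟩
    · rintro ⟨⟨m, n⟩, h⟩
      exact ⟨m, n, h.symm⟩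
  have h2 : (Lat ℓ).Countable := by
    rw [h]
    exact Set.countable_range _
  exact h2.to_subtype

theorem re_lat (m n : ℤ) : ((ℓ : ℂ) * ((m : ℂ) + (n : ℂ) * Complex.I)).re = m * ℓ := by
  simp [mul_comm]

theorem im_lat (m n : ℤ) : ((ℓ : ℂ) * ((m : ℂ) + (n : ℂ) * Complex.I)).im = n * ℓ := by
  simp [mul_comm]

theorem uniq (hl : 0 < ℓ) (z : ℂ) : ∃! k : Lt ℓ, (k : ℂ) + z ∈ Q ℓ := by
  obtain ⟨m, hm, hmu⟩ := existsUnique_add_zsmul_mem_Ico hl z.re (-(ℓ / 2))
  obtain ⟨n, hn, hnu⟩ := existsUnique_add_zsmul_mem_Ico hl z.im (-(ℓ / 2))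
  have e : -(ℓ / 2) + ℓ = ℓ / 2 := by ring
  refine ⟨⟨(ℓ : ℂ) * ((m : ℂ) + (n : ℂ) * Complex.I), ⟨m, n, rfl⟩⟩, ?_, ?_⟩
  · refine ⟨?_, ?_⟩
    · have := hm
      simp only [zsmul_eq_mul, e] at this
      rw [Complex.add_re]
      rw [re_lat, add_comm]
      exact this
    · have := hn
      simp only [zsmul_eq_mul, e] at this
      rw [Complex.add_im]
      rw [im_lat, add_comm]
      exact this
  · rintro ⟨k, m', n', hk⟩ hmem
    apply Subtype.ext
    show k = _
    have h1 := hmem.1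
    have h2 := hmem.2
    rw [Complex.add_re] at h1
    rw [Complex.add_im] at h2
    have hk1 : k.re = m' * ℓ := by rw [hk, re_lat]
    have hk2 : k.im = n' * ℓ := by rw [hk, im_lat]
    have hm' : m' = m := by
      apply hmu
      simp only [zsmul_eq_mul, e]
      rw [add_comm, ← hk1]
      exact h1
    have hn' : n' = n := by
      apply hnu
      simp only [zsmul_eq_mul, e]
      rw [add_comm, ← hk2]
      exact h2
    rw [hk, hm', hn']

theorem measQ : MeasurableSet (Q ℓ) := by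
  have h1 : MeasurableSet {z : ℂ | z.re ∈ Ico (-(ℓ / 2)) (ℓ / 2)} :=
    Complex.measurable_re measurableSet_Ico
  have h2 : MeasurableSet {z : ℂ | z.im ∈ Ico (-(ℓ / 2)) (ℓ / 2)} :=
    Complex.measurable_im measurableSet_Ico
  exact h1.inter h2

theorem fdQ (hl : 0 < ℓ) : IsAddFundamentalDomain (Lt ℓ) (Q ℓ) (volume : Measure ℂ) :=
  IsAddFundamentalDomain.mk' measQ.nullMeasurableSet (fun x => uniq hl x)

theorem fdT (hl : 0 < ℓ) (a : ℂ) :
    IsAddFundamentalDomain (Lt ℓ) ((fun z : ℂ => z + -a) ⁻¹' Q ℓ) (volume : Measure ℂ) := by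
  apply IsAddFundamentalDomain.mk'
  · exact ((measurable_id.add_const (-a)) measQ).nullMeasurableSet
  · intro x
    obtain ⟨k, hk, hku⟩ := uniq hl (x + -a)
    refine ⟨k, ?_, ?_⟩
    · show ((k : ℂ) + x) + -a ∈ Q ℓ
      rw [add_assoc]
      exact hk
    · intro k' hk'
      apply hku
      have : ((k' : ℂ) + x) + -a ∈ Q ℓ := hk'
      rw [add_assoc] at this
      exact this

theorem fdN (hl : 0 < ℓ) :
    IsAddFundamentalDomain (Lt ℓ) ((fun z : ℂ => -z) ⁻¹' Q ℓ) (volume : Measure ℂ) := by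
  apply IsAddFundamentalDomain.mk'
  · exact (measurable_neg measQ).nullMeasurableSet
  · intro x
    obtain ⟨k, hk, hku⟩ := uniq hl (-x)
    refine ⟨-k, ?_, ?_⟩
    · show -(((-k : Lt ℓ) : ℂ) + x) ∈ Q ℓ
      have : -(((-k : Lt ℓ) : ℂ) + x) = (k : ℂ) + -x := by
        push_cast
        ring
      rw [this]
      exact hk
    · intro k' hk'
      have h1 : -k' = k := by
        apply hku
        have h2 : -((k' : ℂ) + x) ∈ Q ℓ := hk'
        have : (((-k' : Lt ℓ)) : ℂ) + -x = -((k' : ℂ) + x) := by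
          push_cast
          ring
        show (((-k' : Lt ℓ)) : ℂ) + -x ∈ Q ℓ
        rw [this]
        exact h2
      rw [← h1, neg_neg]

theorem inv {h : ℂ → E} (hh : Per ℓ h) (g : Lt ℓ) (x : ℂ) : h (g +ᵥ x) = h x := by
  show h ((g : ℂ) + x) = h x
  rw [add_comm]
  exact per_lat h hh x g g.2

theorem preim_add (a : ℂ) : (fun z : ℂ => z + a) ⁻¹' ((fun z : ℂ => z + -a) ⁻¹' Q ℓ) = Q ℓ := by
  ext z
  simp

theorem preim_neg : (Neg.neg : ℂ → ℂ) ⁻¹' ((fun z : ℂ => -z) ⁻¹' Q ℓ) = Q ℓ := by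
  ext z
  simp

theorem emb_add (a : ℂ) : MeasurableEmbedding (fun z : ℂ => z + a) :=
  (Homeomorph.addRight a).measurableEmbedding

theorem emb_neg : MeasurableEmbedding (Neg.neg : ℂ → ℂ) :=
  (Homeomorph.neg ℂ).measurableEmbedding

theorem per_comp_add {h : ℂ → E} (hh : Per ℓ h) (a : ℂ) : Per ℓ (fun z => h (z + a)) := by
  refine ⟨fun z => ?_, fun z => ?_⟩
  · show h (z + ℓ + a) = h (z + a)
    rw [add_right_comm]
    exact hh.1 _
  · show h (z + ℓ * Complex.I + a) = h (z + a)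
    rw [add_right_comm]
    exact hh.2 _

theorem Q_eq_preim : Q ℓ = Complex.measurableEquivRealProd ⁻¹'
    ((Ico (-(ℓ / 2)) (ℓ / 2)) ×ˢ (Ico (-(ℓ / 2)) (ℓ / 2))) := by
  ext z
  simp [Q, Complex.measurableEquivRealProd_apply]

theorem Q_sub_compact : ∃ K : Set ℂ, IsCompact K ∧ Q ℓ ⊆ K := by
  refine ⟨closedBall 0 (|ℓ|), isCompact_closedBall _ _, ?_⟩
  intro z hz
  rw [mem_closedBall_zero_iff]
  have h1 := hz.1
  have h2 := hz.2
  have h3 : |z.re| ≤ |ℓ| / 2 := by
    rw [abs_le]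
    have := h1.1
    have := h1.2
    have := le_abs_self ℓ
    constructor <;> linarith
  have h4 : |z.im| ≤ |ℓ| / 2 := by
    rw [abs_le]
    have := h2.1
    have := h2.2
    have := le_abs_self ℓ
    constructor <;> linarith
  have h5 := Complex.norm_le_abs_re_add_abs_im z
  linarith

end CellInt1Aux

open CellInt1Aux

theorem measurableSet_Q : MeasurableSet (Q ℓ) := by
  exact measQ

theorem volume_Q (hl : 0 < ℓ) : volume (Q ℓ) = ENNReal.ofReal (ℓ ^ 2) := by
  rw [Q_eq_preim, Complex.volume_preserving_equiv_real_prod.measure_preimage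
    (measurableSet_Ico.prod measurableSet_Ico).nullMeasurableSet, Measure.volume_eq_prod, Measure.prod_prod,
    Real.volume_Ico]
  have e : ℓ / 2 - -(ℓ / 2) = ℓ := by ring
  rw [e, ← ENNReal.ofReal_mul hl.le, pow_two]

theorem int_Q_one (hl : 0 < ℓ) : ∫ _z in Q ℓ, (1 : ℝ) = ℓ ^ 2 := by
  rw [setIntegral_const, smul_eq_mul, mul_one, measureReal_def, volume_Q hl]
  exact ENNReal.toReal_ofReal (by positivity)

/-- Continuous functions are integrable over the cell. -/
theorem integrableOn_Q_of_continuous (hl : 0 < ℓ) (h : ℂ → E) (hh : Continuous h) : IntegrableOn h (Q ℓ) := by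
  obtain ⟨K, hK, hQ⟩ := Q_sub_compact (ℓ := ℓ)
  exact (hh.continuousOn.integrableOn_compact hK).mono_set hQ

theorem int_Q_add (hl : 0 < ℓ) (h : ℂ → E) (hh : Per ℓ h) (a : ℂ) :
    ∫ z in Q ℓ, h (z + a) = ∫ z in Q ℓ, h z := by
  have h1 := (measurePreserving_add_right (volume : Measure ℂ) a).setIntegral_preimage_emb (emb_add a) h
    ((fun z : ℂ => z + -a) ⁻¹' Q ℓ)
  rw [preim_add] at h1
  rw [h1]
  exact (fdT hl a).setIntegral_eq (fdQ hl) (inv hh)

theorem integrableOn_Q_add (hl : 0 < ℓ) (h : ℂ → E) (hh : Per ℓ h) (a : ℂ) (hi : IntegrableOn h (Q ℓ)) :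
    IntegrableOn (fun z => h (z + a)) (Q ℓ) := by
  have h1 := (measurePreserving_add_right (volume : Measure ℂ) a).integrableOn_comp_preimage (emb_add a) (f := h)
    (s := ((fun z : ℂ => z + -a) ⁻¹' Q ℓ))
  rw [preim_add] at h1
  exact h1.2 (((fdQ hl).integrableOn_iff (fdT hl a) (inv hh)).1 hi)

theorem int_Q_neg (hl : 0 < ℓ) (h : ℂ → E) (hh : Per ℓ h) :
    ∫ z in Q ℓ, h (-z) = ∫ z in Q ℓ, h z := by
  have h1 := (Measure.measurePreserving_neg (volume : Measure ℂ)).setIntegral_preimage_emb emb_neg h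
    ((fun z : ℂ => -z) ⁻¹' Q ℓ)
  rw [preim_neg] at h1
  rw [h1]
  exact (fdN hl).setIntegral_eq (fdQ hl) (inv hh)

theorem integrableOn_Q_neg (hl : 0 < ℓ) (h : ℂ → E) (hh : Per ℓ h) (hi : IntegrableOn h (Q ℓ)) :
    IntegrableOn (fun z => h (-z)) (Q ℓ) := by
  have h1 := (Measure.measurePreserving_neg (volume : Measure ℂ)).integrableOn_comp_preimage emb_neg (f := h)
    (s := ((fun z : ℂ => -z) ⁻¹' Q ℓ))
  rw [preim_neg] at h1
  exact h1.2 (((fdQ hl).integrableOn_iff (fdN hl) (inv hh)).1 hi)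

theorem int_Q_sub (hl : 0 < ℓ) (h : ℂ → E) (hh : Per ℓ h) (x : ℂ) :
    ∫ y in Q ℓ, h (x - y) = ∫ y in Q ℓ, h y := by
  have h1 := int_Q_neg hl (fun z => h (z + x)) (per_comp_add hh x)
  rw [int_Q_add hl h hh x] at h1
  rw [← h1]
  refine integral_congr_ae (Filter.Eventually.of_forall fun y => ?_)
  show h (x - y) = h (-y + x)
  congr 1
  ring

theorem integrableOn_Q_sub (hl : 0 < ℓ) (h : ℂ → E) (hh : Per ℓ h) (x : ℂ) (hi : IntegrableOn h (Q ℓ)) :
    IntegrableOn (fun y => h (x - y)) (Q ℓ) := by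
  have h1 := integrableOn_Q_neg hl (fun z => h (z + x)) (per_comp_add hh x) (integrableOn_Q_add hl h hh x hi)
  have h2 : (fun y : ℂ => h (x - y)) = fun z : ℂ => h (-z + x) := by
    funext y
    congr 1
    ring
  rw [h2]
  exact h1

/-- Convolution of periodic functions. -/
theorem int_Q_conv (hl : 0 < ℓ) (g h : ℂ → ℝ) (hg : Per ℓ g) (hh : Per ℓ h) (x : ℂ) :
    ∫ y in Q ℓ, g (x - y) * h y = ∫ y in Q ℓ, g y * h (x - y) := by
  have hp : Per ℓ (fun y => g (x - y) * h y) := by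
    refine ⟨fun z => ?_, fun z => ?_⟩
    · show g (x - (z + ℓ)) * h (z + ℓ) = g (x - z) * h z
      rw [hh.1, ← hg.1 (x - (z + ℓ))]
      congr 2
      ring
    · show g (x - (z + ℓ * Complex.I)) * h (z + ℓ * Complex.I) = g (x - z) * h z
      rw [hh.2, ← hg.2 (x - (z + ℓ * Complex.I))]
      congr 2
      ring
  rw [← int_Q_sub hl _ hp x]
  refine integral_congr_ae (Filter.Eventually.of_forall fun y => ?_)
  show g (x - (x - y)) * h (x - y) = g y * h (x - y)
  rw [sub_sub_cancel]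

theorem per_bounded (hl : 0 < ℓ) (h : ℂ → E) (hh : Per ℓ h) (hc : Continuous h) : ∃ M, ∀ z, ‖h z‖ ≤ M := by
  obtain ⟨K, hK, hQ⟩ := Q_sub_compact (ℓ := ℓ)
  obtain ⟨M, hM⟩ := hK.exists_bound_of_continuousOn hc.continuousOn
  refine ⟨M, fun z => ?_⟩
  obtain ⟨k, hk, hz⟩ := exists_rep hl z
  have h1 := per_lat h hh (z - k) k hk
  rw [sub_add_cancel] at h1
  rw [h1]
  exact hM _ (hQ hz)

end AO

end
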