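import Pool.Agent.Lib.AO.Polar

/-!
Circle mean of an almost constant exponential (library AO, MP_7bfba2_an).
-/

set_option autoImplicit false

open Complex MeasureTheory Set Metric Filter
open scoped Real ContDiff Topology

noncomputable section

namespace AO

private theorem cm_aff (α β : ℝ) (h : ℂ → ℝ) (p : ℂ) (R s : ℝ) (hs : 0 ≤ s) (hsR : s < R)
    (hh : ContinuousOn h (ball p R)) :
    cm (fun z => α + β * h z) p s = α + β * cm h p s := by
  have hc := Polar1Aux.contOn_slice h p R s hs hsR hh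
  unfold cm
  rw [intervalIntegral.integral_add (by simp) ((hc.const_mul β).intervalIntegrable _ _),
    intervalIntegral.integral_const_mul, intervalIntegral.integral_const]
  have : (2 * π) ≠ 0 := by positivity
  simp only [sub_zero, smul_eq_mul]
  generalize (∫ x in (0 : ℝ)..(2 * π), h (p + s * Complex.exp (x * Complex.I))) = J
  field_simp

theorem cm_exp (u : ℂ → ℝ) (p : ℂ) (R s k g0 : ℝ) (hs : 0 < s) (hsR : s < R) (hu : ContinuousOn u (ball p R))
    (hk : 0 < k) (hg : 0 ≤ g0) (hg1 : g0 ≤ 1 / 10) (h : ∀ z, ‖z - p‖ = s → |Real.exp (u z) / k - 1| ≤ g0) :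
    |cm (fun z => Real.exp (u z)) p s - Real.exp (cm u p s)| ≤ 3 * k * g0 ^ 2 ∧
    Real.exp (cm u p s) ≤ 2 * k := by
  have hue : ContinuousOn (fun z => Real.exp (u z)) (ball p R) :=
    Real.continuous_exp.comp_continuousOn hu
  set E : ℝ := cm (fun z => Real.exp (u z)) p s with hE
  -- pointwise facts
  have hpt : ∀ z, ‖z - p‖ = s → u z ≤ (Real.log k - 1) + k⁻¹ * Real.exp (u z) ∧
      (Real.log k - 1 - 10 / 9 * g0 ^ 2) + k⁻¹ * Real.exp (u z) ≤ u z := by
    intro z hz
    have h1 := abs_le.1 (h z hz)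
    set g : ℝ := Real.exp (u z) / k - 1 with hgdef
    have hpos : 0 < 1 + g := by linarith
    have hk1 : k⁻¹ * Real.exp (u z) = 1 + g := by
      rw [hgdef]; field_simp; ring
    have hex : Real.exp (u z) = k * (1 + g) := by
      rw [hgdef]; field_simp; ring
    have hul : u z = Real.log k + Real.log (1 + g) := by
      rw [← Real.log_mul hk.ne' hpos.ne', ← hex, Real.log_exp]
    have hl1 : Real.log (1 + g) ≤ g := by
      have := Real.log_le_sub_one_of_pos hpos
      linarith
    have hl2 : g - 10 / 9 * g0 ^ 2 ≤ Real.log (1 + g) := by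
      have h2 := Real.one_sub_inv_le_log_of_pos hpos
      have h3 : 1 - (1 + g)⁻¹ = g - g ^ 2 / (1 + g) := by
        field_simp; ring
      have h4 : g ^ 2 / (1 + g) ≤ 10 / 9 * g0 ^ 2 := by
        rw [div_le_iff₀ hpos]
        have h5 : g ^ 2 ≤ g0 ^ 2 := by
          rw [← sq_abs g]
          exact pow_le_pow_left₀ (abs_nonneg _) (h z hz) 2
        nlinarith [sq_nonneg g0, sq_nonneg g]
      linarith
    constructor
    · rw [hk1, hul]; linarith
    · rw [hk1, hul]; linarith
  have hup : cm u p s ≤ (Real.log k - 1) + k⁻¹ * E := by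
    rw [hE, ← cm_aff _ _ _ p R s hs.le hsR hue]
    exact cm_mono _ _ p R s hs.le hsR hu (continuousOn_const.add (continuousOn_const.mul hue))
      (fun z hz => (hpt z hz).1)
  have hlo : (Real.log k - 1 - 10 / 9 * g0 ^ 2) + k⁻¹ * E ≤ cm u p s := by
    rw [hE, ← cm_aff _ _ _ p R s hs.le hsR hue]
    exact cm_mono _ _ p R s hs.le hsR (continuousOn_const.add (continuousOn_const.mul hue)) hu
      (fun z hz => (hpt z hz).2)
  have hE1 : E ≤ k * (1 + g0) := by
    rw [hE, ← cm_const (k * (1 + g0)) p s]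
    apply cm_mono _ _ p R s hs.le hsR hue continuousOn_const
    intro z hz
    have h1 := (abs_le.1 (h z hz)).2
    have h2 : Real.exp (u z) / k ≤ 1 + g0 := by linarith
    rw [div_le_iff₀ hk] at h2
    linarith
  have hE2 : k * (1 - g0) ≤ E := by
    rw [hE, ← cm_const (k * (1 - g0)) p s]
    apply cm_mono _ _ p R s hs.le hsR continuousOn_const hue
    intro z hz
    have h1 := (abs_le.1 (h z hz)).1
    have h2 : 1 - g0 ≤ Real.exp (u z) / k := by linarith
    rw [le_div_iff₀ hk] at h2
    linarith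
  set a : ℝ := k⁻¹ * E - 1 with ha
  have hEa : E = k * (1 + a) := by rw [ha]; field_simp; ring
  have ha1 : |a| ≤ g0 := by
    rw [abs_le]
    rw [hEa] at hE1 hE2
    constructor
    · nlinarith
    · nlinarith
  have ha2 : a ^ 2 ≤ g0 ^ 2 := by
    rw [← sq_abs a]
    exact pow_le_pow_left₀ (abs_nonneg _) ha1 2
  have hexpa : Real.exp a ≤ 1 + a + a ^ 2 := by
    have := Real.abs_exp_sub_one_sub_id_le (x := a) (by linarith)
    have := (abs_le.1 this).2
    linarith
  have hexp1 : Real.exp (cm u p s) ≤ k * Real.exp a := by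
    have : cm u p s ≤ Real.log k + a := by rw [ha]; linarith
    calc Real.exp (cm u p s) ≤ Real.exp (Real.log k + a) := Real.exp_le_exp.2 this
      _ = k * Real.exp a := by rw [Real.exp_add, Real.exp_log hk]
  have hexp2 : k * (1 + a - 10 / 9 * g0 ^ 2) ≤ Real.exp (cm u p s) := by
    have : Real.log k + (a - 10 / 9 * g0 ^ 2) ≤ cm u p s := by rw [ha]; linarith
    calc k * (1 + a - 10 / 9 * g0 ^ 2) ≤ k * Real.exp (a - 10 / 9 * g0 ^ 2) := by
          apply mul_le_mul_of_nonneg_left _ hk.le
          have := Real.add_one_le_exp (a - 10 / 9 * g0 ^ 2)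
          linarith
      _ = Real.exp (Real.log k + (a - 10 / 9 * g0 ^ 2)) := by rw [Real.exp_add, Real.exp_log hk]
      _ ≤ _ := Real.exp_le_exp.2 this
  have hg2 : 0 ≤ k * g0 ^ 2 := by positivity
  constructor
  · rw [abs_le, hEa]
    constructor
    · nlinarith [mul_le_mul_of_nonneg_left hexpa hk.le, mul_le_mul_of_nonneg_left ha2 hk.le]
    · nlinarith [mul_le_mul_of_nonneg_left hexpa hk.le]
  · have h5 := (abs_le.1 ha1).2
    have h6 : a ^ 2 ≤ 1 / 100 := by
      calc a ^ 2 ≤ g0 ^ 2 := ha2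
        _ ≤ (1 / 10) ^ 2 := pow_le_pow_left₀ hg hg1 2
        _ = 1 / 100 := by norm_num
    nlinarith [mul_le_mul_of_nonneg_left hexpa hk.le]

end AO

end
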