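import Pool.Agent.Lib.AO.Radial1

/-!
Integrals of the bubble profile `f0` against radial weights in the plane.
-/

set_option autoImplicit false

open Complex MeasureTheory Set Metric Filter
open scoped Real ContDiff Topology

noncomputable section

namespace AO

theorem f0_continuous (ε : ℝ) (hε : 0 < ε) : Continuous (f0 ε) := by
  unfold f0
  refine continuous_const.div (by fun_prop) fun s => ?_
  positivity

theorem f0_nonneg (ε s : ℝ) : 0 ≤ f0 ε s := by
  unfold f0; positivity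

theorem int_f0 (ε : ℝ) (hε : 0 < ε) (x : ℂ) (r : ℝ) (hr : 0 ≤ r) :
    ∫ y in ball x r, f0 ε ‖y - x‖ = 8 * π * r ^ 2 / (ε ^ 2 + r ^ 2) := by
  rw [int_ball_radial (f0 ε) x r hr]
  have hd : ∀ s : ℝ, HasDerivAt (fun s : ℝ => 4 * s ^ 2 / (ε ^ 2 + s ^ 2)) (s * f0 ε s) s := by
    intro s
    have h1 : HasDerivAt (fun s : ℝ => 4 * s ^ 2) (4 * (2 * s)) s := by
      have := (hasDerivAt_pow 2 s).const_mul (4 : ℝ)
      simpa using this
    have h2 : HasDerivAt (fun s : ℝ => ε ^ 2 + s ^ 2) (2 * s) s := by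
      have := (hasDerivAt_pow 2 s).const_add (ε ^ 2)
      simpa using this
    have hne : ε ^ 2 + s ^ 2 ≠ 0 := by positivity
    have h3 := h1.div h2 hne
    have h4 : s * f0 ε s = (4 * (2 * s) * (ε ^ 2 + s ^ 2) - 4 * s ^ 2 * (2 * s)) /
        (ε ^ 2 + s ^ 2) ^ 2 := by
      unfold f0
      field_simp
      ring
    rw [h4]
    exact h3
  rw [intervalIntegral.integral_eq_sub_of_hasDerivAt (fun s _ => hd s)
    ((continuous_id.mul (f0_continuous ε hε)).intervalIntegrable _ _)]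
  have hne : ε ^ 2 + r ^ 2 ≠ 0 := by positivity
  field_simp
  ring

theorem integrable_f0 (ε : ℝ) (hε : 0 < ε) (x : ℂ) :
    Integrable (fun y => f0 ε ‖y - x‖) ∧ ∫ y, f0 ε ‖y - x‖ = 8 * π := by
  have hc : Continuous fun y : ℂ => f0 ε ‖y - x‖ :=
    (f0_continuous ε hε).comp (by fun_prop)
  have hcov : AECover (volume : Measure ℂ) atTop (fun n : ℕ => ball x (n : ℝ)) :=
    aecover_ball tendsto_natCast_atTop_atTop
  have hi : ∀ n : ℕ, IntegrableOn (fun y => f0 ε ‖y - x‖) (ball x (n : ℝ)) := fun n =>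
    (hc.continuousOn.integrableOn_compact (isCompact_closedBall x (n : ℝ))).mono_set
      ball_subset_closedBall
  have hnn : ∀ᵐ y ∂(volume : Measure ℂ), 0 ≤ f0 ε ‖y - x‖ :=
    Eventually.of_forall fun y => f0_nonneg _ _
  have ht : Tendsto (fun n : ℕ => ∫ y in ball x (n : ℝ), f0 ε ‖y - x‖) atTop (𝓝 (8 * π)) := by
    have h1 : (fun n : ℕ => ∫ y in ball x (n : ℝ), f0 ε ‖y - x‖) =
        fun n : ℕ => 8 * π * (1 - ε ^ 2 * (ε ^ 2 + (n : ℝ) ^ 2)⁻¹) := by
      funext n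
      rw [int_f0 ε hε x n (Nat.cast_nonneg n)]
      have hne : ε ^ 2 + (n : ℝ) ^ 2 ≠ 0 := by positivity
      field_simp
      ring
    rw [h1]
    have h2 : Tendsto (fun n : ℕ => ε ^ 2 + (n : ℝ) ^ 2) atTop atTop :=
      tendsto_atTop_add_const_left _ _
        ((tendsto_pow_atTop (by norm_num)).comp tendsto_natCast_atTop_atTop)
    have h3 := (((h2.inv_tendsto_atTop).const_mul (ε ^ 2)).const_sub 1).const_mul (8 * π)
    simpa using h3
  exact ⟨hcov.integrable_of_integral_tendsto_of_nonneg_ae _ hi hnn ht,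
    hcov.integral_eq_of_tendsto_of_nonneg_ae _ hnn hi ht⟩

theorem f0_le (ε s : ℝ) (hε : 0 < ε) (hs : 0 ≤ s) : f0 ε s ≤ 32 * ε ^ 2 / (ε + s) ^ 4 := by
  unfold f0
  have h1 : (ε + s) ^ 2 ≤ 2 * (ε ^ 2 + s ^ 2) := by nlinarith [sq_nonneg (ε - s)]
  have h2 : ((ε + s) ^ 2) ^ 2 ≤ (2 * (ε ^ 2 + s ^ 2)) ^ 2 :=
    pow_le_pow_left₀ (by positivity) h1 2
  rw [div_le_div_iff₀ (by positivity) (by positivity)]
  have h3 : 0 ≤ ε ^ 2 := by positivity
  nlinarith [mul_le_mul_of_nonneg_left h2 h3]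

theorem int_u32 (ε r : ℝ) (hε : 0 < ε) (hr : 0 ≤ r) :
    IntervalIntegrable (fun s => ((ε + s) * √(ε + s))⁻¹) volume 0 r ∧
    ∫ s in (0 : ℝ)..r, ((ε + s) * √(ε + s))⁻¹ ≤ 2 / √ε := by
  have hc : ContinuousOn (fun s : ℝ => ((ε + s) * √(ε + s))⁻¹) (uIcc 0 r) := by
    refine ContinuousOn.inv₀ (by fun_prop) fun s hs => ?_
    rw [uIcc_of_le hr] at hs
    have : 0 < ε + s := by linarith [hs.1]
    positivity
  have hi : IntervalIntegrable (fun s : ℝ => ((ε + s) * √(ε + s))⁻¹) volume 0 r :=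
    hc.intervalIntegrable
  refine ⟨hi, ?_⟩
  have hd : ∀ s ∈ uIcc 0 r, HasDerivAt (fun s : ℝ => -2 * (√(ε + s))⁻¹)
      (((ε + s) * √(ε + s))⁻¹) s := by
    intro s hs
    rw [uIcc_of_le hr] at hs
    have hu : 0 < ε + s := by linarith [hs.1]
    have hsq : 0 < √(ε + s) := Real.sqrt_pos.mpr hu
    have h1 : HasDerivAt (fun s : ℝ => ε + s) 1 s := (hasDerivAt_id s).const_add ε
    have h2 := (h1.sqrt hu.ne').inv hsq.ne'
    have h3 := h2.const_mul (-2)
    have h4 : √(ε + s) ^ 2 = ε + s := Real.sq_sqrt hu.le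
    have h5 : ((ε + s) * √(ε + s))⁻¹ = -2 * (-(1 / (2 * √(ε + s))) / √(ε + s) ^ 2) := by
      rw [h4]
      field_simp
    rw [h5]
    exact h3
  rw [intervalIntegral.integral_eq_sub_of_hasDerivAt hd hi]
  have h5 : 0 ≤ (√(ε + r))⁻¹ := by positivity
  simp only [add_zero]
  rw [div_eq_mul_inv]
  linarith

theorem int_aux (ε r K : ℝ) (hε : 0 < ε) (hr : 0 ≤ r) (hK : 0 ≤ K) (g : ℝ → ℝ) (hg : Continuous g)
    (h : ∀ s, 0 ≤ s → s * g s ≤ K * ((ε + s) * √(ε + s))⁻¹) (x : ℂ) :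
    ∫ y in ball x r, g ‖y - x‖ ≤ 2 * π * (K * (2 / √ε)) := by
  rw [int_ball_radial g x r hr]
  obtain ⟨h1, h2⟩ := int_u32 ε r hε hr
  have h3 : ∫ s in (0 : ℝ)..r, s * g s ≤ ∫ s in (0 : ℝ)..r, K * ((ε + s) * √(ε + s))⁻¹ :=
    intervalIntegral.integral_mono_on hr ((continuous_id.mul hg).intervalIntegrable _ _)
      (h1.const_mul K) fun s hs => h s hs.1
  rw [intervalIntegral.integral_const_mul] at h3
  have h4 := mul_le_mul_of_nonneg_left h2 hK
  exact mul_le_mul_of_nonneg_left (h3.trans h4) (by positivity)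

/-- Integral of `f0` against `s √s`, needed for the mass defect. -/
theorem int_f0_32 : ∃ C : ℝ, 0 < C ∧ ∀ (ε r : ℝ) (x : ℂ), 0 < ε → 0 ≤ r →
    ∫ y in ball x r, f0 ε ‖y - x‖ * (‖y - x‖ * √‖y - x‖) ≤ C * (ε * √ε) := by
  refine ⟨128 * π, by positivity, fun ε r x hε hr => ?_⟩
  have h := int_aux ε r (32 * ε ^ 2) hε hr (by positivity) (fun s => f0 ε s * (s * √s))
    ((f0_continuous ε hε).mul (by fun_prop)) (fun s hs => ?_) x
  · refine h.trans (le_of_eq ?_)
    have h5 : √ε ≠ 0 := (Real.sqrt_pos.mpr hε).ne'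
    have h6 : ε = √ε * √ε := (Real.mul_self_sqrt hε.le).symm
    field_simp
    rw [Real.sq_sqrt hε.le]
    ring
  · have hu : 0 < ε + s := by linarith
    have hsu : 0 < √(ε + s) := Real.sqrt_pos.mpr hu
    have h6 : √(ε + s) ^ 2 = ε + s := Real.sq_sqrt hu.le
    have h1 := f0_le ε s hε hs
    have h2 : s * (s * √s) ≤ (ε + s) * ((ε + s) * √(ε + s)) := by
      have h7 : s ≤ ε + s := by linarith
      have h8 : √s ≤ √(ε + s) := Real.sqrt_le_sqrt h7
      have := Real.sqrt_nonneg s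
      gcongr
    calc s * (f0 ε s * (s * √s)) = f0 ε s * (s * (s * √s)) := by ring
      _ ≤ (32 * ε ^ 2 / (ε + s) ^ 4) * ((ε + s) * ((ε + s) * √(ε + s))) := by
          have := f0_nonneg ε s
          have := Real.sqrt_nonneg s
          gcongr
      _ = 32 * ε ^ 2 * ((ε + s) * √(ε + s))⁻¹ := by
          field_simp
          rw [h6]

theorem int_f0_12' (ε r : ℝ) (x : ℂ) (hε : 0 < ε) (hr : 0 ≤ r) :
    ∫ y in ball x r, f0 ε ‖y - x‖ * √‖y - x‖ ≤ 128 * π * √ε := by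
  have h := int_aux ε r (32 * ε) hε hr (by positivity) (fun s => f0 ε s * √s)
    ((f0_continuous ε hε).mul (by fun_prop)) (fun s hs => ?_) x
  · refine h.trans (le_of_eq ?_)
    have h5 : √ε ≠ 0 := (Real.sqrt_pos.mpr hε).ne'
    field_simp
    rw [Real.sq_sqrt hε.le]
    ring
  · have hu : 0 < ε + s := by linarith
    have hsu : 0 < √(ε + s) := Real.sqrt_pos.mpr hu
    have h6 : √(ε + s) ^ 2 = ε + s := Real.sq_sqrt hu.le
    have h1 := f0_le ε s hε hs
    have h2 : s * √s ≤ (ε + s) * √(ε + s) := by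
      have h7 : s ≤ ε + s := by linarith
      have h8 : √s ≤ √(ε + s) := Real.sqrt_le_sqrt h7
      have := Real.sqrt_nonneg s
      gcongr
    calc s * (f0 ε s * √s) = f0 ε s * (s * √s) := by ring
      _ ≤ (32 * ε ^ 2 / (ε + s) ^ 4) * ((ε + s) * √(ε + s)) := by
          have := f0_nonneg ε s
          have := Real.sqrt_nonneg s
          gcongr
      _ = 32 * ε * (ε / (ε + s)) * ((ε + s) * √(ε + s))⁻¹ := by
          field_simp
          rw [h6]
      _ ≤ 32 * ε * 1 * ((ε + s) * √(ε + s))⁻¹ := by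
          have : ε / (ε + s) ≤ 1 := by
            rw [div_le_one hu]; linarith
          gcongr
      _ = 32 * ε * ((ε + s) * √(ε + s))⁻¹ := by ring

/-- Integral of `f0` against `√s` (that is `s √s / s`), needed for the force balance. -/
theorem int_f0_12 : ∃ C : ℝ, 0 < C ∧ ∀ (ε r : ℝ) (x : ℂ), 0 < ε → 0 ≤ r →
    ∫ y in ball x r, f0 ε ‖y - x‖ * √‖y - x‖ ≤ C * √ε :=
  ⟨128 * π, by positivity, fun ε r x hε hr => int_f0_12' ε r x hε hr⟩

/-- Integral of `f0` against the positive part of `log (s / ε)`. -/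
theorem int_f0_log : ∃ C : ℝ, 0 < C ∧ ∀ (ε r : ℝ) (x : ℂ), 0 < ε → 0 ≤ r →
    ∫ y in ball x r, f0 ε ‖y - x‖ * max 0 (Real.log (‖y - x‖ / ε)) ≤ C := by
  refine ⟨256 * π, by positivity, fun ε r x hε hr => ?_⟩
  have hsε : 0 < √ε := Real.sqrt_pos.mpr hε
  have hc : Continuous fun y : ℂ => (2 / √ε) * (f0 ε ‖y - x‖ * √‖y - x‖) := by
    have h1 : Continuous fun y : ℂ => f0 ε ‖y - x‖ := (f0_continuous ε hε).comp (by fun_prop)
    exact continuous_const.mul (h1.mul (by fun_prop))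
  have hi : IntegrableOn (fun y : ℂ => (2 / √ε) * (f0 ε ‖y - x‖ * √‖y - x‖)) (ball x r) :=
    (hc.continuousOn.integrableOn_compact (isCompact_closedBall x r)).mono_set
      ball_subset_closedBall
  have h1 : ∫ y in ball x r, f0 ε ‖y - x‖ * max 0 (Real.log (‖y - x‖ / ε)) ≤
      ∫ y in ball x r, (2 / √ε) * (f0 ε ‖y - x‖ * √‖y - x‖) := by
    refine integral_mono_of_nonneg (Eventually.of_forall fun y => ?_) hi
      (Eventually.of_forall fun y => ?_)
    · exact mul_nonneg (f0_nonneg _ _) (le_max_left _ _)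
    · have h2 : max 0 (Real.log (‖y - x‖ / ε)) ≤ (2 / √ε) * √‖y - x‖ := by
        apply max_le
        · positivity
        · rcases (norm_nonneg (y - x)).eq_or_lt' with h0 | h0
          · rw [h0]; simp
          · have h3 : 0 < ‖y - x‖ / ε := by positivity
            have h4 : Real.log (‖y - x‖ / ε) = 2 * Real.log (√(‖y - x‖ / ε)) := by
              rw [Real.log_sqrt h3.le]; ring
            have h5 := Real.log_le_sub_one_of_pos (Real.sqrt_pos.mpr h3)
            rw [h4]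
            have h6 : √(‖y - x‖ / ε) = √‖y - x‖ / √ε := Real.sqrt_div h0.le ε
            rw [h6] at h5 ⊢
            have h7 : (2 / √ε) * √‖y - x‖ = 2 * (√‖y - x‖ / √ε) := by ring
            rw [h7]
            linarith
      have h3 := mul_le_mul_of_nonneg_left h2 (f0_nonneg ε ‖y - x‖)
      calc f0 ε ‖y - x‖ * max 0 (Real.log (‖y - x‖ / ε))
          ≤ f0 ε ‖y - x‖ * ((2 / √ε) * √‖y - x‖) := h3
        _ = (2 / √ε) * (f0 ε ‖y - x‖ * √‖y - x‖) := by ring
  rw [integral_const_mul] at h1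
  have h2 := mul_le_mul_of_nonneg_left (int_f0_12' ε r x hε hr) (by positivity : 0 ≤ 2 / √ε)
  refine (h1.trans h2).trans (le_of_eq ?_)
  field_simp
  ring

/-- Integral of `f0` against `s³`: no logarithm. -/
theorem int_f0_3 : ∃ C : ℝ, 0 < C ∧ ∀ (ε r : ℝ) (x : ℂ), 0 < ε → 0 ≤ r →
    ∫ y in ball x r, f0 ε ‖y - x‖ * ‖y - x‖ ^ 3 ≤ C * ε ^ 2 * r := by
  refine ⟨16 * π, by positivity, fun ε r x hε hr => ?_⟩
  rw [int_ball_radial (fun s => f0 ε s * s ^ 3) x r hr]
  have h1 : ∫ s in (0 : ℝ)..r, s * (f0 ε s * s ^ 3) ≤ ∫ s in (0 : ℝ)..r, 8 * ε ^ 2 := by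
    apply intervalIntegral.integral_mono_on hr
    · exact (continuous_id.mul ((f0_continuous ε hε).mul (by fun_prop))).intervalIntegrable _ _
    · exact continuous_const.intervalIntegrable _ _
    · intro s hs
      unfold f0
      have h2 : s * (8 * ε ^ 2 / (ε ^ 2 + s ^ 2) ^ 2 * s ^ 3) =
          8 * ε ^ 2 * s ^ 4 / (ε ^ 2 + s ^ 2) ^ 2 := by ring
      rw [h2, div_le_iff₀ (by positivity)]
      have h3 : s ^ 4 ≤ (ε ^ 2 + s ^ 2) ^ 2 := by nlinarith [sq_nonneg (ε * s), sq_nonneg (ε ^ 2)]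
      have h4 : 0 ≤ 8 * ε ^ 2 := by positivity
      nlinarith [mul_le_mul_of_nonneg_left h3 h4]
  rw [intervalIntegral.integral_const, smul_eq_mul, sub_zero] at h1
  have h5 := mul_le_mul_of_nonneg_left h1 (by positivity : 0 ≤ 2 * π)
  refine h5.trans (le_of_eq ?_)
  ring

end AO

end
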