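import Pool.Agent.Lib.AO.Radial1
import Pool.Agent.Lib.AO.Radial2

/-
Module Radial3 / Radial (library AO, MP_7bfba2_an).
Integrals of radial functions in the plane.
int_ball_radial: MeasureTheory.integral_fun_norm_addHaar (finrank 2, volume (ball 0 1) = π; Complex.volume_ball) applied to the function
s -> indicator (s < r) g s, after the translation y -> y - x; or Complex.integral_comp_polarCoord_symm.
The others are one dimensional integrals: ∫_0^r s * s⁻¹ = r, ∫_0^r s/(s √s) = 2 √r, ∫_0^r s log(r/s) = r²/4,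
∫_0^r s 8ε²/(ε²+s²)² = 4 r²/(ε²+r²) (antiderivative 4 s²/(ε²+s²)).
conv_bound: √‖z-p‖ <= √‖ζ-p‖ + √‖z-ζ‖, so √‖z-p‖ /(‖ζ-p‖ ‖z-ζ‖) <= 1/(√‖ζ-p‖ ‖z-ζ‖) + 1/(‖ζ-p‖ √‖z-ζ‖) <= 2 (‖ζ-p‖^(-3/2) + ‖z-ζ‖^(-3/2))
(Young: x y² <= x³ + y³ for x, y >= 0); ball p δ is contained in ball z (2δ); int_inv32 gives <= 2 (4π√δ + 4π√(2δ)).
f0_conv: put D = ‖x-p‖.  On ‖y-x‖ >= D/2 the integrand is <= (2/D) f0, total <= (2/D) 8π.  On ball x (D/2): ‖y-p‖ >= D/2, so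
f0 <= 8ε²/(ε²+D²/4)² and the integral is <= 2π(D/2) 8ε²/(ε²+D²/4)² <= C/D because ε² D² <= (ε²+D²)² <= 16 (ε²+D²/4)².
-/

set_option autoImplicit false

open Complex MeasureTheory Set Metric Filter
open scoped Real ContDiff Topology

noncomputable section

namespace AO

namespace Radial3Aux

theorem young {X Y : ℝ} (hX : 0 ≤ X) (hY : 0 ≤ Y) : X * Y ^ 2 ≤ X ^ 3 + Y ^ 3 := by
  rcases le_total X Y with h | h
  · have h1 : X * Y ^ 2 ≤ Y * Y ^ 2 := mul_le_mul_of_nonneg_right h (sq_nonneg Y)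
    have h2 : 0 ≤ X ^ 3 := pow_nonneg hX 3
    nlinarith
  · have h1 : X * Y ^ 2 ≤ X * X ^ 2 :=
      mul_le_mul_of_nonneg_left (pow_le_pow_left₀ hY h 2) hX
    have h2 : 0 ≤ Y ^ 3 := pow_nonneg hY 3
    nlinarith

theorem inv_bound {a b D : ℝ} (ha : 0 ≤ a) (hb : 0 ≤ b) (hD : 0 < D) (h : D ≤ a + b) :
    (a * b)⁻¹ ≤ 2 / √D * ((a * √a)⁻¹ + (b * √b)⁻¹) := by
  rcases ha.eq_or_lt with ha0 | ha0
  · rw [← ha0]
    simp only [zero_mul, inv_zero, zero_add]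
    positivity
  rcases hb.eq_or_lt with hb0 | hb0
  · rw [← hb0]
    simp only [mul_zero, zero_mul, inv_zero, add_zero]
    positivity
  have hsD : 0 < √D := Real.sqrt_pos.2 hD
  have hsa : 0 < √a := Real.sqrt_pos.2 ha0
  have hsb : 0 < √b := Real.sqrt_pos.2 hb0
  have h1 : √D ≤ √a + √b := by
    refine (Real.sqrt_le_sqrt h).trans ?_
    rw [Real.sqrt_le_iff]
    refine ⟨by positivity, ?_⟩
    have h8 := Real.sq_sqrt ha
    have h9 := Real.sq_sqrt hb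
    have h10 : 0 ≤ √a * √b := by positivity
    nlinarith
  set X : ℝ := (√a)⁻¹ with hX
  set Y : ℝ := (√b)⁻¹ with hY
  have hX0 : 0 < X := inv_pos.2 hsa
  have hY0 : 0 < Y := inv_pos.2 hsb
  have ea : a⁻¹ = X ^ 2 := by
    rw [hX, inv_pow, Real.sq_sqrt ha]
  have eb : b⁻¹ = Y ^ 2 := by
    rw [hY, inv_pow, Real.sq_sqrt hb]
  have e1 : (a * b)⁻¹ = X ^ 2 * Y ^ 2 := by rw [mul_inv, ea, eb]
  have e2 : (a * √a)⁻¹ = X ^ 3 := by rw [mul_inv, ea, ← hX]; ring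
  have e3 : (b * √b)⁻¹ = Y ^ 3 := by rw [mul_inv, eb, ← hY]; ring
  rw [e1, e2, e3, div_mul_eq_mul_div, le_div_iff₀ hsD]
  have h2 : X ^ 2 * Y ^ 2 * √D ≤ X ^ 2 * Y ^ 2 * (√a + √b) :=
    mul_le_mul_of_nonneg_left h1 (by positivity)
  have h3 : X * √a = 1 := inv_mul_cancel₀ hsa.ne'
  have h4 : Y * √b = 1 := inv_mul_cancel₀ hsb.ne'
  have h5 : X ^ 2 * Y ^ 2 * (√a + √b) = X * Y ^ 2 + Y * X ^ 2 := by
    calc X ^ 2 * Y ^ 2 * (√a + √b) = X * Y ^ 2 * (X * √a) + Y * X ^ 2 * (Y * √b) := by ring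
      _ = _ := by rw [h3, h4, mul_one, mul_one]
  have h6 := young hX0.le hY0.le
  have h7 := young hY0.le hX0.le
  linarith

end Radial3Aux

open Radial3Aux

theorem conv_bound : ∃ C : ℝ, 0 < C ∧ ∀ (p z : ℂ) (δ : ℝ), 0 < δ → z ∈ ball p δ → z ≠ p →
    IntegrableOn (fun ζ => (‖ζ - p‖ * ‖z - ζ‖)⁻¹) (ball p δ) ∧
      ∫ ζ in ball p δ, (‖ζ - p‖ * ‖z - ζ‖)⁻¹ ≤ C * (√δ / √‖z - p‖) := by
  refine ⟨24 * π, by positivity, fun p z δ hδ hz hzp => ?_⟩
  have hD : 0 < ‖z - p‖ := norm_pos_iff.2 (sub_ne_zero.2 hzp)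
  have hsub : ball p δ ⊆ ball z (2 * δ) := by
    intro ζ hζ
    rw [mem_ball] at hζ hz ⊢
    have h1 := dist_triangle ζ p z
    rw [dist_comm p z] at h1
    linarith
  obtain ⟨i1, i2⟩ := int_inv32 p δ hδ.le
  obtain ⟨j1, j2⟩ := int_inv32 z (2 * δ) (by linarith)
  have j3 : IntegrableOn (fun y => (‖y - z‖ * √‖y - z‖)⁻¹) (ball p δ) := j2.mono_set hsub
  have j4 : ∫ y in ball p δ, (‖y - z‖ * √‖y - z‖)⁻¹ ≤ 4 * π * √(2 * δ) := by
    rw [← j1]
    exact setIntegral_mono_set j2 (Eventually.of_forall fun y => by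
      show (0:ℝ) ≤ _
      positivity) (Eventually.of_forall hsub)
  have hpt : ∀ ζ : ℂ, (‖ζ - p‖ * ‖z - ζ‖)⁻¹ ≤
      2 / √‖z - p‖ * ((‖ζ - p‖ * √‖ζ - p‖)⁻¹ + (‖ζ - z‖ * √‖ζ - z‖)⁻¹) := by
    intro ζ
    have h1 := inv_bound (norm_nonneg (ζ - p)) (norm_nonneg (z - ζ)) hD (by
      have := norm_add_le (z - ζ) (ζ - p)
      rw [sub_add_sub_cancel] at this
      linarith)
    rw [norm_sub_rev z ζ] at h1 ⊢
    exact h1
  have hint : IntegrableOn (fun ζ => 2 / √‖z - p‖ * ((‖ζ - p‖ * √‖ζ - p‖)⁻¹ +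
      (‖ζ - z‖ * √‖ζ - z‖)⁻¹)) (ball p δ) := (i2.add j3).const_mul _
  have hmeas : AEStronglyMeasurable (fun ζ : ℂ => (‖ζ - p‖ * ‖z - ζ‖)⁻¹)
      (volume.restrict (ball p δ)) := by
    apply Measurable.aestronglyMeasurable
    fun_prop
  have hI : IntegrableOn (fun ζ => (‖ζ - p‖ * ‖z - ζ‖)⁻¹) (ball p δ) := by
    refine Integrable.mono' hint hmeas (Eventually.of_forall fun ζ => ?_)
    rw [Real.norm_of_nonneg (by positivity)]
    exact hpt ζ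
  refine ⟨hI, ?_⟩
  have h1 : ∫ ζ in ball p δ, (‖ζ - p‖ * ‖z - ζ‖)⁻¹ ≤
      ∫ ζ in ball p δ, 2 / √‖z - p‖ * ((‖ζ - p‖ * √‖ζ - p‖)⁻¹ + (‖ζ - z‖ * √‖ζ - z‖)⁻¹) :=
    setIntegral_mono hI hint fun ζ => hpt ζ
  refine h1.trans ?_
  rw [integral_const_mul, integral_add i2 j3, i1]
  have h2 : √(2 * δ) ≤ 2 * √δ := by
    rw [Real.sqrt_mul (by norm_num)]
    have h3 : √(2:ℝ) ≤ 2 := by
      rw [Real.sqrt_le_left (by norm_num)]
      norm_num
    exact mul_le_mul_of_nonneg_right h3 (Real.sqrt_nonneg _)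
  have hpi := Real.pi_pos
  have h4 : 4 * π * √δ + ∫ y in ball p δ, (‖y - z‖ * √‖y - z‖)⁻¹ ≤ 12 * π * √δ := by
    have h5 : 4 * π * √(2 * δ) ≤ 4 * π * (2 * √δ) := mul_le_mul_of_nonneg_left h2 (by positivity)
    linarith
  calc 2 / √‖z - p‖ * (4 * π * √δ + ∫ y in ball p δ, (‖y - z‖ * √‖y - z‖)⁻¹)
      ≤ 2 / √‖z - p‖ * (12 * π * √δ) := mul_le_mul_of_nonneg_left h4 (by positivity)
    _ = 24 * π * (√δ / √‖z - p‖) := by ring

theorem f0_conv : ∃ C : ℝ, 0 < C ∧ ∀ (ε : ℝ) (p x : ℂ), 0 < ε → x ≠ p →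
    Integrable (fun y => f0 ε ‖y - p‖ / ‖x - y‖) ∧
      ∫ y, f0 ε ‖y - p‖ / ‖x - y‖ ≤ C / ‖x - p‖ := by
  refine ⟨24 * π, by positivity, fun ε p x hε hxp => ?_⟩
  have hpi := Real.pi_pos
  set D : ℝ := ‖x - p‖ with hDdef
  have hD : 0 < D := norm_pos_iff.2 (sub_ne_zero.2 hxp)
  set M : ℝ := 8 * ε ^ 2 / (ε ^ 2 + (D / 2) ^ 2) ^ 2 with hM
  have hM0 : 0 ≤ M := by positivity
  obtain ⟨a1, a2⟩ := integrable_f0 ε hε p
  obtain ⟨b1, b2⟩ := int_inv x (D / 2) (by linarith)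
  have hf0 : ∀ s : ℝ, 0 ≤ f0 ε s := fun s => by
    unfold f0
    positivity
  set g : ℂ → ℝ := (ball x (D / 2)).indicator (fun y => M * ‖y - x‖⁻¹) with hg
  have hgi : Integrable g := by
    rw [hg, integrable_indicator_iff measurableSet_ball]
    exact b2.const_mul M
  have hg1 : ∫ y, g y = M * (2 * π * (D / 2)) := by
    rw [hg, integral_indicator measurableSet_ball, integral_const_mul, b1]
  have hpt : ∀ y : ℂ, f0 ε ‖y - p‖ / ‖x - y‖ ≤ 2 / D * f0 ε ‖y - p‖ + g y := by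
    intro y
    by_cases hy : y ∈ ball x (D / 2)
    · have h1 : g y = M * ‖y - x‖⁻¹ := by rw [hg, Set.indicator_of_mem hy]
      have h2 : D / 2 ≤ ‖y - p‖ := by
        have h3 : ‖y - x‖ < D / 2 := by
          rw [← dist_eq_norm]
          exact mem_ball.1 hy
        have h4 := norm_add_le (x - y) (y - p)
        rw [sub_add_sub_cancel, norm_sub_rev x y] at h4
        linarith
      have h3 : f0 ε ‖y - p‖ ≤ M := by
        unfold f0
        rw [hM]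
        refine div_le_div_of_nonneg_left (by positivity) (by positivity) ?_
        refine pow_le_pow_left₀ (by positivity) ?_ 2
        have := pow_le_pow_left₀ (by linarith : (0:ℝ) ≤ D / 2) h2 2
        linarith
      have h4 : f0 ε ‖y - p‖ / ‖x - y‖ ≤ M * ‖y - x‖⁻¹ := by
        rw [norm_sub_rev x y, div_eq_mul_inv]
        exact mul_le_mul_of_nonneg_right h3 (inv_nonneg.2 (norm_nonneg _))
      have h5 : 0 ≤ 2 / D * f0 ε ‖y - p‖ := mul_nonneg (by positivity) (hf0 _)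
      rw [h1]
      linarith
    · have h1 : g y = 0 := by rw [hg, Set.indicator_of_notMem hy]
      have h2 : D / 2 ≤ ‖x - y‖ := by
        rw [mem_ball, not_lt, dist_comm, dist_eq_norm] at hy
        exact hy
      rw [h1, add_zero, div_eq_mul_inv, mul_comm]
      refine mul_le_mul_of_nonneg_right ?_ (hf0 _)
      have h3 : ‖x - y‖⁻¹ ≤ (D / 2)⁻¹ := inv_anti₀ (by linarith) h2
      rwa [inv_div] at h3
  have hint : Integrable (fun y => 2 / D * f0 ε ‖y - p‖ + g y) := (a1.const_mul _).add hgi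
  have hmeas : AEStronglyMeasurable (fun y : ℂ => f0 ε ‖y - p‖ / ‖x - y‖) volume := by
    apply Measurable.aestronglyMeasurable
    unfold f0
    fun_prop
  have hI : Integrable (fun y => f0 ε ‖y - p‖ / ‖x - y‖) := by
    refine Integrable.mono' hint hmeas (Eventually.of_forall fun y => ?_)
    rw [Real.norm_of_nonneg (div_nonneg (hf0 _) (norm_nonneg _))]
    exact hpt y
  refine ⟨hI, (integral_mono hI hint hpt).trans ?_⟩
  rw [integral_add (a1.const_mul _) hgi, integral_const_mul, a2, hg1]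
  have hMD : M * D ^ 2 ≤ 8 := by
    rw [hM, div_mul_eq_mul_div, div_le_iff₀ (by positivity)]
    nlinarith [sq_nonneg (ε ^ 2 - (D / 2) ^ 2), sq_nonneg ε, sq_nonneg D]
  rw [le_div_iff₀ hD]
  have e : (2 / D * (8 * π) + M * (2 * π * (D / 2))) * D = 16 * π + π * (M * D ^ 2) := by
    field_simp
    ring
  rw [e]
  nlinarith

end AO

end
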