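import Pool.Agent.Lib.AO.SysB2
import Pool.Agent.Lib.AO.Radial
import Pool.Agent.Lib.AO.CellBall

/-
STUB CrudeM (library AO, MP_7bfba2_an). Replace the sorries, keep the statements.
(4.2).  mass_low: on ball p r, ff >= f0 (1 - k s√s) with s = ‖z-p‖, so ∫ ff >= ∫ f0 - k ∫ f0 s√s >= 8π r²/(ε²+r²) - k C ε√ε (int_f0, int_f0_32), and 8π - 8π r²/(ε²+r²) = 8π ε²/(ε²+r²) <= 8π ε²/r².
mass_small: apply it with r = s1/2, k = (1/10)/(s1 √s1), s1 = c7 √(δε): m1 <= 32π ε²/s1² + (C/10)(ε/s1)√(ε/s1) <= C' (ε/s1) (as ε <= s1), and ε/s1 = √(ε/δ)/c7, where ε/δ <= √e √ε when ε <= e δ² (ε/δ = √ε (√ε/δ)).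
 So m1 <= (C'/c7) e^(1/4) ε^(1/4) <= 1 and m1 log(1/ε) <= 1 if e is small (ε^(1/4) log(1/ε) is bounded on (0,1]).
m1 >= 0 (Sys.int_ff, int_ball_le) is mass_nonneg.
-/

set_option autoImplicit false

open Complex MeasureTheory Set Metric Filter
open scoped Real ContDiff Topology

noncomputable section

namespace AO

theorem mass_nonneg (c ℓ : ℝ) (N : ℕ) (A B : ℂ → ℝ) (p : ℂ) (r : ℝ) (h : Sys c ℓ N A B) (hr : r ≤ ℓ / 2) :
    ∫ z in ball p r, ff N ℓ A B z ≤ 8 * π := by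
  rw [← h.int_ff]
  exact int_ball_le h.l0 _ h.per_ff (integrableOn_Q_of_continuous h.l0 _ h.contDiff_ff.continuous)
    (ff_nonneg N ℓ A B) p r hr

namespace CrudeMAux

theorem f0_pos {ε : ℝ} (hε : 0 < ε) (s : ℝ) : 0 < f0 ε s := by
  unfold f0
  have : 0 < ε ^ 2 + s ^ 2 := by positivity
  positivity

theorem cont_f0 {ε : ℝ} (hε : 0 < ε) (p : ℂ) : Continuous fun z : ℂ => f0 ε ‖z - p‖ :=
  (f0_continuous ε hε).comp (by fun_prop)

theorem intOn {g : ℂ → ℝ} (hg : Continuous g) (p : ℂ) (r : ℝ) : IntegrableOn g (ball p r) :=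
  (hg.continuousOn.integrableOn_compact (isCompact_closedBall p r)).mono_set ball_subset_closedBall

end CrudeMAux

open CrudeMAux

theorem mass_low : ∃ C : ℝ, 1 ≤ C ∧ ∀ (c ℓ : ℝ) (N : ℕ) (A B : ℂ → ℝ) (p : ℂ) (ε r k : ℝ), Sys c ℓ N A B →
    0 < ε → 0 < r → 0 ≤ k →
    (∀ z ∈ ball p r, |ff N ℓ A B z / f0 ε ‖z - p‖ - 1| ≤ k * (‖z - p‖ * √‖z - p‖)) →
    8 * π - ∫ z in ball p r, ff N ℓ A B z ≤ C * (ε ^ 2 / r ^ 2 + k * (ε * √ε)) := by
  obtain ⟨C, hC, h32⟩ := int_f0_32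
  have hπ := Real.pi_gt_three
  refine ⟨max (8 * π) C, le_trans (by linarith) (le_max_left _ _), ?_⟩
  intro c ℓ N A B p ε r k hS hε hr hk hz
  have c1 : Continuous fun z : ℂ => f0 ε ‖z - p‖ := cont_f0 hε p
  have c2 : Continuous fun z : ℂ => f0 ε ‖z - p‖ * (‖z - p‖ * √‖z - p‖) := by
    refine c1.mul ?_
    fun_prop
  have i1 := intOn c1 p r
  have i2 := intOn c2 p r
  have i3 := intOn hS.contDiff_ff.continuous p r
  have h1 : ∫ z in ball p r, (f0 ε ‖z - p‖ - k * (f0 ε ‖z - p‖ * (‖z - p‖ * √‖z - p‖))) ≤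
      ∫ z in ball p r, ff N ℓ A B z := by
    refine setIntegral_mono_on (i1.sub (i2.const_mul k)) i3 measurableSet_ball fun z hzb => ?_
    have hf := f0_pos hε ‖z - p‖
    have h2 := (abs_le.1 (hz z hzb)).1
    have h3 : 1 - k * (‖z - p‖ * √‖z - p‖) ≤ ff N ℓ A B z / f0 ε ‖z - p‖ := by linarith
    rw [le_div_iff₀ hf] at h3
    linarith
  rw [integral_sub i1 (i2.const_mul k), integral_const_mul, int_f0 ε hε p r hr.le] at h1
  have h4 := h32 ε r p hε hr.le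
  have h5 : 8 * π - 8 * π * r ^ 2 / (ε ^ 2 + r ^ 2) ≤ 8 * π * (ε ^ 2 / r ^ 2) := by
    have e : 8 * π - 8 * π * r ^ 2 / (ε ^ 2 + r ^ 2) = 8 * π * (ε ^ 2 / (ε ^ 2 + r ^ 2)) := by
      have : ε ^ 2 + r ^ 2 ≠ 0 := by positivity
      field_simp
      ring
    rw [e]
    refine mul_le_mul_of_nonneg_left ?_ (by positivity)
    exact div_le_div_of_nonneg_left (by positivity) (by positivity) (by nlinarith [sq_nonneg ε])
  have h6 : k * ∫ y in ball p r, f0 ε ‖y - p‖ * (‖y - p‖ * √‖y - p‖) ≤ k * (C * (ε * √ε)) :=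
    mul_le_mul_of_nonneg_left h4 hk
  have h7 : 8 * π * (ε ^ 2 / r ^ 2) ≤ max (8 * π) C * (ε ^ 2 / r ^ 2) :=
    mul_le_mul_of_nonneg_right (le_max_left _ _) (by positivity)
  have h8 : C * (k * (ε * √ε)) ≤ max (8 * π) C * (k * (ε * √ε)) :=
    mul_le_mul_of_nonneg_right (le_max_right _ _) (by positivity)
  have h9 : k * (C * (ε * √ε)) = C * (k * (ε * √ε)) := by ring
  rw [mul_add]
  linarith

theorem mass_small (c7 : ℝ) (h7 : 0 < c7) (h7' : c7 ≤ 1) : ∃ e : ℝ, 0 < e ∧ e ≤ 1 ∧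
    ∀ (c ℓ : ℝ) (N : ℕ) (A B : ℂ → ℝ) (p : ℂ) (ε δ : ℝ), Sys c ℓ N A B → 0 < ε → 0 < δ → δ ≤ 1 →
    ε ≤ c7 * √(δ * ε) → ε ≤ e * δ ^ 2 →
    (∀ z, ‖z - p‖ ≤ c7 * √(δ * ε) → |ff N ℓ A B z / f0 ε ‖z - p‖ - 1| ≤
      (1 / 10) * ((‖z - p‖ * √‖z - p‖) / ((c7 * √(δ * ε)) * √(c7 * √(δ * ε))))) →
    8 * π - ∫ z in ball p (c7 * √(δ * ε) / 2), ff N ℓ A B z ≤ 1 ∧
    (8 * π - ∫ z in ball p (c7 * √(δ * ε) / 2), ff N ℓ A B z) * Real.log (1 / ε) ≤ 1 := by
  obtain ⟨C, hC, hm⟩ := mass_low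
  obtain ⟨q, hq⟩ : ∃ q : ℝ, q = c7 / (20 * C) := ⟨_, rfl⟩
  have hC0 : 0 < C := by linarith
  have q0 : 0 < q := by rw [hq]; positivity
  have q1 : q ≤ 1 := by
    rw [hq, div_le_one (by positivity)]
    linarith
  have hq' : 20 * C * q = c7 := by rw [hq]; field_simp
  refine ⟨q ^ 4, by positivity, pow_le_one₀ q0.le q1, ?_⟩
  intro c ℓ N A B p ε δ hS hε hδ hδ1 hle hle2 hz
  obtain ⟨s1, hs1⟩ : ∃ s1 : ℝ, s1 = c7 * √(δ * ε) := ⟨_, rfl⟩
  rw [← hs1] at hle hz ⊢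
  have s1pos : 0 < s1 := by rw [hs1]; positivity
  -- the fourth root of ε
  obtain ⟨x, hx⟩ : ∃ x : ℝ, x = √(√ε) := ⟨_, rfl⟩
  have x0 : 0 < x := by rw [hx]; positivity
  have hx2 : x ^ 2 = √ε := by rw [hx, Real.sq_sqrt (Real.sqrt_nonneg _)]
  have hx4 : x ^ 4 = ε := by
    have : x ^ 4 = (x ^ 2) ^ 2 := by ring
    rw [this, hx2, Real.sq_sqrt hε.le]
  obtain ⟨d, hd⟩ : ∃ d : ℝ, d = √δ := ⟨_, rfl⟩
  have d0 : 0 < d := by rw [hd]; positivity
  have hd2 : d ^ 2 = δ := by rw [hd, Real.sq_sqrt hδ.le]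
  have d1 : d ≤ 1 := by rw [hd]; exact Real.sqrt_le_one.2 hδ1
  have hxq : x ≤ q * d := by
    have h1 : x ^ 4 ≤ (q * d) ^ 4 := by
      rw [hx4, mul_pow]
      have : d ^ 4 = δ ^ 2 := by rw [← hd2]; ring
      rw [this]
      exact hle2
    exact le_of_pow_le_pow_left₀ (by norm_num) (by positivity) h1
  have x1 : x ≤ 1 := hxq.trans (by nlinarith)
  have hs1' : s1 = c7 * (d * x ^ 2) := by
    rw [hs1, Real.sqrt_mul hδ.le, ← hd, hx2]
  have ht : ε / s1 ≤ x * q / c7 := by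
    rw [div_le_div_iff₀ s1pos h7, hs1', ← hx4]
    have : x ^ 4 * c7 = (c7 * x ^ 3) * x := by ring
    rw [this]
    calc c7 * x ^ 3 * x ≤ c7 * x ^ 3 * (q * d) := mul_le_mul_of_nonneg_left hxq (by positivity)
      _ = _ := by ring
  have ht1 : ε / s1 ≤ 1 := (div_le_one s1pos).2 hle
  have ht0 : 0 < ε / s1 := by positivity
  have key := hm c ℓ N A B p ε (s1 / 2) ((1 / 10) / (s1 * √s1)) hS hε (by positivity)
    (by positivity) (fun z hzb => by
      rw [mem_ball, dist_eq_norm] at hzb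
      refine (hz z (by linarith)).trans (le_of_eq ?_)
      ring)
  have e1 : ε ^ 2 / (s1 / 2) ^ 2 = 4 * (ε / s1) ^ 2 := by
    field_simp
    ring
  have e2 : 1 / 10 / (s1 * √s1) * (ε * √ε) ≤ (1 / 10) * (ε / s1) := by
    have h1 : √ε ≤ √s1 := Real.sqrt_le_sqrt hle
    have h2 : 0 < √s1 := by positivity
    have h3 : 1 / 10 / (s1 * √s1) * (ε * √ε) = (1 / 10) * (ε / s1) * (√ε / √s1) := by
      field_simp
    rw [h3]
    exact mul_le_of_le_one_right (by positivity) ((div_le_one h2).2 h1)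
  have e3 : (ε / s1) ^ 2 ≤ ε / s1 := by
    rw [sq]
    exact mul_le_of_le_one_right ht0.le ht1
  have hm1 : 8 * π - ∫ z in ball p (s1 / 2), ff N ℓ A B z ≤ x / 4 := by
    refine key.trans ?_
    rw [e1]
    calc C * (4 * (ε / s1) ^ 2 + 1 / 10 / (s1 * √s1) * (ε * √ε)) ≤ C * (5 * (ε / s1)) := by
          refine mul_le_mul_of_nonneg_left ?_ hC0.le
          linarith
      _ ≤ C * (5 * (x * q / c7)) := by
          refine mul_le_mul_of_nonneg_left ?_ hC0.le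
          linarith
      _ = x / 4 := by
          rw [← hq']
          field_simp
          ring
  constructor
  · linarith
  · have hlog0 : 0 ≤ Real.log (1 / ε) := by
      apply Real.log_nonneg
      rw [le_div_iff₀ hε, one_mul, ← hx4]
      exact pow_le_one₀ x0.le x1
    have hlog : Real.log (1 / ε) ≤ 4 / x := by
      have h1 : Real.log (1 / ε) = 4 * Real.log (1 / x) := by
        rw [← hx4, Real.log_div one_ne_zero (by positivity), Real.log_div one_ne_zero x0.ne',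
          Real.log_pow]
        simp
      rw [h1]
      have h2 := Real.log_le_sub_one_of_pos (x := 1 / x) (by positivity)
      have h3 : 4 / x = 4 * (1 / x) := by ring
      rw [h3]
      linarith
    calc (8 * π - ∫ z in ball p (s1 / 2), ff N ℓ A B z) * Real.log (1 / ε) ≤
        (x / 4) * Real.log (1 / ε) := mul_le_mul_of_nonneg_right hm1 hlog0
      _ ≤ (x / 4) * (4 / x) := mul_le_mul_of_nonneg_left hlog (by positivity)
      _ = 1 := by field_simp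

end AO

end
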