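import Pool.Agent.Lib.AO.CellInt
import Pool.Agent.Lib.AO.Radial

/-
STUB KInt2 / KInt (library AO, MP_7bfba2_an). Replace the sorries, keep the statements.
Integrals of singular periodic kernels against a bounded periodic density.  By int_Q_conv,
∫ y in Q ℓ, k (x - y) * f y = ∫ y in Q ℓ, k y * f (x - y), and on Q ℓ dl ℓ y = ‖y‖ (dl_eq_of_mem).  So for a decreasing kernel k(‖y‖) and
0 <= f <= M, ∫ f <= m: split at ‖y‖ < ρ (kernel integral over ball 0 ρ times M, int_inv, int_inv32, int_log) and ‖y‖ >= ρ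
(kernel <= k(ρ), times ∫ f (x - y) <= m, int_Q_sub).  For kint_log: log(1 + D/t) <= log(1 + D/ρ) + log⁺(ρ/t) (for t <= ρ: 1 + D/t = (t+D)/t <= (ρ+D)/t =
(1+D/ρ)(ρ/t)).  Integrability: f is bounded and measurable, the kernels are integrable over Q (bounded away from 0, Radial near 0).
ball_inv: for x in ball z δ, δ <= 1, ℓ >= 10: choose k in Lat with dl ℓ (z - y) = ‖z - y - k‖; either that is <= 3, then dl ℓ (x-y) = ‖x - y - k‖ (norm
<= 4 <= ℓ/2) and ∫ over ball z δ of ‖x - y - k‖⁻¹ <= 2πδ·(at most the integral over the ball of radius δ centred at the singularity) ; or dl ℓ (x-y) >= 2.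
For the first: split ball z δ into the part with ‖x - y - k‖ < δ (integral <= 2πδ) and the rest (integrand <= 1/δ, area <= πδ²).
-/

set_option autoImplicit false

open Complex MeasureTheory Set Metric Filter
open scoped Real ContDiff Topology

noncomputable section

namespace AO

variable {ℓ : ℝ}

namespace KInt2Aux

theorem pt_bound (ℓ : ℝ) (z y : ℂ) (δ : ℝ) (hl : 10 ≤ ℓ) (h0 : 0 < δ) (h1 : δ ≤ 1) :
    ∃ c : ℂ, ∀ x ∈ ball z δ, (dl ℓ (x - y))⁻¹ ≤
      (ball c δ).indicator (fun x => ‖x - c‖⁻¹) x + δ⁻¹ := by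
  have hl0 : 0 < ℓ := by linarith
  obtain ⟨k, hk, hd⟩ := exists_near hl0 (z - y)
  refine ⟨y + k, fun x hx => ?_⟩
  have hxz : ‖x - z‖ < δ := by simpa [dist_eq_norm] using hx
  have hdi : 1 ≤ δ⁻¹ := (one_le_inv₀ h0).2 h1
  have hind : 0 ≤ (ball (y + k) δ).indicator (fun x => ‖x - (y + k)‖⁻¹) x :=
    Set.indicator_nonneg (fun _ _ => by positivity) x
  by_cases h3 : ‖z - y - k‖ ≤ 3
  · have e1 : dl ℓ (x - y) = dl ℓ (x - (y + k)) := by
      have := dl_add_lat (ℓ := ℓ) (x - y) (-k) (lat_neg hk)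
      rw [← this]
      congr 1
      ring
    have hn : ‖x - (y + k)‖ ≤ 4 := by
      have : x - (y + k) = (x - z) + (z - y - k) := by ring
      rw [this]
      refine (norm_add_le _ _).trans ?_
      linarith
    have e2 : dl ℓ (x - (y + k)) = ‖x - (y + k)‖ := dl_eq_norm' hl0 _ (by linarith)
    rw [e1, e2]
    by_cases hb : x ∈ ball (y + k) δ
    · rw [Set.indicator_of_mem hb]
      linarith
    · rw [Set.indicator_of_notMem hb]
      have hb' : δ ≤ ‖x - (y + k)‖ := by
        simpa [dist_eq_norm] using hb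
      have := inv_anti₀ h0 hb'
      linarith
  · push Not at h3
    have h4 : dl ℓ (z - y) ≤ dl ℓ (x - y) + ‖(z - y) - (x - y)‖ := dl_lip _ _
    have h5 : ‖(z - y) - (x - y)‖ = ‖x - z‖ := by
      rw [show (z - y) - (x - y) = -(x - z) by ring, norm_neg]
    have h6 : 1 ≤ dl ℓ (x - y) := by
      rw [h5, hd] at h4
      linarith
    have := inv_le_one_of_one_le₀ h6
    linarith

end KInt2Aux

theorem ball_inv : ∃ C : ℝ, 0 < C ∧ ∀ (ℓ : ℝ) (z y : ℂ) (δ : ℝ), 10 ≤ ℓ → 0 < δ → δ ≤ 1 →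
    IntegrableOn (fun x => (dl ℓ (x - y))⁻¹) (ball z δ) ∧ ∫ x in ball z δ, (dl ℓ (x - y))⁻¹ ≤ C * δ := by
  refine ⟨3 * π, by positivity, fun ℓ z y δ hl h0 h1 => ?_⟩
  obtain ⟨c, hc⟩ := KInt2Aux.pt_bound ℓ z y δ hl h0 h1
  obtain ⟨hI, hint⟩ := int_inv c δ h0.le
  have hgi : Integrable ((ball c δ).indicator (fun x => ‖x - c‖⁻¹)) :=
    (integrable_indicator_iff measurableSet_ball).2 hint
  have hfin : volume (ball z δ) ≠ ⊤ := measure_ball_lt_top.ne
  have hci : IntegrableOn (fun _ : ℂ => δ⁻¹) (ball z δ) :=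
    integrableOn_const hfin
  have hsum : IntegrableOn (fun x => (ball c δ).indicator (fun x => ‖x - c‖⁻¹) x + δ⁻¹) (ball z δ) :=
    hgi.integrableOn.add hci
  have hm : AEStronglyMeasurable (fun x => (dl ℓ (x - y))⁻¹) (volume.restrict (ball z δ)) := by
    have : Measurable (fun x => (dl ℓ (x - y))⁻¹) :=
      ((continuous_dl (ℓ := ℓ)).comp (continuous_id.sub continuous_const)).measurable.inv
    exact this.aestronglyMeasurable
  have hle : ∀ᵐ x ∂(volume.restrict (ball z δ)), (dl ℓ (x - y))⁻¹ ≤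
      (ball c δ).indicator (fun x => ‖x - c‖⁻¹) x + δ⁻¹ :=
    (ae_restrict_iff' measurableSet_ball).2 (Eventually.of_forall hc)
  have hi : IntegrableOn (fun x => (dl ℓ (x - y))⁻¹) (ball z δ) := by
    refine Integrable.mono' hsum hm ?_
    filter_upwards [hle] with x hx
    rw [Real.norm_of_nonneg (inv_nonneg.2 (dl_nonneg _))]
    exact hx
  refine ⟨hi, (integral_mono_ae hi hsum hle).trans ?_⟩
  rw [integral_add hgi.integrableOn hci]
  have h2 : ∫ x in ball z δ, (ball c δ).indicator (fun x => ‖x - c‖⁻¹) x ≤ 2 * π * δ := by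
    rw [← hI, ← integral_indicator (s := ball c δ) measurableSet_ball]
    refine setIntegral_le_integral hgi (Eventually.of_forall fun x => ?_)
    exact Set.indicator_nonneg (fun _ _ => by positivity) x
  have h3 : ∫ _x in ball z δ, δ⁻¹ = π * δ := by
    rw [setIntegral_const, smul_eq_mul, measureReal_def, Complex.volume_ball]
    rw [ENNReal.toReal_mul, ENNReal.toReal_pow, ENNReal.toReal_ofReal h0.le]
    have : ((NNReal.pi : ENNReal)).toReal = π := by simp
    rw [this]
    field_simp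
  rw [h3]
  linarith

end AO

end
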