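import Pool.Agent.Lib.AO.GBd
import Pool.Agent.Lib.AO.CellInt
import Pool.Agent.Lib.AO.Radial

/-
STUB RepB (library AO, MP_7bfba2_an). Replace the sorry, keep the statement.
Representation by the Green function at 0 on the unit torus:  A 0 - ∫_Q A = ∫_{Q 1} G y * (-lap A y) dy.
Regularise: H y := F(y + VV 1)², smooth, periodic, >= 0, zero exactly on Lat 1 (contDiff_F2, F_zero_iff); G = -(1/4π) log H; G_ρ := -(1/4π) log(H + ρ²) is smooth and periodic (ρ > 0).
Off Lat 1: lap (log H) = -4π (lap_logF), i.e. lap H = -4π H + ‖fderiv H‖²/H (lap_exp with u = log H), and so, with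
 lap(log K) = lap K/K - ‖fderiv K‖²/K², K = H + ρ²:  lap G_ρ = H/(H+ρ²) - k_ρ,  k_ρ := ρ²‖fderiv H‖²/(4π H (H+ρ²)²) >= 0.
int_Q_green: ∫ A lap G_ρ = ∫ G_ρ lap A.
 (1) With A = 1 (int_Q_lap): ∫ k_ρ = ∫ H/(H+ρ²) -> 1 as ρ -> 0 (dominated convergence, H > 0 a.e.).
 (2) for every r > 0, k_ρ <= C_r ρ² on {y in Q 1 : ‖y‖ >= r} (continuous positive H on a compact set), so ∫ over this set -> 0.
 So ∫ A k_ρ -> A 0 (A continuous at 0).  ∫ A H/(H+ρ²) -> ∫ A and ∫ G_ρ lap A -> ∫ G lap A by dominated convergence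
 (|log(H+ρ²)| <= |log H| + log(sup H + 1) for ρ <= 1, and |G y| <= C + |log‖y‖| is integrable on Q 1 by g_log, int_log).
 The limit is ∫ A - A 0 = ∫ G lap A.
-/

set_option autoImplicit false

open Complex MeasureTheory Set Metric Filter
open scoped Real ContDiff Topology

noncomputable section

namespace AO

namespace RepBAux

/-- squared modulus of the theta function centred at its zero -/
def Hf (y : ℂ) : ℝ := F (y + VV 1) ^ 2

theorem Hf_smooth : ContDiff ℝ ∞ Hf := by
  have h := contDiff_F2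
  exact h.comp (contDiff_id.add contDiff_const)

theorem Hf_per : Per 1 Hf := by
  constructor
  · intro z
    have := F_per.1 (z + VV 1)
    simp only [Hf]
    rw [show z + ((1 : ℝ) : ℂ) + VV 1 = z + VV 1 + ((1 : ℝ) : ℂ) by ring, this]
  · intro z
    have := F_per.2 (z + VV 1)
    simp only [Hf]
    rw [show z + ((1 : ℝ) : ℂ) * I + VV 1 = z + VV 1 + ((1 : ℝ) : ℂ) * I by ring, this]

theorem Hf_nonneg (y : ℂ) : 0 ≤ Hf y := sq_nonneg _

theorem Hf_pos {y : ℂ} (hy : y ∉ Lat 1) : 0 < Hf y := by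
  have h : y + VV 1 ∉ VL 1 := by
    intro h
    apply hy
    have h2 : y + VV 1 - VV 1 ∈ Lat 1 := h
    rwa [add_sub_cancel_right] at h2
  exact pow_pos ((F_pos_iff _).2 h) 2

theorem G_eq (y : ℂ) : G y = -(1 / (4 * π)) * Real.log (Hf y) := by
  simp only [G, Hf, Real.log_pow]
  push_cast
  have := Real.pi_ne_zero
  field_simp
  ring

theorem nat_le_inf (n : ℕ) : ((n : ℕ) : WithTop ℕ∞) ≤ ∞ := by
  exact_mod_cast (le_top : (n : ℕ∞) ≤ ⊤)

theorem two_le_inf : (2 : WithTop ℕ∞) ≤ ∞ := nat_le_inf 2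

theorem lap_logH {y : ℂ} (hy : y ∉ Lat 1) : lap (fun w => Real.log (Hf w)) y = -(4 * π) := by
  have hpi := Real.pi_ne_zero
  have h1 : (fun w => Real.log (Hf w)) = fun w => -(4 * π) * G w := by
    funext w
    rw [G_eq]
    field_simp
  rw [h1, lap_const_mul _ _ _ ((contDiffAt_G y hy).of_le two_le_inf), lap_G y hy, mul_one]

theorem fderiv_logK {s : ℝ} {y : ℂ} (h : 0 < Hf y + s) :
    fderiv ℝ (fun w => Real.log (Hf w + s)) y = (Hf y + s)⁻¹ • fderiv ℝ Hf y := by
  have h1 : HasFDerivAt (fun w => Hf w + s) (fderiv ℝ Hf y) y :=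
    ((Hf_smooth.differentiable (by simp)) y).hasFDerivAt.add_const s
  exact (h1.log h.ne').fderiv

theorem contDiffAt_logK {s : ℝ} {y : ℂ} (h : 0 < Hf y + s) :
    ContDiffAt ℝ ∞ (fun w => Real.log (Hf w + s)) y :=
  (Hf_smooth.contDiffAt.add contDiffAt_const).log h.ne'

theorem lap_logK {s : ℝ} {y : ℂ} (h : 0 < Hf y + s) :
    lap Hf y = (Hf y + s) * (lap (fun w => Real.log (Hf w + s)) y
      + ((Hf y + s)⁻¹ * ‖fderiv ℝ Hf y‖) ^ 2) := by
  have h1 := lap_exp (fun w => Real.log (Hf w + s)) y ((contDiffAt_logK h).of_le two_le_inf)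
  have h2 : (fun w => Real.exp (Real.log (Hf w + s))) =ᶠ[𝓝 y] (fun w => Hf w + s) := by
    have hc : ContinuousAt (fun w => Hf w + s) y :=
      (Hf_smooth.continuous.add continuous_const).continuousAt
    filter_upwards [hc.eventually (lt_mem_nhds h)] with w hw
    exact Real.exp_log hw
  have h3 : lap (fun w => Hf w + s) y = lap Hf y := by
    rw [lap_add _ _ _ (Hf_smooth.contDiffAt.of_le two_le_inf) contDiffAt_const]
    have : lap (fun _ : ℂ => s) y = 0 := by
      have hdx : dx (fun _ : ℂ => s) = fun _ => 0 := by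
        funext w
        simp [dx]
      have hdy : dy (fun _ : ℂ => s) = fun _ => 0 := by
        funext w
        simp [dy]
      simp [lap, hdx, hdy, dx, dy]
    rw [this, add_zero]
  rw [lap_congr _ _ _ h2, h3, Real.exp_log h, fderiv_logK h, norm_smul, norm_inv,
    Real.norm_of_nonneg h.le] at h1
  exact h1

/-- the concentrating kernel -/
def ker (s : ℝ) (y : ℂ) : ℝ :=
  s * ‖fderiv ℝ Hf y‖ ^ 2 / (4 * π * Hf y * (Hf y + s) ^ 2)

/-- the regularised Green function -/
def Gs (s : ℝ) (y : ℂ) : ℝ := -(1 / (4 * π)) * Real.log (Hf y + s)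

theorem ker_nonneg {s : ℝ} (hs : 0 < s) (y : ℂ) : 0 ≤ ker s y := by
  have h1 := Hf_nonneg y
  have h2 := Real.pi_pos
  unfold ker
  positivity

theorem Kpos {s : ℝ} (hs : 0 < s) (y : ℂ) : 0 < Hf y + s := by
  have := Hf_nonneg y
  linarith

theorem Gs_smooth {s : ℝ} (hs : 0 < s) : ContDiff ℝ ∞ (Gs s) := by
  rw [contDiff_iff_contDiffAt]
  intro y
  exact contDiffAt_const.mul (contDiffAt_logK (Kpos hs y))

theorem Gs_per (s : ℝ) : Per 1 (Gs s) := by
  constructor
  · intro z
    simp only [Gs, Hf_per.1 z]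
  · intro z
    simp only [Gs, Hf_per.2 z]

theorem lap_Gs {s : ℝ} (hs : 0 < s) {y : ℂ} (hy : y ∉ Lat 1) :
    lap (Gs s) y = Hf y / (Hf y + s) - ker s y := by
  have hp := Hf_pos hy
  have hk := Kpos hs y
  have hpi := Real.pi_pos
  have e1 := lap_logK (s := s) hk
  have e0 := lap_logK (s := 0) (y := y) (by simpa using hp)
  simp only [add_zero] at e0
  rw [lap_logH hy] at e0
  have e2 : lap (Gs s) y = -(1 / (4 * π)) * lap (fun w => Real.log (Hf w + s)) y :=
    lap_const_mul _ _ _ ((contDiffAt_logK hk).of_le two_le_inf)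
  have e3 : lap (fun w => Real.log (Hf w + s)) y
      = lap Hf y / (Hf y + s) - ((Hf y + s)⁻¹ * ‖fderiv ℝ Hf y‖) ^ 2 := by
    rw [e1]
    field_simp
    ring
  rw [e2, e3, e0, ker]
  have h1 := hp.ne'
  have h2 := hk.ne'
  have h3 := hpi.ne'
  field_simp
  ring

theorem lat_countable : (Lat 1).Countable := by
  have h : Lat 1 ⊆ range (fun p : ℤ × ℤ => ((1 : ℝ) : ℂ) * ((p.1 : ℂ) + (p.2 : ℂ) * I)) := by
    rintro z ⟨m, n, rfl⟩
    exact ⟨(m, n), rfl⟩
  exact (countable_range _).mono h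

theorem ae_not_lat : ∀ᵐ y ∂(volume.restrict (Q 1)), y ∉ Lat 1 := by
  have h : volume (Lat 1) = 0 := lat_countable.measure_zero _
  exact ae_restrict_of_ae (measure_eq_zero_iff_ae_notMem.mp h)

/-- the regularisation parameters -/
def sn (n : ℕ) : ℝ := 1 / ((n : ℝ) + 1)

theorem sn_pos (n : ℕ) : 0 < sn n := by
  unfold sn
  positivity

theorem sn_le (n : ℕ) : sn n ≤ 1 := by
  unfold sn
  rw [div_le_one (by positivity)]
  have : (0 : ℝ) ≤ n := Nat.cast_nonneg n
  linarith

theorem sn_lim : Tendsto sn atTop (𝓝 0) := tendsto_one_div_add_atTop_nhds_zero_nat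

theorem lim_ratio (A : ℂ → ℝ) (hA : Continuous A) :
    Tendsto (fun n => ∫ y in Q 1, A y * (Hf y / (Hf y + sn n))) atTop (𝓝 (∫ y in Q 1, A y)) := by
  refine tendsto_integral_of_dominated_convergence (fun y => |A y|) ?_ ?_ ?_ ?_
  · intro n
    have h : Continuous (fun y => A y * (Hf y / (Hf y + sn n))) :=
      hA.mul (Hf_smooth.continuous.div (Hf_smooth.continuous.add continuous_const)
        (fun y => (Kpos (sn_pos n) y).ne'))
    exact h.aestronglyMeasurable
  · exact (integrableOn_Q_of_continuous one_pos A hA).abs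
  · intro n
    refine Eventually.of_forall (fun y => ?_)
    have h1 := Hf_nonneg y
    have h2 := Kpos (sn_pos n) y
    have h3 : 0 ≤ Hf y / (Hf y + sn n) := div_nonneg h1 h2.le
    have h4 : Hf y / (Hf y + sn n) ≤ 1 := by
      rw [div_le_one h2]
      have := sn_pos n
      linarith
    rw [Real.norm_eq_abs, abs_mul, abs_of_nonneg h3]
    exact mul_le_of_le_one_right (abs_nonneg _) h4
  · filter_upwards [ae_not_lat] with y hy
    have hp := Hf_pos hy
    have h1 : Tendsto (fun n => Hf y + sn n) atTop (𝓝 (Hf y)) := by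
      have := (tendsto_const_nhds (x := Hf y)).add sn_lim
      rwa [add_zero] at this
    have h2 : Tendsto (fun n => Hf y / (Hf y + sn n)) atTop (𝓝 (Hf y / Hf y)) :=
      tendsto_const_nhds.div h1 hp.ne'
    rw [div_self hp.ne'] at h2
    have h3 := (tendsto_const_nhds (x := A y)).mul h2
    rwa [mul_one] at h3

theorem cont_lap (A : ℂ → ℝ) (sA : ContDiff ℝ ∞ A) : Continuous (lap A) := by
  rw [continuous_iff_continuousAt]
  intro y
  have h1 := contDiffAt_dx A y 1 (sA.contDiffAt.of_le (nat_le_inf (1 + 1)))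
  have h2 := contDiffAt_dx (dx A) y 0 (by
    have := (contDiffAt_dx A y 1 (sA.contDiffAt.of_le (nat_le_inf (1 + 1)))).1
    exact this)
  have h3 := contDiffAt_dx (dy A) y 0 (by
    have := (contDiffAt_dx A y 1 (sA.contDiffAt.of_le (nat_le_inf (1 + 1)))).2
    exact this)
  exact h2.1.continuousAt.add h3.2.continuousAt

theorem G_meas : Measurable G := by
  unfold G
  exact measurable_const.mul (Real.measurable_log.comp
    (F_continuous.measurable.comp (measurable_id.add_const _)))

theorem mem_ball_of_Q {y : ℂ} (hy : y ∈ Q 1) : y ∈ ball (0 : ℂ) 1 := by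
  rw [mem_ball_zero_iff]
  have h := dl_le (ℓ := 1) one_pos y
  rw [dl_eq_of_mem one_pos y hy] at h
  linarith

theorem G_int : IntegrableOn G (Q 1) := by
  obtain ⟨C, hC, hg⟩ := g_log
  have hb : IntegrableOn (fun y : ℂ => Real.log (1 / ‖y - 0‖)) (ball (0 : ℂ) 1) :=
    (int_log 0 1 zero_le_one).2
  have hb2 : IntegrableOn (fun y : ℂ => Real.log (1 / ‖y - 0‖)) (Q 1) :=
    hb.mono_set (fun y hy => mem_ball_of_Q hy)
  have hc : IntegrableOn (fun _ : ℂ => C) (Q 1) :=
    integrableOn_Q_of_continuous one_pos _ continuous_const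
  have hsum : IntegrableOn (fun y : ℂ => C + (1 / (2 * π)) * |Real.log (1 / ‖y - 0‖)|) (Q 1) :=
    hc.add (hb2.abs.const_mul _)
  refine Integrable.mono' hsum G_meas.aestronglyMeasurable ?_
  filter_upwards [ae_not_lat, ae_restrict_mem measurableSet_Q] with y hy hyQ
  have h1 := hg 1 y one_pos hy
  have h2 : Gl 1 y = G y := by simp [Gl]
  rw [h2, dl_eq_of_mem one_pos y hyQ, div_one] at h1
  rw [sub_zero, one_div ‖y‖, Real.log_inv, abs_neg, Real.norm_eq_abs]
  have h3 : |G y| ≤ |G y + 1 / (2 * π) * Real.log ‖y‖| + |1 / (2 * π) * Real.log ‖y‖| := by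
    have := abs_sub (G y + 1 / (2 * π) * Real.log ‖y‖) (1 / (2 * π) * Real.log ‖y‖)
    rwa [add_sub_cancel_right] at this
  have h4 : |1 / (2 * π) * Real.log ‖y‖| = 1 / (2 * π) * |Real.log ‖y‖| := by
    rw [abs_mul, abs_of_nonneg (by have := Real.pi_pos; positivity)]
  linarith

theorem lim_Gs (B : ℂ → ℝ) (hB : Continuous B) (pB : Per 1 B) :
    Tendsto (fun n => ∫ y in Q 1, Gs (sn n) y * B y) atTop (𝓝 (∫ y in Q 1, G y * B y)) := by
  obtain ⟨M, hM⟩ := per_bounded one_pos Hf Hf_per Hf_smooth.continuous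
  obtain ⟨D, hD⟩ := per_bounded one_pos B pB hB
  have hM0 : 0 ≤ M := (norm_nonneg _).trans (hM 0)
  have hD0 : 0 ≤ D := (norm_nonneg _).trans (hD 0)
  have hpi := Real.pi_pos
  refine tendsto_integral_of_dominated_convergence
    (fun y => (|G y| + 1 / (4 * π) * Real.log (M + 1)) * D) ?_ ?_ ?_ ?_
  · intro n
    exact ((Gs_smooth (sn_pos n)).continuous.mul hB).aestronglyMeasurable
  · exact (G_int.abs.add (integrableOn_Q_of_continuous one_pos _ continuous_const)).mul_const D
  · intro n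
    filter_upwards [ae_not_lat] with y hy
    have hp := Hf_pos hy
    have hs := sn_pos n
    have hs1 := sn_le n
    have hMy : Hf y ≤ M := (le_abs_self _).trans (hM y)
    rw [norm_mul]
    refine mul_le_mul ?_ (hD y) (norm_nonneg _) (by
      have : 0 ≤ Real.log (M + 1) := Real.log_nonneg (by linarith)
      positivity)
    rw [Real.norm_eq_abs, Gs, G_eq, abs_mul, abs_mul, abs_neg,
      abs_of_nonneg (show (0 : ℝ) ≤ 1 / (4 * π) by positivity), ← mul_add]
    refine mul_le_mul_of_nonneg_left ?_ (by positivity)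
    have h1 : Real.log (Hf y) ≤ Real.log (Hf y + sn n) := Real.log_le_log hp (by linarith)
    have h2 : Real.log (Hf y + sn n) ≤ Real.log (M + 1) :=
      Real.log_le_log (by linarith) (by linarith)
    have h3 : 0 ≤ Real.log (M + 1) := Real.log_nonneg (by linarith)
    have h4 := neg_abs_le (Real.log (Hf y))
    have h5 := abs_nonneg (Real.log (Hf y))
    rw [abs_le]
    constructor <;> linarith
  · filter_upwards [ae_not_lat] with y hy
    have hp := Hf_pos hy
    have h1 : Tendsto (fun n => Hf y + sn n) atTop (𝓝 (Hf y)) := by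
      have := (tendsto_const_nhds (x := Hf y)).add sn_lim
      rwa [add_zero] at this
    have h2 : Tendsto (fun n => Real.log (Hf y + sn n)) atTop (𝓝 (Real.log (Hf y))) :=
      (Real.continuousAt_log hp.ne').tendsto.comp h1
    rw [G_eq]
    exact (tendsto_const_nhds.mul h2).mul tendsto_const_nhds

theorem ker_cont_meas (s : ℝ) : Measurable (ker s) := by
  have h1 : Continuous (fun y => ‖fderiv ℝ Hf y‖) :=
    (Hf_smooth.continuous_fderiv (by simp)).norm
  have h2 := Hf_smooth.continuous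
  unfold ker
  exact (continuous_const.mul (h1.pow 2)).measurable.div
    ((continuous_const.mul h2).mul ((h2.add continuous_const).pow 2)).measurable

theorem ker_unif (u : Set ℂ) (hu : IsOpen u) (h0 : (0 : ℂ) ∈ u) :
    TendstoUniformlyOn (fun n => ker (sn n)) 0 atTop (Q 1 \ u) := by
  let K : Set ℂ := {y | |y.re| ≤ 1 / 2 ∧ |y.im| ≤ 1 / 2} \ u
  have hKsub : Q 1 \ u ⊆ K := by
    rintro y ⟨⟨h1, h2⟩, h3⟩
    refine ⟨⟨abs_le.mpr ⟨?_, ?_⟩, abs_le.mpr ⟨?_, ?_⟩⟩, h3⟩
    · exact h1.1
    · exact h1.2.le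
    · exact h2.1
    · exact h2.2.le
  have hKc : IsCompact K := by
    refine Metric.isCompact_of_isClosed_isBounded ?_ ?_
    · refine IsClosed.sdiff ?_ hu
      exact (isClosed_le (continuous_abs.comp continuous_re) continuous_const).inter
        (isClosed_le (continuous_abs.comp continuous_im) continuous_const)
    · refine (isBounded_closedBall (x := (0 : ℂ)) (r := 1)).subset ?_
      rintro y ⟨⟨h1, h2⟩, -⟩
      rw [mem_closedBall_zero_iff]
      have h1' : |y.re| ≤ 1 / 2 := h1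
      have h2' : |y.im| ≤ 1 / 2 := h2
      have := Complex.norm_le_abs_re_add_abs_im y
      linarith
  have hKpos : ∀ y ∈ K, 0 < Hf y := by
    rintro y ⟨⟨h1, h2⟩, h3⟩
    refine Hf_pos ?_
    rw [← dl_pos_iff one_pos, dl_eq_norm one_pos y h1 h2, norm_pos_iff]
    rintro rfl
    exact h3 h0
  rcases K.eq_empty_or_nonempty with hKe | hKne
  · have : Q 1 \ u = ∅ := subset_eq_empty hKsub hKe
    rw [this]
    exact tendstoUniformlyOn_empty
  have hcH := Hf_smooth.continuous
  have hcD : Continuous (fun y => ‖fderiv ℝ Hf y‖) :=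
    (Hf_smooth.continuous_fderiv (by simp)).norm
  obtain ⟨a, haK, ha⟩ := hKc.exists_isMinOn hKne hcH.continuousOn
  obtain ⟨b, hbK, hb⟩ := hKc.exists_isMaxOn hKne hcD.continuousOn
  have hm := hKpos a haK
  have hpi := Real.pi_pos
  set m := Hf a with hmdef
  set D := ‖fderiv ℝ Hf b‖ with hDdef
  have hD0 : 0 ≤ D := norm_nonneg _
  have hbound : ∀ n, ∀ y ∈ K, ker (sn n) y ≤ sn n * (D ^ 2 / (4 * π * m * m ^ 2)) := by
    intro n y hy
    have h1 : m ≤ Hf y := ha hy
    have h2 : ‖fderiv ℝ Hf y‖ ≤ D := hb hy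
    have hs := sn_pos n
    unfold ker
    rw [mul_div_assoc]
    refine mul_le_mul_of_nonneg_left ?_ hs.le
    refine div_le_div₀ (by positivity) ?_ (by positivity) ?_
    · exact pow_le_pow_left₀ (norm_nonneg _) h2 2
    · refine mul_le_mul ?_ ?_ (by positivity) (by
        have := hm.le.trans h1
        positivity)
      · exact mul_le_mul_of_nonneg_left h1 (by positivity)
      · exact pow_le_pow_left₀ hm.le (by linarith) 2
  rw [Metric.tendstoUniformlyOn_iff]
  intro ε hε
  have hlim : Tendsto (fun n => sn n * (D ^ 2 / (4 * π * m * m ^ 2))) atTop (𝓝 0) := by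
    have := sn_lim.mul_const (D ^ 2 / (4 * π * m * m ^ 2))
    rwa [zero_mul] at this
  filter_upwards [hlim.eventually (gt_mem_nhds hε)] with n hn y hy
  have h1 := hbound n y (hKsub hy)
  have h2 := ker_nonneg (sn_pos n) y
  rw [Pi.zero_apply, dist_comm, Real.dist_eq, sub_zero, abs_of_nonneg h2]
  exact h1.trans_lt hn

theorem ker_eq (n : ℕ) :
    (fun y => Hf y / (Hf y + sn n) - lap (Gs (sn n)) y) =ᵐ[volume.restrict (Q 1)] ker (sn n) := by
  filter_upwards [ae_not_lat] with y hy
  rw [lap_Gs (sn_pos n) hy]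
  ring

theorem ratio_cont (n : ℕ) : Continuous (fun y => Hf y / (Hf y + sn n)) :=
  Hf_smooth.continuous.div (Hf_smooth.continuous.add continuous_const)
    (fun y => (Kpos (sn_pos n) y).ne')

theorem int_ker : Tendsto (fun n => ∫ y in Q 1, ker (sn n) y) atTop (𝓝 1) := by
  have h1 : ∀ n, ∫ y in Q 1, ker (sn n) y = ∫ y in Q 1, (1 : ℝ) * (Hf y / (Hf y + sn n)) := by
    intro n
    rw [← integral_congr_ae (ker_eq n), integral_sub]
    · rw [int_Q_lap one_pos _ ((Gs_smooth (sn_pos n)).of_le two_le_inf) (Gs_per _), sub_zero]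
      simp only [one_mul]
    · exact integrableOn_Q_of_continuous one_pos _ (ratio_cont n)
    · exact integrableOn_Q_of_continuous one_pos _ (cont_lap _ (Gs_smooth (sn_pos n)))
  simp only [h1]
  have h2 := lim_ratio (fun _ => (1 : ℝ)) continuous_const
  rw [int_Q_one one_pos] at h2
  simpa using h2

theorem lim_ker (A : ℂ → ℝ) (hA : Continuous A) :
    Tendsto (fun n => ∫ y in Q 1, ker (sn n) y • A y) atTop (𝓝 (A 0)) := by
  refine tendsto_setIntegral_peak_smul_of_integrableOn_of_tendsto (x₀ := (0 : ℂ))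
    measurableSet_Q measurableSet_Q subset_rfl self_mem_nhdsWithin ?_ ?_ ?_ int_ker ?_ ?_ ?_
  · rw [volume_Q one_pos]
    exact ENNReal.ofReal_ne_top
  · exact Eventually.of_forall (fun n y _ => ker_nonneg (sn_pos n) y)
  · intro u hu h0
    exact ker_unif u hu h0
  · exact Eventually.of_forall (fun n => (ker_cont_meas _).aestronglyMeasurable)
  · exact integrableOn_Q_of_continuous one_pos A hA
  · exact hA.continuousAt.tendsto.mono_left nhdsWithin_le_nhds

end RepBAux

open RepBAux in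
theorem rep_unit (A : ℂ → ℝ) (sA : ContDiff ℝ ∞ A) (pA : Per 1 A) :
    A 0 - ∫ y in Q 1, A y = ∫ y in Q 1, G y * (-(lap A y)) := by
  have hA := sA.continuous
  have hL := cont_lap A sA
  have h1 : ∀ n, ∫ y in Q 1, Gs (sn n) y * lap A y
      = (∫ y in Q 1, A y * (Hf y / (Hf y + sn n))) - ∫ y in Q 1, ker (sn n) y • A y := by
    intro n
    rw [← int_Q_green one_pos A (Gs (sn n)) (sA.of_le two_le_inf)
      ((Gs_smooth (sn_pos n)).of_le two_le_inf) pA (Gs_per _)]
    have hcr : Continuous (fun y => A y * (Hf y / (Hf y + sn n))) := hA.mul (ratio_cont n)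
    have hcl : Continuous (fun y => A y * lap (Gs (sn n)) y) :=
      hA.mul (cont_lap _ (Gs_smooth (sn_pos n)))
    have h2 : ∫ y in Q 1, ker (sn n) y • A y
        = ∫ y in Q 1, (A y * (Hf y / (Hf y + sn n)) - A y * lap (Gs (sn n)) y) := by
      refine integral_congr_ae ?_
      filter_upwards [ker_eq n] with y hy
      rw [← hy, smul_eq_mul]
      ring
    rw [h2, integral_sub (integrableOn_Q_of_continuous one_pos _ hcr)
      (integrableOn_Q_of_continuous one_pos _ hcl)]
    ring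
  have h3 := lim_Gs (lap A) hL (per_lap A pA)
  have h4 := (lim_ratio A hA).sub (lim_ker A hA)
  have h5 := tendsto_nhds_unique h3 (by
    simp only [h1]
    exact h4)
  have h6 : ∫ y in Q 1, G y * (-(lap A y)) = -∫ y in Q 1, G y * lap A y := by
    rw [← integral_neg]
    refine integral_congr_ae (Eventually.of_forall (fun y => ?_))
    ring
  rw [h6, h5]
  ring

end AO

end
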