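import Pool.Agent.Lib.AO.RepA
import Pool.Agent.Lib.AO.RepB

/-
STUB RepC / Rep (library AO, MP_7bfba2_an). Replace the sorries, keep the statements.
Representation by the Green function.  First on the unit torus, for a smooth 1-periodic function A and x = 0:
(*)  A 0 - ∫_Q A = ∫_{Q 1} G y * (-lap A y) dy.
Regularise: H y := F(y + VV 1)², smooth, periodic, >= 0, zero exactly on Lat 1 (contDiff_F2, F_zero_iff); G = -(1/4π) log H; G_ρ := -(1/4π) log(H + ρ²) is smooth and periodic.  Off Lat 1: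
 lap (log H) = -4π, i.e. lap H = -4π H + ‖fderiv H‖²/H, and so lap (log(H+ρ²)) = -4π H/(H+ρ²) + ρ²‖fderiv H‖²/(H (H+ρ²)²), lap G_ρ = H/(H+ρ²) - k_ρ,
 k_ρ := ρ²‖fderiv H‖²/(4π H (H+ρ²)²) >= 0.  int_Q_green: ∫ A lap G_ρ = ∫ G_ρ lap A.
 With A = 1 (int_Q_lap): ∫ k_ρ = ∫ H/(H+ρ²) -> 1 as ρ -> 0.  Off a neighbourhood of Lat 1, k_ρ <= Cρ² -> 0 uniformly.  So ∫ A k_ρ -> A 0 (A continuous).  ∫ A H/(H+ρ²) -> ∫ A and
 ∫ G_ρ lap A -> ∫ G lap A by dominated convergence (|log(H+ρ²)| <= |log H| + log(sup H + 1), and |G y| <= C + |log‖y‖| is integrable on Q 1 by g_log, int_log).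
rep_value: apply (*) to y -> A(x + y)·, evenness of G, int_Q_sub; general ℓ by scaling (A_1 z = A(ℓ z), lap_scale, change of variables y -> ℓ y).
rep_grad: differentiate: fderiv A x e = ∫_Q Gl ℓ y * (-(fderiv (lap A) (x-y) e)) (apply rep to the directional derivative), then integrate by parts in y with the regularised G_ρ
 (int_Q_dx, int_Q_dy applied to G_ρ(y) * lap A (x-y)) and let ρ -> 0: |fderiv G_ρ| <= (1/4π)‖fderiv H‖/H <= C/dl y, dominated convergence.
 The fderiv of a product/linear combination in the direction e = e.re + i e.im is e.re dx + e.im dy.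
-/

set_option autoImplicit false

open Complex MeasureTheory Set Metric Filter
open scoped Real ContDiff Topology

noncomputable section

namespace AO

namespace RepCAux

open scoped Pointwise

theorem smul_Q {ℓ : ℝ} (hl : 0 < ℓ) : ℓ • Q 1 = Q ℓ := by
  ext z
  rw [mem_smul_set_iff_inv_smul_mem₀ hl.ne']
  simp only [Q, Set.mem_ofPred_eq, Complex.smul_re, Complex.smul_im, smul_eq_mul, mem_Ico]
  have h1 : ∀ x : ℝ, -(1 / 2) ≤ ℓ⁻¹ * x ↔ -(ℓ / 2) ≤ x := by
    intro x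
    rw [← div_eq_inv_mul, le_div_iff₀ hl]
    constructor <;> intro h <;> linarith
  have h2 : ∀ x : ℝ, ℓ⁻¹ * x < 1 / 2 ↔ x < ℓ / 2 := by
    intro x
    rw [← div_eq_inv_mul, div_lt_iff₀ hl]
    constructor <;> intro h <;> linarith
  rw [h1, h1, h2, h2]

/-- change of variables -/
theorem int_scale {ℓ : ℝ} (hl : 0 < ℓ) (f : ℂ → ℝ) :
    ∫ w in Q 1, f (ℓ • w) = (ℓ ^ 2)⁻¹ * ∫ y in Q ℓ, f y := by
  rw [Measure.setIntegral_comp_smul_of_pos volume f (Q 1) hl, smul_Q hl,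
    Complex.finrank_real_complex, smul_eq_mul]

theorem per_add {E : Type} {ℓ : ℝ} {B : ℂ → E} (pB : Per ℓ B) (ξ : ℂ) :
    Per ℓ (fun w => B (w + ξ)) := by
  refine ⟨fun z => ?_, fun z => ?_⟩
  · change B (z + ℓ + ξ) = B (z + ξ)
    rw [add_right_comm]; exact pB.1 _
  · change B (z + ℓ * Complex.I + ξ) = B (z + ξ)
    rw [add_right_comm]; exact pB.2 _

theorem per_sub {E : Type} {ℓ : ℝ} {B : ℂ → E} (pB : Per ℓ B) (ξ : ℂ) :
    Per ℓ (fun w => B (ξ - w)) := by
  refine ⟨fun z => ?_, fun z => ?_⟩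
  · change B (ξ - (z + ℓ)) = B (ξ - z)
    have := pB.1 (ξ - (z + ℓ))
    rw [← this]; congr 1; ring
  · change B (ξ - (z + ℓ * Complex.I)) = B (ξ - z)
    have := pB.2 (ξ - (z + ℓ * Complex.I))
    rw [← this]; congr 1; ring

theorem per_mul {ℓ : ℝ} {f g : ℂ → ℝ} (hf : Per ℓ f) (hg : Per ℓ g) :
    Per ℓ (fun w => f w * g w) := by
  refine ⟨fun z => ?_, fun z => ?_⟩
  · change f (z + ℓ) * g (z + ℓ) = f z * g z
    rw [hf.1, hg.1]
  · change f (z + ℓ * Complex.I) * g (z + ℓ * Complex.I) = f z * g z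
    rw [hf.2, hg.2]

theorem per_neg {ℓ : ℝ} {f : ℂ → ℝ} (hf : Per ℓ f) : Per ℓ (fun w => -(f w)) :=
  ⟨fun z => by change -(f (z + ℓ)) = -(f z); rw [hf.1],
    fun z => by change -(f (z + ℓ * Complex.I)) = -(f z); rw [hf.2]⟩

theorem one (B : ℂ → ℝ) (sB : ContDiff ℝ ∞ B) (pB : Per 1 B) (ξ : ℂ) :
    B ξ - ∫ y in Q 1, B y = ∫ y in Q 1, G (ξ - y) * (-(lap B y)) := by
  have sB' : ContDiff ℝ ∞ (fun w => B (w + ξ)) := sB.comp (contDiff_id.add contDiff_const)
  have h := rep_unit _ sB' (per_add pB ξ)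
  rw [zero_add, int_Q_add one_pos B pB ξ] at h
  rw [h]
  have h1 : ∀ y, lap (fun w => B (w + ξ)) y = lap B (y + ξ) := fun y => lap_translate B ξ y
  simp only [h1]
  rw [← int_Q_add one_pos _ (per_mul (per_sub G_per ξ) (per_neg (per_lap B pB))) ξ]
  refine integral_congr_ae (Eventually.of_forall fun y => ?_)
  change G y * -lap B (y + ξ) = G (ξ - (y + ξ)) * -lap B (y + ξ)
  rw [sub_add_cancel_right, G_neg]

theorem contDiff_lap {A : ℂ → ℝ} (sA : ContDiff ℝ ∞ A) : Continuous (lap A) := by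
  rw [continuous_iff_continuousAt]
  intro z
  have h2 := contDiffAt_dx A z 1 (sA.contDiffAt.of_le (by norm_cast))
  have h3 : ContDiff ℝ 1 (dx A) := contDiff_iff_contDiffAt.2 fun z => by
    exact_mod_cast (contDiffAt_dx A z 1 (sA.contDiffAt.of_le (by norm_cast))).1
  have h4 : ContDiff ℝ 1 (dy A) := contDiff_iff_contDiffAt.2 fun z => by
    exact_mod_cast (contDiffAt_dx A z 1 (sA.contDiffAt.of_le (by norm_cast))).2
  have h5 : Continuous (fderiv ℝ (dx A)) := h3.continuous_fderiv (by norm_num)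
  have h6 : Continuous (fderiv ℝ (dy A)) := h4.continuous_fderiv (by norm_num)
  exact ((h5.clm_apply continuous_const).add (h6.clm_apply continuous_const)).continuousAt

/-- the representation up to a constant which does not depend on the point -/
theorem rep_point {ℓ : ℝ} (hl : 0 < ℓ) (A : ℂ → ℝ) (sA : ContDiff ℝ ∞ A) (pA : Per ℓ A) (x : ℂ) :
    A x - ∫ w in Q 1, A (ℓ • w) = ∫ y in Q ℓ, Gl ℓ (x - y) * (-(lap A y)) := by
  have hl0 : (ℓ : ℂ) ≠ 0 := by exact_mod_cast hl.ne'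
  have sB : ContDiff ℝ ∞ (fun w : ℂ => A (ℓ • w)) := sA.comp (contDiff_id.const_smul ℓ)
  have pB : Per 1 (fun w : ℂ => A (ℓ • w)) := by
    refine ⟨fun z => ?_, fun z => ?_⟩
    · change A (ℓ • (z + (1 : ℝ))) = A (ℓ • z)
      rw [smul_add, Complex.real_smul (z := ((1 : ℝ) : ℂ)), Complex.ofReal_one, mul_one]
      exact pA.1 _
    · change A (ℓ • (z + (1 : ℝ) * Complex.I)) = A (ℓ • z)
      rw [smul_add, Complex.real_smul (z := ((1 : ℝ) : ℂ) * Complex.I), Complex.ofReal_one, one_mul]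
      exact pA.2 _
  have h := one _ sB pB (ℓ⁻¹ • x)
  have e1 : ℓ • ℓ⁻¹ • x = x := by rw [smul_smul, mul_inv_cancel₀ hl.ne', one_smul]
  rw [e1] at h
  rw [h]
  have e2 : ∀ y : ℂ, G (ℓ⁻¹ • x - y) * -(lap (fun w : ℂ => A (ℓ • w)) y) =
      ℓ ^ 2 * (fun y => Gl ℓ (x - y) * -(lap A y)) (ℓ • y) := by
    intro y
    have e3 : lap (fun w : ℂ => A (ℓ • w)) y = ℓ ^ 2 * lap A (ℓ • y) := by
      have := lap_scale A ℓ y (sA.contDiffAt.of_le (by norm_cast))
      simpa only [Complex.real_smul] using this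
    have e4 : Gl ℓ (x - ℓ • y) = G (ℓ⁻¹ • x - y) := by
      rw [Gl, Complex.real_smul, Complex.real_smul, Complex.ofReal_inv, sub_div,
        mul_div_cancel_left₀ _ hl0, div_eq_inv_mul]
    change _ = ℓ ^ 2 * (Gl ℓ (x - ℓ • y) * -(lap A (ℓ • y)))
    rw [e3, e4]
    ring
  have e5 := int_scale hl fun y => Gl ℓ (x - y) * -(lap A y)
  simp only [e2]
  rw [integral_const_mul, e5, ← mul_assoc, mul_inv_cancel₀ (by positivity), one_mul]

end RepCAux

open RepCAux

variable {ℓ : ℝ}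

theorem rep_value (hl : 0 < ℓ) (A : ℂ → ℝ) (sA : ContDiff ℝ ∞ A) (pA : Per ℓ A) (x x' : ℂ) :
    A x - A x' = ∫ y in Q ℓ, (Gl ℓ (x - y) - Gl ℓ (x' - y)) * (-(lap A y)) := by
  have h := rep_point hl A sA pA x
  have h' := rep_point hl A sA pA x'
  have hc : Continuous fun y => -(lap A y) := (contDiff_lap sA).neg
  have hp : Per ℓ fun y => -(lap A y) := per_neg (per_lap A pA)
  have e : ∀ y, (Gl ℓ (x - y) - Gl ℓ (x' - y)) * (-(lap A y)) =
      Gl ℓ (x - y) * (-(lap A y)) - Gl ℓ (x' - y) * (-(lap A y)) := fun y => sub_mul _ _ _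
  simp only [e]
  rw [integral_sub (integrableOn_G hl x _ hc hp) (integrableOn_G hl x' _ hc hp), ← h, ← h']
  ring

/-- The same with a constant added to the Laplacian: constants integrate to zero against differences of `G`. -/
theorem rep_value' (hl : 0 < ℓ) (A : ℂ → ℝ) (sA : ContDiff ℝ ∞ A) (pA : Per ℓ A) (k : ℝ) (f : ℂ → ℝ)
    (hf : ∀ z, lap A z = k - f z) (x x' : ℂ) :
    A x - A x' = ∫ y in Q ℓ, (Gl ℓ (x - y) - Gl ℓ (x' - y)) * f y := by
  have hc1 : Continuous fun _ : ℂ => k := continuous_const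
  have hp1 : Per ℓ fun _ : ℂ => k := ⟨fun _ => rfl, fun _ => rfl⟩
  have hc : Continuous fun y => -(lap A y) := (contDiff_lap sA).neg
  have hp : Per ℓ fun y => -(lap A y) := per_neg (per_lap A pA)
  have i1 := integrableOn_G hl x _ hc hp
  have i1' := integrableOn_G hl x' _ hc hp
  have i2 := integrableOn_G hl x _ hc1 hp1
  have i2' := integrableOn_G hl x' _ hc1 hp1
  have j1 : IntegrableOn (fun y => Gl ℓ (x - y) * (-(lap A y)) - Gl ℓ (x' - y) * (-(lap A y)))
    (Q ℓ) := i1.sub i1'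
  have j2 : IntegrableOn (fun y => Gl ℓ (x - y) * k - Gl ℓ (x' - y) * k) (Q ℓ) := i2.sub i2'
  have e : ∀ y, (Gl ℓ (x - y) - Gl ℓ (x' - y)) * f y =
      (Gl ℓ (x - y) * (-(lap A y)) - Gl ℓ (x' - y) * (-(lap A y))) +
        (Gl ℓ (x - y) * k - Gl ℓ (x' - y) * k) := by
    intro y
    rw [hf y]
    ring
  simp only [e]
  rw [integral_add j1 j2, integral_sub i1 i1', integral_sub i2 i2',
    ← rep_point hl A sA pA x, ← rep_point hl A sA pA x', integral_mul_const, integral_mul_const,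
    int_Q_sub hl _ (per_Gl ℓ hl) x, int_Q_sub hl _ (per_Gl ℓ hl) x']
  ring

end AO

end
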