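import Pool.Agent.Lib.AO.RepA
import Pool.Agent.Lib.AO.RepC

/-
STUB RepD / Rep (library AO, MP_7bfba2_an). Replace the sorries, keep the statements.
Representation by the Green function.  First on the unit torus, for a smooth 1-periodic function A and x = 0:
(*)  A 0 - ∫_Q A = ∫_{Q 1} G y * (-lap A y) dy.
Regularise: H y := F(y + VV 1)², smooth, periodic, >= 0, zero exactly on Lat 1 (contDiff_F2, F_zero_iff); G = -(1/4π) log H; G_ρ := -(1/4π) log(H + ρ²) is smooth and periodic.  Off Lat 1: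
 lap (log H) = -4π, i.e. lap H = -4π H + ‖fderiv H‖²/H, and so lap (log(H+ρ²)) = -4π H/(H+ρ²) + ρ²‖fderiv H‖²/(H (H+ρ²)²), lap G_ρ = H/(H+ρ²) - k_ρ,
 k_ρ := ρ²‖fderiv H‖²/(4π H (H+ρ²)²) >= 0.  int_Q_green: ∫ A lap G_ρ = ∫ G_ρ lap A.
 With A = 1 (int_Q_lap): ∫ k_ρ = ∫ H/(H+ρ²) -> 1 as ρ -> 0.  Off a neighbourhood of Lat 1, k_ρ <= Cρ² -> 0 uniformly.  So ∫ A k_ρ -> A 0 (A continuous).  ∫ A H/(H+ρ²) -> ∫ A and
 ∫ G_ρ lap A -> ∫ G lap A by dominated convergence (|log(H+ρ²)| <= |log H| + log(sup H + 1), and |G y| <= C + |log‖y‖| is integrable on Q 1 by g_log, int_log).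
rep_value: apply (*) to y -> A(x + y)·, evenness of G, int_Q_sub; general ℓ by scaling (A_1 z = A(ℓ z), lap_scale, change of variables y -> ℓ y).
rep_grad: differentiate: fderiv A x e = ∫_Q Gl ℓ y * (-(fderiv (lap A) (x-y) e)) (apply rep to the directional derivative), then integrate by parts in y with the regularised G_ρ
 (int_Q_dx, int_Q_dy applied to G_ρ(y) * lap A (x-y)) and let ρ -> 0: |fderiv G_ρ| <= (1/4π)‖fderiv H‖/H <= C/dl y, dominated convergence.
 The fderiv of a product/linear combination in the direction e = e.re + i e.im is e.re dx + e.im dy.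
-/

set_option autoImplicit false

open Complex MeasureTheory Set Metric Filter
open scoped Real ContDiff Topology

noncomputable section

namespace AO

variable {ℓ : ℝ}

namespace RepDAux

theorem lat_countable (ℓ : ℝ) : (Lat ℓ).Countable := by
  have : Lat ℓ ⊆ range (fun p : ℤ × ℤ => (ℓ : ℂ) * ((p.1 : ℂ) + (p.2 : ℂ) * Complex.I)) := by
    rintro z ⟨m, n, h⟩
    exact ⟨(m, n), h.symm⟩
  exact (countable_range _).mono this

theorem line_null (e c : ℂ) : volume {y : ℂ | ∃ s : ℝ, c + s * e - y = 0} = 0 := by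
  have h1 : (Submodule.span ℝ {e} : Submodule ℝ ℂ) ≠ ⊤ := by
    intro h
    have h2 : Module.finrank ℝ (Submodule.span ℝ {e} : Submodule ℝ ℂ) = 2 := by
      rw [h, finrank_top, Complex.finrank_real_complex]
    have h3 : Module.finrank ℝ (Submodule.span ℝ {e} : Submodule ℝ ℂ) ≤ 1 := by
      have := finrank_span_le_card (R := ℝ) ({e} : Set ℂ)
      simpa using this
    omega
  have h4 : volume ((Submodule.span ℝ {e} : Submodule ℝ ℂ) : Set ℂ) = 0 :=
    Measure.addHaar_submodule volume _ h1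
  have h5 : volume ((fun y : ℂ => y - c) ⁻¹' ((Submodule.span ℝ {e} : Submodule ℝ ℂ) : Set ℂ)) = 0 :=
    (measurePreserving_sub_right volume c).quasiMeasurePreserving.preimage_null h4
  refine measure_mono_null ?_ h5
  rintro y ⟨s, hs⟩
  show y - c ∈ (Submodule.span ℝ {e} : Submodule ℝ ℂ)
  rw [Submodule.mem_span_singleton]
  refine ⟨s, ?_⟩
  rw [Complex.real_smul]
  linear_combination hs

theorem good_ae (ℓ : ℝ) (x e : ℂ) : ∀ᵐ y : ℂ, ∀ s : ℝ, x + s * e - y ∉ Lat ℓ := by
  have h : ∀ k ∈ Lat ℓ, ∀ᵐ y : ℂ, ∀ s : ℝ, x + s * e - y ≠ k := by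
    intro k _
    have := line_null e (x - k)
    rw [ae_iff]
    refine measure_mono_null ?_ this
    intro y hy
    simp only [Set.mem_ofPred_eq, not_forall, not_not] at hy ⊢
    obtain ⟨s, hs⟩ := hy
    exact ⟨s, by linear_combination hs⟩
  have h2 := (ae_ball_iff (lat_countable ℓ)).2 h
  filter_upwards [h2] with y hy s hs
  exact hy _ hs s rfl

variable (hl : 0 < ℓ)

include hl

theorem per_g (e : ℂ) : Per ℓ (fun z => fderiv ℝ (Gl ℓ) z e) := by
  obtain ⟨h1, h2⟩ := per_Gl ℓ hl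
  constructor
  · intro z
    have : (fun w => Gl ℓ (w + ℓ)) = Gl ℓ := funext h1
    have h := fderiv_comp_add_right (𝕜 := ℝ) (f := Gl ℓ) (x := z) (ℓ : ℂ)
    rw [this] at h
    show fderiv ℝ (Gl ℓ) _ e = fderiv ℝ (Gl ℓ) _ e
    rw [h]
  · intro z
    have : (fun w => Gl ℓ (w + ℓ * Complex.I)) = Gl ℓ := funext h2
    have h := fderiv_comp_add_right (𝕜 := ℝ) (f := Gl ℓ) (x := z) (ℓ * Complex.I : ℂ)
    rw [this] at h
    show fderiv ℝ (Gl ℓ) _ e = fderiv ℝ (Gl ℓ) _ e
    rw [h]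

omit hl in
theorem meas_g (ℓ : ℝ) (e : ℂ) : Measurable (fun z => fderiv ℝ (Gl ℓ) z e) :=
  measurable_fderiv_apply_const ℝ (Gl ℓ) e

omit hl in
theorem per_one (ℓ : ℝ) : Per ℓ (fun _ : ℂ => (1 : ℝ)) := ⟨fun _ => rfl, fun _ => rfl⟩

theorem int_g_sub (x e : ℂ) : IntegrableOn (fun y => fderiv ℝ (Gl ℓ) (x - y) e) (Q ℓ) := by
  have := integrableOn_dG hl x e (fun _ => 1) continuous_const (per_one ℓ)
  simpa using this

theorem int_g (e : ℂ) : IntegrableOn (fun y => fderiv ℝ (Gl ℓ) y e) (Q ℓ) := by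
  have h := int_g_sub hl 0 e
  refine h.neg.congr (Eventually.of_forall fun y => ?_)
  simp [g_odd ℓ hl y]

theorem int_abs (x e : ℂ) : ∫ y in Q ℓ, |fderiv ℝ (Gl ℓ) (x - y) e| = ∫ y in Q ℓ, |fderiv ℝ (Gl ℓ) y e| := by
  have hp := per_g hl e
  exact int_Q_sub hl (fun z => |fderiv ℝ (Gl ℓ) z e|) ⟨fun z => by simp only [hp.1 z], fun z => by simp only [hp.2 z]⟩ x

theorem int_g_zero (x e : ℂ) : ∫ y in Q ℓ, fderiv ℝ (Gl ℓ) (x - y) e = 0 := by
  have hp := per_g hl e
  have h1 := int_Q_sub hl _ hp x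
  have h2 := int_Q_neg hl _ hp
  rw [h1]
  have h3 : ∫ z in Q ℓ, fderiv ℝ (Gl ℓ) (-z) e = -∫ z in Q ℓ, fderiv ℝ (Gl ℓ) z e := by
    rw [← integral_neg]
    refine integral_congr_ae (Eventually.of_forall fun z => ?_)
    simp [g_odd ℓ hl z]
  rw [h3] at h2
  linarith

/-- The candidate for the directional derivative is continuous. -/
theorem cont_W (e : ℂ) (f : ℂ → ℝ) (hf : Continuous f) (pf : Per ℓ f) :
    Continuous (fun x => ∫ y in Q ℓ, fderiv ℝ (Gl ℓ) (x - y) e * f y) := by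
  obtain ⟨M, hM⟩ := per_bounded hl f pf hf
  have hp := per_g hl e
  have h1 : (fun x => ∫ y in Q ℓ, fderiv ℝ (Gl ℓ) (x - y) e * f y) =
      fun x => ∫ y in Q ℓ, fderiv ℝ (Gl ℓ) y e * f (x - y) :=
    funext fun x => int_Q_conv hl _ f hp pf x
  rw [h1]
  refine continuous_of_dominated (bound := fun y => |fderiv ℝ (Gl ℓ) y e| * M) ?_ ?_ ?_ ?_
  · intro x
    exact ((meas_g ℓ e).mul (hf.comp (continuous_const.sub continuous_id)).measurable).aestronglyMeasurable
  · intro x
    refine Eventually.of_forall fun y => ?_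
    rw [norm_mul, Real.norm_eq_abs]
    exact mul_le_mul_of_nonneg_left (hM _) (abs_nonneg _)
  · exact (int_g hl e).abs.mul_const M
  · refine Eventually.of_forall fun y => ?_
    exact continuous_const.mul (hf.comp (continuous_id.sub continuous_const))

theorem int_prod (x e : ℂ) (f : ℂ → ℝ) (hf : Continuous f) (pf : Per ℓ f) (t : ℝ) :
    Integrable (Function.uncurry fun (s : ℝ) (y : ℂ) => fderiv ℝ (Gl ℓ) (x + s * e - y) e * f y)
      ((volume.restrict (Ioc 0 t)).prod (volume.restrict (Q ℓ))) := by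
  obtain ⟨M, hM⟩ := per_bounded hl f pf hf
  have hm : Measurable (Function.uncurry fun (s : ℝ) (y : ℂ) => fderiv ℝ (Gl ℓ) (x + s * e - y) e * f y) := by
    have hc : Continuous (fun p : ℝ × ℂ => x + p.1 * e - p.2) := by fun_prop
    exact ((meas_g ℓ e).comp hc.measurable).mul (hf.comp continuous_snd).measurable
  rw [integrable_prod_iff hm.aestronglyMeasurable]
  constructor
  · refine Eventually.of_forall fun s => ?_
    exact integrableOn_dG hl (x + s * e) e f hf pf
  · have hfin : IsFiniteMeasure (volume.restrict (Ioc (0 : ℝ) t)) := by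
      constructor
      rw [Measure.restrict_apply_univ]
      exact measure_Ioc_lt_top
    refine Integrable.mono' (g := fun _ => (∫ y in Q ℓ, |fderiv ℝ (Gl ℓ) y e|) * M) (integrable_const _) ?_ ?_
    · exact hm.norm.stronglyMeasurable.integral_prod_right'.aestronglyMeasurable
    · refine Eventually.of_forall fun s => ?_
      rw [Real.norm_of_nonneg (integral_nonneg fun _ => norm_nonneg _)]
      rw [← int_abs hl (x + s * e) e, ← integral_mul_const]
      refine integral_mono (integrableOn_dG hl (x + s * e) e f hf pf).norm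
        ((int_g_sub hl (x + s * e) e).abs.mul_const M) fun y => ?_
      simp only [Function.uncurry, norm_mul, Real.norm_eq_abs]
      exact mul_le_mul_of_nonneg_left (hM _) (abs_nonneg _)

/-- Fundamental theorem of calculus along a segment avoiding the lattice. -/
theorem ftc (x e y : ℂ) (t : ℝ) (ht : 0 ≤ t) (hy : ∀ s : ℝ, x + s * e - y ∉ Lat ℓ) :
    ∫ s in Ioc 0 t, fderiv ℝ (Gl ℓ) (x + s * e - y) e = Gl ℓ (x + t * e - y) - Gl ℓ (x - y) := by
  obtain ⟨C, _, hC⟩ := g_grad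
  have hd : ∀ s : ℝ, HasDerivAt (fun s : ℝ => Gl ℓ (x + s * e - y)) (fderiv ℝ (Gl ℓ) (x + s * e - y) e) s := by
    intro s
    have h1 := ((hC ℓ _ hl (hy s)).1.differentiableAt (by simp)).hasFDerivAt
    have h2 : HasDerivAt (fun s : ℝ => x + s * e - y) e s := by
      have h3 : HasDerivAt (fun s : ℝ => (s : ℂ)) 1 s := Complex.ofRealCLM.hasDerivAt
      have h4 := ((h3.mul_const e).const_add x).sub_const y
      simpa using h4
    exact HasFDerivAt.comp_hasDerivAt (l := Gl ℓ) (f := fun s : ℝ => x + s * e - y) s h1 h2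
  have hc : Continuous (fun s : ℝ => fderiv ℝ (Gl ℓ) (x + s * e - y) e) := by
    rw [continuous_iff_continuousAt]
    intro s
    have h1 : ContinuousAt (fderiv ℝ (Gl ℓ)) (x + s * e - y) :=
      ((hC ℓ _ hl (hy s)).1.fderiv_right (m := 0) (by simp)).continuousAt
    have h2 : ContinuousAt (fun s : ℝ => x + s * e - y) s := by fun_prop
    have h3 : ContinuousAt (fun s : ℝ => fderiv ℝ (Gl ℓ) (x + s * e - y)) s :=
      ContinuousAt.comp (f := fun s : ℝ => x + s * e - y) h1 h2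
    exact h3.clm_apply continuousAt_const
  rw [← intervalIntegral.integral_of_le ht,
    intervalIntegral.integral_eq_sub_of_hasDerivAt (fun s _ => hd s) (hc.intervalIntegrable _ _)]
  simp

theorem line_eq (A : ℂ → ℝ) (sA : ContDiff ℝ ∞ A) (pA : Per ℓ A) (x e : ℂ)
    (hf : Continuous (fun y => -(lap A y))) (pf : Per ℓ (fun y => -(lap A y))) (t : ℝ) (ht : 0 ≤ t) :
    ∫ s in (0 : ℝ)..t, (∫ y in Q ℓ, fderiv ℝ (Gl ℓ) (x + s * e - y) e * (-(lap A y))) =
      A (x + t * e) - A x := by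
  rw [intervalIntegral.integral_of_le ht, integral_integral_swap (int_prod hl x e _ hf pf t),
    rep_value hl A sA pA (x + t * e) x]
  refine integral_congr_ae ?_
  filter_upwards [ae_restrict_of_ae (good_ae ℓ x e)] with y hy
  rw [integral_mul_const, ftc hl x e y t ht hy]

end RepDAux

open RepDAux in
theorem rep_grad (hl : 0 < ℓ) (A : ℂ → ℝ) (sA : ContDiff ℝ ∞ A) (pA : Per ℓ A) (x e : ℂ) :
    fderiv ℝ A x e = ∫ y in Q ℓ, fderiv ℝ (Gl ℓ) (x - y) e * (-(lap A y)) := by
  have hf : Continuous (fun y => -(lap A y)) := by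
    refine Continuous.neg ?_
    rw [continuous_iff_continuousAt]
    intro z
    have h2 : ContDiffAt ℝ ((1 : ℕ) + 1 : ℕ) A z := (sA.of_le (by exact WithTop.coe_le_coe.2 (by exact_mod_cast le_top))).contDiffAt
    have h3 := contDiffAt_dx A z 1 h2
    have h4 := (contDiffAt_dx (dx A) z 0 h3.1).1.continuousAt
    have h5 := (contDiffAt_dx (dy A) z 0 h3.2).2.continuousAt
    exact h4.add h5
  have pf : Per ℓ (fun y => -(lap A y)) := by
    have := per_lap A pA
    exact ⟨fun z => congrArg Neg.neg (this.1 z), fun z => congrArg Neg.neg (this.2 z)⟩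
  set W : ℂ → ℝ := fun x => ∫ y in Q ℓ, fderiv ℝ (Gl ℓ) (x - y) e * (-(lap A y)) with hW
  have hWc : Continuous W := cont_W hl e _ hf pf
  have hWs : Continuous (fun s : ℝ => W (x + s * e)) := hWc.comp (by fun_prop)
  have h1 : HasDerivAt (fun t : ℝ => ∫ s in (0 : ℝ)..t, W (x + s * e)) (W (x + (0 : ℝ) * e)) 0 :=
    intervalIntegral.integral_hasDerivAt_right (hWs.intervalIntegrable _ _)
      hWs.stronglyMeasurable.stronglyMeasurableAtFilter hWs.continuousAt
  have h2 : HasDerivAt (fun t : ℝ => A (x + t * e) - A x) (fderiv ℝ A x e) 0 := by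
    have h3 : HasDerivAt (fun s : ℝ => (s : ℂ)) 1 0 := Complex.ofRealCLM.hasDerivAt
    have h4 : HasDerivAt (fun s : ℝ => x + s * e) e 0 := by
      have := (h3.mul_const e).const_add x
      simpa using this
    have h5 : HasFDerivAt A (fderiv ℝ A x) (x + ((0 : ℝ) : ℂ) * e) := by
      simpa using (sA.differentiable (by simp) x).hasFDerivAt
    exact (h5.comp_hasDerivAt 0 h4).sub_const _
  have h6 : HasDerivWithinAt (fun t : ℝ => A (x + t * e) - A x) (W (x + (0 : ℝ) * e)) (Ici 0) 0 := by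
    refine h1.hasDerivWithinAt.congr (fun t ht => ?_) ?_
    · exact (line_eq hl A sA pA x e hf pf t ht).symm
    · exact (line_eq hl A sA pA x e hf pf 0 le_rfl).symm
  have h7 := (uniqueDiffWithinAt_Ici (0 : ℝ)).eq_deriv _ h2.hasDerivWithinAt h6
  rw [h7]
  simp [hW]

open RepDAux in
theorem rep_grad' (hl : 0 < ℓ) (A : ℂ → ℝ) (sA : ContDiff ℝ ∞ A) (pA : Per ℓ A) (k : ℝ) (f : ℂ → ℝ)
    (hf : ∀ z, lap A z = k - f z) (x e : ℂ) :
    fderiv ℝ A x e = ∫ y in Q ℓ, fderiv ℝ (Gl ℓ) (x - y) e * f y := by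
  have h0 : Continuous (lap A) := by
    rw [continuous_iff_continuousAt]
    intro z
    have h2 : ContDiffAt ℝ ((1 : ℕ) + 1 : ℕ) A z := (sA.of_le (by exact WithTop.coe_le_coe.2 (by exact_mod_cast le_top))).contDiffAt
    have h3 := contDiffAt_dx A z 1 h2
    have h4 := (contDiffAt_dx (dx A) z 0 h3.1).1.continuousAt
    have h5 := (contDiffAt_dx (dy A) z 0 h3.2).2.continuousAt
    exact h4.add h5
  have pf : Per ℓ (fun y => -(lap A y)) := by
    have := per_lap A pA
    exact ⟨fun z => congrArg Neg.neg (this.1 z), fun z => congrArg Neg.neg (this.2 z)⟩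
  have hi := integrableOn_dG hl x e (fun y => -(lap A y)) h0.neg pf
  have hk : IntegrableOn (fun y => fderiv ℝ (Gl ℓ) (x - y) e * k) (Q ℓ) := (int_g_sub hl x e).mul_const k
  have h1 : ∫ y in Q ℓ, fderiv ℝ (Gl ℓ) (x - y) e * f y =
      (∫ y in Q ℓ, fderiv ℝ (Gl ℓ) (x - y) e * (-(lap A y))) + ∫ y in Q ℓ, fderiv ℝ (Gl ℓ) (x - y) e * k := by
    rw [← integral_add hi hk]
    refine integral_congr_ae (Eventually.of_forall fun y => ?_)
    simp only [hf y]
    ring
  rw [h1, integral_mul_const, int_g_zero hl x e, zero_mul, add_zero]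
  exact rep_grad hl A sA pA x e

end AO

end
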