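import Pool.Agent.Lib.AO.RepA
import Pool.Agent.Lib.AO.RepB
import Pool.Agent.Lib.AO.RepC
import Pool.Agent.Lib.AO.RepD
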