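import Pool.Agent.Lib.AO.SysB
import Pool.Agent.Lib.AO.Rep
import Pool.Agent.Lib.AO.KInt

/-
Module GradB (library AO, MP_7bfba2_an).
(2.1).  fderiv B x e = ∫ fderiv (Gl ℓ)(x-y) e qq(y) dy (rep_grad' with k = 8πc/ℓ²), |fderiv Gl (x-y)| <= C1/dl(x-y) (g_grad).
 gradB_small: kint_inv with f = qq, M = 1, m = 8πc, ρ = 2√c: <= C1(4π√c + 4π√c) = 8πC1 √c.
 gradB_holder: |fderiv Gl z - fderiv Gl z'| <= min(C‖z-z'‖/(dl z dl z'), C/dl z + C/dl z') <= C √‖z-z'‖ (1/(dl z √(dl z)) + 1/(dl z' √(dl z')))·2 (with X = 1/dl z, Y = 1/dl z':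
   min(t XY, X+Y) <= √(t XY (X+Y)) <= √t·2(X√X + Y√Y)).  kint_inv32 with M = 1, m = 8πc <= 8π, ρ = 1.
 (The points y with x - y in Lat ℓ form a null set.)
-/

set_option autoImplicit false

open Complex MeasureTheory Set Metric Filter
open scoped Real ContDiff Topology

noncomputable section

namespace AO

namespace GradBAux

theorem lat_ae (ℓ : ℝ) (x : ℂ) : ∀ᵐ y : ℂ, x - y ∉ Lat ℓ := by
  have hc : (Lat ℓ).Countable := by
    have h1 : Lat ℓ = Set.range (fun p : ℤ × ℤ => (ℓ : ℂ) * ((p.1 : ℂ) + (p.2 : ℂ) * Complex.I)) := by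
      ext z
      constructor
      · rintro ⟨m, n, h⟩
        exact ⟨(m, n), h.symm⟩
      · rintro ⟨⟨m, n⟩, h⟩
        exact ⟨m, n, h.symm⟩
    rw [h1]
    exact Set.countable_range _
  have h2 : {y : ℂ | ¬ (x - y ∉ Lat ℓ)} = (fun z => x - z) '' Lat ℓ := by
    ext y
    simp only [mem_ofPred_eq, not_not, mem_image]
    constructor
    · intro h
      exact ⟨x - y, h, by ring⟩
    · rintro ⟨z, hz, rfl⟩
      simpa using hz
  rw [ae_iff, h2]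
  exact (hc.image _).measure_zero _

/-- Interpolation of the two kernel bounds. -/
theorem interp (D C t X Y : ℝ) (hC : 0 ≤ C) (ht : 0 ≤ t) (hX : 0 ≤ X) (hY : 0 ≤ Y) (hD : 0 ≤ D)
    (h1 : D ≤ C * (t * (X * Y))) (h2 : D ≤ C * (X + Y)) : D ≤ C * √t * (X * √X + Y * √Y) := by
  have hsq : D ^ 2 ≤ (C * √t * (X * √X + Y * √Y)) ^ 2 := by
    have e1 : D ^ 2 ≤ (C * (t * (X * Y))) * (C * (X + Y)) := by
      rw [sq]
      exact mul_le_mul h1 h2 hD (hD.trans h1)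
    have e2 : (C * √t * (X * √X + Y * √Y)) ^ 2 = C ^ 2 * t * (X ^ 3 + Y ^ 3 + 2 * (X * √X) * (Y * √Y)) := by
      have a1 : √t ^ 2 = t := Real.sq_sqrt ht
      have a2 : √X ^ 2 = X := Real.sq_sqrt hX
      have a3 : √Y ^ 2 = Y := Real.sq_sqrt hY
      calc (C * √t * (X * √X + Y * √Y)) ^ 2
          = C ^ 2 * √t ^ 2 * (X ^ 2 * √X ^ 2 + Y ^ 2 * √Y ^ 2 + 2 * (X * √X) * (Y * √Y)) := by ring
        _ = C ^ 2 * t * (X ^ 3 + Y ^ 3 + 2 * (X * √X) * (Y * √Y)) := by rw [a1, a2, a3]; ring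
    rw [e2]
    refine e1.trans ?_
    have e3 : X ^ 2 * Y + X * Y ^ 2 ≤ X ^ 3 + Y ^ 3 := by nlinarith [mul_nonneg (add_nonneg hX hY) (sq_nonneg (X - Y))]
    have e4 : 0 ≤ 2 * (X * √X) * (Y * √Y) := by positivity
    have e5 : 0 ≤ C ^ 2 * t := by positivity
    calc (C * (t * (X * Y))) * (C * (X + Y)) = C ^ 2 * t * (X ^ 2 * Y + X * Y ^ 2) := by ring
      _ ≤ C ^ 2 * t * (X ^ 3 + Y ^ 3 + 2 * (X * √X) * (Y * √Y)) := mul_le_mul_of_nonneg_left (by linarith) e5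
  have hn : 0 ≤ C * √t * (X * √X + Y * √Y) := by positivity
  exact le_of_sq_le_sq hsq hn

end GradBAux

open GradBAux

theorem gradB_small : ∃ C : ℝ, 1 ≤ C ∧ ∀ (c ℓ : ℝ) (N : ℕ) (A B : ℂ → ℝ), Sys c ℓ N A B → ∀ z : ℂ,
    ‖fderiv ℝ B z‖ ≤ C * √c := by
  obtain ⟨C1, hC1, hg⟩ := g_grad
  refine ⟨(C1 + 1) * (8 * π), ?_, fun c ℓ N A B h x => ?_⟩
  · have := Real.pi_gt_three
    nlinarith
  have hc := h.c0
  have hs : 0 < √c := Real.sqrt_pos.2 hc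
  have hsq : √c * √c = c := Real.mul_self_sqrt hc.le
  obtain ⟨hi, hb⟩ := kint_inv h.l0 (qq c A B) h.per_qq h.contDiff_qq.continuous h.qq_nonneg 1 (8 * π * c)
    h.qq_le h.int_qq.le x (2 * √c) (by positivity)
  have hI0 : 0 ≤ ∫ y in Q ℓ, qq c A B y / dl ℓ (x - y) :=
    integral_nonneg fun y => div_nonneg (h.qq_nonneg y) (dl_nonneg _)
  have hbound : ∫ y in Q ℓ, qq c A B y / dl ℓ (x - y) ≤ 8 * π * √c := by
    refine hb.trans (le_of_eq ?_)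
    have : 8 * π * c / (2 * √c) = 4 * π * √c := by
      rw [div_eq_iff (by positivity)]
      calc 8 * π * c = 8 * π * (√c * √c) := by rw [hsq]
        _ = 4 * π * √c * (2 * √c) := by ring
    rw [this]; ring
  have key : ‖fderiv ℝ B x‖ ≤ C1 * ∫ y in Q ℓ, qq c A B y / dl ℓ (x - y) := by
    refine ContinuousLinearMap.opNorm_le_bound _ (mul_nonneg hC1.le hI0) fun e => ?_
    rw [rep_grad' h.l0 B h.sB h.pB (8 * π * c / ℓ ^ 2) (qq c A B) h.eB x e]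
    have h1 : ∀ᵐ y ∂(volume.restrict (Q ℓ)), ‖fderiv ℝ (Gl ℓ) (x - y) e * qq c A B y‖ ≤
        (C1 * ‖e‖) * (qq c A B y / dl ℓ (x - y)) := by
      filter_upwards [ae_restrict_of_ae (lat_ae ℓ x)] with y hy
      have h2 := (hg ℓ (x - y) h.l0 hy).2
      rw [norm_mul, Real.norm_of_nonneg (h.qq_nonneg y)]
      calc ‖fderiv ℝ (Gl ℓ) (x - y) e‖ * qq c A B y
          ≤ (‖fderiv ℝ (Gl ℓ) (x - y)‖ * ‖e‖) * qq c A B y :=
            mul_le_mul_of_nonneg_right (ContinuousLinearMap.le_opNorm _ _) (h.qq_nonneg y)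
        _ ≤ (C1 / dl ℓ (x - y) * ‖e‖) * qq c A B y :=
            mul_le_mul_of_nonneg_right (mul_le_mul_of_nonneg_right h2 (norm_nonneg _)) (h.qq_nonneg y)
        _ = (C1 * ‖e‖) * (qq c A B y / dl ℓ (x - y)) := by ring
    have h3 := norm_integral_le_of_norm_le (hi.const_mul (C1 * ‖e‖)) h1
    rw [integral_const_mul] at h3
    refine h3.trans (le_of_eq ?_)
    ring
  calc ‖fderiv ℝ B x‖ ≤ C1 * ∫ y in Q ℓ, qq c A B y / dl ℓ (x - y) := key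
    _ ≤ C1 * (8 * π * √c) := mul_le_mul_of_nonneg_left hbound hC1.le
    _ ≤ (C1 + 1) * (8 * π * √c) := mul_le_mul_of_nonneg_right (by linarith) (by positivity)
    _ = (C1 + 1) * (8 * π) * √c := by ring

theorem gradB_holder : ∃ C : ℝ, 1 ≤ C ∧ ∀ (c ℓ : ℝ) (N : ℕ) (A B : ℂ → ℝ), Sys c ℓ N A B → ∀ z z' : ℂ,
    ‖fderiv ℝ B z - fderiv ℝ B z'‖ ≤ C * √‖z - z'‖ := by
  obtain ⟨C1, hC1, hg⟩ := g_grad
  obtain ⟨C2, hC2, hd⟩ := g_diff
  refine ⟨(C1 + C2 + 1) * (24 * π), ?_, fun c ℓ N A B h z z' => ?_⟩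
  · have := Real.pi_gt_three
    nlinarith
  have hk : ∀ x : ℂ, IntegrableOn (fun y => qq c A B y / (dl ℓ (x - y) * √(dl ℓ (x - y)))) (Q ℓ) ∧
      ∫ y in Q ℓ, qq c A B y / (dl ℓ (x - y) * √(dl ℓ (x - y))) ≤ 12 * π := by
    intro x
    obtain ⟨hi, hb⟩ := kint_inv32 h.l0 (qq c A B) h.per_qq h.contDiff_qq.continuous h.qq_nonneg 1 (8 * π)
      h.qq_le (by rw [h.int_qq]; nlinarith [h.c1, Real.pi_pos]) x 1 one_pos
    refine ⟨hi, hb.trans (le_of_eq ?_)⟩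
    rw [Real.sqrt_one]; ring
  set K : ℝ := C1 + C2 with hK
  have hK0 : 0 ≤ K := by positivity
  have key : ‖fderiv ℝ B z - fderiv ℝ B z'‖ ≤ K * √‖z - z'‖ *
      ((∫ y in Q ℓ, qq c A B y / (dl ℓ (z - y) * √(dl ℓ (z - y)))) +
        ∫ y in Q ℓ, qq c A B y / (dl ℓ (z' - y) * √(dl ℓ (z' - y)))) := by
    have hn : ∀ x : ℂ, 0 ≤ ∫ y in Q ℓ, qq c A B y / (dl ℓ (x - y) * √(dl ℓ (x - y))) := fun x =>
      integral_nonneg fun y => div_nonneg (h.qq_nonneg y) (mul_nonneg (dl_nonneg _) (Real.sqrt_nonneg _))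
    refine ContinuousLinearMap.opNorm_le_bound _
      (mul_nonneg (mul_nonneg hK0 (Real.sqrt_nonneg _)) (add_nonneg (hn z) (hn z'))) fun e => ?_
    have hIz := integrableOn_dG h.l0 z e (qq c A B) h.contDiff_qq.continuous h.per_qq
    have hIz' := integrableOn_dG h.l0 z' e (qq c A B) h.contDiff_qq.continuous h.per_qq
    rw [ContinuousLinearMap.sub_apply, rep_grad' h.l0 B h.sB h.pB (8 * π * c / ℓ ^ 2) (qq c A B) h.eB z e,
      rep_grad' h.l0 B h.sB h.pB (8 * π * c / ℓ ^ 2) (qq c A B) h.eB z' e, ← integral_sub hIz hIz']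
    have h1 : ∀ᵐ y ∂(volume.restrict (Q ℓ)),
        ‖fderiv ℝ (Gl ℓ) (z - y) e * qq c A B y - fderiv ℝ (Gl ℓ) (z' - y) e * qq c A B y‖ ≤
        (K * √‖z - z'‖ * ‖e‖) * (qq c A B y / (dl ℓ (z - y) * √(dl ℓ (z - y))) +
          qq c A B y / (dl ℓ (z' - y) * √(dl ℓ (z' - y)))) := by
      filter_upwards [ae_restrict_of_ae (lat_ae ℓ z), ae_restrict_of_ae (lat_ae ℓ z')] with y hy hy'
      have a1 := (hg ℓ (z - y) h.l0 hy).2
      have a2 := (hg ℓ (z' - y) h.l0 hy').2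
      have a3 := hd ℓ (z - y) (z' - y) h.l0 hy hy'
      have p1 : 0 < dl ℓ (z - y) := (dl_pos_iff h.l0 _).2 hy
      have p2 : 0 < dl ℓ (z' - y) := (dl_pos_iff h.l0 _).2 hy'
      have e0 : z - y - (z' - y) = z - z' := by ring
      rw [e0] at a3
      set a := dl ℓ (z - y) with ha
      set b := dl ℓ (z' - y) with hb
      set D := ‖fderiv ℝ (Gl ℓ) (z - y) - fderiv ℝ (Gl ℓ) (z' - y)‖ with hD
      have t0 : 0 ≤ ‖z - z'‖ := norm_nonneg _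
      have b1 : D ≤ K * (‖z - z'‖ * (a⁻¹ * b⁻¹)) := by
        have q1 : C2 * ‖z - z'‖ / (a * b) = C2 * (‖z - z'‖ * (a⁻¹ * b⁻¹)) := by
          rw [div_eq_mul_inv, mul_inv]; ring
        rw [q1] at a3
        refine a3.trans (mul_le_mul_of_nonneg_right (by rw [hK]; linarith) (by positivity))
      have b2 : D ≤ K * (a⁻¹ + b⁻¹) := by
        calc D ≤ ‖fderiv ℝ (Gl ℓ) (z - y)‖ + ‖fderiv ℝ (Gl ℓ) (z' - y)‖ := norm_sub_le _ _
          _ ≤ C1 / a + C1 / b := add_le_add a1 a2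
          _ = C1 * (a⁻¹ + b⁻¹) := by rw [div_eq_mul_inv, div_eq_mul_inv]; ring
          _ ≤ K * (a⁻¹ + b⁻¹) := mul_le_mul_of_nonneg_right (by rw [hK]; linarith) (by positivity)
      have b3 := interp D K ‖z - z'‖ a⁻¹ b⁻¹ hK0 t0 (by positivity) (by positivity) (norm_nonneg _) b1 b2
      have c1 : fderiv ℝ (Gl ℓ) (z - y) e * qq c A B y - fderiv ℝ (Gl ℓ) (z' - y) e * qq c A B y =
          (fderiv ℝ (Gl ℓ) (z - y) - fderiv ℝ (Gl ℓ) (z' - y)) e * qq c A B y := by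
        rw [ContinuousLinearMap.sub_apply]; ring
      rw [c1, norm_mul, Real.norm_of_nonneg (h.qq_nonneg y)]
      have c2 : ‖(fderiv ℝ (Gl ℓ) (z - y) - fderiv ℝ (Gl ℓ) (z' - y)) e‖ ≤ D * ‖e‖ :=
        ContinuousLinearMap.le_opNorm _ _
      have c3 : a⁻¹ * √(a⁻¹) = 1 / (a * √a) := by
        rw [Real.sqrt_inv, ← mul_inv, one_div]
      have c4 : b⁻¹ * √(b⁻¹) = 1 / (b * √b) := by
        rw [Real.sqrt_inv, ← mul_inv, one_div]
      rw [c3, c4] at b3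
      calc ‖(fderiv ℝ (Gl ℓ) (z - y) - fderiv ℝ (Gl ℓ) (z' - y)) e‖ * qq c A B y
          ≤ (D * ‖e‖) * qq c A B y := mul_le_mul_of_nonneg_right c2 (h.qq_nonneg y)
        _ ≤ ((K * √‖z - z'‖ * (1 / (a * √a) + 1 / (b * √b))) * ‖e‖) * qq c A B y :=
            mul_le_mul_of_nonneg_right (mul_le_mul_of_nonneg_right b3 (norm_nonneg _)) (h.qq_nonneg y)
        _ = (K * √‖z - z'‖ * ‖e‖) * (qq c A B y / (a * √a) + qq c A B y / (b * √b)) := by ring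
    have h3 := norm_integral_le_of_norm_le (((hk z).1.add (hk z').1).const_mul (K * √‖z - z'‖ * ‖e‖)) h1
    rw [integral_const_mul] at h3
    refine h3.trans (le_of_eq ?_)
    have e5 : ∫ y in Q ℓ, (qq c A B y / (dl ℓ (z - y) * √(dl ℓ (z - y))) +
        qq c A B y / (dl ℓ (z' - y) * √(dl ℓ (z' - y)))) =
        (∫ y in Q ℓ, qq c A B y / (dl ℓ (z - y) * √(dl ℓ (z - y)))) +
        ∫ y in Q ℓ, qq c A B y / (dl ℓ (z' - y) * √(dl ℓ (z' - y))) := integral_add (hk z).1 (hk z').1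
    have e6 : ∫ y in Q ℓ, ((fun y => qq c A B y / (dl ℓ (z - y) * √(dl ℓ (z - y)))) +
        fun y => qq c A B y / (dl ℓ (z' - y) * √(dl ℓ (z' - y)))) y =
        ∫ y in Q ℓ, (qq c A B y / (dl ℓ (z - y) * √(dl ℓ (z - y))) +
        qq c A B y / (dl ℓ (z' - y) * √(dl ℓ (z' - y)))) := rfl
    rw [e6, e5]
    ring
  have hs0 : 0 ≤ √‖z - z'‖ := Real.sqrt_nonneg _
  calc ‖fderiv ℝ B z - fderiv ℝ B z'‖ ≤ K * √‖z - z'‖ * (12 * π + 12 * π) :=
        key.trans (mul_le_mul_of_nonneg_left (add_le_add (hk z).2 (hk z').2) (mul_nonneg hK0 hs0))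
    _ ≤ (C1 + C2 + 1) * (24 * π) * √‖z - z'‖ := by
        have : 0 ≤ √‖z - z'‖ * (24 * π) := by positivity
        rw [hK]; nlinarith

end AO

end
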