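import Pool.Agent.Lib.AO.Defs

/-
STUB Ode (library AO, MP_7bfba2_an). Replace the sorries, keep the statements.
LEMMA 3.2 (linear ODE lemma).  e_a = |a - (ε²+s²)|, e_h = ‖h - s‖, e_L = |L - 1| (all continuous on [0,r], zero at 0).  On (0,r):
  e_L' <= 2[K t^{-1/2} ‖h‖ + K t^{1/2} |L|] <= 2[K t^{-1/2}(t + e_h) + K t^{1/2}(1 + e_L)],
  e_h' <= K t^{-1/2} (ε²+t²+e_a) + K t^{1/2} (t + e_h) + e_L,     e_a' <= 2 e_h     (in the sense of integral inequalities, from the mean value inequality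
  or by integrating; the singularity t^{-1/2} at 0 is integrable: integrate from t0 > 0 and let t0 -> 0, using continuity at 0).
 Pass 1.  P := max over [0,r] of e_L, e_h/(t+ε), e_a/(ε²+t²) (continuous functions on a compact interval).  Then e_L <= C K (1+P)(r √r) [use ε <= r:
  ∫ K t^{-1/2} P (t+ε) <= K P (r√r + 2 ε √r) <= 3 K P r √r], then e_h/(t+ε) <= C K (1+P) r√r + sup e_L, and e_a/(ε²+t²) <= 2 sup e_h/(t+ε) (as ∫_0^s 2(t+ε) = s² + 2 s ε <= 2(s²+ε²)).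
  So P <= C K r√r (1+P), hence P <= 1 if C K r√r <= 1/2.
 Pass 2.  With e_L <= 1, e_h <= t+ε, e_a <= ε²+t²:  e_L(s) <= C K (s√s + ε√s);  e_h(s) <= C K (ε²√s + s²√s + ε s√s) <= C' K (ε²√s + s²√s) (AM-GM);
  e_a(s) <= 2∫ e_h <= C'' K (ε² s√s + s³√s) = C'' K s√s (ε²+s²).
-/

set_option autoImplicit false

open Complex MeasureTheory Set Metric Filter
open scoped Real ContDiff Topology

noncomputable section

namespace AO

namespace OdeAux

theorem d1 {t : ℝ} (ht : 0 < t) : HasDerivAt (fun t : ℝ => √t) (1 / (2 * √t)) t :=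
  Real.hasDerivAt_sqrt ht.ne'

theorem d3 {t : ℝ} (ht : 0 < t) : HasDerivAt (fun t : ℝ => t * √t) (3 / 2 * √t) t := by
  have h := (hasDerivAt_id t).mul (d1 ht)
  have h2 : 0 < √t := Real.sqrt_pos.2 ht
  have h3 : √t * √t = t := Real.mul_self_sqrt ht.le
  have h4 : 3 / 2 * √t = 1 * √t + id t * (1 / (2 * √t)) := by
    simp only [id]
    field_simp
    nlinarith
  rw [h4]
  exact h

theorem d5 {t : ℝ} (ht : 0 < t) : HasDerivAt (fun t : ℝ => t ^ 2 * √t) (5 / 2 * (t * √t)) t := by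
  have h := (hasDerivAt_id t).mul (d3 ht)
  have h4 : 5 / 2 * (t * √t) = 1 * (t * √t) + id t * (3 / 2 * √t) := by
    simp only [id]
    ring
  rw [h4]
  refine h.congr_of_eventuallyEq (Eventually.of_forall fun s => ?_)
  simp only [id, Pi.mul_apply]
  ring

theorem d7 {t : ℝ} (ht : 0 < t) : HasDerivAt (fun t : ℝ => t ^ 3 * √t) (7 / 2 * (t ^ 2 * √t)) t := by
  have h := (hasDerivAt_id t).mul (d5 ht)
  have h4 : 7 / 2 * (t ^ 2 * √t) = 1 * (t ^ 2 * √t) + id t * (5 / 2 * (t * √t)) := by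
    simp only [id]
    ring
  rw [h4]
  refine h.congr_of_eventuallyEq (Eventually.of_forall fun s => ?_)
  simp only [id, Pi.mul_apply]
  ring

theorem mvtC {r : ℝ} {f f' : ℝ → ℂ} {B B' : ℝ → ℝ} (hf : ContinuousOn f (Icc 0 r))
    (hd : ∀ s ∈ Ioo 0 r, HasDerivAt f (f' s) s) (hB : ContinuousOn B (Icc 0 r))
    (hBd : ∀ s ∈ Ioo 0 r, HasDerivAt B (B' s) s) (h0 : f 0 = 0) (hB0 : B 0 = 0)
    (hle : ∀ s ∈ Ioo 0 r, ‖f' s‖ ≤ B' s) : ∀ s ∈ Icc 0 r, ‖f s‖ ≤ B s := by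
  intro s hs
  have key : ∀ w : ℂ, ‖w‖ ≤ 1 → (w * f s).re ≤ B s := by
    intro w hw
    have hder : ∀ t ∈ Ioo 0 r, HasDerivAt (fun t => B t - (w * f t).re) (B' t - (w * f' t).re) t := by
      intro t ht
      exact (hBd t ht).sub (Complex.reCLM.hasFDerivAt.comp_hasDerivAt t ((hd t ht).const_mul w))
    have hmono : MonotoneOn (fun t => B t - (w * f t).re) (Icc 0 r) := by
      apply monotoneOn_of_deriv_nonneg (convex_Icc 0 r)
      · exact hB.sub (Complex.continuous_re.comp_continuousOn (continuousOn_const.mul hf))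
      · rw [interior_Icc]
        exact fun t ht => (hder t ht).differentiableAt.differentiableWithinAt
      · rw [interior_Icc]
        intro t ht
        rw [(hder t ht).deriv]
        have h1 : (w * f' t).re ≤ ‖f' t‖ := by
          refine (Complex.re_le_norm _).trans ?_
          rw [norm_mul]
          exact mul_le_of_le_one_left (norm_nonneg _) hw
        linarith [hle t ht]
    have h1 := hmono (left_mem_Icc.2 (hs.1.trans hs.2)) hs hs.1
    simp only [h0, hB0, mul_zero, Complex.zero_re, sub_zero] at h1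
    linarith
  by_cases hz : f s = 0
  · have h1 := key 0 (by simp)
    simpa [hz] using h1
  · have hn : 0 < ‖f s‖ := norm_pos_iff.2 hz
    have h1 := key ((starRingEnd ℂ) (f s) / (‖f s‖ : ℂ)) (by
      rw [norm_div, Complex.norm_conj, Complex.norm_real, norm_norm, div_self hn.ne'])
    have h2 : (starRingEnd ℂ) (f s) / (‖f s‖ : ℂ) * f s = (‖f s‖ : ℂ) := by
      have h3 : (starRingEnd ℂ) (f s) * f s = ((‖f s‖ ^ 2 : ℝ) : ℂ) := by
        rw [mul_comm, Complex.mul_conj, Complex.normSq_eq_norm_sq]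
      have h4 : (‖f s‖ : ℂ) ≠ 0 := by exact_mod_cast hn.ne'
      rw [div_mul_eq_mul_div, h3, div_eq_iff h4]
      push_cast
      ring
    rw [h2, Complex.ofReal_re] at h1
    exact h1

theorem mvtR {r : ℝ} {f f' : ℝ → ℝ} {B B' : ℝ → ℝ} (hf : ContinuousOn f (Icc 0 r))
    (hd : ∀ s ∈ Ioo 0 r, HasDerivAt f (f' s) s) (hB : ContinuousOn B (Icc 0 r))
    (hBd : ∀ s ∈ Ioo 0 r, HasDerivAt B (B' s) s) (h0 : f 0 = 0) (hB0 : B 0 = 0)
    (hle : ∀ s ∈ Ioo 0 r, |f' s| ≤ B' s) : ∀ s ∈ Icc 0 r, |f s| ≤ B s := by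
  intro s hs
  have h := mvtC (r := r) (f := fun t => (f t : ℂ)) (f' := fun t => (f' t : ℂ)) (B := B) (B' := B')
    (Complex.continuous_ofReal.comp_continuousOn hf) (fun t ht => (hd t ht).ofReal_comp) hB hBd
    (by simp [h0]) hB0 (fun t ht => by simpa using hle t ht) s hs
  simpa using h

/-- One pass: bounds with parameter `P` give better bounds. -/
theorem passL {ε r K P : ℝ} {L κ : ℝ → ℝ} {h τ β : ℝ → ℂ} (hε : 0 < ε) (hK : 0 ≤ K) (hP : 0 ≤ P)
    (hLc : ContinuousOn L (Icc 0 r))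
    (hL : ∀ s ∈ Ioo 0 r, HasDerivAt L
      (2 * (-(τ s) * (starRingEnd ℂ) (h s) - β s * L s + κ s * h s).re) s)
    (hL0 : L 0 = 1)
    (hτ : ∀ s ∈ Ioo 0 r, ‖τ s‖ + |κ s| ≤ K / √s) (hβ : ∀ s ∈ Ioo 0 r, ‖β s‖ ≤ K * √s)
    (bL : ∀ s ∈ Icc 0 r, |L s - 1| ≤ P) (bh : ∀ s ∈ Icc 0 r, ‖h s - s‖ ≤ P * (s + ε)) :
    ∀ s ∈ Icc 0 r, |L s - 1| ≤ K * (8 / 3 * (1 + P) * (s * √s) + 4 * P * ε * √s) := by
  refine mvtR (f := fun s => L s - 1) (hLc.sub continuousOn_const) (fun s hs => (hL s hs).sub_const 1)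
    (B' := fun s => K * (4 * (1 + P) * √s + 2 * P * ε / √s)) ?_ ?_ ?_ ?_ ?_
  · exact Continuous.continuousOn (by fun_prop)
  · intro s hs
    have h1 := (((d3 hs.1).const_mul (8 / 3 * (1 + P))).add ((d1 hs.1).const_mul (4 * P * ε))).const_mul K
    have h2 : K * (4 * (1 + P) * √s + 2 * P * ε / √s) =
        K * (8 / 3 * (1 + P) * (3 / 2 * √s) + 4 * P * ε * (1 / (2 * √s))) := by
      have h3 : 0 < √s := Real.sqrt_pos.2 hs.1
      field_simp
      ring
    rw [h2]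
    exact h1
  · simp [hL0]
  · simp
  · intro s hs
    have hs' : s ∈ Icc 0 r := ⟨hs.1.le, hs.2.le⟩
    have h3 : 0 < √s := Real.sqrt_pos.2 hs.1
    have h4 : √s * √s = s := Real.mul_self_sqrt hs.1.le
    have hh : ‖h s‖ ≤ s + P * (s + ε) := by
      have h5 : h s = (h s - s) + s := by ring
      calc ‖h s‖ = ‖(h s - s) + (s : ℂ)‖ := by rw [← h5]
        _ ≤ ‖h s - s‖ + ‖(s : ℂ)‖ := norm_add_le _ _
        _ ≤ P * (s + ε) + s := by
            rw [Complex.norm_real, Real.norm_of_nonneg hs.1.le]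
            linarith [bh s hs']
        _ = s + P * (s + ε) := by ring
    have hLs : |L s| ≤ 1 + P := by
      have h5 : L s = (L s - 1) + 1 := by ring
      calc |L s| = |(L s - 1) + 1| := by rw [← h5]
        _ ≤ |L s - 1| + |(1 : ℝ)| := abs_add_le _ _
        _ ≤ P + 1 := by rw [abs_one]; linarith [bL s hs']
        _ = 1 + P := by ring
    have h6 : |(-(τ s) * (starRingEnd ℂ) (h s) - β s * L s + κ s * h s).re| ≤
        (‖τ s‖ + |κ s|) * ‖h s‖ + ‖β s‖ * |L s| := by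
      refine (Complex.abs_re_le_norm _).trans ?_
      calc ‖-(τ s) * (starRingEnd ℂ) (h s) - β s * L s + κ s * h s‖
          ≤ ‖-(τ s) * (starRingEnd ℂ) (h s)‖ + ‖β s * L s‖ + ‖(κ s : ℂ) * h s‖ :=
            (norm_add_le _ _).trans (add_le_add_left (norm_sub_le _ _) _)
        _ = (‖τ s‖ + |κ s|) * ‖h s‖ + ‖β s‖ * |L s| := by
            rw [norm_mul, norm_mul, norm_mul, norm_neg, Complex.norm_conj, Complex.norm_real,
              Complex.norm_real, Real.norm_eq_abs, Real.norm_eq_abs]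
            ring
    have h7 : (‖τ s‖ + |κ s|) * ‖h s‖ ≤ K / √s * (s + P * (s + ε)) :=
      mul_le_mul (hτ s hs) hh (norm_nonneg _) (by positivity)
    have h8 : ‖β s‖ * |L s| ≤ K * √s * (1 + P) :=
      mul_le_mul (hβ s hs) hLs (abs_nonneg _) (by positivity)
    have h9 : K / √s * (s + P * (s + ε)) = K * ((1 + P) * √s + P * ε / √s) := by
      field_simp
      linear_combination (-(1 + P)) * K * h4
    rw [abs_mul, abs_two]
    calc 2 * |(-(τ s) * (starRingEnd ℂ) (h s) - β s * L s + κ s * h s).re|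
        ≤ 2 * (K * ((1 + P) * √s + P * ε / √s) + K * √s * (1 + P)) := by linarith
      _ = K * (4 * (1 + P) * √s + 2 * P * ε / √s) := by ring

theorem passH {ε r K P : ℝ} {a L κ : ℝ → ℝ} {h τ β : ℝ → ℂ} {c0 c1 c2 : ℝ} (hε : 0 < ε) (hK : 0 ≤ K)
    (hP : 0 ≤ P) (hhc : ContinuousOn h (Icc 0 r))
    (hh : ∀ s ∈ Ioo 0 r, HasDerivAt h (-(τ s) * a s - β s * h s + L s + κ s * a s) s)
    (hh0 : h 0 = 0)
    (hτ : ∀ s ∈ Ioo 0 r, ‖τ s‖ + |κ s| ≤ K / √s) (hβ : ∀ s ∈ Ioo 0 r, ‖β s‖ ≤ K * √s)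
    (bL : ∀ s ∈ Icc 0 r, |L s - 1| ≤ c0 + c1 * (s * √s) + c2 * √s)
    (bh : ∀ s ∈ Icc 0 r, ‖h s - s‖ ≤ P * (s + ε))
    (ba : ∀ s ∈ Icc 0 r, |a s - (ε ^ 2 + s ^ 2)| ≤ P * (ε ^ 2 + s ^ 2)) :
    ∀ s ∈ Icc 0 r, ‖h s - s‖ ≤ K * (1 + P) * (2 * ε ^ 2 * √s + 4 / 5 * (s ^ 2 * √s)) +
      K * P * ε * (2 / 3 * (s * √s)) + (c0 * s + c1 * (2 / 5 * (s ^ 2 * √s)) +
      c2 * (2 / 3 * (s * √s))) := by
  refine mvtC (f := fun s => h s - (s : ℂ)) (hhc.sub Complex.continuous_ofReal.continuousOn)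
    (f' := fun s => (-(τ s) * a s - β s * h s + L s + κ s * a s) - ((1 : ℝ) : ℂ))
    (fun s hs => (hh s hs).sub (hasDerivAt_id s).ofReal_comp)
    (B' := fun s => K * (1 + P) * (ε ^ 2 / √s + 2 * (s * √s)) + K * P * ε * √s +
      (c0 + c1 * (s * √s) + c2 * √s)) ?_ ?_ ?_ ?_ ?_
  · exact Continuous.continuousOn (by fun_prop)
  · intro s hs
    have h1 := (((((d1 hs.1).const_mul (2 * ε ^ 2)).add ((d5 hs.1).const_mul (4 / 5))).const_mul
      (K * (1 + P))).add (((d3 hs.1).const_mul (2 / 3)).const_mul (K * P * ε))).add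
      ((((hasDerivAt_id s).const_mul c0).add (((d5 hs.1).const_mul (2 / 5)).const_mul c1)).add
        (((d3 hs.1).const_mul (2 / 3)).const_mul c2))
    have h3 : 0 < √s := Real.sqrt_pos.2 hs.1
    have h2 : K * (1 + P) * (ε ^ 2 / √s + 2 * (s * √s)) + K * P * ε * √s +
      (c0 + c1 * (s * √s) + c2 * √s) = K * (1 + P) * (2 * ε ^ 2 * (1 / (2 * √s)) +
        4 / 5 * (5 / 2 * (s * √s))) + K * P * ε * (2 / 3 * (3 / 2 * √s)) +
        (c0 * 1 + c1 * (2 / 5 * (5 / 2 * (s * √s))) + c2 * (2 / 3 * (3 / 2 * √s))) := by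
      field_simp
      ring
    rw [h2]
    exact h1
  · simp [hh0]
  · simp
  · intro s hs
    have hs' : s ∈ Icc 0 r := ⟨hs.1.le, hs.2.le⟩
    have h3 : 0 < √s := Real.sqrt_pos.2 hs.1
    have h4 : √s * √s = s := Real.mul_self_sqrt hs.1.le
    have hh : ‖h s‖ ≤ s + P * (s + ε) := by
      have h5 : h s = (h s - s) + s := by ring
      calc ‖h s‖ = ‖(h s - s) + (s : ℂ)‖ := by rw [← h5]
        _ ≤ ‖h s - s‖ + ‖(s : ℂ)‖ := norm_add_le _ _
        _ ≤ P * (s + ε) + s := by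
            rw [Complex.norm_real, Real.norm_of_nonneg hs.1.le]
            linarith [bh s hs']
        _ = s + P * (s + ε) := by ring
    have has : |a s| ≤ (1 + P) * (ε ^ 2 + s ^ 2) := by
      have h5 : a s = (a s - (ε ^ 2 + s ^ 2)) + (ε ^ 2 + s ^ 2) := by ring
      calc |a s| = |(a s - (ε ^ 2 + s ^ 2)) + (ε ^ 2 + s ^ 2)| := by rw [← h5]
        _ ≤ |a s - (ε ^ 2 + s ^ 2)| + |ε ^ 2 + s ^ 2| := abs_add_le _ _
        _ ≤ P * (ε ^ 2 + s ^ 2) + (ε ^ 2 + s ^ 2) := by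
            rw [abs_of_nonneg (by positivity : (0 : ℝ) ≤ ε ^ 2 + s ^ 2)]
            linarith [ba s hs']
        _ = (1 + P) * (ε ^ 2 + s ^ 2) := by ring
    have h6 : ‖(-(τ s) * a s - β s * h s + L s + κ s * a s) - ((1 : ℝ) : ℂ)‖ ≤
        (‖τ s‖ + |κ s|) * |a s| + ‖β s‖ * ‖h s‖ + |L s - 1| := by
      have h5 : (-(τ s) * a s - β s * h s + L s + κ s * a s) - ((1 : ℝ) : ℂ) =
          (-(τ s) * a s - β s * h s + κ s * a s) + ((L s - 1 : ℝ) : ℂ) := by
        push_cast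
        ring
      rw [h5]
      calc ‖(-(τ s) * a s - β s * h s + κ s * a s) + ((L s - 1 : ℝ) : ℂ)‖
          ≤ ‖-(τ s) * (a s : ℂ)‖ + ‖β s * h s‖ + ‖(κ s : ℂ) * (a s : ℂ)‖ + ‖((L s - 1 : ℝ) : ℂ)‖ := by
            refine (norm_add_le _ _).trans (add_le_add_left ?_ _)
            exact (norm_add_le _ _).trans (add_le_add_left (norm_sub_le _ _) _)
        _ = (‖τ s‖ + |κ s|) * |a s| + ‖β s‖ * ‖h s‖ + |L s - 1| := by
            rw [norm_mul, norm_mul, norm_mul, norm_neg, Complex.norm_real,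
              Complex.norm_real, Complex.norm_real, Real.norm_eq_abs, Real.norm_eq_abs,
              Real.norm_eq_abs]
            ring
    have h7 : (‖τ s‖ + |κ s|) * |a s| ≤ K / √s * ((1 + P) * (ε ^ 2 + s ^ 2)) :=
      mul_le_mul (hτ s hs) has (abs_nonneg _) (by positivity)
    have h8 : ‖β s‖ * ‖h s‖ ≤ K * √s * (s + P * (s + ε)) :=
      mul_le_mul (hβ s hs) hh (norm_nonneg _) (by positivity)
    have h9 : K / √s * ((1 + P) * (ε ^ 2 + s ^ 2)) = K * (1 + P) * (ε ^ 2 / √s + s * √s) := by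
      field_simp
      linear_combination (-s) * K * h4
    calc ‖(-(τ s) * a s - β s * h s + L s + κ s * a s) - ((1 : ℝ) : ℂ)‖
        ≤ K * (1 + P) * (ε ^ 2 / √s + s * √s) + K * √s * (s + P * (s + ε)) +
          (c0 + c1 * (s * √s) + c2 * √s) := by linarith [bL s hs']
      _ = K * (1 + P) * (ε ^ 2 / √s + 2 * (s * √s)) + K * P * ε * √s +
          (c0 + c1 * (s * √s) + c2 * √s) := by ring

end OdeAux

open OdeAux

theorem ode_lemma : ∃ C : ℝ, 1 ≤ C ∧ ∀ (ε r K : ℝ) (a L κ : ℝ → ℝ) (h τ β : ℝ → ℂ), 0 < ε → ε ≤ r → 0 ≤ K →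
    C * K * (r * √r) ≤ 1 / 2 → ContinuousOn a (Icc 0 r) → ContinuousOn L (Icc 0 r) → ContinuousOn h (Icc 0 r) →
    (∀ s ∈ Ioo 0 r, HasDerivAt a (2 * (h s).re) s) →
    (∀ s ∈ Ioo 0 r, HasDerivAt h (-(τ s) * a s - β s * h s + L s + κ s * a s) s) →
    (∀ s ∈ Ioo 0 r, HasDerivAt L
      (2 * (-(τ s) * (starRingEnd ℂ) (h s) - β s * L s + κ s * h s).re) s) →
    a 0 = ε ^ 2 → h 0 = 0 → L 0 = 1 →
    (∀ s ∈ Ioo 0 r, ‖τ s‖ + |κ s| ≤ K / √s) → (∀ s ∈ Ioo 0 r, ‖β s‖ ≤ K * √s) →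
    ∀ s ∈ Icc 0 r, |a s - (ε ^ 2 + s ^ 2)| ≤ C * K * (s * √s) * (ε ^ 2 + s ^ 2) := by
  refine ⟨16, by norm_num, ?_⟩
  intro ε r K a L κ h τ β hε hεr hK hC hac hLc hhc ha hh hL ha0 hh0 hL0 hτ hβ
  have hr : 0 < r := hε.trans_le hεr
  -- bound of the derivative of `a - (ε² + s²)`
  have hda : ∀ s ∈ Ioo 0 r, HasDerivAt (fun s => a s - (ε ^ 2 + s ^ 2)) (2 * (h s - s).re) s := by
    intro s hs
    have h1 := (ha s hs).sub (((hasDerivAt_id s).pow 2).const_add (ε ^ 2))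
    have h2 : 2 * (h s - s).re = 2 * (h s).re - (2 : ℕ) * id s ^ (2 - 1) * 1 := by
      simp
      ring
    rw [h2]
    exact h1
  have hdac : ContinuousOn (fun s => a s - (ε ^ 2 + s ^ 2)) (Icc 0 r) :=
    hac.sub (Continuous.continuousOn (by fun_prop))
  have hda' : ∀ s, |2 * (h s - s).re| ≤ 2 * ‖h s - s‖ := by
    intro s
    rw [abs_mul, abs_two]
    exact mul_le_mul_of_nonneg_left (Complex.abs_re_le_norm _) (by norm_num)
  -- the maximum
  obtain ⟨P, hP0, bL, bh, ba, hmax⟩ : ∃ P : ℝ, 0 ≤ P ∧ (∀ s ∈ Icc 0 r, |L s - 1| ≤ P) ∧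
      (∀ s ∈ Icc 0 r, ‖h s - s‖ ≤ P * (s + ε)) ∧
      (∀ s ∈ Icc 0 r, |a s - (ε ^ 2 + s ^ 2)| ≤ P * (ε ^ 2 + s ^ 2)) ∧
      ∀ Q : ℝ, (∀ s ∈ Icc 0 r, |L s - 1| ≤ Q) → (∀ s ∈ Icc 0 r, ‖h s - s‖ ≤ Q * (s + ε)) →
        (∀ s ∈ Icc 0 r, |a s - (ε ^ 2 + s ^ 2)| ≤ Q * (ε ^ 2 + s ^ 2)) → P ≤ Q := by
    have hcont : ContinuousOn (fun s => max (|L s - 1|) (max (‖h s - s‖ / (s + ε))
        (|a s - (ε ^ 2 + s ^ 2)| / (ε ^ 2 + s ^ 2)))) (Icc 0 r) := by
      refine (continuous_abs.comp_continuousOn (hLc.sub continuousOn_const)).sup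
        (ContinuousOn.sup ?_ ?_)
      · refine ContinuousOn.div ((hhc.sub Complex.continuous_ofReal.continuousOn).norm)
          (Continuous.continuousOn (by fun_prop)) ?_
        intro s hs
        have := hs.1
        positivity
      · refine ContinuousOn.div (continuous_abs.comp_continuousOn hdac)
          (Continuous.continuousOn (by fun_prop)) ?_
        intro s _
        positivity
    obtain ⟨t, ht, hmx⟩ := isCompact_Icc.exists_isMaxOn (nonempty_Icc.2 hr.le) hcont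
    refine ⟨max (|L t - 1|) (max (‖h t - t‖ / (t + ε))
        (|a t - (ε ^ 2 + t ^ 2)| / (ε ^ 2 + t ^ 2))), ?_, ?_, ?_, ?_, ?_⟩
    · exact (abs_nonneg _).trans (le_max_left _ _)
    · intro s hs
      exact (le_max_left _ _).trans (hmx hs)
    · intro s hs
      have h1 : 0 < s + ε := by linarith [hs.1]
      rw [← div_le_iff₀ h1]
      exact ((le_max_left _ _).trans (le_max_right _ _)).trans (hmx hs)
    · intro s hs
      have h1 : 0 < ε ^ 2 + s ^ 2 := by positivity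
      rw [← div_le_iff₀ h1]
      exact ((le_max_right _ _).trans (le_max_right _ _)).trans (hmx hs)
    · intro Q h1 h2 h3
      have h4 : 0 < t + ε := by linarith [ht.1]
      have h5 : 0 < ε ^ 2 + t ^ 2 := by positivity
      exact max_le (h1 t ht) (max_le ((div_le_iff₀ h4).2 (h2 t ht)) ((div_le_iff₀ h5).2 (h3 t ht)))
  set R : ℝ := r * √r with hR
  have hR0 : 0 ≤ R := by positivity
  -- elementary inequalities
  have e1 : ∀ s ∈ Icc 0 r, s * √s ≤ R := by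
    intro s hs
    exact mul_le_mul hs.2 (Real.sqrt_le_sqrt hs.2) (Real.sqrt_nonneg _) hr.le
  have e2 : ∀ s ∈ Icc 0 r, ε * √s ≤ R := by
    intro s hs
    exact mul_le_mul hεr (Real.sqrt_le_sqrt hs.2) (Real.sqrt_nonneg _) hr.le
  have hP1 : P ≤ 1 := by
    have pL := passL hε hK hP0 hLc hL hL0 hτ hβ bL bh
    have qL : ∀ s ∈ Icc 0 r, |L s - 1| ≤ 7 * K * (1 + P) * R + 0 * (s * √s) + 0 * √s := by
      intro s hs
      refine (pL s hs).trans ?_
      have h1 : (1 + P) * (s * √s) ≤ (1 + P) * R := mul_le_mul_of_nonneg_left (e1 s hs) (by linarith)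
      have h2 : P * (ε * √s) ≤ P * R := mul_le_mul_of_nonneg_left (e2 s hs) hP0
      have h3 : 8 / 3 * (1 + P) * (s * √s) + 4 * P * ε * √s ≤ 7 * (1 + P) * R := by nlinarith
      have h4 := mul_le_mul_of_nonneg_left h3 hK
      linarith
    have pH := passH hε hK hP0 hhc hh hh0 hτ hβ qL bh ba
    have qH : ∀ s ∈ Icc 0 r, ‖h s - s‖ ≤ 8 * K * (1 + P) * R * (s + ε) := by
      intro s hs
      refine (pH s hs).trans ?_
      have hs0 : 0 ≤ s := hs.1
      have hq := Real.sqrt_nonneg s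
      have h1 : ε ^ 2 * √s ≤ ε * R := by
        have := mul_le_mul_of_nonneg_left (e2 s hs) hε.le
        nlinarith
      have h2 : s ^ 2 * √s ≤ s * R := by
        have := mul_le_mul_of_nonneg_left (e1 s hs) hs0
        nlinarith
      have h3 : ε * (s * √s) ≤ ε * R := mul_le_mul_of_nonneg_left (e1 s hs) hε.le
      have h4 : (1 + P) * (2 * ε ^ 2 * √s + 4 / 5 * (s ^ 2 * √s)) + P * ε * (2 / 3 * (s * √s)) ≤
          (1 + P) * R * (s + 3 * ε) := by
        have h5 : P * (ε * (s * √s)) ≤ (1 + P) * (ε * R) :=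
          mul_le_mul (by linarith) h3 (by positivity) (by linarith)
        have h6 : (1 + P) * (2 * ε ^ 2 * √s + 4 / 5 * (s ^ 2 * √s)) ≤
            (1 + P) * (2 * (ε * R) + 4 / 5 * (s * R)) :=
          mul_le_mul_of_nonneg_left (by linarith) (by linarith)
        have h7 : 0 ≤ (1 + P) * (s * R) := by positivity
        have h8 : 0 ≤ (1 + P) * (ε * R) := by positivity
        linarith
      have h9 := mul_le_mul_of_nonneg_left h4 hK
      have h10 : 0 ≤ K * (1 + P) * R * ε := by positivity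
      linarith
    have qA : ∀ s ∈ Icc 0 r, |a s - (ε ^ 2 + s ^ 2)| ≤ 16 * K * (1 + P) * R * (ε ^ 2 + s ^ 2) := by
      have pA := mvtR hdac hda (B := fun s => 8 * K * (1 + P) * R * (s ^ 2 + 2 * ε * s))
        (B' := fun s => 2 * (8 * K * (1 + P) * R * (s + ε))) (Continuous.continuousOn (by fun_prop))
        (fun s _ => by
          have h1 := (((hasDerivAt_id s).pow 2).add ((hasDerivAt_id s).const_mul (2 * ε))).const_mul
            (8 * K * (1 + P) * R)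
          have h2 : 2 * (8 * K * (1 + P) * R * (s + ε)) =
            8 * K * (1 + P) * R * ((2 : ℕ) * id s ^ (2 - 1) * 1 + 2 * ε * 1) := by
            simp
            ring
          rw [h2]
          exact h1) (by simp [ha0]) (by simp)
        (fun s hs => (hda' s).trans (mul_le_mul_of_nonneg_left (qH s ⟨hs.1.le, hs.2.le⟩) (by norm_num)))
      intro s hs
      refine (pA s hs).trans ?_
      have h1 : s ^ 2 + 2 * ε * s ≤ 2 * (ε ^ 2 + s ^ 2) := by nlinarith [sq_nonneg (s - ε)]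
      have h2 := mul_le_mul_of_nonneg_left h1 (by positivity : 0 ≤ 8 * K * (1 + P) * R)
      linarith
    have hfin : P ≤ 16 * K * (1 + P) * R := by
      have h0 : 0 ≤ K * (1 + P) * R := by positivity
      refine hmax _ ?_ ?_ qA
      · intro s hs
        have := qL s hs
        linarith
      · intro s hs
        refine (qH s hs).trans ?_
        have h1 : 0 ≤ s + ε := by linarith [hs.1]
        exact mul_le_mul_of_nonneg_right (by linarith) h1
    have h1 : 16 * K * (1 + P) * R ≤ 1 / 2 * (1 + P) := by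
      have := mul_le_mul_of_nonneg_right hC (by linarith : 0 ≤ 1 + P)
      linarith
    linarith
  -- second pass
  have bL1 : ∀ s ∈ Icc 0 r, |L s - 1| ≤ 1 := fun s hs => (bL s hs).trans hP1
  have bh1 : ∀ s ∈ Icc 0 r, ‖h s - s‖ ≤ 1 * (s + ε) := fun s hs =>
    (bh s hs).trans (mul_le_mul_of_nonneg_right hP1 (by linarith [hs.1]))
  have ba1 : ∀ s ∈ Icc 0 r, |a s - (ε ^ 2 + s ^ 2)| ≤ 1 * (ε ^ 2 + s ^ 2) := fun s hs =>
    (ba s hs).trans (mul_le_mul_of_nonneg_right hP1 (by positivity))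
  have pL := passL hε hK zero_le_one hLc hL hL0 hτ hβ bL1 bh1
  have qL : ∀ s ∈ Icc 0 r, |L s - 1| ≤ 0 + 16 / 3 * K * (s * √s) + 4 * ε * K * √s := by
    intro s hs
    refine (pL s hs).trans (le_of_eq ?_)
    ring
  have pH := passH hε hK zero_le_one hhc hh hh0 hτ hβ qL bh1 ba1
  have qH : ∀ s ∈ Icc 0 r, ‖h s - s‖ ≤ 6 * K * (√s * (ε ^ 2 + s ^ 2)) := by
    intro s hs
    refine (pH s hs).trans ?_
    have hs0 : 0 ≤ s := hs.1
    have hq := Real.sqrt_nonneg s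
    have h1 : 0 ≤ K * √s * (s - ε) ^ 2 := by positivity
    have h2 : 0 ≤ K * √s * s ^ 2 := by positivity
    have h3 : 0 ≤ K * √s * ε ^ 2 := by positivity
    nlinarith
  have pA := mvtR hdac hda (B := fun s => 12 * K * (2 / 3 * ε ^ 2 * (s * √s) + 2 / 7 * (s ^ 3 * √s)))
    (B' := fun s => 2 * (6 * K * (√s * (ε ^ 2 + s ^ 2)))) (Continuous.continuousOn (by fun_prop))
    (fun s hs => by
      have h1 := (((d3 hs.1).const_mul (2 / 3 * ε ^ 2)).add ((d7 hs.1).const_mul (2 / 7))).const_mul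
        (12 * K)
      have h2 : 2 * (6 * K * (√s * (ε ^ 2 + s ^ 2))) = 12 * K * (2 / 3 * ε ^ 2 * (3 / 2 * √s) +
          2 / 7 * (7 / 2 * (s ^ 2 * √s))) := by ring
      rw [h2]
      exact h1) (by simp [ha0]) (by simp)
    (fun s hs => (hda' s).trans (mul_le_mul_of_nonneg_left (qH s ⟨hs.1.le, hs.2.le⟩) (by norm_num)))
  intro s hs
  refine (pA s hs).trans ?_
  have hs0 : 0 ≤ s := hs.1
  have hq := Real.sqrt_nonneg s
  have h2 : 0 ≤ K * s * √s * s ^ 2 := by positivity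
  have h3 : 0 ≤ K * s * √s * ε ^ 2 := by positivity
  nlinarith

end AO

end
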