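import Pool.Agent.Lib.AO.PhiIds
import Pool.Agent.Lib.AO.Ode

/-
STUB Prof (library AO, MP_7bfba2_an). Replace the sorries, keep the statements.
LEMMA 3.3 (profile), plane version.  Fix e with ‖e‖ = 1, L0 = 1/(√8 ε), and along z = p + s e put a s = phi u b z/L0, h s = dz (phi u b) z * e/L0, L s = Lc u b z/L0 (0 <= s <= r < R).
 By fderiv_eq_dz, fderiv_eq_cz and PhiIds (times e; conj e = e⁻¹): a' = 2 Re h;  h' = (cz(dz φ) e + cb(dz φ) conj e) e/L0 = -(τ0 e²) a - (b_z e) h + L + (β/8) a;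
  L' = 2 Re(dz Lc e)/L0 = 2 Re(-(τ0 e²) conj h - (b_z e) L + (β/8) h)  (conj(φ_z) e = conj(φ_z e) e² since conj e · e² = e).
 Initial values: phi p = ε/√8 (exp(u p) = 8/ε², b p = 0), so a 0 = ε²; dz phi p = 0 (fderiv u p = 0 = fderiv b p); Lc p = (1/8)/(ε/√8) = L0, so L 0 = 1.
 ode_lemma with τ = τ0 e², β = b_z e, κ = β/8 and K' = (1 + CB + CB²) K: ‖τ0‖ + β/8 <= K/(2√s) + CB² s/16 + 1/8 <= K'/√s, ‖b_z‖ = ‖fderiv b‖/2 <= CB √s/2 <= K' √s (s <= 1 <= K).
  [if C K' r√r <= 1/2, ensured by the last hypothesis with C3 large.]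
 So φ = φ0 (1 + x), φ0 = (ε²+s²) L0, |x| <= C K' s√s <= 1/4, and exp(u) = e^{-b} φ^{-2}, f0 ε s = φ0^{-2} (8 ε²/(ε²+s²)²), so exp(u)/f0 = (1+x)^{-2} e^{-b}, |b z| <= CB s√s
  (integrate fderiv b).  Hence |exp(u)/f0 - 1| <= C3 K s√s.
-/

set_option autoImplicit false

open Complex MeasureTheory Set Metric Filter
open scoped Real ContDiff Topology

noncomputable section

namespace AO

namespace ProfAux

theorem path_deriv {E : Type} [NormedAddCommGroup E] [NormedSpace ℝ E] (g : ℂ → E) (p e : ℂ) (s : ℝ)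
    (hg : DifferentiableAt ℝ g (p + s * e)) :
    HasDerivAt (fun t : ℝ => g (p + t * e)) (fderiv ℝ g (p + s * e) e) s := by
  have h1 : HasDerivAt (fun t : ℝ => p + t * e) e s := by
    have := ((hasDerivAt_id s).ofReal_comp.mul_const e).const_add p
    simpa using this
  exact hg.hasFDerivAt.comp_hasDerivAt s h1

theorem small (x y b δ : ℝ) (hx : |x| ≤ δ) (hδ : δ ≤ 1 / 10) (hb : |b| ≤ y) (hy : y ≤ 1 / 10) :
    |Real.exp (-b) / (1 + x) ^ 2 - 1| ≤ 3 * y + 3 * δ := by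
  have h1 : |Real.exp (-b) - 1| ≤ 2 * |-b| :=
    Real.abs_exp_sub_one_le (by rw [abs_neg]; linarith)
  rw [abs_neg] at h1
  have hx1 := abs_le.1 hx
  have h2 : (0.81 : ℝ) ≤ (1 + x) ^ 2 := by nlinarith [hx1.1, hx1.2]
  have h3 : (0 : ℝ) < (1 + x) ^ 2 := by linarith
  have h4 : Real.exp (-b) / (1 + x) ^ 2 - 1 = ((Real.exp (-b) - 1) - (2 * x + x ^ 2)) / (1 + x) ^ 2 := by
    rw [eq_div_iff h3.ne', sub_mul, div_mul_cancel₀ _ h3.ne']
    ring
  rw [h4, abs_div, abs_of_pos h3, div_le_iff₀ h3]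
  have h5 : |2 * x + x ^ 2| ≤ 2.1 * δ := by
    have : |2 * x + x ^ 2| ≤ |2 * x| + |x ^ 2| := abs_add_le _ _
    rw [abs_mul, abs_two, abs_pow] at this
    nlinarith [abs_nonneg x]
  have h6 := abs_sub (Real.exp (-b) - 1) (2 * x + x ^ 2)
  have hδ0 : 0 ≤ δ := (abs_nonneg x).trans hx
  have hy0 : 0 ≤ y := (abs_nonneg b).trans hb
  nlinarith

theorem exp_div (u b φ k ε s a : ℝ) (hε : 0 < ε) (hk : k ^ 2 = 8 * ε ^ 2)
    (hφ : φ = Real.exp (-(u + b) / 2)) (ha : a = φ * k) :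
    Real.exp u / f0 ε s = Real.exp (-b) / (1 + (a / (ε ^ 2 + s ^ 2) - 1)) ^ 2 := by
  have h1 : φ ^ 2 = Real.exp (-u) * Real.exp (-b) := by
    rw [hφ, ← Real.exp_nat_mul, ← Real.exp_add]
    congr 1
    push_cast
    ring
  have h2 : Real.exp u * Real.exp (-u) = 1 := by rw [← Real.exp_add]; simp
  have h3 : a ^ 2 = Real.exp (-u) * Real.exp (-b) * (8 * ε ^ 2) := by rw [ha, mul_pow, h1, hk]
  have h4 : 0 < ε ^ 2 + s ^ 2 := by positivity
  have h5 : (1 + (a / (ε ^ 2 + s ^ 2) - 1)) ^ 2 = Real.exp (-u) * Real.exp (-b) * (8 * ε ^ 2) /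
      (ε ^ 2 + s ^ 2) ^ 2 := by
    have h7 : 1 + (a / (ε ^ 2 + s ^ 2) - 1) = a / (ε ^ 2 + s ^ 2) := by ring
    rw [← h3, h7, div_pow]
  have hu : 0 < Real.exp (-u) := Real.exp_pos _
  have hb : 0 < Real.exp (-b) := Real.exp_pos _
  rw [h5]
  unfold f0
  have h6 : Real.exp u = 1 / Real.exp (-u) := by
    field_simp
    linarith
  rw [h6]
  field_simp

end ProfAux

open ProfAux

theorem profile_abs (CB : ℝ) (hCB : 0 ≤ CB) : ∃ C : ℝ, 1 ≤ C ∧ ∀ (p : ℂ) (ε r R K β : ℝ) (u b : ℂ → ℝ),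
    0 < ε → ε ≤ r → r ≤ 1 → r < R → 1 ≤ K → 0 ≤ β → β ≤ 1 →
    ContDiffOn ℝ 3 u (ball p R) → ContDiffOn ℝ 3 b (ball p R) →
    (∀ z ∈ ball p R, lap (fun w => u w + b w) z = -(Real.exp (u z) + β)) →
    fderiv ℝ u p = 0 → Real.exp (u p) = 8 / ε ^ 2 → b p = 0 → fderiv ℝ b p = 0 →
    (∀ z ∈ ball p R, ‖fderiv ℝ b z‖ ≤ CB * √‖z - p‖) →
    (∀ z, z ≠ p → ‖z - p‖ ≤ r → ‖TT u (fun w => u w + b w) z‖ ≤ K / √‖z - p‖) →
    C * K * (r * √r) ≤ 1 / 10 →
    ∀ z, ‖z - p‖ ≤ r → |Real.exp (u z) / f0 ε ‖z - p‖ - 1| ≤ C * K * (‖z - p‖ * √‖z - p‖) := by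
  obtain ⟨C0, hC0, ode⟩ := ode_lemma
  have hCM : 1 ≤ 1 + CB + CB ^ 2 := by nlinarith [sq_nonneg CB]
  refine ⟨3 * (CB + C0 * (1 + CB + CB ^ 2)), ?_, ?_⟩
  · have : 1 ≤ C0 * (1 + CB + CB ^ 2) := by nlinarith
    linarith
  intro p ε r R K β u b hε hεr hr1 hrR hK hβ0 hβ1 hu hb hlap hu0 hup hb0 hdb0 hdb hTT hsmall z hz
  have hr0 : 0 < r := lt_of_lt_of_le hε hεr
  by_cases hzp : z = p
  · rw [hzp]
    simp only [sub_self, norm_zero, Real.sqrt_zero, mul_zero]
    rw [hup]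
    unfold f0
    have : 8 / ε ^ 2 / (8 * ε ^ 2 / (ε ^ 2 + 0 ^ 2) ^ 2) = 1 := by
      field_simp
      ring
    rw [this]
    simp
  have hs0 : 0 < ‖z - p‖ := norm_pos_iff.2 (sub_ne_zero.2 hzp)
  set s0 : ℝ := ‖z - p‖ with hs0def
  set e : ℂ := (z - p) / s0 with hedef
  have hs0c : (s0 : ℂ) ≠ 0 := by exact_mod_cast hs0.ne'
  have hen : ‖e‖ = 1 := by
    rw [hedef, norm_div, Complex.norm_real, Real.norm_of_nonneg hs0.le, ← hs0def]
    exact div_self hs0.ne'
  have hee : (starRingEnd ℂ) e * e = 1 := by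
    rw [mul_comm, Complex.mul_conj, Complex.normSq_eq_norm_sq, hen]
    norm_num
  have hpz : p + s0 * e = z := by
    rw [hedef, mul_div_cancel₀ _ hs0c]; ring
  have hnorm : ∀ s : ℝ, 0 ≤ s → ‖(p + s * e) - p‖ = s := by
    intro s hs
    rw [add_sub_cancel_left, norm_mul, Complex.norm_real, Real.norm_of_nonneg hs, hen, mul_one]
  have hin : ∀ s : ℝ, 0 ≤ s → s ≤ r → p + s * e ∈ ball p R := by
    intro s hs hsr
    rw [mem_ball, dist_eq_norm, hnorm s hs]
    linarith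
  have hpin : p ∈ ball p R := mem_ball_self (by linarith)
  have hu3 : ∀ w ∈ ball p R, ContDiffAt ℝ 3 u w := fun w hw =>
    hu.contDiffAt (isOpen_ball.mem_nhds hw)
  have hb3 : ∀ w ∈ ball p R, ContDiffAt ℝ 3 b w := fun w hw =>
    hb.contDiffAt (isOpen_ball.mem_nhds hw)
  have hu2 : ∀ w ∈ ball p R, ContDiffAt ℝ 2 u w := fun w hw => (hu3 w hw).of_le (by norm_num)
  have hb2 : ∀ w ∈ ball p R, ContDiffAt ℝ 2 b w := fun w hw => (hb3 w hw).of_le (by norm_num)
  have hphi3 : ∀ w ∈ ball p R, ContDiffAt ℝ 3 (phi u b) w := by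
    intro w hw
    have h1 : ContDiffAt ℝ 3 (fun y => -(u y + b y) / 2) w :=
      (((hu3 w hw).add (hb3 w hw)).neg).div_const 2
    exact h1.exp
  have hphid : ∀ w ∈ ball p R, DifferentiableAt ℝ (phi u b) w := fun w hw =>
    (hphi3 w hw).differentiableAt (by norm_num)
  have hdphid : ∀ w ∈ ball p R, DifferentiableAt ℝ (dz (phi u b)) w := by
    intro w hw
    have h1 : ContDiffAt ℝ ((1 + 1 : ℕ) : WithTop ℕ∞) (phi u b) w :=
      (hphi3 w hw).of_le (by norm_num)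
    exact (contDiffAt_dz (phi u b) w 1 h1).differentiableAt (by norm_num)
  set k : ℝ := √8 * ε with hkdef
  have hk0 : 0 < k := by positivity
  have hk2 : k ^ 2 = 8 * ε ^ 2 := by
    rw [hkdef, mul_pow, Real.sq_sqrt (by norm_num)]
  set K' : ℝ := (1 + CB + CB ^ 2) * K with hK'def
  have hK'0 : 0 ≤ K' := by positivity
  have hsm : C0 * K' * (r * √r) ≤ 1 / 30 := by
    have h1 : 3 * (CB + C0 * (1 + CB + CB ^ 2)) * K * (r * √r) =
        3 * (CB * K * (r * √r)) + 3 * (C0 * K' * (r * √r)) := by rw [hK'def]; ring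
    have h2 : 0 ≤ CB * K * (r * √r) := by positivity
    linarith
  have hsm2 : CB * K * (r * √r) ≤ 1 / 30 := by
    have h1 : 3 * (CB + C0 * (1 + CB + CB ^ 2)) * K * (r * √r) =
        3 * (CB * K * (r * √r)) + 3 * (C0 * K' * (r * √r)) := by rw [hK'def]; ring
    have h2 : 0 ≤ C0 * K' * (r * √r) := by positivity
    linarith
  -- derivatives along the path
  have dA : ∀ s : ℝ, 0 ≤ s → s ≤ r → HasDerivAt (fun t : ℝ => phi u b (p + t * e) * k)
      (2 * (dz (phi u b) (p + s * e) * e * k).re) s := by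
    intro s hs hsr
    have h1 := (path_deriv (phi u b) p e s (hphid _ (hin s hs hsr))).mul_const k
    refine h1.congr_deriv ?_
    rw [fderiv_eq_dz, Complex.re_mul_ofReal]
    ring
  have dH : ∀ s : ℝ, 0 ≤ s → s ≤ r → HasDerivAt (fun t : ℝ => dz (phi u b) (p + t * e) * e * k)
      (-(tau0 u b (p + s * e) * e ^ 2) * ((phi u b (p + s * e) * k : ℝ) : ℂ) -
        (dz b (p + s * e) * e) * (dz (phi u b) (p + s * e) * e * k) +
        ((Lc u b (p + s * e) * k : ℝ) : ℂ) +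
        ((β / 8 : ℝ) : ℂ) * ((phi u b (p + s * e) * k : ℝ) : ℂ)) s := by
    intro s hs hsr
    have hw := hin s hs hsr
    have h1 := ((path_deriv (dz (phi u b)) p e s (hdphid _ hw)).mul_const e).mul_const (k : ℂ)
    refine h1.congr_deriv ?_
    rw [fderiv_eq_cz, phi_zz u b _ (hu2 _ hw) (hb2 _ hw),
      phi_zzbar u b β _ (hu2 _ hw) (hb2 _ hw) (hlap _ hw)]
    push_cast
    linear_combination ((Lc u b (p + s * e) : ℂ) + β / 8 * (phi u b (p + s * e) : ℂ)) * k * hee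
  have dL : ∀ s : ℝ, 0 ≤ s → s ≤ r → HasDerivAt (fun t : ℝ => Lc u b (p + t * e) * k)
      (2 * (-(tau0 u b (p + s * e) * e ^ 2) * (starRingEnd ℂ) (dz (phi u b) (p + s * e) * e * k) -
        (dz b (p + s * e) * e) * ((Lc u b (p + s * e) * k : ℝ) : ℂ) +
        ((β / 8 : ℝ) : ℂ) * (dz (phi u b) (p + s * e) * e * k)).re) s := by
    intro s hs hsr
    have hw := hin s hs hsr
    obtain ⟨g1, g2⟩ := Lc_z u b β _ (hu2 _ hw) (hb2 _ hw) (hlap _ hw)
    have h1 := (path_deriv (Lc u b) p e s g1).mul_const k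
    refine h1.congr_deriv ?_
    rw [fderiv_eq_dz, g2, mul_assoc, ← Complex.re_mul_ofReal]
    congr 2
    rw [map_mul, map_mul, Complex.conj_ofReal]
    push_cast
    linear_combination (tau0 u b (p + s * e) * (starRingEnd ℂ) (dz (phi u b) (p + s * e)) * k * e) * hee
  have cA : ContinuousOn (fun t : ℝ => phi u b (p + t * e) * k) (Icc 0 r) := fun s hs =>
    (dA s hs.1 hs.2).continuousAt.continuousWithinAt
  have cH : ContinuousOn (fun t : ℝ => dz (phi u b) (p + t * e) * e * k) (Icc 0 r) := fun s hs =>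
    (dH s hs.1 hs.2).continuousAt.continuousWithinAt
  have cL : ContinuousOn (fun t : ℝ => Lc u b (p + t * e) * k) (Icc 0 r) := fun s hs =>
    (dL s hs.1 hs.2).continuousAt.continuousWithinAt
  -- initial values
  have hphip : phi u b p * k = ε ^ 2 := by
    have h1 : (phi u b p) ^ 2 = ε ^ 2 / 8 := by
      unfold phi
      rw [hb0, add_zero, ← Real.exp_nat_mul]
      have h2 : ((2 : ℕ) : ℝ) * (-(u p) / 2) = -(u p) := by push_cast; ring
      rw [h2, Real.exp_neg, hup]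
      field_simp
    have h3 : (phi u b p * k) ^ 2 = (ε ^ 2) ^ 2 := by
      rw [mul_pow, h1, hk2]; ring
    have h4 : 0 ≤ phi u b p * k := mul_nonneg (phi_pos u b p).le hk0.le
    exact (sq_eq_sq₀ h4 (by positivity)).1 h3
  have hdphip : dz (phi u b) p = 0 := by
    have h1 : HasFDerivAt (phi u b) (0 : ℂ →L[ℝ] ℝ) p := by
      have g1 : HasFDerivAt u (0 : ℂ →L[ℝ] ℝ) p := by
        rw [← hu0]; exact ((hu2 p hpin).differentiableAt (by norm_num)).hasFDerivAt
      have g2 : HasFDerivAt b (0 : ℂ →L[ℝ] ℝ) p := by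
        rw [← hdb0]; exact ((hb2 p hpin).differentiableAt (by norm_num)).hasFDerivAt
      have g3 := (((g1.add g2).neg).mul_const (2 : ℝ)⁻¹).exp
      have g4 : HasFDerivAt (phi u b) _ p := g3.congr_of_eventuallyEq
        (Eventually.of_forall fun y => by
          simp only [phi, Pi.add_apply, Pi.neg_apply, div_eq_mul_inv])
      refine g4.congr_fderiv ?_
      simp
    have h2 := norm_dz (phi u b) p
    rw [h1.fderiv, norm_zero, zero_div] at h2
    exact norm_eq_zero.1 h2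
  have hLp : Lc u b p * k = 1 := by
    have hpp := phi_pos u b p
    unfold Lc
    rw [hdphip, hb0, norm_zero, neg_zero, Real.exp_zero]
    rw [div_mul_eq_mul_div, div_eq_iff hpp.ne']
    have : (phi u b p * k) * k = ε ^ 2 * k := by rw [hphip]
    have h2 : phi u b p * (8 * ε ^ 2) = ε ^ 2 * k := by rw [← this, ← hk2]; ring
    have h3 : ε ^ 2 * (phi u b p * 8) = ε ^ 2 * k := by linarith
    have h4 : phi u b p * 8 = k := mul_left_cancel₀ (by positivity) h3
    rw [← h4]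
    ring
  -- bounds
  have bB : ∀ s ∈ Ioo 0 r, ‖dz b (p + s * e)‖ ≤ CB * √s / 2 := by
    intro s hs
    rw [norm_dz]
    have h1 := hdb _ (hin s hs.1.le hs.2.le)
    rw [hnorm s hs.1.le] at h1
    linarith
  have bT : ∀ s ∈ Ioo 0 r, ‖tau0 u b (p + s * e) * e ^ 2‖ + |β / 8| ≤ K' / √s := by
    intro s hs
    have hss : 0 < √s := Real.sqrt_pos.2 hs.1
    have hs1 : s ≤ 1 := hs.2.le.trans hr1
    have hss1 : √s ≤ 1 := Real.sqrt_le_one.2 hs1
    have hsq : √s * √s = s := Real.mul_self_sqrt hs.1.le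
    have hne : p + s * e ≠ p := by
      intro h
      have h1 := hnorm s hs.1.le
      rw [h, sub_self, norm_zero] at h1
      exact hs.1.ne h1
    have h1 := hTT (p + s * e) hne (by rw [hnorm s hs.1.le]; exact hs.2.le)
    rw [hnorm s hs.1.le] at h1
    have h2 := bB s hs
    have h3 : ‖tau0 u b (p + s * e)‖ ≤ K / √s / 2 + (CB * √s / 2) ^ 2 / 4 := by
      unfold tau0
      refine (norm_add_le _ _).trans ?_
      rw [norm_div, norm_div, norm_pow, Complex.norm_ofNat, Complex.norm_ofNat]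
      have h4 : ‖dz b (p + s * e)‖ ^ 2 ≤ (CB * √s / 2) ^ 2 :=
        pow_le_pow_left₀ (norm_nonneg _) h2 2
      linarith
    rw [norm_mul, norm_pow, hen, one_pow, mul_one, abs_of_nonneg (by positivity)]
    rw [le_div_iff₀ hss]
    have h5 : K / √s * √s = K := div_mul_cancel₀ _ hss.ne'
    have h6 : (‖tau0 u b (p + s * e)‖ + β / 8) * √s ≤
        (K / √s / 2 + (CB * √s / 2) ^ 2 / 4 + β / 8) * √s := by gcongr
    refine h6.trans ?_
    have h7 : (K / √s / 2 + (CB * √s / 2) ^ 2 / 4 + β / 8) * √s =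
        (K / √s * √s) / 2 + CB ^ 2 * ((√s * √s) * √s) / 16 + β * √s / 8 := by ring
    rw [h7, h5, hsq, hK'def]
    have h8 : s * √s ≤ 1 := by nlinarith
    have h9 : β * √s ≤ 1 := by nlinarith
    have h10 : CB ^ 2 * (s * √s) ≤ CB ^ 2 := by nlinarith [sq_nonneg CB]
    have h11 : CB ^ 2 ≤ CB ^ 2 * K := by nlinarith [sq_nonneg CB]
    have h12 : 0 ≤ CB * K := by positivity
    nlinarith
  have bβ : ∀ s ∈ Ioo 0 r, ‖dz b (p + s * e) * e‖ ≤ K' * √s := by
    intro s hs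
    rw [norm_mul, hen, mul_one]
    refine (bB s hs).trans ?_
    have h1 : CB / 2 ≤ K' := by
      rw [hK'def]; nlinarith [sq_nonneg CB, mul_nonneg hCB (sub_nonneg.2 hK)]
    have h2 : 0 ≤ √s := Real.sqrt_nonneg s
    nlinarith
  have main := ode ε r K' (fun t : ℝ => phi u b (p + t * e) * k) (fun t : ℝ => Lc u b (p + t * e) * k)
    (fun _ => β / 8) (fun t : ℝ => dz (phi u b) (p + t * e) * e * k)
    (fun t : ℝ => tau0 u b (p + t * e) * e ^ 2) (fun t : ℝ => dz b (p + t * e) * e) hε hεr hK'0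
    (by linarith) cA cL cH (fun s hs => dA s hs.1.le hs.2.le) (fun s hs => dH s hs.1.le hs.2.le)
    (fun s hs => dL s hs.1.le hs.2.le) (by simpa using hphip) (by simp [hdphip])
    (by simpa using hLp) bT bβ s0 ⟨hs0.le, hz⟩
  simp only [hpz] at main
  have h4 : 0 < ε ^ 2 + s0 ^ 2 := by positivity
  have hx : |phi u b z * k / (ε ^ 2 + s0 ^ 2) - 1| ≤ C0 * K' * (s0 * √s0) := by
    have : phi u b z * k / (ε ^ 2 + s0 ^ 2) - 1 = (phi u b z * k - (ε ^ 2 + s0 ^ 2)) / (ε ^ 2 + s0 ^ 2) := by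
      field_simp
    rw [this, abs_div, abs_of_pos h4, div_le_iff₀ h4]
    exact main
  have hss : s0 * √s0 ≤ r * √r := by
    have := Real.sqrt_le_sqrt hz
    have h2 := Real.sqrt_nonneg s0
    nlinarith
  have hs00 : 0 ≤ s0 * √s0 := by positivity
  have hbz : |b z| ≤ CB * K * (s0 * √s0) := by
    have h1 : ∀ w ∈ closedBall p s0, DifferentiableAt ℝ b w := fun w hw =>
      (hb2 w (closedBall_subset_ball (by linarith) hw)).differentiableAt (by norm_num)
    have h2 : ∀ w ∈ closedBall p s0, ‖fderiv ℝ b w‖ ≤ CB * √s0 := by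
      intro w hw
      refine (hdb w (closedBall_subset_ball (by linarith) hw)).trans ?_
      have : ‖w - p‖ ≤ s0 := by rw [← dist_eq_norm]; exact hw
      gcongr
    have h3 := (convex_closedBall p s0).norm_image_sub_le_of_norm_fderiv_le h1 h2
      (mem_closedBall_self hs0.le) (by rw [mem_closedBall, dist_eq_norm] : z ∈ closedBall p s0)
    rw [hb0, sub_zero, Real.norm_eq_abs, ← hs0def] at h3
    have h5 : CB * √s0 * s0 ≤ CB * K * (s0 * √s0) := by
      have : 0 ≤ CB * (s0 * √s0) := by positivity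
      nlinarith
    linarith
  rw [exp_div (u z) (b z) (phi u b z) k ε s0 (phi u b z * k) hε hk2 rfl rfl]
  have hδ : C0 * K' * (s0 * √s0) ≤ 1 / 10 := by
    have : C0 * K' * (s0 * √s0) ≤ C0 * K' * (r * √r) := by gcongr
    linarith
  have hy : CB * K * (s0 * √s0) ≤ 1 / 10 := by
    have : CB * K * (s0 * √s0) ≤ CB * K * (r * √r) := by gcongr
    linarith
  refine (small _ _ _ _ hx hδ hbz hy).trans (le_of_eq ?_)
  rw [hK'def]
  ring

/-- `TT` only sees the second derivatives of `v`. -/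
theorem TT_affine (u v : ℂ → ℝ) (a : ℂ →L[ℝ] ℝ) (k : ℝ) (z : ℂ) (hv : ContDiffAt ℝ 2 v z) :
    TT u (fun w => v w - a w - k) z = TT u v z := by
  have h1 : ∀ᶠ w in 𝓝 z, dz (fun w => v w - a w - k) w = dz v w - dz a z := by
    filter_upwards [hv.eventually (by simp)] with w hw
    have hw1 : DifferentiableAt ℝ v w := hw.differentiableAt (by norm_num)
    have h2 : HasFDerivAt (fun w => v w - a w - k) (fderiv ℝ v w - a) w :=
      (hw1.hasFDerivAt.sub a.hasFDerivAt).sub_const k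
    unfold dz dx dy
    rw [h2.fderiv, a.fderiv]
    simp only [ContinuousLinearMap.sub_apply]
    push_cast
    ring
  have h3 : fderiv ℝ (dz (fun w => v w - a w - k)) z = fderiv ℝ (dz v) z := by
    have h4 := Filter.EventuallyEq.fderiv_eq (𝕜 := ℝ) h1
    rw [h4]
    exact fderiv_sub_const _
  unfold TT cz dx dy
  rw [h3]

end AO

end
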