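import Pool.Agent.Lib.AO.SysB2
import Pool.Agent.Lib.AO.GradB
import Pool.Agent.Lib.AO.Prof

/-
ProfLoc (library AO, MP_7bfba2_an).
LEMMA 3.3 for the system.  Apply profile_abs (CB = the constant of gradB_holder) with u = uu, R = 2δ,
 b w = B w - B p - fderiv B p (w - p), so that u + b = vv - (affine function), lap (u + b) = lap vv = -(exp uu + β), β = 1 - 8πc/ℓ² in [0,1] (ℓ >= 10) on ball p (2δ) (Loc.off, Sys.lap_vv, ff_eq_exp),
 TT u (u + b) = TT uu vv by TT_affine (a = fderiv B p, k = the constant B p - fderiv B p p; b is equal to the required function),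
 fderiv b z = fderiv B z - fderiv B p, ‖.‖ <= CB √‖z-p‖ (gradB_holder), fderiv uu p = 0 (top_grad), exp(uu p) = ff p = 8/ε².
-/

set_option autoImplicit false

open Complex MeasureTheory Set Metric Filter
open scoped Real ContDiff Topology

noncomputable section

namespace AO

namespace ProfLocAux

theorem le3 : (3 : WithTop ℕ∞) ≤ ∞ := ENat.LEInfty.out

theorem le2 : (2 : WithTop ℕ∞) ≤ ∞ := ENat.LEInfty.out

theorem lap_clm (L : ℂ →L[ℝ] ℝ) (z : ℂ) : lap (fun w => L w) z = 0 := by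
  have e1 : dx (fun w => L w) = fun _ => L 1 := by
    funext w
    unfold dx
    rw [L.hasFDerivAt.fderiv]
  have e2 : dy (fun w => L w) = fun _ => L Complex.I := by
    funext w
    unfold dy
    rw [L.hasFDerivAt.fderiv]
  unfold lap
  rw [e1, e2]
  unfold dx dy
  simp

theorem lap_const (k : ℝ) (z : ℂ) : lap (fun _ => k) z = 0 := by
  have e1 : dx (fun _ : ℂ => k) = fun _ => 0 := by
    funext w
    unfold dx
    simp
  have e2 : dy (fun _ : ℂ => k) = fun _ => 0 := by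
    funext w
    unfold dy
    simp
  unfold lap
  rw [e1, e2]
  unfold dx dy
  simp

theorem fderiv_b {B : ℂ → ℝ} (hB : ContDiff ℝ ∞ B) (p z : ℂ) :
    fderiv ℝ (fun w => B w - B p - fderiv ℝ B p (w - p)) z = fderiv ℝ B z - fderiv ℝ B p := by
  have h1 : HasFDerivAt B (fderiv ℝ B z) z :=
    ((hB.differentiable (by simp)) z).hasFDerivAt
  have h2 : HasFDerivAt (fun w => fderiv ℝ B p (w - p)) (fderiv ℝ B p) z := by
    have h3 : HasFDerivAt (fun w : ℂ => w - p) (ContinuousLinearMap.id ℝ ℂ) z :=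
      (hasFDerivAt_id z).sub_const p
    exact (fderiv ℝ B p).hasFDerivAt.comp z h3
  exact ((h1.sub_const (B p)).sub h2).fderiv

end ProfLocAux

open ProfLocAux

theorem prof_loc : ∃ C : ℝ, 1 ≤ C ∧ ∀ (c ℓ : ℝ) (N : ℕ) (A B : ℂ → ℝ) (p : ℂ) (ε δ r K : ℝ),
    Loc c ℓ N A B p ε δ → ε ≤ r → r ≤ δ / 2 → 1 ≤ K →
    (∀ z, z ≠ p → ‖z - p‖ ≤ r → ‖TT (uu N ℓ A B) (vv N ℓ A) z‖ ≤ K / √‖z - p‖) →
    C * K * (r * √r) ≤ 1 / 10 →
    ∀ z, ‖z - p‖ ≤ r → |ff N ℓ A B z / f0 ε ‖z - p‖ - 1| ≤ C * K * (‖z - p‖ * √‖z - p‖) := by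
  obtain ⟨CB, hCB1, hCB⟩ := gradB_holder
  obtain ⟨C, hC1, hC⟩ := profile_abs CB (by linarith)
  refine ⟨C, hC1, ?_⟩
  intro c ℓ N A B p ε δ r K hL hεr hr hK hT hsm z hz
  have hS := hL.sys
  have hδ := hL.dpos
  have hδ1 := hL.dle
  have hε := hL.top.pos
  have hpoff : p ∉ VL ℓ := hL.off p (mem_ball_self (by linarith))
  have hin : ∀ w, ‖w - p‖ ≤ r → w ∈ ball p (2 * δ) := by
    intro w hw
    rw [mem_ball, dist_eq_norm]
    linarith
  have hβ : 8 * π * c / ℓ ^ 2 ≤ 1 := by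
    have h10 := hL.ten
    rw [div_le_one (by positivity)]
    have h1 : π < 4 := Real.pi_lt_four
    have h2 := hS.c1
    have h3 := hS.c0
    have h4 : 8 * π * c ≤ 8 * π * 1 := by
      have : 0 < π := Real.pi_pos
      nlinarith
    nlinarith
  have hβ0 : 0 ≤ 8 * π * c / ℓ ^ 2 := by
    have h3 := hS.c0
    have : 0 < π := Real.pi_pos
    positivity
  set b : ℂ → ℝ := fun w => B w - B p - fderiv ℝ B p (w - p) with hb
  have hbs : ContDiff ℝ ∞ b :=
    (hS.sB.sub contDiff_const).sub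
      ((fderiv ℝ B p).contDiff.comp (contDiff_id.sub contDiff_const))
  have hfun : (fun w => uu N ℓ A B w + b w) =
      fun w => vv N ℓ A w - fderiv ℝ B p w - (B p - fderiv ℝ B p p) := by
    funext w
    simp only [hb, uu, vv, map_sub]
    ring
  have hfb : ∀ w, fderiv ℝ b w = fderiv ℝ B w - fderiv ℝ B p := fun w => fderiv_b hS.sB p w
  have key := hC p ε r (2 * δ) K (1 - 8 * π * c / ℓ ^ 2) (uu N ℓ A B) b hε hεr (by linarith)
    (by linarith) hK (by linarith) (by linarith)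
    (fun w hw => ((hS.contDiffAt_uu w (hL.off w hw)).1.of_le le3).contDiffWithinAt)
    ((hbs.of_le le3).contDiffOn)
    (fun w hw => by
      have hoff := hL.off w hw
      have hv := (hS.contDiffAt_uu w hoff).2.of_le le2
      rw [hfun, lap_sub _ _ w (hv.sub (fderiv ℝ B p).contDiff.contDiffAt) contDiffAt_const,
        lap_sub _ _ w hv (fderiv ℝ B p).contDiff.contDiffAt, lap_clm, lap_const,
        hS.lap_vv w hoff, hS.ff_eq_exp w hoff]
      ring)
    (hS.top_grad p ε hL.top)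
    (by rw [← hS.ff_eq_exp p hpoff]; exact hL.top.top)
    (by simp [hb])
    (by rw [hfb, sub_self])
    (fun w _ => by rw [hfb]; exact hCB c ℓ N A B hS w p)
    (fun w hwp hw => by
      have hv := (hS.contDiffAt_uu w (hL.off w (hin w hw))).2.of_le le2
      rw [hfun, TT_affine _ _ _ _ _ hv]
      exact hT w hwp hw)
    hsm z hz
  rw [hS.ff_eq_exp z (hL.off z (hin z hz))]
  exact key
end AO

end
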