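import Pool.Agent.Lib.AO.CrudeT
import Pool.Agent.Lib.AO.ProfLoc

/-
STUB CrudeP (library AO, MP_7bfba2_an). Replace the sorries, keep the statements.
(4.1), second half.  Let CT be the constant of crude_T and C3 that of prof_loc, c7 := 1/C with C >= 1, C² >= 10 C3 CT.  s1 = √(δε)/C.  K := CT √s1/(δε): ‖TT‖ <= CT/(δε) = K/√s1 <= K/√‖z-p‖ for 0 < ‖z-p‖ <= s1.
 K >= 1 for e1 small: √s1 = (δε)^(1/4)/√C, so K >= 1 iff (δε)^(3/4) <= CT/√C, and δε <= e1.  (Alternatively take K := max 1 (...); not needed.)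
 C3 K s1 √s1 = C3 CT s1²/(δε) = C3 CT/C² <= 1/10.  ε <= s1 iff C² ε <= δ: e1 <= 1/C².  s1 <= δ/2: √(δε) <= √(e1 δ³) <= √e1 δ.
 prof_loc with r = s1: |ff/f0 - 1| <= C3 K s√s = (C3 CT s1²/(δε)) (s√s)/(s1√s1) <= (1/10)(s√s)/(s1√s1).
-/

set_option autoImplicit false

open Complex MeasureTheory Set Metric Filter
open scoped Real ContDiff Topology

noncomputable section

namespace AO

theorem crude_prof : ∃ c7 e1 : ℝ, 0 < c7 ∧ c7 ≤ 1 ∧ 0 < e1 ∧ e1 ≤ 1 ∧ ∀ (c ℓ : ℝ) (N : ℕ) (A B : ℂ → ℝ) (p : ℂ) (ε δ : ℝ),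
    Loc c ℓ N A B p ε δ → ε ≤ e1 * δ ^ 2 → ε ≤ c7 * √(δ * ε) ∧ c7 * √(δ * ε) ≤ δ / 2 ∧
    ∀ z, ‖z - p‖ ≤ c7 * √(δ * ε) → |ff N ℓ A B z / f0 ε ‖z - p‖ - 1| ≤
      (1 / 10) * ((‖z - p‖ * √‖z - p‖) / ((c7 * √(δ * ε)) * √(c7 * √(δ * ε)))) := by
  obtain ⟨CT, hCT, hT⟩ := crude_T
  obtain ⟨C3, hC3, hP⟩ := prof_loc
  have hC2 : 1 ≤ C3 * CT := by nlinarith
  set c7 : ℝ := √(1 / (10 * (C3 * CT))) with hc7
  have hc7sq : c7 ^ 2 = 1 / (10 * (C3 * CT)) := Real.sq_sqrt (by positivity)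
  have hpos : 0 < 1 / (10 * (C3 * CT)) := by positivity
  have hc7p : 0 < c7 := Real.sqrt_pos.2 hpos
  have hc7le : c7 ^ 2 ≤ 1 := by
    rw [hc7sq, div_le_one (by positivity)]
    linarith
  have hc7le1 : c7 ≤ 1 := by nlinarith
  refine ⟨c7, min (c7 ^ 2) (1 / 4), hc7p, hc7le1, lt_min (by positivity) (by norm_num),
    (min_le_left _ _).trans hc7le, ?_⟩
  intro c ℓ N A B p ε δ hL he
  set e1 : ℝ := min (c7 ^ 2) (1 / 4) with he1
  have he1a : e1 ≤ c7 ^ 2 := min_le_left _ _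
  have he1b : e1 ≤ 1 / 4 := min_le_right _ _
  have he1p : 0 < e1 := lt_min (by positivity) (by norm_num)
  have hε : 0 < ε := hL.top.pos
  have hδ : 0 < δ := hL.dpos
  have hδ1 : δ ≤ 1 := hL.dle
  have hδδ : δ ^ 2 ≤ δ := by nlinarith
  have h1 : ε ≤ e1 * δ := he.trans (mul_le_mul_of_nonneg_left hδδ he1p.le)
  have hεδ : ε ≤ δ := h1.trans (by nlinarith)
  have hde : 0 < δ * ε := mul_pos hδ hε
  set s1 : ℝ := c7 * √(δ * ε) with hs1
  have hs1p : 0 < s1 := mul_pos hc7p (Real.sqrt_pos.2 hde)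
  have hs1sq : s1 ^ 2 = c7 ^ 2 * (δ * ε) := by
    rw [hs1, mul_pow, Real.sq_sqrt hde.le]
  have A1 : ε ≤ s1 := by
    have : ε ^ 2 ≤ s1 ^ 2 := by
      rw [hs1sq]
      have : ε ≤ c7 ^ 2 * δ := h1.trans (mul_le_mul_of_nonneg_right he1a hδ.le)
      nlinarith
    exact (pow_le_pow_iff_left₀ hε.le hs1p.le two_ne_zero).1 this
  have A2 : s1 ≤ δ / 2 := by
    have : s1 ^ 2 ≤ (δ / 2) ^ 2 := by
      rw [hs1sq]
      have h2 : ε ≤ 1 / 4 * δ := h1.trans (mul_le_mul_of_nonneg_right he1b hδ.le)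
      have h3 : c7 ^ 2 * (δ * ε) ≤ 1 * (δ * ε) := mul_le_mul_of_nonneg_right hc7le hde.le
      nlinarith
    exact (pow_le_pow_iff_left₀ hs1p.le (by positivity) two_ne_zero).1 this
  have hs1le : s1 ≤ 1 := A2.trans (by linarith)
  refine ⟨A1, A2, ?_⟩
  have hsq : 0 < √s1 := Real.sqrt_pos.2 hs1p
  have hsqsq : √s1 * √s1 = s1 := Real.mul_self_sqrt hs1p.le
  have hsle : s1 ≤ √s1 := by
    have : √s1 ≤ 1 := Real.sqrt_le_one.2 hs1le
    nlinarith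
  have hdes : δ * ε ≤ s1 := by
    have h2 : (δ * ε) ^ 2 ≤ s1 ^ 2 := by
      rw [hs1sq]
      have h3 : δ * ε ≤ c7 ^ 2 := by
        have : ε ≤ e1 := h1.trans (by nlinarith)
        nlinarith
      nlinarith
    exact (pow_le_pow_iff_left₀ hde.le hs1p.le two_ne_zero).1 h2
  set K : ℝ := CT * √s1 / (δ * ε) with hK
  have hK1 : 1 ≤ K := by
    rw [hK, one_le_div hde]
    nlinarith
  have hKs : C3 * K * (s1 * √s1) = 1 / 10 := by
    have h2 : C3 * K * (s1 * √s1) = C3 * CT * s1 * (√s1 * √s1) / (δ * ε) := by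
      rw [hK]
      field_simp
    have h3 : C3 * CT * s1 * s1 = C3 * CT * c7 ^ 2 * (δ * ε) := by
      rw [mul_assoc (C3 * CT) s1 s1, ← pow_two, hs1sq]
      ring
    rw [h2, hsqsq, h3, mul_div_assoc, div_self hde.ne', mul_one, hc7sq]
    field_simp
  have hprof := hP c ℓ N A B p ε δ s1 K hL A1 A2 hK1 ?_ hKs.le
  · intro z hz
    refine (hprof z hz).trans (le_of_eq ?_)
    have h2 : C3 * K = (1 / 10) / (s1 * √s1) := by
      rw [← hKs]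
      field_simp
    rw [h2]
    ring
  · intro z hzp hz
    refine (hT c ℓ N A B p ε δ hL hεδ z (hz.trans A2)).trans ?_
    have hd : 0 < ‖z - p‖ := norm_pos_iff.2 (sub_ne_zero.2 hzp)
    have hsd : 0 < √‖z - p‖ := Real.sqrt_pos.2 hd
    have hle : √‖z - p‖ ≤ √s1 := Real.sqrt_le_sqrt hz
    rw [hK, le_div_iff₀ hsd, div_mul_eq_mul_div]
    gcongr

end AO

end
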