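import Pool.Agent.Lib.AO.SysB
import Pool.Agent.Lib.AO.Rep
import Pool.Agent.Lib.AO.KInt
import Pool.Agent.Lib.AO.CellBall

/-
Module GradA (library AO, MP_7bfba2_an).
(2.2).  fderiv A x e = ∫ fderiv (Gl ℓ)(x-y) e ff(y) dy (rep_grad' with k = 8π/ℓ²), ‖fderiv Gl z‖ <= C1/dl z.
 gradA_le is this bound.  gradA_sup: kint_inv with M = 8/ε², m = 8π, ρ = ε: C1 (16π/ε + 8π/ε).
 gradA_int: integrate gradA_le over ball z δ, Fubini (Tonelli) and ball_inv: <= C1 ∫ ff(y) (C δ) dy = 8π C1 C δ.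
-/

set_option autoImplicit false

open Complex MeasureTheory Set Metric Filter
open scoped Real ContDiff Topology

noncomputable section

namespace AO

namespace GradAAux

theorem lat_ae (ℓ : ℝ) (x : ℂ) : ∀ᵐ y : ℂ, x - y ∉ Lat ℓ := by
  have hc : (Lat ℓ).Countable := by
    have h1 : Lat ℓ = Set.range (fun p : ℤ × ℤ => (ℓ : ℂ) * ((p.1 : ℂ) + (p.2 : ℂ) * Complex.I)) := by
      ext z
      constructor
      · rintro ⟨m, n, h⟩
        exact ⟨(m, n), h.symm⟩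
      · rintro ⟨⟨m, n⟩, h⟩
        exact ⟨m, n, h.symm⟩
    rw [h1]
    exact Set.countable_range _
  have h2 : {y : ℂ | ¬ (x - y ∉ Lat ℓ)} = (fun z => x - z) '' Lat ℓ := by
    ext y
    simp only [mem_ofPred_eq, not_not, mem_image]
    constructor
    · intro h
      exact ⟨x - y, h, by ring⟩
    · rintro ⟨z, hz, rfl⟩
      simpa using hz
  rw [ae_iff, h2]
  exact (hc.image _).measure_zero _

variable {c ℓ : ℝ} {N : ℕ} {A B : ℂ → ℝ}

theorem kint (h : Sys c ℓ N A B) (x : ℂ) :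
    IntegrableOn (fun y => ff N ℓ A B y / dl ℓ (x - y)) (Q ℓ) := by
  obtain ⟨M, hM⟩ := per_bounded h.l0 _ h.per_ff h.contDiff_ff.continuous
  exact (kint_inv h.l0 (ff N ℓ A B) h.per_ff h.contDiff_ff.continuous (ff_nonneg N ℓ A B) M (8 * π)
    (fun z => (le_abs_self _).trans (hM z)) h.int_ff.le x 1 one_pos).1

end GradAAux

open GradAAux

theorem gradA_le : ∃ C : ℝ, 1 ≤ C ∧ ∀ (c ℓ : ℝ) (N : ℕ) (A B : ℂ → ℝ), Sys c ℓ N A B → ∀ x : ℂ,
    IntegrableOn (fun y => ff N ℓ A B y / dl ℓ (x - y)) (Q ℓ) ∧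
    ‖fderiv ℝ A x‖ ≤ C * ∫ y in Q ℓ, ff N ℓ A B y / dl ℓ (x - y) := by
  obtain ⟨C1, hC1, hg⟩ := g_grad
  refine ⟨C1 + 1, by linarith, fun c ℓ N A B h x => ?_⟩
  have hi := kint h x
  refine ⟨hi, ?_⟩
  have hff0 := ff_nonneg N ℓ A B
  have hI0 : 0 ≤ ∫ y in Q ℓ, ff N ℓ A B y / dl ℓ (x - y) :=
    integral_nonneg fun y => div_nonneg (hff0 y) (dl_nonneg _)
  refine ContinuousLinearMap.opNorm_le_bound _ (mul_nonneg (by linarith) hI0) fun e => ?_
  rw [rep_grad' h.l0 A h.sA h.pA (8 * π / ℓ ^ 2) (ff N ℓ A B) h.eA x e]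
  have h1 : ∀ᵐ y ∂(volume.restrict (Q ℓ)), ‖fderiv ℝ (Gl ℓ) (x - y) e * ff N ℓ A B y‖ ≤
      (C1 * ‖e‖) * (ff N ℓ A B y / dl ℓ (x - y)) := by
    filter_upwards [ae_restrict_of_ae (lat_ae ℓ x)] with y hy
    have h2 := (hg ℓ (x - y) h.l0 hy).2
    rw [norm_mul, Real.norm_of_nonneg (hff0 y)]
    calc ‖fderiv ℝ (Gl ℓ) (x - y) e‖ * ff N ℓ A B y
        ≤ (‖fderiv ℝ (Gl ℓ) (x - y)‖ * ‖e‖) * ff N ℓ A B y :=
          mul_le_mul_of_nonneg_right (ContinuousLinearMap.le_opNorm _ _) (hff0 y)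
      _ ≤ (C1 / dl ℓ (x - y) * ‖e‖) * ff N ℓ A B y :=
          mul_le_mul_of_nonneg_right (mul_le_mul_of_nonneg_right h2 (norm_nonneg _)) (hff0 y)
      _ = (C1 * ‖e‖) * (ff N ℓ A B y / dl ℓ (x - y)) := by ring
  have h3 := norm_integral_le_of_norm_le (hi.const_mul (C1 * ‖e‖)) h1
  rw [integral_const_mul] at h3
  refine h3.trans ?_
  have h4 : 0 ≤ ‖e‖ * ∫ y in Q ℓ, ff N ℓ A B y / dl ℓ (x - y) := mul_nonneg (norm_nonneg _) hI0
  nlinarith

theorem gradA_sup : ∃ C : ℝ, 1 ≤ C ∧ ∀ (c ℓ : ℝ) (N : ℕ) (A B : ℂ → ℝ) (p : ℂ) (ε : ℝ), Sys c ℓ N A B →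
    Top ℓ N A B p ε → ∀ x : ℂ, ‖fderiv ℝ A x‖ ≤ C / ε := by
  obtain ⟨C0, hC0, hg⟩ := gradA_le
  refine ⟨C0 * (24 * π), ?_, fun c ℓ N A B p ε h ht x => ?_⟩
  · have := Real.pi_gt_three
    nlinarith
  · have hε := ht.pos
    have h1 := (kint_inv h.l0 (ff N ℓ A B) h.per_ff h.contDiff_ff.continuous (ff_nonneg N ℓ A B)
      (8 / ε ^ 2) (8 * π) ht.le h.int_ff.le x ε hε).2
    have h2 : 2 * π * ε * (8 / ε ^ 2) + 8 * π / ε = 24 * π / ε := by
      field_simp
      ring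
    rw [h2] at h1
    calc ‖fderiv ℝ A x‖ ≤ C0 * ∫ y in Q ℓ, ff N ℓ A B y / dl ℓ (x - y) := (hg c ℓ N A B h x).2
      _ ≤ C0 * (24 * π / ε) := mul_le_mul_of_nonneg_left h1 (by linarith)
      _ = C0 * (24 * π) / ε := by ring

theorem gradA_int : ∃ C : ℝ, 1 ≤ C ∧ ∀ (c ℓ : ℝ) (N : ℕ) (A B : ℂ → ℝ) (z : ℂ) (δ : ℝ), Sys c ℓ N A B →
    10 ≤ ℓ → 0 < δ → δ ≤ 1 → ∫ x in ball z δ, ‖fderiv ℝ A x‖ ≤ C * δ := by
  obtain ⟨C0, hC0, hg⟩ := gradA_le
  obtain ⟨C1, hC1, hb⟩ := ball_inv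
  refine ⟨C0 * (C1 + 1) * (8 * π), ?_, fun c ℓ N A B z δ h hl hδ hδ1 => ?_⟩
  · have := Real.pi_gt_three
    have h1 : 1 ≤ C0 * (C1 + 1) := by nlinarith
    nlinarith
  · have hff0 := ff_nonneg N ℓ A B
    have hffc := h.contDiff_ff.continuous
    have hffi : IntegrableOn (ff N ℓ A B) (Q ℓ) := integrableOn_Q_of_continuous h.l0 _ hffc
    set k : ℂ → ℂ → ℝ := fun x y => ff N ℓ A B y / dl ℓ (x - y) with hk
    have hmeas : Measurable (Function.uncurry k) := by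
      have h1 : Continuous (fun p : ℂ × ℂ => dl ℓ (p.1 - p.2)) :=
        continuous_dl.comp (continuous_fst.sub continuous_snd)
      have h2 : Continuous (fun p : ℂ × ℂ => ff N ℓ A B p.2) := hffc.comp continuous_snd
      exact h2.measurable.div h1.measurable
    have hin : ∀ y, ∫ x in ball z δ, k x y ≤ ff N ℓ A B y * (C1 * δ) := by
      intro y
      have h1 : ∫ x in ball z δ, k x y = ff N ℓ A B y * ∫ x in ball z δ, (dl ℓ (x - y))⁻¹ := by
        rw [← integral_const_mul]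
        rfl
      rw [h1]
      exact mul_le_mul_of_nonneg_left (hb ℓ z y δ hl hδ hδ1).2 (hff0 y)
    have hk0 : ∀ x y, 0 ≤ k x y := fun x y => div_nonneg (hff0 y) (dl_nonneg _)
    have hint : Integrable (Function.uncurry k)
        ((volume.restrict (ball z δ)).prod (volume.restrict (Q ℓ))) := by
      rw [integrable_prod_iff' hmeas.aestronglyMeasurable]
      refine ⟨Eventually.of_forall fun y => ?_, ?_⟩
      · exact ((hb ℓ z y δ hl hδ hδ1).1.const_mul (ff N ℓ A B y))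
      · have h2 : Integrable (fun y => ff N ℓ A B y * (C1 * δ)) (volume.restrict (Q ℓ)) :=
          hffi.mul_const _
        refine Integrable.mono' h2 ?_ ?_
        · have h3 := (hmeas.norm.aestronglyMeasurable
            (μ := (volume.restrict (ball z δ)).prod (volume.restrict (Q ℓ))))
          exact h3.prod_swap.integral_prod_right'
        · refine Eventually.of_forall fun y => ?_
          have h3 : ∫ x in ball z δ, ‖Function.uncurry k (x, y)‖ = ∫ x in ball z δ, k x y := by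
            refine integral_congr_ae (Eventually.of_forall fun x => ?_)
            exact Real.norm_of_nonneg (hk0 x y)
          rw [h3, Real.norm_of_nonneg (integral_nonneg fun x => hk0 x y)]
          exact hin y
    have h4 : ∫ x in ball z δ, ‖fderiv ℝ A x‖ ≤ ∫ x in ball z δ, C0 * ∫ y in Q ℓ, k x y := by
      refine integral_mono_of_nonneg (Eventually.of_forall fun x => norm_nonneg _) ?_
        (Eventually.of_forall fun x => (hg c ℓ N A B h x).2)
      exact hint.integral_prod_left.const_mul C0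
    refine h4.trans ?_
    rw [integral_const_mul, integral_integral_swap hint]
    have h5 : ∫ y in Q ℓ, ∫ x in ball z δ, k x y ≤ ∫ y in Q ℓ, ff N ℓ A B y * (C1 * δ) := by
      refine integral_mono_of_nonneg (Eventually.of_forall fun y => integral_nonneg fun x => hk0 x y)
        (hffi.mul_const _) (Eventually.of_forall hin)
    rw [integral_mul_const, h.int_ff] at h5
    have h6 : C0 * ∫ y in Q ℓ, ∫ x in ball z δ, k x y ≤ C0 * (8 * π * (C1 * δ)) :=
      mul_le_mul_of_nonneg_left h5 (by linarith)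
    refine h6.trans ?_
    have hπ := Real.pi_pos
    have h7 : 0 ≤ C0 * (8 * π) * δ := by positivity
    nlinarith

end AO

end
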