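import Pool.Agent.Lib.AO.TTLoc
import Pool.Agent.Lib.AO.GradA
import Pool.Agent.Lib.AO.Radial

/-
Module CrudeT (library AO, MP_7bfba2_an).
(4.1), first half.  On ball p δ (ε <= δ <= 1): ‖fderiv uu‖, ‖fderiv vv‖ <= 1/δ + 1 + C/ε <= C/ε (gradA_sup), and their integrals over ball p δ are <= πδ²(1/δ + 1) + Cδ <= Cδ (gradA_int; volume of a ball).
 tt_loc: first term <= Cδ/δ³ = C/δ² <= C/(δε); second <= (C/ε)(Cδ)/δ² (bound ‖.‖² <= (C/ε)‖.‖, domain contained in ball p δ);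
 third <= (C/ε) ∫_{ball p δ} 1/‖z-ζ‖ <= (C/ε) ∫_{ball z (2δ)} 1/‖ζ-z‖ = (C/ε) 4πδ (int_inv) <= C/(δε).
-/

set_option autoImplicit false

open Complex MeasureTheory Set Metric Filter
open scoped Real ContDiff Topology

noncomputable section

namespace AO

namespace CrudeTAux

theorem smooth_int {f : ℂ → ℝ} {p : ℂ} {δ : ℝ} (hδ : 0 < δ) (hf : ContDiffOn ℝ ∞ f (ball p (2 * δ))) :
    ContinuousOn (fun z => ‖fderiv ℝ f z‖) (closedBall p δ) := by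
  have h1 : ContinuousOn (fderiv ℝ f) (ball p (2 * δ)) :=
    hf.continuousOn_fderiv_of_isOpen isOpen_ball (by simp)
  exact (h1.mono (closedBall_subset_ball (by linarith))).norm

theorem vol_ball (p : ℂ) {δ : ℝ} (hδ : 0 < δ) : (volume : Measure ℂ).real (ball p δ) = π * δ ^ 2 := by
  rw [Measure.real, Complex.volume_ball]
  rw [ENNReal.toReal_mul, ENNReal.toReal_pow, ENNReal.toReal_ofReal hδ.le]
  simp [mul_comm]

theorem int_le {f g : ℂ → ℝ} {p : ℂ} {δ a C : ℝ} (hδ : 0 < δ)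
    (hf : ContinuousOn f (closedBall p δ)) (hg : Continuous g)
    (h : ∀ z ∈ ball p δ, f z ≤ a + g z) (hI : ∫ z in ball p δ, g z ≤ C) :
    ∫ z in ball p δ, f z ≤ a * (π * δ ^ 2) + C := by
  have i1 : IntegrableOn f (ball p δ) :=
    (hf.integrableOn_compact (isCompact_closedBall p δ)).mono_set ball_subset_closedBall
  have i2 : IntegrableOn g (ball p δ) :=
    (hg.continuousOn.integrableOn_compact (isCompact_closedBall p δ)).mono_set ball_subset_closedBall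
  have i3 : IntegrableOn (fun _ : ℂ => a) (ball p δ) :=
    (continuousOn_const.integrableOn_compact (isCompact_closedBall p δ)).mono_set
      ball_subset_closedBall
  have h1 : ∫ z in ball p δ, f z ≤ ∫ z in ball p δ, (a + g z) :=
    setIntegral_mono_on i1 (i3.add i2) measurableSet_ball h
  refine h1.trans ?_
  rw [integral_add i3 i2, setIntegral_const, vol_ball p hδ, smul_eq_mul]
  linarith [mul_comm a (π * δ ^ 2)]

end CrudeTAux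

theorem crude_T : ∃ C : ℝ, 1 ≤ C ∧ ∀ (c ℓ : ℝ) (N : ℕ) (A B : ℂ → ℝ) (p : ℂ) (ε δ : ℝ), Loc c ℓ N A B p ε δ →
    ε ≤ δ → ∀ z, ‖z - p‖ ≤ δ / 2 → ‖TT (uu N ℓ A B) (vv N ℓ A) z‖ ≤ C / (δ * ε) := by
  obtain ⟨C1, hC1, H1⟩ := tt_loc
  obtain ⟨C2, hC2, H2⟩ := gradA_sup
  obtain ⟨C3, hC3, H3⟩ := gradA_int
  have hπ := Real.pi_pos
  have hD0 : 0 ≤ (π + C3) + (2 + C2) * (2 * π + C3) + (2 + C2) * (4 * π) := by positivity
  refine ⟨1 + C1 * ((π + C3) + (2 + C2) * (2 * π + C3) + (2 + C2) * (4 * π)), ?_, ?_⟩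
  · have := mul_nonneg hC1.le hD0
    linarith
  intro c ℓ N A B p ε δ h hεδ z hz
  have hδ := h.dpos
  have hδ1 := h.dle
  have hε := h.top.pos
  have hε1 : ε ≤ 1 := hεδ.trans hδ1
  have b1 : 1 / δ ≤ 1 / ε := one_div_le_one_div_of_le hε hεδ
  have b2 : 1 ≤ 1 / ε := by
    rw [le_div_iff₀ hε]
    linarith
  have hA : ∀ x, ‖fderiv ℝ A x‖ ≤ C2 / ε := H2 c ℓ N A B p ε h.sys h.top
  have hAi : ∫ x in ball p δ, ‖fderiv ℝ A x‖ ≤ C3 * δ := H3 c ℓ N A B p δ h.sys h.ten hδ hδ1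
  have hAc : Continuous (fun x => ‖fderiv ℝ A x‖) :=
    (h.sys.sA.continuous_fderiv (by simp)).norm
  obtain ⟨s1, s2⟩ := h.smooth
  have cu := CrudeTAux.smooth_int hδ s1
  have cv := CrudeTAux.smooth_int hδ s2
  have hsub : ball p δ ⊆ ball p (2 * δ) := ball_subset_ball (by linarith)
  have gv : ∀ ζ ∈ ball p δ, ‖fderiv ℝ (vv N ℓ A) ζ‖ ≤ 1 / δ + ‖fderiv ℝ A ζ‖ :=
    fun ζ hζ => h.grad_vv ζ (hsub hζ)
  have gu : ∀ ζ ∈ ball p δ, ‖fderiv ℝ (uu N ℓ A B) ζ‖ ≤ (1 / δ + 1) + ‖fderiv ℝ A ζ‖ :=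
    fun ζ hζ => h.grad_uu ζ (hsub hζ)
  have gu2 : ∀ ζ ∈ ball p δ, ‖fderiv ℝ (uu N ℓ A B) ζ‖ ≤ (2 + C2) / ε := by
    intro ζ hζ
    have h1 := gu ζ hζ
    have h2 := hA ζ
    have h3 : (2 + C2) / ε = 1 / ε + 1 / ε + C2 / ε := by ring
    rw [h3]
    linarith
  -- the integrals
  have Iv : ∫ ζ in ball p δ, ‖fderiv ℝ (vv N ℓ A) ζ‖ ≤ (π + C3) * δ := by
    have h1 := CrudeTAux.int_le hδ cv hAc gv hAi
    have h2 : 1 / δ * (π * δ ^ 2) = π * δ := by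
      field_simp
    rw [h2] at h1
    linarith
  have Iu : ∫ ζ in ball p δ, ‖fderiv ℝ (uu N ℓ A B) ζ‖ ≤ (2 * π + C3) * δ := by
    have h1 := CrudeTAux.int_le hδ cu hAc gu hAi
    have h2 : (1 / δ + 1) * (π * δ ^ 2) = π * δ + π * δ ^ 2 := by
      field_simp
    rw [h2] at h1
    have h3 : π * δ ^ 2 ≤ π * δ := by
      apply mul_le_mul_of_nonneg_left _ hπ.le
      nlinarith
    linarith
  have hK0 : 0 ≤ (2 + C2) / ε := by positivity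
  have iu : IntegrableOn (fun ζ => ‖fderiv ℝ (uu N ℓ A B) ζ‖) (ball p δ) :=
    (cu.integrableOn_compact (isCompact_closedBall p δ)).mono_set ball_subset_closedBall
  have iu2 : IntegrableOn (fun ζ => ‖fderiv ℝ (uu N ℓ A B) ζ‖ ^ 2) (ball p δ) :=
    ((cu.pow 2).integrableOn_compact (isCompact_closedBall p δ)).mono_set ball_subset_closedBall
  have Iu2 : ∫ ζ in ball p δ \ ball p (3 * δ / 4), ‖fderiv ℝ (uu N ℓ A B) ζ‖ ^ 2 ≤
      (2 + C2) / ε * ((2 * π + C3) * δ) := by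
    have h1 : ∫ ζ in ball p δ \ ball p (3 * δ / 4), ‖fderiv ℝ (uu N ℓ A B) ζ‖ ^ 2 ≤
        ∫ ζ in ball p δ, ‖fderiv ℝ (uu N ℓ A B) ζ‖ ^ 2 :=
      setIntegral_mono_set iu2 (ae_of_all _ fun ζ => by positivity)
        (LE.le.eventuallyLE sdiff_subset)
    have h2 : ∫ ζ in ball p δ, ‖fderiv ℝ (uu N ℓ A B) ζ‖ ^ 2 ≤
        ∫ ζ in ball p δ, (2 + C2) / ε * ‖fderiv ℝ (uu N ℓ A B) ζ‖ := by
      refine setIntegral_mono_on iu2 (iu.const_mul _) measurableSet_ball fun ζ hζ => ?_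
      rw [sq]
      exact mul_le_mul_of_nonneg_right (gu2 ζ hζ) (norm_nonneg _)
    rw [integral_const_mul] at h2
    have h3 := mul_le_mul_of_nonneg_left Iu hK0
    linarith
  have I3 : ∫ ζ in ball p δ, ‖fderiv ℝ (uu N ℓ A B) ζ‖ / ‖z - ζ‖ ≤
      (2 + C2) / ε * (4 * π * δ) := by
    obtain ⟨e1, e2⟩ := int_inv z (2 * δ) (by linarith)
    have hsub2 : ball p δ ⊆ ball z (2 * δ) := by
      intro ζ hζ
      rw [mem_ball, dist_eq_norm] at hζ ⊢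
      have h1 : ζ - z = (ζ - p) - (z - p) := by ring
      rw [h1]
      have h2 := norm_sub_le (ζ - p) (z - p)
      linarith
    have i4 : IntegrableOn (fun ζ => (2 + C2) / ε * ‖ζ - z‖⁻¹) (ball z (2 * δ)) := e2.const_mul _
    have h1 : ∫ ζ in ball p δ, ‖fderiv ℝ (uu N ℓ A B) ζ‖ / ‖z - ζ‖ ≤
        ∫ ζ in ball p δ, (2 + C2) / ε * ‖ζ - z‖⁻¹ := by
      refine integral_mono_of_nonneg (ae_of_all _ fun ζ => ?_) (i4.mono_set hsub2) ?_
      · show 0 ≤ ‖fderiv ℝ (uu N ℓ A B) ζ‖ / ‖z - ζ‖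
        positivity
      · refine (ae_restrict_iff' measurableSet_ball).2 (ae_of_all _ fun ζ hζ => ?_)
        show ‖fderiv ℝ (uu N ℓ A B) ζ‖ / ‖z - ζ‖ ≤ (2 + C2) / ε * ‖ζ - z‖⁻¹
        rw [norm_sub_rev z ζ, div_eq_mul_inv]
        exact mul_le_mul_of_nonneg_right (gu2 ζ hζ) (inv_nonneg.2 (norm_nonneg _))
    have h2 : ∫ ζ in ball p δ, (2 + C2) / ε * ‖ζ - z‖⁻¹ ≤
        ∫ ζ in ball z (2 * δ), (2 + C2) / ε * ‖ζ - z‖⁻¹ :=
      setIntegral_mono_set i4 (ae_of_all _ fun ζ => by positivity)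
        (LE.le.eventuallyLE hsub2)
    have h3 : ∫ ζ in ball z (2 * δ), (2 + C2) / ε * ‖ζ - z‖⁻¹ =
        (2 + C2) / ε * (2 * π * (2 * δ)) := by
      rw [integral_const_mul, e1]
    rw [h3] at h2
    refine (h1.trans h2).trans (le_of_eq ?_)
    ring
  have hT := H1 c ℓ N A B p ε δ h z hz
  have hq : 0 < δ * ε := mul_pos hδ hε
  have t1 : (∫ ζ in ball p δ, ‖fderiv ℝ (vv N ℓ A) ζ‖) / δ ^ 3 ≤ (π + C3) / (δ * ε) := by
    rw [div_le_div_iff₀ (by positivity) hq]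
    have h1 : (∫ ζ in ball p δ, ‖fderiv ℝ (vv N ℓ A) ζ‖) * (δ * ε) ≤ (π + C3) * δ * (δ * ε) :=
      mul_le_mul_of_nonneg_right Iv hq.le
    refine h1.trans ?_
    have h2 : (π + C3) * δ * (δ * ε) = (π + C3) * δ ^ 2 * ε := by ring
    have h3 : (π + C3) * δ ^ 3 = (π + C3) * δ ^ 2 * δ := by ring
    rw [h2, h3]
    exact mul_le_mul_of_nonneg_left hεδ (by positivity)
  have t2 : (∫ ζ in ball p δ \ ball p (3 * δ / 4), ‖fderiv ℝ (uu N ℓ A B) ζ‖ ^ 2) / δ ^ 2 ≤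
      (2 + C2) * (2 * π + C3) / (δ * ε) := by
    have h1 : (∫ ζ in ball p δ \ ball p (3 * δ / 4), ‖fderiv ℝ (uu N ℓ A B) ζ‖ ^ 2) / δ ^ 2 ≤
        ((2 + C2) / ε * ((2 * π + C3) * δ)) / δ ^ 2 :=
      div_le_div_of_nonneg_right Iu2 (by positivity)
    refine h1.trans (le_of_eq ?_)
    field_simp
  have t3 : (∫ ζ in ball p δ, ‖fderiv ℝ (uu N ℓ A B) ζ‖ / ‖z - ζ‖) ≤
      (2 + C2) * (4 * π) / (δ * ε) := by
    refine I3.trans ?_
    rw [le_div_iff₀ hq]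
    have h1 : (2 + C2) / ε * (4 * π * δ) * (δ * ε) = (2 + C2) * (4 * π) * (δ * δ) := by
      field_simp
    rw [h1]
    have h2 : δ * δ ≤ 1 := by nlinarith
    have h3 : 0 ≤ (2 + C2) * (4 * π) := by positivity
    nlinarith
  have hsum : (∫ ζ in ball p δ, ‖fderiv ℝ (vv N ℓ A) ζ‖) / δ ^ 3 +
      (∫ ζ in ball p δ \ ball p (3 * δ / 4), ‖fderiv ℝ (uu N ℓ A B) ζ‖ ^ 2) / δ ^ 2 +
      ∫ ζ in ball p δ, ‖fderiv ℝ (uu N ℓ A B) ζ‖ / ‖z - ζ‖ ≤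
      ((π + C3) + (2 + C2) * (2 * π + C3) + (2 + C2) * (4 * π)) / (δ * ε) := by
    rw [add_div, add_div]
    linarith
  refine hT.trans ((mul_le_mul_of_nonneg_left hsum hC1.le).trans ?_)
  rw [← mul_div_assoc]
  exact div_le_div_of_nonneg_right (by linarith) hq.le

end AO

end
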