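import Mathlib

/-!
Ambjorn-Olesen vortices at the borderline ratio one (MP_7bfba2_an): definitions.
-/

set_option autoImplicit false

open Complex MeasureTheory Set Metric
open scoped Real ContDiff Topology

noncomputable section

namespace AO

section Calculus

variable {E : Type} [NormedAddCommGroup E] [NormedSpace ℝ E]

/-- Derivative in the direction `1`. -/
def dx (h : ℂ → E) (z : ℂ) : E := fderiv ℝ h z 1

/-- Derivative in the direction `I`. -/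
def dy (h : ℂ → E) (z : ℂ) : E := fderiv ℝ h z Complex.I

/-- The Laplacian of a real function on the plane. -/
def lap (h : ℂ → ℝ) (z : ℂ) : ℝ := dx (dx h) z + dy (dy h) z

/-- Wirtinger derivative `∂_z` of a real function. -/
def dz (u : ℂ → ℝ) (z : ℂ) : ℂ := (((dx u z : ℝ) : ℂ) - Complex.I * ((dy u z : ℝ) : ℂ)) / 2

/-- Wirtinger derivative `∂_z` of a complex function. -/
def cz (F : ℂ → ℂ) (z : ℂ) : ℂ := (dx F z - Complex.I * dy F z) / 2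

/-- Wirtinger derivative `∂_zbar` of a complex function. -/
def cb (F : ℂ → ℂ) (z : ℂ) : ℂ := (dx F z + Complex.I * dy F z) / 2

/-- The modified stress tensor `v_zz - u_z² / 2`. -/
def TT (u v : ℂ → ℝ) (z : ℂ) : ℂ := cz (dz v) z - (dz u z) ^ 2 / 2

end Calculus

section Lattice

/-- Periodicity with respect to the lattice `ℓ ℤ[i]`. -/
def Per {E : Type} (ℓ : ℝ) (h : ℂ → E) : Prop :=
  (∀ z, h (z + ℓ) = h z) ∧ (∀ z, h (z + ℓ * Complex.I) = h z)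

/-- The fundamental cell. -/
def Q (ℓ : ℝ) : Set ℂ := {z | z.re ∈ Ico (-(ℓ / 2)) (ℓ / 2) ∧ z.im ∈ Ico (-(ℓ / 2)) (ℓ / 2)}

/-- The square lattice. -/
def Lat (ℓ : ℝ) : Set ℂ := {z | ∃ m n : ℤ, z = ℓ * (m + n * Complex.I)}

/-- Distance to the lattice. -/
def dl (ℓ : ℝ) (z : ℂ) : ℝ := infDist z (Lat ℓ)

/-- The vortex point. -/
def VV (ℓ : ℝ) : ℂ := (ℓ / 2 : ℝ) * (1 + Complex.I)

/-- The vortex lattice. -/
def VL (ℓ : ℝ) : Set ℂ := {z | z - VV ℓ ∈ Lat ℓ}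

end Lattice

section Theta

/-- The theta function of the square lattice. -/
def Th (z : ℂ) : ℂ := jacobiTheta₂ z Complex.I

/-- The modulus of the theta function in its natural metric: periodic. -/
def F (z : ℂ) : ℝ := Real.exp (-π * z.im ^ 2) * ‖Th z‖

/-- Green function of the unit square torus, up to an additive constant. -/
def G (z : ℂ) : ℝ := -(1 / (2 * π)) * Real.log (F (z + VV 1))

/-- Green function of the square torus of side `ℓ`, up to an additive constant. -/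
def Gl (ℓ : ℝ) (z : ℂ) : ℝ := G (z / ℓ)

/-- The potential of `N` vortices at `VV ℓ`, normalised by `Gam 0 = 0`. -/
def Gam (N : ℕ) (ℓ : ℝ) (z : ℂ) : ℝ := 2 * N * Real.log (F (z / ℓ) / F 0)

end Theta

section System

/-- The density `e^u`. -/
def ff (N : ℕ) (ℓ : ℝ) (A B : ℂ → ℝ) (z : ℂ) : ℝ :=
  (F (z / ℓ) / F 0) ^ (2 * N) * Real.exp (A z - B z)

/-- The function `w`. -/
def ww (c : ℝ) (A B : ℂ → ℝ) (z : ℂ) : ℝ := -(A z) / 2 + B z / (2 * c)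

/-- The deficit `1 - e^w`. -/
def qq (c : ℝ) (A B : ℂ → ℝ) (z : ℂ) : ℝ := 1 - Real.exp (ww c A B z)

/-- The function `v = Γ + A`. -/
def vv (N : ℕ) (ℓ : ℝ) (A : ℂ → ℝ) (z : ℂ) : ℝ := Gam N ℓ z + A z

/-- The function `u = Γ + A - B`. -/
def uu (N : ℕ) (ℓ : ℝ) (A B : ℂ → ℝ) (z : ℂ) : ℝ := Gam N ℓ z + A z - B z

/-- The normalised Ambjorn-Olesen system at `ρ = 1` for `N` vortices at one point of a square torus. -/
structure Sys (c ℓ : ℝ) (N : ℕ) (A B : ℂ → ℝ) : Prop where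
  c0 : 0 < c
  c1 : c < 1
  l0 : 0 < ℓ
  area : ℓ ^ 2 = 4 * π * N - 8 * π * (1 - c)
  sA : ContDiff ℝ ∞ A
  sB : ContDiff ℝ ∞ B
  pA : Per ℓ A
  pB : Per ℓ B
  eA : ∀ z, lap A z = 8 * π / ℓ ^ 2 - ff N ℓ A B z
  eB : ∀ z, lap B z = 8 * π * c / ℓ ^ 2 - qq c A B z

/-- The standard bubble profile. -/
def f0 (ε s : ℝ) : ℝ := 8 * ε ^ 2 / (ε ^ 2 + s ^ 2) ^ 2

/-- `p` is a maximum point of `e^u` with maximum value `8 / ε²`. -/
structure Top (ℓ : ℝ) (N : ℕ) (A B : ℂ → ℝ) (p : ℂ) (ε : ℝ) : Prop where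
  pos : 0 < ε
  mem : p ∈ Q ℓ
  top : ff N ℓ A B p = 8 / ε ^ 2
  le : ∀ z, ff N ℓ A B z ≤ 8 / ε ^ 2

/-- Hypotheses of the local analysis at scale `δ` near the maximum point `p`. -/
structure Loc (c ℓ : ℝ) (N : ℕ) (A B : ℂ → ℝ) (p : ℂ) (ε δ : ℝ) : Prop where
  sys : Sys c ℓ N A B
  top : Top ℓ N A B p ε
  ten : 10 ≤ ℓ
  gB : ∀ z, ‖fderiv ℝ B z‖ ≤ 1
  dpos : 0 < δ
  dle : δ ≤ 1
  off : ∀ z ∈ ball p (2 * δ), z ∉ VL ℓ
  gG : ∀ z ∈ ball p (2 * δ), ‖fderiv ℝ (Gam N ℓ) z‖ ≤ 1 / δ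

end System

end AO

end
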