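import Pool.Agent.Lib.AO.SysB1

/-
STUB SysB2 (library AO, MP_7bfba2_an). Replace the sorries, keep the statements.
Basic facts of the system, second part.
ww: lap ww = -(1/2) lap A + (1/(2c)) lap B = ff/2 - qq/(2c) (the constants cancel).
qq_nonneg: ww is smooth and periodic, so it attains its maximum at some z0 (per_lat + compactness of the closed cell); there lap ww z0 <= 0 (second derivative test in the
 directions 1 and I), so qq z0 >= c ff z0 >= 0, i.e. ww z0 <= 0, hence ww <= 0 everywhere and qq >= 0; qq <= 1 is trivial.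
integrals: int_Q_lap for A and B and int_Q_one.
exists_top: ff is continuous, periodic and positive at 0, so it attains a positive maximum at some p in Q ℓ; ε = √(8/ff p).
top_off: ff = 0 on VL ℓ.  top_grad: uu = log ff near p has a maximum at p.
-/

set_option autoImplicit false

open Complex MeasureTheory Set Metric Filter
open scoped Real ContDiff Topology

noncomputable section

namespace AO

namespace SysB2Aux

theorem two_le' : (2 : WithTop ℕ∞) ≤ ∞ := ENat.LEInfty.out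

theorem line_deriv (G : ℂ → ℝ) (hG : Differentiable ℝ G) (z e : ℂ) (t : ℝ) :
    HasDerivAt (fun t : ℝ => G (z + (t : ℂ) * e)) (fderiv ℝ G (z + (t : ℂ) * e) e) t := by
  have h1 : HasDerivAt (fun t : ℝ => z + (t : ℂ) * e) e t := by
    have h2 : HasDerivAt (fun t : ℝ => (t : ℂ)) 1 t := Complex.ofRealCLM.hasDerivAt
    have h3 := (h2.mul_const e).const_add z
    rwa [one_mul] at h3
  exact (hG (z + (t : ℂ) * e)).hasFDerivAt.comp_hasDerivAt t h1

theorem dir_nonpos (g : ℂ → ℝ) (hg : ContDiff ℝ ∞ g) (z0 e : ℂ) (hm : ∀ z, g z ≤ g z0) :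
    fderiv ℝ (fun w => fderiv ℝ g w e) z0 e ≤ 0 := by
  by_contra hpos
  push Not at hpos
  have hd : Differentiable ℝ g := hg.differentiable (by simp)
  have h1 : ContDiff ℝ 1 (fderiv ℝ g) := by
    have h0 : ContDiff ℝ 2 g := hg.of_le two_le'
    exact h0.fderiv_right (by norm_num)
  have h2 : Differentiable ℝ (fun w => fderiv ℝ g w e) :=
    (h1.clm_apply contDiff_const).differentiable (by norm_num)
  set φ : ℝ → ℝ := fun t => g (z0 + (t : ℂ) * e) with hφ
  have d1 : deriv φ = fun t : ℝ => fderiv ℝ g (z0 + (t : ℂ) * e) e := by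
    funext t
    exact (line_deriv g hd z0 e t).deriv
  have d2 : deriv (deriv φ) 0 = fderiv ℝ (fun w => fderiv ℝ g w e) z0 e := by
    rw [d1]
    have h3 := (line_deriv (fun w => fderiv ℝ g w e) h2 z0 e 0).deriv
    simp only [Complex.ofReal_zero, zero_mul, add_zero] at h3
    exact h3
  have hmax : ∀ t, φ t ≤ φ 0 := by
    intro t
    simp only [hφ, Complex.ofReal_zero, zero_mul, add_zero]
    exact hm _
  have hlm : IsLocalMax φ 0 := Filter.Eventually.of_forall hmax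
  have hc : ContinuousAt φ 0 := (line_deriv g hd z0 e 0).continuousAt
  have hmin : IsLocalMin φ 0 :=
    isLocalMin_of_deriv_deriv_pos (by rw [d2]; exact hpos) hlm.deriv_eq_zero hc
  have hev : φ =ᶠ[𝓝 0] fun _ => φ 0 := by
    filter_upwards [hmin] with t ht
    exact le_antisymm (hmax t) ht
  have h4 : deriv φ =ᶠ[𝓝 0] deriv fun _ => φ 0 := hev.deriv
  have h5 : deriv (deriv φ) 0 = 0 := by
    rw [h4.deriv_eq]
    simp
  rw [d2] at h5
  exact hpos.ne' h5

theorem lap_nonpos (g : ℂ → ℝ) (hg : ContDiff ℝ ∞ g) (z0 : ℂ) (hm : ∀ z, g z ≤ g z0) :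
    lap g z0 ≤ 0 := by
  have h1 := dir_nonpos g hg z0 1 hm
  have h2 := dir_nonpos g hg z0 Complex.I hm
  unfold lap dx dy
  exact add_nonpos h1 h2

theorem Q_sub (ℓ : ℝ) : ∃ K : Set ℂ, IsCompact K ∧ Q ℓ ⊆ K := by
  refine ⟨closedBall 0 (|ℓ|), isCompact_closedBall _ _, ?_⟩
  intro z hz
  rw [mem_closedBall_zero_iff]
  have h1 := hz.1
  have h2 := hz.2
  have e := Complex.norm_le_abs_re_add_abs_im z
  have h3 : |z.re| ≤ ℓ / 2 := abs_le.2 ⟨h1.1, h1.2.le⟩
  have h4 : |z.im| ≤ ℓ / 2 := abs_le.2 ⟨h2.1, h2.2.le⟩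
  have h5 := le_abs_self ℓ
  linarith

theorem exists_max (ℓ : ℝ) (hl : 0 < ℓ) (g : ℂ → ℝ) (hc : Continuous g) (hp : Per ℓ g) :
    ∃ p ∈ Q ℓ, ∀ z, g z ≤ g p := by
  obtain ⟨K, hK, hQ⟩ := Q_sub ℓ
  have hne : K.Nonempty := by
    obtain ⟨k, _, hz⟩ := exists_rep hl 0
    exact ⟨_, hQ hz⟩
  obtain ⟨z0, _, hmax⟩ := hK.exists_isMaxOn hne hc.continuousOn
  have mv : ∀ z, ∃ w ∈ Q ℓ, g w = g z := by
    intro z
    obtain ⟨k, hk, hz⟩ := exists_rep hl z
    refine ⟨z - k, hz, ?_⟩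
    have h1 := per_lat g hp (z - k) k hk
    rw [sub_add_cancel] at h1
    exact h1.symm
  have hall : ∀ z, g z ≤ g z0 := by
    intro z
    obtain ⟨w, hw, e⟩ := mv z
    rw [← e]
    exact hmax (hQ hw)
  obtain ⟨p, hp1, e⟩ := mv z0
  exact ⟨p, hp1, fun z => by rw [e]; exact hall z⟩

end SysB2Aux

open SysB2Aux

variable {c ℓ : ℝ} {N : ℕ} {A B : ℂ → ℝ}

theorem SysB2Aux.ww_eq (c : ℝ) (A B : ℂ → ℝ) :
    ww c A B = fun w => (-(1 / 2)) * A w + (1 / (2 * c)) * B w := by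
  funext w
  unfold ww
  ring

theorem SysB2Aux.contDiff_ww (h : Sys c ℓ N A B) : ContDiff ℝ ∞ (ww c A B) := by
  rw [SysB2Aux.ww_eq]
  exact (contDiff_const.mul h.sA).add (contDiff_const.mul h.sB)

theorem SysB2Aux.lap_ww (h : Sys c ℓ N A B) (z : ℂ) :
    lap (ww c A B) z = ff N ℓ A B z / 2 - qq c A B z / (2 * c) := by
  have hA : ContDiffAt ℝ 2 A z := h.sA.contDiffAt.of_le two_le'
  have hB : ContDiffAt ℝ 2 B z := h.sB.contDiffAt.of_le two_le'
  rw [SysB2Aux.ww_eq, lap_add _ _ z (contDiffAt_const.mul hA) (contDiffAt_const.mul hB),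
    lap_const_mul _ A z hA, lap_const_mul _ B z hB, h.eA z, h.eB z]
  have hc := h.c0.ne'
  have hl := h.l0.ne'
  field_simp
  ring

theorem SysB2Aux.ww_le0 (h : Sys c ℓ N A B) (z : ℂ) : ww c A B z ≤ 0 := by
  have hp : Per ℓ (ww c A B) := by
    refine ⟨fun z => ?_, fun z => ?_⟩
    · unfold ww
      rw [h.pA.1, h.pB.1]
    · unfold ww
      rw [h.pA.2, h.pB.2]
  obtain ⟨p, _, hmax⟩ := exists_max ℓ h.l0 (ww c A B) (SysB2Aux.contDiff_ww h).continuous hp
  have h1 := lap_nonpos (ww c A B) (SysB2Aux.contDiff_ww h) p hmax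
  rw [SysB2Aux.lap_ww h] at h1
  have h2 := ff_nonneg N ℓ A B p
  have hc := h.c0
  have h3 : 0 ≤ qq c A B p / (2 * c) := by linarith
  have h4 : 0 ≤ qq c A B p := by
    rcases div_nonneg_iff.1 h3 with h5 | h5
    · exact h5.1
    · linarith [h5.2]
  unfold qq at h4
  have h5 : Real.exp (ww c A B p) ≤ 1 := by linarith
  exact (hmax z).trans (Real.exp_le_one_iff.1 h5)

theorem Sys.qq_nonneg (h : Sys c ℓ N A B) (z : ℂ) : 0 ≤ qq c A B z := by
  have h1 := Real.exp_le_one_iff.2 (SysB2Aux.ww_le0 h z)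
  unfold qq
  linarith

theorem Sys.qq_le (h : Sys c ℓ N A B) (z : ℂ) : qq c A B z ≤ 1 := by
  have h1 := Real.exp_pos (ww c A B z)
  unfold qq
  linarith

theorem Sys.ww_le (h : Sys c ℓ N A B) (z : ℂ) : ww c A B z ≤ 0 :=
  SysB2Aux.ww_le0 h z

theorem Sys.int_ff (h : Sys c ℓ N A B) : ∫ z in Q ℓ, ff N ℓ A B z = 8 * π := by
  have h1 := int_Q_lap h.l0 A (h.sA.of_le two_le') h.pA
  have h2 : (fun z => lap A z) = fun z => 8 * π / ℓ ^ 2 * 1 - ff N ℓ A B z := by
    funext z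
    rw [h.eA z, mul_one]
  rw [h2, integral_sub, integral_const_mul, int_Q_one h.l0] at h1
  · have hl := h.l0.ne'
    have h3 : 8 * π / ℓ ^ 2 * ℓ ^ 2 = 8 * π := by field_simp
    linarith
  · exact (integrableOn_Q_of_continuous h.l0 (fun _ => (8 * π / ℓ ^ 2 * 1 : ℝ)) continuous_const)
  · exact integrableOn_Q_of_continuous h.l0 _ h.contDiff_ff.continuous

theorem Sys.int_qq (h : Sys c ℓ N A B) : ∫ z in Q ℓ, qq c A B z = 8 * π * c := by
  have h1 := int_Q_lap h.l0 B (h.sB.of_le two_le') h.pB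
  have h2 : (fun z => lap B z) = fun z => 8 * π * c / ℓ ^ 2 * 1 - qq c A B z := by
    funext z
    rw [h.eB z, mul_one]
  rw [h2, integral_sub, integral_const_mul, int_Q_one h.l0] at h1
  · have hl := h.l0.ne'
    have h3 : 8 * π * c / ℓ ^ 2 * ℓ ^ 2 = 8 * π * c := by field_simp
    linarith
  · exact (integrableOn_Q_of_continuous h.l0 (fun _ => (8 * π * c / ℓ ^ 2 * 1 : ℝ)) continuous_const)
  · exact integrableOn_Q_of_continuous h.l0 _ h.contDiff_qq.continuous

theorem Sys.exists_top (h : Sys c ℓ N A B) : ∃ (p : ℂ) (ε : ℝ), Top ℓ N A B p ε := by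
  obtain ⟨p, hp, hmax⟩ := exists_max ℓ h.l0 (ff N ℓ A B) h.contDiff_ff.continuous h.per_ff
  have h0 : 0 < ff N ℓ A B 0 := by
    unfold ff
    rw [zero_div, div_self F_zero_pos.ne', one_pow, one_mul]
    exact Real.exp_pos _
  have hpos : 0 < ff N ℓ A B p := h0.trans_le (hmax 0)
  have h8 : 0 < 8 / ff N ℓ A B p := by positivity
  have e : 8 / (√(8 / ff N ℓ A B p)) ^ 2 = ff N ℓ A B p := by
    rw [Real.sq_sqrt h8.le]
    field_simp
  refine ⟨p, √(8 / ff N ℓ A B p), Real.sqrt_pos.2 h8, hp, e.symm, fun z => ?_⟩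
  rw [e]
  exact hmax z

theorem Sys.top_off (h : Sys c ℓ N A B) (p : ℂ) (ε : ℝ) (hp : Top ℓ N A B p ε) : p ∉ VL ℓ := by
  intro hV
  have h1 := h.ff_eq_zero p hV
  rw [hp.top] at h1
  have h2 : 0 < 8 / ε ^ 2 := by
    have := hp.pos
    positivity
  exact h2.ne' h1

theorem Sys.top_grad (h : Sys c ℓ N A B) (p : ℂ) (ε : ℝ) (hp : Top ℓ N A B p ε) :
    fderiv ℝ (uu N ℓ A B) p = 0 := by
  have hoff := h.top_off p ε hp
  have hpos : 0 < ff N ℓ A B p := by
    rw [h.ff_eq_exp p hoff]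
    exact Real.exp_pos _
  have hev : ∀ᶠ z in 𝓝 p, 0 < ff N ℓ A B z :=
    h.contDiff_ff.continuous.continuousAt.eventually (lt_mem_nhds hpos)
  have hlm : IsLocalMax (uu N ℓ A B) p := by
    filter_upwards [hev] with z hz
    have hzV : z ∉ VL ℓ := fun hV => by
      rw [h.ff_eq_zero z hV] at hz
      exact lt_irrefl _ hz
    have h1 := hp.le z
    rw [← hp.top, h.ff_eq_exp z hzV, h.ff_eq_exp p hoff] at h1
    exact Real.exp_le_exp.1 h1
  exact hlm.fderiv_eq_zero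

end AO

end
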