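import Pool.Agent.Lib.AO.DifG
import Pool.Agent.Lib.AO.SysB2
import Pool.Agent.Lib.AO.CellInt

/-
STUB DifM (library AO, MP_7bfba2_an). Replace the sorries, keep the statements.
Section 8, moments.  Upper bounds: dif_gauss and ∫_ℂ ‖x‖^k exp(-a‖x‖²) finite.  Lower bound: ff <= 8/ε² <= 8/κ², so ∫_{Q, ‖x‖ < κ/2} ff <= (8/κ²) π (κ/2)² = 2π, ∫_Q ff = 8π, hence ∫_{Q, ‖x‖ >= κ/2} ff >= 6π and
 ∫_Q ‖x‖² ff >= (κ²/4) 6π.
-/

set_option autoImplicit false

open Complex MeasureTheory Set Metric Filter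
open scoped Real ContDiff Topology

noncomputable section

namespace AO

namespace DifMAux

theorem gauss_int (a : ℝ) (ha : 0 < a) : Integrable (fun x : ℂ => Real.exp (-a * ‖x‖ ^ 2)) := by
  have h := GaussianFourier.integrable_cexp_neg_mul_sq_norm_add (V := ℂ) (b := (a : ℂ))
    (by simpa using ha) 0 0
  have h2 := h.norm
  refine h2.congr (Filter.Eventually.of_forall fun x => ?_)
  dsimp only
  rw [zero_mul, add_zero, Complex.norm_exp]
  congr 1
  have : (-(a : ℂ) * (‖x‖ : ℂ) ^ 2) = ((-a * ‖x‖ ^ 2 : ℝ) : ℂ) := by push_cast; ring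
  rw [this, Complex.ofReal_re]

/-- `t² exp(-a t) ≤ K exp(-a t / 2)` with `t = ‖x‖²` -/
theorem poly_bd (a t : ℝ) (ha : 0 < a) (ht : 0 ≤ t) :
    t * Real.exp (-a * t) ≤ (2 / a) * Real.exp (-(a / 2) * t) ∧
    t ^ 2 * Real.exp (-a * t) ≤ (16 / a ^ 2) * Real.exp (-(a / 2) * t) := by
  have h1 : Real.exp (-a * t) = Real.exp (-(a / 2) * t) * Real.exp (-(a / 2) * t) := by
    rw [← Real.exp_add]; congr 1; ring
  have h0 : 0 < Real.exp (-(a / 2) * t) := Real.exp_pos _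
  have h2 : a / 2 * t ≤ Real.exp (a / 2 * t) := by
    have := Real.add_one_le_exp (a / 2 * t)
    linarith
  have h3 : Real.exp (a / 2 * t) * Real.exp (-(a / 2) * t) = 1 := by
    rw [← Real.exp_add]
    have : a / 2 * t + -(a / 2) * t = 0 := by ring
    rw [this, Real.exp_zero]
  have h4 : a / 2 * t * Real.exp (-(a / 2) * t) ≤ 1 := by
    rw [← h3]
    exact mul_le_mul_of_nonneg_right h2 h0.le
  have h5 : t * Real.exp (-(a / 2) * t) ≤ 2 / a := by
    rw [le_div_iff₀ ha]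
    linarith
  have h6 : a / 4 * t ≤ Real.exp (a / 4 * t) := by
    have := Real.add_one_le_exp (a / 4 * t)
    linarith
  have h7 : (a / 4 * t) ^ 2 ≤ Real.exp (a / 2 * t) := by
    have h8 : 0 ≤ a / 4 * t := by positivity
    have h9 : (a / 4 * t) ^ 2 ≤ Real.exp (a / 4 * t) ^ 2 := pow_le_pow_left₀ h8 h6 2
    refine h9.trans (le_of_eq ?_)
    rw [← Real.exp_nat_mul]
    congr 1
    push_cast
    ring
  have h10 : (a / 4 * t) ^ 2 * Real.exp (-(a / 2) * t) ≤ 1 := by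
    rw [← h3]
    exact mul_le_mul_of_nonneg_right h7 h0.le
  have h11 : t ^ 2 * Real.exp (-(a / 2) * t) ≤ 16 / a ^ 2 := by
    rw [le_div_iff₀ (by positivity)]
    nlinarith
  constructor
  · rw [h1, ← mul_assoc]
    exact mul_le_mul_of_nonneg_right h5 h0.le
  · rw [h1, ← mul_assoc]
    exact mul_le_mul_of_nonneg_right h11 h0.le

end DifMAux

open DifMAux

theorem dif_mom (κ : ℝ) (hκ : 0 < κ) : ∃ C : ℝ, 1 ≤ C ∧ ∀ (c ℓ : ℝ) (N : ℕ) (A B : ℂ → ℝ) (p : ℂ) (ε : ℝ),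
    Sys c ℓ N A B → Top ℓ N A B p ε → 10 ≤ ℓ → (∀ z, ‖fderiv ℝ B z‖ ≤ 1) → κ ≤ ε →
    ∫ x in Q ℓ, ‖x‖ ^ 2 * ff N ℓ A B x ≤ C ∧ ∫ x in Q ℓ, ‖x‖ ^ 4 * ff N ℓ A B x ≤ C ∧
    3 / 2 * π * κ ^ 2 ≤ ∫ x in Q ℓ, ‖x‖ ^ 2 * ff N ℓ A B x := by
  obtain ⟨C, a, hC, ha, hg⟩ := dif_gauss κ hκ
  have hint := gauss_int (a / 2) (by positivity)
  set J : ℝ := ∫ x : ℂ, Real.exp (-(a / 2) * ‖x‖ ^ 2) with hJ
  have hJ0 : 0 ≤ J := integral_nonneg fun x => (Real.exp_pos _).le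
  have hp1 : 0 ≤ C * (2 / a) * J := by positivity
  have hp2 : 0 ≤ C * (16 / a ^ 2) * J := by positivity
  refine ⟨1 + C * (2 / a) * J + C * (16 / a ^ 2) * J, by linarith, ?_⟩
  intro c ℓ N A B p ε hS hT hl hB hκε
  have hl0 : 0 < ℓ := by linarith
  have hcf : Continuous (ff N ℓ A B) := hS.contDiff_ff.continuous
  have hff := hg c ℓ N A B p ε hS hT hl hB hκε
  have hnn : ∀ x, 0 ≤ ff N ℓ A B x := ff_nonneg N ℓ A B
  have hup : ∀ (m : ℕ) (K : ℝ), 0 ≤ K →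
      (∀ t : ℝ, 0 ≤ t → t ^ m * Real.exp (-a * t) ≤ K * Real.exp (-(a / 2) * t)) →
      ∫ x in Q ℓ, ‖x‖ ^ (2 * m) * ff N ℓ A B x ≤ C * K * J := by
    intro m K hK0 hK
    have hi1 : IntegrableOn (fun x : ℂ => ‖x‖ ^ (2 * m) * ff N ℓ A B x) (Q ℓ) :=
      integrableOn_Q_of_continuous hl0 _ ((continuous_norm.pow _).mul hcf)
    have hi2 : IntegrableOn (fun x : ℂ => C * K * Real.exp (-(a / 2) * ‖x‖ ^ 2)) (Q ℓ) :=
      (hint.const_mul (C * K)).integrableOn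
    have h1 : ∫ x in Q ℓ, ‖x‖ ^ (2 * m) * ff N ℓ A B x ≤
        ∫ x in Q ℓ, C * K * Real.exp (-(a / 2) * ‖x‖ ^ 2) := by
      refine setIntegral_mono_on hi1 hi2 measurableSet_Q ?_
      intro x hx
      have h2 := hff x hx
      have h3 := hK (‖x‖ ^ 2) (by positivity)
      have h4 : ‖x‖ ^ (2 * m) = (‖x‖ ^ 2) ^ m := by rw [pow_mul]
      have h5 : 0 ≤ ‖x‖ ^ (2 * m) := by positivity
      calc ‖x‖ ^ (2 * m) * ff N ℓ A B x
          ≤ ‖x‖ ^ (2 * m) * (C * Real.exp (-a * ‖x‖ ^ 2)) := mul_le_mul_of_nonneg_left h2 h5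
        _ = C * ((‖x‖ ^ 2) ^ m * Real.exp (-a * ‖x‖ ^ 2)) := by rw [h4]; ring
        _ ≤ C * (K * Real.exp (-(a / 2) * ‖x‖ ^ 2)) := mul_le_mul_of_nonneg_left h3 hC.le
        _ = C * K * Real.exp (-(a / 2) * ‖x‖ ^ 2) := by ring
    refine h1.trans ?_
    rw [integral_const_mul]
    refine mul_le_mul_of_nonneg_left ?_ (by positivity)
    exact setIntegral_le_integral hint (Filter.Eventually.of_forall fun x => (Real.exp_pos _).le)
  refine ⟨?_, ?_, ?_⟩
  · have h1 := hup 1 (2 / a) (by positivity) (fun t ht => by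
      rw [pow_one]
      exact (poly_bd a t ha ht).1)
    rw [show 2 * 1 = 2 by norm_num] at h1
    linarith
  · have h1 := hup 2 (16 / a ^ 2) (by positivity) (fun t ht => (poly_bd a t ha ht).2)
    rw [show 2 * 2 = 4 by norm_num] at h1
    linarith
  · have hS1 := hS.int_ff
    have hvb : (volume (ball (0 : ℂ) (κ / 2))).toReal = π * (κ / 2) ^ 2 := by
      rw [Complex.volume_ball, ENNReal.toReal_mul, ENNReal.toReal_pow,
        ENNReal.toReal_ofReal (by positivity)]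
      simp [mul_comm]
    have hind : Integrable ((ball (0 : ℂ) (κ / 2)).indicator (fun _ => (8 / κ ^ 2 : ℝ))) := by
      rw [integrable_indicator_iff measurableSet_ball]
      exact integrableOn_const (measure_ball_lt_top).ne
    have hi1 : IntegrableOn (fun x : ℂ => ‖x‖ ^ 2 * ff N ℓ A B x) (Q ℓ) :=
      integrableOn_Q_of_continuous hl0 _ ((continuous_norm.pow _).mul hcf)
    have hi0 : IntegrableOn (ff N ℓ A B) (Q ℓ) := integrableOn_Q_of_continuous hl0 _ hcf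
    have hi2 : IntegrableOn (fun x : ℂ => κ ^ 2 / 4 * (ff N ℓ A B x -
        (ball (0 : ℂ) (κ / 2)).indicator (fun _ => (8 / κ ^ 2 : ℝ)) x)) (Q ℓ) :=
      (hi0.sub hind.integrableOn).const_mul _
    have h1 : ∫ x in Q ℓ, κ ^ 2 / 4 * (ff N ℓ A B x -
        (ball (0 : ℂ) (κ / 2)).indicator (fun _ => (8 / κ ^ 2 : ℝ)) x) ≤
        ∫ x in Q ℓ, ‖x‖ ^ 2 * ff N ℓ A B x := by
      refine setIntegral_mono_on hi2 hi1 measurableSet_Q ?_
      intro x hx
      by_cases hxb : x ∈ ball (0 : ℂ) (κ / 2)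
      · rw [Set.indicator_of_mem hxb]
        have h2 : ff N ℓ A B x ≤ 8 / κ ^ 2 := by
          refine (hT.le x).trans ?_
          apply div_le_div_of_nonneg_left (by norm_num) (by positivity)
          exact pow_le_pow_left₀ hκ.le hκε 2
        have h3 : κ ^ 2 / 4 * (ff N ℓ A B x - 8 / κ ^ 2) ≤ 0 :=
          mul_nonpos_of_nonneg_of_nonpos (by positivity) (by linarith)
        have h4 : 0 ≤ ‖x‖ ^ 2 * ff N ℓ A B x := mul_nonneg (by positivity) (hnn x)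
        linarith
      · rw [Set.indicator_of_notMem hxb, sub_zero]
        rw [mem_ball_zero_iff, not_lt] at hxb
        have h2 : (κ / 2) ^ 2 ≤ ‖x‖ ^ 2 := pow_le_pow_left₀ (by positivity) hxb 2
        have h3 := mul_le_mul_of_nonneg_right h2 (hnn x)
        calc κ ^ 2 / 4 * ff N ℓ A B x = (κ / 2) ^ 2 * ff N ℓ A B x := by ring
          _ ≤ _ := h3
    refine le_trans ?_ h1
    rw [integral_const_mul, integral_sub hi0 hind.integrableOn, hS1]
    have h5 : ∫ x in Q ℓ, (ball (0 : ℂ) (κ / 2)).indicator (fun _ => (8 / κ ^ 2 : ℝ)) x ≤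
        2 * π := by
      have h6 : ∫ x in Q ℓ, (ball (0 : ℂ) (κ / 2)).indicator (fun _ => (8 / κ ^ 2 : ℝ)) x ≤
          ∫ x, (ball (0 : ℂ) (κ / 2)).indicator (fun _ => (8 / κ ^ 2 : ℝ)) x :=
        setIntegral_le_integral hind (Filter.Eventually.of_forall fun x =>
          Set.indicator_nonneg (fun _ _ => by positivity) x)
      refine h6.trans (le_of_eq ?_)
      rw [integral_indicator measurableSet_ball, setIntegral_const, smul_eq_mul, Measure.real, hvb]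
      field_simp
      ring
    have h7 : κ ^ 2 / 4 * (8 * π - 2 * π) ≤ κ ^ 2 / 4 * (8 * π -
        ∫ x in Q ℓ, (ball (0 : ℂ) (κ / 2)).indicator (fun _ => (8 / κ ^ 2 : ℝ)) x) :=
      mul_le_mul_of_nonneg_left (by linarith) (by positivity)
    refine le_trans (le_of_eq ?_) h7
    ring

end AO

end
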