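import Pool.Agent.Lib.AO.Vir
import Pool.Agent.Lib.AO.DifM

/-
STUB DifE (library AO, MP_7bfba2_an). Replace the sorries, keep the statements.
Section 8, conclusion.  Suppose κ <= ε.  gradB_small: ‖fderiv B‖ <= CB √c <= 1 for c <= 1/CB².  dif_mom: S, S4 <= M, S >= (3/2)πκ² =: s0.  virial: a S <= C √c √M + 2 C M/ℓ², and a S >= a s0: contradiction if C √c0 √M <= a s0/4 and 2CM/ℓ0² <= a s0/4.
-/

set_option autoImplicit false

open Complex MeasureTheory Set Metric Filter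
open scoped Real ContDiff Topology

noncomputable section

namespace AO

theorem diffuse_case (κ : ℝ) (hκ : 0 < κ) : ∃ c0 ℓ0 : ℝ, 0 < c0 ∧ 10 ≤ ℓ0 ∧
    ∀ (c ℓ : ℝ) (N : ℕ) (A B : ℂ → ℝ) (p : ℂ) (ε : ℝ), Sys c ℓ N A B → Top ℓ N A B p ε → c ≤ c0 → ℓ0 ≤ ℓ → ε < κ := by
  obtain ⟨C1, hC1, hgB⟩ := gradB_small
  obtain ⟨Cv, a, hCv, ha, hvir⟩ := virial
  obtain ⟨M, hM, hmom⟩ := dif_mom κ hκ
  have hs0 : 0 < 3 / 2 * π * κ ^ 2 := by positivity
  set s0 := 3 / 2 * π * κ ^ 2 with hs0def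
  have hC1' : 0 < C1 := by linarith
  have hCv' : 0 < Cv := by linarith
  have hM' : 0 < M := by linarith
  have hsM : 0 < √M := Real.sqrt_pos.2 hM'
  have hq : 0 < a * s0 / (4 * Cv * √M) := by positivity
  refine ⟨min ((1 / C1) ^ 2) ((a * s0 / (4 * Cv * √M)) ^ 2), max 10 (8 * Cv * M / (a * s0)),
    lt_min (by positivity) (by positivity), le_max_left _ _, ?_⟩
  intro c ℓ N A B p ε hS hT hc hℓ
  by_contra hcon
  have hε : κ ≤ ε := not_lt.1 hcon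
  have hc1 : √c ≤ 1 / C1 := by
    rw [← Real.sqrt_sq (show 0 ≤ 1 / C1 by positivity)]
    exact Real.sqrt_le_sqrt (hc.trans (min_le_left _ _))
  have hc2 : √c ≤ a * s0 / (4 * Cv * √M) := by
    rw [← Real.sqrt_sq hq.le]
    exact Real.sqrt_le_sqrt (hc.trans (min_le_right _ _))
  have hℓ10 : 10 ≤ ℓ := (le_max_left _ _).trans hℓ
  have hℓ2 : 8 * Cv * M / (a * s0) ≤ ℓ := (le_max_right _ _).trans hℓ
  have hB : ∀ z, ‖fderiv ℝ B z‖ ≤ 1 := by
    intro z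
    refine (hgB c ℓ N A B hS z).trans ?_
    calc C1 * √c ≤ C1 * (1 / C1) := mul_le_mul_of_nonneg_left hc1 hC1'.le
      _ = 1 := by field_simp
  obtain ⟨hm2, hm4, hlow⟩ := hmom c ℓ N A B p ε hS hT hℓ10 hB hε
  have hv := hvir c ℓ N A B hS hℓ10
  set S := ∫ x in Q ℓ, ‖x‖ ^ 2 * ff N ℓ A B x with hSdef
  set S4 := ∫ x in Q ℓ, ‖x‖ ^ 4 * ff N ℓ A B x with hS4def
  have h1 : a * s0 ≤ a * S := mul_le_mul_of_nonneg_left hlow ha.le
  have h2 : Cv * √c * √S ≤ a * s0 / 4 := by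
    calc Cv * √c * √S ≤ Cv * (a * s0 / (4 * Cv * √M)) * √M :=
          mul_le_mul (mul_le_mul_of_nonneg_left hc2 hCv'.le) (Real.sqrt_le_sqrt hm2)
            (Real.sqrt_nonneg _) (by positivity)
      _ = a * s0 / 4 := by field_simp
  have h3 : Cv * (S + S4) / ℓ ^ 2 ≤ a * s0 / 4 := by
    have hℓpos : 0 < ℓ := by linarith
    rw [div_le_iff₀ (by positivity)]
    have h4 : Cv * (S + S4) ≤ Cv * (2 * M) :=
      mul_le_mul_of_nonneg_left (by linarith) hCv'.le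
    have h5 : 8 * Cv * M ≤ ℓ * (a * s0) := by
      rwa [div_le_iff₀ (by positivity)] at hℓ2
    have h6 : ℓ ≤ ℓ ^ 2 := by nlinarith
    have h7 : ℓ * (a * s0) ≤ ℓ ^ 2 * (a * s0) :=
      mul_le_mul_of_nonneg_right h6 (by positivity)
    linarith
  have h4 : 0 < a * s0 := by positivity
  linarith

end AO

end
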