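import Pool.Agent.Lib.AO.Dist1

/-
STUB Dist2 / Dist (library AO, MP_7bfba2_an). Replace the sorries, keep the statements.
The distance dl ℓ z = infDist z (Lat ℓ) to the lattice ℓ ℤ[i] (a closed discrete subgroup).
Lat is an additive subgroup, so dl is even and Lat-periodic; infDist is 1-Lipschitz.  For |re z|, |im z| <= ℓ/2 every lattice point
ℓ(m + n i) has |z - ℓ(m+ni)|² = (x - ℓ m)² + (y - ℓ n)² >= x² + y² (as |x| <= ℓ/2 gives |x - ℓ m| >= |x|), so dl = ‖z‖.  exists_rep: m = round or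
floor of x/ℓ + 1/2.  dl_le: after translation z in Q, ‖z‖ <= ℓ/√2 <= 3ℓ/4.
-/

set_option autoImplicit false

open Complex MeasureTheory Set Metric Filter
open scoped Real ContDiff Topology

noncomputable section

namespace AO

variable {ℓ : ℝ}

namespace Dist2Aux

theorem sq_le_aux {x l : ℝ} (hl : 0 < l) (hx : |x| ≤ l / 2) (m : ℤ) :
    x ^ 2 ≤ (x - l * m) ^ 2 := by
  have h1 : (|(m : ℝ)|) ≤ (m : ℝ) ^ 2 := by
    have h2 : |m| ≤ m ^ 2 := by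
      rcases eq_or_ne m 0 with rfl | hm
      · simp
      · have h3 : 1 ≤ |m| := Int.one_le_abs hm
        calc |m| = |m| * 1 := (mul_one _).symm
          _ ≤ |m| * |m| := mul_le_mul_of_nonneg_left h3 (abs_nonneg m)
          _ = m ^ 2 := by rw [← sq, sq_abs]
    exact_mod_cast h2
  have h4 : x * m ≤ l / 2 * |(m : ℝ)| := by
    calc x * m ≤ |x * m| := le_abs_self _
      _ = |x| * |(m : ℝ)| := abs_mul _ _
      _ ≤ l / 2 * |(m : ℝ)| := mul_le_mul_of_nonneg_right hx (abs_nonneg _)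
  have h5 : 2 * l * (x * m) ≤ l ^ 2 * (m : ℝ) ^ 2 := by
    calc 2 * l * (x * m) ≤ 2 * l * (l / 2 * |(m : ℝ)|) :=
          mul_le_mul_of_nonneg_left h4 (by positivity)
      _ = l ^ 2 * |(m : ℝ)| := by ring
      _ ≤ l ^ 2 * (m : ℝ) ^ 2 := mul_le_mul_of_nonneg_left h1 (by positivity)
  nlinarith

theorem lat_re_im {z : ℂ} {m n : ℤ} (h : z = ℓ * (m + n * Complex.I)) :
    z.re = ℓ * m ∧ z.im = ℓ * n := by
  rw [h]
  constructor <;> simp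

end Dist2Aux

open Dist2Aux

theorem dl_eq_norm (hl : 0 < ℓ) (z : ℂ) (h1 : |z.re| ≤ ℓ / 2) (h2 : |z.im| ≤ ℓ / 2) : dl ℓ z = ‖z‖ := by
  apply le_antisymm (dl_le_norm z)
  obtain ⟨k, ⟨m, n, hk⟩, hd⟩ := exists_near hl z
  rw [hd]
  obtain ⟨h3, h4⟩ := lat_re_im hk
  have h5 : ‖z‖ ^ 2 ≤ ‖z - k‖ ^ 2 := by
    rw [← Complex.normSq_eq_norm_sq, ← Complex.normSq_eq_norm_sq, Complex.normSq_apply,
      Complex.normSq_apply, Complex.sub_re, Complex.sub_im, h3, h4]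
    have h6 := sq_le_aux hl h1 m
    have h7 := sq_le_aux hl h2 n
    nlinarith
  exact le_of_sq_le_sq h5 (norm_nonneg _)

theorem dl_eq_norm' (hl : 0 < ℓ) (z : ℂ) (h : ‖z‖ ≤ ℓ / 2) : dl ℓ z = ‖z‖ :=
  dl_eq_norm hl z ((Complex.abs_re_le_norm z).trans h) ((Complex.abs_im_le_norm z).trans h)

theorem dl_eq_of_mem (hl : 0 < ℓ) (z : ℂ) (h : z ∈ Q ℓ) : dl ℓ z = ‖z‖ := by
  obtain ⟨⟨h1, h2⟩, ⟨h3, h4⟩⟩ := h
  exact dl_eq_norm hl z (abs_le.2 ⟨h1, h2.le⟩) (abs_le.2 ⟨h3, h4.le⟩)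

theorem dl_le (hl : 0 < ℓ) (z : ℂ) : dl ℓ z ≤ 3 * ℓ / 4 := by
  obtain ⟨k, hk, hq⟩ := exists_rep hl z
  have h1 := dl_add_lat (z - k) k hk
  rw [sub_add_cancel] at h1
  rw [h1, dl_eq_of_mem hl _ hq]
  obtain ⟨⟨h2, h3⟩, ⟨h4, h5⟩⟩ := hq
  refine le_of_sq_le_sq ?_ (by positivity)
  rw [← Complex.normSq_eq_norm_sq, Complex.normSq_apply]
  have h6 : (z - k).re * (z - k).re ≤ (ℓ / 2) ^ 2 := by
    rw [← sq]
    exact sq_le_sq' h2 h3.le
  have h7 : (z - k).im * (z - k).im ≤ (ℓ / 2) ^ 2 := by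
    rw [← sq]
    exact sq_le_sq' h4 h5.le
  nlinarith [sq_nonneg ℓ]

theorem dl_pos_iff (hl : 0 < ℓ) (z : ℂ) : 0 < dl ℓ z ↔ z ∉ Lat ℓ := by
  constructor
  · intro h hz
    have h1 : dl ℓ z = 0 := infDist_zero_of_mem hz
    exact h.ne' h1
  · intro h
    obtain ⟨k, hk, hd⟩ := exists_near hl z
    rw [hd, norm_pos_iff]
    intro h1
    rw [sub_eq_zero.1 h1] at h
    exact h hk

theorem lat_scale (hl : 0 < ℓ) (z : ℂ) : z ∈ Lat ℓ ↔ z / ℓ ∈ Lat 1 := by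
  have hl0 : (ℓ : ℂ) ≠ 0 := by exact_mod_cast hl.ne'
  constructor
  · rintro ⟨m, n, h⟩
    refine ⟨m, n, ?_⟩
    rw [h, Complex.ofReal_one, one_mul, mul_div_cancel_left₀ _ hl0]
  · rintro ⟨m, n, h⟩
    refine ⟨m, n, ?_⟩
    rw [Complex.ofReal_one, one_mul, div_eq_iff hl0] at h
    rw [h, mul_comm]

theorem dl_scale (hl : 0 < ℓ) (z : ℂ) : dl ℓ z = ℓ * dl 1 (z / ℓ) := by
  have hl0 : (ℓ : ℂ) ≠ 0 := by exact_mod_cast hl.ne'
  apply le_antisymm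
  · obtain ⟨k, hk, hd⟩ := exists_near one_pos (z / ℓ)
    rw [hd]
    have h1 : ℓ * k ∈ Lat ℓ := by
      rw [lat_scale hl, mul_div_cancel_left₀ _ hl0]
      exact hk
    have h2 : dl ℓ z ≤ dist z (ℓ * k) := infDist_le_dist_of_mem h1
    refine h2.trans (le_of_eq ?_)
    rw [dist_eq_norm]
    have h3 : z - ℓ * k = ℓ * (z / ℓ - k) := by
      field_simp
    rw [h3, norm_mul, Complex.norm_real, Real.norm_of_nonneg hl.le]
  · obtain ⟨k, hk, hd⟩ := exists_near hl z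
    rw [hd]
    have h1 : k / ℓ ∈ Lat 1 := (lat_scale hl k).1 hk
    have h2 : dl 1 (z / ℓ) ≤ dist (z / ℓ) (k / ℓ) := infDist_le_dist_of_mem h1
    have h3 : z - k = ℓ * (z / ℓ - k / ℓ) := by
      field_simp
    rw [h3, norm_mul, Complex.norm_real, Real.norm_of_nonneg hl.le]
    refine mul_le_mul_of_nonneg_left ?_ hl.le
    rwa [dist_eq_norm] at h2

theorem Dist2Aux.vv_scale0 : VV ℓ = ℓ * VV 1 := by
  unfold VV
  push_cast
  ring

theorem vl_scale (hl : 0 < ℓ) (z : ℂ) : z ∈ VL ℓ ↔ z / ℓ ∈ VL 1 := by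
  have hl0 : (ℓ : ℂ) ≠ 0 := by exact_mod_cast hl.ne'
  show z - VV ℓ ∈ Lat ℓ ↔ z / ℓ - VV 1 ∈ Lat 1
  rw [lat_scale hl]
  have h : (z - VV ℓ) / ℓ = z / ℓ - VV 1 := by
    rw [Dist2Aux.vv_scale0, sub_div, mul_div_cancel_left₀ _ hl0]
  rw [h]

theorem vv_scale (hl : 0 < ℓ) : VV ℓ = ℓ * VV 1 := by
  exact Dist2Aux.vv_scale0

/-- A vortex is far from the lattice. -/
theorem dl_vv (hl : 0 < ℓ) (z : ℂ) : ℓ / 2 ≤ dl ℓ z + dl ℓ (z - VV ℓ) := by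
  have hre : (VV ℓ).re = ℓ / 2 := by
    unfold VV
    simp
  have him : (VV ℓ).im = ℓ / 2 := by
    unfold VV
    simp
  have habs : |ℓ / 2| ≤ ℓ / 2 := by
    rw [abs_of_pos (by positivity)]
  have h1 : dl ℓ (VV ℓ) = ‖VV ℓ‖ :=
    dl_eq_norm hl _ (by rw [hre]; exact habs) (by rw [him]; exact habs)
  have h2 : ℓ / 2 ≤ ‖VV ℓ‖ := by
    have h3 := Complex.abs_re_le_norm (VV ℓ)
    rw [hre, abs_of_pos (by positivity)] at h3
    exact h3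
  have h4 := dl_add_le (ℓ := ℓ) z (-(z - VV ℓ))
  rw [dl_neg] at h4
  have h5 : z + -(z - VV ℓ) = VV ℓ := by ring
  rw [h5, h1] at h4
  linarith

theorem isClosed_vl (hl : 0 < ℓ) : IsClosed (VL ℓ) := by
  have h : VL ℓ = (fun z => dl ℓ (z - VV ℓ)) ⁻¹' {0} := by
    ext z
    show z - VV ℓ ∈ Lat ℓ ↔ dl ℓ (z - VV ℓ) = 0
    have h1 := dl_pos_iff hl (z - VV ℓ)
    have h2 := dl_nonneg (ℓ := ℓ) (z - VV ℓ)
    constructor
    · intro hz
      by_contra h3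
      exact h1.1 (lt_of_le_of_ne h2 (Ne.symm h3)) hz
    · intro hz
      by_contra h3
      exact (h1.2 h3).ne' hz
  rw [h]
  exact isClosed_singleton.preimage
    ((continuous_dl (ℓ := ℓ)).comp (continuous_id.sub continuous_const))

end AO

end
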