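import Pool.Agent.Lib.AO.GamBd1

/-
GamBd2 / GamBd (library AO, MP_7bfba2_an): radial concavity of the vortex potential near the lattice.
γ := Gam 1 1, Gam N ℓ z = N γ(z/ℓ).  γ is smooth near 0 with γ 0 = 0, fderiv γ 0 = 0 and γ z <= -c ‖z‖².  With L = fderiv (fderiv γ) 0:
 ‖fderiv γ z - L z‖ <= ε ‖z‖ near 0, hence |γ z - L z z/2| <= ε ‖z‖² and fderiv γ z z <= L z z + ε ‖z‖² <= 2 γ z + 3 ε ‖z‖² <= -c ‖z‖².
-/

set_option autoImplicit false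

open Complex MeasureTheory Set Metric Filter
open scoped Real ContDiff Topology

noncomputable section

namespace AO

private theorem GamBd2_zero_notMem : (0 : ℂ) ∉ VL 1 := (F_pos_iff 0).1 F_zero_pos

private theorem GamBd2_gam_eq (N : ℕ) (ℓ : ℝ) (z : ℂ) : Gam N ℓ z = N * Gam 1 1 (z / ℓ) := by
  unfold Gam
  simp only [Complex.ofReal_one, div_one, Nat.cast_one]
  ring

private theorem GamBd2_contDiffAt : ContDiffAt ℝ ∞ (Gam 1 1) 0 :=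
  contDiffAt_Gam 1 one_pos 0 GamBd2_zero_notMem

private theorem GamBd2_bound : ∃ c δ : ℝ, 0 < c ∧ 0 < δ ∧ ∀ z : ℂ, ‖z‖ ≤ δ → Gam 1 1 z ≤ -c * ‖z‖ ^ 2 := by
  obtain ⟨c, hc, hF⟩ := F_gauss
  have hpos : ∀ᶠ z in 𝓝 (0 : ℂ), 0 < F z := F_continuous.continuousAt.eventually (lt_mem_nhds F_zero_pos)
  obtain ⟨δ, hδ, h⟩ := Metric.eventually_nhds_iff.1 hpos
  refine ⟨2 * c, min (δ / 2) (1 / 2), by positivity, by positivity, fun z hz => ?_⟩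
  have h1 : ‖z‖ ≤ δ / 2 := hz.trans (min_le_left _ _)
  have h2 : ‖z‖ ≤ 1 / 2 := hz.trans (min_le_right _ _)
  have h3 : 0 < F z := h (by rw [dist_zero_right]; linarith)
  have h4 : dl 1 z = ‖z‖ := dl_eq_norm' one_pos z h2
  have h5 := hF z
  rw [h4] at h5
  have h6 : F z / F 0 ≤ Real.exp (-c * ‖z‖ ^ 2) := by
    rw [div_le_iff₀ F_zero_pos]
    linarith [mul_comm (F 0) (Real.exp (-c * ‖z‖ ^ 2))]
  have h7 : Real.log (F z / F 0) ≤ -c * ‖z‖ ^ 2 := by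
    rw [Real.log_le_iff_le_exp (div_pos h3 F_zero_pos)]
    exact h6
  unfold Gam
  simp only [Complex.ofReal_one, div_one, Nat.cast_one]
  linarith

private theorem GamBd2_fderiv_zero : fderiv ℝ (Gam 1 1) 0 = 0 := by
  obtain ⟨c, δ, hc, hδ, h⟩ := GamBd2_bound
  apply IsLocalMax.fderiv_eq_zero
  have : ∀ᶠ z in 𝓝 (0 : ℂ), ‖z‖ ≤ δ := by
    filter_upwards [Metric.ball_mem_nhds (0 : ℂ) hδ] with z hz
    rw [mem_ball_zero_iff] at hz
    exact hz.le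
  filter_upwards [this] with z hz
  rw [Gam_zero]
  have := h z hz
  nlinarith [sq_nonneg ‖z‖]

private theorem GamBd2_key : ∃ c δ : ℝ, 0 < c ∧ 0 < δ ∧ ∀ z : ℂ, ‖z‖ ≤ δ →
    DifferentiableAt ℝ (Gam 1 1) z ∧ fderiv ℝ (Gam 1 1) z z ≤ -c * ‖z‖ ^ 2 := by
  obtain ⟨c, δ0, hc, hδ0, hb⟩ := GamBd2_bound
  have hsm := GamBd2_contDiffAt
  have hd1 : ∀ᶠ z in 𝓝 (0 : ℂ), DifferentiableAt ℝ (Gam 1 1) z := by
    have := (hsm.of_le (m := 1) (by exact_mod_cast le_top)).eventually (by exact_mod_cast ENat.one_ne_top)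
    filter_upwards [this] with z hz
    exact hz.differentiableAt (by simp)
  have hd2 : DifferentiableAt ℝ (fderiv ℝ (Gam 1 1)) 0 := by
    have : ContDiffAt ℝ 1 (fderiv ℝ (Gam 1 1)) 0 := hsm.fderiv_right (by decide)
    exact this.differentiableAt (by simp)
  set L := fderiv ℝ (fderiv ℝ (Gam 1 1)) 0 with hL
  have hlit := hd2.hasFDerivAt.isLittleO
  have hlit2 := hlit.def (c := c / 3) (by positivity)
  rw [GamBd2_fderiv_zero] at hlit2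
  obtain ⟨δ1, hδ1, h1⟩ := Metric.eventually_nhds_iff.1 (hd1.and hlit2)
  refine ⟨c, min δ0 (δ1 / 2), hc, by positivity, fun z hz => ?_⟩
  have hz0 : ‖z‖ ≤ δ0 := hz.trans (min_le_left _ _)
  have hz1 : ‖z‖ ≤ δ1 / 2 := hz.trans (min_le_right _ _)
  have hin : ∀ t ∈ Icc (0 : ℝ) 1, dist ((t : ℝ) • z) 0 < δ1 := by
    intro t ht
    rw [dist_zero_right, norm_smul, Real.norm_eq_abs, abs_of_nonneg ht.1]
    nlinarith [norm_nonneg z, ht.2, ht.1]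
  have hdiff : ∀ t ∈ Icc (0 : ℝ) 1, DifferentiableAt ℝ (Gam 1 1) (t • z) := fun t ht => (h1 (hin t ht)).1
  have hest : ∀ t ∈ Icc (0 : ℝ) 1, |fderiv ℝ (Gam 1 1) (t • z) z - t * L z z| ≤ c / 3 * ‖z‖ ^ 2 := by
    intro t ht
    have h2 := (h1 (hin t ht)).2
    simp only [sub_zero] at h2
    have h3 : fderiv ℝ (Gam 1 1) (t • z) z - t * L z z = (fderiv ℝ (Gam 1 1) (t • z) - L (t • z)) z := by
      rw [map_smul]
      simp
    rw [h3]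
    have h4 : ‖(fderiv ℝ (Gam 1 1) (t • z) - L (t • z)) z‖ ≤ ‖fderiv ℝ (Gam 1 1) (t • z) - L (t • z)‖ * ‖z‖ :=
      ContinuousLinearMap.le_opNorm _ _
    rw [Real.norm_eq_abs] at h4
    have h5 : ‖t • z‖ ≤ ‖z‖ := by
      rw [norm_smul, Real.norm_eq_abs, abs_of_nonneg ht.1]
      nlinarith [norm_nonneg z, ht.2, ht.1]
    calc _ ≤ ‖fderiv ℝ (Gam 1 1) (t • z) - L (t • z)‖ * ‖z‖ := h4
      _ ≤ (c / 3 * ‖t • z‖) * ‖z‖ := by gcongr
      _ ≤ (c / 3 * ‖z‖) * ‖z‖ := by gcongr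
      _ = c / 3 * ‖z‖ ^ 2 := by ring
  -- the function φ(t) = γ(tz) - t²/2 L z z
  have hφ : ∀ t ∈ Icc (0 : ℝ) 1, HasDerivWithinAt (fun t : ℝ => Gam 1 1 (t • z) - t ^ 2 / 2 * L z z)
      (fderiv ℝ (Gam 1 1) (t • z) z - t * L z z) (Icc 0 1) t := by
    intro t ht
    have e1 : HasDerivAt (fun t : ℝ => t • z) z t := by
      simpa using (hasDerivAt_id t).smul_const z
    have e2 : HasDerivAt (fun t : ℝ => Gam 1 1 (t • z)) (fderiv ℝ (Gam 1 1) (t • z) z) t :=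
      HasFDerivAt.comp_hasDerivAt (f := fun t : ℝ => t • z) t (hdiff t ht).hasFDerivAt e1
    have e3 : HasDerivAt (fun t : ℝ => t ^ 2 / 2 * L z z) (t * L z z) t := by
      have h0 := ((hasDerivAt_pow 2 t).div_const 2).mul_const (L z z)
      have h1 : ((2 : ℕ) : ℝ) * t ^ (2 - 1) / 2 * L z z = t * L z z := by
        norm_num
      rw [← h1]
      exact h0
    exact (e2.sub e3).hasDerivWithinAt
  have hmv := (convex_Icc (0 : ℝ) 1).norm_image_sub_le_of_norm_hasDerivWithin_le (C := c / 3 * ‖z‖ ^ 2) hφ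
    (fun t ht => by rw [Real.norm_eq_abs]; exact hest t ht) (left_mem_Icc.2 zero_le_one) (right_mem_Icc.2 zero_le_one)
  have h6 := hest 1 (right_mem_Icc.2 zero_le_one)
  simp only [one_smul, one_mul] at h6
  simp only [one_smul, zero_smul, Gam_zero, Real.norm_eq_abs] at hmv
  norm_num at hmv
  have h7 := hb z hz0
  have h8 := abs_le.1 h6
  have h9 := abs_le.1 hmv
  refine ⟨by simpa using hdiff 1 (right_mem_Icc.2 zero_le_one), ?_⟩
  nlinarith [h8.2, h9.1, h7]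

theorem gam_conc : ∃ c5 c2 : ℝ, 0 < c5 ∧ c5 ≤ 1 / 8 ∧ 0 < c2 ∧ ∀ (c ℓ : ℝ) (N : ℕ) (z : ℂ), 0 < c → c < 1 →
    10 ≤ ℓ → ℓ ^ 2 = 4 * π * N - 8 * π * (1 - c) → ‖z‖ ≤ c5 * ℓ →
    fderiv ℝ (Gam N ℓ) z z ≤ -c2 * ‖z‖ ^ 2 := by
  obtain ⟨k, δ, hk, hδ, h⟩ := GamBd2_key
  refine ⟨min δ (1 / 8), k / (4 * π), by positivity, min_le_right _ _, by positivity, ?_⟩
  intro c ℓ N z hc0 hc1 hl harea hz
  have hl0 : 0 < ℓ := by linarith
  have hlC : (ℓ : ℂ) ≠ 0 := by exact_mod_cast hl0.ne'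
  have hnorm : ‖z / ℓ‖ = ‖z‖ / ℓ := by
    rw [norm_div, Complex.norm_real, Real.norm_eq_abs, abs_of_pos hl0]
  have hz1 : ‖z / ℓ‖ ≤ δ := by
    rw [hnorm, div_le_iff₀ hl0]
    exact hz.trans (mul_le_mul_of_nonneg_right (min_le_left _ _) hl0.le)
  obtain ⟨hd, hle⟩ := h (z / ℓ) hz1
  have hfun : Gam N ℓ = fun w => (N : ℝ) * Gam 1 1 (ℓ⁻¹ • w) := by
    funext w
    rw [GamBd2_gam_eq]
    congr 2
    rw [Complex.real_smul, div_eq_inv_mul]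
    push_cast
    ring
  have hzs : z / ℓ = ℓ⁻¹ • z := by
    rw [Complex.real_smul, div_eq_inv_mul]
    push_cast
    ring
  have hder : HasFDerivAt (Gam N ℓ) ((N : ℝ) • ((fderiv ℝ (Gam 1 1) (z / ℓ)).comp (ℓ⁻¹ • ContinuousLinearMap.id ℝ ℂ))) z := by
    rw [hfun]
    have e1 : HasFDerivAt (fun w : ℂ => ℓ⁻¹ • w) (ℓ⁻¹ • ContinuousLinearMap.id ℝ ℂ) z :=
      (hasFDerivAt_id z).const_smul ℓ⁻¹
    rw [hzs] at hd ⊢
    exact (hd.hasFDerivAt.comp z e1).const_mul (N : ℝ)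
  rw [hder.fderiv]
  have e2 : ((N : ℝ) • ((fderiv ℝ (Gam 1 1) (z / ℓ)).comp (ℓ⁻¹ • ContinuousLinearMap.id ℝ ℂ))) z =
      N * fderiv ℝ (Gam 1 1) (z / ℓ) (z / ℓ) := by
    simp only [_root_.smul_apply, ContinuousLinearMap.comp_apply, ContinuousLinearMap.id_apply, smul_eq_mul, hzs]
  rw [e2, ]
  have hN : ℓ ^ 2 ≤ 4 * π * N := by
    have : 0 ≤ 8 * π * (1 - c) := by
      have := Real.pi_pos
      have h2 : 0 ≤ 1 - c := by linarith
      positivity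
    linarith
  have hN0 : (0 : ℝ) ≤ N := Nat.cast_nonneg N
  calc (N : ℝ) * fderiv ℝ (Gam 1 1) (z / ℓ) (z / ℓ) ≤ N * (-k * ‖z / ℓ‖ ^ 2) := by gcongr
    _ = -(k * ‖z‖ ^ 2) * (N / ℓ ^ 2) := by rw [hnorm]; field_simp
    _ ≤ -(k * ‖z‖ ^ 2) * (1 / (4 * π)) := by
      have h5 : 1 / (4 * π) ≤ N / ℓ ^ 2 := by
        rw [div_le_div_iff₀ (by positivity) (by positivity)]
        linarith
      have h6 : 0 ≤ k * ‖z‖ ^ 2 := by positivity
      nlinarith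
    _ = -(k / (4 * π)) * ‖z‖ ^ 2 := by ring

end AO

end
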