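import Pool.Agent.Lib.AO.SysB
import Pool.Agent.Lib.AO.Rep
import Pool.Agent.Lib.AO.KInt

/-
Module OscA (library AO, MP_7bfba2_an).
(2.3), (2.4).  rep_value': A x - A x' = ∫ (Gl(x-y) - Gl(x'-y)) ff(y) dy.
 kernel_diff: by g_log, Gl(x-y) - Gl(x'-y) <= (1/2π) log(dl(x'-y)/dl(x-y)) + 2C1, and dl(x'-y) <= dl(x-y) + D, D = ‖x-x'‖ (dl_lip), so it is <= (1/2π) log(1 + D/dl(x-y)) + 2C1
  for x - y, x' - y not in Lat ℓ.
 osc_A: with x' = p (and symmetrically): A x - A p <= (1/2π) ∫ ff log(1 + D/dl(x-y)) + 16π C1 <= (1/2π)(8π log(1+D/ε) + (π ε²/2)(8/ε²)) + 16πC1 = 4 log(1+D/ε) + 2 + 16πC1 (kint_log with ρ = ε, M = 8/ε², m = 8π).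
 top_gam: ff 0 <= ff p: 0 = Gam 0, so A 0 - B 0 <= Gam p + A p - B p (ff = exp uu; 0, p not in VL), i.e. -Gam p <= A p - A 0 + B 0 - B p <= 4 log(1+‖p‖/ε) + C2 + ‖p‖ (mean value inequality for B).
-/

set_option autoImplicit false

open Complex MeasureTheory Set Metric Filter
open scoped Real ContDiff Topology

noncomputable section

namespace AO

namespace OscAAux

theorem lat_ae (ℓ : ℝ) (x : ℂ) : ∀ᵐ y : ℂ, x - y ∉ Lat ℓ := by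
  have hc : (Lat ℓ).Countable := by
    have h1 : Lat ℓ = Set.range (fun p : ℤ × ℤ => (ℓ : ℂ) * ((p.1 : ℂ) + (p.2 : ℂ) * Complex.I)) := by
      ext z
      constructor
      · rintro ⟨m, n, h⟩
        exact ⟨(m, n), h.symm⟩
      · rintro ⟨⟨m, n⟩, h⟩
        exact ⟨m, n, h.symm⟩
    rw [h1]
    exact Set.countable_range _
  have h2 : {y : ℂ | ¬ (x - y ∉ Lat ℓ)} = (fun z => x - z) '' Lat ℓ := by
    ext y
    simp only [mem_ofPred_eq, not_not, mem_image]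
    constructor
    · intro h
      exact ⟨x - y, h, by ring⟩
    · rintro ⟨z, hz, rfl⟩
      simpa using hz
  rw [ae_iff, h2]
  exact (hc.image _).measure_zero _

end OscAAux

open OscAAux

theorem kernel_diff : ∃ C : ℝ, 0 < C ∧ ∀ (ℓ : ℝ) (x x' y : ℂ), 0 < ℓ → x - y ∉ Lat ℓ → x' - y ∉ Lat ℓ →
    Gl ℓ (x - y) - Gl ℓ (x' - y) ≤ (1 / (2 * π)) * Real.log (dl ℓ (x' - y) / dl ℓ (x - y)) + C ∧
    Gl ℓ (x - y) - Gl ℓ (x' - y) ≤ (1 / (2 * π)) * Real.log (1 + ‖x - x'‖ / dl ℓ (x - y)) + C := by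
  obtain ⟨C1, hC1, hg⟩ := g_log
  refine ⟨2 * C1, by linarith, fun ℓ x x' y hl hx hx' => ?_⟩
  have h1 := abs_le.1 (hg ℓ (x - y) hl hx)
  have h2 := abs_le.1 (hg ℓ (x' - y) hl hx')
  have hd : 0 < dl ℓ (x - y) := (dl_pos_iff hl _).2 hx
  have hd' : 0 < dl ℓ (x' - y) := (dl_pos_iff hl _).2 hx'
  have hπ : 0 ≤ 1 / (2 * π) := by positivity
  have e1 : Real.log (dl ℓ (x - y) / ℓ) = Real.log (dl ℓ (x - y)) - Real.log ℓ :=
    Real.log_div hd.ne' hl.ne'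
  have e2 : Real.log (dl ℓ (x' - y) / ℓ) = Real.log (dl ℓ (x' - y)) - Real.log ℓ :=
    Real.log_div hd'.ne' hl.ne'
  have e3 : Real.log (dl ℓ (x' - y) / dl ℓ (x - y)) =
      Real.log (dl ℓ (x' - y)) - Real.log (dl ℓ (x - y)) := Real.log_div hd'.ne' hd.ne'
  rw [e1] at h1
  rw [e2] at h2
  have h3 : Gl ℓ (x - y) - Gl ℓ (x' - y) ≤
      (1 / (2 * π)) * Real.log (dl ℓ (x' - y) / dl ℓ (x - y)) + 2 * C1 := by
    rw [e3]
    linarith [h1.2, h2.1]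
  refine ⟨h3, h3.trans ?_⟩
  have h4 : dl ℓ (x' - y) / dl ℓ (x - y) ≤ 1 + ‖x - x'‖ / dl ℓ (x - y) := by
    have h5 := dl_lip (ℓ := ℓ) (x' - y) (x - y)
    have h6 : ‖x' - y - (x - y)‖ = ‖x - x'‖ := by
      rw [sub_sub_sub_cancel_right, norm_sub_rev]
    rw [h6] at h5
    rw [div_le_iff₀ hd, add_mul, one_mul, div_mul_cancel₀ _ hd.ne']
    exact h5
  have h7 := Real.log_le_log (by positivity) h4
  have h8 := mul_le_mul_of_nonneg_left h7 hπ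
  linarith

namespace OscAAux

variable {c ℓ : ℝ} {N : ℕ} {A B : ℂ → ℝ} {p : ℂ} {ε : ℝ}

theorem osc_half (C : ℝ) (hK : ∀ (ℓ : ℝ) (x x' y : ℂ), 0 < ℓ → x - y ∉ Lat ℓ → x' - y ∉ Lat ℓ →
    Gl ℓ (x - y) - Gl ℓ (x' - y) ≤ (1 / (2 * π)) * Real.log (1 + ‖x - x'‖ / dl ℓ (x - y)) + C)
    (h : Sys c ℓ N A B) (ht : Top ℓ N A B p ε) (x x' : ℂ) :
    A x - A x' ≤ 4 * Real.log (1 + ‖x - x'‖ / ε) + (2 + 8 * π * C) := by
  have hε := ht.pos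
  have hff0 := ff_nonneg N ℓ A B
  have hffc := h.contDiff_ff.continuous
  have hffi : IntegrableOn (ff N ℓ A B) (Q ℓ) := integrableOn_Q_of_continuous h.l0 _ hffc
  obtain ⟨hk1, hk2⟩ := kint_log h.l0 (ff N ℓ A B) h.per_ff hffc hff0
      (8 / ε ^ 2) (8 * π) ht.le h.int_ff.le x ε ‖x - x'‖ hε (norm_nonneg _)
  rw [rep_value' h.l0 A h.sA h.pA (8 * π / ℓ ^ 2) (ff N ℓ A B) h.eA x x']
  have hi1 : IntegrableOn (fun y => (Gl ℓ (x - y) - Gl ℓ (x' - y)) * ff N ℓ A B y) (Q ℓ) := by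
    have h1 := (integrableOn_G h.l0 x _ hffc h.per_ff).sub (integrableOn_G h.l0 x' _ hffc h.per_ff)
    refine h1.congr (Eventually.of_forall fun y => ?_)
    simp only [Pi.sub_apply]
    ring
  have hi2 : IntegrableOn (fun y => (1 / (2 * π)) * (ff N ℓ A B y *
      Real.log (1 + ‖x - x'‖ / dl ℓ (x - y))) + C * ff N ℓ A B y) (Q ℓ) :=
    (hk1.const_mul _).add (hffi.const_mul C)
  have h2 : ∫ y in Q ℓ, (Gl ℓ (x - y) - Gl ℓ (x' - y)) * ff N ℓ A B y ≤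
      ∫ y in Q ℓ, ((1 / (2 * π)) * (ff N ℓ A B y *
      Real.log (1 + ‖x - x'‖ / dl ℓ (x - y))) + C * ff N ℓ A B y) := by
    refine integral_mono_ae hi1 hi2 ?_
    filter_upwards [ae_restrict_of_ae (lat_ae ℓ x), ae_restrict_of_ae (lat_ae ℓ x')] with y hy hy'
    have h3 := mul_le_mul_of_nonneg_right (hK ℓ x x' y h.l0 hy hy') (hff0 y)
    refine h3.trans (le_of_eq ?_)
    ring
  refine h2.trans ?_
  rw [integral_add (hk1.const_mul _) (hffi.const_mul C), integral_const_mul, integral_const_mul,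
    h.int_ff]
  have hπ := Real.pi_pos
  have h4 : (1 / (2 * π)) * ∫ y in Q ℓ, ff N ℓ A B y * Real.log (1 + ‖x - x'‖ / dl ℓ (x - y)) ≤
      (1 / (2 * π)) * (8 * π * Real.log (1 + ‖x - x'‖ / ε) + π * ε ^ 2 / 2 * (8 / ε ^ 2)) :=
    mul_le_mul_of_nonneg_left hk2 (by positivity)
  have h5 : (1 / (2 * π)) * (8 * π * Real.log (1 + ‖x - x'‖ / ε) + π * ε ^ 2 / 2 * (8 / ε ^ 2)) =
      4 * Real.log (1 + ‖x - x'‖ / ε) + 2 := by
    field_simp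
    ring
  rw [h5] at h4
  linarith

end OscAAux

theorem osc_A : ∃ C : ℝ, 1 ≤ C ∧ ∀ (c ℓ : ℝ) (N : ℕ) (A B : ℂ → ℝ) (p : ℂ) (ε : ℝ), Sys c ℓ N A B →
    Top ℓ N A B p ε → ∀ x : ℂ, |A x - A p| ≤ 4 * Real.log (1 + ‖x - p‖ / ε) + C := by
  obtain ⟨C, hC, hK⟩ := kernel_diff
  have hK' : ∀ (ℓ : ℝ) (x x' y : ℂ), 0 < ℓ → x - y ∉ Lat ℓ → x' - y ∉ Lat ℓ →
    Gl ℓ (x - y) - Gl ℓ (x' - y) ≤ (1 / (2 * π)) * Real.log (1 + ‖x - x'‖ / dl ℓ (x - y)) + C :=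
    fun ℓ x x' y h1 h2 h3 => (hK ℓ x x' y h1 h2 h3).2
  have hπ := Real.pi_pos
  refine ⟨2 + 8 * π * C, by nlinarith [mul_pos hπ hC], fun c ℓ N A B p ε h ht x => ?_⟩
  have h1 := osc_half C hK' h ht x p
  have h2 := osc_half C hK' h ht p x
  rw [norm_sub_rev p x] at h2
  rw [abs_le]
  constructor <;> linarith

theorem top_gam : ∃ C : ℝ, 1 ≤ C ∧ ∀ (c ℓ : ℝ) (N : ℕ) (A B : ℂ → ℝ) (p : ℂ) (ε : ℝ), Sys c ℓ N A B →
    Top ℓ N A B p ε → (∀ z, ‖fderiv ℝ B z‖ ≤ 1) →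
    -(Gam N ℓ p) ≤ 4 * Real.log (1 + ‖p‖ / ε) + C + ‖p‖ := by
  obtain ⟨C, hC, hA⟩ := osc_A
  refine ⟨C, hC, fun c ℓ N A B p ε h ht hB => ?_⟩
  have hl := h.l0
  have h0 : (0 : ℂ) ∉ VL ℓ := by
    intro hc
    have h1 := dl_vv hl 0
    have h2 : dl ℓ 0 ≤ ‖(0 : ℂ)‖ := dl_le_norm 0
    rw [norm_zero] at h2
    have h3 : 0 < dl ℓ (0 - VV ℓ) := by linarith
    exact (dl_pos_iff hl _).1 h3 hc
  have hp := h.top_off p ε ht
  have h1 : ff N ℓ A B 0 ≤ ff N ℓ A B p := by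
    rw [ht.top]
    exact ht.le 0
  rw [h.ff_eq_exp 0 h0, h.ff_eq_exp p hp, Real.exp_le_exp] at h1
  unfold uu at h1
  rw [Gam_zero] at h1
  have h2 := abs_le.1 (hA c ℓ N A B p ε h ht 0)
  have h3 := abs_le.1 (h.B_lip hB 0 p)
  rw [zero_sub, norm_neg] at h2 h3
  linarith [h2.1, h3.2]

end AO

end
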