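import Pool.Agent.Lib.AO.SysB2
import Pool.Agent.Lib.AO.OscA
import Pool.Agent.Lib.AO.GamBd
import Pool.Agent.Lib.AO.Dist

/-
STUB DifG (library AO, MP_7bfba2_an). Replace the sorries, keep the statements.
Section 8, Gaussian bound.  p in Q, dl p = ‖p‖; top_gam and gam_gauss: c2‖p‖² <= -Gam p <= 4 log(1+‖p‖/ε) + C + ‖p‖ <= 4‖p‖/κ + C + ‖p‖, so ‖p‖ <= C(κ) and -Gam p <= C(κ).
 x in Q not in VL ℓ (else ff x = 0): ff_ratio, osc_A, B_lip: ff x <= (8/κ²) (1+‖x-p‖/κ)⁴ e^(C2) e^(‖x-p‖) exp(Gam x - Gam p), ‖x-p‖ <= ‖x‖ + C(κ), Gam x <= -c2‖x‖² (gam_gauss, dl x = ‖x‖).  a := c2/2, absorb the polynomial and exp(‖x‖) into exp(-(c2/2)‖x‖²).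
-/

set_option autoImplicit false

open Complex MeasureTheory Set Metric Filter
open scoped Real ContDiff Topology

noncomputable section

namespace AO

private theorem DifG_log_le {t : ℝ} (ht : 0 ≤ t) : Real.log (1 + t) ≤ t := by
  have := Real.log_le_sub_one_of_pos (show (0 : ℝ) < 1 + t by linarith)
  linarith

theorem dif_gauss (κ : ℝ) (hκ : 0 < κ) : ∃ C a : ℝ, 0 < C ∧ 0 < a ∧ ∀ (c ℓ : ℝ) (N : ℕ) (A B : ℂ → ℝ) (p : ℂ) (ε : ℝ),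
    Sys c ℓ N A B → Top ℓ N A B p ε → 10 ≤ ℓ → (∀ z, ‖fderiv ℝ B z‖ ≤ 1) → κ ≤ ε →
    ∀ x ∈ Q ℓ, ff N ℓ A B x ≤ C * Real.exp (-a * ‖x‖ ^ 2) := by
  obtain ⟨c2, hc2, hgauss⟩ := gam_gauss
  obtain ⟨C2, hC2, hosc⟩ := osc_A
  obtain ⟨C3, hC3, htop⟩ := top_gam
  obtain ⟨b, hb⟩ : ∃ b : ℝ, b = 4 / κ + 1 := ⟨_, rfl⟩
  have hb0 : 0 < b := by rw [hb]; positivity
  obtain ⟨R, hR⟩ : ∃ R : ℝ, R = (b + C3) / c2 + 1 := ⟨_, rfl⟩
  have hR1 : 1 ≤ R := by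
    rw [hR]
    have : 0 ≤ (b + C3) / c2 := by positivity
    linarith
  have hRc : c2 * R = b + C3 + c2 := by
    rw [hR]
    field_simp
  refine ⟨8 / κ ^ 2 * Real.exp ((b * R + C3) + b * R + C2 + b ^ 2 / (2 * c2)), c2 / 2, by positivity,
    by positivity, ?_⟩
  intro c ℓ N A B p ε hS hT hl hB hε x hx
  have hl0 : 0 < ℓ := by linarith
  have hε0 : 0 < ε := hT.pos
  have hlin : ∀ t : ℝ, 0 ≤ t → 4 * Real.log (1 + t / ε) ≤ 4 / κ * t := by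
    intro t ht
    have h1 : Real.log (1 + t / ε) ≤ t / ε := DifG_log_le (by positivity)
    have h2 : t / ε ≤ t / κ := by gcongr
    calc 4 * Real.log (1 + t / ε) ≤ 4 * (t / κ) := by linarith
      _ = 4 / κ * t := by ring
  -- the maximum point
  have hpV : p ∉ VL ℓ := hS.top_off p ε hT
  have hpd : dl ℓ p = ‖p‖ := dl_eq_of_mem hl0 p hT.mem
  have hg1 := hgauss c ℓ N p hS.c0 hS.c1 hl hS.area hpV
  rw [hpd] at hg1
  have hg2 := htop c ℓ N A B p ε hS hT hB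
  have hg3 := hlin ‖p‖ (norm_nonneg p)
  have hG : -(Gam N ℓ p) ≤ b * ‖p‖ + C3 := by
    rw [hb]
    linarith
  have hP : ‖p‖ ≤ R := by
    by_contra hc
    push Not at hc
    have h1 : c2 * ‖p‖ ^ 2 ≤ b * ‖p‖ + C3 := by linarith
    have h2 : 0 ≤ c2 * (‖p‖ - R) * ‖p‖ :=
      mul_nonneg (mul_nonneg hc2.le (sub_nonneg.2 hc.le)) (norm_nonneg p)
    have h3 : (c2 * R) * ‖p‖ ≤ c2 * ‖p‖ ^ 2 := by nlinarith
    rw [hRc] at h3
    have h4 : 1 < ‖p‖ := lt_of_le_of_lt hR1 hc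
    have h5 : (C3 + c2) * 1 < (C3 + c2) * ‖p‖ := mul_lt_mul_of_pos_left h4 (by linarith)
    linarith
  have hG0 : -(Gam N ℓ p) ≤ b * R + C3 := by
    have : b * ‖p‖ ≤ b * R := mul_le_mul_of_nonneg_left hP hb0.le
    linarith
  by_cases hxV : x ∈ VL ℓ
  · rw [hS.ff_eq_zero x hxV]
    positivity
  · have hxd : dl ℓ x = ‖x‖ := dl_eq_of_mem hl0 x hx
    have hx1 := hgauss c ℓ N x hS.c0 hS.c1 hl hS.area hxV
    rw [hxd] at hx1
    rw [hS.ff_ratio x p hxV hpV, hT.top]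
    have ho := (abs_le.1 (hosc c ℓ N A B p ε hS hT x)).2
    have ho2 := hlin ‖x - p‖ (norm_nonneg _)
    have hBl := (abs_le.1 (hS.B_lip hB x p)).1
    have hxp : ‖x - p‖ ≤ ‖x‖ + R := (norm_sub_le x p).trans (by linarith)
    have hbx : b * ‖x - p‖ ≤ b * (‖x‖ + R) := mul_le_mul_of_nonneg_left hxp hb0.le
    have hbe : b * ‖x - p‖ = 4 / κ * ‖x - p‖ + ‖x - p‖ := by rw [hb]; ring
    have hsq : b * ‖x‖ ≤ c2 / 2 * ‖x‖ ^ 2 + b ^ 2 / (2 * c2) := by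
      have h1 : c2 / 2 * ‖x‖ ^ 2 + b ^ 2 / (2 * c2) - b * ‖x‖ = (c2 * ‖x‖ - b) ^ 2 / (2 * c2) := by
        field_simp
        ring
      have h2 : 0 ≤ (c2 * ‖x‖ - b) ^ 2 / (2 * c2) := by positivity
      linarith
    have hexp : Gam N ℓ x - Gam N ℓ p + (A x - A p) - (B x - B p) ≤
        ((b * R + C3) + b * R + C2 + b ^ 2 / (2 * c2)) + -(c2 / 2) * ‖x‖ ^ 2 := by
      nlinarith
    have h8 : 8 / ε ^ 2 ≤ 8 / κ ^ 2 := by gcongr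
    calc 8 / ε ^ 2 * Real.exp (Gam N ℓ x - Gam N ℓ p + (A x - A p) - (B x - B p))
        ≤ 8 / κ ^ 2 * Real.exp (((b * R + C3) + b * R + C2 + b ^ 2 / (2 * c2)) +
            -(c2 / 2) * ‖x‖ ^ 2) := by
          apply mul_le_mul h8 (Real.exp_le_exp.2 hexp) (Real.exp_pos _).le (by positivity)
      _ = 8 / κ ^ 2 * Real.exp ((b * R + C3) + b * R + C2 + b ^ 2 / (2 * c2)) *
            Real.exp (-(c2 / 2) * ‖x‖ ^ 2) := by
          rw [Real.exp_add]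
          ring

end AO

end
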