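import Pool.Agent.Lib.AO.Defs

/-
Module Dist1 / Dist (library AO, MP_7bfba2_an).
The distance dl ℓ z = infDist z (Lat ℓ) to the lattice ℓ ℤ[i] (a closed discrete subgroup).
Lat is an additive subgroup, so dl is even and Lat-periodic; infDist is 1-Lipschitz.  For |re z|, |im z| <= ℓ/2 every lattice point
ℓ(m + n i) has |z - ℓ(m+ni)|² = (x - ℓ m)² + (y - ℓ n)² >= x² + y² (as |x| <= ℓ/2 gives |x - ℓ m| >= |x|), so dl = ‖z‖.  exists_rep: m = round or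
floor of x/ℓ + 1/2.  dl_le: after translation z in Q, ‖z‖ <= ℓ/√2 <= 3ℓ/4.
-/

set_option autoImplicit false

open Complex MeasureTheory Set Metric Filter
open scoped Real ContDiff Topology

noncomputable section

namespace AO

variable {ℓ : ℝ}

theorem lat_add {z w : ℂ} (hz : z ∈ Lat ℓ) (hw : w ∈ Lat ℓ) : z + w ∈ Lat ℓ := by
  obtain ⟨m, n, rfl⟩ := hz
  obtain ⟨m', n', rfl⟩ := hw
  exact ⟨m + m', n + n', by push_cast; ring⟩

theorem lat_neg {z : ℂ} (hz : z ∈ Lat ℓ) : -z ∈ Lat ℓ := by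
  obtain ⟨m, n, rfl⟩ := hz
  exact ⟨-m, -n, by push_cast; ring⟩

theorem lat_zero : (0 : ℂ) ∈ Lat ℓ := by
  exact ⟨0, 0, by simp⟩

theorem per_lat {E : Type} (h : ℂ → E) (hh : Per ℓ h) (z k : ℂ) (hk : k ∈ Lat ℓ) : h (z + k) = h z := by
  obtain ⟨m, n, rfl⟩ := hk
  have h1 : Function.Periodic h (ℓ : ℂ) := hh.1
  have h2 : Function.Periodic h (ℓ * Complex.I) := hh.2
  have h3 := (h2.int_mul n) (z + m * ℓ)
  have h4 := (h1.int_mul m) z
  rw [← h4, ← h3]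
  congr 1
  ring

theorem dl_nonneg (z : ℂ) : 0 ≤ dl ℓ z := by
  exact infDist_nonneg

theorem dl_le_norm (z : ℂ) : dl ℓ z ≤ ‖z‖ := by
  have h := infDist_le_dist_of_mem (x := z) (lat_zero (ℓ := ℓ))
  rwa [dist_zero_right] at h

theorem dl_neg (z : ℂ) : dl ℓ (-z) = dl ℓ z := by
  have key : ∀ w : ℂ, dl ℓ (-w) ≤ dl ℓ w := by
    intro w
    refine (le_infDist ⟨0, lat_zero⟩).2 fun k hk => ?_
    refine (infDist_le_dist_of_mem (lat_neg hk)).trans (le_of_eq ?_)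
    rw [dist_neg_neg]
  refine le_antisymm (key z) ?_
  have := key (-z)
  rwa [neg_neg] at this

theorem dl_add_lat (z k : ℂ) (hk : k ∈ Lat ℓ) : dl ℓ (z + k) = dl ℓ z := by
  have key : ∀ w k : ℂ, k ∈ Lat ℓ → dl ℓ (w + k) ≤ dl ℓ w := by
    intro w k hk
    refine (le_infDist ⟨0, lat_zero⟩).2 fun j hj => ?_
    refine (infDist_le_dist_of_mem (lat_add hj hk)).trans (le_of_eq ?_)
    rw [dist_add_right]
  refine le_antisymm (key z k hk) ?_
  have := key (z + k) (-k) (lat_neg hk)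
  rwa [add_neg_cancel_right] at this

theorem per_dl : Per ℓ (dl ℓ) := by
  exact ⟨fun z => dl_add_lat z _ ⟨1, 0, by simp⟩, fun z => dl_add_lat z _ ⟨0, 1, by simp⟩⟩

theorem dl_lip (z w : ℂ) : dl ℓ z ≤ dl ℓ w + ‖z - w‖ := by
  have h := infDist_le_infDist_add_dist (s := Lat ℓ) (x := z) (y := w)
  rwa [dist_eq_norm] at h

theorem dl_add_le (z w : ℂ) : dl ℓ (z + w) ≤ dl ℓ z + dl ℓ w := by
  have h : dl ℓ (z + w) - dl ℓ w ≤ dl ℓ z := by
    refine (le_infDist ⟨0, lat_zero⟩).2 fun k hk => ?_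
    have h1 := dl_add_lat (ℓ := ℓ) (z + w) (-k) (lat_neg hk)
    have h2 := dl_lip (ℓ := ℓ) (z + w + -k) w
    rw [h1, show z + w + -k - w = z - k by ring] at h2
    rw [dist_eq_norm]
    linarith
  linarith

theorem continuous_dl : Continuous (dl ℓ) := by
  exact continuous_infDist_pt (Lat ℓ)

theorem exists_near (hl : 0 < ℓ) (z : ℂ) : ∃ k ∈ Lat ℓ, dl ℓ z = ‖z - k‖ := by
  have hcl : IsClosed (Lat ℓ) := by
    have h1 : Lat ℓ = {z : ℂ | z.re / ℓ ∈ range ((↑) : ℤ → ℝ)} ∩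
        {z : ℂ | z.im / ℓ ∈ range ((↑) : ℤ → ℝ)} := by
      ext z
      constructor
      · rintro ⟨m, n, rfl⟩
        refine ⟨⟨m, ?_⟩, ⟨n, ?_⟩⟩
        · simp [hl.ne']
        · simp [hl.ne']
      · rintro ⟨⟨m, hm⟩, ⟨n, hn⟩⟩
        refine ⟨m, n, ?_⟩
        rw [eq_div_iff hl.ne'] at hm hn
        apply Complex.ext
        · simp [← hm, mul_comm]
        · simp [← hn, mul_comm]
    have h2 : IsClosed (range ((↑) : ℤ → ℝ)) := Int.isClosedEmbedding_coe_real.isClosed_range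
    rw [h1]
    exact (h2.preimage (Complex.continuous_re.div_const ℓ)).inter
      (h2.preimage (Complex.continuous_im.div_const ℓ))
  obtain ⟨k, hk, hk2⟩ := hcl.exists_infDist_eq_dist ⟨0, lat_zero⟩ z
  exact ⟨k, hk, by rw [← dist_eq_norm]; exact hk2⟩

theorem exists_rep (hl : 0 < ℓ) (z : ℂ) : ∃ k ∈ Lat ℓ, z - k ∈ Q ℓ := by
  have key : ∀ x : ℝ, x - ℓ * (⌊x / ℓ + 1 / 2⌋ : ℤ) ∈ Ico (-(ℓ / 2)) (ℓ / 2) := by
    intro x
    have h1 := Int.floor_le (x / ℓ + 1 / 2)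
    have h2 := Int.lt_floor_add_one (x / ℓ + 1 / 2)
    have h3 : ℓ * (x / ℓ + 1 / 2) = x + ℓ / 2 := by field_simp
    have h4 := mul_le_mul_of_nonneg_left h1 hl.le
    have h5 := mul_lt_mul_of_pos_left h2 hl
    rw [h3] at h4 h5
    constructor <;> linarith
  refine ⟨ℓ * ((⌊z.re / ℓ + 1 / 2⌋ : ℤ) + (⌊z.im / ℓ + 1 / 2⌋ : ℤ) * Complex.I),
    ⟨_, _, rfl⟩, ?_, ?_⟩
  · have := key z.re
    simpa using this
  · have := key z.im
    simpa using this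

end AO

end
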