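import Pool.Agent.Lib.AO.Defs

/-!
Ambjorn-Olesen vortices (MP_7bfba2_an): the good profile at scale `δ`, and cut-off radial fields.
-/

set_option autoImplicit false

open Complex MeasureTheory Set Metric
open scoped Real ContDiff Topology

noncomputable section

namespace AO

/-- The good profile at scale `δ` near the maximum point `p`, with constants `c4`, `C0`. -/
structure Pro (c ℓ : ℝ) (N : ℕ) (A B : ℂ → ℝ) (p : ℂ) (ε δ c4 C0 : ℝ) : Prop where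
  loc : Loc c ℓ N A B p ε δ
  eps : ε ≤ c4 * δ ^ 2
  prof : ∀ z, ‖z - p‖ ≤ c4 * δ →
    |ff N ℓ A B z / f0 ε ‖z - p‖ - 1| ≤ C0 * ((‖z - p‖ * √‖z - p‖) / (δ * √δ))
  prof10 : ∀ z, ‖z - p‖ ≤ c4 * δ → |ff N ℓ A B z / f0 ε ‖z - p‖ - 1| ≤ 1 / 10
  mass : 8 * π - ∫ z in ball p (c4 * δ), ff N ℓ A B z ≤ C0 * (ε / δ)
  out : ∀ x, c4 * δ ≤ dl ℓ (x - p) → ff N ℓ A B x ≤ C0 * ε ^ 2 / dl ℓ (x - p) ^ 4 * (1 + dl ℓ (x - p)) *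
    Real.exp (Gam N ℓ x - Gam N ℓ p + dl ℓ (x - p))

/-- `k` is a cut-off function at scale `c5 ℓ`; the field is `k x • x`. -/
structure Fld (c5 C ℓ : ℝ) (k : ℂ → ℝ) : Prop where
  sm : ContDiff ℝ ∞ k
  nn : ∀ z, 0 ≤ k z
  le : ∀ z, k z ≤ 1
  one : ∀ z, ‖z‖ ≤ c5 * ℓ / 2 → k z = 1
  zero : ∀ z, c5 * ℓ ≤ ‖z‖ → k z = 0
  dk : ∀ z, ‖fderiv ℝ k z‖ ≤ C / ℓ

end AO

end
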