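import Pool.Agent.Lib.AO.FarNum
import Pool.Agent.Lib.AO.SysB2
import Pool.Agent.Lib.AO.OscA
import Pool.Agent.Lib.AO.GamBd
import Pool.Agent.Lib.AO.Dist
import Pool.Agent.Lib.AO.ProDef

/-
STUB FarLoc (library AO, MP_7bfba2_an). Replace the sorries, keep the statements.
Section 7, choice of the scale.  p in Q ℓ, dl ℓ p = ‖p‖ >= c6 ℓ, p not in VL ℓ (top_off), D := dl ℓ (p - VV ℓ) > 0 (dl_pos_iff), X := -Gam p.  far_X: gam_gauss: X >= c2 c6² ℓ²; gam_vort: X >= 2N log(ℓ/(C D)).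
 top_gam: X <= 4 log(1+‖p‖/ε) + C2 + ‖p‖, ‖p‖ <= ℓ (dl_le).  For ℓ large C2 + ℓ <= X/2, so 1 + ℓ/ε >= e^(X/8) >= 2, ε <= 2ℓ e^(-X/8).
 δ := c10 min(1,D)/ℓ².  On ball p (2δ): dl(z - VV) >= D - 2δ >= D/2 > 0, so z is not in VL ℓ and gam_grad: ‖fderiv Gam z‖ <= Cg ℓ dl(z)/dl(z - VV) <= Cg ℓ (3ℓ/4)/(D/2) <= 2 Cg ℓ²/min(1,D) = 2 Cg c10/δ <= 1/δ for c10 = min(1, 1/(2Cg)).
 ε <= e1 δ² iff ε ℓ⁴ <= e1 c10² min(1,D)²: by far_num (a = c2 c6², C, K = 2/(e1 c10²)): e^(-X/8) <= e^(-X/16) <= min(1,D)²/(K ℓ^10 e^ℓ), so 2ℓ e^(-X/8) ℓ⁴ <= ....  Also ε <= e1 δ² and δ <= 1; if e1 > 1 use far_num with K = max(2, 2/(e1 c10²)) to get ε <= 1.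
-/

set_option autoImplicit false

open Complex MeasureTheory Set Metric Filter
open scoped Real ContDiff Topology

noncomputable section

namespace AO

theorem far_X (c6 : ℝ) (h6 : 0 < c6) : ∃ a C : ℝ, 0 < a ∧ 0 < C ∧ ∀ (c ℓ : ℝ) (N : ℕ) (A B : ℂ → ℝ) (p : ℂ) (ε : ℝ),
    Sys c ℓ N A B → Top ℓ N A B p ε → 10 ≤ ℓ → c6 * ℓ ≤ ‖p‖ → 0 < dl ℓ (p - VV ℓ) ∧ ℓ ^ 2 ≤ 4 * π * N ∧
    a * ℓ ^ 2 ≤ -Gam N ℓ p ∧ 2 * N * Real.log (ℓ / (C * dl ℓ (p - VV ℓ))) ≤ -Gam N ℓ p := by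
  obtain ⟨c2, hc2, hg⟩ := gam_gauss
  obtain ⟨C, hC, hv⟩ := gam_vort
  refine ⟨c2 * c6 ^ 2, C, by positivity, hC, ?_⟩
  intro c ℓ N A B p ε hS hT hl hp
  have hl0 : 0 < ℓ := by linarith
  have hoff := hS.top_off p ε hT
  have hD : 0 < dl ℓ (p - VV ℓ) := (dl_pos_iff hl0 _).2 hoff
  refine ⟨hD, (GamBd1Aux.area_bounds hS.c0 hS.c1 hl hS.area).1, ?_, ?_⟩
  · have h1 := hg c ℓ N p hS.c0 hS.c1 hl hS.area hoff
    rw [dl_eq_of_mem hl0 p hT.mem] at h1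
    have h2 : (c6 * ℓ) ^ 2 ≤ ‖p‖ ^ 2 := pow_le_pow_left₀ (by positivity) hp 2
    nlinarith
  · have h1 := hv ℓ N p hl hoff
    have h2 : Real.log (ℓ / (C * dl ℓ (p - VV ℓ))) = -Real.log (C * dl ℓ (p - VV ℓ) / ℓ) := by
      rw [← Real.log_inv, inv_div]
    rw [h2]
    linarith

theorem far_loc (c6 e1 : ℝ) (h6 : 0 < c6) (he : 0 < e1) : ∃ c10 ℓ0 : ℝ, 0 < c10 ∧ c10 ≤ 1 ∧ 10 ≤ ℓ0 ∧
    ∀ (c ℓ : ℝ) (N : ℕ) (A B : ℂ → ℝ) (p : ℂ) (ε : ℝ), Sys c ℓ N A B → Top ℓ N A B p ε → ℓ0 ≤ ℓ →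
    (∀ z, ‖fderiv ℝ B z‖ ≤ 1) → c6 * ℓ ≤ ‖p‖ →
    Loc c ℓ N A B p ε (c10 * min 1 (dl ℓ (p - VV ℓ)) / ℓ ^ 2) ∧
      ε ≤ e1 * (c10 * min 1 (dl ℓ (p - VV ℓ)) / ℓ ^ 2) ^ 2 ∧ ε ≤ 1 := by
  obtain ⟨a, C, ha, hC, hX⟩ := far_X c6 h6
  obtain ⟨C2, hC2, hT2⟩ := top_gam
  obtain ⟨Cg, hCg, hgr⟩ := gam_grad
  set c10 : ℝ := min 1 (1 / (2 * Cg)) with hc10
  have hc10pos : 0 < c10 := lt_min one_pos (by positivity)
  have hc10le : c10 ≤ 1 := min_le_left _ _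
  have hc10g : c10 * (2 * Cg) ≤ 1 := by
    have h1 : c10 ≤ 1 / (2 * Cg) := min_le_right _ _
    rw [le_div_iff₀ (by positivity)] at h1
    exact h1
  set K : ℝ := max 2 (2 / (e1 * c10 ^ 2)) with hKdef
  have hK2 : 2 ≤ K := le_max_left _ _
  have hK : 0 < K := by linarith
  have hKe : 2 ≤ K * (e1 * c10 ^ 2) := by
    have h1 : 2 / (e1 * c10 ^ 2) ≤ K := le_max_right _ _
    rw [div_le_iff₀ (by positivity)] at h1
    exact h1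
  obtain ⟨ℓn, hℓn, hnum⟩ := far_num a C K ha hC hK
  refine ⟨c10, max ℓn (max C2 (4 / a)), hc10pos, hc10le, hℓn.trans (le_max_left _ _), ?_⟩
  intro c ℓ N A B p ε hS hT hl hB hp
  have hl1 : ℓn ≤ ℓ := (le_max_left _ _).trans hl
  have hl2 : C2 ≤ ℓ := ((le_max_left _ _).trans (le_max_right _ _)).trans hl
  have hl3 : 4 / a ≤ ℓ := ((le_max_right _ _).trans (le_max_right _ _)).trans hl
  have hten : 10 ≤ ℓ := hℓn.trans hl1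
  have hl0 : 0 < ℓ := by linarith
  have hε := hT.pos
  obtain ⟨hD, hN, hX1, hX2⟩ := hX c ℓ N A B p ε hS hT hten hp
  set D : ℝ := dl ℓ (p - VV ℓ) with hDdef
  set X : ℝ := -Gam N ℓ p with hXdef
  set μ : ℝ := min 1 D with hμ
  have hμ0 : 0 < μ := lt_min one_pos hD
  have hμ1 : μ ≤ 1 := min_le_left _ _
  have hμD : μ ≤ D := min_le_right _ _
  have hnum' := hnum ℓ D X N hl1 hD hN hX1 hX2
  -- the bound for `ε`
  have hpn : ‖p‖ ≤ ℓ := by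
    have h1 := dl_le hl0 p
    rw [dl_eq_of_mem hl0 p hT.mem] at h1
    linarith
  have haℓ : 4 ≤ ℓ * a := by
    rw [div_le_iff₀ ha] at hl3
    exact hl3
  have hX3 : 40 ≤ X := by nlinarith
  have hhalf : C2 + ℓ ≤ X / 2 := by nlinarith
  have hlog : X / 8 ≤ Real.log (1 + ℓ / ε) := by
    have h1 := hT2 c ℓ N A B p ε hS hT hB
    have h2 : Real.log (1 + ‖p‖ / ε) ≤ Real.log (1 + ℓ / ε) := by
      apply Real.log_le_log (by positivity)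
      have : ‖p‖ / ε ≤ ℓ / ε := div_le_div_of_nonneg_right hpn hε.le
      linarith
    linarith
  have hexp : Real.exp (X / 8) ≤ 1 + ℓ / ε := by
    have h1 := Real.exp_le_exp.2 hlog
    rwa [Real.exp_log (by positivity)] at h1
  have htwo : 2 ≤ Real.exp (X / 8) := by
    have h1 := Real.add_one_le_exp (X / 8)
    linarith
  have hεb : ε * Real.exp (X / 8) ≤ 2 * ℓ := by
    have h1 : ε * Real.exp (X / 8) ≤ ε + ℓ := by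
      have h2 := mul_le_mul_of_nonneg_left hexp hε.le
      have h3 : ε * (1 + ℓ / ε) = ε + ℓ := by field_simp
      linarith
    nlinarith
  have hexp16 : Real.exp (X / 16) ≤ Real.exp (X / 8) := Real.exp_le_exp.2 (by linarith)
  have hεc : ε * (K * ℓ ^ 10) ≤ 2 * ℓ * μ ^ 2 := by
    have h1 : K * ℓ ^ 10 ≤ K * ℓ ^ 10 * Real.exp ℓ :=
      le_mul_of_one_le_right (by positivity) (Real.one_le_exp hl0.le)
    have h2 : K * ℓ ^ 10 ≤ Real.exp (X / 8) * μ ^ 2 :=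
      (h1.trans hnum'.le).trans (mul_le_mul_of_nonneg_right hexp16 (by positivity))
    calc ε * (K * ℓ ^ 10) ≤ ε * (Real.exp (X / 8) * μ ^ 2) := mul_le_mul_of_nonneg_left h2 hε.le
      _ = (ε * Real.exp (X / 8)) * μ ^ 2 := by ring
      _ ≤ 2 * ℓ * μ ^ 2 := mul_le_mul_of_nonneg_right hεb (by positivity)
  have hεd : ε * (K * ℓ ^ 9) ≤ 2 * μ ^ 2 := by
    have h1 : ε * (K * ℓ ^ 10) = ℓ * (ε * (K * ℓ ^ 9)) := by ring
    have h2 : 2 * ℓ * μ ^ 2 = ℓ * (2 * μ ^ 2) := by ring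
    rw [h1, h2] at hεc
    exact le_of_mul_le_mul_left hεc hl0
  have hℓ1 : 1 ≤ ℓ := by linarith
  have hℓ4 : ℓ ^ 4 ≤ ℓ ^ 9 := pow_le_pow_right₀ hℓ1 (by norm_num)
  have hℓ9 : 1 ≤ ℓ ^ 9 := one_le_pow₀ hℓ1
  set δ : ℝ := c10 * μ / ℓ ^ 2 with hδ
  have hδ0 : 0 < δ := by positivity
  have hℓsq : 100 ≤ ℓ ^ 2 := by nlinarith
  have hδl : δ * ℓ ^ 2 = c10 * μ := by
    rw [hδ]
    field_simp
  have hδμ : 100 * δ ≤ μ := by nlinarith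
  refine ⟨⟨hS, hT, hten, hB, hδ0, by linarith, ?_, ?_⟩, ?_, ?_⟩
  · intro z hz
    rw [mem_ball, dist_eq_norm] at hz
    have h1 := dl_lip (ℓ := ℓ) (p - VV ℓ) (z - VV ℓ)
    rw [sub_sub_sub_cancel_right, norm_sub_rev] at h1
    have h2 : 0 < dl ℓ (z - VV ℓ) := by linarith
    exact (dl_pos_iff hl0 _).1 h2
  · intro z hz
    rw [mem_ball, dist_eq_norm] at hz
    have h1 := dl_lip (ℓ := ℓ) (p - VV ℓ) (z - VV ℓ)
    rw [sub_sub_sub_cancel_right, norm_sub_rev] at h1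
    have h2 : D / 2 ≤ dl ℓ (z - VV ℓ) := by linarith
    have h3 : 0 < dl ℓ (z - VV ℓ) := by linarith
    have hzV : z ∉ VL ℓ := (dl_pos_iff hl0 _).1 h3
    refine (hgr c ℓ N z hS.c0 hS.c1 hten hS.area hzV).trans ?_
    rw [div_le_div_iff₀ h3 hδ0, one_mul]
    have h4 := dl_le hl0 z
    have h5 : Cg * ℓ * dl ℓ z * δ ≤ Cg * ℓ * ℓ * δ := by
      have : dl ℓ z ≤ ℓ := by linarith
      gcongr
    have h6' : Cg * ℓ * ℓ * δ = c10 * Cg * μ := by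
      have : Cg * ℓ * ℓ * δ = Cg * (δ * ℓ ^ 2) := by ring
      rw [this, hδl]
      ring
    have h7 : c10 * Cg * μ ≤ 1 / 2 * μ := by
      apply mul_le_mul_of_nonneg_right _ hμ0.le
      linarith
    linarith
  · have h1 : ε * (K * ℓ ^ 4) ≤ 2 * μ ^ 2 := by
      refine le_trans ?_ hεd
      gcongr
    have h2 : e1 * δ ^ 2 = e1 * c10 ^ 2 * μ ^ 2 / ℓ ^ 4 := by
      rw [hδ]
      field_simp
    rw [h2, le_div_iff₀ (by positivity)]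
    have h3 : 2 * μ ^ 2 ≤ K * (e1 * c10 ^ 2) * μ ^ 2 :=
      mul_le_mul_of_nonneg_right hKe (by positivity)
    have h4 : K * (ε * ℓ ^ 4) ≤ K * (e1 * c10 ^ 2 * μ ^ 2) := by
      calc K * (ε * ℓ ^ 4) = ε * (K * ℓ ^ 4) := by ring
        _ ≤ 2 * μ ^ 2 := h1
        _ ≤ K * (e1 * c10 ^ 2) * μ ^ 2 := h3
        _ = K * (e1 * c10 ^ 2 * μ ^ 2) := by ring
    exact le_of_mul_le_mul_left h4 hK
  · have h1 : ε * 2 ≤ ε * (K * ℓ ^ 9) := by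
      apply mul_le_mul_of_nonneg_left _ hε.le
      nlinarith
    have h2 : μ ^ 2 ≤ 1 := by nlinarith
    linarith

end AO

end
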