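import Pool.Agent.Lib.AO.SysB2
import Pool.Agent.Lib.AO.OscA
import Pool.Agent.Lib.AO.GamBd
import Pool.Agent.Lib.AO.Dist

/-
STUB FarLow (library AO, MP_7bfba2_an). Replace the sorries, keep the statements.
Section 7, lower bound of the mass near the origin.  x in ball 0 1 (not in VL ℓ by gam_near, Gam x >= -Cg), p in Q ℓ: ‖p‖ = dl p <= 3ℓ/4, ‖x-p‖ <= 1 + 3ℓ/4 <= ℓ.  osc_A: A x - A p >= -4 log(1+ℓ/ε) - C2 >= -4 log(2ℓ/ε) - C2 (ε <= 1 <= ℓ).
 ff_ratio: ff x = (8/ε²) exp(Gam x - Gam p + (A x - A p) - (B x - B p)) >= (8/ε²)(ε/(2ℓ))⁴ exp(-Cg - C2 - ℓ - Gam p) = (1/2) ε²/ℓ⁴ exp(...).  Integrate over ball 0 1 (area π, π/2 >= 1).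
-/

set_option autoImplicit false

open Complex MeasureTheory Set Metric Filter
open scoped Real ContDiff Topology

noncomputable section

namespace AO

theorem far_low : ∃ C : ℝ, 0 < C ∧ ∀ (c ℓ : ℝ) (N : ℕ) (A B : ℂ → ℝ) (p : ℂ) (ε : ℝ), Sys c ℓ N A B →
    Top ℓ N A B p ε → 10 ≤ ℓ → (∀ z, ‖fderiv ℝ B z‖ ≤ 1) → ε ≤ 1 →
    ε ^ 2 / ℓ ^ 4 * Real.exp (-C - ℓ - Gam N ℓ p) ≤ ∫ z in ball (0 : ℂ) 1, ff N ℓ A B z := by
  obtain ⟨Cg, hCg, hg⟩ := gam_near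
  obtain ⟨C2, hC2, ho⟩ := osc_A
  refine ⟨Cg + C2, by linarith, fun c ℓ N A B p ε hs ht hl hB hε => ?_⟩
  have hl0 : 0 < ℓ := hs.l0
  have he0 : 0 < ε := ht.pos
  have hpn : ‖p‖ ≤ 3 * ℓ / 4 := by
    rw [← dl_eq_of_mem hl0 p ht.mem]
    exact dl_le hl0 p
  have hpV : p ∉ VL ℓ := hs.top_off p ε ht
  have hpt : ∀ x ∈ ball (0 : ℂ) 1, 1 / 2 * (ε ^ 2 / ℓ ^ 4 * Real.exp (-(Cg + C2) - ℓ - Gam N ℓ p)) ≤ ff N ℓ A B x := by
    intro x hx
    rw [mem_ball_zero_iff] at hx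
    obtain ⟨hxV, -, hxG⟩ := hg c ℓ N x hs.c0 hs.c1 hl hs.area (by linarith)
    have hxG' : -Cg ≤ Gam N ℓ x := by
      refine le_trans ?_ hxG
      have : ‖x‖ ^ 2 ≤ 1 := pow_le_one₀ (norm_nonneg _) hx.le
      nlinarith
    have hd : ‖x - p‖ ≤ ℓ := by
      have := norm_sub_le x p
      linarith
    have hA := ho c ℓ N A B p ε hs ht x
    have hlog : Real.log (1 + ‖x - p‖ / ε) ≤ Real.log (2 * ℓ / ε) := by
      apply Real.log_le_log (by positivity)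
      rw [le_div_iff₀ he0, add_mul, div_mul_cancel₀ _ he0.ne']
      linarith
    have hA' : -(4 * Real.log (2 * ℓ / ε)) - C2 ≤ A x - A p := by
      have := (abs_le.mp hA).1
      linarith
    have hB' : B x - B p ≤ ℓ := (le_abs_self _).trans ((hs.B_lip hB x p).trans hd)
    rw [hs.ff_ratio x p hxV hpV, ht.top]
    have hexp : Real.exp (-(4 * Real.log (2 * ℓ / ε))) = (ε / (2 * ℓ)) ^ 4 := by
      have h1 : -(4 * Real.log (2 * ℓ / ε)) = ((4 : ℕ) : ℝ) * Real.log (ε / (2 * ℓ)) := by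
        rw [← inv_div ε (2 * ℓ), Real.log_inv]
        push_cast
        ring
      rw [h1, Real.exp_nat_mul, Real.exp_log (by positivity)]
    calc 1 / 2 * (ε ^ 2 / ℓ ^ 4 * Real.exp (-(Cg + C2) - ℓ - Gam N ℓ p))
        = 8 / ε ^ 2 * ((ε / (2 * ℓ)) ^ 4 * Real.exp (-(Cg + C2) - ℓ - Gam N ℓ p)) := by
          field_simp
          ring
      _ = 8 / ε ^ 2 * Real.exp (-(4 * Real.log (2 * ℓ / ε)) + (-(Cg + C2) - ℓ - Gam N ℓ p)) := by
          rw [Real.exp_add, hexp]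
      _ ≤ 8 / ε ^ 2 * Real.exp (Gam N ℓ x - Gam N ℓ p + (A x - A p) - (B x - B p)) := by
          refine mul_le_mul_of_nonneg_left (Real.exp_le_exp.mpr ?_) (by positivity)
          linarith
  have hcont : Continuous (ff N ℓ A B) := hs.contDiff_ff.continuous
  have hint : IntegrableOn (fun x => ff N ℓ A B x) (ball (0 : ℂ) 1) :=
    (hcont.locallyIntegrable.integrableOn_isCompact (isCompact_closedBall (0 : ℂ) 1)).mono_set ball_subset_closedBall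
  have hvol : volume (ball (0 : ℂ) 1) = ENNReal.ofReal 1 ^ 2 * (NNReal.pi : ENNReal) := Complex.volume_ball 0 1
  have hne : volume (ball (0 : ℂ) 1) ≠ ⊤ := measure_ball_lt_top.ne
  have hreal : volume.real (ball (0 : ℂ) 1) = π := by
    rw [Measure.real, hvol]
    simp
  have hmain := setIntegral_ge_of_const_le (μ := volume) measurableSet_ball hne hpt hint
  rw [hreal, smul_eq_mul] at hmain
  refine le_trans ?_ hmain
  have hpi := Real.pi_gt_three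
  have hX : 0 ≤ ε ^ 2 / ℓ ^ 4 * Real.exp (-(Cg + C2) - ℓ - Gam N ℓ p) := by positivity
  nlinarith

end AO

end
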