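import Pool.Agent.Lib.AO.SysB2
import Pool.Agent.Lib.AO.Radial
import Pool.Agent.Lib.AO.ProDef

/-
STUB FarW (library AO, MP_7bfba2_an). Replace the sorries, keep the statements.
Section 7, upper bound of the interaction.  η = c4 δ.  On ball p (2δ): ww = -A/2 + B/(2c) and uu = Gam + A - B give ww = -uu/2 + Gam/2 - B/2 + B/(2c).  For ‖x-p‖ = s <= η choose x1 with ‖x1 - p‖ = η: ww x1 <= 0 (ww_le), so
 ww x <= -(uu x - uu x1)/2 + |Gam x - Gam x1|/2 + |1/(2c) - 1/2| |B x - B x1|, ‖x - x1‖ <= 2η <= δ/2, |Gam x - Gam x1| <= 1/2 (Loc.gG, mean value inequality on the ball), |B x - B x1| <= 1/2 (B_lip): ww x <= -(uu x - uu x1)/2 + 1/4 + 1/(4c) (0 < c < 1).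
 exp(-(uu x - uu x1)/2) = √(ff x1/ff x) <= √((11/9) f0(η)/f0(s)) <= 2(ε²+s²)/(ε²+η²) <= 2(ε²+s²)/η² (Pro.prof10).
 W(s) := ∫_{ball p s} exp ww <= π s² e^(1/4+1/(4c)) 2(ε²+s²)/η², ff <= (11/10) f0 = (11/10) 8ε²/(ε²+s²)²:
 ∫ W ff <= e^(1/4+1/(4c)) (2π/η²)(88/10) ε² ∫_{ball p η} s²/(ε²+s²) <= C e^(1/c) ε² (last integral <= πη²).
-/

set_option autoImplicit false

open Complex MeasureTheory Set Metric Filter
open scoped Real ContDiff Topology

noncomputable section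

namespace AO

namespace FarWAux

variable {c ℓ : ℝ} {N : ℕ} {A B : ℂ → ℝ} {p : ℂ} {ε δ c4 C0 : ℝ}

theorem ball_real (a : ℂ) (r : ℝ) (hr : 0 ≤ r) : (volume : Measure ℂ).real (ball a r) = π * r ^ 2 := by
  unfold Measure.real
  rw [Complex.volume_ball, ENNReal.toReal_mul, ENNReal.toReal_pow, ENNReal.toReal_ofReal hr]
  simp
  ring

theorem prof_bds (h : Pro c ℓ N A B p ε δ c4 C0) {x : ℂ} (hx : ‖x - p‖ ≤ c4 * δ) :
    9 / 10 * f0 ε ‖x - p‖ ≤ ff N ℓ A B x ∧ ff N ℓ A B x ≤ 11 / 10 * f0 ε ‖x - p‖ := by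
  have hε := h.loc.top.pos
  have hf : 0 < f0 ε ‖x - p‖ := by unfold f0; positivity
  have h1 := abs_le.1 (h.prof10 x hx)
  have e : ff N ℓ A B x = ff N ℓ A B x / f0 ε ‖x - p‖ * f0 ε ‖x - p‖ := by
    rw [div_mul_cancel₀ _ hf.ne']
  constructor
  · rw [e]
    exact mul_le_mul_of_nonneg_right (by linarith [h1.1]) hf.le
  · rw [e]
    exact mul_le_mul_of_nonneg_right (by linarith [h1.2]) hf.le

theorem key (h4 : 0 < c4) (h4' : c4 ≤ 1 / 4) (h : Pro c ℓ N A B p ε δ c4 C0) {x : ℂ}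
    (hx : ‖x - p‖ ≤ c4 * δ) :
    Real.exp (ww c A B x) ≤ Real.exp (1 / 4 + 1 / (4 * c)) *
      (2 * (ε ^ 2 + ‖x - p‖ ^ 2) / (c4 * δ) ^ 2) := by
  have hS := h.loc.sys
  have hl := hS.l0
  have hc := hS.c0
  have hc1 := hS.c1
  have hδ := h.loc.dpos
  have hδ1 := h.loc.dle
  have hε := h.loc.top.pos
  have hη0 : 0 < c4 * δ := by positivity
  have hη4 : c4 * δ ≤ δ / 4 := by nlinarith
  have hx1n : ‖(p + ((c4 * δ : ℝ) : ℂ)) - p‖ = c4 * δ := by
    rw [add_sub_cancel_left, Complex.norm_real, Real.norm_of_nonneg hη0.le]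
  set x1 : ℂ := p + ((c4 * δ : ℝ) : ℂ) with hx1
  have hb : x ∈ ball p (2 * δ) := by
    rw [mem_ball, dist_eq_norm]
    linarith
  have hb1 : x1 ∈ ball p (2 * δ) := by
    rw [mem_ball, dist_eq_norm, hx1n]
    linarith
  have hoff := h.loc.off x hb
  have hoff1 := h.loc.off x1 hb1
  have hdist : ‖x - x1‖ ≤ δ / 2 := by
    have e : x - x1 = (x - p) - (x1 - p) := by ring
    rw [e]
    refine (norm_sub_le _ _).trans ?_
    rw [hx1n]
    linarith
  have hGam : |Gam N ℓ x - Gam N ℓ x1| ≤ 1 / 2 := by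
    have h1 := (convex_ball p (2 * δ)).norm_image_sub_le_of_norm_fderiv_le (𝕜 := ℝ)
      (f := Gam N ℓ) (C := 1 / δ)
      (fun z hz => (contDiffAt_Gam N hl z (h.loc.off z hz)).differentiableAt (by simp))
      (fun z hz => h.loc.gG z hz) hb1 hb
    rw [Real.norm_eq_abs] at h1
    refine h1.trans ((mul_le_mul_of_nonneg_left hdist (by positivity)).trans (le_of_eq ?_))
    field_simp
  have hB : |B x - B x1| ≤ 1 / 2 := by
    refine (hS.B_lip h.loc.gB x x1).trans (hdist.trans ?_)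
    linarith
  have hww1 := hS.ww_le x1
  have hk : 0 ≤ 1 / (2 * c) - 1 / 2 := by
    have : 1 ≤ 1 / c := by
      rw [le_div_iff₀ hc]
      linarith
    have e : 1 / (2 * c) = 1 / c / 2 := by field_simp
    rw [e]
    linarith
  have hwwx : ww c A B x ≤ -(uu N ℓ A B x - uu N ℓ A B x1) / 2 + (1 / 4 + 1 / (4 * c)) := by
    have e1 : ww c A B x = ww c A B x1 - (uu N ℓ A B x - uu N ℓ A B x1) / 2 +
        (Gam N ℓ x - Gam N ℓ x1) / 2 + (1 / (2 * c) - 1 / 2) * (B x - B x1) := by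
      unfold ww uu
      field_simp
      ring
    have e2 : (1 / (2 * c) - 1 / 2) * (B x - B x1) ≤ (1 / (2 * c) - 1 / 2) * (1 / 2) :=
      mul_le_mul_of_nonneg_left (le_of_abs_le hB) hk
    have e3 : 1 / (2 * c) * (1 / 2) = 1 / (4 * c) := by
      field_simp
      norm_num
    have e4 := le_of_abs_le hGam
    rw [e1]
    linarith
  have hs := sq_nonneg ‖x - p‖
  have hexp : Real.exp (-(uu N ℓ A B x - uu N ℓ A B x1) / 2) ≤
      2 * (ε ^ 2 + ‖x - p‖ ^ 2) / (c4 * δ) ^ 2 := by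
    rw [← pow_le_pow_iff_left₀ (Real.exp_pos _).le (by positivity) two_ne_zero]
    have e1 : Real.exp (-(uu N ℓ A B x - uu N ℓ A B x1) / 2) ^ 2 =
        ff N ℓ A B x1 / ff N ℓ A B x := by
      rw [hS.ff_eq_exp x hoff, hS.ff_eq_exp x1 hoff1, ← Real.exp_sub, ← Real.exp_nat_mul]
      congr 1
      push_cast
      ring
    rw [e1]
    have b1 := (prof_bds h (x := x1) hx1n.le).2
    have b0 := (prof_bds h hx).1
    rw [hx1n] at b1
    have hf0 : 0 < f0 ε ‖x - p‖ := by unfold f0; positivity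
    have hff : 0 < ff N ℓ A B x := by linarith
    rw [div_le_iff₀ hff]
    refine b1.trans (le_trans ?_ (mul_le_mul_of_nonneg_left b0 (by positivity)))
    unfold f0
    have e2 : (2 * (ε ^ 2 + ‖x - p‖ ^ 2) / (c4 * δ) ^ 2) ^ 2 *
        (9 / 10 * (8 * ε ^ 2 / (ε ^ 2 + ‖x - p‖ ^ 2) ^ 2)) =
        4 * (9 / 10) * (8 * ε ^ 2) / ((c4 * δ) ^ 2) ^ 2 := by
      have : 0 < ε ^ 2 + ‖x - p‖ ^ 2 := by positivity
      field_simp
      ring
    rw [e2]
    have e3 : ((c4 * δ) ^ 2) ^ 2 ≤ (ε ^ 2 + (c4 * δ) ^ 2) ^ 2 := by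
      refine pow_le_pow_left₀ (by positivity) ?_ 2
      have := sq_nonneg ε
      linarith
    rw [← mul_div_assoc, div_le_div_iff₀ (by positivity) (by positivity)]
    have e4 : 0 < 8 * ε ^ 2 := by positivity
    nlinarith [mul_le_mul_of_nonneg_left e3 e4.le, mul_pos e4 (by positivity : 0 < (ε ^ 2 + (c4 * δ) ^ 2) ^ 2)]
  calc Real.exp (ww c A B x)
      ≤ Real.exp (-(uu N ℓ A B x - uu N ℓ A B x1) / 2 + (1 / 4 + 1 / (4 * c))) :=
        Real.exp_le_exp.2 hwwx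
    _ = Real.exp (1 / 4 + 1 / (4 * c)) * Real.exp (-(uu N ℓ A B x - uu N ℓ A B x1) / 2) := by
        rw [Real.exp_add, mul_comm]
    _ ≤ _ := mul_le_mul_of_nonneg_left hexp (Real.exp_pos _).le

end FarWAux

open FarWAux in
theorem far_W (c4 C0 : ℝ) (h4 : 0 < c4) (h4' : c4 ≤ 1 / 4) (h0 : 1 ≤ C0) : ∃ C : ℝ, 1 ≤ C ∧
    ∀ (c ℓ : ℝ) (N : ℕ) (A B : ℂ → ℝ) (p : ℂ) (ε δ : ℝ), Pro c ℓ N A B p ε δ c4 C0 →
    ∫ z in ball p (c4 * δ), (∫ y in ball p ‖z - p‖, Real.exp (ww c A B y)) * ff N ℓ A B z ≤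
      C * Real.exp (1 / c) * ε ^ 2 := by
  have hpi := Real.pi_gt_three
  refine ⟨18 * π ^ 2 * Real.exp 1, ?_, ?_⟩
  · have h1 : 1 ≤ Real.exp 1 := Real.one_le_exp zero_le_one
    have h2 : (1 : ℝ) ≤ 18 * π ^ 2 := by nlinarith
    calc (1 : ℝ) = 1 * 1 := by norm_num
      _ ≤ 18 * π ^ 2 * Real.exp 1 := mul_le_mul h2 h1 zero_le_one (by positivity)
  intro c ℓ N A B p ε δ h
  have hS := h.loc.sys
  have hc := hS.c0
  have hδ := h.loc.dpos
  have hε := h.loc.top.pos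
  have hη0 : 0 < c4 * δ := by positivity
  set E : ℝ := Real.exp (1 / 4 + 1 / (4 * c)) with hE
  have hE0 : 0 < E := Real.exp_pos _
  have hEle : E ≤ Real.exp 1 * Real.exp (1 / c) := by
    rw [hE, ← Real.exp_add]
    apply Real.exp_le_exp.2
    have : 1 / (4 * c) ≤ 1 / c := by
      apply one_div_le_one_div_of_le hc
      linarith
    linarith
  have hpt : ∀ z ∈ ball p (c4 * δ),
      ‖(∫ y in ball p ‖z - p‖, Real.exp (ww c A B y)) * ff N ℓ A B z‖ ≤
        E * (2 * π / (c4 * δ) ^ 2) * (88 / 10) * ε ^ 2 := by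
    intro z hz
    rw [mem_ball, dist_eq_norm] at hz
    have hs := norm_nonneg (z - p)
    have hW : ‖∫ y in ball p ‖z - p‖, Real.exp (ww c A B y)‖ ≤
        E * (2 * (ε ^ 2 + ‖z - p‖ ^ 2) / (c4 * δ) ^ 2) * (π * ‖z - p‖ ^ 2) := by
      have h1 := norm_setIntegral_le_of_norm_le_const (μ := (volume : Measure ℂ))
        (s := ball p ‖z - p‖) (f := fun y => Real.exp (ww c A B y))
        (C := E * (2 * (ε ^ 2 + ‖z - p‖ ^ 2) / (c4 * δ) ^ 2)) measure_ball_lt_top (by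
          intro y hy
          rw [mem_ball, dist_eq_norm] at hy
          rw [Real.norm_of_nonneg (Real.exp_pos _).le]
          refine (key h4 h4' h (hy.le.trans hz.le)).trans ?_
          refine mul_le_mul_of_nonneg_left ?_ hE0.le
          refine div_le_div_of_nonneg_right ?_ (by positivity)
          have : ‖y - p‖ ^ 2 ≤ ‖z - p‖ ^ 2 := pow_le_pow_left₀ (norm_nonneg _) hy.le 2
          linarith)
      rwa [ball_real p _ hs] at h1
    rw [norm_mul, Real.norm_of_nonneg (ff_nonneg N ℓ A B z)]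
    have hffz := (prof_bds h hz.le).2
    calc ‖∫ y in ball p ‖z - p‖, Real.exp (ww c A B y)‖ * ff N ℓ A B z
        ≤ (E * (2 * (ε ^ 2 + ‖z - p‖ ^ 2) / (c4 * δ) ^ 2) * (π * ‖z - p‖ ^ 2)) *
          (11 / 10 * f0 ε ‖z - p‖) :=
          mul_le_mul hW hffz (ff_nonneg N ℓ A B z) (by positivity)
      _ = E * (2 * π / (c4 * δ) ^ 2) * (88 / 10) * ε ^ 2 *
          (‖z - p‖ ^ 2 / (ε ^ 2 + ‖z - p‖ ^ 2)) := by
          unfold f0
          have : 0 < ε ^ 2 + ‖z - p‖ ^ 2 := by positivity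
          field_simp
          ring
      _ ≤ E * (2 * π / (c4 * δ) ^ 2) * (88 / 10) * ε ^ 2 * 1 := by
          refine mul_le_mul_of_nonneg_left ?_ (by positivity)
          rw [div_le_one (by positivity)]
          have := sq_nonneg ε
          linarith
      _ = _ := mul_one _
  have h1 := norm_setIntegral_le_of_norm_le_const (μ := (volume : Measure ℂ))
    measure_ball_lt_top hpt
  rw [ball_real p _ hη0.le] at h1
  refine (le_of_abs_le h1).trans ?_
  calc E * (2 * π / (c4 * δ) ^ 2) * (88 / 10) * ε ^ 2 * (π * (c4 * δ) ^ 2)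
      = E * (π ^ 2 * (176 / 10) * ε ^ 2) := by
        field_simp
        ring
    _ ≤ (Real.exp 1 * Real.exp (1 / c)) * (π ^ 2 * 18 * ε ^ 2) := by
        refine mul_le_mul hEle ?_ (by positivity) (by positivity)
        have : 0 ≤ π ^ 2 * ε ^ 2 := by positivity
        nlinarith
    _ = _ := by ring

end AO

end
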