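import Pool.Agent.Lib.AO.Rad1D
import Pool.Agent.Lib.AO.CmExp
import Pool.Agent.Lib.AO.Radial
import Pool.Agent.Lib.AO.SysB2
import Pool.Agent.Lib.AO.CellBall
import Pool.Agent.Lib.AO.ProDef

/-
STUB RadId (library AO, MP_7bfba2_an). Replace the sorries, keep the statements.
(5.1).  R = 2δ, η = c4 δ < R.  On ball p R: uu smooth, ff = exp uu (Loc.off).  fb := cm ff p, gb := cm (exp ww) p, ub := cm uu p (continuousOn_cm), m s := ∫_{ball p s} ff, W s := ∫_{ball p s} exp ww (int_ball_polar gives hm, hW);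
 green_cm and Sys.lap_uu give ub' = (1/(2πs)) ∫_{ball p s} lap uu = -(m+W)/(2πs).  radial_1d.
 Middle term: ∫_{ball p η} W(‖z-p‖) ff z = 2π ∫_0^η t cm(W(‖.-p‖) ff) p t = ∫_0^η W t (2π t fb t) dt (W is continuous; on the circle of radius t the factor W is constant).
 First term: <= 8π² η² 2 f0(η) <= 16π² η² 8ε²/η⁴ (cm_exp with k = f0 ε η, g0 = 1/10).
 Last term: 0 <= m <= 8π (mass: int_ball_le, int_ff), 0 <= W <= π s² <= π, |4π - m - W| <= 5π; cm_exp with k = f0 ε s, g0 = min(1/10, C0 (s√s)/(δ√δ)): |fb - exp ub| <= 3 f0 ε s C0² s³/δ³;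
  so it is <= 30π C0²/δ³ ∫_0^η 2πs f0 s³ ds = 30π C0²/δ³ ∫_{ball p η} f0 ‖y-p‖³ <= C C0² ε² η/δ³ (int_ball_radial, int_f0_3).
-/

set_option autoImplicit false

open Complex MeasureTheory Set Metric Filter
open scoped Real ContDiff Topology

noncomputable section

namespace AO

namespace RadIdAux

theorem cont_W (g : ℂ → ℝ) (p : ℂ) (hg : Continuous g) (b : ℝ) (hb : 0 ≤ b) :
    ContinuousOn (fun s : ℝ => ∫ z in ball p s, g z) (Icc 0 b) := by
  have h1 : ContinuousOn (fun t => t * cm g p t) (Icc 0 b) :=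
    continuousOn_id.mul ((continuousOn_cm g p (b + 1) hg.continuousOn).mono
      (fun t ht => ⟨ht.1, by linarith [ht.2]⟩))
  have h2 := intervalIntegral.continuousOn_primitive_interval (μ := volume) (a := 0) (b := b)
    (f := fun t => t * cm g p t) (by rw [uIcc_of_le hb]; exact h1.integrableOn_Icc)
  rw [uIcc_of_le hb] at h2
  have h3 : ContinuousOn (fun s : ℝ => 2 * π * ∫ t in (0 : ℝ)..s, t * cm g p t) (Icc 0 b) :=
    continuousOn_const.mul h2
  refine h3.congr fun s hs => ?_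
  exact int_ball_polar g p (b + 1) s hs.1 (by linarith [hs.2]) hg.continuousOn

theorem mid (f g : ℂ → ℝ) (p : ℂ) (η : ℝ) (hη : 0 < η) (hf : Continuous f) (hg : Continuous g) :
    ∫ z in ball p η, (∫ y in ball p ‖z - p‖, g y) * f z =
      ∫ s in (0 : ℝ)..η, (∫ y in ball p s, g y) * (2 * π * s * cm f p s) := by
  have hc : ContinuousOn (fun z => (∫ y in ball p ‖z - p‖, g y) * f z) (ball p (η + 1)) := by
    refine ContinuousOn.mul ?_ hf.continuousOn
    refine (cont_W g p hg (η + 1) (by linarith)).comp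
      (f := fun z : ℂ => ‖z - p‖) (by fun_prop) ?_
    intro z hz
    rw [mem_ball, dist_eq_norm] at hz
    exact ⟨norm_nonneg _, hz.le⟩
  rw [int_ball_polar _ p (η + 1) η hη.le (by linarith) hc, ← intervalIntegral.integral_const_mul]
  refine intervalIntegral.integral_congr fun s hs => ?_
  rw [uIcc_of_le hη.le] at hs
  show 2 * π * (s * cm (fun z => (∫ y in ball p ‖z - p‖, g y) * f z) p s) =
    (∫ y in ball p s, g y) * (2 * π * s * cm f p s)
  have h1 : cm (fun z => (∫ y in ball p ‖z - p‖, g y) * f z) p s =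
      (∫ y in ball p s, g y) * cm f p s := by
    unfold cm
    have h2 : ∀ θ : ℝ, ‖p + (s : ℂ) * Complex.exp (θ * Complex.I) - p‖ = s := by
      intro θ
      rw [add_sub_cancel_left, norm_mul, Complex.norm_exp_ofReal_mul_I, mul_one, Complex.norm_real,
        Real.norm_eq_abs, abs_of_nonneg hs.1]
    simp only [h2]
    rw [intervalIntegral.integral_const_mul]
    ring
  rw [h1]
  ring

end RadIdAux

theorem radial_id (c4 C0 : ℝ) (h4 : 0 < c4) (h4' : c4 ≤ 1 / 4) (h0 : 1 ≤ C0) : ∃ C : ℝ, 1 ≤ C ∧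
    ∀ (c ℓ : ℝ) (N : ℕ) (A B : ℂ → ℝ) (p : ℂ) (ε δ : ℝ), Pro c ℓ N A B p ε δ c4 C0 →
    |(∫ z in ball p (c4 * δ), ff N ℓ A B z) * (8 * π - ∫ z in ball p (c4 * δ), ff N ℓ A B z) -
      2 * ∫ z in ball p (c4 * δ), (∫ y in ball p ‖z - p‖, Real.exp (ww c A B y)) * ff N ℓ A B z| ≤
      C * (ε ^ 2 / δ ^ 2) := by
  obtain ⟨C1, hC1, hC1b⟩ := int_f0_3
  have hπ := Real.pi_pos
  refine ⟨128 * π ^ 2 / c4 ^ 2 + 30 * π * C0 ^ 2 * C1 * c4, ?_, ?_⟩
  · have h1 : 1 ≤ 128 * π ^ 2 / c4 ^ 2 := by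
      rw [le_div_iff₀ (by positivity)]
      nlinarith [Real.pi_gt_three]
    have h2 : 0 ≤ 30 * π * C0 ^ 2 * C1 * c4 := by positivity
    linarith
  intro c ℓ N A B p ε δ hp
  have hL := hp.loc
  have hS := hL.sys
  have hε := hL.top.pos
  have hδ := hL.dpos
  have hδ1 := hL.dle
  have hl := hS.l0
  have hten := hL.ten
  set η : ℝ := c4 * δ with hηdef
  have hη : 0 < η := by positivity
  have hη1 : η ≤ 1 / 4 := by nlinarith
  have hηR : η < 2 * δ := by nlinarith
  set f : ℂ → ℝ := ff N ℓ A B with hfdef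
  set g : ℂ → ℝ := fun y => Real.exp (ww c A B y) with hgdef
  set u : ℂ → ℝ := uu N ℓ A B with hudef
  have hfc : Continuous f := hS.contDiff_ff.continuous
  have hAc : Continuous A := hS.sA.continuous
  have hBc : Continuous B := hS.sB.continuous
  have hgc : Continuous g := by
    rw [hgdef]
    unfold ww
    fun_prop
  have hexp : ∀ z ∈ ball p (2 * δ), f z = Real.exp (u z) := fun z hz =>
    hS.ff_eq_exp z (hL.off z hz)
  have hu : ContDiffOn ℝ 2 u (ball p (2 * δ)) := fun z hz =>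
    ((hS.contDiffAt_uu z (hL.off z hz)).1.of_le ENat.LEInfty.out).contDiffWithinAt
  have huc : ContinuousOn u (ball p (2 * δ)) := hu.continuousOn
  have hsub : Icc (0 : ℝ) η ⊆ Ico 0 (2 * δ) := fun t ht => ⟨ht.1, ht.2.trans_lt hηR⟩
  have hub : ContinuousOn (cm u p) (Icc 0 η) := (continuousOn_cm u p (2 * δ) huc).mono hsub
  have hfb : ContinuousOn (cm f p) (Icc 0 η) :=
    (continuousOn_cm f p (2 * δ) hfc.continuousOn).mono hsub
  have hgb : ContinuousOn (cm g p) (Icc 0 η) :=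
    (continuousOn_cm g p (2 * δ) hgc.continuousOn).mono hsub
  set m : ℝ → ℝ := fun s => ∫ z in ball p s, f z with hmdef
  set W : ℝ → ℝ := fun s => ∫ z in ball p s, g z with hWdef
  have hm : ∀ s ∈ Icc 0 η, m s = 2 * π * ∫ t in (0 : ℝ)..s, t * cm f p t := fun s hs =>
    int_ball_polar f p (2 * δ) s hs.1 (hs.2.trans_lt hηR) hfc.continuousOn
  have hW : ∀ s ∈ Icc 0 η, W s = 2 * π * ∫ t in (0 : ℝ)..s, t * cm g p t := fun s hs =>
    int_ball_polar g p (2 * δ) s hs.1 (hs.2.trans_lt hηR) hgc.continuousOn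
  have hint : ∀ (k : ℂ → ℝ), Continuous k → ∀ s : ℝ, IntegrableOn k (ball p s) := fun k hk s =>
    (hk.continuousOn.integrableOn_compact (isCompact_closedBall p s)).mono_set
      ball_subset_closedBall
  have hd : ∀ s ∈ Ioo 0 η, HasDerivAt (cm u p) (-(m s + W s) / (2 * π * s)) s := by
    intro s hs
    have h1 := green_cm u p (2 * δ) s hs.1 (hs.2.trans hηR) hu
    have h2 : ∫ z in ball p s, lap u z = -(m s + W s) := by
      have h3 : ∫ z in ball p s, lap u z = ∫ z in ball p s, -(f z + g z) := by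
        refine setIntegral_congr_fun measurableSet_ball fun z hz => ?_
        exact hS.lap_uu z (hL.off z (ball_subset_ball (hs.2.trans hηR).le hz))
      rw [h3, integral_neg, integral_add (hint f hfc s) (hint g hgc s)]
    rw [h2] at h1
    have h3 : 1 / (2 * π * s) * -(m s + W s) = -(m s + W s) / (2 * π * s) := by ring
    rw [h3] at h1
    exact h1
  have hmain := radial_1d η hη (cm u p) (cm f p) (cm g p) m W hub hfb hgb hm hW hd
  have hmid := RadIdAux.mid f g p η hη hfc hgc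
  change |m η * (8 * π - m η) - 2 * ∫ z in ball p η, (∫ y in ball p ‖z - p‖, g y) * f z| ≤
    (128 * π ^ 2 / c4 ^ 2 + 30 * π * C0 ^ 2 * C1 * c4) * (ε ^ 2 / δ ^ 2)
  rw [hmid]
  have hmid2 : (∫ s in (0 : ℝ)..η, (∫ y in ball p s, g y) * (2 * π * s * cm f p s)) =
      ∫ s in (0 : ℝ)..η, W s * (2 * π * s * cm f p s) := rfl
  rw [hmid2, hmain]
  -- bounds for the mass
  have hmass : ∀ s ∈ Icc 0 η, |4 * π - m s - W s| ≤ 5 * π := by
    intro s hs
    have h1 : 0 ≤ m s := setIntegral_nonneg measurableSet_ball fun z _ => ff_nonneg N ℓ A B z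
    have h2 : m s ≤ 8 * π := by
      have h3 := int_ball_le hl f hS.per_ff (integrableOn_Q_of_continuous hl f hfc)
        (fun z => ff_nonneg N ℓ A B z) p s (by linarith [hs.2])
      have h5 : ∫ z in Q ℓ, f z = 8 * π := hS.int_ff
      rw [h5] at h3
      exact h3
    have h3 : 0 ≤ W s := setIntegral_nonneg measurableSet_ball fun z _ => (Real.exp_pos _).le
    have h4 : W s ≤ π := by
      have h5 : W s ≤ ∫ z in ball p s, (1 : ℝ) := by
        refine setIntegral_mono_on (hint g hgc s) (hint _ continuous_const s) measurableSet_ball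
          fun z _ => ?_
        rw [hgdef]
        exact Real.exp_le_one_iff.2 (hS.ww_le z)
      have h6 : ∫ z in ball p s, (1 : ℝ) = π * s ^ 2 := by
        rw [setIntegral_const, measureReal_def, Complex.volume_ball]
        simp [ENNReal.toReal_ofReal hs.1]
        ring
      rw [h6] at h5
      have h7 : s ^ 2 ≤ 1 := by nlinarith [hs.1, hs.2]
      nlinarith
    rw [abs_le]
    constructor <;> linarith
  -- comparison on circles
  have hcirc : ∀ s, 0 < s → s ≤ η → ∀ z, ‖z - p‖ = s →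
      |Real.exp (u z) / f0 ε s - 1| ≤ min (1 / 10) (C0 * ((s * √s) / (δ * √δ))) := by
    intro s hs hsη z hz
    have hzb : z ∈ ball p (2 * δ) := by
      rw [mem_ball, dist_eq_norm, hz]
      linarith
    have h1 := hp.prof10 z (by rw [hz]; exact hsη)
    have h2 := hp.prof z (by rw [hz]; exact hsη)
    rw [hz] at h1 h2
    rw [← hexp z hzb]
    exact le_min h1 h2
  have hf0pos : ∀ s, 0 < f0 ε s := by
    intro s
    unfold f0
    positivity
  have hcomp : ∀ s, 0 < s → s ≤ η →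
      |cm f p s - Real.exp (cm u p s)| ≤ 3 * f0 ε s * (min (1 / 10) (C0 * ((s * √s) / (δ * √δ)))) ^ 2 ∧
      Real.exp (cm u p s) ≤ 2 * f0 ε s := by
    intro s hs hsη
    have h1 := cm_exp u p (2 * δ) s (f0 ε s) (min (1 / 10) (C0 * ((s * √s) / (δ * √δ)))) hs
      (hsη.trans_lt hηR) huc (hf0pos s) (le_min (by norm_num) (by positivity)) (min_le_left _ _)
      (hcirc s hs hsη)
    have h2 : cm (fun z => Real.exp (u z)) p s = cm f p s := by
      unfold cm
      congr 1
      refine intervalIntegral.integral_congr fun θ _ => ?_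
      exact (hexp _ (Polar1Aux.mem_ball_pt p (2 * δ) s θ hs.le (hsη.trans_lt hηR))).symm
    rw [h2] at h1
    exact h1
  -- first term
  have hfirst : 8 * π ^ 2 * η ^ 2 * Real.exp (cm u p η) ≤ 128 * π ^ 2 / c4 ^ 2 * (ε ^ 2 / δ ^ 2) := by
    have h1 := (hcomp η hη le_rfl).2
    have h2 : f0 ε η ≤ 8 * ε ^ 2 / η ^ 4 := by
      unfold f0
      apply div_le_div_of_nonneg_left (by positivity) (by positivity)
      nlinarith [sq_nonneg (ε * η), sq_nonneg (ε ^ 2)]
    calc 8 * π ^ 2 * η ^ 2 * Real.exp (cm u p η)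
        ≤ 8 * π ^ 2 * η ^ 2 * (2 * (8 * ε ^ 2 / η ^ 4)) :=
          mul_le_mul_of_nonneg_left (h1.trans (by linarith)) (by positivity)
      _ = 128 * π ^ 2 / c4 ^ 2 * (ε ^ 2 / δ ^ 2) := by
          rw [hηdef]
          field_simp
          ring
  have hfirst0 : 0 ≤ 8 * π ^ 2 * η ^ 2 * Real.exp (cm u p η) := by positivity
  -- last term
  have hlast : |∫ s in (0 : ℝ)..η, (4 * π - m s - W s) * (2 * π * s * (cm f p s - Real.exp (cm u p s)))| ≤
      15 * π * C0 ^ 2 * C1 * c4 * (ε ^ 2 / δ ^ 2) := by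
    have h1 : ∀ s ∈ Ioc 0 η, ‖(4 * π - m s - W s) * (2 * π * s * (cm f p s - Real.exp (cm u p s)))‖ ≤
        15 * π * C0 ^ 2 / δ ^ 3 * (2 * π * (s * (f0 ε s * s ^ 3))) := by
      intro s hs
      have hs0 := hs.1
      have h2 := hmass s ⟨hs.1.le, hs.2⟩
      have h3 := (hcomp s hs.1 hs.2).1
      have h4 : (min (1 / 10) (C0 * ((s * √s) / (δ * √δ)))) ^ 2 ≤ C0 ^ 2 * s ^ 3 / δ ^ 3 := by
        have h5 : (min (1 / 10) (C0 * ((s * √s) / (δ * √δ)))) ^ 2 ≤
            (C0 * ((s * √s) / (δ * √δ))) ^ 2 :=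
          pow_le_pow_left₀ (le_min (by norm_num) (by positivity)) (min_le_right _ _) 2
        refine h5.trans (le_of_eq ?_)
        have h6 : √s ^ 2 = s := Real.sq_sqrt hs.1.le
        have h7 : √δ ^ 2 = δ := Real.sq_sqrt hδ.le
        rw [mul_pow, div_pow, mul_pow, mul_pow, h6, h7]
        ring
      rw [norm_mul, Real.norm_eq_abs, Real.norm_eq_abs, abs_mul, abs_of_nonneg (by positivity : 0 ≤ 2 * π * s)]
      have h8 : |cm f p s - Real.exp (cm u p s)| ≤ 3 * f0 ε s * (C0 ^ 2 * s ^ 3 / δ ^ 3) :=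
        h3.trans (mul_le_mul_of_nonneg_left h4 (by have := hf0pos s; positivity))
      calc |4 * π - m s - W s| * (2 * π * s * |cm f p s - Real.exp (cm u p s)|)
          ≤ (5 * π) * (2 * π * s * (3 * f0 ε s * (C0 ^ 2 * s ^ 3 / δ ^ 3))) := by
            apply mul_le_mul h2 _ (by positivity) (by positivity)
            exact mul_le_mul_of_nonneg_left h8 (by positivity)
        _ = 15 * π * C0 ^ 2 / δ ^ 3 * (2 * π * (s * (f0 ε s * s ^ 3))) := by ring
    have hcont : Continuous (fun s : ℝ => 15 * π * C0 ^ 2 / δ ^ 3 * (2 * π * (s * (f0 ε s * s ^ 3)))) :=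
      continuous_const.mul (continuous_const.mul (continuous_id.mul
        ((f0_continuous ε hε).mul (by fun_prop))))
    have h2 := intervalIntegral.norm_integral_le_of_norm_le (μ := volume) hη.le
      (Filter.Eventually.of_forall h1) (hcont.intervalIntegrable _ _)
    rw [Real.norm_eq_abs] at h2
    refine h2.trans ?_
    rw [intervalIntegral.integral_const_mul, intervalIntegral.integral_const_mul,
      ← int_ball_radial (fun s => f0 ε s * s ^ 3) p η hη.le]
    have h3 := hC1b ε η p hε hη.le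
    calc 15 * π * C0 ^ 2 / δ ^ 3 * ∫ y in ball p η, f0 ε ‖y - p‖ * ‖y - p‖ ^ 3
        ≤ 15 * π * C0 ^ 2 / δ ^ 3 * (C1 * ε ^ 2 * η) :=
          mul_le_mul_of_nonneg_left h3 (by positivity)
      _ = 15 * π * C0 ^ 2 * C1 * c4 * (ε ^ 2 / δ ^ 2) := by
          rw [hηdef]
          field_simp
  have hsum : 8 * π ^ 2 * η ^ 2 * Real.exp (cm u p η) +
      2 * (∫ s in (0 : ℝ)..η, W s * (2 * π * s * cm f p s)) +
      2 * (∫ s in (0 : ℝ)..η, (4 * π - m s - W s) * (2 * π * s * (cm f p s - Real.exp (cm u p s)))) -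
      2 * (∫ s in (0 : ℝ)..η, W s * (2 * π * s * cm f p s)) =
      8 * π ^ 2 * η ^ 2 * Real.exp (cm u p η) +
      2 * (∫ s in (0 : ℝ)..η, (4 * π - m s - W s) * (2 * π * s * (cm f p s - Real.exp (cm u p s)))) := by
    ring
  rw [hsum]
  have habs := abs_add_le (8 * π ^ 2 * η ^ 2 * Real.exp (cm u p η))
    (2 * (∫ s in (0 : ℝ)..η, (4 * π - m s - W s) * (2 * π * s * (cm f p s - Real.exp (cm u p s)))))
  refine habs.trans ?_
  rw [abs_of_nonneg hfirst0, abs_mul, abs_two]
  have hfin : (128 * π ^ 2 / c4 ^ 2 + 30 * π * C0 ^ 2 * C1 * c4) * (ε ^ 2 / δ ^ 2) =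
      128 * π ^ 2 / c4 ^ 2 * (ε ^ 2 / δ ^ 2) + 2 * (15 * π * C0 ^ 2 * C1 * c4 * (ε ^ 2 / δ ^ 2)) := by
    ring
  rw [hfin]
  linarith

end AO

end
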