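import Pool.Agent.Lib.AO.LMain
import Pool.Agent.Lib.AO.FarLoc
import Pool.Agent.Lib.AO.FarW
import Pool.Agent.Lib.AO.FarLow
import Pool.Agent.Lib.AO.RadId
import Pool.Agent.Lib.AO.GradB
import Pool.Agent.Lib.AO.CrudeM
import Pool.Agent.Lib.AO.CellBall

/-
STUB FarE (library AO, MP_7bfba2_an). Replace the sorries, keep the statements.
Section 7, conclusion.  c1 := 1/CB² (gradB_small: ‖fderiv B‖ <= 1).  (c4, e1, C0) := local_main, (c10, ℓ1) := far_loc c6 e1, CR := radial_id, CW := far_W, CL := far_low, (a, C) := far_X c6.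
 Suppose c6 ℓ <= ‖p‖, ℓ >= ℓ0.  δ := c10 min(1,D)/ℓ², Pro holds.  m := ∫_{ball p (c4 δ)} ff: 8π - m <= C0 ε/δ <= C0 e1 δ <= C0/ℓ² <= 4π, so m >= 4π (e1 <= 1/4, c10 <= 1).
 radial_id: m(8π-m) <= 2 CW e^(1/c) ε² + CR ε²/δ² <= Kc ε²/δ², so 8π - m <= Kc ε²/δ² (4π >= 1).  two_balls (p, r = c4 δ, x = 0, r' = 1; c4 δ + 1 <= 2 <= c6 ℓ <= dl(0 - p) = ‖p‖ since p in Q): ∫_{ball 0 1} ff <= 8π - m.
 far_low: ε²/ℓ⁴ e^(-CL-ℓ) e^X <= Kc ε² ℓ⁴/(c10² min(1,D)²), X = -Gam p: e^X min(1,D)² <= (Kc e^CL/c10²) ℓ⁸ e^ℓ, contradiction with far_num (K = Kc e^CL/c10², X >= 0, e^(X/16) <= e^X, ℓ⁸ <= ℓ^10).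
-/

set_option autoImplicit false

open Complex MeasureTheory Set Metric Filter
open scoped Real ContDiff Topology

noncomputable section

namespace AO

namespace FarEAux

/-- the final numerical contradiction -/
theorem num_contra {ε ℓ X D c10 Kc CL I δ : ℝ} (hε : 0 < ε) (hℓ : 10 ≤ ℓ) (hD : 0 < D)
    (hc : 0 < c10) (hKc : 0 < Kc) (hX : 0 ≤ X) (hδ : δ = c10 * min 1 D / ℓ ^ 2)
    (h1 : ε ^ 2 / ℓ ^ 4 * Real.exp (-CL - ℓ + X) ≤ I) (h2 : I ≤ Kc * (ε ^ 2 / δ ^ 2))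
    (h3 : Kc * Real.exp CL / c10 ^ 2 * ℓ ^ 10 * Real.exp ℓ < Real.exp (X / 16) * min 1 D ^ 2) :
    False := by
  have hl0 : 0 < ℓ := by linarith
  have hm : 0 < min 1 D := lt_min one_pos hD
  have hδ0 : 0 < δ := by rw [hδ]; positivity
  have e1 : Real.exp (-CL - ℓ + X) = Real.exp X / (Real.exp CL * Real.exp ℓ) := by
    rw [← Real.exp_add, ← Real.exp_sub]
    congr 1
    ring
  have e2 : ε ^ 2 / δ ^ 2 = ε ^ 2 * ℓ ^ 4 / (c10 ^ 2 * min 1 D ^ 2) := by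
    rw [hδ]
    field_simp
  have h4 := h1.trans h2
  rw [e1, e2] at h4
  -- multiply out
  have hEC := Real.exp_pos CL
  have hEl := Real.exp_pos ℓ
  have hEX := Real.exp_pos X
  have h5 : Real.exp X * min 1 D ^ 2 ≤ Kc * Real.exp CL / c10 ^ 2 * ℓ ^ 8 * Real.exp ℓ := by
    have h6 : ε ^ 2 / ℓ ^ 4 * (Real.exp X / (Real.exp CL * Real.exp ℓ)) =
        ε ^ 2 / (ℓ ^ 4 * Real.exp CL * Real.exp ℓ * min 1 D ^ 2) * (Real.exp X * min 1 D ^ 2) := by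
      field_simp
    have h7 : Kc * (ε ^ 2 * ℓ ^ 4 / (c10 ^ 2 * min 1 D ^ 2)) =
        ε ^ 2 / (ℓ ^ 4 * Real.exp CL * Real.exp ℓ * min 1 D ^ 2) *
          (Kc * Real.exp CL / c10 ^ 2 * ℓ ^ 8 * Real.exp ℓ) := by
      field_simp
    rw [h6, h7] at h4
    exact le_of_mul_le_mul_left h4 (by positivity)
  have h8 : Real.exp (X / 16) ≤ Real.exp X := Real.exp_le_exp.2 (by linarith)
  have h9 : ℓ ^ 8 ≤ ℓ ^ 10 := pow_le_pow_right₀ (by linarith) (by norm_num)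
  have h10 : Kc * Real.exp CL / c10 ^ 2 * ℓ ^ 8 * Real.exp ℓ ≤
      Kc * Real.exp CL / c10 ^ 2 * ℓ ^ 10 * Real.exp ℓ := by
    refine mul_le_mul_of_nonneg_right ?_ hEl.le
    exact mul_le_mul_of_nonneg_left h9 (by positivity)
  have h11 : Real.exp (X / 16) * min 1 D ^ 2 ≤ Real.exp X * min 1 D ^ 2 :=
    mul_le_mul_of_nonneg_right h8 (by positivity)
  linarith

end FarEAux

open FarEAux

theorem far_case (c6 : ℝ) (h6 : 0 < c6) : ∃ c1 : ℝ, 0 < c1 ∧ ∀ c, 0 < c → c ≤ c1 → ∃ ℓ0 : ℝ, 10 ≤ ℓ0 ∧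
    ∀ (ℓ : ℝ) (N : ℕ) (A B : ℂ → ℝ) (p : ℂ) (ε : ℝ), Sys c ℓ N A B → Top ℓ N A B p ε → ℓ0 ≤ ℓ → ‖p‖ < c6 * ℓ := by
  obtain ⟨CB, hCB, hB⟩ := gradB_small
  obtain ⟨c4, e1, C0, h4, h4', he1, he1', h0, hmain⟩ := local_main
  obtain ⟨c10, l1, hc10, hc10', hl1, hloc⟩ := far_loc c6 e1 h6 he1
  obtain ⟨CR, hCR, hrad⟩ := radial_id c4 C0 h4 h4' h0
  obtain ⟨CW, hCW, hW⟩ := far_W c4 C0 h4 h4' h0
  obtain ⟨CL, hCL, hlow⟩ := far_low
  obtain ⟨a, C, ha, hC, hX⟩ := far_X c6 h6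
  refine ⟨1 / CB ^ 2, by positivity, fun c hc hc1 => ?_⟩
  obtain ⟨Kc, hKc⟩ : ∃ Kc : ℝ, Kc = 2 * (CW * Real.exp (1 / c)) + CR := ⟨_, rfl⟩
  have hKc0 : 0 < Kc := by rw [hKc]; positivity
  obtain ⟨l2, hl2, hnum⟩ := far_num a C (Kc * Real.exp CL / c10 ^ 2) ha hC (by positivity)
  refine ⟨max (max l1 l2) (max C0 (2 / c6)), hl1.trans ((le_max_left _ _).trans (le_max_left _ _)),
    ?_⟩
  intro ℓ N A B p ε hS hT hl
  by_contra hcon
  push Not at hcon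
  have hll1 : l1 ≤ ℓ := ((le_max_left _ _).trans (le_max_left _ _)).trans hl
  have hll2 : l2 ≤ ℓ := ((le_max_right _ _).trans (le_max_left _ _)).trans hl
  have hlC0 : C0 ≤ ℓ := ((le_max_left _ _).trans (le_max_right _ _)).trans hl
  have hlc6 : 2 / c6 ≤ ℓ := ((le_max_right _ _).trans (le_max_right _ _)).trans hl
  have hl10 : 10 ≤ ℓ := hl1.trans hll1
  have hl0 : 0 < ℓ := by linarith
  have hπ := Real.pi_gt_three
  have gB : ∀ z, ‖fderiv ℝ B z‖ ≤ 1 := by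
    intro z
    refine (hB c ℓ N A B hS z).trans ?_
    have h1 : √c ≤ 1 / CB := by
      rw [Real.sqrt_le_left (by positivity)]
      rwa [div_pow, one_pow]
    have hCB0 : 0 < CB := by linarith
    calc CB * √c ≤ CB * (1 / CB) := mul_le_mul_of_nonneg_left h1 hCB0.le
      _ = 1 := by field_simp
  obtain ⟨hL, hε, hε1⟩ := hloc c ℓ N A B p ε hS hT hll1 gB hcon
  obtain ⟨hD, hN, hX1, hX2⟩ := hX c ℓ N A B p ε hS hT hl10 hcon
  obtain ⟨D, hDd⟩ : ∃ D : ℝ, D = dl ℓ (p - VV ℓ) := ⟨_, rfl⟩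
  rw [← hDd] at hL hε hD hX2
  obtain ⟨δ, hδ⟩ : ∃ δ : ℝ, δ = c10 * min 1 D / ℓ ^ 2 := ⟨_, rfl⟩
  rw [← hδ] at hL hε
  have hε0 := hT.pos
  have hP := hmain c ℓ N A B p ε δ hL hε
  have hδ0 := hL.dpos
  have hδ1 := hL.dle
  have hδl : δ ≤ 1 / ℓ ^ 2 := by
    rw [hδ]
    refine div_le_div_of_nonneg_right ?_ (by positivity)
    have h1 : min 1 D ≤ 1 := min_le_left _ _
    have h2 : 0 ≤ min 1 D := (lt_min one_pos hD).le
    nlinarith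
  obtain ⟨m, hm⟩ : ∃ m : ℝ, m = ∫ z in ball p (c4 * δ), ff N ℓ A B z := ⟨_, rfl⟩
  have hmass := hP.mass
  have hradd := hrad c ℓ N A B p ε δ hP
  have hWW := hW c ℓ N A B p ε δ hP
  rw [← hm] at hmass hradd
  have hc4δ : c4 * δ ≤ 1 := by nlinarith
  have hm8 : m ≤ 8 * π := by
    rw [hm]
    exact mass_nonneg c ℓ N A B p (c4 * δ) hS (by linarith)
  have hm4 : 4 * π ≤ m := by
    have h1 : C0 * (ε / δ) ≤ 1 := by
      have h2 : ε / δ ≤ e1 * δ := by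
        rw [div_le_iff₀ hδ0]
        calc ε ≤ e1 * δ ^ 2 := hε
          _ = e1 * δ * δ := by ring
      have h3 : e1 * δ ≤ 1 / ℓ ^ 2 := by nlinarith
      calc C0 * (ε / δ) ≤ ℓ * (1 / ℓ ^ 2) :=
            mul_le_mul hlC0 (h2.trans h3) (by positivity) hl0.le
        _ = 1 / ℓ := by field_simp
        _ ≤ 1 := by rw [div_le_one hl0]; linarith
    linarith
  -- the bound of the mass outside
  have hKey : 8 * π - m ≤ Kc * (ε ^ 2 / δ ^ 2) := by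
    have h1 := (abs_le.1 hradd).2
    have h2 : ε ^ 2 ≤ ε ^ 2 / δ ^ 2 := by
      rw [le_div_iff₀ (by positivity)]
      exact mul_le_of_le_one_right (by positivity) (pow_le_one₀ hδ0.le hδ1)
    have h3 : CW * Real.exp (1 / c) * ε ^ 2 ≤ CW * Real.exp (1 / c) * (ε ^ 2 / δ ^ 2) :=
      mul_le_mul_of_nonneg_left h2 (by positivity)
    have h4 : m * (8 * π - m) ≤ Kc * (ε ^ 2 / δ ^ 2) := by
      rw [hKc]
      linarith
    have h5 : 1 * (8 * π - m) ≤ m * (8 * π - m) :=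
      mul_le_mul_of_nonneg_right (by linarith) (by linarith)
    linarith
  have hdl : dl ℓ (0 - p) = ‖p‖ := by
    rw [zero_sub, dl_neg, dl_eq_of_mem hl0 p hT.mem]
  have h2l : 2 ≤ ‖p‖ := by
    refine le_trans ?_ hcon
    rw [div_le_iff₀ h6] at hlc6
    linarith
  have htwo := two_balls hl0 (ff N ℓ A B) hS.per_ff
    (integrableOn_Q_of_continuous hl0 _ hS.contDiff_ff.continuous) (ff_nonneg N ℓ A B) p 0
    (c4 * δ) 1 (by linarith) (by linarith) (by rw [hdl]; linarith)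
  rw [hS.int_ff, ← hm] at htwo
  have hlo := hlow c ℓ N A B p ε hS hT hl10 gB hε1
  have hnum' := hnum ℓ D (-Gam N ℓ p) N hll2 hD hN hX1 hX2
  refine num_contra (I := ∫ z in ball (0 : ℂ) 1, ff N ℓ A B z) hε0 hl10 hD hc10 hKc0
    (le_trans (by positivity) hX1) hδ ?_ ?_ hnum'
  · exact hlo
  · linarith

end AO

end
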