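import Pool.Agent.Lib.AO.Defs

/-
STUB FarNum (library AO, MP_7bfba2_an). Replace the sorries, keep the statements.
Elementary: for ℓ >= max(C, 21, ...): N >= ℓ²/(4π) >= 32.  exp(X/16) = exp(X/32)²; exp(X/32) >= exp(aℓ²/32) > K ℓ^10 e^ℓ for ℓ large (X >= aℓ²).  exp(X/32) min(1,D)² >= 1: X >= 0; if D >= 1 clear;
 if D < 1: X/32 >= (N/16) log(ℓ/(C D)) >= 2 log(1/D) since ℓ >= C and N >= 32.
-/

set_option autoImplicit false

open Complex MeasureTheory Set Metric Filter
open scoped Real ContDiff Topology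

noncomputable section

namespace AO

theorem far_num (a C K : ℝ) (ha : 0 < a) (hC : 0 < C) (hK : 0 < K) : ∃ ℓ0 : ℝ, 10 ≤ ℓ0 ∧
    ∀ (ℓ D X : ℝ) (N : ℕ), ℓ0 ≤ ℓ → 0 < D → ℓ ^ 2 ≤ 4 * π * N → a * ℓ ^ 2 ≤ X →
    2 * N * Real.log (ℓ / (C * D)) ≤ X → K * ℓ ^ 10 * Real.exp ℓ < Real.exp (X / 16) * min 1 D ^ 2 := by
  have h1 : ∀ᶠ x : ℝ in atTop, x ^ 10 * Real.exp (-x) < 1 / K :=
    (Real.tendsto_pow_mul_exp_neg_atTop_nhds_zero 10).eventually_lt_const (by positivity)
  obtain ⟨x₀, hx₀⟩ := eventually_atTop.mp h1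
  refine ⟨max (max x₀ C) (max 21 (64 / a)), le_trans (by norm_num) (le_max_of_le_right (le_max_left (21 : ℝ) _)), ?_⟩
  intro ℓ D X N hℓ hD hN hX hX2
  have e1 : x₀ ≤ ℓ := ((le_max_left _ _).trans (le_max_left _ _)).trans hℓ
  have e2 : C ≤ ℓ := ((le_max_right _ _).trans (le_max_left _ _)).trans hℓ
  have e3 : 21 ≤ ℓ := ((le_max_left _ _).trans (le_max_right _ _)).trans hℓ
  have e4 : 64 / a ≤ ℓ := ((le_max_right _ _).trans (le_max_right _ _)).trans hℓ
  have hl0 : 0 < ℓ := by linarith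
  have hX0 : 0 ≤ X := le_trans (by positivity) hX
  -- first factor
  have f1 : K * ℓ ^ 10 * Real.exp ℓ < Real.exp (X / 32) := by
    have h := hx₀ ℓ e1
    rw [lt_div_iff₀ hK] at h
    have g1 : K * ℓ ^ 10 < Real.exp ℓ := by
      have g0 : K * ℓ ^ 10 = (ℓ ^ 10 * Real.exp (-ℓ) * K) * Real.exp ℓ := by
        have : Real.exp (-ℓ) * Real.exp ℓ = 1 := by
          rw [← Real.exp_add, neg_add_cancel, Real.exp_zero]
        calc K * ℓ ^ 10 = ℓ ^ 10 * K * (Real.exp (-ℓ) * Real.exp ℓ) := by rw [this]; ring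
          _ = _ := by ring
      rw [g0]
      exact mul_lt_of_lt_one_left (Real.exp_pos _) h
    have g2 : ℓ + ℓ ≤ X / 32 := by
      rw [div_le_iff₀ ha] at e4
      have : 64 * ℓ ≤ ℓ * a * ℓ := mul_le_mul_of_nonneg_right e4 hl0.le
      nlinarith
    calc K * ℓ ^ 10 * Real.exp ℓ < Real.exp ℓ * Real.exp ℓ := mul_lt_mul_of_pos_right g1 (Real.exp_pos _)
      _ = Real.exp (ℓ + ℓ) := (Real.exp_add _ _).symm
      _ ≤ Real.exp (X / 32) := Real.exp_le_exp.mpr g2
  -- second factor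
  have f2 : 1 ≤ Real.exp (X / 32) * min 1 D ^ 2 := by
    rcases le_total 1 D with h | h
    · rw [min_eq_left h, one_pow, mul_one]
      exact Real.one_le_exp (by positivity)
    · rw [min_eq_right h]
      have hN32 : (32 : ℝ) ≤ N := by
        have hpi : π < 3.15 := Real.pi_lt_d2
        have : (441 : ℝ) ≤ ℓ ^ 2 := by nlinarith
        by_contra hcon
        rw [not_le] at hcon
        have hN0 : (0 : ℝ) ≤ N := Nat.cast_nonneg _
        have hpi0 := Real.pi_pos
        have : 4 * π * (N : ℝ) ≤ 4 * 3.15 * 32 := by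
          apply mul_le_mul (by linarith) hcon.le hN0 (by norm_num)
        linarith
      have hlogD : Real.log D ≤ 0 := Real.log_nonpos hD.le h
      have hlog : - Real.log D ≤ Real.log (ℓ / (C * D)) := by
        rw [← Real.log_inv]
        apply Real.log_le_log (by positivity)
        rw [inv_eq_one_div, div_le_div_iff₀ hD (by positivity), one_mul]
        exact mul_le_mul_of_nonneg_right e2 hD.le
      have hx : - (2 * Real.log D) ≤ X / 32 := by
        have h3 : 32 * (- Real.log D) ≤ N * Real.log (ℓ / (C * D)) :=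
          mul_le_mul hN32 hlog (by linarith) (by linarith)
        linarith
      have h4 : Real.exp (- (2 * Real.log D)) = (D ^ 2)⁻¹ := by
        rw [Real.exp_neg, two_mul, Real.exp_add, Real.exp_log hD, sq]
      calc (1 : ℝ) = (D ^ 2)⁻¹ * D ^ 2 := (inv_mul_cancel₀ (by positivity)).symm
        _ = Real.exp (- (2 * Real.log D)) * D ^ 2 := by rw [h4]
        _ ≤ Real.exp (X / 32) * D ^ 2 :=
            mul_le_mul_of_nonneg_right (Real.exp_le_exp.mpr hx) (by positivity)
  have hsplit : Real.exp (X / 16) = Real.exp (X / 32) * Real.exp (X / 32) := by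
    rw [← Real.exp_add]
    congr 1
    ring
  rw [hsplit, mul_assoc (Real.exp (X / 32))]
  calc K * ℓ ^ 10 * Real.exp ℓ < Real.exp (X / 32) := f1
    _ = Real.exp (X / 32) * 1 := (mul_one _).symm
    _ ≤ Real.exp (X / 32) * (Real.exp (X / 32) * min 1 D ^ 2) :=
        mul_le_mul_of_nonneg_left f2 (Real.exp_pos _).le

end AO

end
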