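import Pool.Agent.Lib.AO.ProDef

/-!
Cut-off radial fields at scale `ℓ` (library AO, MP_7bfba2_an).
-/

set_option autoImplicit false

open Complex MeasureTheory Set Metric Filter
open scoped Real ContDiff Topology

noncomputable section

namespace AO

theorem exists_field (c5 : ℝ) (h5 : 0 < c5) : ∃ C : ℝ, 1 ≤ C ∧ ∀ ℓ : ℝ, 10 ≤ ℓ → ∃ k : ℂ → ℝ, Fld c5 C ℓ k := by
  let φ : ContDiffBump (0 : ℂ) := ⟨c5 / 2, c5, by positivity, by linarith⟩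
  have hφ : ContDiff ℝ ∞ (φ : ℂ → ℝ) := φ.contDiff
  obtain ⟨C0, hC0⟩ := (hφ.continuous_fderiv (by simp)).bounded_above_of_compact_support
    (φ.hasCompactSupport.fderiv (𝕜 := ℝ))
  refine ⟨max C0 1, le_max_right _ _, ?_⟩
  intro ℓ hl
  have hl0 : 0 < ℓ := by linarith
  refine ⟨fun z => φ ((ℓ⁻¹ : ℝ) • z), ?_, ?_, ?_, ?_, ?_, ?_⟩
  · exact hφ.comp (contDiff_const_smul _)
  · intro z; exact φ.nonneg
  · intro z; exact φ.le_one
  · intro z hz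
    apply φ.one_of_mem_closedBall
    rw [mem_closedBall, dist_zero_right, norm_smul, Real.norm_eq_abs, abs_of_pos (by positivity)]
    show ℓ⁻¹ * ‖z‖ ≤ c5 / 2
    rw [inv_mul_le_iff₀ hl0]
    linarith
  · intro z hz
    apply φ.zero_of_le_dist
    rw [dist_zero_right, norm_smul, Real.norm_eq_abs, abs_of_pos (by positivity)]
    show c5 ≤ ℓ⁻¹ * ‖z‖
    rw [le_inv_mul_iff₀ hl0]
    linarith
  · intro z
    have hd : HasFDerivAt (fun z : ℂ => φ ((ℓ⁻¹ : ℝ) • z))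
        ((fderiv ℝ φ ((ℓ⁻¹ : ℝ) • z)).comp ((ℓ⁻¹ : ℝ) • ContinuousLinearMap.id ℝ ℂ)) z := by
      have e1 : HasFDerivAt (φ : ℂ → ℝ) (fderiv ℝ φ ((ℓ⁻¹ : ℝ) • z)) ((ℓ⁻¹ : ℝ) • z) :=
        ((hφ.differentiable (by simp)) _).hasFDerivAt
      have e2 : HasFDerivAt (fun z : ℂ => (ℓ⁻¹ : ℝ) • z) ((ℓ⁻¹ : ℝ) • ContinuousLinearMap.id ℝ ℂ) z :=
        ((ℓ⁻¹ : ℝ) • ContinuousLinearMap.id ℝ ℂ).hasFDerivAt
      exact e1.comp z e2
    rw [hd.fderiv]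
    calc ‖(fderiv ℝ φ ((ℓ⁻¹ : ℝ) • z)).comp ((ℓ⁻¹ : ℝ) • ContinuousLinearMap.id ℝ ℂ)‖
        ≤ ‖fderiv ℝ φ ((ℓ⁻¹ : ℝ) • z)‖ * ‖(ℓ⁻¹ : ℝ) • ContinuousLinearMap.id ℝ ℂ‖ :=
          ContinuousLinearMap.opNorm_comp_le _ _
      _ ≤ max C0 1 * ℓ⁻¹ := by
          apply mul_le_mul
          · exact (hC0 _).trans (le_max_left _ _)
          · rw [norm_smul, Real.norm_eq_abs, abs_of_pos (by positivity)]
            have := ContinuousLinearMap.norm_id_le (𝕜 := ℝ) (E := ℂ)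
            have h2 : 0 < ℓ⁻¹ := by positivity
            nlinarith
          · positivity
          · positivity
      _ = max C0 1 / ℓ := by rw [div_eq_mul_inv]

theorem field_div (c5 C ℓ : ℝ) (k : ℂ → ℝ) (h5 : 0 < c5) (h5' : c5 ≤ 1 / 8) (hC : 1 ≤ C) (hl : 10 ≤ ℓ) (h : Fld c5 C ℓ k) (z : ℂ) :
    |2 * k z + fderiv ℝ k z z - 2| ≤ (2 + C) * (4 / c5 ^ 2) * ‖z‖ ^ 2 / ℓ ^ 2 := by
  have hl0 : 0 < ℓ := by linarith
  have hcl : 0 < c5 * ℓ := by positivity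
  rcases lt_or_ge ‖z‖ (c5 * ℓ / 2) with hz | hz
  · -- k = 1 near z
    have hev : k =ᶠ[𝓝 z] fun _ => (1 : ℝ) := by
      have : {w : ℂ | ‖w‖ < c5 * ℓ / 2} ∈ 𝓝 z := (isOpen_lt continuous_norm continuous_const).mem_nhds hz
      filter_upwards [this] with w hw
      exact h.one w (le_of_lt hw)
    rw [hev.fderiv_eq, h.one z hz.le]
    simp
    positivity
  · have hk0 := h.nn z
    have hk1 := h.le z
    have hb : |fderiv ℝ k z z| ≤ C := by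
      rcases le_or_gt ‖z‖ (c5 * ℓ) with hz2 | hz2
      · calc |fderiv ℝ k z z| = ‖fderiv ℝ k z z‖ := (Real.norm_eq_abs _).symm
          _ ≤ ‖fderiv ℝ k z‖ * ‖z‖ := (fderiv ℝ k z).le_opNorm z
          _ ≤ (C / ℓ) * (c5 * ℓ) := mul_le_mul (h.dk z) hz2 (norm_nonneg _) (by positivity)
          _ = C * c5 := by field_simp
          _ ≤ C := by nlinarith
      · have hev : k =ᶠ[𝓝 z] fun _ => (0 : ℝ) := by
          have : {w : ℂ | c5 * ℓ < ‖w‖} ∈ 𝓝 z := (isOpen_lt continuous_const continuous_norm).mem_nhds hz2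
          filter_upwards [this] with w hw
          exact h.zero w (le_of_lt hw)
        rw [hev.fderiv_eq]
        simp
        linarith
    have h1 : |2 * k z + fderiv ℝ k z z - 2| ≤ 2 + C := by
      rw [abs_le] at hb ⊢
      constructor <;> linarith [hb.1, hb.2]
    have h2 : 1 ≤ (4 / c5 ^ 2) * ‖z‖ ^ 2 / ℓ ^ 2 := by
      rw [div_mul_eq_mul_div, div_div, le_div_iff₀ (by positivity)]
      have : (c5 * ℓ / 2) ^ 2 ≤ ‖z‖ ^ 2 := pow_le_pow_left₀ (by positivity) hz 2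
      nlinarith
    calc |2 * k z + fderiv ℝ k z z - 2| ≤ (2 + C) * 1 := by linarith
      _ ≤ (2 + C) * ((4 / c5 ^ 2) * ‖z‖ ^ 2 / ℓ ^ 2) := by
          apply mul_le_mul_of_nonneg_left h2 (by linarith)
      _ = _ := by ring

private theorem k_lip (c5 C ℓ : ℝ) (k : ℂ → ℝ) (h : Fld c5 C ℓ k) (x y : ℂ) :
    |k x - k y| ≤ C / ℓ * ‖x - y‖ := by
  have := Convex.norm_image_sub_le_of_norm_fderiv_le (𝕜 := ℝ) (f := k) (C := C / ℓ) (s := univ)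
    (x := y) (y := x) (fun w _ => (h.sm.differentiable (by simp)) w) (fun w _ => h.dk w)
    convex_univ (mem_univ _) (mem_univ _)
  rwa [Real.norm_eq_abs] at this

private theorem field_lip_aux (c5 C ℓ : ℝ) (k : ℂ → ℝ) (h5 : 0 < c5) (h5' : c5 ≤ 1 / 8) (hC : 1 ≤ C) (hl : 10 ≤ ℓ) (h : Fld c5 C ℓ k) (x y : ℂ)
    (hxy : ‖x‖ ≤ ‖y‖) :
    ‖k x • x - k y • y‖ ≤ (1 + C) * ‖x - y‖ := by
  have hl0 : 0 < ℓ := by linarith
  rcases le_or_gt ‖x‖ (c5 * ℓ) with hx | hx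
  · have e : k x • x - k y • y = (k x - k y) • x + k y • (x - y) := by
      rw [sub_smul, smul_sub]; abel
    rw [e]
    have hk0 := h.nn y
    have hk1 := h.le y
    have h1 : ‖(k x - k y) • x‖ ≤ C * ‖x - y‖ := by
      rw [norm_smul, Real.norm_eq_abs]
      calc |k x - k y| * ‖x‖ ≤ (C / ℓ * ‖x - y‖) * (c5 * ℓ) :=
            mul_le_mul (k_lip c5 C ℓ k h x y) hx (norm_nonneg _) (by positivity)
        _ = C * c5 * ‖x - y‖ := by field_simp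
        _ ≤ C * ‖x - y‖ := by
            apply mul_le_mul_of_nonneg_right _ (norm_nonneg _)
            nlinarith
    have h2 : ‖k y • (x - y)‖ ≤ 1 * ‖x - y‖ := by
      rw [norm_smul, Real.norm_eq_abs, abs_of_nonneg hk0]
      exact mul_le_mul_of_nonneg_right hk1 (norm_nonneg _)
    calc ‖(k x - k y) • x + k y • (x - y)‖ ≤ ‖(k x - k y) • x‖ + ‖k y • (x - y)‖ := norm_add_le _ _
      _ ≤ (1 + C) * ‖x - y‖ := by linarith
  · rw [h.zero x hx.le, h.zero y (hx.le.trans hxy)]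
    simp
    positivity

theorem field_lip (c5 C ℓ : ℝ) (k : ℂ → ℝ) (h5 : 0 < c5) (h5' : c5 ≤ 1 / 8) (hC : 1 ≤ C) (hl : 10 ≤ ℓ) (h : Fld c5 C ℓ k) (x y : ℂ) :
    ‖k x • x - k y • y‖ ≤ (1 + C) * ‖x - y‖ := by
  rcases le_total ‖x‖ ‖y‖ with hxy | hxy
  · exact field_lip_aux c5 C ℓ k h5 h5' hC hl h x y hxy
  · rw [norm_sub_rev, norm_sub_rev x y]
    exact field_lip_aux c5 C ℓ k h5 h5' hC hl h y x hxy

theorem field_bd (c5 C ℓ : ℝ) (k : ℂ → ℝ) (h5 : 0 < c5) (hl : 10 ≤ ℓ) (h : Fld c5 C ℓ k) (x : ℂ) :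
    ‖k x • x‖ ≤ ‖x‖ ∧ ‖k x • x‖ ≤ c5 * ℓ := by
  have hl0 : 0 < ℓ := by linarith
  have hk0 := h.nn x
  have hk1 := h.le x
  have h1 : ‖k x • x‖ ≤ ‖x‖ := by
    rw [norm_smul, Real.norm_eq_abs, abs_of_nonneg hk0]
    have := mul_le_mul_of_nonneg_right hk1 (norm_nonneg x)
    linarith
  refine ⟨h1, ?_⟩
  rcases le_or_gt ‖x‖ (c5 * ℓ) with hx | hx
  · exact h1.trans hx
  · rw [h.zero x hx.le]
    simp
    positivity

end AO

end
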