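import Pool.Agent.Lib.AO.ForceO
import Pool.Agent.Lib.AO.SysB2
import Pool.Agent.Lib.AO.Rep
import Pool.Agent.Lib.AO.CellBall
import Pool.Agent.Lib.AO.ProDef

/-
STUB Force (library AO, MP_7bfba2_an). Replace the sorries, keep the statements.
(4.6).  For e in ℂ, rep_grad' gives fderiv A p e = ∫_Q fderiv Gl (p-y) e ff(y) dy.  η := c4 δ.  Split into {dl(y-p) < η} (int_ball_eq: integral over ball p η) and {dl(y-p) >= η}.
 Second part: ‖fderiv Gl‖ <= C/η (g_grad, dl_neg), mass <= C0 ε/δ (Pro.mass, int_Q_split, int_ff): <= C C0 ε/(c4 δ²) ‖e‖ <= C' √ε/(δ√δ) ‖e‖ since √ε <= √δ.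
 First part: g_near with z = p - y (‖z‖ <= η <= ℓ/2): fderiv Gl (p-y) e = -((p-y) conj e).re/(2π‖p-y‖²) + O(‖p-y‖/ℓ² ‖e‖); the error gives <= C η 8π/ℓ² ‖e‖ <= C/ℓ² ‖e‖; the main part is force_part with k = C0/(δ√δ).
 Take the supremum over ‖e‖ <= 1 (ContinuousLinearMap.opNorm_le_bound).
-/

set_option autoImplicit false

open Complex MeasureTheory Set Metric Filter
open scoped Real ContDiff Topology

noncomputable section

namespace AO

namespace ForceAux

/-- the main part of the kernel -/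
def mker (f : ℂ → ℝ) (p e y : ℂ) : ℝ := f y * (((p - y) * (starRingEnd ℂ) e).re / ‖p - y‖ ^ 2)

theorem mk_abs (f : ℂ → ℝ) (p e y : ℂ) : |mker f p e y| ≤ |f y| * (‖e‖ * ‖y - p‖⁻¹) := by
  unfold mker
  rw [abs_mul]
  refine mul_le_mul_of_nonneg_left ?_ (abs_nonneg _)
  rw [abs_div, abs_of_nonneg (by positivity : 0 ≤ ‖p - y‖ ^ 2)]
  rcases eq_or_ne p y with h | h
  · subst h
    simp
  have h1 : 0 < ‖p - y‖ := norm_pos_iff.2 (sub_ne_zero.2 h)
  rw [norm_sub_rev y p, div_le_iff₀ (by positivity)]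
  calc |((p - y) * (starRingEnd ℂ) e).re| ≤ ‖(p - y) * (starRingEnd ℂ) e‖ := Complex.abs_re_le_norm _
    _ = ‖p - y‖ * ‖e‖ := by rw [norm_mul, Complex.norm_conj]
    _ = ‖e‖ * ‖p - y‖⁻¹ * ‖p - y‖ ^ 2 := by
        field_simp

theorem mk_int (f : ℂ → ℝ) (hf : Continuous f) (M : ℝ) (hM : ∀ z, ‖f z‖ ≤ M) (p e : ℂ) (η : ℝ)
    (hη : 0 ≤ η) : IntegrableOn (mker f p e) (ball p η) := by
  have h1 : IntegrableOn (fun y : ℂ => M * ‖e‖ * ‖y - p‖⁻¹) (ball p η) :=
    (int_inv p η hη).2.const_mul _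
  refine Integrable.mono' h1 ?_ ?_
  · apply Measurable.aestronglyMeasurable
    unfold mker
    refine hf.measurable.mul (Measurable.div ?_ ?_)
    · exact (Complex.continuous_re.comp (by fun_prop : Continuous fun y : ℂ =>
        (p - y) * (starRingEnd ℂ) e)).measurable
    · exact (by fun_prop : Continuous fun y : ℂ => ‖p - y‖ ^ 2).measurable
  · refine Eventually.of_forall fun y => ?_
    rw [Real.norm_eq_abs]
    refine (mk_abs f p e y).trans ?_
    rw [mul_assoc]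
    exact mul_le_mul_of_nonneg_right (hM y) (by positivity)

theorem per_g {ℓ : ℝ} (hl : 0 < ℓ) (p e : ℂ) (f : ℂ → ℝ) (hf : Per ℓ f) :
    Per ℓ (fun y => fderiv ℝ (Gl ℓ) (p - y) e * f y) := by
  have h := RepAAux.per_dG hl e
  constructor
  · intro z
    have h1 := h.1 (p - (z + ℓ))
    simp only at h1 ⊢
    rw [show p - (z + (ℓ : ℂ)) + ℓ = p - z by ring] at h1
    rw [← h1, hf.1]
  · intro z
    have h1 := h.2 (p - (z + ℓ * Complex.I))
    simp only at h1 ⊢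
    rw [show p - (z + (ℓ : ℂ) * Complex.I) + ℓ * Complex.I = p - z by ring] at h1
    rw [← h1, hf.2]

end ForceAux

open ForceAux in
theorem force (c4 C0 : ℝ) (h4 : 0 < c4) (h4' : c4 ≤ 1 / 4) (h0 : 1 ≤ C0) : ∃ C : ℝ, 1 ≤ C ∧
    ∀ (c ℓ : ℝ) (N : ℕ) (A B : ℂ → ℝ) (p : ℂ) (ε δ : ℝ), Pro c ℓ N A B p ε δ c4 C0 →
    ‖fderiv ℝ A p‖ ≤ C * (√ε / (δ * √δ) + 1 / ℓ ^ 2) := by
  obtain ⟨Cg, hCg, hgrad⟩ := g_grad
  obtain ⟨Cn, hCn, hnear⟩ := g_near
  obtain ⟨Cf, hCf, hforce⟩ := force_part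
  have hpi := Real.pi_pos
  have hC0 : 0 < C0 := by linarith
  have k1 : 0 < Cf * C0 := by positivity
  have k2 : 0 < 8 * π * Cn := by positivity
  have k3 : 0 < Cg * C0 / c4 := by positivity
  refine ⟨1 + Cf * C0 + 8 * π * Cn + Cg * C0 / c4, by linarith, ?_⟩
  intro c ℓ N A B p ε δ h
  have hS := h.loc.sys
  have hl := hS.l0
  have hδ := h.loc.dpos
  have hδ1 := h.loc.dle
  have hε := h.loc.top.pos
  have hl10 := h.loc.ten
  have hη0 : 0 < c4 * δ := by positivity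
  have hη4 : c4 * δ ≤ 1 / 4 := by nlinarith
  have hηl : c4 * δ ≤ ℓ / 2 := by linarith
  have hffc := hS.contDiff_ff.continuous
  have hffp := hS.per_ff
  have hff0 := ff_nonneg N ℓ A B
  have hffi := integrableOn_Q_of_continuous hl _ hffc
  obtain ⟨M, hM⟩ := per_bounded hl _ hffp hffc
  have hX0 : 0 < √ε / (δ * √δ) := by positivity
  have hY0 : 0 < 1 / ℓ ^ 2 := by positivity
  refine ContinuousLinearMap.opNorm_le_bound _ (by positivity) fun e => ?_
  rw [rep_grad' hl A hS.sA hS.pA (8 * π / ℓ ^ 2) (ff N ℓ A B) hS.eA p e]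
  have hgi := integrableOn_dG hl p e (ff N ℓ A B) hffc hffp
  have hgp := per_g hl p e (ff N ℓ A B) hffp
  rw [int_Q_split hl _ hgp hgi p (c4 * δ) hηl]
  -- the outer part
  have hout : |∫ z in {z ∈ Q ℓ | c4 * δ ≤ dl ℓ (z - p)}, fderiv ℝ (Gl ℓ) (p - z) e * ff N ℓ A B z| ≤
      Cg * C0 / c4 * ‖e‖ * (√ε / (δ * √δ)) := by
    have hms : MeasurableSet {z ∈ Q ℓ | c4 * δ ≤ dl ℓ (z - p)} :=
      measurableSet_Q.inter (CellBallAux.closed_ge p (c4 * δ)).measurableSet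
    have h1 : |∫ z in {z ∈ Q ℓ | c4 * δ ≤ dl ℓ (z - p)}, fderiv ℝ (Gl ℓ) (p - z) e * ff N ℓ A B z| ≤
        ∫ z in {z ∈ Q ℓ | c4 * δ ≤ dl ℓ (z - p)}, Cg / (c4 * δ) * ‖e‖ * ff N ℓ A B z := by
      rw [← Real.norm_eq_abs]
      refine norm_integral_le_of_norm_le ((hffi.mono_set fun z hz => hz.1).const_mul _) ?_
      filter_upwards [ae_restrict_mem hms] with z hz
      have hd : 0 < dl ℓ (z - p) := hη0.trans_le hz.2
      have hd' : dl ℓ (p - z) = dl ℓ (z - p) := by rw [← dl_neg, neg_sub]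
      have hnL : p - z ∉ Lat ℓ := by
        rw [← dl_pos_iff hl, hd']
        exact hd
      have hg := (hgrad ℓ (p - z) hl hnL).2
      rw [hd'] at hg
      rw [norm_mul, Real.norm_of_nonneg (hff0 z)]
      refine mul_le_mul_of_nonneg_right ?_ (hff0 z)
      refine (ContinuousLinearMap.le_opNorm _ _).trans (mul_le_mul_of_nonneg_right ?_ (norm_nonneg _))
      refine hg.trans ?_
      exact div_le_div_of_nonneg_left hCg.le hη0 hz.2
    have h2 : ∫ z in {z ∈ Q ℓ | c4 * δ ≤ dl ℓ (z - p)}, ff N ℓ A B z ≤ C0 * (ε / δ) := by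
      have h3 := int_Q_split hl _ hffp hffi p (c4 * δ) hηl
      rw [hS.int_ff] at h3
      have := h.mass
      linarith
    rw [integral_const_mul] at h1
    refine h1.trans ((mul_le_mul_of_nonneg_left h2 (by positivity)).trans ?_)
    have h5 : ε / δ ^ 2 ≤ √ε / (δ * √δ) := by
      have hεδ : ε ≤ δ := by
        have := h.eps
        nlinarith
      have h6 : √ε ≤ √δ := Real.sqrt_le_sqrt hεδ
      rw [div_le_div_iff₀ (by positivity) (by positivity)]
      have e1 : √ε * √ε = ε := Real.mul_self_sqrt hε.le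
      have e2 : √δ * √δ = δ := Real.mul_self_sqrt hδ.le
      have s1 := Real.sqrt_pos.2 hε
      have s2 := Real.sqrt_pos.2 hδ
      calc ε * (δ * √δ) = (√ε * √ε) * (δ * √δ) := by rw [e1]
        _ = √ε * (√ε * √δ) * δ := by ring
        _ ≤ √ε * (√δ * √δ) * δ := by gcongr
        _ = √ε * δ ^ 2 := by rw [e2]; ring
    calc Cg / (c4 * δ) * ‖e‖ * (C0 * (ε / δ)) = Cg * C0 / c4 * ‖e‖ * (ε / δ ^ 2) := by
          field_simp
      _ ≤ _ := mul_le_mul_of_nonneg_left h5 (by positivity)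
  -- the inner part
  have hmki := mk_int (ff N ℓ A B) hffc M hM p e (c4 * δ) hη0.le
  have hballff : ∫ z in ball p (c4 * δ), ff N ℓ A B z ≤ 8 * π := by
    rw [← hS.int_ff]
    exact int_ball_le hl _ hffp hffi hff0 p _ hηl
  have hffball : IntegrableOn (ff N ℓ A B) (ball p (c4 * δ)) :=
    (hffc.continuousOn.integrableOn_compact (isCompact_closedBall p (c4 * δ))).mono_set
      ball_subset_closedBall
  have hae : ∀ᵐ y ∂(volume.restrict (ball p (c4 * δ))),
      ‖fderiv ℝ (Gl ℓ) (p - y) e * ff N ℓ A B y - -(1 / (2 * π)) * mker (ff N ℓ A B) p e y‖ ≤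
        Cn / ℓ ^ 2 * ‖e‖ * ff N ℓ A B y := by
    have h0' : ∀ᵐ z : ℂ ∂(volume.restrict (ball p (c4 * δ))), z ≠ p := by
      refine ae_restrict_of_ae ?_
      have : (volume : Measure ℂ) {p} = 0 := measure_singleton p
      rw [ae_iff]
      simp
    filter_upwards [h0', ae_restrict_mem measurableSet_ball] with y hy hyb
    have hyb' : ‖p - y‖ < c4 * δ := by
      rw [mem_ball, dist_eq_norm, norm_sub_rev] at hyb
      exact hyb
    have hn := hnear ℓ (p - y) e hl (sub_ne_zero.2 (Ne.symm hy)) (by linarith)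
    have h1 : fderiv ℝ (Gl ℓ) (p - y) e * ff N ℓ A B y - -(1 / (2 * π)) * mker (ff N ℓ A B) p e y =
        (fderiv ℝ (Gl ℓ) (p - y) e +
          ((p - y) * (starRingEnd ℂ) e).re / (2 * π * ‖p - y‖ ^ 2)) * ff N ℓ A B y := by
      unfold mker
      have hpos : 0 < ‖p - y‖ := norm_pos_iff.2 (sub_ne_zero.2 (Ne.symm hy))
      field_simp
      ring
    rw [h1, norm_mul, Real.norm_of_nonneg (hff0 y), Real.norm_eq_abs]
    refine mul_le_mul_of_nonneg_right (hn.trans ?_) (hff0 y)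
    refine mul_le_mul_of_nonneg_right ?_ (norm_nonneg _)
    refine div_le_div_of_nonneg_right ?_ (by positivity)
    nlinarith [norm_nonneg (p - y)]
  have hdi : IntegrableOn (fun y => fderiv ℝ (Gl ℓ) (p - y) e * ff N ℓ A B y -
      -(1 / (2 * π)) * mker (ff N ℓ A B) p e y) (ball p (c4 * δ)) := by
    refine Integrable.mono' (hffball.const_mul (Cn / ℓ ^ 2 * ‖e‖)) ?_ hae
    refine AEStronglyMeasurable.sub ?_ (hmki.aestronglyMeasurable.const_mul _)
    refine AEStronglyMeasurable.mul ?_ hffc.aestronglyMeasurable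
    exact ((RepAAux.measurable_dG ℓ e).comp (measurable_const.sub measurable_id)).aestronglyMeasurable
  have hgib : IntegrableOn (fun y => fderiv ℝ (Gl ℓ) (p - y) e * ff N ℓ A B y) (ball p (c4 * δ)) := by
    have := hdi.add (hmki.const_mul (-(1 / (2 * π))))
    refine this.congr (Eventually.of_forall fun y => ?_)
    simp
  have hin : |∫ y in ball p (c4 * δ), fderiv ℝ (Gl ℓ) (p - y) e * ff N ℓ A B y| ≤
      Cf * C0 * ‖e‖ * (√ε / (δ * √δ)) + 8 * π * Cn * ‖e‖ * (1 / ℓ ^ 2) := by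
    have h1 : ∫ y in ball p (c4 * δ), fderiv ℝ (Gl ℓ) (p - y) e * ff N ℓ A B y =
        (∫ y in ball p (c4 * δ), (fderiv ℝ (Gl ℓ) (p - y) e * ff N ℓ A B y -
          -(1 / (2 * π)) * mker (ff N ℓ A B) p e y)) +
        -(1 / (2 * π)) * ∫ y in ball p (c4 * δ), mker (ff N ℓ A B) p e y := by
      rw [← integral_const_mul, ← integral_add hdi (hmki.const_mul _)]
      refine integral_congr_ae (Eventually.of_forall fun y => ?_)
      simp
    have h2 : |∫ y in ball p (c4 * δ), (fderiv ℝ (Gl ℓ) (p - y) e * ff N ℓ A B y -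
          -(1 / (2 * π)) * mker (ff N ℓ A B) p e y)| ≤ 8 * π * Cn * ‖e‖ * (1 / ℓ ^ 2) := by
      rw [← Real.norm_eq_abs]
      refine (norm_integral_le_of_norm_le (hffball.const_mul (Cn / ℓ ^ 2 * ‖e‖)) hae).trans ?_
      rw [integral_const_mul]
      refine (mul_le_mul_of_nonneg_left hballff (by positivity)).trans (le_of_eq ?_)
      ring
    have h3 : |∫ y in ball p (c4 * δ), mker (ff N ℓ A B) p e y| ≤
        Cf * (C0 / (δ * √δ)) * √ε * ‖e‖ := by
      refine hforce ε (c4 * δ) (C0 / (δ * √δ)) p e (ff N ℓ A B) hε hη0 (by positivity) hffc ?_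
      intro z hz
      rw [mem_ball, dist_eq_norm] at hz
      refine (h.prof z hz.le).trans (le_of_eq ?_)
      ring
    rw [h1]
    refine (abs_add_le _ _).trans ?_
    rw [add_comm]
    refine add_le_add ?_ h2
    rw [abs_mul, abs_neg, abs_of_pos (by positivity : 0 < 1 / (2 * π))]
    have h4 : 1 / (2 * π) ≤ 1 := by
      rw [div_le_one (by positivity)]
      have := Real.pi_gt_three
      linarith
    calc 1 / (2 * π) * |∫ y in ball p (c4 * δ), mker (ff N ℓ A B) p e y|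
        ≤ 1 * (Cf * (C0 / (δ * √δ)) * √ε * ‖e‖) :=
          mul_le_mul h4 h3 (abs_nonneg _) zero_le_one
      _ = _ := by ring
  rw [Real.norm_eq_abs]
  refine (abs_add_le _ _).trans ((add_le_add hin hout).trans ?_)
  have he := norm_nonneg e
  have t1 : 0 ≤ ‖e‖ * (√ε / (δ * √δ)) := by positivity
  have t2 : 0 ≤ ‖e‖ * (1 / ℓ ^ 2) := by positivity
  have e1 : (1 + Cf * C0 + 8 * π * Cn + Cg * C0 / c4) * (√ε / (δ * √δ) + 1 / ℓ ^ 2) * ‖e‖ =
      (1 + Cf * C0 + 8 * π * Cn + Cg * C0 / c4) * (‖e‖ * (√ε / (δ * √δ))) +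
      (1 + Cf * C0 + 8 * π * Cn + Cg * C0 / c4) * (‖e‖ * (1 / ℓ ^ 2)) := by ring
  have e2 : Cf * C0 * ‖e‖ * (√ε / (δ * √δ)) + 8 * π * Cn * ‖e‖ * (1 / ℓ ^ 2) +
      Cg * C0 / c4 * ‖e‖ * (√ε / (δ * √δ)) =
      (Cf * C0 + Cg * C0 / c4) * (‖e‖ * (√ε / (δ * √δ))) +
      8 * π * Cn * (‖e‖ * (1 / ℓ ^ 2)) := by ring
  rw [e1, e2]
  refine add_le_add (mul_le_mul_of_nonneg_right ?_ t1) (mul_le_mul_of_nonneg_right ?_ t2) <;> linarith

end AO

end
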