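import Pool.Agent.Lib.AO.Radial

/-
STUB ForceO (library AO, MP_7bfba2_an). Replace the sorries, keep the statements.
The odd part of the profile cancels: the substitution y -> 2p - y maps ball p η to itself, preserves Lebesgue measure, keeps ‖y-p‖ and changes the sign of the integrand.
force_part: |(p-y) . e|/‖p-y‖² <= ‖e‖/‖y-p‖ and |f y - f0| <= k f0 s√s, so the integral of f (p-y).e/‖p-y‖² over ball p η is at most k ‖e‖ ∫ f0 √s <= C k ‖e‖ √ε (int_f0_12, odd_cancel).
-/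

set_option autoImplicit false

open Complex MeasureTheory Set Metric Filter
open scoped Real ContDiff Topology

noncomputable section

namespace AO

namespace ForceOAux

/-- the kernel -/
def hh (p e y : ℂ) : ℝ := ((p - y) * (starRingEnd ℂ) e).re / ‖p - y‖ ^ 2

theorem hh_refl (p e y : ℂ) : hh p e (2 * p - y) = - hh p e y := by
  unfold hh
  have h1 : p - (2 * p - y) = -(p - y) := by ring
  rw [h1, norm_neg, neg_mul, Complex.neg_re, neg_div]

theorem hh_le (p e y : ℂ) : |hh p e y| ≤ ‖e‖ * ‖y - p‖⁻¹ := by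
  unfold hh
  have h1 : |((p - y) * (starRingEnd ℂ) e).re| ≤ ‖p - y‖ * ‖e‖ := by
    refine (Complex.abs_re_le_norm _).trans (le_of_eq ?_)
    rw [norm_mul, RCLike.norm_conj]
  rw [abs_div, abs_of_nonneg (sq_nonneg ‖p - y‖), norm_sub_rev y p]
  rcases eq_or_lt_of_le (norm_nonneg (p - y)) with h | h
  · rw [← h]
    simp
  · rw [div_le_iff₀ (by positivity)]
    refine h1.trans (le_of_eq ?_)
    field_simp

theorem hh_meas (p e : ℂ) : Measurable (hh p e) := by
  unfold hh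
  have h1 : Measurable fun y : ℂ => ((p - y) * (starRingEnd ℂ) e).re :=
    (Complex.continuous_re.comp (by fun_prop)).measurable
  have h2 : Measurable fun y : ℂ => ‖p - y‖ ^ 2 := by fun_prop
  exact h1.div h2

theorem hh_int (p e : ℂ) (η : ℝ) (hη : 0 ≤ η) (φ : ℂ → ℝ) (hφ : Continuous φ) :
    IntegrableOn (fun y => φ y * hh p e y) (ball p η) := by
  obtain ⟨M, hM⟩ := (isCompact_closedBall p η).exists_bound_of_continuousOn hφ.continuousOn
  have h1 : IntegrableOn (fun y => (M * ‖e‖) * ‖y - p‖⁻¹) (ball p η) :=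
    (int_inv p η hη).2.const_mul _
  refine Integrable.mono' h1 (hφ.measurable.mul (hh_meas p e)).aestronglyMeasurable ?_
  refine (ae_restrict_iff' measurableSet_ball).2 (Eventually.of_forall fun y hy => ?_)
  have h2 := hM y (ball_subset_closedBall hy)
  have h3 := hh_le p e y
  have h4 : 0 ≤ M := (norm_nonneg _).trans h2
  rw [Real.norm_eq_abs, abs_mul]
  calc |φ y| * |hh p e y| ≤ M * (‖e‖ * ‖y - p‖⁻¹) := mul_le_mul h2 h3 (abs_nonneg _) h4
    _ = (M * ‖e‖) * ‖y - p‖⁻¹ := by ring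

end ForceOAux

open ForceOAux in
theorem odd_cancel (ε η : ℝ) (p e : ℂ) (hη : 0 ≤ η) :
    ∫ y in ball p η, f0 ε ‖y - p‖ * (((p - y) * (starRingEnd ℂ) e).re / ‖p - y‖ ^ 2) = 0 := by
  change ∫ y in ball p η, f0 ε ‖y - p‖ * hh p e y = 0
  have hmem : ∀ y : ℂ, 2 * p - y ∈ ball p η ↔ y ∈ ball p η := by
    intro y
    rw [mem_ball, mem_ball, dist_eq_norm, dist_eq_norm, norm_sub_rev y p]
    have : 2 * p - y - p = p - y := by ring
    rw [this]
  rw [← integral_indicator measurableSet_ball]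
  have h1 : ∫ y, (ball p η).indicator (fun y => f0 ε ‖y - p‖ * hh p e y) (2 * p - y) =
      ∫ y, (ball p η).indicator (fun y => f0 ε ‖y - p‖ * hh p e y) y :=
    integral_sub_left_eq_self _ volume (2 * p)
  have h2 : ∀ y, (ball p η).indicator (fun y => f0 ε ‖y - p‖ * hh p e y) (2 * p - y) =
      - (ball p η).indicator (fun y => f0 ε ‖y - p‖ * hh p e y) y := by
    intro y
    by_cases hy : y ∈ ball p η
    · rw [indicator_of_mem hy, indicator_of_mem ((hmem y).2 hy), hh_refl]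
      have h3 : 2 * p - y - p = -(y - p) := by ring
      rw [h3, norm_neg]
      ring
    · rw [indicator_of_notMem hy, indicator_of_notMem (fun h => hy ((hmem y).1 h)), neg_zero]
  simp_rw [h2] at h1
  rw [integral_neg] at h1
  linarith

open ForceOAux in
theorem force_part : ∃ C : ℝ, 0 < C ∧ ∀ (ε η k : ℝ) (p e : ℂ) (f : ℂ → ℝ), 0 < ε → 0 < η → 0 ≤ k → Continuous f →
    (∀ z ∈ ball p η, |f z / f0 ε ‖z - p‖ - 1| ≤ k * (‖z - p‖ * √‖z - p‖)) →
    |∫ y in ball p η, f y * (((p - y) * (starRingEnd ℂ) e).re / ‖p - y‖ ^ 2)| ≤ C * k * √ε * ‖e‖ := by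
  obtain ⟨C, hC, hI⟩ := int_f0_12
  refine ⟨C, hC, fun ε η k p e f hε hη hk hf hb => ?_⟩
  change |∫ y in ball p η, f y * hh p e y| ≤ _
  have hc0 : Continuous fun y : ℂ => f0 ε ‖y - p‖ := (f0_continuous ε hε).comp (by fun_prop)
  have i1 := hh_int p e η hη.le f hf
  have i0 := hh_int p e η hη.le (fun y => f0 ε ‖y - p‖) hc0
  have h0 : ∫ y in ball p η, f0 ε ‖y - p‖ * hh p e y = 0 := odd_cancel ε η p e hη.le
  have h1 : ∫ y in ball p η, f y * hh p e y =
      ∫ y in ball p η, (f y * hh p e y - f0 ε ‖y - p‖ * hh p e y) := by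
    rw [integral_sub i1 i0, h0, sub_zero]
  have hcb : Continuous fun y : ℂ => f0 ε ‖y - p‖ * √‖y - p‖ := hc0.mul (by fun_prop)
  have i2 : IntegrableOn (fun y : ℂ => (k * ‖e‖) * (f0 ε ‖y - p‖ * √‖y - p‖)) (ball p η) :=
    (((hcb.continuousOn).integrableOn_compact (isCompact_closedBall p η)).mono_set
      ball_subset_closedBall).const_mul _
  rw [h1]
  have h2 : ‖∫ y in ball p η, (f y * hh p e y - f0 ε ‖y - p‖ * hh p e y)‖ ≤
      ∫ y in ball p η, (k * ‖e‖) * (f0 ε ‖y - p‖ * √‖y - p‖) := by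
    refine norm_integral_le_of_norm_le i2 ?_
    refine (ae_restrict_iff' measurableSet_ball).2 (Eventually.of_forall fun y hy => ?_)
    have hfp : 0 < f0 ε ‖y - p‖ := by
      unfold f0
      positivity
    have h3 := hb y hy
    have h4 : f y * hh p e y - f0 ε ‖y - p‖ * hh p e y =
        (f y / f0 ε ‖y - p‖ - 1) * f0 ε ‖y - p‖ * hh p e y := by
      field_simp
    rw [h4, Real.norm_eq_abs, abs_mul, abs_mul, abs_of_pos hfp]
    have h5 := hh_le p e y
    have hs := Real.sqrt_nonneg ‖y - p‖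
    calc |f y / f0 ε ‖y - p‖ - 1| * f0 ε ‖y - p‖ * |hh p e y|
        ≤ (k * (‖y - p‖ * √‖y - p‖)) * f0 ε ‖y - p‖ * (‖e‖ * ‖y - p‖⁻¹) := by
          gcongr
      _ = (k * ‖e‖) * (f0 ε ‖y - p‖ * √‖y - p‖) * (‖y - p‖ * ‖y - p‖⁻¹) := by ring
      _ ≤ (k * ‖e‖) * (f0 ε ‖y - p‖ * √‖y - p‖) * 1 := by
          gcongr
          exact mul_inv_le_one
      _ = _ := by ring
  rw [Real.norm_eq_abs] at h2
  refine h2.trans ?_
  rw [integral_const_mul]
  calc k * ‖e‖ * ∫ y in ball p η, f0 ε ‖y - p‖ * √‖y - p‖ ≤ k * ‖e‖ * (C * √ε) := by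
        gcongr
        exact hI ε η p hε hη.le
    _ = C * k * √ε * ‖e‖ := by ring

end AO

end
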