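import Pool.Agent.Lib.AO.GBd1

/-
STUB GBd2 / GBd (library AO, MP_7bfba2_an). Replace the sorries, keep the statements.
Bounds for the Green function.  By F_local, for 0 < ‖z‖ < 1:  G z = -(1/2π)(log ‖z‖ + h z), h smooth on ball 0 1, even, so fderiv h 0 = 0.  On the compact ball closedBall 0 (3/4): |h| <= C,
‖fderiv h z‖ <= C‖z‖ (fderiv h is Lipschitz there and vanishes at 0), ‖fderiv h z - fderiv h z'‖ <= C‖z - z'‖.
g_log, g_grad, g_near at ℓ = 1: translate z by a lattice point so that dl 1 z = ‖z‖ <= 3/4 (exists_near, dl_le).  fderiv (log‖z‖) e = Re(z conj e)/‖z‖².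
g_diff at ℓ = 1: if ‖z-z'‖ >= (1/2) min(dl z, dl z') use g_grad twice; otherwise say dl z <= dl z', translate so that dl z = ‖z‖, then ‖z'‖ <= (3/2)‖z‖ <= 9/8; if ‖z‖ <= 1/2 then z, z' lie in
 closedBall 0 (3/4) and |k(z)-k(z')| = ‖z-z'‖/(‖z‖‖z'‖) for k(z) = z/‖z‖² plus the Lipschitz bound of fderiv h; if ‖z‖ > 1/2 the segment [z,z'] stays at distance >= 1/4
 from the lattice where G has bounded second derivatives (compactness modulo the lattice).
General ℓ: Gl ℓ z = G(z/ℓ), fderiv (Gl ℓ) z = ℓ⁻¹ fderiv G (z/ℓ), dl ℓ z = ℓ dl 1 (z/ℓ).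
-/

set_option autoImplicit false

open Complex MeasureTheory Set Metric Filter
open scoped Real ContDiff Topology

noncomputable section

namespace AO

open GBd1Aux

namespace GBd2Aux

/-- the case `ℓ = 1` -/
theorem unit : ∃ C : ℝ, 0 < C ∧ ∀ z z' : ℂ, z ∉ Lat 1 → z' ∉ Lat 1 →
    ‖fderiv ℝ G z - fderiv ℝ G z'‖ ≤ C * ‖z - z'‖ / (dl 1 z * dl 1 z') := by
  obtain ⟨h, C, hC, hG, hb, hlip, hg, hf⟩ := rep
  obtain ⟨C', hC', hgr⟩ := g_grad
  have hgr1 : ∀ z, z ∉ Lat 1 → ‖fderiv ℝ G z‖ ≤ C' / dl 1 z := by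
    intro z hz
    have := (hgr 1 z one_pos hz).2
    rwa [fderiv_Gl, Complex.ofReal_one, div_one, inv_one, one_smul] at this
  refine ⟨max (1 / (2 * π) * (1 + C)) (12 * C'), lt_max_of_lt_right (by positivity),
    fun z z' hz hz' => ?_⟩
  have hd : 0 < dl 1 z := (dl_pos_iff one_pos z).2 hz
  have hd' : 0 < dl 1 z' := (dl_pos_iff one_pos z').2 hz'
  have hl1 : dl 1 z ≤ 3 / 4 := by have := dl_le one_pos z; linarith
  have hl1' : dl 1 z' ≤ 3 / 4 := by have := dl_le one_pos z'; linarith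
  by_cases hcase : ‖z - z'‖ ≤ 1 / 8
  · have key : ‖fderiv ℝ G z - fderiv ℝ G z'‖ ≤
        1 / (2 * π) * (1 + C) * ‖z - z'‖ / (dl 1 z * dl 1 z') := by
      obtain ⟨k, hk, h1, h2, h3⟩ := near hz
      set w := z - k with hw
      set w' := z' - k with hw'
      have hww : w - w' = z - z' := by rw [hw, hw']; ring
      have h2' : w' ≠ 0 := by
        intro h0
        rw [hw', sub_eq_zero] at h0
        exact hz' (h0 ▸ hk)
      have h3' : ‖w'‖ ≤ 7 / 8 := by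
        have := norm_sub_norm_le w' w
        rw [norm_sub_rev w' w, hww] at this
        linarith
      have hdw : dl 1 z' ≤ ‖w'‖ := by
        have e : z' = w' + k := by rw [hw']; ring
        rw [e, dl_add_lat _ k hk]
        exact dl_le_norm w'
      have hw0 : 0 < ‖w‖ := norm_pos_iff.2 h2
      have hw0' : 0 < ‖w'‖ := norm_pos_iff.2 h2'
      have b1 : w ∈ ball (0 : ℂ) 1 := by rw [mem_ball_zero_iff]; linarith
      have b2 : w' ∈ ball (0 : ℂ) 1 := by rw [mem_ball_zero_iff]; linarith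
      have c1 : w ∈ closedBall (0 : ℂ) (7 / 8) := by rw [mem_closedBall_zero_iff]; linarith
      have c2 : w' ∈ closedBall (0 : ℂ) (7 / 8) := by rw [mem_closedBall_zero_iff]; linarith
      rw [← fderiv_per z k hk, ← fderiv_per z' k hk, ← hw, ← hw', hf w b1 h2, hf w' b2 h2',
        ← smul_sub, norm_smul, norm_neg, Real.norm_of_nonneg (by positivity)]
      have e1 : innerSL ℝ ((‖w‖ ^ 2)⁻¹ • w) + fderiv ℝ h w -
          (innerSL ℝ ((‖w'‖ ^ 2)⁻¹ • w') + fderiv ℝ h w') =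
          innerSL ℝ ((‖w‖ ^ 2)⁻¹ • w - (‖w'‖ ^ 2)⁻¹ • w') + (fderiv ℝ h w - fderiv ℝ h w') := by
        rw [map_sub]; abel
      rw [e1]
      have e2 : ‖innerSL ℝ ((‖w‖ ^ 2)⁻¹ • w - (‖w'‖ ^ 2)⁻¹ • w') +
          (fderiv ℝ h w - fderiv ℝ h w')‖ ≤ (1 + C) * ‖z - z'‖ / (dl 1 z * dl 1 z') := by
        refine (norm_add_le _ _).trans ?_
        rw [innerSL_apply_norm, kdiff h2 h2', hww, h1]
        have e3 : ‖z - z'‖ / (‖w‖ * ‖w'‖) ≤ ‖z - z'‖ / (‖w‖ * dl 1 z') := by gcongr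
        have e4 := hlip w c1 w' c2
        rw [hww] at e4
        have e5 : C * ‖z - z'‖ ≤ C * ‖z - z'‖ / (‖w‖ * dl 1 z') := by
          rw [le_div_iff₀ (by positivity)]
          refine mul_le_of_le_one_right (by positivity) ?_
          nlinarith
        rw [add_mul, one_mul, add_div]
        linarith
      calc 1 / (2 * π) * ‖innerSL ℝ ((‖w‖ ^ 2)⁻¹ • w - (‖w'‖ ^ 2)⁻¹ • w') +
            (fderiv ℝ h w - fderiv ℝ h w')‖
          ≤ 1 / (2 * π) * ((1 + C) * ‖z - z'‖ / (dl 1 z * dl 1 z')) := by gcongr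
        _ = _ := by ring
    refine key.trans ?_
    gcongr
    exact le_max_left _ _
  · push Not at hcase
    have key : ‖fderiv ℝ G z - fderiv ℝ G z'‖ ≤ 12 * C' * ‖z - z'‖ / (dl 1 z * dl 1 z') := by
      refine (norm_sub_le _ _).trans ?_
      refine (add_le_add (hgr1 z hz) (hgr1 z' hz')).trans ?_
      rw [div_add_div _ _ hd.ne' hd'.ne', div_le_div_iff_of_pos_right (by positivity)]
      nlinarith
    refine key.trans ?_
    gcongr
    exact le_max_right _ _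

end GBd2Aux

theorem g_diff : ∃ C : ℝ, 0 < C ∧ ∀ (ℓ : ℝ) (z z' : ℂ), 0 < ℓ → z ∉ Lat ℓ → z' ∉ Lat ℓ →
    ‖fderiv ℝ (Gl ℓ) z - fderiv ℝ (Gl ℓ) z'‖ ≤ C * ‖z - z'‖ / (dl ℓ z * dl ℓ z') := by
  obtain ⟨C, hC, h⟩ := GBd2Aux.unit
  refine ⟨C, hC, fun ℓ z z' hl hz hz' => ?_⟩
  rw [lat_scale hl] at hz hz'
  have hd : 0 < dl 1 (z / ℓ) := (dl_pos_iff one_pos _).2 hz
  have hd' : 0 < dl 1 (z' / ℓ) := (dl_pos_iff one_pos _).2 hz'
  rw [fderiv_Gl, fderiv_Gl, ← smul_sub, norm_smul, Real.norm_of_nonneg (by positivity),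
    dl_scale hl z, dl_scale hl z']
  have h1 := h _ _ hz hz'
  rw [← sub_div, norm_div, Complex.norm_real, Real.norm_of_nonneg hl.le] at h1
  calc ℓ⁻¹ * ‖fderiv ℝ G (z / ℓ) - fderiv ℝ G (z' / ℓ)‖
      ≤ ℓ⁻¹ * (C * (‖z - z'‖ / ℓ) / (dl 1 (z / ℓ) * dl 1 (z' / ℓ))) := by gcongr
    _ = _ := by field_simp

end AO

end
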