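import Pool.Agent.Lib.AO.LogF

/-
STUB GBd1 / GBd (library AO, MP_7bfba2_an). Replace the sorries, keep the statements.
Bounds for the Green function.  By F_local, for 0 < ‖z‖ < 1:  G z = -(1/2π)(log ‖z‖ + h z), h smooth on ball 0 1, even, so fderiv h 0 = 0.  On the compact ball closedBall 0 (3/4): |h| <= C,
‖fderiv h z‖ <= C‖z‖ (fderiv h is Lipschitz there and vanishes at 0), ‖fderiv h z - fderiv h z'‖ <= C‖z - z'‖.
g_log, g_grad, g_near at ℓ = 1: translate z by a lattice point so that dl 1 z = ‖z‖ <= 3/4 (exists_near, dl_le).  fderiv (log‖z‖) e = Re(z conj e)/‖z‖².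
g_diff at ℓ = 1: if ‖z-z'‖ >= (1/2) min(dl z, dl z') use g_grad twice; otherwise say dl z <= dl z', translate so that dl z = ‖z‖, then ‖z'‖ <= (3/2)‖z‖ <= 9/8; if ‖z‖ <= 1/2 then z, z' lie in
 closedBall 0 (3/4) and |k(z)-k(z')| = ‖z-z'‖/(‖z‖‖z'‖) for k(z) = z/‖z‖² plus the Lipschitz bound of fderiv h; if ‖z‖ > 1/2 the segment [z,z'] stays at distance >= 1/4
 from the lattice where G has bounded second derivatives (compactness modulo the lattice).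
General ℓ: Gl ℓ z = G(z/ℓ), fderiv (Gl ℓ) z = ℓ⁻¹ fderiv G (z/ℓ), dl ℓ z = ℓ dl 1 (z/ℓ).
-/

set_option autoImplicit false

open Complex MeasureTheory Set Metric Filter
open scoped Real ContDiff Topology

noncomputable section

namespace AO

namespace GBd1Aux

theorem fderiv_neg_eq {f : ℂ → ℝ} (hf : ∀ z, f (-z) = f z) (z : ℂ) :
    fderiv ℝ f (-z) = -fderiv ℝ f z := by
  have h1 : (fun x => f ((-1 : ℝ) • x)) = f := by
    funext x; rw [neg_one_smul, hf]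
  have h2 := fderiv_comp_smul (𝕜 := ℝ) (f := f) (x := -z) (-1)
  rw [h1, neg_one_smul, neg_one_smul, neg_neg] at h2
  exact h2

theorem bounds {h : ℂ → ℝ} (hh : ContDiffOn ℝ ∞ h (ball 0 1))
    (he : ∀ z ∈ ball (0 : ℂ) 1, h (-z) = h z) :
    ∃ C : ℝ, 0 < C ∧ (∀ z ∈ closedBall (0 : ℂ) (7 / 8), |h z| ≤ C) ∧
      (∀ z ∈ closedBall (0 : ℂ) (7 / 8), ∀ w ∈ closedBall (0 : ℂ) (7 / 8),
        ‖fderiv ℝ h z - fderiv ℝ h w‖ ≤ C * ‖z - w‖) ∧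
      (∀ z ∈ closedBall (0 : ℂ) (7 / 8), ‖fderiv ℝ h z‖ ≤ C * ‖z‖) := by
  have hat : ∀ z ∈ ball (0 : ℂ) 1, ContDiffAt ℝ ∞ h z :=
    fun z hz => hh.contDiffAt (isOpen_ball.mem_nhds hz)
  have hsub : closedBall (0 : ℂ) (7 / 8) ⊆ ball 0 1 := closedBall_subset_ball (by norm_num)
  obtain ⟨C1, hC1⟩ := (isCompact_closedBall (0 : ℂ) (7 / 8)).exists_bound_of_continuousOn
    (hh.continuousOn.mono hsub)
  have hf1 : ∀ z ∈ ball (0 : ℂ) 1, ContDiffAt ℝ 1 (fderiv ℝ h) z :=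
    fun z hz => (hat z hz).fderiv_right (m := 1) (by norm_cast)
  have hc2 : ContinuousOn (fderiv ℝ (fderiv ℝ h)) (closedBall (0 : ℂ) (7 / 8)) := fun z hz =>
    ((hf1 z (hsub hz)).fderiv_right (m := 0) (by norm_num)).continuousAt.continuousWithinAt
  obtain ⟨C2, hC2⟩ := IsCompact.exists_bound_of_continuousOn (E := ℂ →L[ℝ] ℂ →L[ℝ] ℝ)
    (isCompact_closedBall (0 : ℂ) (7 / 8)) hc2
  have lip : ∀ z ∈ closedBall (0 : ℂ) (7 / 8), ∀ w ∈ closedBall (0 : ℂ) (7 / 8),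
      ‖fderiv ℝ h z - fderiv ℝ h w‖ ≤ C2 * ‖z - w‖ := fun z hz w hw =>
    (convex_closedBall (0 : ℂ) (7 / 8)).norm_image_sub_le_of_norm_fderiv_le
      (fun x hx => (hf1 x (hsub hx)).differentiableAt (by norm_num)) hC2 hw hz
  have h0 : fderiv ℝ h 0 = 0 := by
    have h1 : h =ᶠ[𝓝 0] fun z => h ((-1 : ℝ) • z) := by
      filter_upwards [ball_mem_nhds (0 : ℂ) one_pos] with z hz
      rw [neg_one_smul]
      exact (he z hz).symm
    have h2 := h1.fderiv_eq (𝕜 := ℝ)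
    rw [fderiv_comp_smul, smul_zero, neg_one_smul] at h2
    refine ContinuousLinearMap.ext fun v => ?_
    have h3 : fderiv ℝ h 0 v = -fderiv ℝ h 0 v := congrArg (fun T : ℂ →L[ℝ] ℝ => T v) h2
    change fderiv ℝ h 0 v = 0
    linarith
  refine ⟨max 1 (max C1 C2), lt_max_of_lt_left one_pos, fun z hz => ?_, fun z hz w hw => ?_,
    fun z hz => ?_⟩
  · exact (hC1 z hz).trans ((le_max_left _ _).trans (le_max_right _ _))
  · exact (lip z hz w hw).trans (mul_le_mul_of_nonneg_right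
      ((le_max_right _ _).trans (le_max_right _ _)) (norm_nonneg _))
  · have := lip z hz 0 (mem_closedBall_self (by norm_num))
    rw [h0, sub_zero, sub_zero] at this
    exact this.trans (mul_le_mul_of_nonneg_right
      ((le_max_right _ _).trans (le_max_right _ _)) (norm_nonneg _))

/-- derivative of `log ‖z‖` -/
theorem hasFDerivAt_log {z : ℂ} (hz : z ≠ 0) :
    HasFDerivAt (fun w : ℂ => Real.log ‖w‖) (innerSL ℝ ((‖z‖ ^ 2)⁻¹ • z)) z := by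
  have h1 : HasFDerivAt (fun w : ℂ => ‖w‖ ^ 2) (2 • innerSL ℝ z) z :=
    (hasStrictFDerivAt_norm_sq z).hasFDerivAt
  have hz2 : ‖z‖ ^ 2 ≠ 0 := by simpa using hz
  have h2 := (h1.log hz2).const_mul (1 / 2 : ℝ)
  have e1 : (fun w : ℂ => (1 / 2 : ℝ) * Real.log (‖w‖ ^ 2)) = fun w => Real.log ‖w‖ := by
    funext w
    rw [Real.log_pow]; push_cast; ring
  rw [e1] at h2
  have e2 : (1 / 2 : ℝ) • (‖z‖ ^ 2)⁻¹ • 2 • innerSL ℝ z = innerSL ℝ ((‖z‖ ^ 2)⁻¹ • z) := by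
    refine ContinuousLinearMap.ext fun w => ?_
    simp only [smul_apply, innerSL_apply_apply, real_inner_smul_left, smul_eq_mul, nsmul_eq_mul]
    push_cast
    ring
  rw [← e2]
  exact h2

theorem kdiff {z w : ℂ} (hz : z ≠ 0) (hw : w ≠ 0) :
    ‖(‖z‖ ^ 2)⁻¹ • z - (‖w‖ ^ 2)⁻¹ • w‖ = ‖z - w‖ / (‖z‖ * ‖w‖) := by
  have e : ∀ v : ℂ, (‖v‖ ^ 2)⁻¹ • v = (starRingEnd ℂ) v⁻¹ := by
    intro v
    rw [Complex.inv_def, map_mul, Complex.conj_conj, Complex.conj_ofReal, Complex.normSq_eq_norm_sq,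
      mul_comm, Complex.real_smul]
  rw [e, e, ← map_sub, Complex.norm_conj, inv_sub_inv hz hw, norm_div, norm_mul, norm_sub_rev]

/-- local representation of the Green function -/
theorem rep : ∃ (h : ℂ → ℝ) (C : ℝ), 0 < C ∧
    (∀ z ∈ ball (0 : ℂ) 1, z ≠ 0 → G z = -(1 / (2 * π)) * (Real.log ‖z‖ + h z)) ∧
    (∀ z ∈ closedBall (0 : ℂ) (7 / 8), |h z| ≤ C) ∧
    (∀ z ∈ closedBall (0 : ℂ) (7 / 8), ∀ w ∈ closedBall (0 : ℂ) (7 / 8),
      ‖fderiv ℝ h z - fderiv ℝ h w‖ ≤ C * ‖z - w‖) ∧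
    (∀ z ∈ closedBall (0 : ℂ) (7 / 8), ‖fderiv ℝ h z‖ ≤ C * ‖z‖) ∧
    (∀ z ∈ ball (0 : ℂ) 1, z ≠ 0 →
      fderiv ℝ G z = -(1 / (2 * π)) • (innerSL ℝ ((‖z‖ ^ 2)⁻¹ • z) + fderiv ℝ h z)) := by
  obtain ⟨h, hh, hF, he⟩ := F_local
  obtain ⟨C, hC, hb, hl, hg⟩ := bounds hh he
  have hG : ∀ z ∈ ball (0 : ℂ) 1, z ≠ 0 → G z = -(1 / (2 * π)) * (Real.log ‖z‖ + h z) := by
    intro z hz hz0
    rw [G, add_comm z, hF z hz, Real.log_mul (norm_ne_zero_iff.2 hz0) (Real.exp_ne_zero _),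
      Real.log_exp]
  refine ⟨h, C, hC, hG, hb, hl, hg, fun z hz hz0 => ?_⟩
  have h1 : G =ᶠ[𝓝 z] fun w => -(1 / (2 * π)) * (Real.log ‖w‖ + h w) := by
    filter_upwards [isOpen_ball.mem_nhds hz, isOpen_ne.mem_nhds hz0] with w hw hw0
    exact hG w hw hw0
  have h2 : DifferentiableAt ℝ h z :=
    (hh.contDiffAt (isOpen_ball.mem_nhds hz)).differentiableAt (by norm_num)
  have h3 := ((hasFDerivAt_log hz0).add h2.hasFDerivAt).const_mul (-(1 / (2 * π)))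
  rw [h1.fderiv_eq]
  exact h3.fderiv

theorem fderiv_per (z k : ℂ) (hk : k ∈ Lat 1) : fderiv ℝ G (z - k) = fderiv ℝ G z := by
  have h1 : (fun x => G (x - k)) = G := by
    funext x
    have := per_lat G G_per (x - k) k hk
    rw [sub_add_cancel] at this
    exact this.symm
  have h2 := fderiv_comp_sub (𝕜 := ℝ) (f := G) (x := z) k
  rw [h1] at h2
  exact h2.symm

theorem G_per_sub (z k : ℂ) (hk : k ∈ Lat 1) : G (z - k) = G z := by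
  have := per_lat G G_per (z - k) k hk
  rw [sub_add_cancel] at this
  exact this.symm

/-- the nearest lattice point -/
theorem near {z : ℂ} (hz : z ∉ Lat 1) : ∃ k ∈ Lat 1, dl 1 z = ‖z - k‖ ∧ z - k ≠ 0 ∧
    ‖z - k‖ ≤ 3 / 4 := by
  obtain ⟨k, hk, h⟩ := exists_near one_pos z
  refine ⟨k, hk, h, ?_, ?_⟩
  · intro h0
    rw [sub_eq_zero] at h0
    exact hz (h0 ▸ hk)
  · rw [← h]
    have := dl_le one_pos z
    linarith

theorem Gl_eq (ℓ : ℝ) : Gl ℓ = fun z => G (ℓ⁻¹ • z) := by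
  funext z
  rw [Gl, Complex.real_smul, Complex.ofReal_inv, div_eq_inv_mul]

theorem div_eq (ℓ : ℝ) (z : ℂ) : ℓ⁻¹ • z = z / ℓ := by
  rw [Complex.real_smul, Complex.ofReal_inv, div_eq_inv_mul]

theorem fderiv_Gl (ℓ : ℝ) (z : ℂ) : fderiv ℝ (Gl ℓ) z = ℓ⁻¹ • fderiv ℝ G (z / ℓ) := by
  rw [Gl_eq, fderiv_comp_smul (𝕜 := ℝ) (f := G) ℓ⁻¹, div_eq]

end GBd1Aux

open GBd1Aux

theorem per_Gl (ℓ : ℝ) (hl : 0 < ℓ) : Per ℓ (Gl ℓ) := by
  have hl0 : (ℓ : ℂ) ≠ 0 := by exact_mod_cast hl.ne'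
  refine ⟨fun z => ?_, fun z => ?_⟩
  · rw [Gl, Gl, add_div, div_self hl0]
    simpa using G_per.1 (z / ℓ)
  · rw [Gl, Gl, add_div, mul_div_assoc, mul_div_left_comm, div_self hl0, mul_one]
    simpa using G_per.2 (z / ℓ)

theorem g_log : ∃ C : ℝ, 0 < C ∧ ∀ (ℓ : ℝ) (z : ℂ), 0 < ℓ → z ∉ Lat ℓ →
    |Gl ℓ z + (1 / (2 * π)) * Real.log (dl ℓ z / ℓ)| ≤ C := by
  obtain ⟨h, C, hC, hG, hb, -⟩ := rep
  refine ⟨1 / (2 * π) * C, by positivity, fun ℓ z hl hz => ?_⟩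
  rw [lat_scale hl] at hz
  rw [dl_scale hl, mul_div_cancel_left₀ _ hl.ne', Gl]
  obtain ⟨k, hk, h1, h2, h3⟩ := near hz
  set w := z / ℓ - k with hw
  have h4 : w ∈ ball (0 : ℂ) 1 := by rw [mem_ball_zero_iff]; linarith
  rw [← G_per_sub _ k hk, h1, ← hw, hG w h4 h2]
  have h5 : -(1 / (2 * π)) * (Real.log ‖w‖ + h w) + 1 / (2 * π) * Real.log ‖w‖ =
      -(1 / (2 * π) * h w) := by ring
  rw [h5, abs_neg, abs_mul, abs_of_pos (by positivity : (0 : ℝ) < 1 / (2 * π))]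
  exact mul_le_mul_of_nonneg_left (hb w (by rw [mem_closedBall_zero_iff]; linarith))
    (by positivity)

theorem g_grad : ∃ C : ℝ, 0 < C ∧ ∀ (ℓ : ℝ) (z : ℂ), 0 < ℓ → z ∉ Lat ℓ →
    ContDiffAt ℝ ∞ (Gl ℓ) z ∧ ‖fderiv ℝ (Gl ℓ) z‖ ≤ C / dl ℓ z := by
  obtain ⟨h, C, hC, hG, hb, hlip, hg, hf⟩ := rep
  refine ⟨1 / (2 * π) * (1 + C), by positivity, fun ℓ z hl hz => ⟨?_, ?_⟩⟩
  · rw [lat_scale hl] at hz
    rw [Gl_eq]
    have := contDiffAt_G _ hz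
    rw [← div_eq] at this
    exact this.comp z (contDiff_const_smul _).contDiffAt
  · have hz' := hz
    rw [lat_scale hl] at hz
    obtain ⟨k, hk, h1, h2, h3⟩ := near hz
    set w := z / ℓ - k with hw
    have h4 : w ∈ ball (0 : ℂ) 1 := by rw [mem_ball_zero_iff]; linarith
    have hw0 : 0 < ‖w‖ := norm_pos_iff.2 h2
    rw [dl_scale hl, fderiv_Gl, ← fderiv_per _ k hk, h1, ← hw, hf w h4 h2, norm_smul, norm_smul,
      norm_neg, Real.norm_of_nonneg (by positivity), Real.norm_of_nonneg (by positivity)]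
    have h5 : ‖innerSL ℝ ((‖w‖ ^ 2)⁻¹ • w) + fderiv ℝ h w‖ ≤ (1 + C) / ‖w‖ := by
      refine (norm_add_le _ _).trans ?_
      rw [innerSL_apply_norm, norm_smul, Real.norm_of_nonneg (by positivity)]
      have h6 := hg w (by rw [mem_closedBall_zero_iff]; linarith)
      have h7 : (‖w‖ ^ 2)⁻¹ * ‖w‖ = 1 / ‖w‖ := by field_simp
      have h8 : C * ‖w‖ ≤ C / ‖w‖ := by
        rw [le_div_iff₀ hw0, mul_assoc]
        exact mul_le_of_le_one_right hC.le (by nlinarith)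
      rw [h7, add_div]
      linarith
    calc ℓ⁻¹ * (1 / (2 * π) * ‖innerSL ℝ ((‖w‖ ^ 2)⁻¹ • w) + fderiv ℝ h w‖)
        ≤ ℓ⁻¹ * (1 / (2 * π) * ((1 + C) / ‖w‖)) := by gcongr
      _ = _ := by field_simp

theorem g_near : ∃ C : ℝ, 0 < C ∧ ∀ (ℓ : ℝ) (z e : ℂ), 0 < ℓ → z ≠ 0 → ‖z‖ ≤ ℓ / 2 →
    |fderiv ℝ (Gl ℓ) z e + (z * (starRingEnd ℂ) e).re / (2 * π * ‖z‖ ^ 2)| ≤ C * ‖z‖ / ℓ ^ 2 * ‖e‖ := by
  obtain ⟨h, C, hC, hG, hb, hlip, hg, hf⟩ := rep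
  refine ⟨1 / (2 * π) * C, by positivity, fun ℓ z e hl hz hle => ?_⟩
  have hz0 : 0 < ‖z‖ := norm_pos_iff.2 hz
  have hl0 : (ℓ : ℂ) ≠ 0 := by exact_mod_cast hl.ne'
  set w := z / ℓ with hw
  have hwz : ‖w‖ = ‖z‖ / ℓ := by rw [hw, norm_div, Complex.norm_real, Real.norm_of_nonneg hl.le]
  have hw0 : w ≠ 0 := div_ne_zero hz hl0
  have hw1 : ‖w‖ ≤ 1 / 2 := by rw [hwz, div_le_iff₀ hl]; linarith
  have h4 : w ∈ ball (0 : ℂ) 1 := by rw [mem_ball_zero_iff]; linarith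
  rw [fderiv_Gl, ← hw, hf w h4 hw0]
  have e1 : inner ℝ w e = (z * (starRingEnd ℂ) e).re / ℓ := by
    rw [Complex.inner, hw, map_div₀, Complex.conj_ofReal, ← mul_div_assoc,
      Complex.div_ofReal_re]
    congr 1
    rw [← Complex.conj_re, map_mul, Complex.conj_conj, mul_comm]
  have e2 : (ℓ⁻¹ • -(1 / (2 * π)) • (innerSL ℝ ((‖w‖ ^ 2)⁻¹ • w) + fderiv ℝ h w)) e =
      -((z * (starRingEnd ℂ) e).re / (2 * π * ‖z‖ ^ 2)) + -(ℓ⁻¹ * (1 / (2 * π)) * fderiv ℝ h w e) := by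
    simp only [smul_apply, add_apply, smul_eq_mul,
      innerSL_apply_apply, real_inner_smul_left, e1, hwz]
    field_simp
    ring
  have e3 : ∀ a b : ℝ, -a + -b + a = -b := fun a b => by ring
  rw [e2, e3, abs_neg, abs_mul,
    abs_of_pos (by positivity : (0 : ℝ) < ℓ⁻¹ * (1 / (2 * π)))]
  have h5 : |fderiv ℝ h w e| ≤ C * ‖w‖ * ‖e‖ :=
    ((fderiv ℝ h w).le_opNorm e).trans (mul_le_mul_of_nonneg_right
      (hg w (by rw [mem_closedBall_zero_iff]; linarith)) (norm_nonneg _))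
  calc ℓ⁻¹ * (1 / (2 * π)) * |fderiv ℝ h w e| ≤ ℓ⁻¹ * (1 / (2 * π)) * (C * ‖w‖ * ‖e‖) := by gcongr
    _ = _ := by rw [hwz]; field_simp

set_option linter.unusedVariables false in
/-- The gradient is odd. -/
theorem g_odd (ℓ : ℝ) (hl : 0 < ℓ) (z : ℂ) : fderiv ℝ (Gl ℓ) (-z) = -fderiv ℝ (Gl ℓ) z := by
  refine fderiv_neg_eq (fun w => ?_) z
  rw [Gl, Gl, neg_div, G_neg]

end AO

end
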