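import Pool.Agent.Lib.AO.GBd

/-
STUB GamBd1 / GamBd (library AO, MP_7bfba2_an). Replace the sorries, keep the statements.
On the unit torus γ z = log(F z/F 0), Gam N ℓ z = 2N γ(z/ℓ); the hypothesis on N, ℓ gives N/ℓ² in [1/(4π), 1/(2π)] (10 <= ℓ: 4πN = ℓ² + 8π(1-c) in [ℓ², ℓ²+8π], 8π <= ℓ²).
gam_gauss: F_gauss.  gam_vort: F(z) <= C dl 1 (z - VV 1) by F_local near VV 1 (F is bounded elsewhere), so γ z <= log(C dl 1(z - VV 1)).
gam_grad: ‖fderiv γ z‖ <= C dl 1 z / dl 1 (z - VV 1): near the lattice γ is smooth (0 is at distance 1/√2 from VL 1), fderiv γ 0 = 0 (γ even or max), so ‖fderiv γ z‖ <= C dl 1 z for dl 1 z <= 3/10; elsewhere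
 dl 1 z >= 3/10 and ‖fderiv γ z‖ = 2π‖fderiv G (z - VV 1)‖ <= C/dl 1 (z - VV 1) (g_grad; G (z - VV 1) = -(1/2π) log F z as 2 VV 1 in Lat 1... by definition G(w) = -(1/2π) log F(w + VV 1)).
gam_conc: along a ray ψ(t) = γ(t e), ‖e‖ = 1: ψ(0) = 0, ψ'(0) = 0, ψ''' bounded by C on |t| <= 1/4.  Taylor: ψ(t) = ψ''(0)t²/2 + O(t³), t ψ'(t) = ψ''(0) t² + O(t³) = 2ψ(t) + O(t³) <= -2c t² + C t³
 <= -c t² for t <= c5.
gam_low: |γ(z)| <= C‖z‖² for ‖z‖ <= 1/4 (C² bound).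
gam_near: for ‖z‖ <= ℓ/4 dl ℓ (z - VV ℓ) >= ℓ/4, so gam_grad gives ‖fderiv Gam z‖ <= C‖z‖.
-/

set_option autoImplicit false

open Complex MeasureTheory Set Metric Filter
open scoped Real ContDiff Topology

noncomputable section

namespace AO

namespace GamBd1Aux

/-- the normalised logarithm of `F` -/
def gam (z : ℂ) : ℝ := Real.log (F z / F 0)

theorem Gam_eq (N : ℕ) (ℓ : ℝ) (z : ℂ) : Gam N ℓ z = 2 * N * gam (z / ℓ) := rfl

theorem gam_eq_Gam (z : ℂ) : gam z = Gam 1 1 z / 2 := by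
  rw [Gam_eq]
  simp

theorem area_bounds {c ℓ : ℝ} {N : ℕ} (hc : 0 < c) (hc1 : c < 1) (hl : 10 ≤ ℓ)
    (h : ℓ ^ 2 = 4 * π * N - 8 * π * (1 - c)) :
    ℓ ^ 2 ≤ 4 * π * N ∧ 2 * (N : ℝ) ≤ ℓ ^ 2 := by
  have hp := Real.pi_pos
  have hp3 := Real.pi_gt_three
  have hp4 := Real.pi_lt_d2
  have h1 : 0 ≤ π * (1 - c) := by
    have : 0 ≤ 1 - c := by linarith
    positivity
  have h2 : 0 ≤ π * c := by positivity
  have h3 : 100 ≤ ℓ ^ 2 := by nlinarith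
  have hN : (0 : ℝ) ≤ N := Nat.cast_nonneg N
  refine ⟨by linarith, ?_⟩
  have h4 : 4 * π * N ≤ 2 * ℓ ^ 2 := by nlinarith
  have h5 : (N : ℝ) ≤ π * N := by nlinarith
  linarith

theorem notMem_VL {ℓ : ℝ} (hl : 0 < ℓ) {z : ℂ} (h : ‖z‖ < ℓ / 2) :
    z ∉ VL ℓ ∧ ℓ / 2 - ‖z‖ ≤ dl ℓ (z - VV ℓ) := by
  have h1 := dl_vv hl z
  rw [dl_eq_norm' hl z h.le] at h1
  refine ⟨?_, by linarith⟩
  have h2 : 0 < dl ℓ (z - VV ℓ) := by linarith
  exact (dl_pos_iff hl _).1 h2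

theorem dl_pos_of {ℓ : ℝ} (hl : 0 < ℓ) {z : ℂ} (h : z ∉ VL ℓ) : 0 < dl ℓ (z - VV ℓ) :=
  (dl_pos_iff hl _).2 h

theorem ev_VL {w : ℂ} (h : w ∉ VL 1) : ∀ᶠ x in 𝓝 w, x ∉ VL 1 :=
  (isClosed_vl one_pos).isOpen_compl.mem_nhds h

theorem contDiffAt_gam {w : ℂ} (h : w ∉ VL 1) : ContDiffAt ℝ ∞ gam w := by
  have e : gam = fun z => Gam 1 1 z / 2 := funext gam_eq_Gam
  rw [e]
  exact (contDiffAt_Gam 1 one_pos w h).div_const 2

theorem per_gam : Per 1 gam := by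
  refine ⟨fun z => ?_, fun z => ?_⟩
  · unfold gam
    rw [F_per.1]
  · unfold gam
    rw [F_per.2]

theorem fderiv_gam_add (z k : ℂ) (hk : k ∈ Lat 1) : fderiv ℝ gam (z + k) = fderiv ℝ gam z := by
  have e : (fun x => gam (x + k)) = gam := funext fun x => per_lat gam per_gam x k hk
  rw [← fderiv_comp_add_right (f := gam) k, e]

theorem gam_zero : gam 0 = 0 := by
  unfold gam
  rw [div_self F_zero_pos.ne', Real.log_one]

theorem F_le_zero (z : ℂ) : F z ≤ F 0 := by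
  obtain ⟨c, hc, h⟩ := F_gauss
  refine (h z).trans ?_
  have h1 : Real.exp (-c * dl 1 z ^ 2) ≤ 1 := by
    rw [Real.exp_le_one_iff]
    have : 0 ≤ c * dl 1 z ^ 2 := by positivity
    linarith
  have := F_zero_pos
  nlinarith

theorem gam_nonpos (z : ℂ) : gam z ≤ 0 := by
  unfold gam
  refine Real.log_nonpos (div_nonneg (F_nonneg z) F_zero_pos.le) ?_
  rw [div_le_one F_zero_pos]
  exact F_le_zero z

theorem fderiv_gam_zero : fderiv ℝ gam 0 = 0 := by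
  apply IsLocalMax.fderiv_eq_zero
  filter_upwards with z
  rw [gam_zero]
  exact gam_nonpos z

theorem fderiv_gam {w : ℂ} (h : w ∉ VL 1) :
    ContDiffAt ℝ ∞ (Gl 1) (w - VV 1) →
    fderiv ℝ gam w = (-(2 * π)) • fderiv ℝ (Gl 1) (w - VV 1) := by
  intro hG
  have e : gam =ᶠ[𝓝 w] fun x => -(2 * π) * Gl 1 (x - VV 1) - Real.log (F 0) := by
    filter_upwards [ev_VL h] with x hx
    unfold gam Gl G
    rw [Complex.ofReal_one, div_one, sub_add_cancel,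
      Real.log_div ((F_pos_iff x).2 hx).ne' F_zero_pos.ne']
    have := Real.pi_pos.ne'
    field_simp
  have hL := (hG.differentiableAt (by simp)).hasFDerivAt
  have h2 : HasFDerivAt (fun x : ℂ => x - VV 1) (ContinuousLinearMap.id ℝ ℂ) w :=
    (hasFDerivAt_id w).sub_const _
  have h3 := ((hL.comp w h2).const_mul (-(2 * π))).sub_const (Real.log (F 0))
  rw [e.fderiv_eq]
  have h4 := h3.fderiv
  rw [ContinuousLinearMap.comp_id] at h4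
  exact h4

/-- the linear upper bound for `F` at its zeros -/
theorem F_upper : ∃ C : ℝ, 0 < C ∧ ∀ w : ℂ, F w ≤ C * dl 1 (w - VV 1) := by
  obtain ⟨h, h1, h2, -⟩ := F_local
  have hsub : closedBall (0 : ℂ) (3 / 4) ⊆ ball 0 1 := closedBall_subset_ball (by norm_num)
  obtain ⟨M, hM⟩ := (isCompact_closedBall (0 : ℂ) (3 / 4)).exists_bound_of_continuousOn
    (h1.continuousOn.mono hsub)
  refine ⟨Real.exp M, Real.exp_pos _, fun w => ?_⟩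
  obtain ⟨k, hk, hk1⟩ := exists_near one_pos (w - VV 1)
  have hle : ‖w - VV 1 - k‖ ≤ 3 / 4 := by
    rw [← hk1]
    refine (dl_le one_pos _).trans (by norm_num)
  have hmem : w - VV 1 - k ∈ closedBall (0 : ℂ) (3 / 4) := by
    rw [mem_closedBall_zero_iff]
    exact hle
  have e : F w = F (VV 1 + (w - VV 1 - k)) := by
    have h3 := per_lat F F_per (VV 1 + (w - VV 1 - k)) k hk
    rw [← h3]
    congr 1
    ring
  rw [e, h2 _ (hsub hmem), hk1, mul_comm]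
  refine mul_le_mul_of_nonneg_right (Real.exp_le_exp.2 ?_) (norm_nonneg _)
  have h4 := hM _ hmem
  rw [Real.norm_eq_abs] at h4
  exact (abs_le.1 h4).2

/-- the gradient bound on the unit torus -/
theorem grad_unit : ∃ C : ℝ, 0 < C ∧ ∀ w : ℂ, w ∉ VL 1 →
    ‖fderiv ℝ gam w‖ ≤ C * dl 1 w / dl 1 (w - VV 1) := by
  obtain ⟨C, hC, hg⟩ := g_grad
  have hball : ∀ u ∈ closedBall (0 : ℂ) (3 / 10), u ∉ VL 1 := by
    intro u hu
    rw [mem_closedBall_zero_iff] at hu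
    exact (notMem_VL one_pos (by linarith)).1
  have hsm : ∀ u ∈ closedBall (0 : ℂ) (3 / 10), ContDiffAt ℝ ∞ (fderiv ℝ gam) u := fun u hu =>
    (contDiffAt_gam (hball u hu)).fderiv_right (m := ∞) (by simp)
  have hsm2 : ∀ u ∈ closedBall (0 : ℂ) (3 / 10), ContDiffAt ℝ ∞ (fderiv ℝ (fderiv ℝ gam)) u :=
    fun u hu => (hsm u hu).fderiv_right (m := ∞) (by simp)
  obtain ⟨M, hM⟩ := (isCompact_closedBall (0 : ℂ) (3 / 10)).exists_bound_of_continuousOn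
    (f := fderiv ℝ (fderiv ℝ gam)) fun u hu => (hsm2 u hu).continuousAt.continuousWithinAt
  have hM0 : 0 ≤ M := (norm_nonneg _).trans (hM 0 (mem_closedBall_self (by norm_num)))
  refine ⟨M + 2 * π * C * (10 / 3), by positivity, fun w hw => ?_⟩
  have hd : 0 < dl 1 (w - VV 1) := dl_pos_of one_pos hw
  have hw0 := dl_nonneg (ℓ := 1) w
  rw [le_div_iff₀ hd]
  rcases le_total (dl 1 w) (3 / 10) with h1 | h1
  · obtain ⟨k, hk, hk1⟩ := exists_near one_pos w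
    have hu : w - k ∈ closedBall (0 : ℂ) (3 / 10) := by
      rw [mem_closedBall_zero_iff, ← hk1]
      exact h1
    have e : fderiv ℝ gam w = fderiv ℝ gam (w - k) := by
      rw [← fderiv_gam_add (w - k) k hk, sub_add_cancel]
    have h2 := (convex_closedBall (0 : ℂ) (3 / 10)).norm_image_sub_le_of_norm_fderiv_le
      (𝕜 := ℝ) (f := fderiv ℝ gam) (C := M)
      (fun u hu => (hsm u hu).differentiableAt (by simp)) hM
      (mem_closedBall_self (by norm_num)) hu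
    rw [fderiv_gam_zero, sub_zero, sub_zero, ← hk1] at h2
    rw [e]
    have h3 : dl 1 (w - VV 1) ≤ 1 := (dl_le one_pos _).trans (by norm_num)
    have h4 : 0 ≤ 2 * π * C * (10 / 3) * dl 1 w := by positivity
    calc ‖fderiv ℝ gam (w - k)‖ * dl 1 (w - VV 1) ≤ ‖fderiv ℝ gam (w - k)‖ * 1 :=
        mul_le_mul_of_nonneg_left h3 (norm_nonneg _)
      _ ≤ (M + 2 * π * C * (10 / 3)) * dl 1 w := by linarith
  · obtain ⟨h2, h3⟩ := hg 1 (w - VV 1) one_pos hw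
    rw [fderiv_gam hw h2, norm_smul, norm_neg, Real.norm_of_nonneg (by positivity)]
    rw [le_div_iff₀ hd] at h3
    have h4 : 0 ≤ M * dl 1 w := by positivity
    calc 2 * π * ‖fderiv ℝ (Gl 1) (w - VV 1)‖ * dl 1 (w - VV 1) =
        2 * π * (‖fderiv ℝ (Gl 1) (w - VV 1)‖ * dl 1 (w - VV 1)) := by ring
      _ ≤ 2 * π * C := mul_le_mul_of_nonneg_left h3 (by positivity)
      _ = 2 * π * C * (10 / 3) * (3 / 10) := by ring
      _ ≤ 2 * π * C * (10 / 3) * dl 1 w := mul_le_mul_of_nonneg_left h1 (by positivity)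
      _ ≤ (M + 2 * π * C * (10 / 3)) * dl 1 w := by linarith

theorem norm_fderiv_Gam_le (N : ℕ) {ℓ : ℝ} (hl : 0 < ℓ) {z : ℂ} (hz : z ∉ VL ℓ) :
    ‖fderiv ℝ (Gam N ℓ) z‖ ≤ 2 * N / ℓ * ‖fderiv ℝ gam (z / ℓ)‖ := by
  have hz1 : z / ℓ ∉ VL 1 := fun h => hz ((vl_scale hl z).2 h)
  have hL := ((contDiffAt_gam hz1).differentiableAt (by simp)).hasFDerivAt
  have h2 : HasFDerivAt (fun x : ℂ => x / (ℓ : ℂ)) (ℓ⁻¹ • ContinuousLinearMap.id ℝ ℂ) z := by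
    have h3 : (fun x : ℂ => x / (ℓ : ℂ)) = fun x => ℓ⁻¹ • x := by
      funext x
      rw [Complex.real_smul, Complex.ofReal_inv, div_eq_inv_mul]
    rw [h3]
    exact (hasFDerivAt_id z).const_smul ℓ⁻¹
  have h4 : HasFDerivAt (Gam N ℓ) ((2 * N : ℝ) • ((fderiv ℝ gam (z / ℓ)).comp
      (ℓ⁻¹ • ContinuousLinearMap.id ℝ ℂ))) z := (hL.comp z h2).const_mul _
  have h5 : ‖(fderiv ℝ gam (z / ℓ)).comp (ℓ⁻¹ • ContinuousLinearMap.id ℝ ℂ)‖ ≤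
      ‖fderiv ℝ gam (z / ℓ)‖ * ℓ⁻¹ := by
    refine (ContinuousLinearMap.opNorm_comp_le _ _).trans ?_
    refine mul_le_mul_of_nonneg_left ?_ (norm_nonneg _)
    rw [norm_smul, Real.norm_of_nonneg (by positivity)]
    have h6 := ContinuousLinearMap.norm_id_le (𝕜 := ℝ) (E := ℂ)
    have h7 := inv_pos.2 hl
    nlinarith
  rw [h4.fderiv, norm_smul, Real.norm_of_nonneg (by positivity)]
  calc 2 * (N : ℝ) * ‖(fderiv ℝ gam (z / ℓ)).comp (ℓ⁻¹ • ContinuousLinearMap.id ℝ ℂ)‖ ≤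
      2 * N * (‖fderiv ℝ gam (z / ℓ)‖ * ℓ⁻¹) := mul_le_mul_of_nonneg_left h5 (by positivity)
    _ = 2 * N / ℓ * ‖fderiv ℝ gam (z / ℓ)‖ := by
      rw [div_eq_mul_inv]
      ring

theorem dl_vv_scale {ℓ : ℝ} (hl : 0 < ℓ) (z : ℂ) :
    dl ℓ (z - VV ℓ) = ℓ * dl 1 (z / ℓ - VV 1) := by
  rw [dl_scale hl, vv_scale hl, sub_div, mul_div_cancel_left₀]
  exact_mod_cast hl.ne'

end GamBd1Aux

open GamBd1Aux

theorem gam_gauss : ∃ c2 : ℝ, 0 < c2 ∧ ∀ (c ℓ : ℝ) (N : ℕ) (z : ℂ), 0 < c → c < 1 → 10 ≤ ℓ →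
    ℓ ^ 2 = 4 * π * N - 8 * π * (1 - c) → z ∉ VL ℓ → Gam N ℓ z ≤ -c2 * dl ℓ z ^ 2 := by
  obtain ⟨a, ha, h⟩ := F_gauss
  refine ⟨a / (2 * π), by positivity, ?_⟩
  intro c ℓ N z hc hc1 hl harea hz
  have hl0 : 0 < ℓ := by linarith
  obtain ⟨h1, -⟩ := area_bounds hc hc1 hl harea
  have hz1 : z / ℓ ∉ VL 1 := fun h => hz ((vl_scale hl0 z).2 h)
  have hF := (F_pos_iff _).2 hz1
  have h2 : gam (z / ℓ) ≤ -a * dl 1 (z / ℓ) ^ 2 := by
    unfold gam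
    rw [Real.log_le_iff_le_exp (div_pos hF F_zero_pos), div_le_iff₀ F_zero_pos, mul_comm]
    exact h _
  rw [Gam_eq, dl_scale hl0]
  have h3 : 2 * (N : ℝ) * gam (z / ℓ) ≤ 2 * N * (-a * dl 1 (z / ℓ) ^ 2) :=
    mul_le_mul_of_nonneg_left h2 (by positivity)
  refine h3.trans ?_
  have hp := Real.pi_pos
  have h4 : a * dl 1 (z / ℓ) ^ 2 * ℓ ^ 2 ≤ a * dl 1 (z / ℓ) ^ 2 * (4 * π * N) :=
    mul_le_mul_of_nonneg_left h1 (by positivity)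
  have h5 : a / (2 * π) * (ℓ * dl 1 (z / ℓ)) ^ 2 ≤ 2 * N * (a * dl 1 (z / ℓ) ^ 2) := by
    rw [div_mul_eq_mul_div, div_le_iff₀ (by positivity)]
    linarith
  linarith

theorem gam_vort : ∃ C : ℝ, 0 < C ∧ ∀ (ℓ : ℝ) (N : ℕ) (z : ℂ), 10 ≤ ℓ → z ∉ VL ℓ →
    Gam N ℓ z ≤ 2 * N * Real.log (C * dl ℓ (z - VV ℓ) / ℓ) := by
  obtain ⟨C, hC, h⟩ := F_upper
  have hF0 := F_zero_pos
  refine ⟨C / F 0, by positivity, ?_⟩
  intro ℓ N z hl hz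
  have hl0 : 0 < ℓ := by linarith
  have hz1 : z / ℓ ∉ VL 1 := fun h => hz ((vl_scale hl0 z).2 h)
  have hF := (F_pos_iff _).2 hz1
  rw [Gam_eq]
  refine mul_le_mul_of_nonneg_left ?_ (by positivity)
  unfold gam
  refine Real.log_le_log (div_pos hF F_zero_pos) ?_
  rw [dl_vv_scale hl0]
  have e : C / F 0 * (ℓ * dl 1 (z / ℓ - VV 1)) / ℓ = C * dl 1 (z / ℓ - VV 1) / F 0 := by
    field_simp
  rw [e]
  exact div_le_div_of_nonneg_right (h _) hF0.le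

theorem gam_grad : ∃ C : ℝ, 0 < C ∧ ∀ (c ℓ : ℝ) (N : ℕ) (z : ℂ), 0 < c → c < 1 → 10 ≤ ℓ →
    ℓ ^ 2 = 4 * π * N - 8 * π * (1 - c) → z ∉ VL ℓ →
    ‖fderiv ℝ (Gam N ℓ) z‖ ≤ C * ℓ * dl ℓ z / dl ℓ (z - VV ℓ) := by
  obtain ⟨C, hC, h⟩ := grad_unit
  refine ⟨C, hC, ?_⟩
  intro c ℓ N z hc hc1 hl harea hz
  have hl0 : 0 < ℓ := by linarith
  obtain ⟨-, h1⟩ := area_bounds hc hc1 hl harea
  have hz1 : z / ℓ ∉ VL 1 := fun h => hz ((vl_scale hl0 z).2 h)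
  have hd := dl_pos_of one_pos hz1
  have hw0 := dl_nonneg (ℓ := 1) (z / ℓ)
  refine (norm_fderiv_Gam_le N hl0 hz).trans ?_
  have h2 : 2 * (N : ℝ) / ℓ ≤ ℓ := by
    rw [div_le_iff₀ hl0]
    linarith
  rw [dl_vv_scale hl0, dl_scale hl0 z]
  calc 2 * (N : ℝ) / ℓ * ‖fderiv ℝ gam (z / ℓ)‖ ≤
      ℓ * (C * dl 1 (z / ℓ) / dl 1 (z / ℓ - VV 1)) :=
        mul_le_mul h2 (h _ hz1) (norm_nonneg _) hl0.le
    _ = C * ℓ * (ℓ * dl 1 (z / ℓ)) / (ℓ * dl 1 (z / ℓ - VV 1)) := by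
        field_simp

theorem gam_near : ∃ C : ℝ, 0 < C ∧ ∀ (c ℓ : ℝ) (N : ℕ) (z : ℂ), 0 < c → c < 1 → 10 ≤ ℓ →
    ℓ ^ 2 = 4 * π * N - 8 * π * (1 - c) → ‖z‖ ≤ ℓ / 4 →
    z ∉ VL ℓ ∧ ‖fderiv ℝ (Gam N ℓ) z‖ ≤ C * ‖z‖ ∧ -C * ‖z‖ ^ 2 ≤ Gam N ℓ z := by
  obtain ⟨C, hC, h⟩ := gam_grad
  refine ⟨4 * C, by positivity, ?_⟩
  intro c ℓ N z hc hc1 hl harea hz
  have hl0 : 0 < ℓ := by linarith
  have key : ∀ w : ℂ, ‖w‖ ≤ ℓ / 4 → w ∉ VL ℓ ∧ ‖fderiv ℝ (Gam N ℓ) w‖ ≤ 4 * C * ‖w‖ := by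
    intro w hw
    obtain ⟨h1, h2⟩ := notMem_VL hl0 (z := w) (by linarith)
    have h3 : ℓ / 4 ≤ dl ℓ (w - VV ℓ) := by linarith
    refine ⟨h1, (h c ℓ N w hc hc1 hl harea h1).trans ?_⟩
    rw [dl_eq_norm' hl0 w (by linarith), div_le_iff₀ (by linarith)]
    have h4 : 4 * C * ‖w‖ * (ℓ / 4) ≤ 4 * C * ‖w‖ * dl ℓ (w - VV ℓ) :=
      mul_le_mul_of_nonneg_left h3 (by positivity)
    linarith
  refine ⟨(key z hz).1, (key z hz).2, ?_⟩
  have h5 : ∀ u ∈ closedBall (0 : ℂ) ‖z‖, ‖u‖ ≤ ‖z‖ := fun u hu => by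
    rwa [mem_closedBall_zero_iff] at hu
  have h6 := (convex_closedBall (0 : ℂ) ‖z‖).norm_image_sub_le_of_norm_fderiv_le
    (𝕜 := ℝ) (f := Gam N ℓ) (C := 4 * C * ‖z‖)
    (fun u hu => (contDiffAt_Gam N hl0 u (key u ((h5 u hu).trans hz)).1).differentiableAt
      (by simp))
    (fun u hu => ((key u ((h5 u hu).trans hz)).2).trans
      (mul_le_mul_of_nonneg_left (h5 u hu) (by positivity)))
    (x := 0) (y := z) (mem_closedBall_self (norm_nonneg _)) (by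
      rw [mem_closedBall_zero_iff])
  rw [Gam_zero, sub_zero, sub_zero, Real.norm_eq_abs] at h6
  have h7 := (abs_le.1 h6).1
  have e : 4 * C * ‖z‖ * ‖z‖ = 4 * C * ‖z‖ ^ 2 := by ring
  rw [e] at h7
  linarith

end AO

end
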