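import Pool.Agent.Lib.AO.GradA
import Pool.Agent.Lib.AO.CellBall
import Pool.Agent.Lib.AO.Radial

/-
Module GradA2 (library AO, MP_7bfba2_an).
(4.4), gradient of A.  gradA_le: ‖fderiv A x‖ <= C ∫_Q ff/dl(x-y).  Split the cell into {dl(y-p) < 2δ} and its complement.  First part (int_ball_eq applied to the periodic function y -> ff y/dl(x-y)): on ball p (2δ), ‖x-y‖ <= 3δ <= 3 <= ℓ/2, so
 dl(x-y) = ‖x-y‖ (dl_eq_norm') and the integral is <= M ∫ f0 ε ‖y-p‖/‖x-y‖ <= M C/‖x-p‖ (f0_conv).  Second part: dl(x-y) >= dl(y-p) - ‖x-p‖ >= δ, so it is <= 8π/δ (int_ff).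
-/

set_option autoImplicit false

open Complex MeasureTheory Set Metric Filter
open scoped Real ContDiff Topology

noncomputable section

namespace AO

theorem GradA2Aux.per_quot {c ℓ : ℝ} {N : ℕ} {A B : ℂ → ℝ} (h : Sys c ℓ N A B) (x : ℂ) :
    Per ℓ (fun y => ff N ℓ A B y / dl ℓ (x - y)) := by
  have hk : ∀ k ∈ Lat ℓ, ∀ y : ℂ, ff N ℓ A B (y + k) / dl ℓ (x - (y + k)) = ff N ℓ A B y / dl ℓ (x - y) := by
    intro k hk y
    rw [per_lat _ h.per_ff y k hk]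
    have h1 := dl_add_lat (ℓ := ℓ) (x - y) (-k) (lat_neg hk)
    rw [show x - y + -k = x - (y + k) by ring] at h1
    rw [h1]
  exact ⟨fun y => hk _ ⟨1, 0, by simp⟩ y, fun y => hk _ ⟨0, 1, by simp⟩ y⟩

theorem gradA_near (M : ℝ) (hM : 1 ≤ M) : ∃ C : ℝ, 1 ≤ C ∧ ∀ (c ℓ : ℝ) (N : ℕ) (A B : ℂ → ℝ) (p : ℂ) (ε δ : ℝ),
    Sys c ℓ N A B → 10 ≤ ℓ → 0 < ε → 0 < δ → δ ≤ 1 →
    (∀ z ∈ ball p (2 * δ), ff N ℓ A B z ≤ M * f0 ε ‖z - p‖) →
    ∀ x ∈ ball p δ, x ≠ p → ‖fderiv ℝ A x‖ ≤ C * (1 / ‖x - p‖ + 1 / δ) := by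
  obtain ⟨C1, hC1, hA⟩ := gradA_le
  obtain ⟨C2, hC2, hF⟩ := f0_conv
  have hpi := Real.pi_gt_three
  have hK : 1 ≤ M * C2 + 8 * π := by
    have : 0 ≤ M * C2 := by positivity
    linarith
  refine ⟨C1 * (M * C2 + 8 * π), ?_, ?_⟩
  · calc (1 : ℝ) = 1 * 1 := by ring
      _ ≤ C1 * (M * C2 + 8 * π) := mul_le_mul hC1 hK (by norm_num) (by linarith)
  intro c ℓ N A B p ε δ hS hl hε hδ hδ1 hff x hx hxp
  have hl0 : 0 < ℓ := by linarith
  obtain ⟨hi, hle⟩ := hA c ℓ N A B hS x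
  obtain ⟨hFi, hFle⟩ := hF ε p x hε hxp
  have hD : 0 < ‖x - p‖ := norm_pos_iff.2 (sub_ne_zero.2 hxp)
  have hxp' : ‖x - p‖ < δ := by rwa [mem_ball, dist_eq_norm] at hx
  rw [int_Q_split hl0 _ (GradA2Aux.per_quot hS x) hi p (2 * δ) (by linarith)] at hle
  -- first part
  have h1 : ∫ y in ball p (2 * δ), ff N ℓ A B y / dl ℓ (x - y) ≤ M * (C2 / ‖x - p‖) := by
    have h2 : ∫ y in ball p (2 * δ), ff N ℓ A B y / dl ℓ (x - y) ≤
        ∫ y in ball p (2 * δ), M * (f0 ε ‖y - p‖ / ‖x - y‖) := by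
      refine integral_mono_of_nonneg (Eventually.of_forall fun y => ?_) (hFi.const_mul M).integrableOn ?_
      · exact div_nonneg (ff_nonneg _ _ _ _ _) (dl_nonneg _)
      · refine (ae_restrict_iff' measurableSet_ball).2 (Eventually.of_forall fun y hy => ?_)
        have hy' : ‖y - p‖ < 2 * δ := by rwa [mem_ball, dist_eq_norm] at hy
        have hxy : ‖x - y‖ ≤ ℓ / 2 := by
          have h3 : ‖x - y‖ ≤ ‖x - p‖ + ‖y - p‖ := by
            have h4 := norm_sub_le (x - p) (y - p)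
            rwa [sub_sub_sub_cancel_right] at h4
          linarith
        show ff N ℓ A B y / dl ℓ (x - y) ≤ M * (f0 ε ‖y - p‖ / ‖x - y‖)
        rw [dl_eq_norm' hl0 _ hxy, ← mul_div_assoc]
        exact div_le_div_of_nonneg_right (hff y hy) (norm_nonneg _)
    refine h2.trans ?_
    rw [integral_const_mul]
    refine mul_le_mul_of_nonneg_left ?_ (by linarith)
    refine le_trans ?_ hFle
    refine setIntegral_le_integral hFi (Eventually.of_forall fun y => ?_)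
    exact div_nonneg (f0_nonneg _ _) (norm_nonneg _)
  -- second part
  have h2 : ∫ y in {z ∈ Q ℓ | 2 * δ ≤ dl ℓ (z - p)}, ff N ℓ A B y / dl ℓ (x - y) ≤ 8 * π / δ := by
    have hms : MeasurableSet {z ∈ Q ℓ | 2 * δ ≤ dl ℓ (z - p)} :=
      measurableSet_Q.inter (CellBallAux.closed_ge (ℓ := ℓ) p (2 * δ)).measurableSet
    have hiff : IntegrableOn (fun y => ff N ℓ A B y / δ) (Q ℓ) :=
      (integrableOn_Q_of_continuous hl0 _ hS.contDiff_ff.continuous).div_const δ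
    have hsub : {z ∈ Q ℓ | 2 * δ ≤ dl ℓ (z - p)} ⊆ Q ℓ := fun z hz => hz.1
    have h3 : ∫ y in {z ∈ Q ℓ | 2 * δ ≤ dl ℓ (z - p)}, ff N ℓ A B y / dl ℓ (x - y) ≤
        ∫ y in {z ∈ Q ℓ | 2 * δ ≤ dl ℓ (z - p)}, ff N ℓ A B y / δ := by
      refine integral_mono_of_nonneg (Eventually.of_forall fun y => ?_) (hiff.mono_set hsub) ?_
      · exact div_nonneg (ff_nonneg _ _ _ _ _) (dl_nonneg _)
      · refine (ae_restrict_iff' hms).2 (Eventually.of_forall fun y hy => ?_)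
        have hy' := hy.2
        have h4 := dl_add_le (ℓ := ℓ) (y - x) (x - p)
        rw [sub_add_sub_cancel] at h4
        have h5 := dl_neg (ℓ := ℓ) (x - y)
        rw [neg_sub] at h5
        have h6 := dl_le_norm (ℓ := ℓ) (x - p)
        have h7 : δ ≤ dl ℓ (x - y) := by linarith
        exact div_le_div_of_nonneg_left (ff_nonneg _ _ _ _ _) hδ h7
    have h4 : ∫ y in {z ∈ Q ℓ | 2 * δ ≤ dl ℓ (z - p)}, ff N ℓ A B y / δ ≤ ∫ y in Q ℓ, ff N ℓ A B y / δ :=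
      setIntegral_mono_set hiff (Eventually.of_forall fun y => div_nonneg (ff_nonneg _ _ _ _ _) hδ.le)
        (HasSubset.Subset.eventuallyLE hsub)
    have h5 : ∫ y in Q ℓ, ff N ℓ A B y / δ = 8 * π / δ := by rw [integral_div, hS.int_ff]
    exact h3.trans (h4.trans h5.le)
  have hC0 : 0 ≤ C1 := by linarith
  have h3 : ‖fderiv ℝ A x‖ ≤ C1 * (M * (C2 / ‖x - p‖) + 8 * π / δ) :=
    hle.trans (mul_le_mul_of_nonneg_left (add_le_add h1 h2) hC0)
  refine h3.trans ?_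
  rw [mul_assoc]
  refine mul_le_mul_of_nonneg_left ?_ hC0
  have e1 : M * (C2 / ‖x - p‖) = (M * C2) * (1 / ‖x - p‖) := by ring
  have e2 : 8 * π / δ = (8 * π) * (1 / δ) := by ring
  rw [e1, e2]
  have p1 : 0 < 1 / ‖x - p‖ := by positivity
  have p2 : 0 < 1 / δ := by positivity
  have p3 : 0 ≤ M * C2 := by positivity
  nlinarith [mul_pos Real.pi_pos p1, mul_nonneg p3 p2.le]

end AO

end
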