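import Pool.Agent.Lib.AO.CellInt
import Pool.Agent.Lib.AO.Radial

/-
STUB KInt1 / KInt (library AO, MP_7bfba2_an). 
Integrals of singular periodic kernels against a bounded periodic density.  By int_Q_conv,
∫ y in Q ℓ, k (x - y) * f y = ∫ y in Q ℓ, k y * f (x - y), and on Q ℓ dl ℓ y = ‖y‖ (dl_eq_of_mem).  So for a decreasing kernel k(‖y‖) and
0 <= f <= M, ∫ f <= m: split at ‖y‖ < ρ (kernel integral over ball 0 ρ times M, int_inv, int_inv32, int_log) and ‖y‖ >= ρ
(kernel <= k(ρ), times ∫ f (x - y) <= m, int_Q_sub).  For kint_log: log(1 + D/t) <= log(1 + D/ρ) + log⁺(ρ/t) (for t <= ρ: 1 + D/t = (t+D)/t <= (ρ+D)/t =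
(1+D/ρ)(ρ/t)).  Integrability: f is bounded and measurable, the kernels are integrable over Q (bounded away from 0, Radial near 0).
ball_inv: for x in ball z δ, δ <= 1, ℓ >= 10: choose k in Lat with dl ℓ (z - y) = ‖z - y - k‖; either that is <= 3, then dl ℓ (x-y) = ‖x - y - k‖ (norm
<= 4 <= ℓ/2) and ∫ over ball z δ of ‖x - y - k‖⁻¹ <= 2πδ·(at most the integral over the ball of radius δ centred at the singularity) ; or dl ℓ (x-y) >= 2.
For the first: split ball z δ into the part with ‖x - y - k‖ < δ (integral <= 2πδ) and the rest (integrand <= 1/δ, area <= πδ²).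
-/

set_option autoImplicit false

open Complex MeasureTheory Set Metric Filter
open scoped Real ContDiff Topology

noncomputable section

namespace AO

variable {ℓ : ℝ}

namespace KInt1Aux

/-- the general kernel -/
theorem gen (hl : 0 < ℓ) (f : ℂ → ℝ) (hf : Per ℓ f) (hc : Continuous f) (h0 : ∀ z, 0 ≤ f z) (M m : ℝ)
    (hM : ∀ z, f z ≤ M) (hm : ∫ z in Q ℓ, f z ≤ m) (x : ℂ) (ρ : ℝ)
    (kap j : ℝ → ℝ) (c J : ℝ) (hc0 : 0 ≤ c) (hkm : Measurable kap) (hk0 : ∀ t, 0 ≤ t → 0 ≤ kap t)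
    (hk : ∀ t, 0 ≤ t → kap t ≤ c + (if t < ρ then j t else 0))
    (hj0 : ∀ t, 0 ≤ t → t < ρ → 0 ≤ j t)
    (hji : IntegrableOn (fun y : ℂ => j ‖y‖) (ball 0 ρ)) (hJ : ∫ y in ball (0 : ℂ) ρ, j ‖y‖ ≤ J) :
    IntegrableOn (fun y => f y * kap (dl ℓ (x - y))) (Q ℓ) ∧
      ∫ y in Q ℓ, f y * kap (dl ℓ (x - y)) ≤ c * m + M * J := by
  have hM0 : 0 ≤ M := (h0 0).trans (hM 0)
  set h : ℂ → ℝ := fun y => f (x - y) * kap (dl ℓ y) with hh
  have hper : Per ℓ h := by
    constructor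
    · intro z
      have h1 := hf.1 (x - (z + ℓ))
      have h2 : x - (z + ℓ) + ℓ = x - z := by ring
      rw [h2] at h1
      simp only [hh]
      rw [per_dl.1 z, h1]
    · intro z
      have h1 := hf.2 (x - (z + ℓ * Complex.I))
      have h2 : x - (z + ℓ * Complex.I) + ℓ * Complex.I = x - z := by ring
      rw [h2] at h1
      simp only [hh]
      rw [per_dl.2 z, h1]
  have hind : Integrable ((ball (0 : ℂ) ρ).indicator fun y => j ‖y‖) :=
    (integrable_indicator_iff measurableSet_ball).2 hji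
  have hcf : Continuous fun y => f (x - y) := hc.comp (continuous_const.sub continuous_id)
  have hcfi : IntegrableOn (fun y => f (x - y)) (Q ℓ) := integrableOn_Q_of_continuous hl _ hcf
  have hgi1 : IntegrableOn (fun y => c * f (x - y)) (Q ℓ) := hcfi.const_mul c
  have hgi2 : IntegrableOn (fun y => M * (ball (0 : ℂ) ρ).indicator (fun y => j ‖y‖) y) (Q ℓ) :=
    hind.integrableOn.const_mul M
  have hgi : IntegrableOn (fun y => c * f (x - y) + M * (ball (0 : ℂ) ρ).indicator (fun y => j ‖y‖) y) (Q ℓ) :=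
    hgi1.add hgi2
  have hind0 : ∀ y, 0 ≤ (ball (0 : ℂ) ρ).indicator (fun y => j ‖y‖) y := by
    intro y
    refine Set.indicator_nonneg (fun z hz => ?_) y
    exact hj0 _ (norm_nonneg z) (mem_ball_zero_iff.1 hz)
  have hle : ∀ y ∈ Q ℓ, h y ≤ c * f (x - y) + M * (ball (0 : ℂ) ρ).indicator (fun y => j ‖y‖) y := by
    intro y hy
    have h1 := hk ‖y‖ (norm_nonneg y)
    simp only [hh]
    rw [dl_eq_of_mem hl y hy]
    have h2 : (if ‖y‖ < ρ then j ‖y‖ else 0) = (ball (0 : ℂ) ρ).indicator (fun y => j ‖y‖) y := by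
      by_cases h3 : ‖y‖ < ρ
      · rw [if_pos h3, Set.indicator_of_mem (mem_ball_zero_iff.2 h3)]
      · rw [if_neg h3, Set.indicator_of_notMem fun h4 => h3 (mem_ball_zero_iff.1 h4)]
    rw [h2] at h1
    calc f (x - y) * kap ‖y‖
        ≤ f (x - y) * (c + (ball (0 : ℂ) ρ).indicator (fun y => j ‖y‖) y) :=
          mul_le_mul_of_nonneg_left h1 (h0 _)
      _ = c * f (x - y) + f (x - y) * (ball (0 : ℂ) ρ).indicator (fun y => j ‖y‖) y := by ring
      _ ≤ _ := add_le_add le_rfl (mul_le_mul_of_nonneg_right (hM _) (hind0 y))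
  have hnn : ∀ y, 0 ≤ h y := fun y => mul_nonneg (h0 _) (hk0 _ (dl_nonneg y))
  have hhi : IntegrableOn h (Q ℓ) := by
    refine Integrable.mono' hgi ?_ ?_
    · exact (hcf.measurable.mul (hkm.comp continuous_dl.measurable)).aestronglyMeasurable
    · filter_upwards [ae_restrict_mem measurableSet_Q] with y hy
      rw [Real.norm_of_nonneg (hnn y)]
      exact hle y hy
  have e : (fun y => f y * kap (dl ℓ (x - y))) = fun y => h (x - y) := by
    funext y
    simp only [hh, sub_sub_cancel]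
  rw [e]
  refine ⟨integrableOn_Q_sub hl h hper x hhi, ?_⟩
  rw [int_Q_sub hl h hper x]
  calc ∫ y in Q ℓ, h y
      ≤ ∫ y in Q ℓ, (c * f (x - y) + M * (ball (0 : ℂ) ρ).indicator (fun y => j ‖y‖) y) :=
        setIntegral_mono_on hhi hgi measurableSet_Q hle
    _ = c * (∫ y in Q ℓ, f (x - y)) + M * (∫ y in Q ℓ, (ball (0 : ℂ) ρ).indicator (fun y => j ‖y‖) y) := by
        rw [integral_add hgi1 hgi2, integral_const_mul, integral_const_mul]
    _ ≤ c * m + M * J := by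
        refine add_le_add (mul_le_mul_of_nonneg_left ?_ hc0) (mul_le_mul_of_nonneg_left ?_ hM0)
        · rw [int_Q_sub hl f hf x]
          exact hm
        · refine (setIntegral_le_integral hind (Filter.Eventually.of_forall hind0)).trans ?_
          rw [integral_indicator measurableSet_ball]
          exact hJ

theorem norm_form (j : ℝ → ℝ) (ρ : ℝ) {v : ℝ}
    (h : ∫ y in ball (0 : ℂ) ρ, j ‖y - 0‖ = v ∧ IntegrableOn (fun y : ℂ => j ‖y - 0‖) (ball 0 ρ)) :
    IntegrableOn (fun y : ℂ => j ‖y‖) (ball 0 ρ) ∧ ∫ y in ball (0 : ℂ) ρ, j ‖y‖ = v := by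
  simp only [sub_zero] at h
  exact ⟨h.2, h.1⟩

end KInt1Aux

theorem kint_inv (hl : 0 < ℓ) (f : ℂ → ℝ) (hf : Per ℓ f) (hc : Continuous f) (h0 : ∀ z, 0 ≤ f z) (M m : ℝ)
    (hM : ∀ z, f z ≤ M) (hm : ∫ z in Q ℓ, f z ≤ m) (x : ℂ) (ρ : ℝ) (hρ : 0 < ρ) :
    IntegrableOn (fun y => f y / dl ℓ (x - y)) (Q ℓ) ∧
      ∫ y in Q ℓ, f y / dl ℓ (x - y) ≤ 2 * π * ρ * M + m / ρ := by
  obtain ⟨j1, j2⟩ := KInt1Aux.norm_form (fun t => t⁻¹) ρ (int_inv 0 ρ hρ.le)
  have h1 := KInt1Aux.gen hl f hf hc h0 M m hM hm x ρ (fun t => t⁻¹) (fun t => t⁻¹) ρ⁻¹ (2 * π * ρ)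
    (by positivity) measurable_inv (fun t ht => inv_nonneg.2 ht)
    (fun t ht => by
      split_ifs with h
      · have : 0 ≤ ρ⁻¹ := by positivity
        linarith
      · rw [add_zero]
        exact inv_anti₀ hρ (not_lt.1 h))
    (fun t ht _ => inv_nonneg.2 ht) j1 j2.le
  have e : (fun y => f y / dl ℓ (x - y)) = fun y => f y * (dl ℓ (x - y))⁻¹ := by
    funext y
    rw [div_eq_mul_inv]
  rw [e]
  refine ⟨h1.1, h1.2.trans (le_of_eq ?_)⟩
  rw [div_eq_mul_inv]
  ring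

theorem kint_inv32 (hl : 0 < ℓ) (f : ℂ → ℝ) (hf : Per ℓ f) (hc : Continuous f) (h0 : ∀ z, 0 ≤ f z) (M m : ℝ)
    (hM : ∀ z, f z ≤ M) (hm : ∫ z in Q ℓ, f z ≤ m) (x : ℂ) (ρ : ℝ) (hρ : 0 < ρ) :
    IntegrableOn (fun y => f y / (dl ℓ (x - y) * √(dl ℓ (x - y)))) (Q ℓ) ∧
      ∫ y in Q ℓ, f y / (dl ℓ (x - y) * √(dl ℓ (x - y))) ≤ 4 * π * √ρ * M + m / (ρ * √ρ) := by
  obtain ⟨j1, j2⟩ := KInt1Aux.norm_form (fun t => (t * √t)⁻¹) ρ (int_inv32 0 ρ hρ.le)
  have h1 := KInt1Aux.gen hl f hf hc h0 M m hM hm x ρ (fun t => (t * √t)⁻¹) (fun t => (t * √t)⁻¹)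
    (ρ * √ρ)⁻¹ (4 * π * √ρ) (by positivity)
    (measurable_id.mul Real.continuous_sqrt.measurable).inv
    (fun t ht => inv_nonneg.2 (mul_nonneg ht (Real.sqrt_nonneg t)))
    (fun t ht => by
      split_ifs with h
      · have : 0 ≤ (ρ * √ρ)⁻¹ := by positivity
        linarith
      · rw [add_zero]
        have h2 := not_lt.1 h
        exact inv_anti₀ (by positivity) (mul_le_mul h2 (Real.sqrt_le_sqrt h2) (Real.sqrt_nonneg _) ht))
    (fun t ht _ => inv_nonneg.2 (mul_nonneg ht (Real.sqrt_nonneg t))) j1 j2.le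
  have e : (fun y => f y / (dl ℓ (x - y) * √(dl ℓ (x - y)))) =
      fun y => f y * (dl ℓ (x - y) * √(dl ℓ (x - y)))⁻¹ := by
    funext y
    rw [div_eq_mul_inv]
  rw [e]
  refine ⟨h1.1, h1.2.trans (le_of_eq ?_)⟩
  rw [div_eq_mul_inv]
  ring

theorem kint_log (hl : 0 < ℓ) (f : ℂ → ℝ) (hf : Per ℓ f) (hc : Continuous f) (h0 : ∀ z, 0 ≤ f z) (M m : ℝ)
    (hM : ∀ z, f z ≤ M) (hm : ∫ z in Q ℓ, f z ≤ m) (x : ℂ) (ρ D : ℝ) (hρ : 0 < ρ) (hD : 0 ≤ D) :
    IntegrableOn (fun y => f y * Real.log (1 + D / dl ℓ (x - y))) (Q ℓ) ∧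
      ∫ y in Q ℓ, f y * Real.log (1 + D / dl ℓ (x - y)) ≤ m * Real.log (1 + D / ρ) + π * ρ ^ 2 / 2 * M := by
  obtain ⟨j1, j2⟩ := KInt1Aux.norm_form (fun t => Real.log (ρ / t)) ρ (int_log 0 ρ hρ.le)
  have hD1 : 1 ≤ 1 + D / ρ := by
    have : 0 ≤ D / ρ := by positivity
    linarith
  have hlog : 0 ≤ Real.log (1 + D / ρ) := Real.log_nonneg hD1
  have h1 := KInt1Aux.gen hl f hf hc h0 M m hM hm x ρ (fun t => Real.log (1 + D / t))
    (fun t => Real.log (ρ / t)) (Real.log (1 + D / ρ)) (π * ρ ^ 2 / 2) hlog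
    (Real.measurable_log.comp (measurable_const.add (measurable_const.div measurable_id)))
    (fun t ht => Real.log_nonneg (by
      have : 0 ≤ D / t := div_nonneg hD ht
      linarith))
    (fun t ht => by
      rcases ht.eq_or_lt with h0 | h0
      · rw [← h0]
        simp only [div_zero, add_zero, Real.log_one, Real.log_zero, ite_self]
        exact hlog
      · split_ifs with h
        · rw [← Real.log_mul (by positivity) (by positivity)]
          refine Real.log_le_log (by positivity) ?_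
          have e1 : (1 + D / ρ) * (ρ / t) = (ρ + D) / t := by
            field_simp
          have e2 : 1 + D / t = (t + D) / t := by
            field_simp
          rw [e1, e2]
          exact div_le_div_of_nonneg_right (by linarith) h0.le
        · rw [add_zero]
          refine Real.log_le_log (by positivity) ?_
          have h2 : D / t ≤ D / ρ := div_le_div_of_nonneg_left hD hρ (not_lt.1 h)
          linarith)
    (fun t ht ht2 => by
      rcases ht.eq_or_lt with h0 | h0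
      · rw [← h0]
        simp
      · exact Real.log_nonneg ((one_le_div h0).2 ht2.le))
    j1 j2.le
  refine ⟨h1.1, h1.2.trans (le_of_eq ?_)⟩
  ring

end AO

end
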