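import Pool.Agent.Lib.AO.TTLoc
import Pool.Agent.Lib.AO.GradA2

/-
TTB (library AO, MP_7bfba2_an).
(4.4), bound of the stress tensor.  By gradA_near and Loc.grad_uu, Loc.grad_vv: on ball p δ minus {p}, ‖fderiv uu‖, ‖fderiv vv‖ <= C(1/‖ζ-p‖ + 1/δ).  tt_loc, s = ‖z-p‖:
 first term: ∫_{ball p δ} C(1/‖ζ-p‖ + 1/δ) = C(2πδ + πδ) (int_inv), over δ³: C/δ²;  second: on the annulus ‖fderiv uu‖² <= C/δ², area <= πδ²: C/δ²;
 third: C ∫ (‖ζ-p‖‖z-ζ‖)⁻¹ + (C/δ) ∫_{ball p δ} ‖z-ζ‖⁻¹ <= C √δ/√s + C (conv_bound; int_inv on ball z (2δ)).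
 Total <= C/δ² + C √δ/√s + C <= C/(δ√δ)/√s since √s <= √δ and δ <= 1.
-/

set_option autoImplicit false

open Complex MeasureTheory Set Metric Filter
open scoped Real ContDiff Topology

noncomputable section

namespace AO

namespace TTBAux

theorem vol_ball (p : ℂ) (δ : ℝ) (hδ : 0 ≤ δ) : (volume : Measure ℂ).real (ball p δ) = π * δ ^ 2 := by
  rw [measureReal_def, Complex.volume_ball]
  rw [ENNReal.toReal_mul, ENNReal.toReal_pow, ENNReal.toReal_ofReal hδ]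
  simp [mul_comm]

theorem ae_ne (p : ℂ) (S : Set ℂ) : ∀ᵐ ζ ∂(volume.restrict S), ζ ≠ p := by
  have h : ∀ᵐ ζ : ℂ, ζ ≠ p := by
    rw [ae_iff]
    simp
  exact ae_restrict_of_ae h

/-- the first integral -/
theorem int1 {g : ℂ → ℝ} {p : ℂ} {δ K : ℝ} (hδ : 0 < δ) (hg0 : ∀ ζ, 0 ≤ g ζ)
    (hg : ∀ ζ ∈ ball p δ, ζ ≠ p → g ζ ≤ K * (1 / ‖ζ - p‖ + 1 / δ)) :
    ∫ ζ in ball p δ, g ζ ≤ 3 * π * K * δ := by
  obtain ⟨j1, j2⟩ := int_inv p δ hδ.le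
  have j3 : IntegrableOn (fun _ : ℂ => 1 / δ) (ball p δ) :=
    integrableOn_const measure_ball_lt_top.ne
  have hint : IntegrableOn (fun ζ => K * (‖ζ - p‖⁻¹ + 1 / δ)) (ball p δ) :=
    (j2.add j3).const_mul K
  have h1 : ∫ ζ in ball p δ, g ζ ≤ ∫ ζ in ball p δ, K * (‖ζ - p‖⁻¹ + 1 / δ) := by
    refine integral_mono_of_nonneg (Eventually.of_forall hg0) hint ?_
    filter_upwards [ae_ne p (ball p δ), ae_restrict_mem measurableSet_ball] with ζ h2 h3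
    have := hg ζ h3 h2
    rwa [one_div ‖ζ - p‖] at this
  refine h1.trans (le_of_eq ?_)
  rw [integral_const_mul, integral_add j2 j3, j1, setIntegral_const, vol_ball p δ hδ.le,
    smul_eq_mul]
  field_simp
  ring

/-- the second integral -/
theorem int2 {g : ℂ → ℝ} {p : ℂ} {δ K : ℝ} (hδ : 0 < δ) (hK : 0 ≤ K) (hg0 : ∀ ζ, 0 ≤ g ζ)
    (hg : ∀ ζ ∈ ball p δ, ζ ≠ p → g ζ ≤ K * (1 / ‖ζ - p‖ + 1 / δ)) :
    ∫ ζ in ball p δ \ ball p (3 * δ / 4), g ζ ^ 2 ≤ 9 * π * K ^ 2 := by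
  have hm : MeasurableSet (ball p δ \ ball p (3 * δ / 4)) :=
    measurableSet_ball.diff measurableSet_ball
  have hfin : volume (ball p δ \ ball p (3 * δ / 4)) < ⊤ :=
    (measure_mono sdiff_subset).trans_lt measure_ball_lt_top
  have hint : IntegrableOn (fun _ : ℂ => (3 * K / δ) ^ 2) (ball p δ \ ball p (3 * δ / 4)) :=
    integrableOn_const hfin.ne
  have h1 : ∫ ζ in ball p δ \ ball p (3 * δ / 4), g ζ ^ 2 ≤
      ∫ ζ in ball p δ \ ball p (3 * δ / 4), (3 * K / δ) ^ 2 := by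
    refine integral_mono_of_nonneg (Eventually.of_forall fun ζ => ?_) hint ?_
    · exact sq_nonneg (g ζ)
    filter_upwards [ae_restrict_mem hm] with ζ h3
    have h4 : 3 * δ / 4 ≤ ‖ζ - p‖ := by
      have := h3.2
      rw [mem_ball, dist_eq_norm, not_lt] at this
      exact this
    have h5 : ζ ≠ p := by
      rintro rfl
      rw [sub_self, norm_zero] at h4
      linarith
    have h6 := hg ζ h3.1 h5
    have h7 : 1 / ‖ζ - p‖ ≤ 2 / δ := by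
      rw [div_le_div_iff₀ (by linarith) hδ]
      linarith
    have h8 : g ζ ≤ 3 * K / δ := by
      refine h6.trans ?_
      have h9 : K * (1 / ‖ζ - p‖ + 1 / δ) ≤ K * (2 / δ + 1 / δ) :=
        mul_le_mul_of_nonneg_left (by linarith) hK
      refine h9.trans (le_of_eq ?_)
      field_simp
      ring
    exact pow_le_pow_left₀ (hg0 ζ) h8 2
  refine h1.trans ?_
  rw [setIntegral_const, smul_eq_mul]
  have h2 : (volume : Measure ℂ).real (ball p δ \ ball p (3 * δ / 4)) ≤ π * δ ^ 2 := by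
    rw [← vol_ball p δ hδ.le]
    exact measureReal_mono sdiff_subset measure_ball_lt_top.ne
  refine (mul_le_mul_of_nonneg_right h2 (sq_nonneg _)).trans (le_of_eq ?_)
  field_simp
  ring

/-- the third integral -/
theorem int3 {C : ℝ} (hC : ∀ (p z : ℂ) (δ : ℝ), 0 < δ → z ∈ ball p δ → z ≠ p →
    IntegrableOn (fun ζ => (‖ζ - p‖ * ‖z - ζ‖)⁻¹) (ball p δ) ∧
      ∫ ζ in ball p δ, (‖ζ - p‖ * ‖z - ζ‖)⁻¹ ≤ C * (√δ / √‖z - p‖))
    {g : ℂ → ℝ} {p z : ℂ} {δ K : ℝ} (hδ : 0 < δ) (hK : 0 ≤ K) (hz : z ∈ ball p δ) (hzp : z ≠ p)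
    (hg0 : ∀ ζ, 0 ≤ g ζ)
    (hg : ∀ ζ ∈ ball p δ, ζ ≠ p → g ζ ≤ K * (1 / ‖ζ - p‖ + 1 / δ)) :
    ∫ ζ in ball p δ, g ζ / ‖z - ζ‖ ≤ K * (C * (√δ / √‖z - p‖)) + 4 * π * K := by
  obtain ⟨c1, c2⟩ := hC p z δ hδ hz hzp
  obtain ⟨j1, j2⟩ := int_inv z (2 * δ) (by linarith)
  have hsub : ball p δ ⊆ ball z (2 * δ) := by
    intro ζ hζ
    rw [mem_ball] at hζ hz ⊢
    have h1 := dist_triangle ζ p z
    rw [dist_comm p z] at h1
    linarith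
  have i2 : IntegrableOn (fun ζ => ‖ζ - z‖⁻¹) (ball p δ) := j2.mono_set hsub
  have i3 : ∫ ζ in ball p δ, ‖ζ - z‖⁻¹ ≤ 2 * π * (2 * δ) := by
    rw [← j1]
    exact setIntegral_mono_set j2 (Eventually.of_forall fun y => by
      show (0:ℝ) ≤ _
      positivity) (Eventually.of_forall hsub)
  have hint : IntegrableOn (fun ζ => K * (‖ζ - p‖ * ‖z - ζ‖)⁻¹ + K / δ * ‖ζ - z‖⁻¹)
      (ball p δ) := (c1.const_mul K).add (i2.const_mul (K / δ))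
  have h1 : ∫ ζ in ball p δ, g ζ / ‖z - ζ‖ ≤
      ∫ ζ in ball p δ, (K * (‖ζ - p‖ * ‖z - ζ‖)⁻¹ + K / δ * ‖ζ - z‖⁻¹) := by
    refine integral_mono_of_nonneg (Eventually.of_forall fun ζ => ?_) hint ?_
    · exact div_nonneg (hg0 ζ) (norm_nonneg _)
    filter_upwards [ae_ne p (ball p δ), ae_restrict_mem measurableSet_ball] with ζ h2 h3
    have h4 := hg ζ h3 h2
    have h5 : g ζ / ‖z - ζ‖ ≤ K * (1 / ‖ζ - p‖ + 1 / δ) / ‖z - ζ‖ :=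
      div_le_div_of_nonneg_right h4 (norm_nonneg _)
    refine h5.trans (le_of_eq ?_)
    rw [norm_sub_rev ζ z, mul_inv]
    ring
  refine h1.trans ?_
  rw [integral_add (c1.const_mul K) (i2.const_mul (K / δ)), integral_const_mul,
    integral_const_mul]
  have h2 : K * ∫ ζ in ball p δ, (‖ζ - p‖ * ‖z - ζ‖)⁻¹ ≤ K * (C * (√δ / √‖z - p‖)) :=
    mul_le_mul_of_nonneg_left c2 hK
  have h3 : K / δ * ∫ ζ in ball p δ, ‖ζ - z‖⁻¹ ≤ K / δ * (2 * π * (2 * δ)) :=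
    mul_le_mul_of_nonneg_left i3 (by positivity)
  have h4 : K / δ * (2 * π * (2 * δ)) = 4 * π * K := by
    field_simp
    ring
  rw [h4] at h3
  exact add_le_add h2 h3

/-- the final estimate -/
theorem final {Ct K Cc δ s : ℝ} (hCt : 0 < Ct) (hK : 0 ≤ K) (hCc : 0 < Cc) (hδ : 0 < δ)
    (hδ1 : δ ≤ 1) (hs : 0 < s) (hsδ : s ≤ δ) :
    Ct * (3 * π * K * δ / δ ^ 3 + 9 * π * K ^ 2 / δ ^ 2 +
      (K * (Cc * (√δ / √s)) + 4 * π * K)) ≤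
      (1 + Ct * (7 * π * K + 9 * π * K ^ 2 + K * Cc)) / (δ * √δ) / √s := by
  have hpi := Real.pi_pos
  have a0 : 0 < √δ := Real.sqrt_pos.2 hδ
  have b0 : 0 < √s := Real.sqrt_pos.2 hs
  have hsq : √δ * √δ = δ := Real.mul_self_sqrt hδ.le
  have hab : √s ≤ √δ := Real.sqrt_le_sqrt hsδ
  have w0 : (0 : ℝ) < 1 / (δ * √δ) / √s := by positivity
  -- `1 / δ ^ 2 ≤ W`
  have w1 : 1 / δ ^ 2 ≤ 1 / (δ * √δ) / √s := by
    rw [div_div, div_le_div_iff₀ (by positivity) (by positivity), one_mul, one_mul]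
    calc δ * √δ * √s ≤ δ * √δ * √δ := mul_le_mul_of_nonneg_left hab (by positivity)
      _ = δ ^ 2 := by rw [mul_assoc, hsq]; ring
  have w2 : (1 : ℝ) ≤ 1 / (δ * √δ) / √s := by
    refine le_trans ?_ w1
    rw [le_div_iff₀ (by positivity)]
    nlinarith
  have w3 : √δ / √s ≤ 1 / (δ * √δ) / √s := by
    refine div_le_div_of_nonneg_right ?_ b0.le
    rw [le_div_iff₀ (by positivity)]
    calc √δ * (δ * √δ) = δ * (√δ * √δ) := by ring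
      _ = δ * δ := by rw [hsq]
      _ ≤ 1 := by nlinarith
  have e1 : 3 * π * K * δ / δ ^ 3 = 3 * π * K * (1 / δ ^ 2) := by
    field_simp
  have e2 : 9 * π * K ^ 2 / δ ^ 2 = 9 * π * K ^ 2 * (1 / δ ^ 2) := by
    ring
  have e3 : (1 + Ct * (7 * π * K + 9 * π * K ^ 2 + K * Cc)) / (δ * √δ) / √s =
      (1 + Ct * (7 * π * K + 9 * π * K ^ 2 + K * Cc)) * (1 / (δ * √δ) / √s) := by
    ring
  rw [e1, e2, e3]
  set W := 1 / (δ * √δ) / √s with hW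
  have t1 : 3 * π * K * (1 / δ ^ 2) ≤ 3 * π * K * W := mul_le_mul_of_nonneg_left w1 (by positivity)
  have t2 : 9 * π * K ^ 2 * (1 / δ ^ 2) ≤ 9 * π * K ^ 2 * W :=
    mul_le_mul_of_nonneg_left w1 (by positivity)
  have t3 : K * (Cc * (√δ / √s)) ≤ K * (Cc * W) :=
    mul_le_mul_of_nonneg_left (mul_le_mul_of_nonneg_left w3 hCc.le) hK
  have t4 : 4 * π * K ≤ 4 * π * K * W := le_mul_of_one_le_right (by positivity) w2
  calc Ct * (3 * π * K * (1 / δ ^ 2) + 9 * π * K ^ 2 * (1 / δ ^ 2) +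
      (K * (Cc * (√δ / √s)) + 4 * π * K)) ≤
      Ct * (3 * π * K * W + 9 * π * K ^ 2 * W + (K * (Cc * W) + 4 * π * K * W)) :=
        mul_le_mul_of_nonneg_left (by linarith) hCt.le
    _ = (Ct * (7 * π * K + 9 * π * K ^ 2 + K * Cc)) * W := by ring
    _ ≤ (1 + Ct * (7 * π * K + 9 * π * K ^ 2 + K * Cc)) * W :=
        mul_le_mul_of_nonneg_right (by linarith) w0.le

end TTBAux

theorem tt_bound (M : ℝ) (hM : 1 ≤ M) : ∃ C : ℝ, 1 ≤ C ∧ ∀ (c ℓ : ℝ) (N : ℕ) (A B : ℂ → ℝ) (p : ℂ) (ε δ : ℝ),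
    Loc c ℓ N A B p ε δ → (∀ z ∈ ball p (2 * δ), ff N ℓ A B z ≤ M * f0 ε ‖z - p‖) →
    ∀ z, z ≠ p → ‖z - p‖ ≤ δ / 2 →
      ‖TT (uu N ℓ A B) (vv N ℓ A) z‖ ≤ C / (δ * √δ) / √‖z - p‖ := by
  obtain ⟨Ct, hCt, hct⟩ := tt_loc
  obtain ⟨Cg, hCg, hcg⟩ := gradA_near M hM
  obtain ⟨Cc, hCc, hcc⟩ := conv_bound
  have hpi := Real.pi_pos
  set K : ℝ := Cg + 2 with hK
  have hK0 : 0 ≤ K := by linarith
  refine ⟨1 + Ct * (7 * π * K + 9 * π * K ^ 2 + K * Cc), ?_, ?_⟩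
  · have : 0 ≤ Ct * (7 * π * K + 9 * π * K ^ 2 + K * Cc) := by positivity
    linarith
  intro c ℓ N A B p ε δ h hff z hzp hz
  have hδ := h.dpos
  have hδ1 := h.dle
  have h1δ : 1 ≤ 1 / δ := by
    rw [le_div_iff₀ hδ]
    linarith
  have hA : ∀ ζ ∈ ball p δ, ζ ≠ p → ‖fderiv ℝ A ζ‖ ≤ Cg * (1 / ‖ζ - p‖ + 1 / δ) :=
    hcg c ℓ N A B p ε δ h.sys h.ten h.top.pos hδ hδ1 hff
  have hsub : ball p δ ⊆ ball p (2 * δ) := ball_subset_ball (by linarith)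
  have hu : ∀ ζ ∈ ball p δ, ζ ≠ p →
      ‖fderiv ℝ (uu N ℓ A B) ζ‖ ≤ K * (1 / ‖ζ - p‖ + 1 / δ) := by
    intro ζ hζ hζp
    have h1 := h.grad_uu ζ (hsub hζ)
    have h2 := hA ζ hζ hζp
    have h3 : 0 ≤ 1 / ‖ζ - p‖ := by positivity
    rw [hK]
    nlinarith
  have hv : ∀ ζ ∈ ball p δ, ζ ≠ p →
      ‖fderiv ℝ (vv N ℓ A) ζ‖ ≤ K * (1 / ‖ζ - p‖ + 1 / δ) := by
    intro ζ hζ hζp
    have h1 := h.grad_vv ζ (hsub hζ)
    have h2 := hA ζ hζ hζp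
    have h3 : 0 ≤ 1 / ‖ζ - p‖ := by positivity
    rw [hK]
    nlinarith
  have hs : 0 < ‖z - p‖ := norm_pos_iff.2 (sub_ne_zero.2 hzp)
  have hzb : z ∈ ball p δ := by
    rw [mem_ball, dist_eq_norm]
    linarith
  have b1 := TTBAux.int1 hδ (fun ζ => norm_nonneg (fderiv ℝ (vv N ℓ A) ζ)) hv
  have b2 := TTBAux.int2 hδ hK0 (fun ζ => norm_nonneg (fderiv ℝ (uu N ℓ A B) ζ)) hu
  have b3 := TTBAux.int3 hcc hδ hK0 hzb hzp (fun ζ => norm_nonneg (fderiv ℝ (uu N ℓ A B) ζ)) hu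
  have b4 := hct c ℓ N A B p ε δ h z hz
  refine b4.trans (le_trans ?_ (TTBAux.final hCt hK0 hCc hδ hδ1 hs (by linarith)))
  refine mul_le_mul_of_nonneg_left (add_le_add (add_le_add ?_ ?_) b3) hCt.le
  · exact div_le_div_of_nonneg_right b1 (by positivity)
  · exact div_le_div_of_nonneg_right b2 (by positivity)

end AO

end
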