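import Pool.Agent.Lib.AO.UpB
import Pool.Agent.Lib.AO.TTB
import Pool.Agent.Lib.AO.ProfLoc
import Pool.Agent.Lib.AO.CrudeM
import Pool.Agent.Lib.AO.ProDef

/-
LMain (library AO, MP_7bfba2_an).
(4.5).  M, e1' from up_bound, CT from tt_bound M, C3 from prof_loc.  c4 in (0, 1/4] with C3 CT c4 √c4 <= 1/10; e1 := min(e1', c4, c4²) (c4² ensures √(δε) <= c4 δ: δε <= e1 δ³ <= c4² δ²).
 prof_loc with r = c4 δ (ε <= e1 δ² <= c4 δ, r <= δ/2), K = CT/(δ√δ) >= 1: C3 K r√r = C3 CT c4√c4 <= 1/10, so |ff/f0 - 1| <= C3 CT (s√s)/(δ√δ) <= C3 CT c4 √c4 <= 1/10 for s <= c4 δ.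
 mass: mass_low with r = c4 δ, k = C3 CT/(δ√δ): <= C(ε²/(c4²δ²) + C3 CT (ε√ε)/(δ√δ)) <= C' ε/δ (ε <= δ).  out: up_bound, as √(δε) <= c4 δ.  C0 := max of the constants.
-/

set_option autoImplicit false

open Complex MeasureTheory Set Metric Filter
open scoped Real ContDiff Topology

noncomputable section

namespace AO

namespace LMainAux

theorem sqrt_scale {a b : ℝ} (ha : 0 ≤ a) : (a * b) * √(a * b) = (a * √a) * (b * √b) := by
  rw [Real.sqrt_mul ha]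
  ring

theorem mono_sqrt {s r : ℝ} (hs : 0 ≤ s) (h : s ≤ r) : s * √s ≤ r * √r :=
  mul_le_mul h (Real.sqrt_le_sqrt h) (Real.sqrt_nonneg _) (hs.trans h)

end LMainAux

open LMainAux

theorem local_main : ∃ c4 e1 C0 : ℝ, 0 < c4 ∧ c4 ≤ 1 / 4 ∧ 0 < e1 ∧ e1 ≤ c4 ∧ 1 ≤ C0 ∧
    ∀ (c ℓ : ℝ) (N : ℕ) (A B : ℂ → ℝ) (p : ℂ) (ε δ : ℝ), Loc c ℓ N A B p ε δ → ε ≤ e1 * δ ^ 2 →
    Pro c ℓ N A B p ε δ c4 C0 := by
  obtain ⟨M, e1', hM, he1', he1'', hup⟩ := up_bound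
  obtain ⟨CT, hCT, htt⟩ := tt_bound M hM
  obtain ⟨C3, hC3, hpl⟩ := prof_loc
  obtain ⟨CM, hCM, hml⟩ := mass_low
  set D : ℝ := C3 * CT with hD
  have hD1 : 1 ≤ D := by nlinarith
  have hD0 : 0 < D := by linarith
  set c4 : ℝ := 1 / (10 * D) with hc4
  have hc40 : 0 < c4 := by positivity
  have hc4D : D * c4 = 1 / 10 := by
    rw [hc4]
    field_simp
  have hc4' : c4 ≤ 1 / 10 := by nlinarith
  have hsq : √c4 ≤ 1 := Real.sqrt_le_one.2 (by linarith)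
  have hDc : D * (c4 * √c4) ≤ 1 / 10 := by
    have h1 : c4 * √c4 ≤ c4 * 1 := mul_le_mul_of_nonneg_left hsq hc40.le
    nlinarith
  set e1 : ℝ := min e1' (c4 ^ 2) with he1
  have he10 : 0 < e1 := lt_min he1' (by positivity)
  have he1c : e1 ≤ c4 ^ 2 := min_le_right _ _
  have he1d : e1 ≤ e1' := min_le_left _ _
  have hcc : c4 ^ 2 ≤ c4 := by nlinarith
  have hA0 : 0 ≤ CM * (1 / c4 ^ 2 + D) := by positivity
  refine ⟨c4, e1, M + D + CM * (1 / c4 ^ 2 + D), hc40, by linarith, he10, he1c.trans hcc,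
    by linarith, ?_⟩
  intro c ℓ N A B p ε δ hL hε
  have hδ := hL.dpos
  have hδ1 := hL.dle
  have hε0 := hL.top.pos
  have hδ2 : δ ^ 2 ≤ δ := by nlinarith
  have hδ20 : 0 < δ ^ 2 := by positivity
  have hεc : ε ≤ c4 ^ 2 * δ ^ 2 := hε.trans (mul_le_mul_of_nonneg_right he1c hδ20.le)
  have hεc' : ε ≤ c4 * δ ^ 2 := hεc.trans (mul_le_mul_of_nonneg_right hcc hδ20.le)
  have hεe : ε ≤ e1' * δ ^ 2 := hε.trans (mul_le_mul_of_nonneg_right he1d hδ20.le)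
  obtain ⟨hu1, hu2⟩ := hup c ℓ N A B p ε δ hL hεe
  have ht := htt c ℓ N A B p ε δ hL hu1
  have hsd : 0 < √δ := Real.sqrt_pos.2 hδ
  have hdd : 0 < δ * √δ := by positivity
  have hdd1 : δ * √δ ≤ 1 := by
    have h1 : √δ ≤ 1 := Real.sqrt_le_one.2 hδ1
    nlinarith
  have hr0 : 0 < c4 * δ := by positivity
  have hεr : ε ≤ c4 * δ := hεc'.trans (mul_le_mul_of_nonneg_left hδ2 hc40.le)
  have hr2 : c4 * δ ≤ δ / 2 := by nlinarith
  have hK : 1 ≤ CT / (δ * √δ) := by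
    rw [le_div_iff₀ hdd]
    linarith
  have hKr : C3 * (CT / (δ * √δ)) * ((c4 * δ) * √(c4 * δ)) ≤ 1 / 10 := by
    rw [sqrt_scale hc40.le]
    have h1 : C3 * (CT / (δ * √δ)) * (c4 * √c4 * (δ * √δ)) = D * (c4 * √c4) := by
      rw [hD]
      field_simp
    rw [h1]
    exact hDc
  have hp := hpl c ℓ N A B p ε δ (c4 * δ) (CT / (δ * √δ)) hL hεr hr2 hK
    (fun z hz hz' => ht z hz (hz'.trans hr2)) hKr
  have hprof : ∀ z, ‖z - p‖ ≤ c4 * δ →
      |ff N ℓ A B z / f0 ε ‖z - p‖ - 1| ≤ D / (δ * √δ) * (‖z - p‖ * √‖z - p‖) := by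
    intro z hz
    refine (hp z hz).trans (le_of_eq ?_)
    rw [hD]
    ring
  refine ⟨hL, hεc', ?_, ?_, ?_, ?_⟩
  · intro z hz
    refine (hprof z hz).trans ?_
    have h1 : 0 ≤ (‖z - p‖ * √‖z - p‖) / (δ * √δ) := by positivity
    have h2 : D / (δ * √δ) * (‖z - p‖ * √‖z - p‖) = D * ((‖z - p‖ * √‖z - p‖) / (δ * √δ)) := by
      ring
    rw [h2]
    exact mul_le_mul_of_nonneg_right (by linarith) h1
  · intro z hz
    refine (hp z hz).trans (le_trans ?_ hKr)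
    exact mul_le_mul_of_nonneg_left (mono_sqrt (norm_nonneg _) hz) (by positivity)
  · have h1 := hml c ℓ N A B p ε (c4 * δ) (D / (δ * √δ)) hL.sys hε0 hr0 (by positivity)
      (fun z hz => hprof z (by
        rw [mem_ball, dist_eq_norm] at hz
        exact hz.le))
    refine h1.trans ?_
    have hεδ : ε ≤ δ := hεr.trans (by nlinarith)
    have h2 : ε ^ 2 / (c4 * δ) ^ 2 ≤ 1 / c4 ^ 2 * (ε / δ) := by
      rw [mul_pow, div_mul_div_comm, one_mul, div_le_div_iff₀ (by positivity) (by positivity)]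
      have h3 : ε ^ 2 * (c4 ^ 2 * δ) ≤ ε * (c4 ^ 2 * δ ^ 2) := by
        have h4 : ε * ε ≤ ε * δ := mul_le_mul_of_nonneg_left hεδ hε0.le
        have h5 : 0 ≤ c4 ^ 2 * δ := by positivity
        nlinarith
      exact h3
    have h3 : D / (δ * √δ) * (ε * √ε) ≤ D * (ε / δ) := by
      have h4 : (ε * √ε) / (δ * √δ) ≤ ε / δ := by
        rw [div_le_div_iff₀ hdd hδ]
        have h5 : √ε ≤ √δ := Real.sqrt_le_sqrt hεδ
        have h6 : 0 ≤ ε * δ := by positivity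
        nlinarith
      calc D / (δ * √δ) * (ε * √ε) = D * ((ε * √ε) / (δ * √δ)) := by ring
        _ ≤ D * (ε / δ) := mul_le_mul_of_nonneg_left h4 hD0.le
    have h4 : 0 ≤ ε / δ := by positivity
    calc CM * (ε ^ 2 / (c4 * δ) ^ 2 + D / (δ * √δ) * (ε * √ε)) ≤
        CM * (1 / c4 ^ 2 * (ε / δ) + D * (ε / δ)) :=
          mul_le_mul_of_nonneg_left (add_le_add h2 h3) (by linarith)
      _ = CM * (1 / c4 ^ 2 + D) * (ε / δ) := by ring
      _ ≤ (M + D + CM * (1 / c4 ^ 2 + D)) * (ε / δ) :=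
          mul_le_mul_of_nonneg_right (by linarith) h4
  · intro x hx
    have h1 : √(δ * ε) ≤ c4 * δ := by
      rw [Real.sqrt_le_left hr0.le]
      have h2 : δ * ε ≤ 1 * ε := mul_le_mul_of_nonneg_right hδ1 hε0.le
      nlinarith
    refine (hu2 x (h1.trans hx)).trans ?_
    have hdl : 0 ≤ dl ℓ (x - p) := infDist_nonneg
    refine mul_le_mul_of_nonneg_right ?_ (Real.exp_pos _).le
    refine mul_le_mul_of_nonneg_right ?_ (by linarith)
    refine div_le_div_of_nonneg_right ?_ (by positivity)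
    refine mul_le_mul_of_nonneg_right (by linarith) (by positivity)

end AO

end
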