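import Pool.Agent.Lib.AO.Theta2
import Pool.Agent.Lib.AO.Calc

/-
STUB LogF (library AO, MP_7bfba2_an). Replace the sorries, keep the statements.
Off VL 1, log F z = log ‖Th z‖ - π (im z)² with Th z ≠ 0 (F_zero_iff), log‖Th‖ is harmonic (locally the real part of a holomorphic logarithm; or Mathlib: harmonicity of log‖f‖
in Analysis/Complex/Harmonic), so log F is smooth with Laplacian -2π.
lap_G: G z = -(1/2π) log F(z + VV 1), z + VV 1 in VL 1 iff z in Lat 1.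
lap_Gam: Gam N ℓ z = 2N (log F(z/ℓ) - log F 0): lap = 2N (-2π)/ℓ² = -4π N/ℓ² (lap_scale).
-/

set_option autoImplicit false

open Complex MeasureTheory Set Metric Filter
open scoped Real ContDiff Topology

noncomputable section

namespace AO

namespace LogFAux

open Laplacian

theorem two_le : (2 : WithTop ℕ∞) ≤ ∞ := ENat.LEInfty.out

theorem lap_eq (h : ℂ → ℝ) (z : ℂ) (hh : ContDiffAt ℝ 2 h z) : lap h z = (Δ h) z := by
  rw [InnerProductSpace.laplacian_eq_iteratedFDeriv_complexPlane]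
  have hd : DifferentiableAt ℝ (fderiv ℝ h) z := by
    have : ContDiffAt ℝ 1 (fderiv ℝ h) z := hh.fderiv_right (by norm_num)
    exact this.differentiableAt (by norm_num)
  have key : ∀ e : ℂ, fderiv ℝ (fun w => fderiv ℝ h w e) z e = iteratedFDeriv ℝ 2 h z ![e, e] := by
    intro e
    rw [iteratedFDeriv_two_apply]
    have h1 : fderiv ℝ (fun w => fderiv ℝ h w e) z = (fderiv ℝ (fderiv ℝ h) z).flip e := by
      rw [fderiv_clm_apply hd (differentiableAt_const e)]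
      simp
    rw [h1]
    simp
  unfold lap dx dy
  rw [key 1, key Complex.I]

theorem im_fderiv (w : ℂ) : HasFDerivAt (fun w : ℂ => -π * w.im ^ 2)
    ((-π * (2 * w.im)) • Complex.imCLM) w := by
  have h1 : HasFDerivAt (fun w : ℂ => w.im) Complex.imCLM w := Complex.imCLM.hasFDerivAt
  have h2 := (h1.pow 2).const_mul (-π)
  refine h2.congr_fderiv ?_
  ext <;> simp <;> ring

theorem lap_im (z : ℂ) : lap (fun w : ℂ => -π * w.im ^ 2) z = -(2 * π) := by
  have e1 : dx (fun w : ℂ => -π * w.im ^ 2) = fun _ => 0 := by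
    funext w
    unfold dx
    rw [(im_fderiv w).fderiv]
    simp
  have e2 : dy (fun w : ℂ => -π * w.im ^ 2) = fun w => -(2 * π) * w.im := by
    funext w
    unfold dy
    rw [(im_fderiv w).fderiv]
    simp
    ring
  unfold lap
  rw [e1, e2]
  have h1 : HasFDerivAt (fun w : ℂ => w.im) Complex.imCLM z := Complex.imCLM.hasFDerivAt
  have h2 := h1.const_mul (-(2 * π))
  unfold dx dy
  rw [h2.fderiv]
  simp

theorem Th_ne (z : ℂ) (hz : z ∉ VL 1) : Th z ≠ 0 := by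
  intro h
  have h1 := (F_pos_iff z).2 hz
  unfold F at h1
  rw [h] at h1
  simp at h1

theorem Th_an (z : ℂ) : AnalyticAt ℂ Th z := Th_differentiable.analyticAt z

theorem F_pos_ev (z : ℂ) (hz : z ∉ VL 1) : ∀ᶠ w in 𝓝 z, 0 < F w :=
  F_continuous.continuousAt.eventually (lt_mem_nhds ((F_pos_iff z).2 hz))

theorem logF_ev (z : ℂ) (hz : z ∉ VL 1) :
    (fun w => Real.log (F w)) =ᶠ[𝓝 z] fun w => -π * w.im ^ 2 + Real.log ‖Th w‖ := by
  have h1 : ∀ᶠ w in 𝓝 z, Th w ≠ 0 :=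
    Th_differentiable.continuous.continuousAt.eventually_ne (Th_ne z hz)
  filter_upwards [h1] with w hw
  unfold F
  rw [Real.log_mul (Real.exp_pos _).ne' (norm_ne_zero_iff.2 hw), Real.log_exp]

theorem Th_contDiff : ContDiff ℝ ∞ Th := by
  have h : ContDiff ℂ ∞ Th := Th_differentiable.contDiff
  exact h.restrict_scalars ℝ

theorem contDiffAt_logTh (z : ℂ) (hz : z ∉ VL 1) :
    ContDiffAt ℝ ∞ (fun w => Real.log ‖Th w‖) z := by
  have h1 : ContDiffAt ℝ ∞ (fun w => ‖Th w‖) z :=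
    (Th_contDiff.contDiffAt).norm ℝ (Th_ne z hz)
  exact h1.log (norm_ne_zero_iff.2 (Th_ne z hz))

theorem contDiff_im : ContDiff ℝ ∞ (fun w : ℂ => -π * w.im ^ 2) := by
  have : ContDiff ℝ ∞ (fun w : ℂ => w.im) := Complex.imCLM.contDiff
  exact contDiff_const.mul (this.pow 2)

theorem VV_smul (ℓ : ℝ) (hl : ℓ ≠ 0) : VV ℓ / ℓ = VV 1 := by
  unfold VV
  have : (ℓ : ℂ) ≠ 0 := by exact_mod_cast hl
  push_cast
  field_simp

theorem mem_VL_div (ℓ : ℝ) (hl : ℓ ≠ 0) (z : ℂ) : z / ℓ ∈ VL 1 ↔ z ∈ VL ℓ := by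
  have hc : (ℓ : ℂ) ≠ 0 := by exact_mod_cast hl
  have e : z / ℓ - VV 1 = (z - VV ℓ) / ℓ := by
    rw [← VV_smul ℓ hl]; ring
  show z / ℓ - VV 1 ∈ Lat 1 ↔ z - VV ℓ ∈ Lat ℓ
  rw [e]
  constructor
  · rintro ⟨m, n, h⟩
    refine ⟨m, n, ?_⟩
    rw [div_eq_iff hc] at h
    rw [h]
    push_cast
    ring
  · rintro ⟨m, n, h⟩
    refine ⟨m, n, ?_⟩
    rw [div_eq_iff hc, h]
    push_cast
    ring

theorem mem_VL_add (z : ℂ) : z + VV 1 ∈ VL 1 ↔ z ∈ Lat 1 := by
  show z + VV 1 - VV 1 ∈ Lat 1 ↔ _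
  rw [add_sub_cancel_right]

theorem F_add_one (z : ℂ) : F (z + 1) = F z := by
  have := F_per.1 z
  simpa using this

theorem F_add_I (z : ℂ) : F (z + Complex.I) = F z := by
  have := F_per.2 z
  simpa using this

theorem contDiffAt_sub (ℓ : ℝ) (z : ℂ) (hz : z / ℓ ∉ VL 1) :
    ContDiffAt ℝ ∞ (fun w : ℂ => Real.log (F (w / ℓ)) - Real.log (F 0)) z := by
  apply ContDiffAt.sub _ contDiffAt_const
  have h0 : ContDiffAt ℝ ∞ (fun w => Real.log (F w)) (z / ℓ) :=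
    ((contDiff_im.contDiffAt).add (contDiffAt_logTh _ hz)).congr_of_eventuallyEq (logF_ev _ hz)
  have h1 : ContDiffAt ℝ ∞ (fun w : ℂ => w / ℓ) z := by
    have : (fun w : ℂ => w / ℓ) = fun w : ℂ => w * (ℓ : ℂ)⁻¹ := by
      funext w; rw [div_eq_mul_inv]
    rw [this]
    exact contDiffAt_id.mul contDiffAt_const
  exact h0.comp z h1

theorem Gam_ev (N : ℕ) (ℓ : ℝ) (z : ℂ) (hz : z / ℓ ∉ VL 1) :
    Gam N ℓ =ᶠ[𝓝 z] fun w => (2 * N : ℝ) * (Real.log (F (w / ℓ)) - Real.log (F 0)) := by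
  have hcont : Continuous fun w : ℂ => F (w / ℓ) := by
    have : (fun w : ℂ => w / ℓ) = fun w : ℂ => w * (ℓ : ℂ)⁻¹ := by
      funext w; rw [div_eq_mul_inv]
    exact F_continuous.comp (by rw [this]; fun_prop)
  have h1 : ∀ᶠ w in 𝓝 z, 0 < F (w / ℓ) :=
    hcont.continuousAt.eventually (lt_mem_nhds ((F_pos_iff _).2 hz))
  filter_upwards [h1] with w hw
  unfold Gam
  rw [Real.log_div hw.ne' F_zero_pos.ne']

end LogFAux

open LogFAux

theorem contDiffAt_logF (z : ℂ) (hz : z ∉ VL 1) : ContDiffAt ℝ ∞ (fun w => Real.log (F w)) z :=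
  ((contDiff_im.contDiffAt).add (contDiffAt_logTh z hz)).congr_of_eventuallyEq (logF_ev z hz)

theorem lap_logF (z : ℂ) (hz : z ∉ VL 1) : lap (fun w => Real.log (F w)) z = -(2 * π) := by
  have h2 : ContDiffAt ℝ 2 (fun w => Real.log ‖Th w‖) z :=
    (contDiffAt_logTh z hz).of_le LogFAux.two_le
  have h3 : ContDiffAt ℝ 2 (fun w : ℂ => -π * w.im ^ 2) z :=
    contDiff_im.contDiffAt.of_le LogFAux.two_le
  rw [lap_congr _ _ z (logF_ev z hz), lap_add _ _ z h3 h2, lap_im, LogFAux.lap_eq _ z h2]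
  have h4 := (Th_an z).harmonicAt_log_norm (Th_ne z hz)
  have h5 := h4.2.eq_of_nhds
  rw [h5]
  simp

theorem contDiffAt_G (z : ℂ) (hz : z ∉ Lat 1) : ContDiffAt ℝ ∞ G z := by
  unfold G
  apply contDiffAt_const.mul
  have h1 := contDiffAt_logF (z + VV 1) (fun h => hz ((mem_VL_add z).1 h))
  exact h1.comp z (contDiffAt_id.add contDiffAt_const)

theorem lap_G (z : ℂ) (hz : z ∉ Lat 1) : lap G z = 1 := by
  have hz' : z + VV 1 ∉ VL 1 := fun h => hz ((mem_VL_add z).1 h)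
  have h1 := contDiffAt_logF (z + VV 1) hz'
  have h2 : ContDiffAt ℝ ∞ (fun w => Real.log (F (w + VV 1))) z :=
    h1.comp z (contDiffAt_id.add contDiffAt_const)
  have h3 : ContDiffAt ℝ 2 (fun w => Real.log (F (w + VV 1))) z :=
    h2.of_le LogFAux.two_le
  have e : G = fun w => -(1 / (2 * π)) * (fun w => Real.log (F (w + VV 1))) w := rfl
  rw [e, lap_const_mul _ _ z h3, lap_translate (fun w => Real.log (F w)) (VV 1) z,
    lap_logF _ hz']
  have : (2 * π) ≠ 0 := by positivity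
  field_simp

theorem G_per : Per 1 G := by
  constructor
  · intro z
    unfold G
    rw [show z + ((1 : ℝ) : ℂ) + VV 1 = (z + VV 1) + ((1 : ℝ) : ℂ) by ring, F_per.1]
  · intro z
    unfold G
    rw [show z + ((1 : ℝ) : ℂ) * Complex.I + VV 1 = (z + VV 1) + ((1 : ℝ) : ℂ) * Complex.I by ring,
      F_per.2]

theorem G_neg (z : ℂ) : G (-z) = G z := by
  unfold G
  have h1 : F (-z + VV 1) = F (z + VV 1) := by
    rw [← F_neg, show -(-z + VV 1) = z - VV 1 by ring, ← F_add_one, ← F_add_I]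
    congr 1
    unfold VV
    push_cast
    ring
  rw [h1]

variable {ℓ : ℝ}

theorem contDiffAt_Gam (N : ℕ) (hl : 0 < ℓ) (z : ℂ) (hz : z ∉ VL ℓ) : ContDiffAt ℝ ∞ (Gam N ℓ) z := by
  have hz' : z / ℓ ∉ VL 1 := fun h => hz ((mem_VL_div ℓ hl.ne' z).1 h)
  exact (contDiffAt_const.mul (LogFAux.contDiffAt_sub ℓ z hz')).congr_of_eventuallyEq
    (LogFAux.Gam_ev N ℓ z hz')

theorem lap_Gam (N : ℕ) (hl : 0 < ℓ) (z : ℂ) (hz : z ∉ VL ℓ) : lap (Gam N ℓ) z = -(4 * π * N / ℓ ^ 2) := by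
  have hz' : z / ℓ ∉ VL 1 := fun h => hz ((mem_VL_div ℓ hl.ne' z).1 h)
  have hc : (ℓ : ℂ) ≠ 0 := by exact_mod_cast hl.ne'
  have h1 := LogFAux.contDiffAt_sub ℓ z hz'
  have h2 : ContDiffAt ℝ 2 (fun w : ℂ => Real.log (F (w / ℓ)) - Real.log (F 0)) z :=
    h1.of_le LogFAux.two_le
  rw [lap_congr _ _ z (LogFAux.Gam_ev N ℓ z hz'), lap_const_mul _ _ z h2]
  have e1 : lap (fun w : ℂ => Real.log (F (w / ℓ)) - Real.log (F 0)) z
      = lap (fun w : ℂ => Real.log (F (w / ℓ))) z := by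
    have a1 : dx (fun w : ℂ => Real.log (F (w / ℓ)) - Real.log (F 0))
        = dx (fun w : ℂ => Real.log (F (w / ℓ))) := by
      funext w
      unfold dx
      rw [fderiv_sub_const]
    have a2 : dy (fun w : ℂ => Real.log (F (w / ℓ)) - Real.log (F 0))
        = dy (fun w : ℂ => Real.log (F (w / ℓ))) := by
      funext w
      unfold dy
      rw [fderiv_sub_const]
    unfold lap
    rw [a1, a2]
  have e2 : (fun w : ℂ => Real.log (F (w / ℓ)))
      = fun w : ℂ => (fun w => Real.log (F w)) (((1 / ℓ : ℝ) : ℂ) * w) := by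
    funext w
    have : w / ℓ = ((1 / ℓ : ℝ) : ℂ) * w := by
      push_cast
      field_simp
    rw [this]
  have e3 : ((1 / ℓ : ℝ) : ℂ) * z = z / ℓ := by
    push_cast
    field_simp
  have h3 : ContDiffAt ℝ 2 (fun w => Real.log (F w)) (((1 / ℓ : ℝ) : ℂ) * z) := by
    rw [e3]
    exact (contDiffAt_logF _ hz').of_le LogFAux.two_le
  rw [e1, e2, lap_scale _ _ _ h3, e3, lap_logF _ hz']
  field_simp
  ring

theorem per_Gam (N : ℕ) (hl : 0 < ℓ) : Per ℓ (Gam N ℓ) := by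
  have hc : (ℓ : ℂ) ≠ 0 := by exact_mod_cast hl.ne'
  constructor
  · intro z
    unfold Gam
    rw [show (z + ℓ) / ℓ = z / ℓ + 1 by field_simp, F_add_one]
  · intro z
    unfold Gam
    rw [show (z + ℓ * Complex.I) / ℓ = z / ℓ + Complex.I by field_simp, F_add_I]

theorem Gam_zero (N : ℕ) (ℓ : ℝ) : Gam N ℓ 0 = 0 := by
  unfold Gam
  rw [zero_div, div_self F_zero_pos.ne', Real.log_one, mul_zero]

end AO

end
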