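import Pool.Agent.Lib.AO.SysB2
import Pool.Agent.Lib.AO.CellBall
import Pool.Agent.Lib.AO.Radial
import Pool.Agent.Lib.AO.ProDef

/-
NearL (library AO, MP_7bfba2_an): section 6, lower bound of the interaction.
-/

set_option autoImplicit false

open Complex MeasureTheory Set Metric Filter
open scoped Real ContDiff Topology

noncomputable section

namespace AO

namespace NearLAux

/-- The radial lower bound. -/
def gg (K s2 s : ℝ) : ℝ := if s < s2 then 0 else K / s ^ 2

theorem s_gg {K s2 s : ℝ} (h2 : 0 < s2) : s * gg K s2 s = if s < s2 then 0 else K * s⁻¹ := by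
  unfold gg
  split_ifs with h
  · simp
  · have : 0 < s := lt_of_lt_of_le h2 (not_lt.1 h)
    field_simp

theorem meas_gg (K s2 : ℝ) : Measurable (fun s : ℝ => if s < s2 then (0 : ℝ) else K * s⁻¹) :=
  Measurable.ite measurableSet_Iio measurable_const (measurable_const.mul measurable_inv)

theorem bdd_gg {K s2 : ℝ} (hK : 0 ≤ K) (h2 : 0 < s2) (s : ℝ) : ‖if s < s2 then (0 : ℝ) else K * s⁻¹‖ ≤ K * s2⁻¹ := by
  split_ifs with h
  · rw [norm_zero]
    positivity
  · have hs : s2 ≤ s := not_lt.1 h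
    have : 0 < s := lt_of_lt_of_le h2 hs
    rw [Real.norm_of_nonneg (by positivity)]
    exact mul_le_mul_of_nonneg_left (inv_anti₀ h2 hs) hK

theorem ii_gg {K s2 : ℝ} (hK : 0 ≤ K) (h2 : 0 < s2) (a b : ℝ) :
    IntervalIntegrable (fun s : ℝ => if s < s2 then (0 : ℝ) else K * s⁻¹) volume a b := by
  rw [intervalIntegrable_iff]
  exact Measure.integrableOn_of_bounded (by simp) (meas_gg K s2).aestronglyMeasurable
    (Eventually.of_forall (bdd_gg hK h2))

theorem int_gg {K s2 η : ℝ} (hK : 0 ≤ K) (h2 : 0 < s2) (h3 : s2 ≤ η) :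
    ∫ s in (0 : ℝ)..η, (if s < s2 then (0 : ℝ) else K * s⁻¹) = K * Real.log (η / s2) := by
  rw [← intervalIntegral.integral_add_adjacent_intervals (ii_gg hK h2 0 s2) (ii_gg hK h2 s2 η)]
  have e1 : ∫ s in (0 : ℝ)..s2, (if s < s2 then (0 : ℝ) else K * s⁻¹) = 0 := by
    rw [intervalIntegral.integral_of_le h2.le, integral_Ioc_eq_integral_Ioo]
    rw [setIntegral_congr_fun measurableSet_Ioo (g := fun _ => (0 : ℝ)) (fun s hs => if_pos hs.2)]
    simp
  have e2 : ∫ s in s2..η, (if s < s2 then (0 : ℝ) else K * s⁻¹) = ∫ s in s2..η, K * s⁻¹ := by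
    apply intervalIntegral.integral_congr
    intro s hs
    rw [uIcc_of_le h3] at hs
    exact if_neg (not_lt.2 hs.1)
  rw [e1, e2, intervalIntegral.integral_const_mul, integral_inv_of_pos h2 (h2.trans_le h3), zero_add]

end NearLAux

open NearLAux

theorem near_low (c4 C0 : ℝ) (h4 : 0 < c4) (h4' : c4 ≤ 1 / 4) (h0 : 1 ≤ C0) (c ℓ : ℝ) (N : ℕ) (A B : ℂ → ℝ) (p : ℂ)
    (ε δ : ℝ) (h : Pro c ℓ N A B p ε δ c4 C0) (s2 : ℝ) (h1 : 4 * √c ≤ s2) (h2 : ε ≤ s2) (h3 : s2 ≤ c4 * δ) :
    18 / 5 * π ^ 2 * ε ^ 2 * Real.log (c4 * δ / s2) ≤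
      2 * ∫ z in ball p (c4 * δ), (∫ y in ball p ‖z - p‖, Real.exp (ww c A B y)) * ff N ℓ A B z := by
  have hS := h.loc.sys
  have hc := hS.c0
  have hl := hS.l0
  have hε := h.loc.top.pos
  have h10 := h.loc.ten
  have hδ := h.loc.dpos
  have hδ1 := h.loc.dle
  have hs2 : 0 < s2 := hε.trans_le h2
  have hη : 0 < c4 * δ := by positivity
  have hη1 : c4 * δ ≤ ℓ / 2 := by nlinarith
  set η := c4 * δ with hηd
  have hww : Continuous (ww c A B) := by
    unfold ww
    have := hS.sA.continuous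
    have := hS.sB.continuous
    fun_prop
  have hexp : Continuous (fun y => Real.exp (ww c A B y)) := Real.continuous_exp.comp hww
  have hqq : Continuous (qq c A B) := hS.contDiff_qq.continuous
  have hff : Continuous (ff N ℓ A B) := hS.contDiff_ff.continuous
  have hIon : ∀ (f : ℂ → ℝ), Continuous f → ∀ s, IntegrableOn f (ball p s) := fun f hf s =>
    (hf.continuousOn.integrableOn_compact (isCompact_closedBall p s)).mono_set ball_subset_closedBall
  set W : ℝ → ℝ := fun s => ∫ y in ball p s, Real.exp (ww c A B y) with hW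
  have hWmono : Monotone W := by
    intro s t hst
    apply setIntegral_mono_set (hIon _ hexp t) (Eventually.of_forall fun y => (Real.exp_pos _).le)
    exact (ball_subset_ball hst).eventuallyLE
  have hWnn : ∀ s, 0 ≤ W s := fun s => setIntegral_nonneg measurableSet_ball fun y _ => (Real.exp_pos _).le
  have hWlow : ∀ s, s2 ≤ s → s ≤ ℓ / 2 → π * s ^ 2 / 2 ≤ W s := by
    intro s hs hs'
    have hspos : 0 < s := hs2.trans_le hs
    have e1 : W s = ∫ y in ball p s, (1 - qq c A B y) := by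
      rw [hW]
      refine setIntegral_congr_fun measurableSet_ball fun y _ => ?_
      simp [qq]
    rw [e1, integral_sub (hIon _ continuous_const s) (hIon _ hqq s)]
    have e2 : ∫ _y in ball p s, (1 : ℝ) = π * s ^ 2 := by
      rw [setIntegral_const, smul_eq_mul, mul_one, measureReal_def, Complex.volume_ball,
        ENNReal.toReal_mul, ENNReal.toReal_pow, ENNReal.toReal_ofReal hspos.le]
      simp [mul_comm]
    have e3 : ∫ y in ball p s, qq c A B y ≤ 8 * π * c := by
      rw [← hS.int_qq]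
      exact int_ball_le hl _ hS.per_qq (integrableOn_Q_of_continuous hl _ hqq) hS.qq_nonneg p s hs'
    rw [e2]
    have e4 : 16 * c ≤ s ^ 2 := by
      have h5 : 4 * √c ≤ s := h1.trans hs
      have h6 : (4 * √c) ^ 2 ≤ s ^ 2 := pow_le_pow_left₀ (by positivity) h5 2
      rw [mul_pow, Real.sq_sqrt hc.le] at h6
      linarith
    nlinarith [Real.pi_pos]
  have hffl : ∀ z, s2 ≤ ‖z - p‖ → ‖z - p‖ ≤ η → 9 / 5 * ε ^ 2 / ‖z - p‖ ^ 4 ≤ ff N ℓ A B z := by
    intro z hz1 hz2
    set s := ‖z - p‖ with hs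
    have hspos : 0 < s := hs2.trans_le hz1
    have hf0 : 0 < f0 ε s := by
      unfold f0
      positivity
    have h5 := (abs_le.1 (h.prof10 z hz2)).1
    have h6 : 9 / 10 ≤ ff N ℓ A B z / f0 ε s := by linarith
    rw [le_div_iff₀ hf0] at h6
    refine le_trans ?_ h6
    have h7 : 2 * ε ^ 2 / s ^ 4 ≤ f0 ε s := by
      unfold f0
      rw [div_le_div_iff₀ (by positivity) (by positivity)]
      have h8 : (ε ^ 2 + s ^ 2) ^ 2 ≤ (2 * s ^ 2) ^ 2 := by
        apply pow_le_pow_left₀ (by positivity)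
        have : ε ^ 2 ≤ s ^ 2 := pow_le_pow_left₀ hε.le (h2.trans hz1) 2
        linarith
      have h9 : 0 ≤ ε ^ 2 := sq_nonneg ε
      nlinarith [mul_le_mul_of_nonneg_left h8 h9]
    calc 9 / 5 * ε ^ 2 / s ^ 4 = 9 / 10 * (2 * ε ^ 2 / s ^ 4) := by ring
      _ ≤ 9 / 10 * f0 ε s := by linarith
  set K : ℝ := 9 * π / 10 * ε ^ 2 with hK
  have hK0 : 0 ≤ K := by positivity
  have hgI : IntegrableOn (fun z => gg K s2 ‖z - p‖) (ball p η) := by
    apply integrableOn_ball_radial _ _ _ hη.le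
    have e : (fun s => s * gg K s2 s) = fun s => if s < s2 then 0 else K * s⁻¹ := funext fun s => s_gg hs2
    rw [e]
    exact Measure.integrableOn_of_bounded (by simp) (meas_gg K s2).aestronglyMeasurable
      (Eventually.of_forall (bdd_gg hK0 hs2))
  have hFI : IntegrableOn (fun z => W ‖z - p‖ * ff N ℓ A B z) (ball p η) := by
    have hm : AEStronglyMeasurable (fun z : ℂ => W ‖z - p‖ * ff N ℓ A B z) volume :=
      ((hWmono.measurable.comp (by fun_prop : Measurable fun z : ℂ => ‖z - p‖)).mul hff.measurable).aestronglyMeasurable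
    have hb : ∀ᵐ z ∂(volume.restrict (ball p η)), ‖W ‖z - p‖ * ff N ℓ A B z‖ ≤ W η * (8 / ε ^ 2) := by
      rw [ae_restrict_iff' measurableSet_ball]
      refine Eventually.of_forall fun z hz => ?_
      rw [mem_ball, dist_eq_norm] at hz
      rw [Real.norm_of_nonneg (mul_nonneg (hWnn _) (ff_nonneg _ _ _ _ _))]
      exact mul_le_mul (hWmono hz.le) (h.loc.top.le z) (ff_nonneg _ _ _ _ _) (hWnn _)
    exact Measure.integrableOn_of_bounded (by rw [Complex.volume_ball]; exact ENNReal.mul_ne_top (by simp) (by simp)) hm hb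
  have hle : ∫ z in ball p η, gg K s2 ‖z - p‖ ≤ ∫ z in ball p η, W ‖z - p‖ * ff N ℓ A B z := by
    apply setIntegral_mono_on hgI hFI measurableSet_ball
    intro z hz
    rw [mem_ball, dist_eq_norm] at hz
    unfold gg
    split_ifs with hlt
    · exact mul_nonneg (hWnn _) (ff_nonneg _ _ _ _ _)
    · have h5 : s2 ≤ ‖z - p‖ := not_lt.1 hlt
      have hspos : 0 < ‖z - p‖ := hs2.trans_le h5
      calc K / ‖z - p‖ ^ 2 = (π * ‖z - p‖ ^ 2 / 2) * (9 / 5 * ε ^ 2 / ‖z - p‖ ^ 4) := by
            rw [hK]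
            field_simp
            ring
        _ ≤ W ‖z - p‖ * ff N ℓ A B z := by
            apply mul_le_mul (hWlow _ h5 (hz.le.trans hη1)) (hffl z h5 hz.le) (by positivity) (hWnn _)
  rw [int_ball_radial _ _ _ hη.le] at hle
  have e : (fun s => s * gg K s2 s) = fun s => if s < s2 then 0 else K * s⁻¹ := funext fun s => s_gg hs2
  rw [e, int_gg hK0 hs2 h3] at hle
  have : 18 / 5 * π ^ 2 * ε ^ 2 * Real.log (η / s2) = 2 * (2 * π * (K * Real.log (η / s2))) := by
    rw [hK]
    ring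
  rw [this]
  linarith

end AO

end
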