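import Pool.Agent.Lib.AO.SysB2
import Pool.Agent.Lib.AO.OscA
import Pool.Agent.Lib.AO.GamBd
import Pool.Agent.Lib.AO.Dist
import Pool.Agent.Lib.AO.ProDef

/-
NearLoc (library AO, MP_7bfba2_an).
Section 6, choice of the scale.  p in Q ℓ, ‖p‖ <= ℓ/8, so dl ℓ p = ‖p‖ and p is not in VL ℓ.  top_gam and gam_gauss: c2‖p‖² <= 4 log(1+‖p‖/ε) + C + ‖p‖ <= 5‖p‖ + C + 4 log(1/ε) for ε <= 1
 (log(1+‖p‖/ε) <= log((1+‖p‖)/ε) <= ‖p‖ + log(1/ε)), hence (1+‖p‖)² <= C'(1 + log(1/ε)).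
 With s = ε^(1/4): 1 + log(1/ε) <= 4/s, so s (1+‖p‖)² <= K = 4C'.
 Let Cg be the constant of gam_near, c11 := min(1/4, 1/Cg), δ := c11/(1+‖p‖) <= 1/4.  On ball p (2δ): ‖z‖ <= ‖p‖ + 1/2 <= ℓ/4, so z is not in VL ℓ and ‖fderiv Gam z‖ <= Cg‖z‖ <= Cg (‖p‖+1) <= 1/δ.
 δ² >= c11² s/K, so s^4 <= e1 δ² if s <= e1 c11²/K, and s² <= τ δ² <= τ δ√δ if s <= τ c11²/K.
-/

set_option autoImplicit false

open Complex MeasureTheory Set Metric Filter
open scoped Real ContDiff Topology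

noncomputable section

namespace AO

namespace NearLocAux

theorem log_le (x ε : ℝ) (hx : 0 ≤ x) (he : 0 < ε) (he1 : ε ≤ 1) :
    Real.log (1 + x / ε) ≤ x + Real.log (1 / ε) := by
  have h1 : 1 + x / ε ≤ (1 + x) / ε := by
    rw [add_div]
    have : 1 ≤ 1 / ε := by rwa [le_div_iff₀ he, one_mul]
    linarith
  have h2 : 0 < 1 + x / ε := by positivity
  refine (Real.log_le_log h2 h1).trans ?_
  rw [div_eq_mul_one_div, Real.log_mul (by positivity) (by positivity)]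
  have h3 := Real.log_le_sub_one_of_pos (show 0 < 1 + x by positivity)
  linarith

theorem log_s (s : ℝ) (hs : 0 < s) (_hs1 : s ≤ 1) : 1 + Real.log (1 / s ^ 4) ≤ 4 / s := by
  have h1 : Real.log (1 / s ^ 4) = 4 * Real.log (1 / s) := by
    rw [one_div, one_div, Real.log_inv, Real.log_inv, Real.log_pow]
    push_cast
    ring
  have h2 := Real.log_le_sub_one_of_pos (show 0 < 1 / s by positivity)
  rw [h1]
  have h3 : 4 / s = 4 * (1 / s) := by ring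
  rw [h3]
  linarith

theorem quad (c2 x C L : ℝ) (hc : 0 < c2) (_hx : 0 ≤ x) (hC : 0 ≤ C) (hL : 0 ≤ L)
    (h : c2 * x ^ 2 ≤ 5 * x + C + 4 * L) :
    (1 + x) ^ 2 ≤ (2 + 50 / c2 ^ 2 + 4 * C / c2 + 16 / c2) * (1 + L) := by
  have h1 : x ^ 2 ≤ 25 / c2 ^ 2 + 2 * C / c2 + 8 * L / c2 := by
    have h2 : 25 / c2 ^ 2 + 2 * C / c2 + 8 * L / c2 = (25 + 2 * C * c2 + 8 * L * c2) / c2 ^ 2 := by
      field_simp
    rw [h2, le_div_iff₀ (by positivity)]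
    nlinarith [sq_nonneg (c2 * x - 5), mul_le_mul_of_nonneg_left h hc.le]
  have h3 : (1 + x) ^ 2 ≤ 2 + 2 * x ^ 2 := by nlinarith [sq_nonneg (x - 1)]
  have a1 : 0 ≤ 50 / c2 ^ 2 := by positivity
  have a2 : 0 ≤ 4 * C / c2 := by positivity
  have a3 : 0 ≤ 16 / c2 := by positivity
  have e : 8 * L / c2 = (16 / c2) * L / 2 := by ring
  have e2 : 25 / c2 ^ 2 = (50 / c2 ^ 2) / 2 := by ring
  have e3 : 2 * C / c2 = (4 * C / c2) / 2 := by ring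
  rw [e, e2, e3] at h1
  nlinarith [mul_nonneg a1 hL, mul_nonneg a2 hL, mul_nonneg a3 hL]

end NearLocAux

open NearLocAux

theorem near_loc (e1 τ : ℝ) (he : 0 < e1) (ht : 0 < τ) : ∃ c11 κ : ℝ, 0 < c11 ∧ c11 ≤ 1 / 4 ∧ 0 < κ ∧ κ ≤ 1 ∧
    ∀ (c ℓ : ℝ) (N : ℕ) (A B : ℂ → ℝ) (p : ℂ) (ε : ℝ), Sys c ℓ N A B → Top ℓ N A B p ε → 10 ≤ ℓ →
    (∀ z, ‖fderiv ℝ B z‖ ≤ 1) → ‖p‖ ≤ ℓ / 8 → ε ≤ κ →
    Loc c ℓ N A B p ε (c11 / (1 + ‖p‖)) ∧ ε ≤ e1 * (c11 / (1 + ‖p‖)) ^ 2 ∧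
      √ε / (c11 / (1 + ‖p‖) * √(c11 / (1 + ‖p‖))) ≤ τ := by
  obtain ⟨c2, hc2, hG⟩ := gam_gauss
  obtain ⟨Cg, hCg, hN⟩ := gam_near
  obtain ⟨C, hC, hT⟩ := top_gam
  set K : ℝ := 4 * (2 + 50 / c2 ^ 2 + 4 * C / c2 + 16 / c2) with hK
  have hC0 : 0 < C := by linarith
  have hKpos : 0 < K := by positivity
  set c11 : ℝ := min (1 / 4) (1 / Cg) with hc11
  have c11pos : 0 < c11 := by positivity
  have c11le : c11 ≤ 1 / 4 := min_le_left _ _
  have c11g : Cg * c11 ≤ 1 := by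
    have : c11 ≤ 1 / Cg := min_le_right _ _
    rw [le_div_iff₀ hCg] at this
    linarith
  set s0 : ℝ := min 1 (min (e1 * c11 ^ 2 / K) (τ * c11 ^ 2 / K)) with hs0
  have s0pos : 0 < s0 := by positivity
  have s01 : s0 ≤ 1 := min_le_left _ _
  have s0e : s0 ≤ e1 * c11 ^ 2 / K := (min_le_right _ _).trans (min_le_left _ _)
  have s0t : s0 ≤ τ * c11 ^ 2 / K := (min_le_right _ _).trans (min_le_right _ _)
  refine ⟨c11, s0 ^ 4, c11pos, c11le, by positivity, pow_le_one₀ s0pos.le s01, ?_⟩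
  intro c ℓ N A B p ε hS hTop hl hB hp hε
  have hεpos := hTop.pos
  have hl0 : 0 < ℓ := by linarith
  set s : ℝ := √(√ε) with hs
  have hspos : 0 < s := by positivity
  have hs2 : s ^ 2 = √ε := Real.sq_sqrt (Real.sqrt_nonneg _)
  have hs4 : s ^ 4 = ε := by
    have : s ^ 4 = (s ^ 2) ^ 2 := by ring
    rw [this, hs2, Real.sq_sqrt hεpos.le]
  have hss0 : s ≤ s0 := by
    refine le_of_pow_le_pow_left₀ (n := 4) (by norm_num) s0pos.le ?_
    rw [hs4]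
    exact hε
  have hs1 : s ≤ 1 := hss0.trans s01
  have hε1 : ε ≤ 1 := by
    rw [← hs4]
    exact pow_le_one₀ hspos.le hs1
  have hx0 : 0 ≤ ‖p‖ := norm_nonneg p
  obtain ⟨hpV, -, -⟩ := hN c ℓ N p hS.c0 hS.c1 hl hS.area (by linarith)
  have h1 := hG c ℓ N p hS.c0 hS.c1 hl hS.area hpV
  rw [dl_eq_norm' hl0 p (by linarith)] at h1
  have h2 := hT c ℓ N A B p ε hS hTop hB
  have h3 := log_le ‖p‖ ε hx0 hεpos hε1
  have hL : 0 ≤ Real.log (1 / ε) := by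
    apply Real.log_nonneg
    rwa [le_div_iff₀ hεpos, one_mul]
  have h4 := quad c2 ‖p‖ C (Real.log (1 / ε)) hc2 hx0 hC0.le hL (by linarith)
  have h5 := log_s s hspos hs1
  rw [hs4] at h5
  have h6 : s * (1 + ‖p‖) ^ 2 ≤ K := by
    have h7 : (1 + ‖p‖) ^ 2 ≤ (2 + 50 / c2 ^ 2 + 4 * C / c2 + 16 / c2) * (4 / s) :=
      h4.trans (mul_le_mul_of_nonneg_left h5 (by positivity))
    have h8 := mul_le_mul_of_nonneg_left h7 hspos.le
    have h9 : s * ((2 + 50 / c2 ^ 2 + 4 * C / c2 + 16 / c2) * (4 / s)) = K := by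
      rw [hK]
      field_simp
    linarith
  have hx1 : 0 < 1 + ‖p‖ := by positivity
  set δ : ℝ := c11 / (1 + ‖p‖) with hδ
  have hδpos : 0 < δ := by positivity
  have hδx : δ * (1 + ‖p‖) = c11 := by
    rw [hδ]
    field_simp
  have hδc : δ ≤ c11 := by
    rw [hδ, div_le_iff₀ hx1]
    nlinarith
  have hδ4 : δ ≤ 1 / 4 := hδc.trans c11le
  have hδ2 : c11 ^ 2 * s ≤ δ ^ 2 * K := by
    have : c11 ^ 2 * s = δ ^ 2 * (s * (1 + ‖p‖) ^ 2) := by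
      rw [← hδx]
      ring
    rw [this]
    exact mul_le_mul_of_nonneg_left h6 (by positivity)
  have hball : ∀ z ∈ ball p (2 * δ), ‖z‖ ≤ ‖p‖ + 1 / 2 := by
    intro z hz
    rw [mem_ball_iff_norm] at hz
    have := norm_le_norm_add_norm_sub' z p
    linarith
  have hδs : δ ^ 2 ≤ δ * √δ := by
    have h7 : δ ≤ √δ := by
      apply Real.le_sqrt_of_sq_le
      nlinarith
    nlinarith
  rw [le_div_iff₀ hKpos] at s0e s0t
  refine ⟨⟨hS, hTop, hl, hB, hδpos, by linarith, ?_, ?_⟩, ?_, ?_⟩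
  · intro z hz
    exact (hN c ℓ N z hS.c0 hS.c1 hl hS.area (by linarith [hball z hz])).1
  · intro z hz
    have h7 := (hN c ℓ N z hS.c0 hS.c1 hl hS.area (by linarith [hball z hz])).2.1
    refine h7.trans ?_
    rw [le_div_iff₀ hδpos]
    have h8 : Cg * ‖z‖ * δ ≤ Cg * (1 + ‖p‖) * δ := by
      refine mul_le_mul_of_nonneg_right (mul_le_mul_of_nonneg_left ?_ hCg.le) hδpos.le
      linarith [hball z hz]
    have h9 : Cg * (1 + ‖p‖) * δ = Cg * c11 := by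
      rw [← hδx]
      ring
    linarith
  · have h7 : s * K ≤ e1 * c11 ^ 2 := (mul_le_mul_of_nonneg_right hss0 hKpos.le).trans s0e
    have h8 : s ^ 2 * K ≤ e1 * (δ ^ 2 * K) := by
      calc s ^ 2 * K = s * (s * K) := by ring
        _ ≤ s * (e1 * c11 ^ 2) := mul_le_mul_of_nonneg_left h7 hspos.le
        _ = e1 * (c11 ^ 2 * s) := by ring
        _ ≤ e1 * (δ ^ 2 * K) := mul_le_mul_of_nonneg_left hδ2 he.le
    have h9 : s ^ 2 ≤ e1 * δ ^ 2 := by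
      refine le_of_mul_le_mul_right ?_ hKpos
      linarith
    rw [← hs4]
    have h10 : s ^ 4 ≤ s ^ 2 := pow_le_pow_of_le_one hspos.le hs1 (by norm_num)
    linarith
  · have h7 : s * K ≤ τ * c11 ^ 2 := (mul_le_mul_of_nonneg_right hss0 hKpos.le).trans s0t
    have h8 : s ^ 2 * K ≤ τ * (δ ^ 2 * K) := by
      calc s ^ 2 * K = s * (s * K) := by ring
        _ ≤ s * (τ * c11 ^ 2) := mul_le_mul_of_nonneg_left h7 hspos.le
        _ = τ * (c11 ^ 2 * s) := by ring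
        _ ≤ τ * (δ ^ 2 * K) := mul_le_mul_of_nonneg_left hδ2 ht.le
    have h9 : s ^ 2 ≤ τ * δ ^ 2 := by
      refine le_of_mul_le_mul_right ?_ hKpos
      linarith
    rw [div_le_iff₀ (by positivity), ← hs2]
    have h10 : τ * δ ^ 2 ≤ τ * (δ * √δ) := mul_le_mul_of_nonneg_left hδs ht.le
    linarith

end AO

end
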