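import Pool.Agent.Lib.AO.SysB2
import Pool.Agent.Lib.AO.CellBall
import Pool.Agent.Lib.AO.GamBd
import Pool.Agent.Lib.AO.ProDef

/-
NearM (library AO, MP_7bfba2_an): section 6, mass outside.
-/

set_option autoImplicit false

open Complex MeasureTheory Set Metric Filter
open scoped Real ContDiff Topology

noncomputable section

namespace AO

namespace NearMAux

/-- Elementary bound: `(2 + t) exp (2 t - c2 t²) ≤ C exp (-(c2/2) t²)`. -/
theorem real_bound {c2 : ℝ} (h2 : 0 < c2) : ∃ C : ℝ, 0 < C ∧ ∀ t : ℝ, 0 ≤ t →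
    (2 + t) * Real.exp (t - c2 * t ^ 2) ≤ C * Real.exp (-(c2 / 2) * t ^ 2) := by
  refine ⟨2 * Real.exp (2 / c2), by positivity, fun t ht => ?_⟩
  have h3 : 2 + t ≤ 2 * Real.exp t := by
    have := Real.add_one_le_exp t
    linarith
  have h4 : (2 + t) * Real.exp (t - c2 * t ^ 2) ≤ 2 * Real.exp t * Real.exp (t - c2 * t ^ 2) :=
    mul_le_mul_of_nonneg_right h3 (Real.exp_pos _).le
  refine h4.trans ?_
  rw [mul_assoc, ← Real.exp_add, mul_assoc, ← Real.exp_add]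
  apply mul_le_mul_of_nonneg_left _ (by norm_num)
  apply Real.exp_le_exp.2
  have h5 : 0 ≤ (c2 / 2) * (t - 2 / c2) ^ 2 := by positivity
  have h6 : (c2 / 2) * (t - 2 / c2) ^ 2 = c2 / 2 * t ^ 2 - 2 * t + 2 / c2 := by
    field_simp
    ring
  linarith

end NearMAux

open NearMAux

theorem near_mass (c4 C0 δ0 : ℝ) (h4 : 0 < c4) (h4' : c4 ≤ 1 / 4) (h0 : 1 ≤ C0) (hd : 0 < δ0) : ∃ C : ℝ, 1 ≤ C ∧
    ∀ (c ℓ : ℝ) (N : ℕ) (A B : ℂ → ℝ) (p : ℂ) (ε δ : ℝ), Pro c ℓ N A B p ε δ c4 C0 → ‖p‖ ≤ 1 → δ0 ≤ δ →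
    8 * π - ∫ z in ball p (c4 * δ), ff N ℓ A B z ≤ C * ε ^ 2 := by
  obtain ⟨c2, hc2, hg⟩ := gam_gauss
  obtain ⟨C1, hC1, hn⟩ := gam_near
  obtain ⟨C2, hC2, hb⟩ := real_bound hc2
  set I : ℝ := ∫ z : ℂ, Real.exp (-(c2 / 2) * ‖z‖ ^ 2) with hI
  have hint : Integrable (fun z : ℂ => Real.exp (-(c2 / 2) * ‖z‖ ^ 2)) := by
    have := GaussianFourier.integrable_cexp_neg_mul_sq_norm_add (V := ℂ) (b := ((c2 / 2 : ℝ) : ℂ)) (by rw [Complex.ofReal_re]; positivity) 0 0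
    refine this.norm.congr (Filter.Eventually.of_forall fun z => ?_)
    simp only [Complex.norm_exp, zero_mul, add_zero]
    congr 1
    have : (-((c2 / 2 : ℝ) : ℂ) * (‖z‖ : ℂ) ^ 2) = ((-(c2 / 2) * ‖z‖ ^ 2 : ℝ) : ℂ) := by push_cast; ring
    rw [this, Complex.ofReal_re]
  have hI0 : 0 ≤ I := integral_nonneg fun z => (Real.exp_pos _).le
  set K : ℝ := C0 / (c4 * δ0) ^ 4 * Real.exp (1 + C1) * C2 with hK
  have hK0 : 0 ≤ K := by
    rw [hK]
    positivity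
  refine ⟨1 + K * I, by nlinarith [mul_nonneg hK0 hI0], ?_⟩
  intro c ℓ N A B p ε δ h hp hδ0
  have hS := h.loc.sys
  have hl := hS.l0
  have hε := h.loc.top.pos
  have h10 := h.loc.ten
  have hδ := h.loc.dpos
  have hδ1 := h.loc.dle
  have hη : 0 < c4 * δ := by positivity
  have hη1 : c4 * δ ≤ ℓ / 2 := by nlinarith
  have hff : Continuous (ff N ℓ A B) := hS.contDiff_ff.continuous
  have hiQ := integrableOn_Q_of_continuous hl _ hff
  have hsplit := int_Q_split hl _ hS.per_ff hiQ p (c4 * δ) hη1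
  rw [hS.int_ff] at hsplit
  have hptw : ∀ z, z ∈ Q ℓ → c4 * δ ≤ dl ℓ (z - p) → ff N ℓ A B z ≤ K * ε ^ 2 * Real.exp (-(c2 / 2) * ‖z‖ ^ 2) := by
    intro x hx hx2
    by_cases hv : x ∈ VL ℓ
    · rw [hS.ff_eq_zero x hv]
      positivity
    have hout := h.out x hx2
    set D := dl ℓ (x - p) with hD
    have hD0 : 0 < D := hη.trans_le hx2
    have hDle : D ≤ ‖x‖ + 1 := by
      have := dl_le_norm (ℓ := ℓ) (x - p)
      have h5 := norm_sub_le x p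
      linarith
    have hGx : Gam N ℓ x ≤ -c2 * ‖x‖ ^ 2 := by
      have := hg c ℓ N x hS.c0 hS.c1 h10 hS.area hv
      rwa [dl_eq_of_mem hl x hx] at this
    have hGp : -C1 ≤ Gam N ℓ p := by
      have := (hn c ℓ N p hS.c0 hS.c1 h10 hS.area (by linarith)).2.2
      have h5 : ‖p‖ ^ 2 ≤ 1 := by nlinarith [norm_nonneg p]
      nlinarith
    have e1 : C0 * ε ^ 2 / D ^ 4 ≤ C0 * ε ^ 2 / (c4 * δ0) ^ 4 := by
      apply div_le_div_of_nonneg_left (by positivity) (by positivity)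
      apply pow_le_pow_left₀ (by positivity)
      exact (mul_le_mul_of_nonneg_left hδ0 h4.le).trans hx2
    have e2 : 1 + D ≤ 2 + ‖x‖ := by linarith
    have e3 : Real.exp (Gam N ℓ x - Gam N ℓ p + D) ≤ Real.exp (1 + C1) * Real.exp (‖x‖ - c2 * ‖x‖ ^ 2) := by
      rw [← Real.exp_add]
      apply Real.exp_le_exp.2
      linarith
    calc ff N ℓ A B x ≤ C0 * ε ^ 2 / D ^ 4 * (1 + D) * Real.exp (Gam N ℓ x - Gam N ℓ p + D) := hout
      _ ≤ C0 * ε ^ 2 / (c4 * δ0) ^ 4 * (2 + ‖x‖) * (Real.exp (1 + C1) * Real.exp (‖x‖ - c2 * ‖x‖ ^ 2)) := by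
          apply mul_le_mul (mul_le_mul e1 e2 (by positivity) (by positivity)) e3 (Real.exp_pos _).le (by positivity)
      _ = C0 * ε ^ 2 / (c4 * δ0) ^ 4 * Real.exp (1 + C1) * ((2 + ‖x‖) * Real.exp (‖x‖ - c2 * ‖x‖ ^ 2)) := by ring
      _ ≤ C0 * ε ^ 2 / (c4 * δ0) ^ 4 * Real.exp (1 + C1) * (C2 * Real.exp (-(c2 / 2) * ‖x‖ ^ 2)) := by
          apply mul_le_mul_of_nonneg_left (hb _ (norm_nonneg _)) (by positivity)
      _ = K * ε ^ 2 * Real.exp (-(c2 / 2) * ‖x‖ ^ 2) := by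
          rw [hK]
          ring
  have hmeas : MeasurableSet {z ∈ Q ℓ | c4 * δ ≤ dl ℓ (z - p)} :=
    measurableSet_Q.inter (CellBallAux.closed_ge p (c4 * δ)).measurableSet
  have h5 : ∫ z in {z ∈ Q ℓ | c4 * δ ≤ dl ℓ (z - p)}, ff N ℓ A B z ≤ K * ε ^ 2 * I := by
    calc ∫ z in {z ∈ Q ℓ | c4 * δ ≤ dl ℓ (z - p)}, ff N ℓ A B z
        ≤ ∫ z in {z ∈ Q ℓ | c4 * δ ≤ dl ℓ (z - p)}, K * ε ^ 2 * Real.exp (-(c2 / 2) * ‖z‖ ^ 2) := by
          apply setIntegral_mono_on (hiQ.mono_set fun z hz => hz.1) (hint.const_mul _).integrableOn hmeas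
          intro z hz
          exact hptw z hz.1 hz.2
      _ ≤ ∫ z, K * ε ^ 2 * Real.exp (-(c2 / 2) * ‖z‖ ^ 2) := by
          apply setIntegral_le_integral (hint.const_mul _)
          exact Eventually.of_forall fun z => by positivity
      _ = K * ε ^ 2 * I := by rw [integral_const_mul]
  nlinarith [sq_nonneg ε]

end AO

end
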