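import Pool.Agent.Lib.AO.Force
import Pool.Agent.Lib.AO.GradB
import Pool.Agent.Lib.AO.GamBd
import Pool.Agent.Lib.AO.ProDef

/-
Module NearP (library AO, MP_7bfba2_an).
Section 6, position of the maximum.  fderiv uu p = 0 (top_grad), uu = Gam + A - B: fderiv Gam p p = -fderiv A p p + fderiv B p p.  gam_conc: for ‖p‖ <= c5 ℓ, fderiv Gam p p <= -c2 ‖p‖².
 So c2 ‖p‖² <= (‖fderiv A p‖ + ‖fderiv B p‖) ‖p‖, i.e. c2‖p‖ <= Cf (√ε/(δ√δ) + 1/ℓ²) + CB √c (force, gradB_small) <= c2 if τ <= c2/(4Cf), 1/ℓ0² <= c2/(4 Cf), CB √c0 <= c2/4.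
-/

set_option autoImplicit false

open Complex MeasureTheory Set Metric Filter
open scoped Real ContDiff Topology

noncomputable section

namespace AO

theorem near_p (c4 C0 : ℝ) (h4 : 0 < c4) (h4' : c4 ≤ 1 / 4) (h0 : 1 ≤ C0) : ∃ c5 τ c0 ℓ0 : ℝ, 0 < c5 ∧ c5 ≤ 1 / 8 ∧
    0 < τ ∧ 0 < c0 ∧ 10 ≤ ℓ0 ∧ ∀ (c ℓ : ℝ) (N : ℕ) (A B : ℂ → ℝ) (p : ℂ) (ε δ : ℝ), Pro c ℓ N A B p ε δ c4 C0 →
    c ≤ c0 → ℓ0 ≤ ℓ → ‖p‖ ≤ c5 * ℓ → √ε / (δ * √δ) ≤ τ → ‖p‖ ≤ 1 := by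
  obtain ⟨Cf, hCf, hforce⟩ := force c4 C0 h4 h4' h0
  obtain ⟨CB, hCB, hgB⟩ := gradB_small
  obtain ⟨c5, c2, hc5, hc5', hc2, hconc⟩ := gam_conc
  have hCf0 : 0 < Cf := by linarith
  have hCB0 : 0 < CB := by linarith
  refine ⟨c5, c2 / (4 * Cf), (c2 / (4 * CB)) ^ 2, max 10 (4 * Cf / c2), hc5, hc5', by positivity,
    by positivity, le_max_left _ _, ?_⟩
  intro c ℓ N A B p ε δ h hc hl hp hτ
  have hs := h.loc.sys
  have hten := h.loc.ten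
  have hl0 : 0 < ℓ := by linarith
  have hl2 : 4 * Cf / c2 ≤ ℓ := (le_max_right _ _).trans hl
  have hpoff : p ∉ VL ℓ := hs.top_off p ε h.loc.top
  -- the derivative of `uu` at `p`
  have hu := hs.top_grad p ε h.loc.top
  have hdG : HasFDerivAt (Gam N ℓ) (fderiv ℝ (Gam N ℓ) p) p :=
    ((contDiffAt_Gam N hl0 p hpoff).differentiableAt (by simp)).hasFDerivAt
  have hdA : HasFDerivAt A (fderiv ℝ A p) p :=
    ((hs.sA.contDiffAt (x := p)).differentiableAt (by simp)).hasFDerivAt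
  have hdB : HasFDerivAt B (fderiv ℝ B p) p :=
    ((hs.sB.contDiffAt (x := p)).differentiableAt (by simp)).hasFDerivAt
  have hdu : HasFDerivAt (uu N ℓ A B) (fderiv ℝ (Gam N ℓ) p + fderiv ℝ A p - fderiv ℝ B p) p :=
    (hdG.add hdA).sub hdB
  have h1 : fderiv ℝ (Gam N ℓ) p + fderiv ℝ A p - fderiv ℝ B p = 0 := by
    rw [← hdu.fderiv]
    exact hu
  have h2 : fderiv ℝ (Gam N ℓ) p p + fderiv ℝ A p p - fderiv ℝ B p p = 0 := by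
    have := congrArg (fun L : ℂ →L[ℝ] ℝ => L p) h1
    simpa using this
  have h3 := hconc c ℓ N p hs.c0 hs.c1 hten hs.area hp
  have hA := hforce c ℓ N A B p ε δ h
  have hB := hgB c ℓ N A B hs p
  have hA' := (abs_le.1 ((Real.norm_eq_abs _).symm.le.trans ((fderiv ℝ A p).le_opNorm p))).2
  have hB' := (abs_le.1 ((Real.norm_eq_abs _).symm.le.trans ((fderiv ℝ B p).le_opNorm p))).1
  by_contra hcon
  push Not at hcon
  have hp0 : 0 < ‖p‖ := by linarith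
  -- bounds
  have e1 : Cf * (√ε / (δ * √δ)) ≤ c2 / 4 := by
    calc Cf * (√ε / (δ * √δ)) ≤ Cf * (c2 / (4 * Cf)) := mul_le_mul_of_nonneg_left hτ hCf0.le
      _ = c2 / 4 := by field_simp
  have e2 : Cf * (1 / ℓ ^ 2) ≤ c2 / 4 := by
    have h5 : 4 * Cf / c2 ≤ ℓ ^ 2 := by nlinarith
    rw [div_le_iff₀ hc2] at h5
    rw [mul_one_div, div_le_div_iff₀ (by positivity) (by norm_num)]
    linarith
  have e3 : CB * √c ≤ c2 / 4 := by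
    have h6 : √c ≤ c2 / (4 * CB) := by
      rw [Real.sqrt_le_left (by positivity)]
      exact hc
    calc CB * √c ≤ CB * (c2 / (4 * CB)) := mul_le_mul_of_nonneg_left h6 hCB0.le
      _ = c2 / 4 := by field_simp
  have e4 : c2 * ‖p‖ ^ 2 ≤ (‖fderiv ℝ A p‖ + ‖fderiv ℝ B p‖) * ‖p‖ := by
    nlinarith
  have e5 : c2 * ‖p‖ ≤ ‖fderiv ℝ A p‖ + ‖fderiv ℝ B p‖ := by
    have h7 : (c2 * ‖p‖) * ‖p‖ ≤ (‖fderiv ℝ A p‖ + ‖fderiv ℝ B p‖) * ‖p‖ := by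
      calc (c2 * ‖p‖) * ‖p‖ = c2 * ‖p‖ ^ 2 := by ring
        _ ≤ _ := e4
    exact le_of_mul_le_mul_right h7 hp0
  have e6 : ‖fderiv ℝ A p‖ ≤ c2 / 4 + c2 / 4 := by
    refine hA.trans ?_
    rw [mul_add]
    exact add_le_add e1 e2
  have e7 : c2 < c2 * ‖p‖ := by nlinarith
  linarith

end AO

end
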