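import Pool.Agent.Lib.AO.LMain
import Pool.Agent.Lib.AO.NearLoc
import Pool.Agent.Lib.AO.NearP
import Pool.Agent.Lib.AO.NearM
import Pool.Agent.Lib.AO.NearL
import Pool.Agent.Lib.AO.RadId
import Pool.Agent.Lib.AO.GradB
import Pool.Agent.Lib.AO.CrudeM

/-
NearE (library AO, MP_7bfba2_an).
Section 6, conclusion.  (c4, e1, C0) := local_main; (c5, τ, c0', ℓ0') := near_p; (c11, κ1) := near_loc e1 τ; δ0 := c11/2; C6 := near_mass; CR := radial_id; CB := gradB_small.  c6 := c5.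
 Lc := (8π C6 + CR/δ0² + 1)/((18/5)π²), κ := min(κ1, c4 δ0 e^(-Lc)), c0 := min(c0', 1/CB², (c4 δ0 e^(-Lc)/4)²), ℓ0 := ℓ0'.
 Suppose ε <= κ.  ‖fderiv B‖ <= CB √c <= 1.  near_loc: Loc at δ = c11/(1+‖p‖), so Pro; near_p: ‖p‖ <= 1, so δ >= δ0.  s2 := max(4√c, ε) <= c4 δ0 e^(-Lc) <= c4 δ.
 m := ∫_{ball p (c4 δ)} ff in [0, 8π] (mass_nonneg): m(8π - m) <= 8π C6 ε²; radial_id and near_low: m(8π-m) >= (18/5)π² ε² log(c4 δ/s2) - CR ε²/δ² >= ε² ((18/5)π² Lc - CR/δ0²) > 8π C6 ε².  Contradiction.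
-/

set_option autoImplicit false

open Complex MeasureTheory Set Metric Filter
open scoped Real ContDiff Topology

noncomputable section

namespace AO

theorem near_case : ∃ c6 κ c0 ℓ0 : ℝ, 0 < c6 ∧ c6 ≤ 1 / 8 ∧ 0 < κ ∧ 0 < c0 ∧ 10 ≤ ℓ0 ∧
    ∀ (c ℓ : ℝ) (N : ℕ) (A B : ℂ → ℝ) (p : ℂ) (ε : ℝ), Sys c ℓ N A B → Top ℓ N A B p ε → c ≤ c0 → ℓ0 ≤ ℓ →
    ‖p‖ ≤ c6 * ℓ → κ < ε := by
  obtain ⟨c4, e1, C0, h4, h4', he1, he1c, hC0, hL⟩ := local_main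
  obtain ⟨c5, τ, c0', ℓ0', h5, h5', ht, hc0', hl0', hP⟩ := near_p c4 C0 h4 h4' hC0
  obtain ⟨c11, κ1, h11, h11', hk1, hk1', hLoc⟩ := near_loc e1 τ he1 ht
  have hd0 : 0 < c11 / 2 := by positivity
  obtain ⟨C6, hC6, hM⟩ := near_mass c4 C0 (c11 / 2) h4 h4' hC0 hd0
  obtain ⟨CR, hCR, hR⟩ := radial_id c4 C0 h4 h4' hC0
  obtain ⟨CB, hCB, hB⟩ := gradB_small
  have hπ : 0 < π := Real.pi_pos
  set δ0 : ℝ := c11 / 2 with hδ0
  set Lc : ℝ := (8 * π * C6 + CR / δ0 ^ 2 + 1) / (18 / 5 * π ^ 2) with hLc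
  have hLc0 : 0 < Lc := by positivity
  set t : ℝ := c4 * δ0 * Real.exp (-Lc) with htt
  have ht0 : 0 < t := by positivity
  have hCB0 : 0 < CB := by linarith
  refine ⟨c5, min κ1 t, min c0' (min (1 / CB ^ 2) ((t / 4) ^ 2)), ℓ0', h5, h5', lt_min hk1 ht0,
    lt_min hc0' (lt_min (by positivity) (by positivity)), hl0', ?_⟩
  intro c ℓ N A B p ε hS hT hc hl hp
  by_contra hcon
  have hε : ε ≤ min κ1 t := not_lt.1 hcon
  have hε1 : ε ≤ κ1 := hε.trans (min_le_left _ _)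
  have hεt : ε ≤ t := hε.trans (min_le_right _ _)
  have hcc0 : c ≤ c0' := hc.trans (min_le_left _ _)
  have hcB : c ≤ 1 / CB ^ 2 := hc.trans ((min_le_right _ _).trans (min_le_left _ _))
  have hct : c ≤ (t / 4) ^ 2 := hc.trans ((min_le_right _ _).trans (min_le_right _ _))
  have hl10 : 10 ≤ ℓ := hl0'.trans hl
  have hε0 : 0 < ε := hT.pos
  have hB1 : ∀ z, ‖fderiv ℝ B z‖ ≤ 1 := by
    intro z
    refine (hB c ℓ N A B hS z).trans ?_
    have h1 : √c ≤ 1 / CB := by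
      rw [Real.sqrt_le_left (by positivity)]
      calc c ≤ 1 / CB ^ 2 := hcB
        _ = (1 / CB) ^ 2 := by ring
    calc CB * √c ≤ CB * (1 / CB) := mul_le_mul_of_nonneg_left h1 hCB0.le
      _ = 1 := by field_simp
  have hpl : ‖p‖ ≤ ℓ / 8 := by
    refine hp.trans ?_
    nlinarith
  obtain ⟨hlo, heδ, hτδ⟩ := hLoc c ℓ N A B p ε hS hT hl10 hB1 hpl hε1
  have hPro : Pro c ℓ N A B p ε (c11 / (1 + ‖p‖)) c4 C0 := hL c ℓ N A B p ε _ hlo heδ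
  have hp1 : ‖p‖ ≤ 1 := hP c ℓ N A B p ε _ hPro hcc0 hl hp hτδ
  have hδ : δ0 ≤ c11 / (1 + ‖p‖) := by
    rw [hδ0]
    exact div_le_div_of_nonneg_left h11.le (by positivity) (by linarith)
  have hM1 := hM c ℓ N A B p ε _ hPro hp1 hδ
  have hR1 := hR c ℓ N A B p ε _ hPro
  have hd1 : c11 / (1 + ‖p‖) ≤ 1 := hlo.dle
  have hdp : 0 < c11 / (1 + ‖p‖) := hlo.dpos
  set δ : ℝ := c11 / (1 + ‖p‖) with hδd
  have hs0 : 0 < max (4 * √c) ε := lt_max_of_lt_right hε0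
  have hst : max (4 * √c) ε ≤ t := by
    refine max_le ?_ hεt
    have h1 : √c ≤ t / 4 := by
      rw [Real.sqrt_le_left (by positivity)]
      exact hct
    linarith
  have htd : t ≤ c4 * δ0 := by
    rw [htt]
    have h1 : Real.exp (-Lc) ≤ 1 := by
      rw [Real.exp_le_one_iff]
      linarith
    have h2 : 0 < c4 * δ0 := by positivity
    nlinarith
  have hdd : c4 * δ0 ≤ c4 * δ := mul_le_mul_of_nonneg_left hδ h4.le
  have hN := near_low c4 C0 h4 h4' hC0 c ℓ N A B p ε δ hPro (max (4 * √c) ε) (le_max_left _ _)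
    (le_max_right _ _) ((hst.trans htd).trans hdd)
  have hm8 := mass_nonneg c ℓ N A B p (c4 * δ) hS (by nlinarith)
  have hm0 : 0 ≤ ∫ z in ball p (c4 * δ), ff N ℓ A B z :=
    setIntegral_nonneg measurableSet_ball fun z _ => ff_nonneg N ℓ A B z
  set m : ℝ := ∫ z in ball p (c4 * δ), ff N ℓ A B z with hm
  set J : ℝ := ∫ z in ball p (c4 * δ), (∫ y in ball p ‖z - p‖, Real.exp (ww c A B y)) * ff N ℓ A B z with hJ
  have hlog : Lc ≤ Real.log (c4 * δ / max (4 * √c) ε) := by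
    rw [Real.le_log_iff_exp_le (by positivity), le_div_iff₀ hs0]
    calc Real.exp Lc * max (4 * √c) ε ≤ Real.exp Lc * t := mul_le_mul_of_nonneg_left hst (Real.exp_pos _).le
      _ = c4 * δ0 * (Real.exp Lc * Real.exp (-Lc)) := by rw [htt]; ring
      _ = c4 * δ0 := by rw [← Real.exp_add]; simp
      _ ≤ c4 * δ := hdd
  have hε2 : 0 < ε ^ 2 := by positivity
  have k1 : 18 / 5 * π ^ 2 * ε ^ 2 * Lc ≤ 2 * J :=
    (mul_le_mul_of_nonneg_left hlog (by positivity)).trans hN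
  have k2 : CR * (ε ^ 2 / δ ^ 2) ≤ CR * (ε ^ 2 / δ0 ^ 2) := by
    refine mul_le_mul_of_nonneg_left ?_ (by linarith)
    exact div_le_div_of_nonneg_left hε2.le (by positivity) (pow_le_pow_left₀ hd0.le hδ 2)
  have k3 := (abs_le.1 hR1).1
  have k4 : m * (8 * π - m) ≤ 8 * π * (C6 * ε ^ 2) :=
    mul_le_mul hm8 hM1 (by linarith) (by positivity)
  have k5 : 18 / 5 * π ^ 2 * ε ^ 2 * Lc = ε ^ 2 * (8 * π * C6 + CR / δ0 ^ 2 + 1) := by
    rw [hLc]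
    field_simp
  have k6 : CR * (ε ^ 2 / δ0 ^ 2) = ε ^ 2 * (CR / δ0 ^ 2) := by ring
  nlinarith

end AO

end
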