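import Pool.Agent.Lib.AO.NearE
import Pool.Agent.Lib.AO.FarE
import Pool.Agent.Lib.AO.DifE

/-
STUB NoSys (library AO, MP_7bfba2_an). Replace the sorries, keep the statements.
Section 9.
-/

set_option autoImplicit false

open Complex MeasureTheory Set Metric Filter
open scoped Real ContDiff Topology

noncomputable section

namespace AO

theorem no_sys : ∃ c0 : ℝ, 0 < c0 ∧ ∀ c, 0 < c → c ≤ c0 → ∃ ℓ0 : ℝ, 10 ≤ ℓ0 ∧
    ∀ (ℓ : ℝ) (N : ℕ) (A B : ℂ → ℝ), ℓ0 ≤ ℓ → ¬ Sys c ℓ N A B := by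
  obtain ⟨c6, κ, ca, ℓa, hc6, hc6', hκ, hca, hℓa, hnear⟩ := near_case
  obtain ⟨cb', ℓb, hcb, hℓb, hdif⟩ := diffuse_case κ hκ
  obtain ⟨cf, hcf, hfar⟩ := far_case c6 hc6
  refine ⟨min ca (min cb' cf), lt_min hca (lt_min hcb hcf), fun c hc hcle => ?_⟩
  have h1 : c ≤ ca := hcle.trans (min_le_left _ _)
  have h2 : c ≤ cb' := hcle.trans ((min_le_right _ _).trans (min_le_left _ _))
  have h3 : c ≤ cf := hcle.trans ((min_le_right _ _).trans (min_le_right _ _))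
  obtain ⟨ℓf, hℓf, hfar'⟩ := hfar c hc h3
  refine ⟨max ℓa (max ℓb ℓf), hℓa.trans (le_max_left _ _), fun ℓ N A B hℓ hS => ?_⟩
  have g1 : ℓa ≤ ℓ := (le_max_left _ _).trans hℓ
  have g2 : ℓb ≤ ℓ := ((le_max_left _ _).trans (le_max_right _ _)).trans hℓ
  have g3 : ℓf ≤ ℓ := ((le_max_right _ _).trans (le_max_right _ _)).trans hℓ
  obtain ⟨p, ε, hT⟩ := hS.exists_top
  have k1 := hdif c ℓ N A B p ε hS hT h2 g2
  have k2 := hfar' ℓ N A B p ε hS hT g3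
  have k3 := hnear c ℓ N A B p ε hS hT h1 g1 k2.le
  exact lt_irrefl _ (k1.trans k3)

end AO

end
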