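import Pool.Agent.Lib.AO.OscA
import Pool.Agent.Lib.AO.CellBall
import Pool.Agent.Lib.AO.Radial

/-
STUB OuterA (library AO, MP_7bfba2_an). Replace the sorries, keep the statements.
(4.3), potential.  D := ‖x - p‖ = dl ℓ (x - p) >= s1.  By rep_value' A x - A p = ∫_Q (Gl(x-y) - Gl(p-y)) ff(y) dy.  I = {y in Q : dl(y - p) < s1/2}, O = the rest; m1 := 8π - ∫_{ball p (s1/2)} ff = ∫_O ff in [0,1] (int_Q_split, int_ff).
 y in I: dl(x-y) >= D - dl(p-y) >= D/2, so (kernel_diff, first form) the kernel is <= (1/2π) log(2 dl(p-y)/D) + C <= (1/2π)[log(2ε/D) + log⁺(dl(p-y)/ε)] + C.  Integrate: mass 8π - m1, and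
  ∫_I log⁺(dl(y-p)/ε) ff <= 2 ∫_{ball p (s1/2)} f0 log⁺(‖y-p‖/ε) <= C (int_ball_eq, int_f0_log).  Result <= (1/2π)(8π - m1) log(2ε/D) + C = 4 log(ε/D) + (m1/2π) log(D/(2ε)) + C.
 y in O (kernel_diff, second form): log(1 + D/dl(x-y)) <= log(1 + D/ε) + log⁺(ε/dl(x-y)); ∫_Q ff log⁺(ε/dl(x-y)) <= (8/ε²)(π ε²/2) = 4π
  (translate: ∫_Q over y of log⁺(ε/dl(x-y)) = ∫_Q log⁺(ε/‖y‖) <= ∫_{ball 0 ε} log(ε/‖y‖), int_Q_sub, int_log, dl_eq_of_mem).  Result <= (m1/2π) log(1 + D/ε) + C.
 Sum: 4 log(ε/D) + (m1/π) log(1 + D/ε) + C, and log(1 + D/ε) <= log(1+D) + log(1/ε) (ε <= 1), m1 <= 1, m1 log(1/ε) <= 1.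
-/

set_option autoImplicit false

open Complex MeasureTheory Set Metric Filter
open scoped Real ContDiff Topology

noncomputable section

namespace AO


namespace OuterAAux

theorem lat_countable (ℓ : ℝ) : (Lat ℓ).Countable := by
  have h : Lat ℓ = Set.range (fun q : ℤ × ℤ => (ℓ : ℂ) * (q.1 + q.2 * Complex.I)) := by
    ext z
    constructor
    · rintro ⟨m, n, h⟩
      exact ⟨(m, n), h.symm⟩
    · rintro ⟨⟨m, n⟩, h⟩
      exact ⟨m, n, h.symm⟩
  rw [h]
  exact Set.countable_range _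

theorem ae_sub (ℓ : ℝ) (x : ℂ) : ∀ᵐ y : ℂ, x - y ∉ Lat ℓ := by
  have h : ((fun z : ℂ => x - z) '' Lat ℓ).Countable := (lat_countable ℓ).image _
  filter_upwards [h.ae_notMem volume] with y hy hmem
  exact hy ⟨x - y, hmem, by simp⟩

/-- positive part of the logarithm -/
def lp (t : ℝ) : ℝ := max 0 (Real.log t)

theorem lp_nonneg (t : ℝ) : 0 ≤ lp t := le_max_left _ _

theorem lp_le {t : ℝ} (ht : 0 ≤ t) : lp t ≤ t := by
  unfold lp
  refine max_le ht ?_
  rcases eq_or_lt_of_le ht with h | h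
  · rw [← h, Real.log_zero]
  · have := Real.log_le_sub_one_of_pos h
    linarith

theorem log_le_lp (t : ℝ) : Real.log t ≤ lp t := le_max_right _ _

theorem measurable_lp : Measurable lp := measurable_const.max Real.measurable_log

theorem log_in {a b D ε : ℝ} (ha : 0 < a) (hD : 0 < D) (hε : 0 < ε) (hb : D / 2 ≤ b) :
    Real.log (a / b) ≤ Real.log (2 * ε / D) + lp (a / ε) := by
  have hb0 : 0 < b := lt_of_lt_of_le (by positivity) hb
  have h1 : a / b ≤ (2 * ε / D) * (a / ε) := by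
    have h2 : (2 * ε / D) * (a / ε) = a / (D / 2) := by
      field_simp
    rw [h2]
    exact div_le_div_of_nonneg_left ha.le (by positivity) hb
  calc Real.log (a / b) ≤ Real.log ((2 * ε / D) * (a / ε)) :=
        Real.log_le_log (div_pos ha hb0) h1
    _ = Real.log (2 * ε / D) + Real.log (a / ε) :=
        Real.log_mul (by positivity) (by positivity)
    _ ≤ _ := by linarith [log_le_lp (a / ε)]

theorem log_out {d D ε : ℝ} (hd : 0 < d) (hD : 0 < D) (hε : 0 < ε) :
    Real.log (1 + D / d) ≤ Real.log (1 + D / ε) + Real.log (1 + ε / d) := by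
  rw [← Real.log_mul (by positivity) (by positivity)]
  refine Real.log_le_log (by positivity) ?_
  have h1 : (1 + D / ε) * (1 + ε / d) = 1 + D / d + (D / ε + ε / d) := by
    field_simp
    ring
  rw [h1]
  have : 0 ≤ D / ε + ε / d := by positivity
  linarith

end OuterAAux

open OuterAAux in
theorem outer_A : ∃ C : ℝ, 1 ≤ C ∧ ∀ (c ℓ : ℝ) (N : ℕ) (A B : ℂ → ℝ) (p : ℂ) (ε s1 : ℝ), Sys c ℓ N A B →
    Top ℓ N A B p ε → 10 ≤ ℓ → ε ≤ s1 → s1 ≤ 1 →
    (∀ z, ‖z - p‖ ≤ s1 → ff N ℓ A B z ≤ 2 * f0 ε ‖z - p‖) →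
    8 * π - ∫ z in ball p (s1 / 2), ff N ℓ A B z ≤ 1 →
    (8 * π - ∫ z in ball p (s1 / 2), ff N ℓ A B z) * Real.log (1 / ε) ≤ 1 →
    ∀ x, ‖x - p‖ = dl ℓ (x - p) → s1 ≤ ‖x - p‖ →
      A x - A p ≤ 4 * Real.log (ε / ‖x - p‖) + Real.log (1 + ‖x - p‖) + C := by
  obtain ⟨C1, hC1, hk⟩ := kernel_diff
  obtain ⟨C2, hC2, hl2⟩ := int_f0_log
  refine ⟨10 + C2 + 8 * π * C1, ?_, ?_⟩
  · have : 0 ≤ 8 * π * C1 := by positivity
    linarith
  intro c ℓ N A B p ε s1 hS hT hℓ hε1 hs1 hff hm hml x hx hxs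
  have hl0 : 0 < ℓ := hS.l0
  have hε : 0 < ε := hT.pos
  set f : ℂ → ℝ := ff N ℓ A B with hf
  set D : ℝ := ‖x - p‖ with hD
  have hs0 : 0 < s1 := lt_of_lt_of_le hε hε1
  have hD0 : 0 < D := lt_of_lt_of_le hs0 hxs
  have hfc : Continuous f := hS.contDiff_ff.continuous
  have hfp : Per ℓ f := hS.per_ff
  have hf0 : ∀ z, 0 ≤ f z := ff_nonneg N ℓ A B
  have hfM : ∀ z, f z ≤ 8 / ε ^ 2 := hT.le
  have hint : ∫ z in Q ℓ, f z = 8 * π := hS.int_ff
  have hrl : s1 / 2 ≤ ℓ / 2 := by linarith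
  have hpi := Real.pi_pos
  -- measurable sets
  have hdm : Measurable (fun y : ℂ => dl ℓ (y - p)) :=
    (continuous_dl.comp (continuous_id.sub continuous_const)).measurable
  set I : Set ℂ := {y | dl ℓ (y - p) < s1 / 2} with hI
  have hIm : MeasurableSet I := measurableSet_lt hdm measurable_const
  have hQm : MeasurableSet (Q ℓ) := measurableSet_Q
  have hQI : {z | z ∈ Q ℓ ∧ dl ℓ (z - p) < s1 / 2} = Q ℓ ∩ I := rfl
  have hQO : {z | z ∈ Q ℓ ∧ s1 / 2 ≤ dl ℓ (z - p)} = Q ℓ \ I := by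
    ext z
    constructor
    · rintro ⟨h1, h2⟩
      exact ⟨h1, not_lt.2 h2⟩
    · rintro ⟨h1, h2⟩
      exact ⟨h1, not_lt.1 h2⟩
  -- the masses
  have hfi : IntegrableOn f (Q ℓ) := integrableOn_Q_of_continuous hl0 f hfc
  set m1 : ℝ := 8 * π - ∫ z in ball p (s1 / 2), f z with hm1
  have hmI : ∫ z in Q ℓ ∩ I, f z = 8 * π - m1 := by
    have h1 := int_ball_eq hl0 f hfp p (s1 / 2) hrl
    rw [hQI] at h1
    rw [← h1, hm1]
    ring
  have hmO : ∫ z in Q ℓ \ I, f z = m1 := by
    have h1 := int_Q_split hl0 f hfp hfi p (s1 / 2) hrl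
    rw [hQO, hint] at h1
    rw [hm1]
    linarith
  have hm0 : 0 ≤ m1 := by
    rw [← hmO]
    exact integral_nonneg hf0
  -- the log integral on the ball
  set g : ℂ → ℝ := fun y => f y * lp (dl ℓ (y - p) / ε) with hg
  have hgm : Measurable g := hfc.measurable.mul (measurable_lp.comp (hdm.div_const ε))
  have hgp : Per ℓ g := by
    constructor
    · intro z
      show f (z + ℓ) * lp (dl ℓ (z + ℓ - p) / ε) = f z * lp (dl ℓ (z - p) / ε)
      rw [hfp.1 z, show z + (ℓ : ℂ) - p = (z - p) + ℓ by ring, (per_dl (ℓ := ℓ)).1 (z - p)]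
    · intro z
      show f (z + ℓ * Complex.I) * lp (dl ℓ (z + ℓ * Complex.I - p) / ε) =
        f z * lp (dl ℓ (z - p) / ε)
      rw [hfp.2 z, show z + (ℓ : ℂ) * Complex.I - p = (z - p) + ℓ * Complex.I by ring,
        (per_dl (ℓ := ℓ)).2 (z - p)]
  have hgb : ∀ y, ‖g y‖ ≤ (3 * ℓ / 4 / ε) * f y := by
    intro y
    have h1 : 0 ≤ lp (dl ℓ (y - p) / ε) := lp_nonneg _
    have h2 : lp (dl ℓ (y - p) / ε) ≤ 3 * ℓ / 4 / ε := by
      refine (lp_le (div_nonneg (dl_nonneg _) hε.le)).trans ?_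
      exact div_le_div_of_nonneg_right (dl_le hl0 _) hε.le
    rw [Real.norm_eq_abs, abs_of_nonneg (mul_nonneg (hf0 y) h1), mul_comm (3 * ℓ / 4 / ε)]
    exact mul_le_mul_of_nonneg_left h2 (hf0 y)
  have hgi : IntegrableOn g (Q ℓ) := by
    refine Integrable.mono' (hfi.const_mul (3 * ℓ / 4 / ε)) hgm.aestronglyMeasurable ?_
    exact Filter.Eventually.of_forall hgb
  have hgI : ∫ z in Q ℓ ∩ I, g z ≤ 2 * C2 := by
    have h1 := int_ball_eq hl0 g hgp p (s1 / 2) hrl
    rw [hQI] at h1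
    rw [← h1]
    have h2 : ∫ z in ball p (s1 / 2), g z ≤
        ∫ z in ball p (s1 / 2), 2 * (f0 ε ‖z - p‖ * max 0 (Real.log (‖z - p‖ / ε))) := by
      refine setIntegral_mono_on ?_ ?_ measurableSet_ball ?_
      · refine Measure.integrableOn_of_bounded (M := 3 * ℓ / 4 / ε * (8 / ε ^ 2))
          measure_ball_lt_top.ne hgm.aestronglyMeasurable ?_
        refine Filter.Eventually.of_forall (fun y => (hgb y).trans ?_)
        exact mul_le_mul_of_nonneg_left (hfM y) (by positivity)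
      · have hm2 : Measurable (fun z : ℂ =>
            2 * (f0 ε ‖z - p‖ * max 0 (Real.log (‖z - p‖ / ε)))) := by
          have e1 : Measurable (fun z : ℂ => ‖z - p‖) :=
            (continuous_norm.comp (continuous_id.sub continuous_const)).measurable
          have e2 : Measurable (fun z : ℂ => lp (‖z - p‖ / ε)) :=
            measurable_lp.comp (e1.div_const ε)
          have e3 : Measurable (fun z : ℂ => f0 ε ‖z - p‖) :=
            (f0_continuous ε hε).measurable.comp e1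
          exact (e3.mul e2).const_mul 2
        refine Measure.integrableOn_of_bounded
          (M := 2 * (32 * ε ^ 2 / ε ^ 4 * (s1 / 2 / ε)))
          measure_ball_lt_top.ne hm2.aestronglyMeasurable ?_
        rw [ae_restrict_iff' measurableSet_ball]
        refine Filter.Eventually.of_forall (fun y hy => ?_)
        have hy1 : ‖y - p‖ < s1 / 2 := by rwa [mem_ball, dist_eq_norm] at hy
        have h3 : 0 ≤ lp (‖y - p‖ / ε) := lp_nonneg _
        have h4 : lp (‖y - p‖ / ε) ≤ s1 / 2 / ε := by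
          refine (lp_le (by positivity)).trans ?_
          exact div_le_div_of_nonneg_right hy1.le hε.le
        have h5 : 0 ≤ f0 ε ‖y - p‖ := f0_nonneg ε _
        have h6 : f0 ε ‖y - p‖ ≤ 32 * ε ^ 2 / ε ^ 4 := by
          refine (f0_le ε _ hε (norm_nonneg _)).trans ?_
          refine div_le_div_of_nonneg_left (by positivity) (by positivity) ?_
          exact pow_le_pow_left₀ hε.le (by linarith [norm_nonneg (y - p)]) 4
        show ‖2 * (f0 ε ‖y - p‖ * lp (‖y - p‖ / ε))‖ ≤ _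
        rw [Real.norm_eq_abs, abs_of_nonneg (by positivity)]
        have h7 : f0 ε ‖y - p‖ * lp (‖y - p‖ / ε) ≤ 32 * ε ^ 2 / ε ^ 4 * (s1 / 2 / ε) :=
          mul_le_mul h6 h4 h3 (h5.trans h6)
        linarith
      · intro y hy
        have hy1 : ‖y - p‖ < s1 / 2 := by rwa [mem_ball, dist_eq_norm] at hy
        have h3 : dl ℓ (y - p) = ‖y - p‖ := dl_eq_norm' hl0 _ (hy1.le.trans hrl)
        show f y * lp (dl ℓ (y - p) / ε) ≤ 2 * (f0 ε ‖y - p‖ * lp (‖y - p‖ / ε))
        rw [h3]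
        have h4 := hff y (by linarith)
        have h5 : 0 ≤ lp (‖y - p‖ / ε) := lp_nonneg _
        calc f y * lp (‖y - p‖ / ε) ≤ (2 * f0 ε ‖y - p‖) * lp (‖y - p‖ / ε) :=
              mul_le_mul_of_nonneg_right h4 h5
          _ = _ := by ring
    refine h2.trans ?_
    rw [integral_const_mul]
    exact mul_le_mul_of_nonneg_left (hl2 ε (s1 / 2) p hε (by positivity)) (by norm_num)
  -- the log integral around `x`
  obtain ⟨hLi, hLb⟩ := kint_log hl0 f hfp hfc hf0 (8 / ε ^ 2) (8 * π) hfM hint.le x ε ε hε hε.le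
  have hLb' : ∫ y in Q ℓ, f y * Real.log (1 + ε / dl ℓ (x - y)) ≤ 12 * π := by
    refine hLb.trans ?_
    rw [div_self hε.ne']
    have h1 : Real.log (1 + 1) ≤ 1 := by
      have := Real.log_le_sub_one_of_pos (by norm_num : (0 : ℝ) < 1 + 1)
      linarith
    have h2 : π * ε ^ 2 / 2 * (8 / ε ^ 2) = 4 * π := by
      field_simp
      ring
    rw [h2]
    have h3 : 8 * π * Real.log (1 + 1) ≤ 8 * π * 1 :=
      mul_le_mul_of_nonneg_left h1 (by positivity)
    linarith
  have hL0 : ∀ y, 0 ≤ f y * Real.log (1 + ε / dl ℓ (x - y)) := by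
    intro y
    refine mul_nonneg (hf0 y) (Real.log_nonneg ?_)
    have : 0 ≤ ε / dl ℓ (x - y) := div_nonneg hε.le (dl_nonneg _)
    linarith
  have hLO : ∫ y in Q ℓ \ I, f y * Real.log (1 + ε / dl ℓ (x - y)) ≤ 12 * π := by
    refine (setIntegral_mono_set hLi ?_ ?_).trans hLb'
    · exact Filter.Eventually.of_forall hL0
    · exact (sdiff_subset).eventuallyLE
  -- the representation
  have hrep : A x - A p = ∫ y in Q ℓ, (Gl ℓ (x - y) - Gl ℓ (p - y)) * f y :=
    rep_value' hl0 A hS.sA hS.pA (8 * π / ℓ ^ 2) f hS.eA x p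
  have hKi : IntegrableOn (fun y => (Gl ℓ (x - y) - Gl ℓ (p - y)) * f y) (Q ℓ) := by
    have h1 := (integrableOn_G hl0 x f hfc hfp).sub (integrableOn_G hl0 p f hfc hfp)
    refine h1.congr (Filter.Eventually.of_forall (fun y => ?_))
    show Gl ℓ (x - y) * f y - Gl ℓ (p - y) * f y = _
    ring
  rw [hrep, ← integral_inter_add_sdiff hIm hKi]
  set a : ℝ := Real.log (2 * ε / D) with ha
  set b : ℝ := Real.log (1 + D / ε) with hb
  have haeX := ae_sub ℓ x
  have haeP := ae_sub ℓ p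
  have hin : ∫ y in Q ℓ ∩ I, (Gl ℓ (x - y) - Gl ℓ (p - y)) * f y ≤
      (1 / (2 * π) * a + C1) * (8 * π - m1) + 1 / (2 * π) * (2 * C2) := by
    have h1 : ∫ y in Q ℓ ∩ I, (Gl ℓ (x - y) - Gl ℓ (p - y)) * f y ≤
        ∫ y in Q ℓ ∩ I, ((1 / (2 * π) * a + C1) * f y + 1 / (2 * π) * g y) := by
      refine setIntegral_mono_on_ae (hKi.mono_set inter_subset_left) ?_ (hQm.inter hIm) ?_
      · exact ((hfi.mono_set inter_subset_left).const_mul _).add
          ((hgi.mono_set inter_subset_left).const_mul _)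
      · filter_upwards [haeX, haeP] with y hyx hyp hy
        have hyI : dl ℓ (y - p) < s1 / 2 := hy.2
        have h2 := (hk ℓ x p y hl0 hyx hyp).1
        have h3 : dl ℓ (p - y) = dl ℓ (y - p) := by
          rw [← dl_neg (y - p), neg_sub]
        have h4 : 0 < dl ℓ (p - y) := (dl_pos_iff hl0 _).2 hyp
        have h5 : D / 2 ≤ dl ℓ (x - y) := by
          have h6 := dl_add_le (ℓ := ℓ) (x - y) (y - p)
          rw [sub_add_sub_cancel, ← hx] at h6
          linarith
        have h7 := log_in h4 hD0 hε h5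
        rw [h3] at h7
        rw [h3] at h2
        have h8 : Gl ℓ (x - y) - Gl ℓ (p - y) ≤
            1 / (2 * π) * (a + lp (dl ℓ (y - p) / ε)) + C1 := by
          refine h2.trans ?_
          have h9 : (0 : ℝ) ≤ 1 / (2 * π) := by positivity
          linarith [mul_le_mul_of_nonneg_left h7 h9]
        calc (Gl ℓ (x - y) - Gl ℓ (p - y)) * f y
            ≤ (1 / (2 * π) * (a + lp (dl ℓ (y - p) / ε)) + C1) * f y :=
              mul_le_mul_of_nonneg_right h8 (hf0 y)
          _ = (1 / (2 * π) * a + C1) * f y + 1 / (2 * π) * (f y * lp (dl ℓ (y - p) / ε)) := by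
              ring
    refine h1.trans ?_
    rw [integral_add ((hfi.mono_set inter_subset_left).const_mul _)
      ((hgi.mono_set inter_subset_left).const_mul _), integral_const_mul, integral_const_mul, hmI]
    have h9 : (0 : ℝ) ≤ 1 / (2 * π) := by positivity
    linarith [mul_le_mul_of_nonneg_left hgI h9]
  have hout : ∫ y in Q ℓ \ I, (Gl ℓ (x - y) - Gl ℓ (p - y)) * f y ≤
      (1 / (2 * π) * b + C1) * m1 + 1 / (2 * π) * (12 * π) := by
    have h1 : ∫ y in Q ℓ \ I, (Gl ℓ (x - y) - Gl ℓ (p - y)) * f y ≤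
        ∫ y in Q ℓ \ I, ((1 / (2 * π) * b + C1) * f y +
          1 / (2 * π) * (f y * Real.log (1 + ε / dl ℓ (x - y)))) := by
      refine setIntegral_mono_on_ae (hKi.mono_set sdiff_subset) ?_ (hQm.diff hIm) ?_
      · exact ((hfi.mono_set sdiff_subset).const_mul _).add
          ((hLi.mono_set sdiff_subset).const_mul _)
      · filter_upwards [haeX, haeP] with y hyx hyp _
        have h2 := (hk ℓ x p y hl0 hyx hyp).2
        have h4 : 0 < dl ℓ (x - y) := (dl_pos_iff hl0 _).2 hyx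
        have h7 := log_out h4 hD0 hε
        have h8 : Gl ℓ (x - y) - Gl ℓ (p - y) ≤
            1 / (2 * π) * (b + Real.log (1 + ε / dl ℓ (x - y))) + C1 := by
          refine h2.trans ?_
          have h9 : (0 : ℝ) ≤ 1 / (2 * π) := by positivity
          linarith [mul_le_mul_of_nonneg_left h7 h9]
        calc (Gl ℓ (x - y) - Gl ℓ (p - y)) * f y
            ≤ (1 / (2 * π) * (b + Real.log (1 + ε / dl ℓ (x - y))) + C1) * f y :=
              mul_le_mul_of_nonneg_right h8 (hf0 y)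
          _ = _ := by ring
    refine h1.trans ?_
    rw [integral_add ((hfi.mono_set sdiff_subset).const_mul _)
      ((hLi.mono_set sdiff_subset).const_mul _), integral_const_mul, integral_const_mul, hmO]
    have h9 : (0 : ℝ) ≤ 1 / (2 * π) := by positivity
    linarith [mul_le_mul_of_nonneg_left hLO h9]
  -- conclusion
  have hlog2 : Real.log 2 ≤ 3 / 4 := by
    have := Real.log_two_lt_d9
    linarith
  have haeq : a = Real.log 2 + Real.log (ε / D) := by
    rw [ha, show 2 * ε / D = 2 * (ε / D) by ring, Real.log_mul (by norm_num) (by positivity)]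
  have hna : -a ≤ b := by
    rw [ha, hb, ← Real.log_inv]
    refine Real.log_le_log (by positivity) ?_
    rw [inv_div]
    have h1 : D / (2 * ε) ≤ D / ε := by
      refine div_le_div_of_nonneg_left hD0.le hε ?_
      linarith
    linarith
  have hble : b ≤ Real.log (1 + D) + Real.log (1 / ε) := by
    rw [hb, ← Real.log_mul (by positivity) (by positivity)]
    refine Real.log_le_log (by positivity) ?_
    have hε1' : ε ≤ 1 := hε1.trans hs1
    have h1 : 1 ≤ 1 / ε := by
      rw [le_div_iff₀ hε]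
      linarith
    have h2 : (1 + D) * (1 / ε) = 1 / ε + D / ε := by ring
    rw [h2]
    linarith
  have hlD : 0 ≤ Real.log (1 + D) := Real.log_nonneg (by linarith)
  have hmb : m1 * b ≤ Real.log (1 + D) + 1 := by
    calc m1 * b ≤ m1 * (Real.log (1 + D) + Real.log (1 / ε)) :=
          mul_le_mul_of_nonneg_left hble hm0
      _ = m1 * Real.log (1 + D) + m1 * Real.log (1 / ε) := by ring
      _ ≤ 1 * Real.log (1 + D) + 1 := by
          refine add_le_add ?_ hml
          exact mul_le_mul_of_nonneg_right hm hlD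
      _ = _ := by ring
  have hma : -(m1 * a) ≤ m1 * b := by
    have := mul_le_mul_of_nonneg_left hna hm0
    linarith
  have hip : (0 : ℝ) < 1 / (2 * π) := by positivity
  have hip1 : 1 / (2 * π) * (2 * C2) ≤ C2 := by
    have h1 : 1 / (2 * π) * (2 * C2) = C2 / π := by
      field_simp
    rw [h1]
    exact div_le_self hC2.le (by linarith [Real.pi_gt_three])
  have hip2 : 1 / (2 * π) * (12 * π) = 6 := by
    field_simp
    norm_num
  have hip3 : (1 / (2 * π) * a + C1) * (8 * π - m1) = 4 * a - 1 / (2 * π) * (m1 * a) +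
      8 * π * C1 - C1 * m1 := by
    field_simp
    ring
  have hip4 : (1 / (2 * π) * b + C1) * m1 = 1 / (2 * π) * (m1 * b) + C1 * m1 := by ring
  have hip5 : 1 / (2 * π) * (m1 * b) - 1 / (2 * π) * (m1 * a) ≤ Real.log (1 + D) + 1 := by
    have h1 : 1 / (2 * π) * (m1 * b) - 1 / (2 * π) * (m1 * a) ≤
        1 / (2 * π) * (2 * (Real.log (1 + D) + 1)) := by
      have h2 : m1 * b - m1 * a ≤ 2 * (Real.log (1 + D) + 1) := by linarith
      have := mul_le_mul_of_nonneg_left h2 hip.le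
      linarith
    refine h1.trans ?_
    have h3 : 1 / (2 * π) * (2 * (Real.log (1 + D) + 1)) = (Real.log (1 + D) + 1) / π := by
      field_simp
    rw [h3]
    exact div_le_self (by linarith) (by linarith [Real.pi_gt_three])
  rw [hip3] at hin
  rw [hip4, hip2] at hout
  linarith [hin, hout, hip1, hip5, haeq, hlog2]

end AO

end
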