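import Pool.Agent.Lib.AO.OuterA

/-
STUB OuterB (library AO, MP_7bfba2_an). Replace the sorries, keep the statements.
(4.3), density.  Both sides are periodic in x (per_ff, per_Gam, dl_add_lat, per_lat), so by exists_near one may assume ‖x - p‖ = dl ℓ (x - p) =: D.  If x in VL ℓ the left side is 0 (ff_eq_zero) and the right side is >= 0.
 Otherwise ff_ratio: ff x = (8/ε²) exp(Gam x - Gam p + (A x - A p) - (B x - B p)) with |B x - B p| <= D (B_lip) and outer_A: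
 <= (8/ε²) (ε/D)⁴ (1+D) e^C exp(Gam x - Gam p + D).
-/

set_option autoImplicit false

open Complex MeasureTheory Set Metric Filter
open scoped Real ContDiff Topology

noncomputable section

namespace AO

theorem outer_ff : ∃ C : ℝ, 1 ≤ C ∧ ∀ (c ℓ : ℝ) (N : ℕ) (A B : ℂ → ℝ) (p : ℂ) (ε s1 : ℝ), Sys c ℓ N A B →
    Top ℓ N A B p ε → 10 ≤ ℓ → (∀ z, ‖fderiv ℝ B z‖ ≤ 1) → ε ≤ s1 → s1 ≤ 1 →
    (∀ z, ‖z - p‖ ≤ s1 → ff N ℓ A B z ≤ 2 * f0 ε ‖z - p‖) →
    8 * π - ∫ z in ball p (s1 / 2), ff N ℓ A B z ≤ 1 →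
    (8 * π - ∫ z in ball p (s1 / 2), ff N ℓ A B z) * Real.log (1 / ε) ≤ 1 →
    ∀ x, s1 ≤ dl ℓ (x - p) → ff N ℓ A B x ≤ C * ε ^ 2 / dl ℓ (x - p) ^ 4 * (1 + dl ℓ (x - p)) *
      Real.exp (Gam N ℓ x - Gam N ℓ p + dl ℓ (x - p)) := by
  obtain ⟨C0, hC0, hA⟩ := outer_A
  refine ⟨8 * Real.exp C0, ?_, ?_⟩
  · have h1 : 1 ≤ Real.exp C0 := Real.one_le_exp (by linarith)
    linarith
  intro c ℓ N A B p ε s1 hS hT hl hB he hs1 hf hm1 hm2 x hx
  have hl0 : 0 < ℓ := by linarith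
  have hε := hT.pos
  obtain ⟨k, hk, hkd⟩ := exists_near hl0 (x - p)
  have ex : x = (x - k) + k := by ring
  have e1 : ff N ℓ A B x = ff N ℓ A B (x - k) := by
    conv_lhs => rw [ex]
    exact per_lat _ hS.per_ff _ _ hk
  have e2 : Gam N ℓ x = Gam N ℓ (x - k) := by
    conv_lhs => rw [ex]
    exact per_lat _ (per_Gam N hl0) _ _ hk
  have e3 : dl ℓ (x - p) = dl ℓ (x - k - p) := by
    have : x - p = (x - k - p) + k := by ring
    conv_lhs => rw [this]
    exact dl_add_lat _ _ hk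
  have e4 : ‖x - k - p‖ = dl ℓ (x - k - p) := by
    rw [← e3, hkd]
    congr 1
    ring
  rw [e1, e2, e3]
  rw [e3] at hx
  generalize x - k = y at *
  rw [← e4] at hx ⊢
  have hD : 0 < ‖y - p‖ := by linarith
  by_cases hy : y ∈ VL ℓ
  · rw [hS.ff_eq_zero y hy]
    positivity
  · rw [hS.ff_ratio y p hy (hS.top_off p ε hT), hT.top]
    have hA1 := hA c ℓ N A B p ε s1 hS hT hl he hs1 hf hm1 hm2 y e4 hx
    have hB1 := (abs_le.1 (hS.B_lip hB y p)).1
    have hexp : Real.exp (Gam N ℓ y - Gam N ℓ p + (A y - A p) - (B y - B p)) ≤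
        Real.exp (4 * Real.log (ε / ‖y - p‖)) * Real.exp (Real.log (1 + ‖y - p‖)) * Real.exp C0 *
          Real.exp (Gam N ℓ y - Gam N ℓ p + ‖y - p‖) := by
      rw [← Real.exp_add, ← Real.exp_add, ← Real.exp_add]
      apply Real.exp_le_exp.2
      linarith
    have hq : 0 < ε / ‖y - p‖ := by positivity
    have e5 : Real.exp (4 * Real.log (ε / ‖y - p‖)) = (ε / ‖y - p‖) ^ 4 := by
      have : (4 : ℝ) * Real.log (ε / ‖y - p‖) = ((4 : ℕ) : ℝ) * Real.log (ε / ‖y - p‖) := by norm_num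
      rw [this, Real.exp_nat_mul, Real.exp_log hq]
    have e6 : Real.exp (Real.log (1 + ‖y - p‖)) = 1 + ‖y - p‖ := Real.exp_log (by positivity)
    rw [e5, e6] at hexp
    have h8 : 0 < 8 / ε ^ 2 := by positivity
    refine (mul_le_mul_of_nonneg_left hexp h8.le).trans (le_of_eq ?_)
    rw [div_pow]
    field_simp

end AO

end
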