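import Pool.Agent.Lib.AO.Calc

/-!
Identities for `φ = e^{-v/2}`, `v = u + b`, and `Lc = (|φ_z|² + e^{-b}/8)/φ`.
-/

set_option autoImplicit false

open Complex MeasureTheory Set Metric Filter
open scoped Real ContDiff Topology

noncomputable section

namespace AO

/-- `φ = e^{-v/2}`, `v = u + b`. -/
def phi (u b : ℂ → ℝ) (z : ℂ) : ℝ := Real.exp (-(u z + b z) / 2)

/-- `Lc = (|φ_z|² + e^{-b}/8)/φ`. -/
def Lc (u b : ℂ → ℝ) (z : ℂ) : ℝ := (‖dz (phi u b) z‖ ^ 2 + Real.exp (-(b z)) / 8) / phi u b z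

/-- `τ0 = T/2 + b_z²/4`. -/
def tau0 (u b : ℂ → ℝ) (z : ℂ) : ℂ := TT u (fun w => u w + b w) z / 2 + (dz b z) ^ 2 / 4

theorem phi_pos (u b : ℂ → ℝ) (z : ℂ) : 0 < phi u b z := Real.exp_pos _

namespace PhiIdsAux

theorem cz_congr {F G : ℂ → ℂ} {z : ℂ} (h : F =ᶠ[𝓝 z] G) : cz F z = cz G z ∧ cb F z = cb G z := by
  have h1 := h.fderiv_eq (𝕜 := ℝ)
  simp only [cz, cb, dx, dy, h1, and_self]

theorem dz_phi (u b : ℂ → ℝ) (z : ℂ) (hu : DifferentiableAt ℝ u z) (hb : DifferentiableAt ℝ b z) :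
    dz (phi u b) z = (phi u b z : ℂ) * (-(1 / 2) * dz (fun w => u w + b w) z) := by
  have hv : DifferentiableAt ℝ (fun w => u w + b w) z := hu.add hb
  have h0 : phi u b = fun w => Real.exp ((-(1 / 2) : ℝ) * (u w + b w)) := by
    funext w
    unfold phi
    congr 1
    ring
  have h1 := dz_exp (fun w => (-(1 / 2) : ℝ) * (u w + b w)) z (hv.const_mul _)
  have h2 := dz_const_mul (-(1 / 2) : ℝ) (fun w => u w + b w) z hv
  rw [h2] at h1
  rw [h0]
  beta_reduce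
  rw [h1]
  push_cast
  ring

theorem contDiffAt_phi (u b : ℂ → ℝ) (z : ℂ) (hu : ContDiffAt ℝ 2 u z) (hb : ContDiffAt ℝ 2 b z) :
    ContDiffAt ℝ 2 (phi u b) z := by
  unfold phi
  exact ((hu.add hb).neg.div_const 2).exp

theorem diff_dz (v : ℂ → ℝ) (z : ℂ) (hv : ContDiffAt ℝ 2 v z) : DifferentiableAt ℝ (dz v) z :=
  (contDiffAt_dz v z 1 (by exact_mod_cast hv)).differentiableAt (by norm_num)

theorem ev (u b : ℂ → ℝ) (z : ℂ) (hu : ContDiffAt ℝ 2 u z) (hb : ContDiffAt ℝ 2 b z) :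
    dz (phi u b) =ᶠ[𝓝 z] fun w => ((phi u b w : ℝ) : ℂ) *
      (-(1 / 2) * dz (fun w => u w + b w) w) := by
  filter_upwards [hu.eventually (by simp), hb.eventually (by simp)] with w h1 h2
  exact dz_phi u b w (h1.differentiableAt (by norm_num)) (h2.differentiableAt (by norm_num))

theorem diff_ofReal {f : ℂ → ℝ} {z : ℂ} (hf : DifferentiableAt ℝ f z) :
    DifferentiableAt ℝ (fun w => ((f w : ℝ) : ℂ)) z :=
  Complex.ofRealCLM.differentiableAt.comp z hf

theorem czb_const_mul (c : ℂ) (f : ℂ → ℂ) (z : ℂ) (hf : DifferentiableAt ℝ f z) :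
    cz (fun w => c * f w) z = c * cz f z ∧ cb (fun w => c * f w) z = c * cb f z := by
  have h := fderiv_const_mul hf c
  constructor
  · simp only [cz, dx, dy]
    rw [show fderiv ℝ (fun w => c * f w) z = c • fderiv ℝ f z from h]
    simp only [ContinuousLinearMap.smul_apply, smul_eq_mul]
    ring
  · simp only [cb, dx, dy]
    rw [show fderiv ℝ (fun w => c * f w) z = c • fderiv ℝ f z from h]
    simp only [ContinuousLinearMap.smul_apply, smul_eq_mul]
    ring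

/-- Both second Wirtinger derivatives of `φ`. -/
theorem snd (u b : ℂ → ℝ) (z : ℂ) (hu : ContDiffAt ℝ 2 u z) (hb : ContDiffAt ℝ 2 b z) :
    cz (dz (phi u b)) z = (phi u b z : ℂ) * ((dz (fun w => u w + b w) z) ^ 2 / 4 -
      cz (dz (fun w => u w + b w)) z / 2) ∧
    cb (dz (phi u b)) z = (phi u b z : ℂ) * ((dz (fun w => u w + b w) z) *
      (starRingEnd ℂ) (dz (fun w => u w + b w) z) / 4 - cb (dz (fun w => u w + b w)) z / 2) := by
  set v : ℂ → ℝ := fun w => u w + b w with hv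
  have hv2 : ContDiffAt ℝ 2 v z := hu.add hb
  have hdv := diff_dz v z hv2
  have hphi := (contDiffAt_phi u b z hu hb).differentiableAt (by norm_num)
  have hphiC := diff_ofReal hphi
  have hg : DifferentiableAt ℝ (fun w => -(1 / 2) * dz v w) z := hdv.const_mul _
  obtain ⟨e1, e2⟩ := cz_congr (ev u b z hu hb)
  obtain ⟨c1, c2⟩ := czb_const_mul (-(1 / 2)) (dz v) z hdv
  have hd := dz_phi u b z (hu.differentiableAt (by norm_num)) (hb.differentiableAt (by norm_num))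
  constructor
  · rw [e1, cz_mul _ _ z hphiC hg, c1, cz_ofReal _ z hphi, hd]
    ring
  · rw [e2, cb_mul _ _ z hphiC hg, c2, cb_ofReal _ z hphi, hd]
    simp only [map_mul, map_neg, Complex.conj_ofReal, map_div₀, map_one, map_ofNat]
    ring

theorem norm_sq_dz (u b : ℂ → ℝ) (z : ℂ) (hu : DifferentiableAt ℝ u z)
    (hb : DifferentiableAt ℝ b z) :
    ‖dz (phi u b) z‖ ^ 2 = phi u b z ^ 2 * ‖dz (fun w => u w + b w) z‖ ^ 2 / 4 := by
  rw [dz_phi u b z hu hb, norm_mul, norm_mul, Complex.norm_real, Real.norm_eq_abs,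
    abs_of_pos (phi_pos u b z)]
  have : ‖(-(1 / 2) : ℂ)‖ = 1 / 2 := by
    rw [norm_neg]
    norm_num
  rw [this]
  ring

theorem phi_sq (u b : ℂ → ℝ) (z : ℂ) :
    Real.exp (-(b z)) = Real.exp (u z) * phi u b z ^ 2 := by
  unfold phi
  rw [← Real.exp_nat_mul, ← Real.exp_add]
  congr 1
  push_cast
  ring

end PhiIdsAux

open PhiIdsAux

theorem phi_zz (u b : ℂ → ℝ) (z : ℂ) (hu : ContDiffAt ℝ 2 u z) (hb : ContDiffAt ℝ 2 b z) :
    cz (dz (phi u b)) z = -(tau0 u b z) * phi u b z - dz b z * dz (phi u b) z := by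
  have hu1 := hu.differentiableAt (by norm_num : (2 : ℕ∞ω) ≠ 0)
  have hb1 := hb.differentiableAt (by norm_num : (2 : ℕ∞ω) ≠ 0)
  rw [(snd u b z hu hb).1, dz_phi u b z hu1 hb1]
  have h1 := dz_add u b z hu1 hb1
  unfold tau0 TT
  have h2 : dz u z = dz (fun w => u w + b w) z - dz b z := by rw [h1]; ring
  rw [h2]
  ring

theorem phi_zzbar (u b : ℂ → ℝ) (β : ℝ) (z : ℂ) (hu : ContDiffAt ℝ 2 u z) (hb : ContDiffAt ℝ 2 b z)
    (h : lap (fun w => u w + b w) z = -(Real.exp (u z) + β)) :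
    cb (dz (phi u b)) z = ((Lc u b z + β / 8 * phi u b z : ℝ) : ℂ) := by
  have hu1 := hu.differentiableAt (by norm_num : (2 : ℕ∞ω) ≠ 0)
  have hb1 := hb.differentiableAt (by norm_num : (2 : ℕ∞ω) ≠ 0)
  rw [(snd u b z hu hb).2, cb_dz _ z (hu.add hb), h, Complex.mul_conj, Complex.normSq_eq_norm_sq]
  unfold Lc
  rw [norm_sq_dz u b z hu1 hb1, phi_sq u b z]
  have hp : phi u b z ≠ 0 := (phi_pos u b z).ne'
  have key : phi u b z * (‖dz (fun w => u w + b w) z‖ ^ 2 / 4 -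
      -(Real.exp (u z) + β) / 4 / 2) =
      (phi u b z ^ 2 * ‖dz (fun w => u w + b w) z‖ ^ 2 / 4 +
        Real.exp (u z) * phi u b z ^ 2 / 8) / phi u b z + β / 8 * phi u b z := by
    field_simp
    ring
  rw [← key]
  push_cast
  ring

theorem Lc_z (u b : ℂ → ℝ) (β : ℝ) (z : ℂ) (hu : ContDiffAt ℝ 2 u z) (hb : ContDiffAt ℝ 2 b z)
    (h : lap (fun w => u w + b w) z = -(Real.exp (u z) + β)) :
    DifferentiableAt ℝ (Lc u b) z ∧
    dz (Lc u b) z = -(tau0 u b z) * (starRingEnd ℂ) (dz (phi u b) z) - dz b z * Lc u b z +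
      ((β / 8 : ℝ) : ℂ) * dz (phi u b) z := by
  have hb1 := hb.differentiableAt (by norm_num : (2 : ℕ∞ω) ≠ 0)
  have hphi2 := contDiffAt_phi u b z hu hb
  have hphi := hphi2.differentiableAt (by norm_num : (2 : ℕ∞ω) ≠ 0)
  have hdphi := diff_dz (phi u b) z hphi2
  have hp : phi u b z ≠ 0 := (phi_pos u b z).ne'
  have hpC : ((phi u b z : ℝ) : ℂ) ≠ 0 := by exact_mod_cast hp
  have hexp : DifferentiableAt ℝ (fun w => Real.exp (-(b w))) z := hb1.neg.exp
  have hL : DifferentiableAt ℝ (Lc u b) z := by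
    have h1 : DifferentiableAt ℝ (fun w => ‖dz (phi u b) w‖ ^ 2) z := hdphi.norm_sq ℝ
    have h3 : DifferentiableAt ℝ (fun w => Real.exp (-(b w)) * (8 : ℝ)⁻¹) z :=
      hexp.mul_const ((8 : ℝ)⁻¹)
    have h2 := (h1.add h3).mul (hphi.inv hp)
    refine h2.congr_of_eventuallyEq (Eventually.of_forall fun w => ?_)
    simp only [Lc, div_eq_mul_inv, Pi.mul_apply, Pi.add_apply, Pi.inv_apply]
  refine ⟨hL, ?_⟩
  have hconj : DifferentiableAt ℝ (fun w => (starRingEnd ℂ) (dz (phi u b) w)) z :=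
    Complex.conjCLE.toContinuousLinearMap.differentiableAt.comp z hdphi
  have hid : (fun w => ((Lc u b w : ℝ) : ℂ) * ((phi u b w : ℝ) : ℂ)) =
      fun w => dz (phi u b) w * (starRingEnd ℂ) (dz (phi u b) w) +
        (1 / 8 : ℂ) * ((Real.exp (-(b w)) : ℝ) : ℂ) := by
    funext w
    have hw : ((phi u b w : ℝ) : ℂ) ≠ 0 := by exact_mod_cast (phi_pos u b w).ne'
    rw [Complex.mul_conj, Complex.normSq_eq_norm_sq]
    unfold Lc
    push_cast
    field_simp
  have hE : dz (fun w => Real.exp (-(b w))) z = -(Real.exp (-(b z)) : ℂ) * dz b z := by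
    have h1 := dz_exp (fun w => (-1 : ℝ) * b w) z (hb1.const_mul _)
    rw [dz_const_mul (-1 : ℝ) b z hb1] at h1
    simp only [neg_mul, one_mul] at h1
    rw [h1]
    push_cast
    ring
  have h1 : cz (fun w => ((Lc u b w : ℝ) : ℂ) * ((phi u b w : ℝ) : ℂ)) z =
      dz (Lc u b) z * phi u b z + Lc u b z * dz (phi u b) z := by
    rw [cz_mul _ _ z (diff_ofReal hL) (diff_ofReal hphi), cz_ofReal _ z hL, cz_ofReal _ z hphi]
  have hprod : DifferentiableAt ℝ
      (fun w => dz (phi u b) w * (starRingEnd ℂ) (dz (phi u b) w)) z := hdphi.mul hconj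
  have hcon : DifferentiableAt ℝ (fun w => (1 / 8 : ℂ) * ((Real.exp (-(b w)) : ℝ) : ℂ)) z :=
    (diff_ofReal hexp).const_mul _
  have h2 : cz (fun w => dz (phi u b) w * (starRingEnd ℂ) (dz (phi u b) w) +
        (1 / 8 : ℂ) * ((Real.exp (-(b w)) : ℝ) : ℂ)) z =
      cz (dz (phi u b)) z * (starRingEnd ℂ) (dz (phi u b) z) +
      dz (phi u b) z * (starRingEnd ℂ) (cb (dz (phi u b)) z) +
      (1 / 8 : ℂ) * (-(Real.exp (-(b z)) : ℂ) * dz b z) := by
    rw [cz_add _ _ z hprod hcon, cz_mul _ _ z hdphi hconj, cz_conj _ z hdphi,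
      (czb_const_mul (1 / 8) _ z (diff_ofReal hexp)).1, cz_ofReal _ z hexp, hE]
  rw [hid] at h1
  rw [h1] at h2
  rw [phi_zz u b z hu hb, phi_zzbar u b β z hu hb h, Complex.conj_ofReal] at h2
  have hLc : ((Lc u b z : ℝ) : ℂ) * ((phi u b z : ℝ) : ℂ) =
      dz (phi u b) z * (starRingEnd ℂ) (dz (phi u b) z) +
        (1 / 8 : ℂ) * ((Real.exp (-(b z)) : ℝ) : ℂ) := congrFun hid z
  apply mul_right_cancel₀ hpC
  push_cast at h2 hLc ⊢
  linear_combination h2 + dz b z * hLc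

end AO

end
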