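import Pool.Agent.Lib.AO.Polar1

/-
STUB Polar2 / Polar (library AO, MP_7bfba2_an). Replace the sorries, keep the statements.
cm h p s = (1/2π) ∫_0^{2π} h (p + s e^{iθ}) dθ is the circle mean.
int_ball_polar: Complex.integral_comp_polarCoord_symm after translation (θ in (-π, π); by 2π-periodicity the same as (0, 2π)).
hasDerivAt_cm: differentiate under the integral sign (h is C¹ near the closed circle): (cm h p)'(s) = (1/2π) ∫ fderiv h (p + s e^{iθ}) (e^{iθ}) dθ.
green_cm: for h in C² on ball p R, 0 < s < R:  s (cm h p)'(s) = (1/2π) ∫_{ball p s} lap h.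
  Proof: K(s) := s (cm h p)'(s).  With g(s,θ) = h(p + s e^{iθ}):  s ∂_s (s ∂_s g) + ∂_θ² g = s² (lap h)(p + s e^{iθ}); integrating over θ, the second term
  vanishes (periodicity of ∂_θ g), so s K'(s) = s² cm (lap h) p s, K'(s) = s cm (lap h) p s; K(s) -> 0 as s -> 0; and
  int_ball_polar: ∫_{ball p s} lap h = 2π ∫_0^s t cm (lap h) p t dt.
hasDerivAt_ball: the mass function m(s) = ∫_{ball p s} h has derivative 2π s cm h p s (h continuous on ball p R, 0 < s < R) (from int_ball_polar and the fundamental theorem).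
-/

set_option autoImplicit false

open Complex MeasureTheory Set Metric Filter
open scoped Real ContDiff Topology

noncomputable section

namespace AO

namespace Polar2Aux

/-- differentiation under the integral sign, continuous data -/
theorem deriv_int {Φ Ψ : ℝ → ℝ → ℝ} {a b t0 : ℝ} (ht0 : t0 ∈ Ioo a b)
    (hΦ : ContinuousOn (fun q : ℝ × ℝ => Φ q.1 q.2) (Ioo a b ×ˢ univ))
    (hΨ : ContinuousOn (fun q : ℝ × ℝ => Ψ q.1 q.2) (Ioo a b ×ˢ univ))
    (hd : ∀ t ∈ Ioo a b, ∀ θ, HasDerivAt (fun s => Φ s θ) (Ψ t θ) t) :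
    HasDerivAt (fun t => ∫ θ in (0:ℝ)..(2 * π), Φ t θ) (∫ θ in (0:ℝ)..(2 * π), Ψ t0 θ) t0 := by
  obtain ⟨δ, hδ, hball⟩ := Metric.isOpen_iff.1 (isOpen_Ioo (a := a) (b := b)) t0 ht0
  have hsub : closedBall t0 (δ / 2) ⊆ Ioo a b :=
    (closedBall_subset_ball (by linarith)).trans hball
  have hcΦ : ∀ t ∈ Ioo a b, Continuous (Φ t) := by
    intro t ht
    rw [← continuousOn_univ]
    exact hΦ.comp (f := fun θ : ℝ => (t, θ)) (by fun_prop) fun θ _ => ⟨ht, mem_univ _⟩
  have hcΨ : ∀ t ∈ Ioo a b, Continuous (Ψ t) := by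
    intro t ht
    rw [← continuousOn_univ]
    exact hΨ.comp (f := fun θ : ℝ => (t, θ)) (by fun_prop) fun θ _ => ⟨ht, mem_univ _⟩
  have hcomp : IsCompact (closedBall t0 (δ / 2) ×ˢ Icc (0:ℝ) (2 * π)) :=
    (isCompact_closedBall _ _).prod isCompact_Icc
  obtain ⟨M, hM⟩ := hcomp.exists_bound_of_continuousOn
    (hΨ.mono (prod_mono hsub (subset_univ _)))
  have hnhds : closedBall t0 (δ / 2) ∈ 𝓝 t0 := closedBall_mem_nhds _ (by linarith)
  refine (intervalIntegral.hasDerivAt_integral_of_dominated_loc_of_deriv_le (F := Φ) (F' := Ψ)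
    (bound := fun _ => M) hnhds ?_ ?_ ?_ ?_ ?_ ?_).2
  · filter_upwards [hnhds] with t ht
    exact (hcΦ t (hsub ht)).aestronglyMeasurable
  · exact (hcΦ t0 ht0).intervalIntegrable _ _
  · exact (hcΨ t0 ht0).aestronglyMeasurable
  · refine Filter.Eventually.of_forall fun θ hθ t ht => ?_
    rw [uIoc_of_le (by positivity)] at hθ
    exact hM (t, θ) ⟨ht, hθ.1.le, hθ.2⟩
  · exact intervalIntegrable_const
  · refine Filter.Eventually.of_forall fun θ _ t ht => ?_
    exact hd t (hsub ht) θ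

/-- the unit vector -/
def ev (θ : ℝ) : ℂ := Complex.exp (θ * Complex.I)

theorem ev_cont : Continuous ev := by
  unfold ev
  fun_prop

theorem norm_ev (θ : ℝ) : ‖ev θ‖ = 1 := Complex.norm_exp_ofReal_mul_I θ

theorem ev_deriv (θ : ℝ) : HasDerivAt ev (Complex.I * ev θ) θ := by
  unfold ev
  have h1 : HasDerivAt (fun θ : ℝ => (θ : ℂ) * Complex.I) (1 * Complex.I) θ :=
    (HasDerivAt.ofReal_comp (hasDerivAt_id θ)).mul_const _
  have h2 := h1.cexp
  rw [one_mul, mul_comm] at h2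
  exact h2

theorem ev_per : ev (2 * π) = ev 0 := by
  unfold ev
  push_cast
  rw [Complex.exp_two_pi_mul_I]
  simp

theorem mem_ball_ev {p : ℂ} {R t : ℝ} (ht : t ∈ Ioo (-R) R) (θ : ℝ) :
    p + t * ev θ ∈ ball p R := by
  rw [mem_ball, dist_eq_norm, add_sub_cancel_left, norm_mul, norm_ev, mul_one, Complex.norm_real,
    Real.norm_eq_abs, abs_lt]
  exact ⟨ht.1, ht.2⟩

end Polar2Aux

open Polar2Aux

/-- Green's identity for circle means. -/
theorem green_cm (h : ℂ → ℝ) (p : ℂ) (R s : ℝ) (hs : 0 < s) (hsR : s < R) (hh : ContDiffOn ℝ 2 h (ball p R)) :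
    HasDerivAt (cm h p) ((1 / (2 * π * s)) * ∫ z in ball p s, lap h z) s := by
  have hπ := Real.pi_pos
  set D1 : ℂ → ℂ →L[ℝ] ℝ := fderiv ℝ h with hD1
  set D2 : ℂ → ℂ →L[ℝ] ℂ →L[ℝ] ℝ := fderiv ℝ D1 with hD2
  have hc1 : ContDiffOn ℝ 1 D1 (ball p R) := hh.fderiv_of_isOpen isOpen_ball (by norm_num)
  have hc2 : ContDiffOn ℝ 0 D2 (ball p R) := hc1.fderiv_of_isOpen isOpen_ball (by norm_num)
  have hk1 : ContinuousOn D1 (ball p R) := hc1.continuousOn
  have hk2 : ContinuousOn D2 (ball p R) := hc2.continuousOn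
  have hd1 : ∀ z ∈ ball p R, HasFDerivAt h (D1 z) z := fun z hz =>
    ((hh.contDiffAt (isOpen_ball.mem_nhds hz)).differentiableAt (by norm_num)).hasFDerivAt
  have hd2 : ∀ z ∈ ball p R, HasFDerivAt D1 (D2 z) z := fun z hz =>
    ((hc1.contDiffAt (isOpen_ball.mem_nhds hz)).differentiableAt (by norm_num)).hasFDerivAt
  have hlap : ∀ z ∈ ball p R, lap h z = D2 z 1 1 + D2 z Complex.I Complex.I := by
    intro z hz
    have e : ∀ v : ℂ, HasFDerivAt (fun w => D1 w v) ((ContinuousLinearMap.apply ℝ ℝ v).comp (D2 z)) z :=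
      fun v => (ContinuousLinearMap.apply ℝ ℝ v).hasFDerivAt.comp z (hd2 z hz)
    have e1 : dx (dx h) z = D2 z 1 1 := by
      show fderiv ℝ (fun w => D1 w 1) z 1 = D2 z 1 1
      rw [(e 1).fderiv]
      rfl
    have e2 : dy (dy h) z = D2 z Complex.I Complex.I := by
      show fderiv ℝ (fun w => D1 w Complex.I) z Complex.I = D2 z Complex.I Complex.I
      rw [(e Complex.I).fderiv]
      rfl
    unfold lap
    rw [e1, e2]
  have hlapc : ContinuousOn (lap h) (ball p R) := by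
    refine ContinuousOn.congr ?_ hlap
    fun_prop
  have hlap2 : ∀ z ∈ ball p R, ∀ θ : ℝ,
      D2 z (ev θ) (ev θ) + D2 z (Complex.I * ev θ) (Complex.I * ev θ) = lap h z := by
    intro z hz θ
    rw [hlap z hz]
    set x : ℝ := (ev θ).re with hx
    set y : ℝ := (ev θ).im with hy
    have h1 : ev θ = x • (1 : ℂ) + y • Complex.I := by
      apply Complex.ext <;> simp [hx, hy]
    have h2 : Complex.I * ev θ = (-y) • (1 : ℂ) + x • Complex.I := by
      apply Complex.ext <;> simp [hx, hy]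
    have h3 : x ^ 2 + y ^ 2 = 1 := by
      have h4 := Complex.sq_norm (ev θ)
      rw [norm_ev, Complex.normSq_apply] at h4
      rw [hx, hy]
      nlinarith
    rw [h2, h1]
    simp only [map_add, map_smul, _root_.add_apply, _root_.smul_apply,
      smul_eq_mul]
    linear_combination (D2 z 1 1 + D2 z Complex.I Complex.I) * h3
  -- the paths
  have hZc : Continuous fun q : ℝ × ℝ => p + (q.1 : ℂ) * ev q.2 := by
    have := ev_cont
    fun_prop
  have hZm : MapsTo (fun q : ℝ × ℝ => p + (q.1 : ℂ) * ev q.2) (Ioo (-R) R ×ˢ univ) (ball p R) :=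
    fun q hq => mem_ball_ev hq.1 q.2
  have hZt : ∀ θ t : ℝ, HasDerivAt (fun s : ℝ => p + (s : ℂ) * ev θ) (ev θ) t := by
    intro θ t
    have h1 : HasDerivAt (fun s : ℝ => (s : ℂ)) 1 t := HasDerivAt.ofReal_comp (hasDerivAt_id t)
    have h2 := (h1.mul_const (ev θ)).const_add p
    rwa [one_mul] at h2
  have hZθ : ∀ t θ : ℝ, HasDerivAt (fun θ : ℝ => p + (t : ℂ) * ev θ)
      (t * (Complex.I * ev θ)) θ := by
    intro t θ
    exact ((ev_deriv θ).const_mul (t : ℂ)).const_add p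
  have hevc : Continuous fun q : ℝ × ℝ => ev q.2 := ev_cont.comp continuous_snd
  have hg0 : ContinuousOn (fun q : ℝ × ℝ => h (p + (q.1 : ℂ) * ev q.2)) (Ioo (-R) R ×ˢ univ) :=
    hh.continuousOn.comp hZc.continuousOn hZm
  have hg1 : ContinuousOn (fun q : ℝ × ℝ => D1 (p + (q.1 : ℂ) * ev q.2) (ev q.2))
      (Ioo (-R) R ×ˢ univ) :=
    (hk1.comp hZc.continuousOn hZm).clm_apply hevc.continuousOn
  have hg2 : ContinuousOn (fun q : ℝ × ℝ => D2 (p + (q.1 : ℂ) * ev q.2) (ev q.2) (ev q.2))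
      (Ioo (-R) R ×ˢ univ) :=
    ((hk2.comp hZc.continuousOn hZm).clm_apply hevc.continuousOn).clm_apply hevc.continuousOn
  have hder1 : ∀ t ∈ Ioo (-R) R, ∀ θ, HasDerivAt (fun s : ℝ => h (p + (s : ℂ) * ev θ))
      (D1 (p + (t : ℂ) * ev θ) (ev θ)) t := by
    intro t ht θ
    exact (hd1 _ (mem_ball_ev ht θ)).comp_hasDerivAt t (hZt θ t)
  have hder2 : ∀ t ∈ Ioo (-R) R, ∀ θ, HasDerivAt (fun s : ℝ => D1 (p + (s : ℂ) * ev θ) (ev θ))
      (D2 (p + (t : ℂ) * ev θ) (ev θ) (ev θ)) t := by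
    intro t ht θ
    have h1 := (hd2 _ (mem_ball_ev ht θ)).comp_hasDerivAt t (hZt θ t)
    exact (ContinuousLinearMap.apply ℝ ℝ (ev θ)).hasFDerivAt.comp_hasDerivAt t h1
  have hcm : ∀ t ∈ Ioo (-R) R, HasDerivAt (cm h p)
      ((1 / (2 * π)) * ∫ θ in (0:ℝ)..(2 * π), D1 (p + (t : ℂ) * ev θ) (ev θ)) t := by
    intro t ht
    exact (deriv_int ht hg0 hg1 hder1).const_mul _
  have hC1 : ∀ t ∈ Ioo (-R) R, HasDerivAt (fun t : ℝ => ∫ θ in (0:ℝ)..(2 * π),
      D1 (p + (t : ℂ) * ev θ) (ev θ))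
      (∫ θ in (0:ℝ)..(2 * π), D2 (p + (t : ℂ) * ev θ) (ev θ) (ev θ)) t := by
    intro t ht
    exact deriv_int ht hg1 hg2 hder2
  -- integration by parts in the angle
  have hang : ∀ t ∈ Ioo (-R) R, ∫ θ in (0:ℝ)..(2 * π), D1 (p + (t : ℂ) * ev θ) (ev θ) =
      t * ∫ θ in (0:ℝ)..(2 * π), D2 (p + (t : ℂ) * ev θ) (Complex.I * ev θ) (Complex.I * ev θ) := by
    intro t ht
    have hcz : Continuous fun θ : ℝ => p + (t : ℂ) * ev θ := by
      have := ev_cont
      fun_prop
    have hcI : Continuous fun θ : ℝ => Complex.I * ev θ := continuous_const.mul ev_cont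
    have hcD1 : Continuous fun θ : ℝ => D1 (p + (t : ℂ) * ev θ) :=
      hk1.comp_continuous hcz fun θ => mem_ball_ev ht θ
    have hcD2 : Continuous fun θ : ℝ => D2 (p + (t : ℂ) * ev θ) :=
      hk2.comp_continuous hcz fun θ => mem_ball_ev ht θ
    have hder : ∀ θ : ℝ, HasDerivAt (fun θ : ℝ => D1 (p + (t : ℂ) * ev θ) (Complex.I * ev θ))
        (t * D2 (p + (t : ℂ) * ev θ) (Complex.I * ev θ) (Complex.I * ev θ) -
          D1 (p + (t : ℂ) * ev θ) (ev θ)) θ := by
      intro θ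
      have h1 := (hd2 _ (mem_ball_ev ht θ)).comp_hasDerivAt θ (hZθ t θ)
      have h2 : HasDerivAt (fun θ : ℝ => Complex.I * ev θ) (Complex.I * (Complex.I * ev θ)) θ :=
        (ev_deriv θ).const_mul Complex.I
      have h3 := h1.clm_apply h2
      refine h3.congr_deriv ?_
      have e1 : (t : ℂ) * (Complex.I * ev θ) = t • (Complex.I * ev θ) := by
        rw [Complex.real_smul]
      have e2 : Complex.I * (Complex.I * ev θ) = -(ev θ) := by
        rw [← mul_assoc, Complex.I_mul_I]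
        ring
      rw [e1, e2]
      simp only [map_smul, _root_.smul_apply, smul_eq_mul, map_neg, Function.comp_apply]
      ring
    have hc3 : Continuous fun θ : ℝ => D2 (p + (t : ℂ) * ev θ) (Complex.I * ev θ) (Complex.I * ev θ) :=
      (hcD2.clm_apply hcI).clm_apply hcI
    have hc4 : Continuous fun θ : ℝ => D1 (p + (t : ℂ) * ev θ) (ev θ) := hcD1.clm_apply ev_cont
    have h5 := intervalIntegral.integral_eq_sub_of_hasDerivAt (a := 0) (b := 2 * π)
      (fun θ _ => hder θ) (((hc3.const_mul t).sub hc4).intervalIntegrable _ _)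
    rw [ev_per, sub_self, intervalIntegral.integral_sub ((hc3.const_mul t).intervalIntegrable _ _)
      (hc4.intervalIntegrable _ _), intervalIntegral.integral_const_mul] at h5
    linarith
  -- the derivative of t * (cm)'
  have hK : ∀ t ∈ Ioo (-R) R, HasDerivAt (fun t : ℝ => t * ((1 / (2 * π)) *
      ∫ θ in (0:ℝ)..(2 * π), D1 (p + (t : ℂ) * ev θ) (ev θ))) (t * cm (lap h) p t) t := by
    intro t ht
    have h1 := (hasDerivAt_id t).mul ((hC1 t ht).const_mul (1 / (2 * π)))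
    refine h1.congr_deriv ?_
    have hcz : Continuous fun θ : ℝ => p + (t : ℂ) * ev θ := by
      have := ev_cont
      fun_prop
    have hcI : Continuous fun θ : ℝ => Complex.I * ev θ := continuous_const.mul ev_cont
    have hcD2 : Continuous fun θ : ℝ => D2 (p + (t : ℂ) * ev θ) :=
      hk2.comp_continuous hcz fun θ => mem_ball_ev ht θ
    have h2 : cm (lap h) p t = (1 / (2 * π)) *
        ((∫ θ in (0:ℝ)..(2 * π), D2 (p + (t : ℂ) * ev θ) (ev θ) (ev θ)) +
        ∫ θ in (0:ℝ)..(2 * π), D2 (p + (t : ℂ) * ev θ) (Complex.I * ev θ) (Complex.I * ev θ)) := by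
      rw [← intervalIntegral.integral_add
        (((hcD2.clm_apply ev_cont).clm_apply ev_cont).intervalIntegrable _ _)
        (((hcD2.clm_apply hcI).clm_apply hcI).intervalIntegrable _ _)]
      unfold cm
      congr 1
      refine intervalIntegral.integral_congr fun θ _ => ?_
      exact (hlap2 _ (mem_ball_ev ht θ) θ).symm
    rw [h2]
    simp only [id_eq, one_mul]
    rw [hang t ht]
    ring
  have hsI : s ∈ Ioo (-R) R := ⟨by linarith, hsR⟩
  have h0I : ∀ t ∈ uIcc 0 s, t ∈ Ioo (-R) R := by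
    intro t ht
    rw [uIcc_of_le hs.le] at ht
    exact ⟨by linarith [ht.1], by linarith [ht.2]⟩
  have hFTC := intervalIntegral.integral_eq_sub_of_hasDerivAt (a := 0) (b := s)
    (fun t ht => hK t (h0I t ht)) ?_
  · have hpol := int_ball_polar (lap h) p R s hs.le hsR hlapc
    rw [hpol, hFTC]
    refine (hcm s hsI).congr_deriv ?_
    rw [zero_mul, sub_zero]
    field_simp
  · refine ContinuousOn.intervalIntegrable ?_
    have h1 := continuousOn_cm (lap h) p R hlapc
    rw [uIcc_of_le hs.le]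
    exact continuousOn_id.mul (h1.mono fun t ht => ⟨ht.1, lt_of_le_of_lt ht.2 hsR⟩)

end AO

end
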