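import Pool.Agent.Lib.AO.Calc
import Pool.Agent.Lib.AO.Radial

/-
STUB Polar1 / Polar (library AO, MP_7bfba2_an). Replace the sorries, keep the statements.
cm h p s = (1/2π) ∫_0^{2π} h (p + s e^{iθ}) dθ is the circle mean.
int_ball_polar: Complex.integral_comp_polarCoord_symm after translation (θ in (-π, π); by 2π-periodicity the same as (0, 2π)).
hasDerivAt_cm: differentiate under the integral sign (h is C¹ near the closed circle): (cm h p)'(s) = (1/2π) ∫ fderiv h (p + s e^{iθ}) (e^{iθ}) dθ.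
green_cm: for h in C² on ball p R, 0 < s < R:  s (cm h p)'(s) = (1/2π) ∫_{ball p s} lap h.
  Proof: K(s) := s (cm h p)'(s).  With g(s,θ) = h(p + s e^{iθ}):  s ∂_s (s ∂_s g) + ∂_θ² g = s² (lap h)(p + s e^{iθ}); integrating over θ, the second term
  vanishes (periodicity of ∂_θ g), so s K'(s) = s² cm (lap h) p s, K'(s) = s cm (lap h) p s; K(s) -> 0 as s -> 0; and
  int_ball_polar: ∫_{ball p s} lap h = 2π ∫_0^s t cm (lap h) p t dt.
hasDerivAt_ball: the mass function m(s) = ∫_{ball p s} h has derivative 2π s cm h p s (h continuous on ball p R, 0 < s < R) (from int_ball_polar and the fundamental theorem).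
-/

set_option autoImplicit false

open Complex MeasureTheory Set Metric Filter
open scoped Real ContDiff Topology

noncomputable section

namespace AO

/-- Circle mean. -/
def cm (h : ℂ → ℝ) (p : ℂ) (s : ℝ) : ℝ := (1 / (2 * π)) * ∫ θ in (0 : ℝ)..(2 * π), h (p + s * Complex.exp (θ * Complex.I))

namespace Polar1Aux

theorem norm_exp_mul_I' (θ : ℝ) : ‖Complex.exp (θ * Complex.I)‖ = 1 := Complex.norm_exp_ofReal_mul_I θ

theorem mem_ball_pt (p : ℂ) (R t θ : ℝ) (ht : 0 ≤ t) (htR : t < R) :
    p + t * Complex.exp (θ * Complex.I) ∈ ball p R := by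
  rw [mem_ball, dist_eq_norm]
  simp [abs_of_nonneg ht, htR]

theorem periodic (h : ℂ → ℝ) (p : ℂ) (s : ℝ) :
    Function.Periodic (fun θ : ℝ => h (p + s * Complex.exp (θ * Complex.I))) (2 * π) := by
  intro θ
  show h (p + s * Complex.exp (((θ + 2 * π : ℝ) : ℂ) * Complex.I)) = _
  have : Complex.exp (((θ + 2 * π : ℝ) : ℂ) * Complex.I) = Complex.exp (θ * Complex.I) := by
    push_cast
    rw [add_mul]
    rw [Complex.exp_add]
    rw [Complex.exp_two_pi_mul_I, mul_one]
  rw [this]

theorem cm_symm (h : ℂ → ℝ) (p : ℂ) (s : ℝ) :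
    ∫ θ in (-π : ℝ)..π, h (p + s * Complex.exp (θ * Complex.I))
      = 2 * π * cm h p s := by
  unfold cm
  have h1 := (periodic h p s).intervalIntegral_add_eq (-π) 0
  have e1 : -π + 2 * π = π := by ring
  rw [e1, zero_add] at h1
  rw [h1]
  have : (2 * π) ≠ 0 := by positivity
  rw [← mul_assoc, mul_one_div_cancel this, one_mul]

/-- continuity of the map (t, θ) ↦ h (p + t e^{iθ}) on strips. -/
theorem contOn_pair (h : ℂ → ℝ) (p : ℂ) (R s : ℝ) (hsR : s < R) (hh : ContinuousOn h (ball p R))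
    (T : Set ℝ) :
    ContinuousOn (fun q : ℝ × ℝ => h (p + (q.1 : ℂ) * Complex.exp (q.2 * Complex.I)))
      (Icc 0 s ×ˢ T) := by
  apply hh.comp
  · apply Continuous.continuousOn
    fun_prop
  · rintro ⟨t, θ⟩ ⟨ht, -⟩
    exact mem_ball_pt p R t θ ht.1 (lt_of_le_of_lt ht.2 hsR)

theorem contOn_slice (h : ℂ → ℝ) (p : ℂ) (R s : ℝ) (hs : 0 ≤ s) (hsR : s < R)
    (hh : ContinuousOn h (ball p R)) :
    Continuous (fun θ : ℝ => h (p + (s : ℂ) * Complex.exp (θ * Complex.I))) := by
  apply hh.comp_continuous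
  · fun_prop
  · intro θ
    exact mem_ball_pt p R s θ hs hsR

end Polar1Aux

theorem int_ball_polar (h : ℂ → ℝ) (p : ℂ) (R s : ℝ) (hs : 0 ≤ s) (hsR : s < R) (hh : ContinuousOn h (ball p R)) :
    ∫ z in ball p s, h z = 2 * π * ∫ t in (0 : ℝ)..s, t * cm h p t := by
  have h1 : ∫ z in ball p s, h z = ∫ z, (ball p s).indicator h z :=
    (integral_indicator measurableSet_ball).symm
  have h2 : ∫ z, (ball p s).indicator h z = ∫ z, (ball p s).indicator h (p + z) :=
    (integral_add_left_eq_self _ p).symm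
  have h3 := Complex.integral_comp_polarCoord_symm (fun z => (ball p s).indicator h (p + z))
  rw [h1, h2, ← h3]
  have h4 : ∫ q in polarCoord.target,
      q.1 • (ball p s).indicator h (p + Complex.polarCoord.symm q)
      = ∫ q in Ioo (0 : ℝ) s ×ˢ Ioo (-π) π,
        q.1 * h (p + (q.1 : ℂ) * Complex.exp (q.2 * Complex.I)) := by
    rw [← integral_indicator polarCoord.open_target.measurableSet,
      ← integral_indicator (measurableSet_Ioo.prod measurableSet_Ioo)]
    congr 1
    ext ⟨t, θ⟩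
    have htar : ((t, θ) ∈ polarCoord.target) ↔ (0 < t ∧ θ ∈ Ioo (-π) π) := by
      simp [polarCoord]
    by_cases ht : 0 < t ∧ θ ∈ Ioo (-π) π
    · rw [indicator_of_mem (htar.2 ht)]
      have e1 : Complex.polarCoord.symm (t, θ) = (t : ℂ) * Complex.exp (θ * Complex.I) := by
        rw [Complex.polarCoord_symm_apply, Complex.exp_mul_I]
        push_cast
        ring
      have e2 : ‖(t : ℂ) * Complex.exp (θ * Complex.I)‖ = t := by
        rw [norm_mul, Polar1Aux.norm_exp_mul_I', mul_one, Complex.norm_real, Real.norm_eq_abs,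
          abs_of_pos ht.1]
      simp only [e1, smul_eq_mul]
      by_cases hts : t < s
      · rw [indicator_of_mem (show (t, θ) ∈ Ioo (0 : ℝ) s ×ˢ Ioo (-π) π from ⟨⟨ht.1, hts⟩, ht.2⟩)]
        rw [indicator_of_mem]
        rw [mem_ball, dist_eq_norm, add_sub_cancel_left, e2]
        exact hts
      · rw [indicator_of_notMem (s := Ioo (0 : ℝ) s ×ˢ Ioo (-π) π)
          (fun hh' => hts hh'.1.2)]
        rw [indicator_of_notMem, mul_zero]
        rw [mem_ball, dist_eq_norm, add_sub_cancel_left, e2]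
        exact hts
    · rw [indicator_of_notMem (fun h' => ht (htar.1 h')),
        indicator_of_notMem (fun hh' => ht ⟨hh'.1.1, hh'.2⟩)]
  rw [h4, Measure.volume_eq_prod, setIntegral_prod]
  · have h5 : ∀ t ∈ Ioo (0 : ℝ) s,
        ∫ θ in Ioo (-π) π, t * h (p + (t : ℂ) * Complex.exp (θ * Complex.I))
        = 2 * π * (t * cm h p t) := by
      intro t ht
      rw [integral_const_mul, ← integral_Ioc_eq_integral_Ioo,
        ← intervalIntegral.integral_of_le (by linarith [Real.pi_pos]), Polar1Aux.cm_symm]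
      ring
    rw [setIntegral_congr_fun measurableSet_Ioo h5, integral_const_mul,
      intervalIntegral.integral_of_le hs, ← integral_Ioc_eq_integral_Ioo]
  · apply IntegrableOn.mono_set (t := Icc (0 : ℝ) s ×ˢ Icc (-π) π)
    · apply ContinuousOn.integrableOn_compact (isCompact_Icc.prod isCompact_Icc)
      exact continuous_fst.continuousOn.mul (Polar1Aux.contOn_pair h p R s hsR hh _)
    · exact prod_mono Ioo_subset_Icc_self Ioo_subset_Icc_self

theorem continuousOn_cm (h : ℂ → ℝ) (p : ℂ) (R : ℝ) (hh : ContinuousOn h (ball p R)) :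
    ContinuousOn (cm h p) (Ico 0 R) := by
  rw [continuousOn_iff_continuous_domRestrict]
  show Continuous fun t : Ico (0 : ℝ) R => cm h p t
  unfold cm
  apply Continuous.mul continuous_const
  apply intervalIntegral.continuous_parametric_intervalIntegral_of_continuous'
  apply hh.comp_continuous
  · fun_prop
  · rintro ⟨⟨t, ht⟩, θ⟩
    exact Polar1Aux.mem_ball_pt p R t θ ht.1 ht.2

theorem cm_zero (h : ℂ → ℝ) (p : ℂ) : cm h p 0 = h p := by
  unfold cm
  have : (2 * π) ≠ 0 := by positivity
  simp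
  field_simp

theorem hasDerivAt_ball (h : ℂ → ℝ) (p : ℂ) (R s : ℝ) (hs : 0 < s) (hsR : s < R)
    (hh : ContinuousOn h (ball p R)) :
    HasDerivAt (fun t => ∫ z in ball p t, h z) (2 * π * s * cm h p s) s := by
  have hc : ContinuousOn (fun t => t * cm h p t) (Ico 0 R) :=
    continuousOn_id.mul (continuousOn_cm h p R hh)
  have hd : HasDerivAt (fun t => ∫ r in (0 : ℝ)..t, r * cm h p r) (s * cm h p s) s := by
    apply intervalIntegral.integral_hasDerivAt_right
    · apply ContinuousOn.intervalIntegrable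
      apply hc.mono
      rw [uIcc_of_le hs.le]
      exact fun x hx => ⟨hx.1, lt_of_le_of_lt hx.2 hsR⟩
    · exact (hc.mono Ioo_subset_Ico_self).stronglyMeasurableAtFilter isOpen_Ioo s ⟨hs, hsR⟩
    · exact (hc.mono Ioo_subset_Ico_self).continuousAt (Ioo_mem_nhds hs hsR)
  have h2 : HasDerivAt (fun t => 2 * π * ∫ r in (0 : ℝ)..t, r * cm h p r)
      (2 * π * (s * cm h p s)) s := hd.const_mul _
  have h3 : (fun t => ∫ z in ball p t, h z) =ᶠ[𝓝 s]
      (fun t => 2 * π * ∫ r in (0 : ℝ)..t, r * cm h p r) := by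
    filter_upwards [Ioo_mem_nhds hs hsR] with t ht
    exact int_ball_polar h p R t ht.1.le ht.2 hh
  have h4 := h2.congr_of_eventuallyEq h3
  have e5 : 2 * π * s * cm h p s = 2 * π * (s * cm h p s) := by ring
  rw [e5]
  exact h4

theorem cm_mono (g h : ℂ → ℝ) (p : ℂ) (R s : ℝ) (hs : 0 ≤ s) (hsR : s < R) (hg : ContinuousOn g (ball p R))
    (hh : ContinuousOn h (ball p R)) (hgh : ∀ z, ‖z - p‖ = s → g z ≤ h z) : cm g p s ≤ cm h p s := by
  unfold cm
  apply mul_le_mul_of_nonneg_left
  · apply intervalIntegral.integral_mono_on (by positivity)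
    · exact (Polar1Aux.contOn_slice g p R s hs hsR hg).intervalIntegrable _ _
    · exact (Polar1Aux.contOn_slice h p R s hs hsR hh).intervalIntegrable _ _
    · intro θ _
      apply hgh
      rw [add_sub_cancel_left, norm_mul, Polar1Aux.norm_exp_mul_I', mul_one, Complex.norm_real,
        Real.norm_eq_abs, abs_of_nonneg hs]
  · positivity

theorem cm_const (k : ℝ) (p : ℂ) (s : ℝ) : cm (fun _ => k) p s = k := by
  unfold cm
  have : (2 * π) ≠ 0 := by positivity
  simp
  field_simp

end AO

end
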