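import Pool.Agent.Lib.AO.Calc

/-
STUB Pomp2 / Pomp (library AO, MP_7bfba2_an). Replace the sorries, keep the statements.
pompeiu (Cauchy-Pompeiu for compactly supported C¹ functions):  F(z) = (1/π) ∫ cb F(ζ)/(z - ζ).
 Proof: polar coordinates ζ = z + r e^{iθ}: cb F(ζ) = (e^{iθ}/2)(∂_r F + (i/r) ∂_θ F), so cb F(ζ)/(ζ - z) · r = (1/2)(∂_r F + (i/r) ∂_θ F), integrated over θ the
 second term vanishes (periodicity), and ∫_0^∞ ∂_r F dr = -F(z).  So ∫ cb F/(ζ - z) = -π F(z).  (Complex.integral_comp_polarCoord_symm; the integrand is integrable since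
 |cb F| is bounded with compact support and 1/|ζ - z| is locally integrable.  The term (i/(2r)) ∂_θ F is bounded, as ∂_θ F = r DF(i e^{iθ}).)
int_cz_zero: the integral of dx or dy of a compactly supported C¹ function vanishes (Fubini, or integral_eq_zero lemmas for compactly supported functions).
parts_cz: ∫ cz f * g = -∫ f * cz g for f, g in C¹, one of them with compact support (cz_mul, int_cz_zero).
-/

set_option autoImplicit false

open Complex MeasureTheory Set Metric Filter
open scoped Real ContDiff Topology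

noncomputable section

namespace AO

namespace Pomp2Aux

theorem cont_fd {f : ℂ → ℂ} (hf : ContDiff ℝ 1 f) (v : ℂ) :
    Continuous fun x => fderiv ℝ f x v :=
  (hf.continuous_fderiv one_ne_zero).clm_apply continuous_const

theorem int_fd_zero (f : ℂ → ℂ) (hf : ContDiff ℝ 1 f) (hc : HasCompactSupport f) (v : ℂ) :
    ∫ x, fderiv ℝ f x v = 0 := by
  have h := integral_mul_fderiv_eq_neg_fderiv_mul_of_integrable (μ := (volume : Measure ℂ))
    (f := fun _ : ℂ => (1 : ℂ)) (g := f) (v := v)
    (by simp)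
    (by
      simp only [one_mul]
      exact (cont_fd hf v).integrable_of_hasCompactSupport (hc.fderiv_apply (𝕜 := ℝ) v))
    (by
      simp only [one_mul]
      exact hf.continuous.integrable_of_hasCompactSupport hc)
    (fun x _ => differentiableAt_const _)
    (fun x _ => hf.differentiable one_ne_zero x)
  simpa using h

theorem cont_cz {f : ℂ → ℂ} (hf : ContDiff ℝ 1 f) : Continuous (cz f) := by
  have h1 := cont_fd hf 1
  have h2 := cont_fd hf Complex.I
  exact (h1.sub (continuous_const.mul h2)).div_const 2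

theorem supp_cz {f : ℂ → ℂ} (hc : HasCompactSupport f) : HasCompactSupport (cz f) := by
  have h1 : HasCompactSupport (fderiv ℝ f) := hc.fderiv (𝕜 := ℝ)
  refine h1.mono ?_
  intro x hx h2
  apply hx
  show (fderiv ℝ f x 1 - Complex.I * fderiv ℝ f x Complex.I) / 2 = 0
  rw [h2]
  simp

end Pomp2Aux

open Pomp2Aux

theorem int_cz_zero (f : ℂ → ℂ) (hf : ContDiff ℝ 1 f) (hc : HasCompactSupport f) : ∫ ζ, cz f ζ = 0 := by
  have h1 := int_fd_zero f hf hc 1
  have h2 := int_fd_zero f hf hc Complex.I
  have i1 : Integrable fun x => fderiv ℝ f x 1 :=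
    (cont_fd hf 1).integrable_of_hasCompactSupport (hc.fderiv_apply (𝕜 := ℝ) 1)
  have i2 : Integrable fun x => fderiv ℝ f x Complex.I :=
    (cont_fd hf Complex.I).integrable_of_hasCompactSupport (hc.fderiv_apply (𝕜 := ℝ) Complex.I)
  have h3 : ∫ ζ, cz f ζ = ∫ ζ, (fderiv ℝ f ζ 1 - Complex.I * fderiv ℝ f ζ Complex.I) / 2 := rfl
  rw [h3, integral_div, integral_sub i1 (i2.const_mul _), integral_const_mul, h1, h2]
  simp

theorem parts_cz (f g : ℂ → ℂ) (hf : ContDiff ℝ 1 f) (hg : ContDiff ℝ 1 g) (hc : HasCompactSupport g) :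
    ∫ ζ, cz f ζ * g ζ = -∫ ζ, f ζ * cz g ζ := by
  have hfg : ContDiff ℝ 1 fun w => f w * g w := hf.mul hg
  have hcfg : HasCompactSupport fun w => f w * g w := hc.mul_left
  have h1 := int_cz_zero _ hfg hcfg
  have i1 : Integrable fun ζ => cz f ζ * g ζ :=
    ((cont_cz hf).mul hg.continuous).integrable_of_hasCompactSupport hc.mul_left
  have i2 : Integrable fun ζ => f ζ * cz g ζ :=
    (hf.continuous.mul (cont_cz hg)).integrable_of_hasCompactSupport (supp_cz hc).mul_left
  have h2 : ∫ ζ, cz (fun w => f w * g w) ζ = ∫ ζ, (cz f ζ * g ζ + f ζ * cz g ζ) := by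
    refine integral_congr_ae (Eventually.of_forall fun ζ => ?_)
    exact cz_mul f g ζ (hf.differentiable one_ne_zero ζ) (hg.differentiable one_ne_zero ζ)
  rw [h2, integral_add i1 i2] at h1
  exact eq_neg_of_add_eq_zero_left h1

end AO

end
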