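import Pool.Agent.Lib.AO.Calc
import Pool.Agent.Lib.AO.Radial

/-
STUB Pomp1 / Pomp (library AO, MP_7bfba2_an). Replace the sorries, keep the statements.
pompeiu (Cauchy-Pompeiu for compactly supported C¹ functions):  F(z) = (1/π) ∫ cb F(ζ)/(z - ζ).
 Proof: polar coordinates ζ = z + r e^{iθ}: cb F(ζ) = (e^{iθ}/2)(∂_r F + (i/r) ∂_θ F), so cb F(ζ)/(ζ - z) · r = (1/2)(∂_r F + (i/r) ∂_θ F), integrated over θ the
 second term vanishes (periodicity), and ∫_0^∞ ∂_r F dr = -F(z).  So ∫ cb F/(ζ - z) = -π F(z).  (Complex.integral_comp_polarCoord_symm; the integrand is integrable since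
 |cb F| is bounded with compact support and 1/|ζ - z| is locally integrable.  The term (i/(2r)) ∂_θ F is bounded, as ∂_θ F = r DF(i e^{iθ}).)
int_cz_zero: the integral of dx or dy of a compactly supported C¹ function vanishes (Fubini, or integral_eq_zero lemmas for compactly supported functions).
parts_cz: ∫ cz f * g = -∫ f * cz g for f, g in C¹, one of them with compact support (cz_mul, int_cz_zero).
-/

set_option autoImplicit false

open Complex MeasureTheory Set Metric Filter
open scoped Real ContDiff Topology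

noncomputable section

namespace AO

namespace Pomp1Aux

theorem exists_radius (g : ℂ → ℂ) (hc : HasCompactSupport g) (z : ℂ) :
    ∃ R : ℝ, 0 < R ∧ ∀ w, R ≤ ‖w‖ → g (z + w) = 0 := by
  obtain ⟨r, hr⟩ := hc.isCompact.isBounded.subset_ball z
  refine ⟨max r 1, by positivity, fun w hw => ?_⟩
  by_contra hne
  have h1 : z + w ∈ tsupport g := subset_tsupport _ hne
  have h2 := hr h1
  rw [mem_ball, dist_eq_norm, add_sub_cancel_left] at h2
  have := le_max_left r 1
  linarith

theorem int_polar (A : ℝ × ℝ → ℂ) (hA : Continuous A) (R : ℝ) (hR : 0 < R)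
    (hz : ∀ r θ, R ≤ r → A (r, θ) = 0) :
    IntegrableOn A (Ioi 0 ×ˢ Ioo (-π) π) ∧
    ∫ p in Ioi (0 : ℝ) ×ˢ Ioo (-π) π, A p = ∫ r in (0 : ℝ)..R, ∫ θ in (-π)..π, A (r, θ) := by
  have hsub : Ioc 0 R ×ˢ Ioo (-π) π ⊆ Icc 0 R ×ˢ Icc (-π) π :=
    prod_mono Ioc_subset_Icc_self Ioo_subset_Icc_self
  have h1 : IntegrableOn A (Ioc 0 R ×ˢ Ioo (-π) π) :=
    (hA.continuousOn.integrableOn_compact (isCompact_Icc.prod isCompact_Icc)).mono_set hsub
  have hms : MeasurableSet (Ioi (0 : ℝ) ×ˢ Ioo (-π) π) := measurableSet_Ioi.prod measurableSet_Ioo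
  have hd : ∀ x ∈ (Ioi (0 : ℝ) ×ˢ Ioo (-π) π) \ (Ioc 0 R ×ˢ Ioo (-π) π), A x = 0 := by
    rintro ⟨r, θ⟩ ⟨⟨h2, h3⟩, h4⟩
    apply hz
    by_contra h5
    exact h4 ⟨⟨h2, (not_le.1 h5).le⟩, h3⟩
  have hss : Ioc 0 R ×ˢ Ioo (-π) π ⊆ Ioi (0 : ℝ) ×ˢ Ioo (-π) π :=
    prod_mono (fun x hx => hx.1) subset_rfl
  refine ⟨h1.of_forall_diff_eq_zero hms hd, ?_⟩
  rw [setIntegral_eq_of_subset_of_forall_diff_eq_zero hms hss hd]
  rw [intervalIntegral.integral_of_le hR.le]
  have hfub := setIntegral_prod (μ := (volume : Measure ℝ)) (ν := (volume : Measure ℝ)) A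
    (s := Ioc 0 R) (t := Ioo (-π) π) (by rwa [← Measure.volume_eq_prod])
  rw [Measure.volume_eq_prod, hfub]
  refine setIntegral_congr_fun measurableSet_Ioc fun r _ => ?_
  show _ = ∫ θ in (-π)..π, A (r, θ)
  rw [intervalIntegral.integral_of_le (by linarith [Real.pi_pos]), integral_Ioc_eq_integral_Ioo]

theorem hasDerivAt_r (f : ℂ → ℂ) (hf : ContDiff ℝ 1 f) (z : ℂ) (r θ : ℝ) :
    HasDerivAt (fun r : ℝ => f (z + r * Complex.exp (θ * I)))
      (fderiv ℝ f (z + r * Complex.exp (θ * I)) (Complex.exp (θ * I))) r := by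
  have h1 : HasDerivAt (fun r : ℝ => z + (r : ℂ) * Complex.exp (θ * I)) (Complex.exp (θ * I)) r := by
    have := ((hasDerivAt_id r).ofReal_comp.mul_const (Complex.exp (θ * I))).const_add z
    simpa using this
  exact ((hf.differentiable one_ne_zero _).hasFDerivAt).comp_hasDerivAt r h1

theorem hasDerivAt_t (f : ℂ → ℂ) (hf : ContDiff ℝ 1 f) (z : ℂ) (r θ : ℝ) :
    HasDerivAt (fun θ : ℝ => f (z + r * Complex.exp (θ * I)))
      ((r : ℂ) * fderiv ℝ f (z + r * Complex.exp (θ * I)) (I * Complex.exp (θ * I))) θ := by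
  have h0 : HasDerivAt (fun θ : ℝ => Complex.exp (θ * I)) (Complex.exp (θ * I) * I) θ := by
    have := ((hasDerivAt_id θ).ofReal_comp.mul_const I).cexp
    simpa using this
  have h1 : HasDerivAt (fun θ : ℝ => z + (r : ℂ) * Complex.exp (θ * I))
      ((r : ℂ) * (Complex.exp (θ * I) * I)) θ := (h0.const_mul (r : ℂ)).const_add z
  have h2 := ((hf.differentiable one_ne_zero (z + r * Complex.exp (θ * I))).hasFDerivAt).comp_hasDerivAt
    θ h1
  have e : fderiv ℝ f (z + r * Complex.exp (θ * I)) ((r : ℂ) * (Complex.exp (θ * I) * I))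
      = (r : ℂ) * fderiv ℝ f (z + r * Complex.exp (θ * I)) (I * Complex.exp (θ * I)) := by
    have e1 : (r : ℂ) * (Complex.exp (θ * I) * I) = r • (I * Complex.exp (θ * I)) := by
      rw [Complex.real_smul]; ring
    rw [e1, map_smul, Complex.real_smul]
  rw [← e]
  exact h2

theorem int_A (f : ℂ → ℂ) (hf : ContDiff ℝ 1 f) (z : ℂ) (R : ℝ)
    (hz : ∀ w, R ≤ ‖w‖ → f (z + w) = 0) (hR : 0 < R) :
    ∫ r in (0 : ℝ)..R, ∫ θ in (-π)..π,
      fderiv ℝ f (z + r * Complex.exp (θ * I)) (Complex.exp (θ * I)) = -(2 * π) * f z := by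
  have hc : Continuous fun p : ℝ × ℝ =>
      fderiv ℝ f (z + p.1 * Complex.exp (p.2 * I)) (Complex.exp (p.2 * I)) := by
    have h1 : Continuous (fderiv ℝ f) := hf.continuous_fderiv one_ne_zero
    exact (h1.comp (by fun_prop)).clm_apply (by fun_prop)
  rw [intervalIntegral_intervalIntegral_swap (F := fun r θ : ℝ =>
      fderiv ℝ f (z + r * Complex.exp (θ * I)) (Complex.exp (θ * I)))]
  · have h1 : ∀ θ : ℝ, ∫ r in (0 : ℝ)..R,
        fderiv ℝ f (z + r * Complex.exp (θ * I)) (Complex.exp (θ * I)) = - f z := by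
      intro θ
      rw [intervalIntegral.integral_eq_sub_of_hasDerivAt
        (f := fun r : ℝ => f (z + r * Complex.exp (θ * I)))
        (fun r _ => hasDerivAt_r f hf z r θ)]
      · have : f (z + (R : ℂ) * Complex.exp (θ * I)) = 0 := by
          apply hz
          rw [norm_mul, Complex.norm_exp_ofReal_mul_I, mul_one, Complex.norm_real,
            Real.norm_eq_abs, abs_of_pos hR]
        rw [this]; simp
      · apply Continuous.intervalIntegrable
        exact hc.comp (by fun_prop : Continuous fun r : ℝ => (r, θ))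
    simp only [h1]
    rw [intervalIntegral.integral_const]
    simp only [sub_neg_eq_add, Complex.real_smul]
    push_cast
    ring
  · have : IntegrableOn (fun p : ℝ × ℝ =>
      fderiv ℝ f (z + p.1 * Complex.exp (p.2 * I)) (Complex.exp (p.2 * I)))
        (uIcc 0 R ×ˢ uIcc (-π) π) :=
      hc.continuousOn.integrableOn_compact (isCompact_uIcc.prod isCompact_uIcc)
    exact this.mono_set (prod_mono uIoc_subset_uIcc uIoc_subset_uIcc)

theorem int_B (f : ℂ → ℂ) (hf : ContDiff ℝ 1 f) (z : ℂ) (r : ℝ) (hr : r ≠ 0) :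
    ∫ θ in (-π)..π, I * fderiv ℝ f (z + r * Complex.exp (θ * I)) (I * Complex.exp (θ * I)) = 0 := by
  have hc : Continuous fun θ : ℝ =>
      fderiv ℝ f (z + r * Complex.exp (θ * I)) (I * Complex.exp (θ * I)) := by
    have h1 : Continuous (fderiv ℝ f) := hf.continuous_fderiv one_ne_zero
    exact (h1.comp (by fun_prop)).clm_apply (by fun_prop)
  have h1 : ∫ θ in (-π)..π,
      (r : ℂ) * fderiv ℝ f (z + r * Complex.exp (θ * I)) (I * Complex.exp (θ * I)) = 0 := by
    rw [intervalIntegral.integral_eq_sub_of_hasDerivAt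
        (f := fun θ : ℝ => f (z + r * Complex.exp (θ * I)))
        (fun θ _ => hasDerivAt_t f hf z r θ)]
    · have : Complex.exp (((-π : ℝ) : ℂ) * I) = Complex.exp ((π : ℂ) * I) := by
        rw [Complex.exp_pi_mul_I]
        push_cast
        rw [neg_mul, Complex.exp_neg, Complex.exp_pi_mul_I]
        norm_num
      rw [this, sub_self]
    · exact (continuous_const.mul hc).intervalIntegrable _ _
  rw [intervalIntegral.integral_const_mul] at h1 ⊢
  rcases mul_eq_zero.1 h1 with h2 | h2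
  · exact absurd (by exact_mod_cast h2) hr
  · rw [h2, mul_zero]

end Pomp1Aux

theorem integrable_pomp (g : ℂ → ℂ) (hg : Continuous g) (hc : HasCompactSupport g) (z : ℂ) :
    Integrable (fun ζ => g ζ / (z - ζ)) := by
  obtain ⟨R, hR, hz⟩ := Pomp1Aux.exists_radius g hc z
  obtain ⟨M, hM⟩ := hg.bounded_above_of_compact_support hc
  have h1 := (int_inv z R hR.le).2
  have hsupp : Function.support (fun ζ => g ζ / (z - ζ)) ⊆ ball z R := by
    intro ζ hζ
    by_contra hn
    apply hζ
    have : g ζ = 0 := by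
      have := hz (ζ - z) (by rw [← dist_eq_norm]; simpa using hn)
      rwa [add_sub_cancel] at this
    show g ζ / (z - ζ) = 0
    rw [this, zero_div]
  rw [← integrableOn_iff_integrable_of_support_subset hsupp]
  refine Integrable.mono' (g := fun y => M * ‖y - z‖⁻¹) (h1.const_mul M) ?_ ?_
  · exact (hg.measurable.div (measurable_const.sub measurable_id)).aestronglyMeasurable
  · refine Filter.Eventually.of_forall fun ζ => ?_
    rw [norm_div, div_eq_mul_inv, norm_sub_rev]
    exact mul_le_mul_of_nonneg_right (hM ζ) (by positivity)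

theorem pompeiu (f : ℂ → ℂ) (hf : ContDiff ℝ 1 f) (hc : HasCompactSupport f) (z : ℂ) :
    f z = (1 / π : ℝ) * ∫ ζ, cb f ζ / (z - ζ) := by
  obtain ⟨R, hR, hz⟩ := Pomp1Aux.exists_radius f hc z
  obtain ⟨R', hR', hz'⟩ := Pomp1Aux.exists_radius (fun w => f w) hc z
  have hfd : ∀ w, R < ‖w‖ → fderiv ℝ f (z + w) = 0 := by
    intro w hw
    have : f =ᶠ[𝓝 (z + w)] fun _ => 0 := by
      have ho : IsOpen {y : ℂ | R < ‖y - z‖} := isOpen_lt continuous_const (by fun_prop)
      filter_upwards [ho.mem_nhds (by simpa using hw : z + w ∈ {y : ℂ | R < ‖y - z‖})] with y hy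
      have := hz (y - z) (le_of_lt hy)
      rwa [add_sub_cancel] at this
    rw [this.fderiv_eq]
    simp
  have hcd : Continuous (fderiv ℝ f) := hf.continuous_fderiv one_ne_zero
  set A : ℝ × ℝ → ℂ := fun p =>
    fderiv ℝ f (z + p.1 * Complex.exp (p.2 * I)) (Complex.exp (p.2 * I)) with hA
  set B : ℝ × ℝ → ℂ := fun p =>
    I * fderiv ℝ f (z + p.1 * Complex.exp (p.2 * I)) (I * Complex.exp (p.2 * I)) with hB
  have hAc : Continuous A := (hcd.comp (by fun_prop)).clm_apply (by fun_prop)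
  have hBc : Continuous B :=
    continuous_const.mul ((hcd.comp (by fun_prop)).clm_apply (by fun_prop))
  have hnorm : ∀ r θ : ℝ, R + 1 ≤ r → R < ‖(r : ℂ) * Complex.exp (θ * I)‖ := by
    intro r θ hr
    rw [norm_mul, Complex.norm_exp_ofReal_mul_I, mul_one, Complex.norm_real,
      Real.norm_eq_abs]
    exact lt_of_lt_of_le (by linarith) (le_abs_self r)
  have hA0 : ∀ r θ, R + 1 ≤ r → A (r, θ) = 0 := by
    intro r θ hr
    simp only [hA]
    rw [hfd _ (hnorm r θ hr)]
    simp
  have hB0 : ∀ r θ, R + 1 ≤ r → B (r, θ) = 0 := by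
    intro r θ hr
    simp only [hB]
    rw [hfd _ (hnorm r θ hr)]
    simp
  obtain ⟨iA, eA⟩ := Pomp1Aux.int_polar A hAc (R + 1) (by linarith) hA0
  obtain ⟨iB, eB⟩ := Pomp1Aux.int_polar B hBc (R + 1) (by linarith) hB0
  have eA' : ∫ p in Ioi (0 : ℝ) ×ˢ Ioo (-π) π, A p = -(2 * π) * f z := by
    rw [eA]
    exact Pomp1Aux.int_A f hf z (R + 1) (fun w hw => hz w (by linarith)) (by linarith)
  have eB' : ∫ p in Ioi (0 : ℝ) ×ˢ Ioo (-π) π, B p = 0 := by
    rw [eB, intervalIntegral.integral_of_le (by linarith : (0:ℝ) ≤ R + 1)]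
    have : ∀ r ∈ Ioc 0 (R + 1), ∫ θ in (-π)..π, B (r, θ) = (fun _ : ℝ => (0 : ℂ)) r :=
      fun r hr => Pomp1Aux.int_B f hf z r hr.1.ne'
    rw [setIntegral_congr_fun measurableSet_Ioc this]
    simp
  have key : ∫ ζ, cb f ζ / (z - ζ) = π * f z := by
    have h1 : ∫ ζ, cb f ζ / (z - ζ) = ∫ w, cb f (z + w) / (-w) := by
      rw [← integral_add_left_eq_self (μ := (volume : Measure ℂ))
        (fun ζ => cb f ζ / (z - ζ)) z]
      refine integral_congr_ae (Filter.Eventually.of_forall fun w => ?_)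
      show cb f (z + w) / (z - (z + w)) = _
      congr 1
      ring
    rw [h1, ← Complex.integral_comp_polarCoord_symm]
    have h2 : ∀ p ∈ Ioi (0 : ℝ) ×ˢ Ioo (-π) π,
        p.1 • (cb f (z + Complex.polarCoord.symm p) / (-Complex.polarCoord.symm p))
          = (-(1 / 2) : ℂ) * (A p + B p) := by
      rintro ⟨r, θ⟩ ⟨hr, -⟩
      have hr : (0 : ℝ) < r := hr
      have hs : Complex.polarCoord.symm (r, θ) = r * Complex.exp (θ * I) := by
        rw [Complex.polarCoord_symm_apply, Complex.exp_mul_I]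
        push_cast
        ring
      have he0 : Complex.exp (θ * I) ≠ 0 := Complex.exp_ne_zero _
      have hr0 : (r : ℂ) ≠ 0 := by exact_mod_cast hr.ne'
      rw [hs]
      simp only [hA, hB]
      rw [fderiv_eq_cz, fderiv_eq_cz, map_mul, Complex.conj_I]
      have hconj : (starRingEnd ℂ) (Complex.exp (θ * I)) = (Complex.exp (θ * I))⁻¹ := by
        rw [← Complex.exp_conj, ← Complex.exp_neg]
        simp
      rw [hconj, Complex.real_smul]
      have hI : I * I = -1 := Complex.I_mul_I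
      field_simp
      ring_nf
      rw [Complex.I_sq]
      ring
    rw [show polarCoord.target = Ioi (0 : ℝ) ×ˢ Ioo (-π) π from rfl,
      setIntegral_congr_fun (measurableSet_Ioi.prod measurableSet_Ioo) h2,
      integral_const_mul, integral_add iA iB, eA', eB']
    ring
  rw [key]
  have : (π : ℂ) ≠ 0 := by exact_mod_cast Real.pi_ne_zero
  push_cast
  field_simp

end AO

end
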