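import Pool.Agent.Lib.AO.Defs

/-!
The one-dimensional radial identity (library AO, MP_7bfba2_an).
-/

set_option autoImplicit false

open Complex MeasureTheory Set Metric Filter
open scoped Real ContDiff Topology

noncomputable section

namespace AO

private theorem prim_cont (η : ℝ) (hη : 0 < η) (g m : ℝ → ℝ) (hg : ContinuousOn g (Icc 0 η))
    (hm : ∀ s ∈ Icc 0 η, m s = 2 * π * ∫ t in (0 : ℝ)..s, t * g t) : ContinuousOn m (Icc 0 η) := by
  have hc : ContinuousOn (fun t => t * g t) (Icc 0 η) := continuousOn_id.mul hg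
  have h1 : ContinuousOn (fun s => ∫ t in (0 : ℝ)..s, t * g t) (Icc 0 η) := by
    have := intervalIntegral.continuousOn_primitive_interval (a := 0) (b := η)
      (f := fun t => t * g t) (μ := volume) (by
        rw [uIcc_of_le hη.le]
        exact hc.integrableOn_compact isCompact_Icc)
    rwa [uIcc_of_le hη.le] at this
  exact (continuousOn_const.mul h1).congr hm

private theorem prim_deriv (η : ℝ) (g m : ℝ → ℝ) (hg : ContinuousOn g (Icc 0 η))
    (hm : ∀ s ∈ Icc 0 η, m s = 2 * π * ∫ t in (0 : ℝ)..s, t * g t) (s : ℝ) (hs : s ∈ Ioo 0 η) :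
    HasDerivAt m (2 * π * s * g s) s := by
  have hc : ContinuousOn (fun t => t * g t) (Icc 0 η) := continuousOn_id.mul hg
  have hd : HasDerivAt (fun t => ∫ r in (0 : ℝ)..t, r * g r) (s * g s) s := by
    apply intervalIntegral.integral_hasDerivAt_right
    · apply ContinuousOn.intervalIntegrable
      apply hc.mono
      rw [uIcc_of_le hs.1.le]
      exact fun x hx => ⟨hx.1, hx.2.trans hs.2.le⟩
    · exact (hc.mono Ioo_subset_Icc_self).stronglyMeasurableAtFilter isOpen_Ioo s hs
    · exact (hc.mono Ioo_subset_Icc_self).continuousAt (Ioo_mem_nhds hs.1 hs.2)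
  have h2 : HasDerivAt (fun t => 2 * π * ∫ r in (0 : ℝ)..t, r * g r)
      (2 * π * (s * g s)) s := hd.const_mul _
  have h3 : m =ᶠ[𝓝 s] (fun t => 2 * π * ∫ r in (0 : ℝ)..t, r * g r) := by
    filter_upwards [Ioo_mem_nhds hs.1 hs.2] with t ht
    exact hm t ⟨ht.1.le, ht.2.le⟩
  have h4 := h2.congr_of_eventuallyEq h3
  have e5 : 2 * π * s * g s = 2 * π * (s * g s) := by ring
  rw [e5]
  exact h4

theorem radial_1d (η : ℝ) (hη : 0 < η) (ub fb gb m W : ℝ → ℝ) (hub : ContinuousOn ub (Icc 0 η))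
    (hfb : ContinuousOn fb (Icc 0 η)) (hgb : ContinuousOn gb (Icc 0 η))
    (hm : ∀ s ∈ Icc 0 η, m s = 2 * π * ∫ t in (0 : ℝ)..s, t * fb t)
    (hW : ∀ s ∈ Icc 0 η, W s = 2 * π * ∫ t in (0 : ℝ)..s, t * gb t)
    (hd : ∀ s ∈ Ioo 0 η, HasDerivAt ub (-(m s + W s) / (2 * π * s)) s) :
    m η * (8 * π - m η) = 8 * π ^ 2 * η ^ 2 * Real.exp (ub η) +
      2 * (∫ s in (0 : ℝ)..η, W s * (2 * π * s * fb s)) +
      2 * ∫ s in (0 : ℝ)..η, (4 * π - m s - W s) * (2 * π * s * (fb s - Real.exp (ub s))) := by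
  have hmc : ContinuousOn m (Icc 0 η) := prim_cont η hη fb m hfb hm
  have hWc : ContinuousOn W (Icc 0 η) := prim_cont η hη gb W hgb hW
  have hec : ContinuousOn (fun s => Real.exp (ub s)) (Icc 0 η) :=
    Real.continuous_exp.comp_continuousOn hub
  have hsc : ContinuousOn (fun s : ℝ => 2 * π * s) (Icc 0 η) := by fun_prop
  have hf1 : ContinuousOn (fun s => W s * (2 * π * s * fb s)) (Icc 0 η) :=
    hWc.mul (hsc.mul hfb)
  have hf2 : ContinuousOn (fun s => (4 * π - m s - W s) * (2 * π * s * (fb s - Real.exp (ub s)))) (Icc 0 η) :=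
    ((continuousOn_const.sub hmc).sub hWc).mul (hsc.mul (hfb.sub hec))
  have hi1 : IntervalIntegrable (fun s => W s * (2 * π * s * fb s)) volume 0 η := by
    apply ContinuousOn.intervalIntegrable
    rwa [uIcc_of_le hη.le]
  have hi2 : IntervalIntegrable (fun s => (4 * π - m s - W s) * (2 * π * s * (fb s - Real.exp (ub s)))) volume 0 η := by
    apply ContinuousOn.intervalIntegrable
    rwa [uIcc_of_le hη.le]
  have key := intervalIntegral.integral_eq_sub_of_hasDerivAt_of_le (a := 0) (b := η)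
    (f := fun s => m s * (8 * π - m s) - 8 * π ^ 2 * (s ^ 2 * Real.exp (ub s)))
    (f' := fun s => 2 * (W s * (2 * π * s * fb s)) +
      2 * ((4 * π - m s - W s) * (2 * π * s * (fb s - Real.exp (ub s))))) hη.le
    ((hmc.mul (continuousOn_const.sub hmc)).sub
      (continuousOn_const.mul ((continuousOn_pow 2).mul hec))) (by
      intro s hs
      have hs0 : s ≠ 0 := hs.1.ne'
      have hpi : π ≠ 0 := Real.pi_pos.ne'
      have d1 := prim_deriv η fb m hfb hm s hs
      have d2 : HasDerivAt (fun s => Real.exp (ub s)) (Real.exp (ub s) * (-(m s + W s) / (2 * π * s))) s :=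
        (hd s hs).exp
      have d3 : HasDerivAt (fun s : ℝ => s ^ 2) (2 * s) s := by
        simpa using hasDerivAt_pow 2 s
      have d4 := (d1.mul (d1.const_sub (8 * π))).sub ((d3.mul d2).const_mul (8 * π ^ 2))
      refine d4.congr_deriv ?_
      field_simp
      ring)
    ((hi1.const_mul 2).add (hi2.const_mul 2))
  rw [intervalIntegral.integral_add (hi1.const_mul 2) (hi2.const_mul 2),
    intervalIntegral.integral_const_mul, intervalIntegral.integral_const_mul] at key
  have hm0 : m 0 = 0 := by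
    rw [hm 0 ⟨le_rfl, hη.le⟩]
    simp
  simp only [hm0] at key
  linarith

end AO

end
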