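import Pool.Agent.Lib.AO.Defs

/-
STUB Radial1 / Radial (library AO, MP_7bfba2_an). Replace the sorries, keep the statements.
Integrals of radial functions in the plane.
int_ball_radial: MeasureTheory.integral_fun_norm_addHaar (finrank 2, volume (ball 0 1) = π; Complex.volume_ball) applied to the function
s -> indicator (s < r) g s, after the translation y -> y - x; or Complex.integral_comp_polarCoord_symm.
The others are one dimensional integrals: ∫_0^r s * s⁻¹ = r, ∫_0^r s/(s √s) = 2 √r, ∫_0^r s log(r/s) = r²/4,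
∫_0^r s 8ε²/(ε²+s²)² = 4 r²/(ε²+r²) (antiderivative 4 s²/(ε²+s²)).
conv_bound: √‖z-p‖ <= √‖ζ-p‖ + √‖z-ζ‖, so √‖z-p‖ /(‖ζ-p‖ ‖z-ζ‖) <= 1/(√‖ζ-p‖ ‖z-ζ‖) + 1/(‖ζ-p‖ √‖z-ζ‖) <= 2 (‖ζ-p‖^(-3/2) + ‖z-ζ‖^(-3/2))
(Young: x y² <= x³ + y³ for x, y >= 0); ball p δ is contained in ball z (2δ); int_inv32 gives <= 2 (4π√δ + 4π√(2δ)).
f0_conv: put D = ‖x-p‖.  On ‖y-x‖ >= D/2 the integrand is <= (2/D) f0, total <= (2/D) 8π.  On ball x (D/2): ‖y-p‖ >= D/2, so
f0 <= 8ε²/(ε²+D²/4)² and the integral is <= 2π(D/2) 8ε²/(ε²+D²/4)² <= C/D because ε² D² <= (ε²+D²)² <= 16 (ε²+D²/4)².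
-/

set_option autoImplicit false

open Complex MeasureTheory Set Metric Filter
open scoped Real ContDiff Topology

noncomputable section

namespace AO

namespace Radial1Aux

theorem ind_eq (g : ℝ → ℝ) (x : ℂ) (r : ℝ) (y : ℂ) :
    (ball x r).indicator (fun y => g ‖y - x‖) y = (Iio r).indicator g ‖y - x‖ := by
  by_cases hy : y ∈ ball x r
  · have h1 : ‖y - x‖ ∈ Iio r := by
      rw [mem_ball, dist_eq_norm] at hy
      exact hy
    rw [indicator_of_mem hy, indicator_of_mem h1]
  · have h1 : ‖y - x‖ ∉ Iio r := by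
      rw [mem_ball, dist_eq_norm] at hy
      exact hy
    rw [indicator_of_notMem hy, indicator_of_notMem h1]

theorem ind_smul (g : ℝ → ℝ) (r s : ℝ) :
    s ^ (2 - 1) • (Iio r).indicator g s = (Iio r).indicator (fun s => s * g s) s := by
  by_cases hs : s ∈ Iio r
  · rw [indicator_of_mem hs, indicator_of_mem hs]
    simp
  · rw [indicator_of_notMem hs, indicator_of_notMem hs]
    simp

theorem finrank_C : Module.finrank ℝ ℂ = 2 := Complex.finrank_real_complex

theorem vol_C : (volume : Measure ℂ).real (ball 0 1) = π := by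
  rw [measureReal_def, Complex.volume_ball]
  simp

theorem ii_congr {f g : ℝ → ℝ} {r : ℝ} (hr : 0 ≤ r) (h : ∀ s ∈ Ioc 0 r, f s = g s) :
    ∫ s in (0 : ℝ)..r, f s = ∫ s in (0 : ℝ)..r, g s := by
  rw [intervalIntegral.integral_of_le hr, intervalIntegral.integral_of_le hr]
  exact setIntegral_congr_fun measurableSet_Ioc h

end Radial1Aux

open Radial1Aux

theorem int_ball_radial (g : ℝ → ℝ) (x : ℂ) (r : ℝ) (hr : 0 ≤ r) :
    ∫ y in ball x r, g ‖y - x‖ = 2 * π * ∫ s in (0 : ℝ)..r, s * g s := by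
  have h1 : ∫ y in ball x r, g ‖y - x‖ = ∫ y : ℂ, (Iio r).indicator g ‖y - x‖ := by
    rw [← integral_indicator measurableSet_ball]
    exact integral_congr_ae (Eventually.of_forall fun y => ind_eq g x r y)
  have h2 : ∫ y : ℂ, (Iio r).indicator g ‖y - x‖ = ∫ y : ℂ, (Iio r).indicator g ‖y‖ :=
    integral_sub_right_eq_self (fun y : ℂ => (Iio r).indicator g ‖y‖) x
  rw [h1, h2, integral_fun_norm_addHaar volume ((Iio r).indicator g), finrank_C, vol_C]
  have h3 : ∫ s in Ioi (0 : ℝ), s ^ (2 - 1) • (Iio r).indicator g s =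
      ∫ s in (0 : ℝ)..r, s * g s := by
    rw [intervalIntegral.integral_of_le hr, integral_Ioc_eq_integral_Ioo]
    have h4 : ∀ s : ℝ, s ^ (2 - 1) • (Iio r).indicator g s =
      (Iio r).indicator (fun s => s * g s) s := fun s => ind_smul g r s
    simp only [h4]
    rw [setIntegral_indicator measurableSet_Iio]
    rfl
  rw [h3]
  simp only [nsmul_eq_mul, smul_eq_mul]
  push_cast
  ring

theorem integrableOn_ball_radial (g : ℝ → ℝ) (x : ℂ) (r : ℝ) (hr : 0 ≤ r)
    (hg : IntegrableOn (fun s => s * g s) (Ioo 0 r)) : IntegrableOn (fun y => g ‖y - x‖) (ball x r) := by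
  rw [← integrable_indicator_iff measurableSet_ball]
  have h1 : (ball x r).indicator (fun y => g ‖y - x‖) =
      fun y => (fun y : ℂ => (Iio r).indicator g ‖y‖) (y - x) := by
    funext y
    exact ind_eq g x r y
  rw [h1]
  suffices h6 : Integrable (fun y : ℂ => (Iio r).indicator g ‖y‖) volume from h6.comp_sub_right x
  rw [integrable_fun_norm_addHaar volume, finrank_C]
  have h4 : (fun s : ℝ => s ^ (2 - 1) • (Iio r).indicator g s) =
      (Iio r).indicator (fun s => s * g s) := by
    funext s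
    exact ind_smul g r s
  rw [h4, IntegrableOn, integrable_indicator_iff measurableSet_Iio, IntegrableOn,
    Measure.restrict_restrict measurableSet_Iio]
  have h5 : Iio r ∩ Ioi (0 : ℝ) = Ioo 0 r := by
    ext s
    constructor
    · rintro ⟨h6, h7⟩
      exact ⟨h7, h6⟩
    · rintro ⟨h6, h7⟩
      exact ⟨h7, h6⟩
  rw [h5]
  exact hg

theorem int_inv (x : ℂ) (r : ℝ) (hr : 0 ≤ r) :
    ∫ y in ball x r, ‖y - x‖⁻¹ = 2 * π * r ∧ IntegrableOn (fun y => ‖y - x‖⁻¹) (ball x r) := by
  constructor
  · rw [int_ball_radial (fun s => s⁻¹) x r hr]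
    rw [ii_congr hr (g := fun _ => (1 : ℝ)) fun s hs => mul_inv_cancel₀ hs.1.ne']
    simp
  · refine integrableOn_ball_radial (fun s => s⁻¹) x r hr ?_
    have h1 : IntegrableOn (fun _ : ℝ => (1 : ℝ)) (Ioo 0 r) := by
      simp
    exact h1.congr_fun (fun s hs => (mul_inv_cancel₀ hs.1.ne').symm) measurableSet_Ioo

theorem int_inv32 (x : ℂ) (r : ℝ) (hr : 0 ≤ r) :
    ∫ y in ball x r, (‖y - x‖ * √‖y - x‖)⁻¹ = 4 * π * √r ∧
      IntegrableOn (fun y => (‖y - x‖ * √‖y - x‖)⁻¹) (ball x r) := by
  have key : ∀ s : ℝ, 0 < s → s * (s * √s)⁻¹ = s ^ (-(1 / 2) : ℝ) := by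
    intro s hs
    rw [Real.rpow_neg hs.le, ← Real.sqrt_eq_rpow, mul_inv, ← mul_assoc,
      mul_inv_cancel₀ hs.ne', one_mul]
  constructor
  · rw [int_ball_radial (fun s => (s * √s)⁻¹) x r hr]
    rw [ii_congr hr (g := fun s => s ^ (-(1 / 2) : ℝ)) fun s hs => key s hs.1]
    rw [integral_rpow (Or.inl (by norm_num))]
    have h1 : (-(1 / 2) + 1 : ℝ) = 1 / 2 := by norm_num
    rw [h1, Real.zero_rpow (by norm_num), ← Real.sqrt_eq_rpow]
    ring
  · refine integrableOn_ball_radial (fun s => (s * √s)⁻¹) x r hr ?_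
    have h1 : IntegrableOn (fun s : ℝ => s ^ (-(1 / 2) : ℝ)) (Ioo 0 r) := by
      have h2 : IntervalIntegrable (fun s : ℝ => s ^ (-(1 / 2) : ℝ)) volume 0 r :=
        intervalIntegral.intervalIntegrable_rpow' (by norm_num)
      rw [intervalIntegrable_iff_integrableOn_Ioo_of_le hr] at h2
      exact h2
    exact h1.congr_fun (fun s hs => (key s hs.1).symm) measurableSet_Ioo

theorem int_log (x : ℂ) (r : ℝ) (hr : 0 ≤ r) :
    ∫ y in ball x r, Real.log (r / ‖y - x‖) = π * r ^ 2 / 2 ∧
      IntegrableOn (fun y => Real.log (r / ‖y - x‖)) (ball x r) := by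
  rcases hr.eq_or_lt with rfl | hr0
  · simp
  · have key : ∀ s : ℝ, 0 < s → s * Real.log (r / s) = s * Real.log r - s * Real.log s := by
      intro s hs
      rw [Real.log_div hr0.ne' hs.ne']
      ring
    have hcont : Continuous fun s : ℝ => s * Real.log r - s * Real.log s :=
      (continuous_id.mul continuous_const).sub Real.continuous_mul_log
    constructor
    · rw [int_ball_radial (fun s => Real.log (r / s)) x r hr]
      rw [ii_congr hr (g := fun s => s * Real.log r - s * Real.log s) fun s hs => key s hs.1]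
      have hF : ∫ s in (0 : ℝ)..r, (s * Real.log r - s * Real.log s) =
          (r ^ 2 / 2 * Real.log r - r / 2 * (r * Real.log r) + r ^ 2 / 4) -
          ((0 : ℝ) ^ 2 / 2 * Real.log r - 0 / 2 * (0 * Real.log 0) + 0 ^ 2 / 4) := by
        refine intervalIntegral.integral_eq_sub_of_hasDerivAt_of_le
          (f := fun s => s ^ 2 / 2 * Real.log r - s / 2 * (s * Real.log s) + s ^ 2 / 4)
          hr ?_ ?_ (hcont.intervalIntegrable _ _)
        · refine Continuous.continuousOn ?_
          have h1 : Continuous fun s : ℝ => s * Real.log s := Real.continuous_mul_log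
          exact ((((continuous_id.pow 2).div_const 2).mul continuous_const).sub
            ((continuous_id.div_const 2).mul h1)).add ((continuous_id.pow 2).div_const 4)
        · intro s hs
          have h1 : HasDerivAt (fun s : ℝ => s ^ 2) (2 * s) s := by
            simpa using hasDerivAt_pow 2 s
          have h2 : HasDerivAt (fun s : ℝ => s * Real.log s) (Real.log s + 1) s :=
            Real.hasDerivAt_mul_log hs.1.ne'
          have h3 : HasDerivAt
              (fun s => s ^ 2 / 2 * Real.log r - s / 2 * (s * Real.log s) + s ^ 2 / 4)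
              (2 * s / 2 * Real.log r - (1 / 2 * (s * Real.log s) + s / 2 * (Real.log s + 1))
                + 2 * s / 4) s :=
            (((h1.div_const 2).mul_const (Real.log r)).sub
              (((hasDerivAt_id s).div_const 2).mul h2)).add (h1.div_const 4)
          refine h3.congr_deriv ?_
          ring
      rw [hF]
      ring
    · refine integrableOn_ball_radial (fun s => Real.log (r / s)) x r hr ?_
      have h1 : IntegrableOn (fun s : ℝ => s * Real.log r - s * Real.log s) (Ioo 0 r) :=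
        (hcont.continuousOn.integrableOn_Icc (a := 0) (b := r)).mono_set Ioo_subset_Icc_self
      exact h1.congr_fun (fun s hs => (key s hs.1).symm) measurableSet_Ioo

end AO

end
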