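import Pool.Agent.Lib.AO.Theta2
import Pool.Agent.Lib.AO.LogF
import Pool.Agent.Lib.AO.Dist

/-
Module RedA (library AO, MP_7bfba2_an).
Regular part.  VV ℓ/ℓ = VV 1; by F_local F(z/ℓ) = ‖z/ℓ - VV 1‖ exp(hF(z/ℓ - VV 1)) for ‖z/ℓ - VV 1‖ < 1, so near VV ℓ (z ≠ VV ℓ): Gam N ℓ z = 2N log(F(z/ℓ)/F 0) = 2N (log ‖z - VV ℓ‖ - log ℓ + hF(z/ℓ - VV 1) - log F 0) (F_zero_pos),
 and u z - Gam N ℓ z = h z + 2N (log ℓ - hF(z/ℓ - VV 1) + log F 0) =: ψ0 z is smooth at VV ℓ.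
 Define ψ z := u z - Gam N ℓ z for z not in VL ℓ and ψ z := ψ0 (VV ℓ) for z in VL ℓ.  ψ is periodic (per_Gam, VL is invariant), smooth off the closed set VL ℓ (isClosed_vl, contDiffAt_Gam), equals ψ0 near VV ℓ
 (VL ℓ is discrete: z in VL ℓ, 0 < ‖z - VV ℓ‖ < ℓ is impossible), hence smooth at VV ℓ and by periodicity at every point of VL ℓ.
-/

set_option autoImplicit false

open Complex MeasureTheory Set Metric Filter
open scoped Real ContDiff Topology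

noncomputable section

namespace AO

namespace RedAAux

theorem vl_add {ℓ : ℝ} {k : ℂ} (hk : k ∈ Lat ℓ) (z : ℂ) : z + k ∈ VL ℓ ↔ z ∈ VL ℓ := by
  have key : ∀ {k z : ℂ}, k ∈ Lat ℓ → z ∈ VL ℓ → z + k ∈ VL ℓ := by
    intro k z hk hz
    have h1 : z + k - VV ℓ = (z - VV ℓ) + k := by ring
    show z + k - VV ℓ ∈ Lat ℓ
    rw [h1]
    exact lat_add hz hk
  constructor
  · intro h
    have h1 := key (lat_neg hk) h
    rwa [add_neg_cancel_right] at h1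
  · exact key hk

theorem vv_mem (ℓ : ℝ) : VV ℓ ∈ VL ℓ := by
  show VV ℓ - VV ℓ ∈ Lat ℓ
  rw [sub_self]
  exact lat_zero

theorem eq_vv {ℓ : ℝ} (hl : 0 < ℓ) {z : ℂ} (hz : z ∈ VL ℓ) (hd : ‖z - VV ℓ‖ ≤ ℓ / 2) :
    z = VV ℓ := by
  have h1 : dl ℓ (z - VV ℓ) = ‖z - VV ℓ‖ := dl_eq_norm' hl _ hd
  have h2 : ¬ 0 < dl ℓ (z - VV ℓ) := fun h => (dl_pos_iff hl _).1 h hz
  have h3 := dl_nonneg (ℓ := ℓ) (z - VV ℓ)
  have h4 : ‖z - VV ℓ‖ = 0 := by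
    rw [← h1]
    linarith [not_lt.1 h2]
  exact sub_eq_zero.1 (norm_eq_zero.1 h4)

end RedAAux

open RedAAux

theorem exists_psi (ℓ : ℝ) (N : ℕ) (hl : 0 < ℓ) (u : ℂ → ℝ) (pu : Per ℓ u) (su : ∀ z, z ∉ VL ℓ → ContDiffAt ℝ ∞ u z)
    (h : ℂ → ℝ) (hh : ContDiffAt ℝ ∞ h (VV ℓ))
    (hs : ∀ᶠ z in 𝓝[≠] (VV ℓ), u z = 2 * N * Real.log ‖z - VV ℓ‖ + h z) :
    ∃ ψ : ℂ → ℝ, ContDiff ℝ ∞ ψ ∧ Per ℓ ψ ∧ ∀ z, z ∉ VL ℓ → ψ z = u z - Gam N ℓ z := by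
  classical
  obtain ⟨hF, hF1, hF2, _⟩ := F_local
  have hlc : (ℓ : ℂ) ≠ 0 := by exact_mod_cast hl.ne'
  set ψ0 : ℂ → ℝ := fun z => h z + 2 * N * (Real.log ℓ - hF (z / ℓ - VV 1) + Real.log (F 0))
    with hψ0
  set ψ : ℂ → ℝ := fun z => if z ∈ VL ℓ then ψ0 (VV ℓ) else u z - Gam N ℓ z with hψ
  have hψoff : ∀ z, z ∉ VL ℓ → ψ z = u z - Gam N ℓ z := fun z hz => by
    rw [hψ]
    dsimp only
    rw [if_neg hz]
  have hψon : ∀ z, z ∈ VL ℓ → ψ z = ψ0 (VV ℓ) := fun z hz => by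
    rw [hψ]
    dsimp only
    rw [if_pos hz]
  have hG := per_Gam (ℓ := ℓ) N hl
  have hper : ∀ k ∈ Lat ℓ, ∀ z, ψ (z + k) = ψ z := by
    intro k hk z
    by_cases hz : z ∈ VL ℓ
    · rw [hψon z hz, hψon _ ((vl_add hk z).2 hz)]
    · rw [hψoff z hz, hψoff _ (fun h' => hz ((vl_add hk z).1 h')), per_lat u pu z k hk,
        per_lat (Gam N ℓ) hG z k hk]
  have hperψ : Per ℓ ψ := by
    refine ⟨fun z => hper _ ⟨1, 0, by simp⟩ z, fun z => hper _ ⟨0, 1, by simp⟩ z⟩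
  -- smoothness off the vortex lattice
  have s1 : ∀ z, z ∉ VL ℓ → ContDiffAt ℝ ∞ ψ z := by
    intro z hz
    have h1 : ∀ᶠ w in 𝓝 z, w ∉ VL ℓ := (isClosed_vl hl).isOpen_compl.mem_nhds hz
    have h2 : ψ =ᶠ[𝓝 z] fun w => u w - Gam N ℓ w := by
      filter_upwards [h1] with w hw
      exact hψoff w hw
    exact ((su z hz).sub (contDiffAt_Gam N hl z hz)).congr_of_eventuallyEq h2
  -- smoothness at the vortex point
  have hVV : VV ℓ / ℓ - VV 1 = 0 := by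
    rw [vv_scale hl, mul_div_cancel_left₀ _ hlc, sub_self]
  have s2 : ContDiffAt ℝ ∞ ψ0 (VV ℓ) := by
    have h1 : ContDiffAt ℝ ∞ hF (VV ℓ / ℓ - VV 1) := by
      rw [hVV]
      exact hF1.contDiffAt (isOpen_ball.mem_nhds (mem_ball_self one_pos))
    have h2 : ContDiffAt ℝ ∞ (fun z : ℂ => z / ℓ - VV 1) (VV ℓ) := by
      have : (fun z : ℂ => z / ℓ - VV 1) = fun z : ℂ => z * (ℓ : ℂ)⁻¹ - VV 1 := by
        funext w; rw [div_eq_mul_inv]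
      rw [this]
      exact (contDiffAt_id.mul contDiffAt_const).sub contDiffAt_const
    have h3 : ContDiffAt ℝ ∞ (fun z : ℂ => hF (z / ℓ - VV 1)) (VV ℓ) := h1.comp (VV ℓ) h2
    exact hh.add (contDiffAt_const.mul ((contDiffAt_const.sub h3).add contDiffAt_const))
  have s3 : ψ =ᶠ[𝓝 (VV ℓ)] ψ0 := by
    have h1 : ∀ᶠ z in 𝓝 (VV ℓ), z ≠ VV ℓ → u z = 2 * N * Real.log ‖z - VV ℓ‖ + h z := by
      rw [eventually_nhdsWithin_iff] at hs
      exact hs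
    have h2 : ∀ᶠ z in 𝓝 (VV ℓ), z ∈ ball (VV ℓ) (ℓ / 2) := ball_mem_nhds _ (by positivity)
    filter_upwards [h1, h2] with z hz1 hz2
    rw [mem_ball, dist_eq_norm] at hz2
    by_cases hz : z = VV ℓ
    · rw [hz, hψon _ (vv_mem ℓ)]
    · have hzV : z ∉ VL ℓ := fun h' => hz (eq_vv hl h' hz2.le)
      have hne : 0 < ‖z - VV ℓ‖ := norm_pos_iff.2 (sub_ne_zero.2 hz)
      rw [hψoff z hzV, hz1 hz]
      have e1 : z / ℓ - VV 1 = (z - VV ℓ) / ℓ := by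
        rw [vv_scale hl, sub_div, mul_div_cancel_left₀ _ hlc]
      have e2 : ‖z / ℓ - VV 1‖ = ‖z - VV ℓ‖ / ℓ := by
        rw [e1, norm_div, Complex.norm_real, Real.norm_of_nonneg hl.le]
      have e3 : z / ℓ - VV 1 ∈ ball (0 : ℂ) 1 := by
        rw [mem_ball_zero_iff, e2, div_lt_one hl]
        linarith
      have e4 : F (z / ℓ) = ‖z - VV ℓ‖ / ℓ * Real.exp (hF (z / ℓ - VV 1)) := by
        rw [← e2, ← hF2 _ e3]
        congr 1
        ring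
      have e5 : Gam N ℓ z = 2 * N * (Real.log ‖z - VV ℓ‖ - Real.log ℓ + hF (z / ℓ - VV 1)
          - Real.log (F 0)) := by
        unfold Gam
        rw [e4, Real.log_div (by positivity) F_zero_pos.ne',
          Real.log_mul (by positivity) (Real.exp_pos _).ne', Real.log_exp,
          Real.log_div hne.ne' hl.ne']
      rw [e5, hψ0]
      ring
  refine ⟨ψ, contDiff_iff_contDiffAt.2 fun z => ?_, hperψ, hψoff⟩
  by_cases hz : z ∈ VL ℓ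
  · have hk : z - VV ℓ ∈ Lat ℓ := hz
    have h1 : ψ = fun w => ψ (w + -(z - VV ℓ)) := by
      funext w
      exact (hper _ (lat_neg hk) w).symm
    rw [h1]
    have h2 : ContDiffAt ℝ ∞ ψ (z + -(z - VV ℓ)) := by
      have : z + -(z - VV ℓ) = VV ℓ := by ring
      rw [this]
      exact s2.congr_of_eventuallyEq s3
    exact h2.comp z (contDiffAt_id.add contDiffAt_const)
  · exact s1 z hz

end AO

end
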