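import Pool.Agent.Lib.AO.CellInt
import Pool.Agent.Lib.AO.LogF

/-
SysB1 (library AO, MP_7bfba2_an).
Basic facts of the system.
ff is smooth: (F(z/ℓ)/F 0)^(2N) = (F(z/ℓ)²)^N/F 0^(2N) and F² is smooth (contDiff_F2).  Off VL ℓ: F(z/ℓ) > 0 (vl_scale, F_pos_iff), so ff = exp(Gam + A - B) = exp(uu); on VL ℓ F(z/ℓ) = 0 and N >= 1.
N_pos: ℓ² > 0 and area.
lap_uu: lap_add, lap_sub, lap_Gam and area: -lap uu = 4πN/ℓ² - 8π/ℓ² + ff + 8πc/ℓ² - qq = ff + 1 - qq = ff + exp ww (4πN - 8π + 8πc = ℓ²).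
lap_vv: lap Gam + lap A = -4πN/ℓ² + 8π/ℓ² - ff = -(ff + 1 - 8πc/ℓ²).
ff_ratio: from ff = exp uu off VL ℓ.
-/

set_option autoImplicit false

open Complex MeasureTheory Set Metric Filter
open scoped Real ContDiff Topology

noncomputable section

namespace AO

variable {c ℓ : ℝ} {N : ℕ} {A B : ℂ → ℝ}

namespace SysB1Aux

theorem F_div_pos {ℓ : ℝ} (hl : 0 < ℓ) {z : ℂ} (hz : z ∉ VL ℓ) : 0 < F (z / ℓ) / F 0 :=
  div_pos ((F_pos_iff _).2 fun h => hz ((vl_scale hl z).2 h)) F_zero_pos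

theorem exp_Gam (N : ℕ) {ℓ : ℝ} (hl : 0 < ℓ) {z : ℂ} (hz : z ∉ VL ℓ) :
    Real.exp (Gam N ℓ z) = (F (z / ℓ) / F 0) ^ (2 * N) := by
  unfold Gam
  have h1 : (2 * (N : ℝ)) = ((2 * N : ℕ) : ℝ) := by push_cast; ring
  rw [h1, Real.exp_nat_mul, Real.exp_log (F_div_pos hl hz)]

theorem two_le : (2 : WithTop ℕ∞) ≤ ∞ := ENat.LEInfty.out

theorem contDiff_ww {c : ℝ} {A B : ℂ → ℝ} (hA : ContDiff ℝ ∞ A) (hB : ContDiff ℝ ∞ B) :
    ContDiff ℝ ∞ (ww c A B) := by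
  unfold ww
  exact (hA.neg.div_const _).add (hB.div_const _)

end SysB1Aux

open SysB1Aux

theorem ff_nonneg (N : ℕ) (ℓ : ℝ) (A B : ℂ → ℝ) (z : ℂ) : 0 ≤ ff N ℓ A B z := by
  unfold ff
  exact mul_nonneg (pow_nonneg (div_nonneg (F_nonneg _) (F_nonneg _)) _) (Real.exp_pos _).le

theorem Sys.N_pos (h : Sys c ℓ N A B) : 1 ≤ N := by
  rcases Nat.eq_zero_or_pos N with h0 | h0
  · exfalso
    have h1 := h.area
    have h2 := h.l0
    have h3 := h.c1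
    have h4 := Real.pi_pos
    rw [h0] at h1
    have h5 : 0 < ℓ ^ 2 := by positivity
    have h6 : 0 < 8 * π * (1 - c) := by
      have : 0 < 1 - c := by linarith
      positivity
    simp at h1
    linarith
  · exact h0

theorem Sys.contDiff_ff (h : Sys c ℓ N A B) : ContDiff ℝ ∞ (ff N ℓ A B) := by
  have h1 : ff N ℓ A B = fun z => ((F (z / ℓ) ^ 2) ^ N / (F 0) ^ (2 * N)) *
      Real.exp (A z - B z) := by
    funext z
    unfold ff
    rw [div_pow, pow_mul (F (z / ℓ)) 2 N]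
  rw [h1]
  have h2 : ContDiff ℝ ∞ (fun z : ℂ => F (z / ℓ) ^ 2) := by
    have h3 : ContDiff ℝ ∞ (fun z : ℂ => z / (ℓ : ℂ)) := contDiff_id.div_const _
    exact contDiff_F2.comp h3
  exact ((h2.pow N).div_const _).mul (h.sA.sub h.sB).exp

theorem Sys.per_ff (h : Sys c ℓ N A B) : Per ℓ (ff N ℓ A B) := by
  have hl : (ℓ : ℂ) ≠ 0 := by
    exact_mod_cast h.l0.ne'
  constructor
  · intro z
    unfold ff
    rw [h.pA.1, h.pB.1]
    have h1 : (z + ℓ) / ℓ = z / ℓ + 1 := by field_simp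
    rw [h1, LogFAux.F_add_one]
  · intro z
    unfold ff
    rw [h.pA.2, h.pB.2]
    have h1 : (z + ℓ * Complex.I) / ℓ = z / ℓ + Complex.I := by field_simp
    rw [h1, LogFAux.F_add_I]

theorem Sys.contDiff_qq (h : Sys c ℓ N A B) : ContDiff ℝ ∞ (qq c A B) := by
  unfold qq
  exact contDiff_const.sub (contDiff_ww h.sA h.sB).exp

theorem Sys.per_qq (h : Sys c ℓ N A B) : Per ℓ (qq c A B) := by
  constructor
  · intro z
    unfold qq ww
    rw [h.pA.1, h.pB.1]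
  · intro z
    unfold qq ww
    rw [h.pA.2, h.pB.2]

theorem Sys.ff_eq_exp (h : Sys c ℓ N A B) (z : ℂ) (hz : z ∉ VL ℓ) : ff N ℓ A B z = Real.exp (uu N ℓ A B z) := by
  unfold ff uu
  rw [add_sub_assoc, Real.exp_add, exp_Gam N h.l0 hz]

theorem Sys.ff_eq_zero (h : Sys c ℓ N A B) (z : ℂ) (hz : z ∈ VL ℓ) : ff N ℓ A B z = 0 := by
  unfold ff
  have h1 : F (z / ℓ) = 0 := (F_zero_iff _).2 ((vl_scale h.l0 z).1 hz)
  have h2 := h.N_pos
  rw [h1, zero_div, zero_pow (by omega), zero_mul]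

theorem Sys.ff_ratio (h : Sys c ℓ N A B) (x y : ℂ) (hx : x ∉ VL ℓ) (hy : y ∉ VL ℓ) :
    ff N ℓ A B x = ff N ℓ A B y * Real.exp (Gam N ℓ x - Gam N ℓ y + (A x - A y) - (B x - B y)) := by
  rw [h.ff_eq_exp x hx, h.ff_eq_exp y hy, ← Real.exp_add]
  congr 1
  unfold uu
  ring

theorem Sys.contDiffAt_uu (h : Sys c ℓ N A B) (z : ℂ) (hz : z ∉ VL ℓ) :
    ContDiffAt ℝ ∞ (uu N ℓ A B) z ∧ ContDiffAt ℝ ∞ (vv N ℓ A) z := by
  have h1 := contDiffAt_Gam N h.l0 z hz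
  exact ⟨(h1.add h.sA.contDiffAt).sub h.sB.contDiffAt, h1.add h.sA.contDiffAt⟩

theorem Sys.lap_uu (h : Sys c ℓ N A B) (z : ℂ) (hz : z ∉ VL ℓ) :
    lap (uu N ℓ A B) z = -(ff N ℓ A B z + Real.exp (ww c A B z)) := by
  have h1 := (contDiffAt_Gam N h.l0 z hz).of_le two_le
  have h2 : ContDiffAt ℝ 2 A z := h.sA.contDiffAt.of_le two_le
  have h3 : ContDiffAt ℝ 2 B z := h.sB.contDiffAt.of_le two_le
  have e1 : lap (uu N ℓ A B) z = lap (fun w => (Gam N ℓ w + A w) - B w) z := rfl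
  rw [e1, lap_sub _ _ z (h1.add h2) h3, lap_add _ _ z h1 h2, lap_Gam N h.l0 z hz, h.eA, h.eB]
  unfold qq
  have hl : ℓ ^ 2 ≠ 0 := by
    have := h.l0
    positivity
  have h4 := h.area
  have h5 : 4 * π * N / ℓ ^ 2 = 1 + 8 * π * (1 - c) / ℓ ^ 2 := by
    rw [div_eq_iff hl, add_mul, one_mul, div_mul_cancel₀ _ hl]
    linarith
  rw [h5]
  field_simp
  ring

theorem Sys.lap_vv (h : Sys c ℓ N A B) (z : ℂ) (hz : z ∉ VL ℓ) :
    lap (vv N ℓ A) z = -(ff N ℓ A B z + (1 - 8 * π * c / ℓ ^ 2)) := by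
  have h1 := (contDiffAt_Gam N h.l0 z hz).of_le two_le
  have h2 : ContDiffAt ℝ 2 A z := h.sA.contDiffAt.of_le two_le
  have e1 : lap (vv N ℓ A) z = lap (fun w => Gam N ℓ w + A w) z := rfl
  rw [e1, lap_add _ _ z h1 h2, lap_Gam N h.l0 z hz, h.eA]
  have hl : ℓ ^ 2 ≠ 0 := by
    have := h.l0
    positivity
  have h4 := h.area
  have h5 : 4 * π * N / ℓ ^ 2 = 1 + 8 * π * (1 - c) / ℓ ^ 2 := by
    rw [div_eq_iff hl, add_mul, one_mul, div_mul_cancel₀ _ hl]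
    linarith
  rw [h5]
  field_simp
  ring

/-- `B` is 1-Lipschitz if its gradient is bounded by one. -/
theorem Sys.B_lip (h : Sys c ℓ N A B) (hB : ∀ z, ‖fderiv ℝ B z‖ ≤ 1) (x y : ℂ) : |B x - B y| ≤ ‖x - y‖ := by
  have h1 := Convex.norm_image_sub_le_of_norm_fderiv_le (𝕜 := ℝ) (f := B) (C := 1)
    (s := (univ : Set ℂ)) (x := y) (y := x)
    (fun z _ => (h.sB.differentiable (by simp)).differentiableAt)
    (fun z _ => hB z) convex_univ (mem_univ _) (mem_univ _)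
  rw [one_mul] at h1
  exact h1

end AO

end
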