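import Pool.Agent.Lib.AO.RedA
import Pool.Agent.Lib.AO.SysB1
import Pool.Agent.Lib.AO.Calc

/-
Module RedB (library AO, MP_7bfba2_an).
From the normalised problem to Sys.  ψ from exists_psi, B := (2c/(1-c)) (w + ψ/2), A := ψ + B.  Then ww c A B = -A/2 + B/(2c) = w (field_simp), A - B = ψ, ff N ℓ A B = (F/F 0)^(2N) exp ψ = exp(Gam + ψ) = exp u off VL ℓ.
 Off VL ℓ: lap ψ = lap u - lap Gam = 4πN/ℓ² - exp u - exp w (lap_Gam, lap_congr near z since VL ℓ is closed), so lap ψ = 4πN/ℓ² - ff - exp w off VL ℓ, and everywhere by continuity (both sides are continuous,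
 the complement of VL ℓ is dense); similarly lap w = (1/(2c))(exp w - 1) + ff/2 everywhere (ff is continuous: contDiff_F2 as in Sys.contDiff_ff).
 lap B = (2c/(1-c)) [(1/(2c))(exp w - 1) + ff/2 + (1/2)(4πN/ℓ² - ff - exp w)] = (c/(1-c))(4πN/ℓ² - 1) - (1 - exp w) = 8πc/ℓ² - qq (area: 4πN/ℓ² - 1 = 8π(1-c)/ℓ²).
 lap A = lap ψ + lap B = 4πN/ℓ² - ff - exp w + 8πc/ℓ² - 1 + exp w = 8π/ℓ² - ff.
-/

set_option autoImplicit false

open Complex MeasureTheory Set Metric Filter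
open scoped Real ContDiff Topology

noncomputable section

namespace AO

namespace RedBAux

theorem continuous_lap {h : ℂ → ℝ} (hh : ContDiff ℝ ∞ h) : Continuous (lap h) := by
  rw [continuous_iff_continuousAt]
  intro z
  have h2 : ContDiffAt ℝ ((1 : ℕ) + 1 : ℕ) h z := (hh.contDiffAt).of_le (WithTop.coe_le_coe.2 le_top)
  obtain ⟨h3, h4⟩ := contDiffAt_dx h z 1 h2
  have h5 : ContDiffAt ℝ ((0 : ℕ) + 1 : ℕ) (dx h) z := by simpa using h3
  have h6 : ContDiffAt ℝ ((0 : ℕ) + 1 : ℕ) (dy h) z := by simpa using h4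
  exact (contDiffAt_dx _ z 0 h5).1.continuousAt.add (contDiffAt_dx _ z 0 h6).2.continuousAt

theorem countable_vl (ℓ : ℝ) : (VL ℓ).Countable := by
  refine (Set.countable_range
    (fun p : ℤ × ℤ => VV ℓ + ℓ * ((p.1 : ℂ) + p.2 * Complex.I))).mono ?_
  intro z hz
  obtain ⟨m, n, h⟩ := hz
  refine ⟨(m, n), ?_⟩
  dsimp only
  rw [← h]
  ring

theorem dense_vl (ℓ : ℝ) : Dense (VL ℓ)ᶜ := (countable_vl ℓ).dense_compl ℝ

theorem two_le : (2 : WithTop ℕ∞) ≤ ∞ := ENat.LEInfty.out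

end RedBAux

open RedBAux

theorem sys_of_norm (c ℓ : ℝ) (N : ℕ) (hc : 0 < c) (hc1 : c < 1) (hl : 0 < ℓ) (hN : 1 ≤ N)
    (area : ℓ ^ 2 = 4 * π * N - 8 * π * (1 - c)) (u w : ℂ → ℝ) (sw : ContDiff ℝ ∞ w) (pw : Per ℓ w) (pu : Per ℓ u)
    (su : ∀ z, z ∉ VL ℓ → ContDiffAt ℝ ∞ u z) (h : ℂ → ℝ) (hh : ContDiffAt ℝ ∞ h (VV ℓ))
    (hs : ∀ᶠ z in 𝓝[≠] (VV ℓ), u z = 2 * N * Real.log ‖z - VV ℓ‖ + h z)
    (eu : ∀ z, z ∉ VL ℓ → lap u z = -(Real.exp (u z) + Real.exp (w z)))
    (ew : ∀ z, z ∉ VL ℓ → lap w z = 1 / (2 * c) * (Real.exp (w z) - 1) + Real.exp (u z) / 2) :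
    ∃ A B : ℂ → ℝ, Sys c ℓ N A B := by
  obtain ⟨ψ, sψ, pψ, hψ⟩ := exists_psi ℓ N hl u pu su h hh hs
  have h1c : (1 : ℝ) - c ≠ 0 := (sub_pos.2 hc1).ne'
  set k : ℝ := 2 * c / (1 - c) with hk
  set B : ℂ → ℝ := fun z => k * (w z + 1 / 2 * ψ z) with hB
  set A : ℂ → ℝ := fun z => ψ z + B z with hA
  have sB : ContDiff ℝ ∞ B := contDiff_const.mul (sw.add (contDiff_const.mul sψ))
  have sA : ContDiff ℝ ∞ A := sψ.add sB
  have pB : Per ℓ B := ⟨fun z => by simp only [hB, pw.1 z, pψ.1 z],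
    fun z => by simp only [hB, pw.2 z, pψ.2 z]⟩
  have pA : Per ℓ A := ⟨fun z => by simp only [hA, pB.1 z, pψ.1 z],
    fun z => by simp only [hA, pB.2 z, pψ.2 z]⟩
  have hAB : ∀ z, A z - B z = ψ z := fun z => by simp only [hA]; ring
  have hww : ∀ z, ww c A B z = w z := by
    intro z
    unfold ww
    have e1 : A z = ψ z + B z := rfl
    have e2 : B z = 2 * c / (1 - c) * (w z + 1 / 2 * ψ z) := rfl
    rw [e1, e2]
    field_simp
    ring
  -- the density
  have sff : Continuous (ff N ℓ A B) := by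
    have h3 : Continuous (fun z : ℂ => z / (ℓ : ℂ)) := continuous_id.div_const _
    exact (((F_continuous.comp h3).div_const _).pow _).mul
      (Real.continuous_exp.comp (sA.continuous.sub sB.continuous))
  have hff : ∀ z, z ∉ VL ℓ → ff N ℓ A B z = Real.exp (u z) := by
    intro z hz
    have hz' : z / ℓ ∉ VL 1 := fun h' => hz ((vl_scale hl z).2 h')
    have hpos : 0 < F (z / ℓ) / F 0 := div_pos ((F_pos_iff _).2 hz') F_zero_pos
    have h3 : u z = Gam N ℓ z + ψ z := by rw [hψ z hz]; ring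
    unfold ff
    rw [hAB, h3, Real.exp_add]
    congr 1
    unfold Gam
    rw [← Real.rpow_natCast, Real.rpow_def_of_pos hpos]
    push_cast
    congr 1
    ring
  -- Laplacians
  have lapψ : ∀ z, lap ψ z = 4 * π * N / ℓ ^ 2 - ff N ℓ A B z - Real.exp (w z) := by
    have h3 : lap ψ = fun z => 4 * π * N / ℓ ^ 2 - ff N ℓ A B z - Real.exp (w z) := by
      refine Continuous.ext_on (dense_vl ℓ) (continuous_lap sψ) ?_ ?_
      · exact (continuous_const.sub sff).sub (Real.continuous_exp.comp sw.continuous)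
      · intro z hz
        have hz' : z ∉ VL ℓ := hz
        have h4 : ψ =ᶠ[𝓝 z] fun y => u y - Gam N ℓ y := by
          have h5 : ∀ᶠ y in 𝓝 z, y ∉ VL ℓ := (isClosed_vl hl).isOpen_compl.mem_nhds hz
          filter_upwards [h5] with y hy
          exact hψ y hy
        dsimp only
        rw [lap_congr _ _ z h4, lap_sub _ _ z ((su z hz').of_le RedBAux.two_le)
          ((contDiffAt_Gam N hl z hz').of_le RedBAux.two_le), eu z hz', lap_Gam N hl z hz',
          hff z hz']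
        ring
    intro z
    rw [h3]
  have lapw : ∀ z, lap w z = 1 / (2 * c) * (Real.exp (w z) - 1) + ff N ℓ A B z / 2 := by
    have h3 : lap w = fun z => 1 / (2 * c) * (Real.exp (w z) - 1) + ff N ℓ A B z / 2 := by
      refine Continuous.ext_on (dense_vl ℓ) (continuous_lap sw) ?_ ?_
      · exact (continuous_const.mul ((Real.continuous_exp.comp sw.continuous).sub
          continuous_const)).add (sff.div_const _)
      · intro z hz
        dsimp only
        rw [ew z hz, hff z hz]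
    intro z
    rw [h3]
  have hl2 : ℓ ^ 2 ≠ 0 := by positivity
  have lapB : ∀ z, lap B z = 8 * π * c / ℓ ^ 2 - qq c A B z := by
    intro z
    have sw2 : ContDiffAt ℝ 2 w z := sw.contDiffAt.of_le RedBAux.two_le
    have sψ2 : ContDiffAt ℝ 2 ψ z := sψ.contDiffAt.of_le RedBAux.two_le
    have h3 : lap B z = k * (lap w z + 1 / 2 * lap ψ z) := by
      rw [hB, lap_const_mul k _ z (sw2.add (contDiffAt_const.mul sψ2)),
        lap_add w _ z sw2 (contDiffAt_const.mul sψ2), lap_const_mul _ ψ z sψ2]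
    rw [h3, lapw, lapψ, hk]
    unfold qq
    rw [hww]
    have h4 : (N : ℝ) * (4 * π) = ℓ ^ 2 + 8 * π * (1 - c) := by linarith
    field_simp
    linear_combination c * h4
  have lapA : ∀ z, lap A z = 8 * π / ℓ ^ 2 - ff N ℓ A B z := by
    intro z
    have h3 : lap A z = lap ψ z + lap B z := by
      rw [hA, lap_add ψ B z (sψ.contDiffAt.of_le RedBAux.two_le)
        (sB.contDiffAt.of_le RedBAux.two_le)]
    rw [h3, lapB, lapψ]
    unfold qq
    rw [hww]
    have h4 : (N : ℝ) * (4 * π) = ℓ ^ 2 + 8 * π * (1 - c) := by linarith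
    field_simp
    linear_combination h4
  exact ⟨A, B, ⟨hc, hc1, hl, area, sA, sB, pA, pB, lapA, lapB⟩⟩

end AO

end
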