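import Pool.Agent.Lib.AO.RedB
import Pool.Agent.Lib.AO.Calc
import Pool.Agent.Lib.AO.Dist

/-
STUB RedC (library AO, MP_7bfba2_an). Replace the sorries, keep the statements.
Scaling.  μ := g φ > 0, ℓ := g φ L, Z z := p0 + (z - VV ℓ)/μ, u1 z := u (Z z) + log(4/φ²), w1 z := w (Z z) - log(φ²), c := cos²θ in (0,1).  z in VL ℓ iff Z z - p0 in Lat L.  Z(z + ℓ) = Z z + L, Z(z + ℓ I) = Z z + L I, so u1, w1 are ℓ-periodic.
 lap u1 z = μ⁻² lap u (Z z) (lap_scale and lap_translate, or dx, dy of a composition with an affine map), exp(w (Z z)) = φ² exp(w1 z), exp(u (Z z)) = (φ²/4) exp(u1 z):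
 -lap u1 = μ⁻²(g² φ² exp w1 + g² φ² exp u1) = exp w1 + exp u1;  lap w1 = μ⁻²((g²/(2c)) φ² (exp w1 - 1) + 2g² (φ²/4) exp u1) = (1/(2c))(exp w1 - 1) + exp u1/2.
 area: ℓ² = g²φ²L² = 4πN - 8π sin²θ = 4πN - 8π(1-c).  Singularity: u1 z = 2N log(‖z - VV ℓ‖/μ) + h(Z z) + log(4/φ²) near VV ℓ, so the regular part is h(Z z) + log(4/φ²) - 2N log μ.  sys_of_norm.
-/

set_option autoImplicit false

open Complex MeasureTheory Set Metric Filter
open scoped Real ContDiff Topology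

noncomputable section

namespace AO

namespace RedCAux

theorem lap_add_const (f : ℂ → ℝ) (C : ℝ) (z : ℂ) : lap (fun w => f w + C) z = lap f z := by
  unfold lap
  have h1 : dx (fun w => f w + C) = dx f := by
    funext w
    unfold dx
    rw [fderiv_add_const]
  have h2 : dy (fun w => f w + C) = dy f := by
    funext w
    unfold dy
    rw [fderiv_add_const]
  rw [h1, h2]

theorem contDiff_affine (k : ℝ) (a : ℂ) : ContDiff ℝ ∞ (fun z : ℂ => (k : ℂ) * z + a) :=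
  (contDiff_const.mul contDiff_id).add contDiff_const

theorem lap_affine (u : ℂ → ℝ) (k : ℝ) (a z : ℂ) (hu : ContDiffAt ℝ ∞ u (k * z + a)) :
    lap (fun w => u (k * w + a)) z = k ^ 2 * lap u (k * z + a) := by
  have h2 : ContDiffAt ℝ ∞ (fun w => u (w + a)) (k * z) := by
    have h3 : ContDiffAt ℝ ∞ (fun w : ℂ => w + a) (k * z) :=
      (contDiff_id.add contDiff_const).contDiffAt
    exact ContDiffAt.comp (k * z : ℂ) hu h3
  have h4 := lap_scale (fun w => u (w + a)) k z (h2.of_le ENat.LEInfty.out)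
  rw [h4, lap_translate]

theorem lat_smul {μ L : ℝ} (hμ : 0 < μ) {z : ℂ} (h : z / μ ∈ Lat L) : z ∈ Lat (μ * L) := by
  obtain ⟨m, n, hz⟩ := h
  refine ⟨m, n, ?_⟩
  have hμ' : (μ : ℂ) ≠ 0 := by exact_mod_cast hμ.ne'
  rw [div_eq_iff hμ'] at hz
  rw [hz]
  push_cast
  ring

end RedCAux

open RedCAux

theorem sys_of_orig (g φ θ L : ℝ) (N : ℕ) (p0 : ℂ) (hg : 0 < g) (hφ : 0 < φ) (hθ : 0 < θ) (hθ' : θ < π / 2) (hL : 0 < L)
    (hN : 1 ≤ N) (area : 4 * π * N - g ^ 2 * φ ^ 2 * L ^ 2 = 8 * π * Real.sin θ ^ 2) (u w : ℂ → ℝ)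
    (sw : ContDiff ℝ ∞ w) (pw : Per L w) (pu : Per L u) (su : ∀ z, z - p0 ∉ Lat L → ContDiffAt ℝ ∞ u z)
    (h : ℂ → ℝ) (hh : ContDiffAt ℝ ∞ h p0) (hs : ∀ᶠ z in 𝓝[≠] p0, u z = 2 * N * Real.log ‖z - p0‖ + h z)
    (eu : ∀ z, z - p0 ∉ Lat L → -(lap u z) = g ^ 2 * Real.exp (w z) + 4 * g ^ 2 * Real.exp (u z))
    (ew : ∀ z, z - p0 ∉ Lat L → lap w z = g ^ 2 / (2 * Real.cos θ ^ 2) * (Real.exp (w z) - φ ^ 2) +
      2 * g ^ 2 * Real.exp (u z)) :
    ∃ A B : ℂ → ℝ, Sys (Real.cos θ ^ 2) (g * φ * L) N A B := by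
  set μ : ℝ := g * φ with hμdef
  have hμ : 0 < μ := mul_pos hg hφ
  have hμ' : (μ : ℂ) ≠ 0 := by exact_mod_cast hμ.ne'
  have hcos : 0 < Real.cos θ := Real.cos_pos_of_mem_Ioo ⟨by linarith [Real.pi_pos], hθ'⟩
  have hsin : 0 < Real.sin θ := Real.sin_pos_of_pos_of_lt_pi hθ (by linarith [Real.pi_pos])
  have hsc := Real.sin_sq_add_cos_sq θ
  have hc0 : 0 < Real.cos θ ^ 2 := by positivity
  have hs0 : 0 < Real.sin θ ^ 2 := by positivity
  have hc1 : Real.cos θ ^ 2 < 1 := by linarith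
  have hℓ : 0 < μ * L := mul_pos hμ hL
  set ℓ : ℝ := μ * L with hℓdef
  set a : ℂ := p0 - VV ℓ / μ with ha
  have hZ : ∀ z : ℂ, (((1 / μ : ℝ) : ℂ) * z + a) - p0 = (z - VV ℓ) / μ := by
    intro z
    rw [ha]
    push_cast
    field_simp
    ring
  have hZV : ((1 / μ : ℝ) : ℂ) * VV ℓ + a = p0 := by
    have h1 := hZ (VV ℓ)
    rw [sub_self, zero_div] at h1
    exact sub_eq_zero.1 h1
  have hZL : ∀ z : ℂ, z ∉ VL ℓ → ((1 / μ : ℝ) : ℂ) * z + a - p0 ∉ Lat L := by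
    intro z hz h1
    apply hz
    rw [hZ] at h1
    exact lat_smul hμ h1
  have hper1 : ∀ z : ℂ, ((1 / μ : ℝ) : ℂ) * (z + ℓ) + a = (((1 / μ : ℝ) : ℂ) * z + a) + L := by
    intro z
    rw [hℓdef]
    push_cast
    field_simp
    ring
  have hper2 : ∀ z : ℂ, ((1 / μ : ℝ) : ℂ) * (z + ℓ * Complex.I) + a =
      (((1 / μ : ℝ) : ℂ) * z + a) + L * Complex.I := by
    intro z
    rw [hℓdef]
    push_cast
    field_simp
    ring
  have hexpu : ∀ y : ℂ, Real.exp (u y + Real.log (4 / φ ^ 2)) = 4 / φ ^ 2 * Real.exp (u y) := by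
    intro y
    rw [Real.exp_add, Real.exp_log (by positivity), mul_comm]
  have hexpw : ∀ y : ℂ, Real.exp (w y + -Real.log (φ ^ 2)) = Real.exp (w y) / φ ^ 2 := by
    intro y
    rw [Real.exp_add, Real.exp_neg, Real.exp_log (by positivity)]
    rfl
  refine sys_of_norm (Real.cos θ ^ 2) ℓ N hc0 hc1 hℓ hN ?_
    (fun z => u (((1 / μ : ℝ) : ℂ) * z + a) + Real.log (4 / φ ^ 2))
    (fun z => w (((1 / μ : ℝ) : ℂ) * z + a) + -Real.log (φ ^ 2)) ?_ ?_ ?_ ?_
    (fun z => h (((1 / μ : ℝ) : ℂ) * z + a) + (Real.log (4 / φ ^ 2) - 2 * N * Real.log μ)) ?_ ?_ ?_ ?_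
  · have h1 : ℓ ^ 2 = g ^ 2 * φ ^ 2 * L ^ 2 := by
      rw [hℓdef, hμdef]; ring
    rw [h1]
    have h2 : Real.sin θ ^ 2 = 1 - Real.cos θ ^ 2 := by linarith
    rw [h2] at area
    linarith
  · exact (sw.comp (contDiff_affine (1 / μ) a)).add contDiff_const
  · constructor
    · intro z
      dsimp only
      rw [hper1, pw.1]
    · intro z
      dsimp only
      rw [hper2, pw.2]
  · constructor
    · intro z
      dsimp only
      rw [hper1, pu.1]
    · intro z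
      dsimp only
      rw [hper2, pu.2]
  · intro z hz
    exact (ContDiffAt.comp z (su _ (hZL z hz)) (contDiff_affine (1 / μ) a).contDiffAt).add
      contDiffAt_const
  · have hh' : ContDiffAt ℝ ∞ h (((1 / μ : ℝ) : ℂ) * VV ℓ + a) := by rw [hZV]; exact hh
    exact (ContDiffAt.comp (VV ℓ) hh' (contDiff_affine (1 / μ) a).contDiffAt).add
      contDiffAt_const
  · have ht : Tendsto (fun z : ℂ => ((1 / μ : ℝ) : ℂ) * z + a) (𝓝[≠] (VV ℓ)) (𝓝[≠] p0) := by
      apply tendsto_nhdsWithin_of_tendsto_nhds_of_eventually_within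
      · have h1 : Continuous (fun z : ℂ => ((1 / μ : ℝ) : ℂ) * z + a) := by fun_prop
        have h2 := h1.tendsto (VV ℓ)
        rw [hZV] at h2
        exact h2.mono_left nhdsWithin_le_nhds
      · filter_upwards [self_mem_nhdsWithin] with z hz
        rw [Set.mem_compl_iff, Set.mem_singleton_iff] at hz ⊢
        intro h3
        apply hz
        have h4 := hZ z
        rw [h3, sub_self] at h4
        have h5 : z - VV ℓ = 0 := by
          rcases div_eq_zero_iff.1 h4.symm with h6 | h6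
          · exact h6
          · exact absurd h6 hμ'
        exact sub_eq_zero.1 h5
    filter_upwards [ht.eventually hs, self_mem_nhdsWithin] with z hz hz'
    rw [Set.mem_compl_iff, Set.mem_singleton_iff] at hz'
    rw [hz, hZ, norm_div, Complex.norm_real, Real.norm_of_nonneg hμ.le,
      Real.log_div (norm_ne_zero_iff.2 (sub_ne_zero.2 hz')) hμ.ne']
    ring
  · intro z hz
    have h1 := eu _ (hZL z hz)
    rw [lap_add_const (fun w => u (((1 / μ : ℝ) : ℂ) * w + a)),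
      lap_affine u (1 / μ) a z (su _ (hZL z hz)), hexpu, hexpw]
    have h2 : lap u (((1 / μ : ℝ) : ℂ) * z + a) =
      -(g ^ 2 * Real.exp (w (((1 / μ : ℝ) : ℂ) * z + a)) +
        4 * g ^ 2 * Real.exp (u (((1 / μ : ℝ) : ℂ) * z + a))) := by linarith
    rw [h2, hμdef]
    field_simp
    ring
  · intro z hz
    have h1 := ew _ (hZL z hz)
    rw [lap_add_const (fun y => w (((1 / μ : ℝ) : ℂ) * y + a)),
      lap_affine w (1 / μ) a z sw.contDiffAt, hexpu, hexpw, h1, hμdef]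
    field_simp
    ring

end AO

end
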