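import Pool.Agent.Lib.AO.GBd
import Pool.Agent.Lib.AO.CellInt
import Pool.Agent.Lib.AO.Radial

/-
Module RepA / Rep (library AO, MP_7bfba2_an).
Representation by the Green function.  First on the unit torus, for a smooth 1-periodic function A and x = 0:
(*)  A 0 - ∫_Q A = ∫_{Q 1} G y * (-lap A y) dy.
Regularise: H y := F(y + VV 1)², smooth, periodic, >= 0, zero exactly on Lat 1 (contDiff_F2, F_zero_iff); G = -(1/4π) log H; G_ρ := -(1/4π) log(H + ρ²) is smooth and periodic.  Off Lat 1: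
 lap (log H) = -4π, i.e. lap H = -4π H + ‖fderiv H‖²/H, and so lap (log(H+ρ²)) = -4π H/(H+ρ²) + ρ²‖fderiv H‖²/(H (H+ρ²)²), lap G_ρ = H/(H+ρ²) - k_ρ,
 k_ρ := ρ²‖fderiv H‖²/(4π H (H+ρ²)²) >= 0.  int_Q_green: ∫ A lap G_ρ = ∫ G_ρ lap A.
 With A = 1 (int_Q_lap): ∫ k_ρ = ∫ H/(H+ρ²) -> 1 as ρ -> 0.  Off a neighbourhood of Lat 1, k_ρ <= Cρ² -> 0 uniformly.  So ∫ A k_ρ -> A 0 (A continuous).  ∫ A H/(H+ρ²) -> ∫ A and
 ∫ G_ρ lap A -> ∫ G lap A by dominated convergence (|log(H+ρ²)| <= |log H| + log(sup H + 1), and |G y| <= C + |log‖y‖| is integrable on Q 1 by g_log, int_log).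
rep_value: apply (*) to y -> A(x + y)·, evenness of G, int_Q_sub; general ℓ by scaling (A_1 z = A(ℓ z), lap_scale, change of variables y -> ℓ y).
rep_grad: differentiate: fderiv A x e = ∫_Q Gl ℓ y * (-(fderiv (lap A) (x-y) e)) (apply rep to the directional derivative), then integrate by parts in y with the regularised G_ρ
 (int_Q_dx, int_Q_dy applied to G_ρ(y) * lap A (x-y)) and let ρ -> 0: |fderiv G_ρ| <= (1/4π)‖fderiv H‖/H <= C/dl y, dominated convergence.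
 The fderiv of a product/linear combination in the direction e = e.re + i e.im is e.re dx + e.im dy.
-/

set_option autoImplicit false

open Complex MeasureTheory Set Metric Filter
open scoped Real ContDiff Topology

noncomputable section

namespace AO

variable {ℓ : ℝ}

namespace RepAAux

theorem Q_subset (hl : 0 < ℓ) : Q ℓ ⊆ ball 0 ℓ := by
  intro z hz
  obtain ⟨h1, h2⟩ := hz
  rw [mem_Ico] at h1 h2
  rw [mem_ball_zero_iff]
  have h3 : |z.re| ≤ ℓ / 2 := abs_le.2 ⟨h1.1, h1.2.le⟩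
  have h4 : |z.im| ≤ ℓ / 2 := abs_le.2 ⟨h2.1, h2.2.le⟩
  have h5 : z.re ^ 2 ≤ (ℓ / 2) ^ 2 := by
    rw [← sq_abs]
    exact pow_le_pow_left₀ (abs_nonneg _) h3 2
  have h6 : z.im ^ 2 ≤ (ℓ / 2) ^ 2 := by
    rw [← sq_abs]
    exact pow_le_pow_left₀ (abs_nonneg _) h4 2
  have h7 : ‖z‖ ^ 2 < ℓ ^ 2 := by
    rw [← Complex.normSq_eq_norm_sq, Complex.normSq_apply]
    nlinarith
  exact lt_of_pow_lt_pow_left₀ 2 hl.le h7

theorem mem_Lat_Q (hl : 0 < ℓ) {z : ℂ} (hz : z ∈ Q ℓ) (h : z ≠ 0) : z ∉ Lat ℓ := by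
  rw [← dl_pos_iff hl, dl_eq_of_mem hl z hz]
  exact norm_pos_iff.2 h

theorem measurable_Gl (ℓ : ℝ) : Measurable (Gl ℓ) := by
  unfold Gl G
  have h1 : Measurable F := F_continuous.measurable
  have h2 : Measurable (fun z : ℂ => F (z / ℓ + VV 1)) :=
    h1.comp (by fun_prop)
  exact (Real.measurable_log.comp h2).const_mul _

theorem integrableOn_Gl (hl : 0 < ℓ) : IntegrableOn (Gl ℓ) (Q ℓ) := by
  obtain ⟨C, hC, hg⟩ := g_log
  have hl1 := (int_log 0 ℓ hl.le).2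
  have hl2 : IntegrableOn (fun y : ℂ => Real.log (ℓ / ‖y - 0‖)) (Q ℓ) := hl1.mono_set (Q_subset hl)
  have hc : IntegrableOn (fun _ : ℂ => C) (Q ℓ) :=
    integrableOn_Q_of_continuous hl _ continuous_const
  have hb : IntegrableOn (fun y : ℂ => C + (1 / (2 * π)) * Real.log (ℓ / ‖y - 0‖)) (Q ℓ) :=
    hc.add (hl2.const_mul _)
  refine Integrable.mono' hb (measurable_Gl ℓ).aestronglyMeasurable ?_
  have h0 : ∀ᵐ z : ℂ ∂(volume.restrict (Q ℓ)), z ≠ 0 := by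
    refine ae_restrict_of_ae ?_
    have : (volume : Measure ℂ) {0} = 0 := measure_singleton 0
    rw [ae_iff]
    simpa using this
  filter_upwards [h0, ae_restrict_mem (measurableSet_Q (ℓ := ℓ))] with z hz0 hzQ
  have hzL := mem_Lat_Q hl hzQ hz0
  have h1 := hg ℓ z hl hzL
  rw [dl_eq_of_mem hl z hzQ] at h1
  have hz1 : 0 < ‖z‖ := norm_pos_iff.2 hz0
  have hz2 : ‖z‖ < ℓ := mem_ball_zero_iff.1 (Q_subset hl hzQ)
  have h2 : Real.log (‖z‖ / ℓ) = -Real.log (ℓ / ‖z‖) := by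
    rw [← Real.log_inv, inv_div]
  have h3 : 0 ≤ Real.log (ℓ / ‖z‖) := Real.log_nonneg (by
    rw [one_le_div hz1]
    exact hz2.le)
  rw [h2] at h1
  have h4 : 0 ≤ 1 / (2 * π) * Real.log (ℓ / ‖z‖) := mul_nonneg (by positivity) h3
  rw [Real.norm_eq_abs, sub_zero]
  have h5 := abs_le.1 h1
  rw [abs_le]
  constructor <;> linarith [h5.1, h5.2]

theorem measurable_dG (ℓ : ℝ) (e : ℂ) : Measurable (fun z => fderiv ℝ (Gl ℓ) z e) :=
  measurable_fderiv_apply_const ℝ (Gl ℓ) e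

theorem integrableOn_dGl (hl : 0 < ℓ) (e : ℂ) :
    IntegrableOn (fun z => fderiv ℝ (Gl ℓ) z e) (Q ℓ) := by
  obtain ⟨C, hC, hg⟩ := g_grad
  have hl1 := (int_inv 0 ℓ hl.le).2
  have hl2 : IntegrableOn (fun y : ℂ => ‖y - 0‖⁻¹) (Q ℓ) := hl1.mono_set (Q_subset hl)
  have hb : IntegrableOn (fun y : ℂ => C * ‖e‖ * ‖y - 0‖⁻¹) (Q ℓ) := hl2.const_mul _
  refine Integrable.mono' hb (measurable_dG ℓ e).aestronglyMeasurable ?_
  have h0 : ∀ᵐ z : ℂ ∂(volume.restrict (Q ℓ)), z ≠ 0 := by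
    refine ae_restrict_of_ae ?_
    have : (volume : Measure ℂ) {0} = 0 := measure_singleton 0
    rw [ae_iff]
    simpa using this
  filter_upwards [h0, ae_restrict_mem (measurableSet_Q (ℓ := ℓ))] with z hz0 hzQ
  have hzL := mem_Lat_Q hl hzQ hz0
  have h1 := (hg ℓ z hl hzL).2
  rw [dl_eq_of_mem hl z hzQ] at h1
  rw [sub_zero]
  calc ‖fderiv ℝ (Gl ℓ) z e‖ ≤ ‖fderiv ℝ (Gl ℓ) z‖ * ‖e‖ := ContinuousLinearMap.le_opNorm _ _
    _ ≤ C / ‖z‖ * ‖e‖ := mul_le_mul_of_nonneg_right h1 (norm_nonneg _)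
    _ = C * ‖e‖ * ‖z‖⁻¹ := by ring

theorem per_dG (hl : 0 < ℓ) (e : ℂ) : Per ℓ (fun z => fderiv ℝ (Gl ℓ) z e) := by
  have h := per_Gl ℓ hl
  constructor
  · intro z
    have h1 : (fun w => Gl ℓ (w + ℓ)) = Gl ℓ := funext h.1
    have h2 := fderiv_comp_add_right (𝕜 := ℝ) (f := Gl ℓ) (x := z) (ℓ : ℂ)
    rw [h1] at h2
    simp only
    rw [← h2]
  · intro z
    have h1 : (fun w => Gl ℓ (w + ℓ * Complex.I)) = Gl ℓ := funext h.2
    have h2 := fderiv_comp_add_right (𝕜 := ℝ) (f := Gl ℓ) (x := z) (ℓ * Complex.I : ℂ)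
    rw [h1] at h2
    simp only
    rw [← h2]

theorem mul_cont (hl : 0 < ℓ) (g : ℂ → ℝ) (hg : IntegrableOn g (Q ℓ)) (f : ℂ → ℝ)
    (hf : Continuous f) (hp : Per ℓ f) : IntegrableOn (fun y => g y * f y) (Q ℓ) := by
  obtain ⟨M, hM⟩ := per_bounded hl f hp hf
  exact Integrable.mul_bdd (c := M) hg hf.aestronglyMeasurable (Eventually.of_forall hM)

end RepAAux

open RepAAux

theorem integrableOn_G (hl : 0 < ℓ) (x : ℂ) (f : ℂ → ℝ) (hf : Continuous f) (hp : Per ℓ f) :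
    IntegrableOn (fun y => Gl ℓ (x - y) * f y) (Q ℓ) :=
  mul_cont hl _ (integrableOn_Q_sub hl (Gl ℓ) (per_Gl ℓ hl) x (integrableOn_Gl hl)) f hf hp

theorem integrableOn_dG (hl : 0 < ℓ) (x e : ℂ) (f : ℂ → ℝ) (hf : Continuous f) (hp : Per ℓ f) :
    IntegrableOn (fun y => fderiv ℝ (Gl ℓ) (x - y) e * f y) (Q ℓ) :=
  mul_cont hl _ (integrableOn_Q_sub hl (fun z => fderiv ℝ (Gl ℓ) z e) (per_dG hl e) x
    (integrableOn_dGl hl e)) f hf hp

end AO

end
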