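import Pool.Agent.Lib.AO.SysB2
import Pool.Agent.Lib.AO.CPB

/-!
Gradient bounds and the bound of the stress tensor on the ball `ball p (2δ)`, which contains no vortex.
-/

set_option autoImplicit false

open Complex MeasureTheory Set Metric Filter
open scoped Real ContDiff Topology

noncomputable section

namespace AO

variable {c ℓ : ℝ} {N : ℕ} {A B : ℂ → ℝ} {p : ℂ} {ε δ : ℝ}

theorem Loc.smooth (h : Loc c ℓ N A B p ε δ) : ContDiffOn ℝ ∞ (uu N ℓ A B) (ball p (2 * δ)) ∧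
    ContDiffOn ℝ ∞ (vv N ℓ A) (ball p (2 * δ)) :=
  ⟨fun z hz => (h.sys.contDiffAt_uu z (h.off z hz)).1.contDiffWithinAt,
    fun z hz => (h.sys.contDiffAt_uu z (h.off z hz)).2.contDiffWithinAt⟩

theorem Loc.grad_vv (h : Loc c ℓ N A B p ε δ) (z : ℂ) (hz : z ∈ ball p (2 * δ)) :
    ‖fderiv ℝ (vv N ℓ A) z‖ ≤ 1 / δ + ‖fderiv ℝ A z‖ := by
  have hv : DifferentiableAt ℝ (vv N ℓ A) z :=
    (h.sys.contDiffAt_uu z (h.off z hz)).2.differentiableAt (by simp)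
  have hA : DifferentiableAt ℝ A z := h.sys.sA.contDiffAt.differentiableAt (by simp)
  have hG : Gam N ℓ = fun w => vv N ℓ A w - A w := by
    funext w
    unfold vv
    ring
  have h1 : fderiv ℝ (Gam N ℓ) z = fderiv ℝ (vv N ℓ A) z - fderiv ℝ A z := by
    rw [hG]
    exact fderiv_fun_sub hv hA
  have h2 : fderiv ℝ (vv N ℓ A) z = fderiv ℝ (Gam N ℓ) z + fderiv ℝ A z := by
    rw [h1]
    abel
  rw [h2]
  exact (norm_add_le _ _).trans (add_le_add (h.gG z hz) le_rfl)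

theorem Loc.grad_uu (h : Loc c ℓ N A B p ε δ) (z : ℂ) (hz : z ∈ ball p (2 * δ)) :
    ‖fderiv ℝ (uu N ℓ A B) z‖ ≤ 1 / δ + 1 + ‖fderiv ℝ A z‖ := by
  have hv : DifferentiableAt ℝ (vv N ℓ A) z :=
    (h.sys.contDiffAt_uu z (h.off z hz)).2.differentiableAt (by simp)
  have hB : DifferentiableAt ℝ B z := h.sys.sB.contDiffAt.differentiableAt (by simp)
  have hU : uu N ℓ A B = fun w => vv N ℓ A w - B w := rfl
  have h1 : fderiv ℝ (uu N ℓ A B) z = fderiv ℝ (vv N ℓ A) z - fderiv ℝ B z := by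
    rw [hU]
    exact fderiv_fun_sub hv hB
  rw [h1]
  have h2 := h.grad_vv z hz
  have h3 := h.gB z
  have h4 := norm_sub_le (fderiv ℝ (vv N ℓ A) z) (fderiv ℝ B z)
  linarith

theorem tt_loc : ∃ C : ℝ, 0 < C ∧ ∀ (c ℓ : ℝ) (N : ℕ) (A B : ℂ → ℝ) (p : ℂ) (ε δ : ℝ), Loc c ℓ N A B p ε δ →
    ∀ z, ‖z - p‖ ≤ δ / 2 → ‖TT (uu N ℓ A B) (vv N ℓ A) z‖ ≤
      C * ((∫ ζ in ball p δ, ‖fderiv ℝ (vv N ℓ A) ζ‖) / δ ^ 3 +
      (∫ ζ in ball p δ \ ball p (3 * δ / 4), ‖fderiv ℝ (uu N ℓ A B) ζ‖ ^ 2) / δ ^ 2 +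
      ∫ ζ in ball p δ, ‖fderiv ℝ (uu N ℓ A B) ζ‖ / ‖z - ζ‖) := by
  obtain ⟨C, hC, H⟩ := cp_bound
  refine ⟨C, hC, fun c ℓ N A B p ε δ h z hz => ?_⟩
  have h3 : (3 : WithTop ℕ∞) ≤ ∞ := CPB2Aux.le_inf 3
  have h2 : (2 : WithTop ℕ∞) ≤ ∞ := CPB2Aux.le_inf 2
  obtain ⟨s1, s2⟩ := h.smooth
  refine H p δ (uu N ℓ A B) (vv N ℓ A) (fun z => Real.exp (ww c A B z)) h.dpos (s1.of_le h3)
    (s2.of_le h3) (fun ζ hζ => ?_) (fun ζ => ?_) z hz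
  · obtain ⟨t1, t2⟩ := h.sys.contDiffAt_uu ζ (h.off ζ hζ)
    refine cb_TT (uu N ℓ A B) (vv N ℓ A) (fun z => Real.exp (ww c A B z))
      (1 - 8 * π * c / ℓ ^ 2) ζ (t2.of_le h3) (t1.of_le h2) ?_ ?_
    · filter_upwards [isOpen_ball.mem_nhds hζ] with w hw
      rw [← h.sys.ff_eq_exp w (h.off w hw)]
      exact h.sys.lap_vv w (h.off w hw)
    · rw [← h.sys.ff_eq_exp ζ (h.off ζ hζ)]
      exact h.sys.lap_uu ζ (h.off ζ hζ)
  · rw [abs_of_pos (Real.exp_pos _)]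
    exact Real.exp_le_one_iff.2 (h.sys.ww_le ζ)

end AO

end
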