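import Pool.Agent.Lib.AO.Theta1a

/-
Theta1b (library AO, MP_7bfba2_an).
F z = exp(-π (im z)²) ‖Th z‖, Th z = jacobiTheta₂ z I.
-/

set_option autoImplicit false

open Complex MeasureTheory Set Metric Filter
open scoped Real ContDiff Topology

noncomputable section

namespace AO

namespace Theta1bAux

/-- On the real axis the theta function is `exp(-π y²)` times its value at `I y`. -/
theorem Th_real (y : ℝ) :
    Th (y : ℂ) = ((Real.exp (-π * y ^ 2) : ℝ) : ℂ) * Th (Complex.I * y) := by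
  have h0 := jacobiTheta₂_functional_equation (y : ℂ) Complex.I
  have h1 : -Complex.I * Complex.I = 1 := by
    rw [neg_mul, Complex.I_mul_I, neg_neg]
  have h2 : (y : ℂ) / Complex.I = -(Complex.I * y) := by
    rw [div_eq_mul_inv, Complex.inv_I]; ring
  have h3 : (-1 : ℂ) / Complex.I = Complex.I := by
    rw [div_eq_mul_inv, Complex.inv_I]; ring
  have h4 : -(π : ℂ) * Complex.I * (y : ℂ) ^ 2 / Complex.I = -(π : ℂ) * (y : ℂ) ^ 2 := by
    field_simp
  rw [h1, h2, h3, h4, Complex.one_cpow, jacobiTheta₂_neg_left] at h0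
  unfold Th
  rw [h0, Complex.ofReal_exp]
  push_cast
  ring

theorem term_I (y : ℝ) (n : ℤ) : jacobiTheta₂_term n (Complex.I * y) Complex.I
    = ((Real.exp (-π * (n : ℝ) ^ 2 - 2 * π * n * y) : ℝ) : ℂ) := by
  rw [jacobiTheta₂_term, Complex.ofReal_exp]
  congr 1
  push_cast
  have h : 2 * (π : ℂ) * Complex.I * (n : ℂ) * (Complex.I * (y : ℂ))
      + (π : ℂ) * Complex.I * (n : ℂ) ^ 2 * Complex.I
      = (2 * (π : ℂ) * n * y + (π : ℂ) * (n : ℂ) ^ 2) * (Complex.I * Complex.I) := by ring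
  rw [h, Complex.I_mul_I]
  ring

theorem hasSum_I (y : ℝ) : HasSum (fun n : ℤ => Real.exp (-π * (n : ℝ) ^ 2 - 2 * π * n * y))
    (Th (Complex.I * y)).re := by
  have hs : HasSum (fun n : ℤ => jacobiTheta₂_term n (Complex.I * y) Complex.I)
      (Th (Complex.I * y)) := hasSum_jacobiTheta₂_term (Complex.I * y) (by simp)
  have h := Complex.hasSum_re hs
  have h7 : (fun n : ℤ => (jacobiTheta₂_term n (Complex.I * y) Complex.I).re)
      = fun n : ℤ => Real.exp (-π * (n : ℝ) ^ 2 - 2 * π * n * y) := by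
    funext n
    rw [term_I, Complex.ofReal_re]
  rwa [h7] at h

theorem im_I (y : ℝ) : (Th (Complex.I * y)).im = 0 := by
  have hs : HasSum (fun n : ℤ => jacobiTheta₂_term n (Complex.I * y) Complex.I)
      (Th (Complex.I * y)) := hasSum_jacobiTheta₂_term (Complex.I * y) (by simp)
  have h := Complex.hasSum_im hs
  have h7 : (fun n : ℤ => (jacobiTheta₂_term n (Complex.I * y) Complex.I).im)
      = fun n : ℤ => 0 := by
    funext n
    rw [term_I, Complex.ofReal_im]
  rw [h7] at h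
  exact h.unique hasSum_zero

theorem norm_I (y : ℝ) : ‖Th (Complex.I * y)‖ = (Th (Complex.I * y)).re := by
  have h1 : Th (Complex.I * y) = (((Th (Complex.I * y)).re : ℝ) : ℂ) := by
    apply Complex.ext
    · simp
    · rw [im_I]; simp
  have h2 : 0 ≤ (Th (Complex.I * y)).re := (hasSum_I y).nonneg fun n => (Real.exp_pos _).le
  rw [h1, Complex.norm_real, Real.norm_eq_abs, Complex.ofReal_re, abs_of_nonneg h2]

/-- The value of `F` on the imaginary axis is a cosine series. -/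
theorem hasSum_cos (y : ℝ) :
    HasSum (fun n : ℤ => Real.exp (-π * (n : ℝ) ^ 2) * Real.cos (2 * π * n * y))
      (F (Complex.I * y)) := by
  have hs : HasSum (fun n : ℤ => jacobiTheta₂_term n (y : ℂ) Complex.I) (Th (y : ℂ)) :=
    hasSum_jacobiTheta₂_term (y : ℂ) (by simp)
  have h := Complex.hasSum_re hs
  have h7 : (fun n : ℤ => (jacobiTheta₂_term n (y : ℂ) Complex.I).re)
      = fun n : ℤ => Real.exp (-π * (n : ℝ) ^ 2) * Real.cos (2 * π * n * y) := by
    funext n
    rw [jacobiTheta₂_term, Complex.exp_re]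
    have h8 : 2 * (π : ℂ) * Complex.I * (n : ℂ) * (y : ℂ)
        + (π : ℂ) * Complex.I * (n : ℂ) ^ 2 * Complex.I
        = ((-π * (n : ℝ) ^ 2 : ℝ) : ℂ) + ((2 * π * n * y : ℝ) : ℂ) * Complex.I := by
      have h9 : (π : ℂ) * Complex.I * (n : ℂ) ^ 2 * Complex.I
        = (π : ℂ) * (n : ℂ) ^ 2 * (Complex.I * Complex.I) := by ring
      rw [h9, Complex.I_mul_I]
      push_cast
      ring
    rw [h8]
    rw [Complex.add_re, Complex.ofReal_re, Complex.re_ofReal_mul, Complex.I_re, mul_zero, add_zero,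
      Complex.add_im, Complex.ofReal_im, Complex.im_ofReal_mul, Complex.I_im, mul_one, zero_add]
  rw [h7] at h
  have h10 : (Th (y : ℂ)).re = F (Complex.I * y) := by
    rw [Th_real, Complex.re_ofReal_mul, F, norm_I]
    simp
  rwa [h10] at h

theorem F_I_le (y : ℝ) : F (Complex.I * y) ≤ F 0 - 2 * Real.exp (-π) * (1 - Real.cos (2 * π * y)) := by
  have h0 := hasSum_cos 0
  have h1 := hasSum_cos y
  have h2 := h0.sub h1
  have h3 := sum_le_hasSum ({1, -1} : Finset ℤ) (fun n _ => by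
    have h4 : Real.cos (2 * π * n * y) ≤ 1 := Real.cos_le_one _
    have h5 : 0 < Real.exp (-π * (n : ℝ) ^ 2) := Real.exp_pos _
    have h6 : Real.cos (2 * π * n * 0) = 1 := by simp
    rw [h6]
    nlinarith) h2
  rw [Finset.sum_pair (by norm_num)] at h3
  have e1 : 2 * π * ((1 : ℤ) : ℝ) * y = 2 * π * y := by push_cast; ring
  have e2 : 2 * π * ((-1 : ℤ) : ℝ) * y = -(2 * π * y) := by push_cast; ring
  have e3 : -π * ((1 : ℤ) : ℝ) ^ 2 = -π := by push_cast; ring
  have e4 : -π * ((-1 : ℤ) : ℝ) ^ 2 = -π := by push_cast; ring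
  rw [e1, e2, e3, e4, Real.cos_neg] at h3
  simp only [mul_zero, Real.cos_zero, mul_one, Complex.ofReal_zero] at h3
  linarith

theorem F_le_I (z : ℂ) : F z ≤ F (Complex.I * (z.im : ℂ)) := by
  have hs : HasSum (fun n : ℤ => jacobiTheta₂_term n z Complex.I) (Th z) :=
    hasSum_jacobiTheta₂_term z (by simp)
  have hn : ∀ n : ℤ, ‖jacobiTheta₂_term n z Complex.I‖
      = Real.exp (-π * (n : ℝ) ^ 2 - 2 * π * n * z.im) := by
    intro n
    rw [norm_jacobiTheta₂_term]
    simp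
  have h1 := hasSum_I z.im
  have h2 : ‖Th z‖ ≤ (Th (Complex.I * z.im)).re := by
    rw [← hs.tsum_eq]
    exact tsum_of_norm_bounded h1 fun n => (hn n).le
  unfold F
  rw [norm_I]
  have h3 : (Complex.I * (z.im : ℂ)).im = z.im := by simp
  rw [h3]
  gcongr

theorem F_le_im (z : ℂ) : F z ≤ F 0 - 2 * Real.exp (-π) * (1 - Real.cos (2 * π * z.im)) :=
  (F_le_I z).trans (F_I_le z.im)

theorem F_le_re (z : ℂ) : F z ≤ F 0 - 2 * Real.exp (-π) * (1 - Real.cos (2 * π * z.re)) := by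
  have h := F_le_im (Complex.I * z)
  rw [F_rot] at h
  simpa using h

end Theta1bAux

theorem F_le (z : ℂ) :
    F z ≤ F 0 - Real.exp (-π) * ((1 - Real.cos (2 * π * z.re)) + (1 - Real.cos (2 * π * z.im))) := by
  have h1 := Theta1bAux.F_le_im z
  have h2 := Theta1bAux.F_le_re z
  linarith

/-- Gaussian type decay of the normalised theta modulus. -/
theorem F_gauss : ∃ c : ℝ, 0 < c ∧ ∀ z, F z ≤ F 0 * Real.exp (-c * dl 1 z ^ 2) := by
  have h0 := F_zero_pos
  refine ⟨8 * Real.exp (-π) / F 0, by positivity, fun z => ?_⟩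
  obtain ⟨k, hk, hw⟩ := exists_rep (ℓ := 1) one_pos z
  have h1 : F z = F (z - k) := by
    have := per_lat F F_per (z - k) k hk
    rwa [sub_add_cancel] at this
  have h2 : dl 1 z = ‖z - k‖ := by
    rw [← dl_eq_of_mem one_pos (z - k) hw]
    have := dl_add_lat (ℓ := 1) (z - k) k hk
    rwa [sub_add_cancel] at this
  rw [h1, h2]
  generalize z - k = w at hw
  obtain ⟨⟨ha, hb⟩, hc, hd⟩ := hw
  have h3 := F_le w
  have hq : ∀ x : ℝ, -(1 / 2) ≤ x → x < 1 / 2 → 8 * x ^ 2 ≤ 1 - Real.cos (2 * π * x) := by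
    intro x hx1 hx2
    have hx : |2 * π * x| ≤ π := by
      rw [abs_le]
      constructor <;> nlinarith [Real.pi_pos]
    have h := Real.cos_le_one_sub_mul_cos_sq hx
    have h4 : 2 / π ^ 2 * (2 * π * x) ^ 2 = 8 * x ^ 2 := by
      field_simp
      ring
    rw [h4] at h
    linarith
  have h5 := hq w.re ha hb
  have h6 := hq w.im hc hd
  have h7 : ‖w‖ ^ 2 = w.re ^ 2 + w.im ^ 2 := by
    rw [Complex.sq_norm, Complex.normSq_apply]; ring
  have h8 : F w ≤ F 0 - Real.exp (-π) * (8 * ‖w‖ ^ 2) := by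
    have := Real.exp_pos (-π)
    rw [h7]
    nlinarith
  have h9 := Real.add_one_le_exp (-(8 * Real.exp (-π) / F 0) * ‖w‖ ^ 2)
  calc F w ≤ F 0 - Real.exp (-π) * (8 * ‖w‖ ^ 2) := h8
    _ = F 0 * (-(8 * Real.exp (-π) / F 0) * ‖w‖ ^ 2 + 1) := by field_simp; ring
    _ ≤ _ := by gcongr

end AO

end
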