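import Pool.Agent.Lib.AO.Dist

/-
Theta1a (library AO, MP_7bfba2_an).
F z = exp(-π (im z)²) ‖Th z‖, Th z = jacobiTheta₂ z I.
-/

set_option autoImplicit false

open Complex MeasureTheory Set Metric Filter
open scoped Real ContDiff Topology

noncomputable section

namespace AO

theorem Th_differentiable : Differentiable ℂ Th := fun z =>
  differentiableAt_jacobiTheta₂_fst z (by simp)

theorem F_per : Per 1 F := by
  constructor
  · intro z
    unfold F Th
    have h : z + ((1 : ℝ) : ℂ) = z + 1 := by norm_num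
    rw [h, jacobiTheta₂_add_left]
    simp
  · intro z
    unfold F Th
    have h : z + ((1 : ℝ) : ℂ) * Complex.I = z + Complex.I := by norm_num
    rw [h, jacobiTheta₂_add_left', norm_mul, Complex.norm_exp, ← mul_assoc, ← Real.exp_add]
    have h2 : (-(π : ℂ) * Complex.I * (Complex.I + 2 * z)).re = π + 2 * π * z.im := by
      simp [Complex.mul_re, Complex.mul_im]
      ring
    rw [h2]
    have h3 : (z + Complex.I).im = z.im + 1 := by simp
    rw [h3]
    congr 2
    ring

theorem F_neg (z : ℂ) : F (-z) = F z := by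
  unfold F Th
  rw [jacobiTheta₂_neg_left]
  simp

theorem F_rot (z : ℂ) : F (Complex.I * z) = F z := by
  have h0 := jacobiTheta₂_functional_equation z Complex.I
  have h1 : -Complex.I * Complex.I = 1 := by
    rw [neg_mul, Complex.I_mul_I, neg_neg]
  have h2 : z / Complex.I = -(Complex.I * z) := by
    rw [div_eq_mul_inv, Complex.inv_I]; ring
  have h3 : (-1 : ℂ) / Complex.I = Complex.I := by
    rw [div_eq_mul_inv, Complex.inv_I]; ring
  have h4 : -(π : ℂ) * Complex.I * z ^ 2 / Complex.I = -(π : ℂ) * z ^ 2 := by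
    field_simp
  rw [h1, h2, h3, h4, Complex.one_cpow, jacobiTheta₂_neg_left] at h0
  unfold F Th
  rw [h0]
  simp only [div_one, one_mul, norm_mul, Complex.norm_exp]
  rw [← mul_assoc, ← Real.exp_add]
  have h5 : (-(π : ℂ) * z ^ 2).re = -π * (z.re ^ 2 - z.im ^ 2) := by
    rw [← Complex.ofReal_neg, Complex.re_ofReal_mul, sq, Complex.mul_re]; ring
  rw [h5]
  have h6 : (Complex.I * z).im = z.re := by simp
  rw [h6]
  congr 2
  ring

theorem F_nonneg (z : ℂ) : 0 ≤ F z := by
  unfold F
  positivity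

theorem F_zero_pos : 0 < F 0 := by
  have hs : HasSum (fun n : ℤ => jacobiTheta₂_term n 0 Complex.I) (jacobiTheta₂ 0 Complex.I) :=
    hasSum_jacobiTheta₂_term 0 (by simp)
  have ht : ∀ n : ℤ, jacobiTheta₂_term n 0 Complex.I = ((Real.exp (-π * (n : ℝ) ^ 2) : ℝ) : ℂ) := by
    intro n
    rw [jacobiTheta₂_term, Complex.ofReal_exp]
    congr 1
    push_cast
    have : (π : ℂ) * Complex.I * (n : ℂ) ^ 2 * Complex.I
        = (π : ℂ) * (n : ℂ) ^ 2 * (Complex.I * Complex.I) := by ring
    rw [mul_zero, zero_add, this, Complex.I_mul_I]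
    ring
  have hre : HasSum (fun n : ℤ => Real.exp (-π * (n : ℝ) ^ 2)) (jacobiTheta₂ 0 Complex.I).re := by
    have := Complex.hasSum_re hs
    have h7 : (fun n : ℤ => (jacobiTheta₂_term n 0 Complex.I).re)
        = fun n : ℤ => Real.exp (-π * (n : ℝ) ^ 2) := by
      funext n
      rw [ht n, Complex.ofReal_re]
    rwa [h7] at this
  have hpos : 0 < (jacobiTheta₂ 0 Complex.I).re := by
    have h1 : Real.exp (-π * ((0 : ℤ) : ℝ) ^ 2) ≤ (jacobiTheta₂ 0 Complex.I).re :=
      le_hasSum hre 0 (fun n _ => (Real.exp_pos _).le)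
    have h2 : 0 < Real.exp (-π * ((0 : ℤ) : ℝ) ^ 2) := Real.exp_pos _
    linarith
  unfold F Th
  have : jacobiTheta₂ 0 Complex.I ≠ 0 := by
    intro h
    rw [h] at hpos
    simp at hpos
  positivity

theorem F_continuous : Continuous F := by
  unfold F
  have h := Th_differentiable.continuous
  fun_prop

theorem contDiff_F2 : ContDiff ℝ ∞ (fun z => F z ^ 2) := by
  have h1 : ContDiff ℂ ∞ Th := Th_differentiable.contDiff
  have h2 : ContDiff ℝ ∞ Th := h1.restrict_scalars ℝ
  have h3 : ContDiff ℝ ∞ (fun z : ℂ => ‖Th z‖ ^ 2) := h2.norm_sq ℝ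
  have h4 : ContDiff ℝ ∞ (fun z : ℂ => Real.exp (-π * z.im ^ 2) ^ 2) := by
    have : ContDiff ℝ ∞ (fun z : ℂ => z.im) := Complex.imCLM.contDiff
    fun_prop
  have h5 : (fun z => F z ^ 2) = fun z : ℂ => Real.exp (-π * z.im ^ 2) ^ 2 * ‖Th z‖ ^ 2 := by
    funext z
    unfold F
    ring
  rw [h5]
  exact h4.mul h3

end AO

end
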