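import Pool.Agent.Lib.AO.Theta2a

/-
Theta2b (library AO, MP_7bfba2_an): local structure of `F` at its zero `VV 1`.
-/

set_option autoImplicit false

open Complex MeasureTheory Set Metric Filter
open scoped Real ContDiff Topology

noncomputable section

namespace AO

namespace Theta2bAux

theorem vv_val : VV 1 = 1 / 2 + Complex.I / 2 := by
  unfold VV
  push_cast
  ring

theorem vv_im : (VV 1).im = 1 / 2 := by
  rw [vv_val]
  simp

theorem two_vv : VV 1 + VV 1 = 1 + Complex.I := by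
  rw [vv_val]
  ring

theorem vv_mem : VV 1 ∈ VL 1 := by
  show VV 1 - VV 1 ∈ Lat 1
  exact ⟨0, 0, by simp⟩

theorem F_eq_zero_iff (z : ℂ) : F z = 0 ↔ Th z = 0 := by
  unfold F
  constructor
  · intro h
    rcases mul_eq_zero.1 h with h | h
    · exact absurd h (Real.exp_pos _).ne'
    · exact norm_eq_zero.1 h
  · intro h
    rw [h, norm_zero, mul_zero]

theorem Th_vv : Th (VV 1) = 0 := (F_eq_zero_iff _).1 ((F_zero_iff _).2 vv_mem)

theorem int_lem (m n : ℤ) (h3 : m ^ 2 + n ^ 2 < 1) : m = 0 ∧ n = 0 := by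
  have hm : m ^ 2 = 0 := by nlinarith [sq_nonneg m, sq_nonneg n]
  have hn : n ^ 2 = 0 := by nlinarith [sq_nonneg m, sq_nonneg n]
  exact ⟨pow_eq_zero_iff two_ne_zero |>.1 hm, pow_eq_zero_iff two_ne_zero |>.1 hn⟩

theorem not_mem {z : ℂ} (hz : z ≠ 0) (h1 : ‖z‖ < 1) : VV 1 + z ∉ VL 1 := by
  intro h
  have h' : VV 1 + z - VV 1 ∈ Lat 1 := h
  rw [add_sub_cancel_left] at h'
  obtain ⟨m, n, hmn⟩ := h'
  have hre : z.re = m := by
    rw [hmn]
    simp
  have him : z.im = n := by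
    rw [hmn]
    simp
  have h2 : z.re ^ 2 + z.im ^ 2 < 1 := by
    have := Complex.sq_norm z
    rw [Complex.normSq_apply] at this
    nlinarith [norm_nonneg z]
  rw [hre, him] at h2
  have h3 : (m : ℤ) ^ 2 + n ^ 2 < 1 := by exact_mod_cast h2
  obtain ⟨hm, hn⟩ := int_lem m n h3
  apply hz
  apply Complex.ext
  · rw [hre, hm]
    simp
  · rw [him, hn]
    simp

theorem small (n : ℕ) : (2 * ((n + 1 : ℕ) : ℝ) + 1) * Real.exp (-π * (((n + 1 : ℕ) : ℝ) ^ 2 + ((n + 1 : ℕ) : ℝ))) ≤ (1 / 4) ^ (n + 1) := by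
  set k : ℕ := n + 1 with hk
  have hk1 : (1 : ℝ) ≤ k := by
    rw [hk]
    push_cast
    linarith [(Nat.cast_nonneg n : (0 : ℝ) ≤ n)]
  have h1 : (2 * (k : ℝ) + 1) ≤ 3 ^ k := by
    have := one_add_mul_le_pow (a := (2 : ℝ)) (by norm_num) k
    norm_num at this
    linarith
  have h2 : Real.exp (-π * ((k : ℝ) ^ 2 + k)) ≤ Real.exp (-6) ^ k := by
    rw [← Real.exp_nat_mul]
    apply Real.exp_le_exp.2
    have := Real.pi_gt_three
    nlinarith [mul_nonneg (sub_nonneg.2 hk1) (sub_nonneg.2 this.le)]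
  have h3 : Real.exp (-6) ≤ 1 / 12 := by
    rw [Real.exp_neg, inv_eq_one_div]
    apply one_div_le_one_div_of_le (by norm_num)
    have := Real.quadratic_le_exp_of_nonneg (x := 6) (by norm_num)
    norm_num at this
    linarith
  calc (2 * (k : ℝ) + 1) * Real.exp (-π * ((k : ℝ) ^ 2 + k)) ≤ 3 ^ k * (1 / 12) ^ k := by
        apply mul_le_mul h1 (h2.trans (pow_le_pow_left₀ (Real.exp_pos _).le h3 k)) (Real.exp_pos _).le (by positivity)
    _ = (1 / 4) ^ k := by
        rw [← mul_pow]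
        norm_num

/-- The derivative of the theta function at its zero. -/
theorem dTh : jacobiTheta₂' (VV 1) Complex.I ≠ 0 := by
  have hs := (hasSum_jacobiTheta₂'_term (VV 1) (τ := Complex.I) (by simp)).nat_add_neg_add_one
  have hval : ∀ n : ℕ, jacobiTheta₂'_term n (VV 1) Complex.I + jacobiTheta₂'_term (-(n + 1 : ℤ)) (VV 1) Complex.I
      = 2 * π * Complex.I * ((-1) ^ n * (2 * n + 1) * Real.exp (-π * (n ^ 2 + n))) := by
    intro n
    have e1 : ∀ k : ℤ, jacobiTheta₂_term k (VV 1) Complex.I = (-1 : ℂ) ^ k * Complex.exp (-π * (k ^ 2 + k)) := by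
      intro k
      unfold jacobiTheta₂_term
      have : (2 * π * Complex.I * k * VV 1 + π * Complex.I * k ^ 2 * Complex.I : ℂ) = k * (π * Complex.I) + -π * (k ^ 2 + k) := by
        rw [vv_val]
        linear_combination (π * k + π * k ^ 2 : ℂ) * Complex.I_sq
      rw [this, Complex.exp_add, Complex.exp_int_mul, Complex.exp_pi_mul_I]
    have e2 : ((-1 : ℂ) ^ (-(n + 1 : ℤ))) = -(-1) ^ n := by
      rw [zpow_neg, show ((n : ℤ) + 1) = ((n + 1 : ℕ) : ℤ) by push_cast; rfl, zpow_natCast, pow_succ]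
      rcases neg_one_pow_eq_or ℂ n with h | h <;> rw [h] <;> norm_num
    unfold jacobiTheta₂'_term
    rw [e1, e1, e2]
    push_cast
    have e3 : (-(π : ℂ) * ((-((n : ℂ) + 1)) ^ 2 + -((n : ℂ) + 1))) = -π * (n ^ 2 + n) := by ring
    rw [zpow_natCast]
    simp only [e3]
    ring
  simp only [hval] at hs
  intro h0
  rw [h0] at hs
  have hpi : (2 * π * Complex.I : ℂ) ≠ 0 := by
    simp [Real.pi_ne_zero, Complex.I_ne_zero]
  set b : ℕ → ℂ := fun n => ((-1 : ℂ) ^ n * (2 * n + 1) * Real.exp (-π * (n ^ 2 + n))) with hb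
  have hs3 : HasSum b 0 := by
    rw [← hasSum_mul_left_iff hpi, mul_zero]
    exact hs
  have hs4 : HasSum (fun n => b (n + 1)) (0 - b 0) := by
    have := (hasSum_nat_add_iff' 1).2 hs3
    simpa using this
  have hb0 : b 0 = 1 := by
    simp [hb]
  have hle : ∀ n, ‖b (n + 1)‖ ≤ (1 / 4) ^ (n + 1) := by
    intro n
    refine le_trans (le_of_eq ?_) (small n)
    simp only [hb]
    rw [norm_mul, norm_mul, norm_pow, norm_neg, norm_one, one_pow, one_mul, Complex.norm_real,
      Real.norm_of_nonneg (Real.exp_pos _).le]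
    have : (2 * ((n + 1 : ℕ) : ℂ) + 1) = ((2 * ((n + 1 : ℕ) : ℝ) + 1 : ℝ) : ℂ) := by push_cast; ring
    rw [this, Complex.norm_real, Real.norm_of_nonneg (by positivity)]
  have hg : HasSum (fun n : ℕ => ((1 : ℝ) / 4) ^ (n + 1)) (1 / 3) := by
    have := (hasSum_geometric_of_lt_one (r := (1 : ℝ) / 4) (by norm_num) (by norm_num)).mul_left (1 / 4)
    have e5 : (fun n : ℕ => ((1 : ℝ) / 4) ^ (n + 1)) = fun n : ℕ => (1 : ℝ) / 4 * (1 / 4) ^ n := by
      funext n
      rw [pow_succ]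
      ring
    have e6 : (1 : ℝ) / 3 = 1 / 4 * (1 - 1 / 4)⁻¹ := by norm_num
    rw [e5, e6]
    exact this
  have h5 := hs4.norm_le_of_bounded hg hle
  rw [hb0, zero_sub, norm_neg, norm_one] at h5
  norm_num at h5

end Theta2bAux

open Theta2bAux

/-- Local structure of `F` at its zero. -/
theorem F_local : ∃ h : ℂ → ℝ, ContDiffOn ℝ ∞ h (ball 0 1) ∧
    (∀ z ∈ ball (0 : ℂ) 1, F (VV 1 + z) = ‖z‖ * Real.exp (h z)) ∧ (∀ z ∈ ball (0 : ℂ) 1, h (-z) = h z) := by
  set g : ℂ → ℂ := fun z => Th (VV 1 + z) with hg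
  have hgd : Differentiable ℂ g := Th_differentiable.comp (differentiable_id.const_add (VV 1))
  have hg0 : g 0 = 0 := by
    simp only [hg, add_zero]
    exact Th_vv
  set H : ℂ → ℂ := dslope g 0 with hH
  have hHd : Differentiable ℂ H := by
    have := (Complex.differentiableOn_dslope (s := univ) (c := (0 : ℂ)) (f := g) univ_mem).2 hgd.differentiableOn
    exact differentiableOn_univ.1 this
  have hgH : ∀ z, g z = z * H z := by
    intro z
    have := sub_smul_dslope g 0 z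
    rw [hg0, sub_zero, sub_zero, smul_eq_mul] at this
    exact this.symm
  have hH0 : H 0 ≠ 0 := by
    rw [hH, dslope_same]
    have h1 : HasDerivAt Th (jacobiTheta₂' (VV 1) Complex.I) (VV 1 + 0) := by
      rw [add_zero]
      exact hasDerivAt_jacobiTheta₂_fst (VV 1) (τ := Complex.I) (by simp)
    have h2 : HasDerivAt g (jacobiTheta₂' (VV 1) Complex.I) 0 := by
      have := h1.comp_const_add (VV 1) 0
      exact this
    rw [h2.deriv]
    exact dTh
  have hHn : ∀ z ∈ ball (0 : ℂ) 1, H z ≠ 0 := by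
    intro z hz
    by_cases h0 : z = 0
    · rw [h0]
      exact hH0
    · intro hc
      have h1 : g z = 0 := by rw [hgH, hc, mul_zero]
      have h2 : F (VV 1 + z) = 0 := (F_eq_zero_iff _).2 h1
      exact not_mem h0 (by simpa using hz) ((F_zero_iff _).1 h2)
  have hFz : ∀ z ∈ ball (0 : ℂ) 1, F (VV 1 + z) = ‖z‖ * Real.exp (Real.log ‖H z‖ - π * (1 / 2 + z.im) ^ 2) := by
    intro z hz
    have h1 : 0 < ‖H z‖ := norm_pos_iff.2 (hHn z hz)
    rw [Real.exp_sub, Real.exp_log h1]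
    have h2 : F (VV 1 + z) = Real.exp (-π * (1 / 2 + z.im) ^ 2) * (‖z‖ * ‖H z‖) := by
      unfold F
      rw [Complex.add_im, vv_im]
      have : Th (VV 1 + z) = z * H z := hgH z
      rw [this, norm_mul]
    rw [h2, neg_mul, Real.exp_neg]
    field_simp
  refine ⟨fun z => Real.log ‖H z‖ - π * (1 / 2 + z.im) ^ 2, ?_, hFz, ?_⟩
  · have hHs : ContDiffOn ℝ ∞ H (ball 0 1) := ((hHd.contDiff (n := ∞)).restrict_scalars ℝ).contDiffOn
    have h1 : ContDiffOn ℝ ∞ (fun z => ‖H z‖) (ball 0 1) := hHs.norm ℝ hHn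
    have h2 : ContDiffOn ℝ ∞ (fun z => Real.log ‖H z‖) (ball 0 1) := h1.log (fun z hz => norm_ne_zero_iff.2 (hHn z hz))
    have h3 : ContDiff ℝ ∞ (fun z : ℂ => π * (1 / 2 + z.im) ^ 2) := by
      have : ContDiff ℝ ∞ (fun z : ℂ => z.im) := Complex.imCLM.contDiff
      fun_prop
    exact h2.sub h3.contDiffOn
  · intro z hz
    by_cases h0 : z = 0
    · rw [h0, neg_zero]
    · have hz' : -z ∈ ball (0 : ℂ) 1 := by simpa using hz
      have h1 : F (VV 1 + -z) = F (VV 1 + z) := by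
        rw [← F_neg (VV 1 + -z)]
        have h2 := F_per.1 (-(VV 1 + -z))
        have h3 := F_per.2 (-(VV 1 + -z) + (1 : ℝ))
        rw [h2] at h3
        rw [← h3]
        congr 1
        have := two_vv
        push_cast
        linear_combination -this
      rw [hFz z hz, hFz (-z) hz', norm_neg] at h1
      have h4 : 0 < ‖z‖ := norm_pos_iff.2 h0
      have h5 := mul_left_cancel₀ h4.ne' h1
      exact Real.exp_injective h5

end AO

end
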