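import Pool.Agent.Lib.AO.Theta1

/-
STUB Theta2a / Theta2 (library AO, MP_7bfba2_an). Replace the sorries, keep the statements.
Zeros of F.  Let q0 = e^{-π}.  For im z in [0, 1/2] (even a little more) put s = q0 exp(-2π i z), |s| = exp(-π + 2π im z) in [q0, 1], and ζ = exp(2π i z) = q0/s.  Pair n and
-1-n in Th z = ∑ q0^{n²} ζ^n:  Th z = ∑_{n>=0} q0^{n²} (ζ^n + q0^{2n+1} ζ^{-n-1}) = ∑_{n>=0} q0^{n²} ζ^n (1 + (q0/ζ)^{2n+1}) = ∑_{n>=0} q0^{n²+n} s^{-n} (1 + s^{2n+1}), and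
1 + s^{2n+1} = (1+s) ∑_{j=0}^{2n} (-s)^j.  So Th z = (1+s)(1 + η), |η| <= ∑_{n>=1} (2n+1) q0^{n²+n} |s|^{-n} <= ∑_{n>=1} (2n+1) q0^{n²} < 1/2 for |s| <= 1; for
1 <= |s| <= 3/2: |η| <= ∑ (2n+1) q0^{n²+n} (3/2)^n < 1/2 as well.
So Th z = 0 iff s = -1 iff exp(-2π i z) = -e^π iff z = 1/2 + i/2 + k (k integer).
F_zero_iff: by periodicity and evenness (F_per, F_neg) reduce to 0 <= im z <= 1/2.
F_local: near VV 1 = (1+i)/2: Th(VV 1 + z) = z * H z with H entire (Th vanishes at VV 1: dslope / removable singularity: H = dslope Th (VV 1) (VV 1 + z)), and H z ≠ 0 for ‖z‖ < 1: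
 for z ≠ 0 because VV 1 + z is not in VL 1 (the other points of VL 1 are at distance >= 1), for z = 0 because Th'(VV 1) ≠ 0: by the factorisation (valid for |s| <= 3/2) the derivative of 1+s at the zero is
 -2π i s = 2π i ≠ 0 and 1 + η ≠ 0.
 Then h z := log ‖H z‖ - π (1/2 + im z)² is real smooth on ball 0 1 and F(VV 1 + z) = ‖z‖ exp(h z).  Evenness: F(VV 1 - z) = F(-VV 1 + z) = F(VV 1 + z) by F_neg and periodicity
 (2 VV 1 = 1 + i is a lattice point); h 0 only matters for z = 0 (trivial).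
-/

set_option autoImplicit false

open Complex MeasureTheory Set Metric Filter
open scoped Real ContDiff Topology

noncomputable section

namespace AO

namespace Theta2aAux

/-- The paired terms of the theta series. -/
theorem term_pair (z : ℂ) (n : ℕ) :
    jacobiTheta₂_term (n : ℤ) z Complex.I + jacobiTheta₂_term (-((n : ℤ) + 1)) z Complex.I =
      jacobiTheta₂_term (n : ℤ) z Complex.I *
        (1 + cexp (-π - 2 * π * Complex.I * z) ^ (2 * n + 1)) := by
  rw [mul_add, mul_one, ← Complex.exp_nat_mul]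
  congr 1
  rw [jacobiTheta₂_term, jacobiTheta₂_term, ← Complex.exp_add]
  congr 1
  push_cast
  linear_combination (2 * (n : ℂ) + 1) * π * Complex.I_mul_I

theorem exp_neg_pi_le : Real.exp (-π) ≤ 1 / 16 := by
  have h1 : Real.exp (-π) ≤ Real.exp (-3) := Real.exp_le_exp.2 (by linarith [Real.pi_gt_three])
  have h2 : Real.exp (-3) = (Real.exp (-1)) ^ 3 := by
    rw [← Real.exp_nat_mul]; norm_num
  have h3 : Real.exp (-1) ≤ 0.3679 := by
    have := Real.exp_neg_one_lt_d9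
    linarith
  have h4 : (Real.exp (-1)) ^ 3 ≤ 0.3679 ^ 3 := pow_le_pow_left₀ (Real.exp_pos _).le h3 3
  rw [h2] at h1
  refine h1.trans (h4.trans ?_)
  norm_num

/-- The majorant of the tail. -/
theorem coef_le (n : ℕ) :
    (2 * ((n : ℝ) + 1) + 1) * Real.exp (-π) ^ ((n + 1) ^ 2) ≤ 1 / 4 * (1 / 2) ^ n := by
  have hq : Real.exp (-π) ≤ 1 / 16 := exp_neg_pi_le
  have hq0 : 0 < Real.exp (-π) := Real.exp_pos _
  have h1 : Real.exp (-π) ^ ((n + 1) ^ 2) ≤ (1 / 16 : ℝ) ^ (n + 1) := by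
    calc Real.exp (-π) ^ ((n + 1) ^ 2) ≤ (1 / 16 : ℝ) ^ ((n + 1) ^ 2) :=
          pow_le_pow_left₀ hq0.le hq _
      _ ≤ (1 / 16 : ℝ) ^ (n + 1) :=
          pow_le_pow_of_le_one (by norm_num) (by norm_num) (by nlinarith)
  have h2 : (2 * (n : ℝ) + 3) / 4 ≤ 8 ^ n := by
    induction n with
    | zero => norm_num
    | succ m ih =>
      have hpre : Real.exp (-π) ^ ((m + 1) ^ 2) ≤ (1 / 16 : ℝ) ^ (m + 1) := by
        calc Real.exp (-π) ^ ((m + 1) ^ 2) ≤ (1 / 16 : ℝ) ^ ((m + 1) ^ 2) :=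
              pow_le_pow_left₀ hq0.le hq _
          _ ≤ (1 / 16 : ℝ) ^ (m + 1) :=
              pow_le_pow_of_le_one (by norm_num) (by norm_num) (by nlinarith)
      have := ih hpre
      have h8 : (1 : ℝ) ≤ 8 ^ m := one_le_pow₀ (by norm_num)
      push_cast
      rw [pow_succ]
      linarith
  have h3 : (1 / 16 : ℝ) ^ (n + 1) = 1 / 16 * ((1 / 8) ^ n * (1 / 2) ^ n) := by
    rw [pow_succ, ← mul_pow]; norm_num; ring
  have h4 : (8 : ℝ) ^ n * (1 / 8) ^ n = 1 := by rw [← mul_pow]; norm_num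
  calc (2 * ((n : ℝ) + 1) + 1) * Real.exp (-π) ^ ((n + 1) ^ 2)
      ≤ (2 * ((n : ℝ) + 1) + 1) * (1 / 16 : ℝ) ^ (n + 1) :=
        mul_le_mul_of_nonneg_left h1 (by positivity)
    _ = ((2 * (n : ℝ) + 3) / 4) * ((1 / 8) ^ n * (1 / 2) ^ n) * (1 / 4) := by rw [h3]; ring
    _ ≤ 8 ^ n * ((1 / 8) ^ n * (1 / 2) ^ n) * (1 / 4) := by
        apply mul_le_mul_of_nonneg_right _ (by norm_num)
        exact mul_le_mul_of_nonneg_right h2 (by positivity)
    _ = 1 / 4 * (1 / 2) ^ n := by rw [← mul_assoc, h4]; ring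

theorem norm_one_add_pow_le (s : ℂ) (hs : ‖s‖ ≤ 1) (m : ℕ) (hm : Odd m) :
    ‖1 + s ^ m‖ ≤ ‖1 + s‖ * m := by
  have h1 : 1 + s ^ m = (∑ i ∈ Finset.range m, (-s) ^ i) * (1 + s) := by
    have := geom_sum_mul_neg (-s) m
    rw [sub_neg_eq_add, hm.neg_pow, sub_neg_eq_add] at this
    exact this.symm
  rw [h1, norm_mul, mul_comm]
  refine mul_le_mul_of_nonneg_left ?_ (norm_nonneg _)
  calc ‖∑ i ∈ Finset.range m, (-s) ^ i‖ ≤ ∑ i ∈ Finset.range m, (1 : ℝ) := by
        refine norm_sum_le_of_le _ fun i _ => ?_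
        rw [norm_pow, norm_neg]
        exact pow_le_one₀ (norm_nonneg _) hs
    _ = m := by simp

theorem norm_term_le (z : ℂ) (hz : 0 ≤ z.im) (n : ℕ) :
    ‖jacobiTheta₂_term (n : ℤ) z Complex.I‖ ≤ Real.exp (-π) ^ (n ^ 2) := by
  rw [norm_jacobiTheta₂_term, ← Real.exp_nat_mul]
  refine Real.exp_le_exp.2 ?_
  push_cast
  rw [Complex.I_im]
  have : 0 ≤ 2 * π * n * z.im := by positivity
  nlinarith

theorem norm_s_le (z : ℂ) (hz : z.im ≤ 1 / 2) : ‖cexp (-π - 2 * π * Complex.I * z)‖ ≤ 1 := by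
  rw [Complex.norm_exp, Real.exp_le_one_iff]
  have : (-(π : ℂ) - 2 * π * Complex.I * z).re = -π + 2 * π * z.im := by
    simp
  rw [this]
  nlinarith [Real.pi_pos]

/-- The main estimate: `Th z` is close to `1 + s`. -/
theorem main_est (z : ℂ) (h0 : 0 ≤ z.im) (h1 : z.im ≤ 1 / 2) :
    ‖Th z - (1 + cexp (-π - 2 * π * Complex.I * z))‖ ≤
      1 / 2 * ‖1 + cexp (-π - 2 * π * Complex.I * z)‖ := by
  set s : ℂ := cexp (-π - 2 * π * Complex.I * z) with hs
  have hsum : HasSum (fun n : ℕ => jacobiTheta₂_term (n : ℤ) z Complex.I +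
      jacobiTheta₂_term (-((n : ℤ) + 1)) z Complex.I) (Th z) :=
    (hasSum_jacobiTheta₂_term z (by simp : 0 < (Complex.I).im)).nat_add_neg_add_one
  have hsum' := (hasSum_nat_add_iff' 1).2 hsum
  have h00 : ∑ i ∈ Finset.range 1, (jacobiTheta₂_term ((i : ℕ) : ℤ) z Complex.I +
      jacobiTheta₂_term (-(((i : ℕ) : ℤ) + 1)) z Complex.I) = 1 + s := by
    rw [Finset.sum_range_one, term_pair, ← hs]
    simp [jacobiTheta₂_term]
  rw [h00] at hsum'
  have hg : HasSum (fun n : ℕ => ‖1 + s‖ * (1 / 4 * (1 / 2 : ℝ) ^ n)) (‖1 + s‖ * (1 / 4 * 2)) :=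
    (hasSum_geometric_two.mul_left (1 / 4)).mul_left ‖1 + s‖
  have := hsum'.norm_le_of_bounded hg (fun n => ?_)
  · refine this.trans (le_of_eq ?_)
    ring
  · rw [term_pair, ← hs, norm_mul]
    have hn := norm_term_le z h0 (n + 1)
    have hp := norm_one_add_pow_le s (norm_s_le z h1) (2 * (n + 1) + 1) ⟨n + 1, rfl⟩
    calc ‖jacobiTheta₂_term ((n + 1 : ℕ) : ℤ) z Complex.I‖ * ‖1 + s ^ (2 * (n + 1) + 1)‖
        ≤ Real.exp (-π) ^ ((n + 1) ^ 2) * (‖1 + s‖ * ((2 * (n + 1) + 1 : ℕ) : ℝ)) :=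
          mul_le_mul hn hp (norm_nonneg _) (by positivity)
      _ = ‖1 + s‖ * ((2 * ((n : ℝ) + 1) + 1) * Real.exp (-π) ^ ((n + 1) ^ 2)) := by
          push_cast; ring
      _ ≤ ‖1 + s‖ * (1 / 4 * (1 / 2 : ℝ) ^ n) :=
          mul_le_mul_of_nonneg_left (coef_le n) (norm_nonneg _)

theorem Th_zero_iff (z : ℂ) (h0 : 0 ≤ z.im) (h1 : z.im ≤ 1 / 2) :
    Th z = 0 ↔ 1 + cexp (-π - 2 * π * Complex.I * z) = 0 := by
  have h := main_est z h0 h1
  constructor
  · intro hz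
    rw [hz, zero_sub, norm_neg] at h
    have : ‖1 + cexp (-π - 2 * π * Complex.I * z)‖ ≤ 0 := by linarith
    exact norm_le_zero_iff.1 this
  · intro hz
    rw [hz] at h
    simpa using h

theorem s_iff (z : ℂ) : 1 + cexp (-π - 2 * π * Complex.I * z) = 0 ↔
    ∃ k : ℤ, z = 1 / 2 * (1 + Complex.I) + k := by
  have hpi : (π : ℂ) ≠ 0 := by exact_mod_cast Real.pi_ne_zero
  have h1 : 1 + cexp (-π - 2 * π * Complex.I * z) = 0 ↔
      cexp (-π - 2 * π * Complex.I * z) = cexp (π * Complex.I) := by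
    rw [Complex.exp_pi_mul_I]
    constructor
    · intro h
      linear_combination h
    · intro h
      linear_combination h
  rw [h1, Complex.exp_eq_exp_iff_exists_int]
  constructor
  · rintro ⟨n, hn⟩
    refine ⟨-1 - n, ?_⟩
    have h2 : (2 * π * Complex.I) * (z - (1 / 2 * (1 + Complex.I) + ((-1 - n : ℤ) : ℂ))) = 0 := by
      push_cast
      linear_combination -hn + (-π) * Complex.I_mul_I
    have h3 : (2 * π * Complex.I) ≠ 0 := by
      simp [hpi]
    have := (mul_eq_zero.1 h2).resolve_left h3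
    exact sub_eq_zero.1 this
  · rintro ⟨k, hk⟩
    refine ⟨-1 - k, ?_⟩
    rw [hk]
    push_cast
    linear_combination (-π) * Complex.I_mul_I

theorem F_zero_iff_Th (z : ℂ) : F z = 0 ↔ Th z = 0 := by
  unfold F
  rw [mul_eq_zero, norm_eq_zero]
  constructor
  · rintro (h | h)
    · exact absurd h (Real.exp_pos _).ne'
    · exact h
  · exact Or.inr

theorem F_add_int (z : ℂ) (m : ℤ) : F (z + m) = F z := by
  have hnat : ∀ (m : ℕ) (z : ℂ), F (z + m) = F z := by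
    intro m
    induction m with
    | zero => intro z; simp
    | succ k ih =>
      intro z
      have h := F_per.1 (z + k)
      rw [ih z] at h
      rw [← h]
      congr 1
      push_cast; ring
  obtain ⟨k, rfl | rfl⟩ := m.eq_nat_or_neg
  · exact_mod_cast hnat k z
  · have h := hnat k (z + ((-(k : ℤ) : ℤ) : ℂ))
    rw [← h]
    congr 1
    push_cast; ring

theorem F_add_int_I (z : ℂ) (m : ℤ) : F (z + m * Complex.I) = F z := by
  have hnat : ∀ (m : ℕ) (z : ℂ), F (z + m * Complex.I) = F z := by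
    intro m
    induction m with
    | zero => intro z; simp
    | succ k ih =>
      intro z
      have h := F_per.2 (z + k * Complex.I)
      rw [ih z] at h
      rw [← h]
      congr 1
      push_cast; ring
  obtain ⟨k, rfl | rfl⟩ := m.eq_nat_or_neg
  · exact_mod_cast hnat k z
  · have h := hnat k (z + ((-(k : ℤ) : ℤ) : ℂ) * Complex.I)
    rw [← h]
    congr 1
    push_cast; ring

theorem mem_VL_iff (z : ℂ) :
    z ∈ VL 1 ↔ ∃ m n : ℤ, z = 1 / 2 * (1 + Complex.I) + (m + n * Complex.I) := by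
  unfold VL VV Lat
  simp only [Set.mem_ofPred_eq]
  refine exists_congr fun m => exists_congr fun n => ?_
  rw [sub_eq_iff_eq_add]
  push_cast
  constructor
  · intro h; rw [h]; ring
  · intro h; rw [h]; ring

theorem strip_iff (z : ℂ) (h0 : 0 ≤ z.im) (h1 : z.im ≤ 1 / 2) : F z = 0 ↔ z ∈ VL 1 := by
  rw [F_zero_iff_Th, Th_zero_iff z h0 h1, s_iff, mem_VL_iff]
  constructor
  · rintro ⟨k, hk⟩
    exact ⟨k, 0, by rw [hk]; push_cast; ring⟩
  · rintro ⟨m, n, hmn⟩
    refine ⟨m, ?_⟩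
    have him : z.im = 1 / 2 + n := by
      rw [hmn]; simp
    have hn1 : (n : ℝ) ≤ 0 := by linarith
    have hn2 : (-1 : ℝ) < n := by linarith
    have hn3 : n ≤ 0 := by exact_mod_cast hn1
    have hn4 : -1 < n := by exact_mod_cast hn2
    have hn : n = 0 := by omega
    rw [hmn, hn]
    push_cast; ring

theorem VL_neg (z : ℂ) : -z ∈ VL 1 ↔ z ∈ VL 1 := by
  have key : ∀ z : ℂ, z ∈ VL 1 → -z ∈ VL 1 := by
    intro z hz
    rw [mem_VL_iff] at hz ⊢
    obtain ⟨m, n, h⟩ := hz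
    exact ⟨-m - 1, -n - 1, by rw [h]; push_cast; ring⟩
  constructor
  · intro h
    have := key _ h
    rwa [neg_neg] at this
  · exact key z

theorem VL_add_int_I (z : ℂ) (k : ℤ) : z + k * Complex.I ∈ VL 1 ↔ z ∈ VL 1 := by
  rw [mem_VL_iff, mem_VL_iff]
  constructor
  · rintro ⟨m, n, h⟩
    exact ⟨m, n - k, by push_cast; linear_combination h⟩
  · rintro ⟨m, n, h⟩
    exact ⟨m, n + k, by push_cast; linear_combination h⟩

end Theta2aAux

theorem F_zero_iff (z : ℂ) : F z = 0 ↔ z ∈ VL 1 := by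
  set k : ℤ := -round z.im with hk
  rw [← Theta2aAux.F_add_int_I z k, ← Theta2aAux.VL_add_int_I z k]
  set w : ℂ := z + k * Complex.I with hw
  have him : w.im = z.im - round z.im := by
    rw [hw, hk]; simp; ring
  have habs : |w.im| ≤ 1 / 2 := by
    rw [him]; exact abs_sub_round _
  rw [abs_le] at habs
  rcases le_total 0 w.im with h | h
  · exact Theta2aAux.strip_iff w h habs.2
  · rw [← F_neg w, ← Theta2aAux.VL_neg w]
    refine Theta2aAux.strip_iff (-w) ?_ ?_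
    · rw [Complex.neg_im]; linarith
    · rw [Complex.neg_im]; linarith

theorem F_pos_iff (z : ℂ) : 0 < F z ↔ z ∉ VL 1 := by
  rw [← F_zero_iff]
  exact (F_nonneg z).lt_iff_ne'

end AO

end
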