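import Pool.Agent.Lib.AO.CrudeP
import Pool.Agent.Lib.AO.CrudeM
import Pool.Agent.Lib.AO.OuterB

/-
STUB UpB (library AO, MP_7bfba2_an). Replace the sorries, keep the statements.
(4.4), upper bound of ff.  crude_prof gives s1 = c7 √(δε), ε <= s1 <= δ/2 <= 1 and the profile, mass_small (c7) the mass conditions (e1 := min of the two), ff <= 2 f0 on closedBall p s1 as |ff/f0 - 1| <= 1/10 there; so outer_ff applies with s1.
 Second claim: √(δε) >= s1 (c7 <= 1).  First claim: ‖z-p‖ <= s1: ff <= 2 f0.  s1 < ‖z-p‖ =: s < 2δ: dl(z-p) = s (2δ <= 2 <= ℓ/2), |Gam z - Gam p| <= 2 (mean value inequality on the ball, Loc.gG; Gam is differentiable there, contDiffAt_Gam),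
 so ff z <= C ε²/s⁴ (1+2) e^4 and f0 ε s = 8ε²/(ε²+s²)² >= 2ε²/s⁴ (ε <= s).
-/

set_option autoImplicit false

open Complex MeasureTheory Set Metric Filter
open scoped Real ContDiff Topology

noncomputable section

namespace AO

namespace UpBAux

theorem f0_pos {ε : ℝ} (hε : 0 < ε) (s : ℝ) : 0 < f0 ε s := by
  unfold f0
  positivity

theorem f0_low {ε s : ℝ} (hε : 0 < ε) (hs : ε ≤ s) : 2 * ε ^ 2 / s ^ 4 ≤ f0 ε s := by
  have hs0 : 0 < s := lt_of_lt_of_le hε hs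
  unfold f0
  rw [div_le_div_iff₀ (by positivity) (by positivity)]
  have h1 : ε ^ 2 + s ^ 2 ≤ 2 * s ^ 2 := by nlinarith
  have h2 : (ε ^ 2 + s ^ 2) ^ 2 ≤ (2 * s ^ 2) ^ 2 := pow_le_pow_left₀ (by positivity) h1 2
  calc 2 * ε ^ 2 * (ε ^ 2 + s ^ 2) ^ 2 ≤ 2 * ε ^ 2 * (2 * s ^ 2) ^ 2 :=
        mul_le_mul_of_nonneg_left h2 (by positivity)
    _ = 8 * ε ^ 2 * s ^ 4 := by ring

theorem prof_le {f g s s1 : ℝ} (hg : 0 < g) (hs : 0 ≤ s) (hs1 : 0 < s1) (h : s ≤ s1)
    (hf : |f / g - 1| ≤ (1 / 10) * ((s * √s) / (s1 * √s1))) : f ≤ 2 * g := by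
  have h1 : (s * √s) / (s1 * √s1) ≤ 1 := by
    have h2 : 0 < s1 * √s1 := mul_pos hs1 (Real.sqrt_pos.2 hs1)
    rw [div_le_one h2]
    exact mul_le_mul h (Real.sqrt_le_sqrt h) (Real.sqrt_nonneg _) hs1.le
  have h3 := (abs_le.1 hf).2
  have h4 : f / g ≤ 2 := by linarith
  rwa [div_le_iff₀ hg] at h4

end UpBAux

open UpBAux in
theorem up_bound : ∃ M e1 : ℝ, 1 ≤ M ∧ 0 < e1 ∧ e1 ≤ 1 ∧ ∀ (c ℓ : ℝ) (N : ℕ) (A B : ℂ → ℝ) (p : ℂ) (ε δ : ℝ),
    Loc c ℓ N A B p ε δ → ε ≤ e1 * δ ^ 2 →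
    (∀ z ∈ ball p (2 * δ), ff N ℓ A B z ≤ M * f0 ε ‖z - p‖) ∧
    (∀ x, √(δ * ε) ≤ dl ℓ (x - p) → ff N ℓ A B x ≤ M * ε ^ 2 / dl ℓ (x - p) ^ 4 * (1 + dl ℓ (x - p)) *
      Real.exp (Gam N ℓ x - Gam N ℓ p + dl ℓ (x - p))) := by
  obtain ⟨c7, e, hc7, hc7', he, he', hprof⟩ := crude_prof
  obtain ⟨e2, he2, he2', hmass⟩ := mass_small c7 hc7 hc7'
  obtain ⟨C, hC, hout⟩ := outer_ff
  have hC0 : 0 < C := by linarith
  have hexp : 1 ≤ Real.exp 4 := Real.one_le_exp (by norm_num)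
  refine ⟨C * (3 * Real.exp 4), min e e2, by nlinarith, lt_min he he2,
    (min_le_left _ _).trans he', ?_⟩
  intro c ℓ N A B p ε δ hL hεδ
  have hε : 0 < ε := hL.top.pos
  have hδ := hL.dpos
  have hδ1 := hL.dle
  have hl : 0 < ℓ := hL.sys.l0
  have hten := hL.ten
  have h1 : ε ≤ e * δ ^ 2 :=
    hεδ.trans (mul_le_mul_of_nonneg_right (min_le_left _ _) (by positivity))
  have h2 : ε ≤ e2 * δ ^ 2 :=
    hεδ.trans (mul_le_mul_of_nonneg_right (min_le_right _ _) (by positivity))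
  obtain ⟨hs1, hs2, hs3⟩ := hprof c ℓ N A B p ε δ hL h1
  obtain ⟨hm1, hm2⟩ := hmass c ℓ N A B p ε δ hL.sys hε hδ hδ1 hs1 h2 hs3
  set s1 := c7 * √(δ * ε) with hs1def
  have hs1pos : 0 < s1 := lt_of_lt_of_le hε hs1
  have hin : ∀ z, ‖z - p‖ ≤ s1 → ff N ℓ A B z ≤ 2 * f0 ε ‖z - p‖ := fun z hz =>
    prof_le (f0_pos hε _) (norm_nonneg _) hs1pos hz (hs3 z hz)
  have hO := hout c ℓ N A B p ε s1 hL.sys hL.top hten hL.gB hs1 (by linarith) hin hm1 hm2
  constructor
  · intro z hz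
    have hzn : ‖z - p‖ < 2 * δ := by
      rwa [mem_ball, dist_eq_norm] at hz
    by_cases hcase : ‖z - p‖ ≤ s1
    · have h3 := hin z hcase
      have h4 := f0_pos hε ‖z - p‖
      have h5 : (2 : ℝ) ≤ C * (3 * Real.exp 4) := by nlinarith
      exact h3.trans (mul_le_mul_of_nonneg_right h5 h4.le)
    · push Not at hcase
      set s := ‖z - p‖ with hs
      have hs0 : 0 < s := lt_trans hs1pos hcase
      have hdl : dl ℓ (z - p) = s := by
        rw [dl_eq_norm' hl (z - p) (by rw [← hs]; linarith)]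
      have h3 := hO z (by rw [hdl]; exact hcase.le)
      rw [hdl] at h3
      have hG : Gam N ℓ z - Gam N ℓ p ≤ 2 := by
        have hmv := (convex_ball p (2 * δ)).norm_image_sub_le_of_norm_fderiv_le (𝕜 := ℝ)
          (f := Gam N ℓ) (C := 1 / δ) (x := p) (y := z)
          (fun w hw => (contDiffAt_Gam N hl w (hL.off w hw)).differentiableAt (by simp))
          (fun w hw => hL.gG w hw) (mem_ball_self (by linarith)) hz
        rw [← hs] at hmv
        have h4 : 1 / δ * s ≤ 2 := by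
          rw [one_div, inv_mul_le_iff₀ hδ]
          linarith
        exact (le_abs_self _).trans (hmv.trans h4)
      have h5 : Real.exp (Gam N ℓ z - Gam N ℓ p + s) ≤ Real.exp 4 :=
        Real.exp_le_exp.2 (by linarith)
      have h6 := f0_low hε (hs1.trans hcase.le)
      have h7 : 0 ≤ C * ε ^ 2 / s ^ 4 := by positivity
      calc ff N ℓ A B z ≤ C * ε ^ 2 / s ^ 4 * (1 + s) *
            Real.exp (Gam N ℓ z - Gam N ℓ p + s) := h3
        _ ≤ C * ε ^ 2 / s ^ 4 * 3 * Real.exp 4 := by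
            refine mul_le_mul ?_ h5 (Real.exp_pos _).le (by positivity)
            exact mul_le_mul_of_nonneg_left (by linarith) h7
        _ ≤ C * (3 * Real.exp 4) * (2 * ε ^ 2 / s ^ 4) := by
            have h8 : C * ε ^ 2 / s ^ 4 * 3 * Real.exp 4 = C * (3 * Real.exp 4) * (ε ^ 2 / s ^ 4) := by
              ring
            rw [h8]
            refine mul_le_mul_of_nonneg_left ?_ (by positivity)
            refine div_le_div_of_nonneg_right ?_ (by positivity)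
            nlinarith [sq_nonneg ε]
        _ ≤ C * (3 * Real.exp 4) * f0 ε s := mul_le_mul_of_nonneg_left h6 (by positivity)
  · intro x hx
    have h3 : s1 ≤ dl ℓ (x - p) := by
      refine le_trans ?_ hx
      rw [hs1def]
      exact mul_le_of_le_one_left (Real.sqrt_nonneg _) hc7'
    have h4 := hO x h3
    refine h4.trans ?_
    have hd : 0 ≤ dl ℓ (x - p) := hs1pos.le.trans h3
    refine mul_le_mul_of_nonneg_right ?_ (Real.exp_pos _).le
    refine mul_le_mul_of_nonneg_right ?_ (by linarith)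
    refine div_le_div_of_nonneg_right ?_ (by positivity)
    refine mul_le_mul_of_nonneg_right ?_ (by positivity)
    nlinarith

end AO

end
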