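import Pool.Agent.Lib.AO.Field
import Pool.Agent.Lib.AO.SysB2
import Pool.Agent.Lib.AO.GamBd
import Pool.Agent.Lib.AO.CellInt
import Pool.Agent.Lib.AO.Pomp

/-
STUB VirD (library AO, MP_7bfba2_an). Replace the sorries, keep the statements.
Section 8, divergence identity.  X z = k z • z has compact support in ball 0 (c5 ℓ), contained in the interior of Q ℓ and away from VL ℓ (‖z‖ <= ℓ/8).  The integral over ℂ of div(ff X) = dx(ff k re) + dy(ff k im) is 0 (compact support, C¹: integral_fderiv or int_cz_zero applied to complex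
 functions; or Mathlib: integral of a directional derivative of a compactly supported C¹ function is 0).  div(ff X) = ff (2k + fderiv k z z) + k fderiv ff z z; off VL ℓ ff = exp uu, so fderiv ff z z = ff (fderiv Gam z z + fderiv A z z - fderiv B z z) where k z ≠ 0.
 The functions vanish outside Q ℓ, so ∫_ℂ = ∫_Q; split the integral (each of the four integrands is continuous and bounded on Q: for the Gam term use that k vanishes near VL ℓ and gam_near/contDiffAt_Gam).
-/

set_option autoImplicit false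

open Complex MeasureTheory Set Metric Filter
open scoped Real ContDiff Topology

noncomputable section

namespace AO

namespace VirDAux

theorem int_fd_zero (f : ℂ → ℝ) (hf : ContDiff ℝ 1 f) (hc : HasCompactSupport f) (v : ℂ) :
    ∫ x, fderiv ℝ f x v = 0 := by
  have hcf : Continuous fun x => fderiv ℝ f x v :=
    (hf.continuous_fderiv one_ne_zero).clm_apply continuous_const
  have h := integral_mul_fderiv_eq_neg_fderiv_mul_of_integrable (μ := (volume : Measure ℂ))
    (f := fun _ : ℂ => (1 : ℝ)) (g := f) (v := v)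
    (by simp)
    (by
      simp only [one_mul]
      exact hcf.integrable_of_hasCompactSupport (hc.fderiv_apply (𝕜 := ℝ) v))
    (by
      simp only [one_mul]
      exact hf.continuous.integrable_of_hasCompactSupport hc)
    (fun x _ => differentiableAt_const _)
    (fun x _ => hf.differentiable one_ne_zero x)
  simpa using h

theorem fd_split (L : ℂ →L[ℝ] ℝ) (z : ℂ) : L z = L 1 * z.re + L Complex.I * z.im := by
  have h1 : z = z.re • (1 : ℂ) + z.im • Complex.I := by
    apply Complex.ext <;> simp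
  conv_lhs => rw [h1]
  rw [map_add, map_smul, map_smul, smul_eq_mul, smul_eq_mul]
  ring

/-- the divergence theorem for the radial field `g z • z` -/
theorem int_div (g : ℂ → ℝ) (hg : ContDiff ℝ 1 g) (hc : HasCompactSupport g) :
    ∫ z, (2 * g z + fderiv ℝ g z z) = 0 := by
  have hre : ContDiff ℝ 1 fun z : ℂ => z.re := Complex.reCLM.contDiff
  have him : ContDiff ℝ 1 fun z : ℂ => z.im := Complex.imCLM.contDiff
  have h1 : ContDiff ℝ 1 fun z : ℂ => g z * z.re := hg.mul hre
  have h2 : ContDiff ℝ 1 fun z : ℂ => g z * z.im := hg.mul him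
  have hc1 : HasCompactSupport fun z : ℂ => g z * z.re := hc.mul_right
  have hc2 : HasCompactSupport fun z : ℂ => g z * z.im := hc.mul_right
  have i1 := int_fd_zero _ h1 hc1 1
  have i2 := int_fd_zero _ h2 hc2 Complex.I
  have e1 : ∀ z : ℂ, fderiv ℝ (fun z : ℂ => g z * z.re) z 1 = fderiv ℝ g z 1 * z.re + g z := by
    intro z
    have hd := (hg.differentiable one_ne_zero z).hasFDerivAt
    have hr : HasFDerivAt (fun z : ℂ => z.re) Complex.reCLM z := Complex.reCLM.hasFDerivAt
    have hm : HasFDerivAt (fun z : ℂ => g z * z.re) _ z := hd.mul hr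
    rw [hm.fderiv]
    simp
    ring
  have e2 : ∀ z : ℂ, fderiv ℝ (fun z : ℂ => g z * z.im) z Complex.I
      = fderiv ℝ g z Complex.I * z.im + g z := by
    intro z
    have hd := (hg.differentiable one_ne_zero z).hasFDerivAt
    have hr : HasFDerivAt (fun z : ℂ => z.im) Complex.imCLM z := Complex.imCLM.hasFDerivAt
    have hm : HasFDerivAt (fun z : ℂ => g z * z.im) _ z := hd.mul hr
    rw [hm.fderiv]
    simp
    ring
  have j1 : Integrable fun z : ℂ => fderiv ℝ (fun z : ℂ => g z * z.re) z 1 :=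
    ((h1.continuous_fderiv one_ne_zero).clm_apply
      continuous_const).integrable_of_hasCompactSupport (hc1.fderiv_apply (𝕜 := ℝ) 1)
  have j2 : Integrable fun z : ℂ => fderiv ℝ (fun z : ℂ => g z * z.im) z Complex.I :=
    ((h2.continuous_fderiv one_ne_zero).clm_apply
      continuous_const).integrable_of_hasCompactSupport (hc2.fderiv_apply (𝕜 := ℝ) Complex.I)
  have e3 : (fun z : ℂ => 2 * g z + fderiv ℝ g z z)
      = fun z => fderiv ℝ (fun z : ℂ => g z * z.re) z 1
        + fderiv ℝ (fun z : ℂ => g z * z.im) z Complex.I := by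
    funext z
    rw [e1, e2, fd_split (fderiv ℝ g z) z]
    ring
  rw [e3, integral_add j1 j2, i1, i2, add_zero]

variable {c ℓ : ℝ} {N : ℕ} {A B : ℂ → ℝ}

theorem fd_ff (h : Sys c ℓ N A B) (hl : 0 < ℓ) {z : ℂ} (hz : z ∉ VL ℓ) (e : ℂ) :
    fderiv ℝ (ff N ℓ A B) z e = ff N ℓ A B z *
      (fderiv ℝ (Gam N ℓ) z e + fderiv ℝ A z e - fderiv ℝ B z e) := by
  have hev : ff N ℓ A B =ᶠ[𝓝 z] fun x => Real.exp (uu N ℓ A B x) := by
    filter_upwards [(isClosed_vl hl).isOpen_compl.mem_nhds hz] with x hx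
    exact h.ff_eq_exp x hx
  have hG := ((contDiffAt_Gam N hl z hz).differentiableAt (by simp)).hasFDerivAt
  have hA := (h.sA.differentiable (by simp) z).hasFDerivAt
  have hB := (h.sB.differentiable (by simp) z).hasFDerivAt
  have hu : HasFDerivAt (uu N ℓ A B)
      (fderiv ℝ (Gam N ℓ) z + fderiv ℝ A z - fderiv ℝ B z) z := (hG.add hA).sub hB
  rw [hev.fderiv_eq, hu.exp.fderiv, h.ff_eq_exp z hz]
  simp

end VirDAux

open VirDAux

set_option linter.unusedVariables false

theorem vir_div (c5 C : ℝ) (h5 : 0 < c5) (h5' : c5 ≤ 1 / 8) (hC : 1 ≤ C) (c ℓ : ℝ) (N : ℕ) (A B : ℂ → ℝ) (k : ℂ → ℝ)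
    (hS : Sys c ℓ N A B) (hl : 10 ≤ ℓ) (hk : Fld c5 C ℓ k) :
    IntegrableOn (fun x => ff N ℓ A B x * fderiv ℝ (Gam N ℓ) x (k x • x)) (Q ℓ) ∧
    (∫ x in Q ℓ, ff N ℓ A B x * (2 * k x + fderiv ℝ k x x)) +
      (∫ x in Q ℓ, ff N ℓ A B x * fderiv ℝ (Gam N ℓ) x (k x • x)) +
      (∫ x in Q ℓ, ff N ℓ A B x * fderiv ℝ A x (k x • x)) -
      (∫ x in Q ℓ, ff N ℓ A B x * fderiv ℝ B x (k x • x)) = 0 := by
  have hl0 : 0 < ℓ := by linarith
  have hfs := hS.contDiff_ff
  have hf1 : ContDiff ℝ 1 (ff N ℓ A B) := hfs.of_le (by simp)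
  have hk1 : ContDiff ℝ 1 k := hk.sm.of_le (by simp)
  have hA1 : ContDiff ℝ 1 A := hS.sA.of_le (by simp)
  have hB1 : ContDiff ℝ 1 B := hS.sB.of_le (by simp)
  obtain ⟨g, hg⟩ : ∃ g : ℂ → ℝ, ∀ z, g z = ff N ℓ A B z * k z := ⟨_, fun _ => rfl⟩
  have hgeq : g = fun z => ff N ℓ A B z * k z := funext hg
  have hg1 : ContDiff ℝ 1 g := by
    rw [hgeq]
    exact hf1.mul hk1
  have hc5 : c5 * ℓ ≤ ℓ / 8 := by
    have := mul_le_mul_of_nonneg_right h5' hl0.le
    linarith
  have hk0 : ∀ z : ℂ, ℓ / 8 ≤ ‖z‖ → k z = 0 := fun z hz => hk.zero z (hc5.trans hz)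
  have hkc : HasCompactSupport k := by
    refine HasCompactSupport.intro (isCompact_closedBall (0 : ℂ) (ℓ / 8)) ?_
    intro z hz
    rw [mem_closedBall_zero_iff, not_le] at hz
    exact hk0 z hz.le
  have hgc : HasCompactSupport g := by
    rw [hgeq]
    exact hkc.mul_left
  -- the pointwise identity
  have hfd : ∀ z : ℂ, fderiv ℝ g z z
      = fderiv ℝ (ff N ℓ A B) z z * k z + ff N ℓ A B z * fderiv ℝ k z z := by
    intro z
    have h1 := (hf1.differentiable one_ne_zero z).hasFDerivAt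
    have h2 := (hk1.differentiable one_ne_zero z).hasFDerivAt
    have hm : HasFDerivAt (fun z : ℂ => ff N ℓ A B z * k z) _ z := h1.mul h2
    rw [hgeq, hm.fderiv]
    simp
    ring
  have hid : ∀ z : ℂ, ff N ℓ A B z * fderiv ℝ (Gam N ℓ) z (k z • z)
      = (2 * g z + fderiv ℝ g z z) - ff N ℓ A B z * (2 * k z + fderiv ℝ k z z)
        - ff N ℓ A B z * fderiv ℝ A z (k z • z) + ff N ℓ A B z * fderiv ℝ B z (k z • z) := by
    intro z
    rw [hfd, hg]
    simp only [map_smul, smul_eq_mul]
    by_cases hkz : k z = 0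
    · rw [hkz]
      ring
    · have hz : z ∉ VL ℓ := by
        have h1 : ‖z‖ < ℓ / 2 := by
          by_contra hcon
          push Not at hcon
          exact hkz (hk0 z (by linarith))
        exact (GamBd1Aux.notMem_VL hl0 h1).1
      rw [fd_ff hS hl0 hz z]
      ring
  -- continuity
  have hcf := hf1.continuous
  have hck := hk1.continuous
  have hcD : Continuous fun z : ℂ => 2 * g z + fderiv ℝ g z z :=
    (continuous_const.mul hg1.continuous).add
      ((hg1.continuous_fderiv one_ne_zero).clm_apply continuous_id)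
  have hc1 : Continuous fun z : ℂ => ff N ℓ A B z * (2 * k z + fderiv ℝ k z z) :=
    hcf.mul ((continuous_const.mul hck).add
      ((hk1.continuous_fderiv one_ne_zero).clm_apply continuous_id))
  have hc3 : Continuous fun z : ℂ => ff N ℓ A B z * fderiv ℝ A z (k z • z) :=
    hcf.mul ((hA1.continuous_fderiv one_ne_zero).clm_apply (hck.smul continuous_id))
  have hc4 : Continuous fun z : ℂ => ff N ℓ A B z * fderiv ℝ B z (k z • z) :=
    hcf.mul ((hB1.continuous_fderiv one_ne_zero).clm_apply (hck.smul continuous_id))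
  have iD := integrableOn_Q_of_continuous hl0 _ hcD
  have i1 := integrableOn_Q_of_continuous hl0 _ hc1
  have i3 := integrableOn_Q_of_continuous hl0 _ hc3
  have i4 := integrableOn_Q_of_continuous hl0 _ hc4
  have hfun : (fun z : ℂ => ff N ℓ A B z * fderiv ℝ (Gam N ℓ) z (k z • z))
      = fun z => (2 * g z + fderiv ℝ g z z) - ff N ℓ A B z * (2 * k z + fderiv ℝ k z z)
        - ff N ℓ A B z * fderiv ℝ A z (k z • z) + ff N ℓ A B z * fderiv ℝ B z (k z • z) :=
    funext hid
  have hQD : ∫ z in Q ℓ, (2 * g z + fderiv ℝ g z z) = 0 := by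
    rw [setIntegral_eq_integral_of_forall_compl_eq_zero]
    · exact int_div g hg1 hgc
    · intro z hz
      have hzn : ℓ / 8 < ‖z‖ := by
        by_contra hcon
        push Not at hcon
        apply hz
        have hr := abs_le.1 ((Complex.abs_re_le_norm z).trans hcon)
        have hi := abs_le.1 ((Complex.abs_im_le_norm z).trans hcon)
        refine ⟨⟨?_, ?_⟩, ⟨?_, ?_⟩⟩ <;> linarith [hr.1, hr.2, hi.1, hi.2]
      have hev : g =ᶠ[𝓝 z] fun _ => (0 : ℝ) := by
        filter_upwards [(isOpen_lt continuous_const continuous_norm).mem_nhds hzn] with x hx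
        rw [hg, hk0 x (le_of_lt hx), mul_zero]
      rw [hev.fderiv_eq, hev.eq_of_nhds]
      simp
  have j1 : IntegrableOn (fun z : ℂ => (2 * g z + fderiv ℝ g z z)
      - ff N ℓ A B z * (2 * k z + fderiv ℝ k z z)) (Q ℓ) := iD.sub i1
  have j2 : IntegrableOn (fun z : ℂ => (2 * g z + fderiv ℝ g z z)
      - ff N ℓ A B z * (2 * k z + fderiv ℝ k z z)
      - ff N ℓ A B z * fderiv ℝ A z (k z • z)) (Q ℓ) := j1.sub i3
  refine ⟨?_, ?_⟩
  · rw [hfun]
    exact j2.add i4
  · have e1 : ∫ z in Q ℓ, ff N ℓ A B z * fderiv ℝ (Gam N ℓ) z (k z • z)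
        = (∫ z in Q ℓ, (2 * g z + fderiv ℝ g z z))
          - (∫ z in Q ℓ, ff N ℓ A B z * (2 * k z + fderiv ℝ k z z))
          - (∫ z in Q ℓ, ff N ℓ A B z * fderiv ℝ A z (k z • z))
          + ∫ z in Q ℓ, ff N ℓ A B z * fderiv ℝ B z (k z • z) := by
      rw [hfun, integral_add j2 i4, integral_sub j1 i3, integral_sub iD i1]
    rw [e1, hQD]
    ring

end AO

end
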