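import Pool.Agent.Lib.AO.VirA
import Pool.Agent.Lib.AO.VirD
import Pool.Agent.Lib.AO.GradB
import Pool.Agent.Lib.AO.GamBd

/-
Module Vir (library AO, MP_7bfba2_an).
Section 8, virial inequality.  c5, c2 from gam_conc, C from exists_field c5, k for the given ℓ.  S = ∫_Q ‖x‖² ff, S4 = ∫_Q ‖x‖⁴ ff.  In vir_div:
 ∫ ff (2k + fderiv k x x) <= 16π + C1 S/ℓ² (field_div, int_ff);  ∫ ff fderiv A x (X x) <= -16π + C' S/ℓ² (vir_A);
 fderiv Gam x (k x • x) = k x fderiv Gam x x <= -c2 k x ‖x‖² (gam_conc for ‖x‖ <= c5 ℓ; k x = 0 otherwise) <= -c2‖x‖² + c2 ‖x‖² (1 - k x) <= -c2 ‖x‖² + c2 (4/c5²) ‖x‖⁴/ℓ² (k x = 1 if ‖x‖ <= c5ℓ/2);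
 |∫ ff fderiv B x (X x)| <= CB √c ∫ ff ‖x‖ <= CB √c √(8π) √S (Cauchy-Schwarz; or ‖x‖ <= (t + ‖x‖²/t)/2 with t = √(S/8π) if S > 0; S = 0 is trivial).
 So 0 <= 16π - 16π + C S/ℓ² - c2 S + C S4/ℓ² + C √c √S.
-/

set_option autoImplicit false

open Complex MeasureTheory Set Metric Filter
open scoped Real ContDiff Topology

noncomputable section

namespace AO

theorem VirAux.cs {ℓ : ℝ} (hl : 0 < ℓ) (f : ℂ → ℝ) (hf : Continuous f) (f0 : ∀ x, 0 ≤ f x)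
    (hint : ∫ x in Q ℓ, f x = 8 * π) :
    ∫ x in Q ℓ, ‖x‖ * f x ≤ √(8 * π) * √(∫ x in Q ℓ, ‖x‖ ^ 2 * f x) := by
  have i0 : IntegrableOn f (Q ℓ) := integrableOn_Q_of_continuous hl f hf
  have i1 : IntegrableOn (fun x => ‖x‖ * f x) (Q ℓ) :=
    integrableOn_Q_of_continuous hl _ (continuous_norm.mul hf)
  have i2 : IntegrableOn (fun x => ‖x‖ ^ 2 * f x) (Q ℓ) :=
    integrableOn_Q_of_continuous hl _ ((continuous_norm.pow 2).mul hf)
  set S := ∫ x in Q ℓ, ‖x‖ ^ 2 * f x with hS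
  set L := ∫ x in Q ℓ, ‖x‖ * f x with hL
  have hS0 : 0 ≤ S := integral_nonneg fun x => mul_nonneg (by positivity) (f0 x)
  have key : ∀ t : ℝ, 0 ≤ 8 * π * (t * t) + (-2 * L) * t + S := by
    intro t
    have h1 : 0 ≤ ∫ x in Q ℓ, (t - ‖x‖) ^ 2 * f x :=
      integral_nonneg fun x => mul_nonneg (sq_nonneg _) (f0 x)
    have h2 : ∫ x in Q ℓ, (t - ‖x‖) ^ 2 * f x = t ^ 2 * (8 * π) - 2 * t * L + S := by
      have h3 : (fun x : ℂ => (t - ‖x‖) ^ 2 * f x) =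
          fun x => (t ^ 2 * f x - 2 * t * (‖x‖ * f x)) + ‖x‖ ^ 2 * f x := by
        funext x
        ring
      have j : IntegrableOn (fun x => t ^ 2 * f x - 2 * t * (‖x‖ * f x)) (Q ℓ) :=
        (i0.const_mul _).sub (i1.const_mul _)
      rw [h3, integral_add j i2, integral_sub (i0.const_mul _) (i1.const_mul _),
        integral_const_mul, integral_const_mul, hint]
    rw [h2] at h1
    linarith
  have h4 := discrim_le_zero key
  unfold discrim at h4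
  have h5 : L ^ 2 ≤ 8 * π * S := by nlinarith
  rw [← Real.sqrt_mul (by positivity)]
  exact Real.le_sqrt_of_sq_le h5

theorem virial : ∃ C a : ℝ, 1 ≤ C ∧ 0 < a ∧ ∀ (c ℓ : ℝ) (N : ℕ) (A B : ℂ → ℝ), Sys c ℓ N A B → 10 ≤ ℓ →
    a * (∫ x in Q ℓ, ‖x‖ ^ 2 * ff N ℓ A B x) ≤ C * √c * √(∫ x in Q ℓ, ‖x‖ ^ 2 * ff N ℓ A B x) +
      C * ((∫ x in Q ℓ, ‖x‖ ^ 2 * ff N ℓ A B x) + ∫ x in Q ℓ, ‖x‖ ^ 4 * ff N ℓ A B x) / ℓ ^ 2 := by
  obtain ⟨c5, c2, h5, h5', h2, hconc⟩ := gam_conc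
  obtain ⟨C, hC, hfield⟩ := exists_field c5 h5
  obtain ⟨C', hC', hA⟩ := vir_A c5 C h5 h5' hC
  obtain ⟨CB, hCB, hB⟩ := gradB_small
  set C1 : ℝ := (2 + C) * (4 / c5 ^ 2) with hC1
  have hC10 : 0 ≤ C1 := by positivity
  set C2 : ℝ := c2 * (4 / c5 ^ 2) with hC2
  have hC20 : 0 ≤ C2 := by positivity
  refine ⟨CB * √(8 * π) + C1 + C' + C2 + 1, c2, ?_, h2, ?_⟩
  · have : 0 ≤ CB * √(8 * π) := by positivity
    linarith
  intro c ℓ N A B hS hl
  have hl0 : 0 < ℓ := hS.l0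
  obtain ⟨k, hk⟩ := hfield ℓ hl
  obtain ⟨iG, hdiv⟩ := vir_div c5 C h5 h5' hC c ℓ N A B k hS hl hk
  have hAA := hA c ℓ N A B k hS hl hk
  set f := ff N ℓ A B with hf
  have cf : Continuous f := hS.contDiff_ff.continuous
  have f0 : ∀ z, 0 ≤ f z := ff_nonneg N ℓ A B
  have hint : ∫ z in Q ℓ, f z = 8 * π := hS.int_ff
  have i0 : IntegrableOn f (Q ℓ) := integrableOn_Q_of_continuous hl0 f cf
  have i1 : IntegrableOn (fun x => ‖x‖ * f x) (Q ℓ) :=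
    integrableOn_Q_of_continuous hl0 _ (continuous_norm.mul cf)
  have i2 : IntegrableOn (fun x => ‖x‖ ^ 2 * f x) (Q ℓ) :=
    integrableOn_Q_of_continuous hl0 _ ((continuous_norm.pow 2).mul cf)
  have i4 : IntegrableOn (fun x => ‖x‖ ^ 4 * f x) (Q ℓ) :=
    integrableOn_Q_of_continuous hl0 _ ((continuous_norm.pow 4).mul cf)
  set S := ∫ x in Q ℓ, ‖x‖ ^ 2 * f x with hSd
  set S4 := ∫ x in Q ℓ, ‖x‖ ^ 4 * f x with hS4
  have hS0 : 0 ≤ S := integral_nonneg fun x => mul_nonneg (by positivity) (f0 x)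
  have hS40 : 0 ≤ S4 := integral_nonneg fun x => mul_nonneg (by positivity) (f0 x)
  have cdk : Continuous (fun x : ℂ => fderiv ℝ k x x) :=
    (hk.sm.continuous_fderiv (by simp)).clm_apply continuous_id
  have cdB : Continuous (fun x : ℂ => fderiv ℝ B x (k x • x)) :=
    (hS.sB.continuous_fderiv (by simp)).clm_apply (hk.sm.continuous.smul continuous_id)
  -- the divergence of the field
  have e1 : ∫ x in Q ℓ, f x * (2 * k x + fderiv ℝ k x x) ≤ 16 * π + C1 * S / ℓ ^ 2 := by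
    have h3 : ∫ x in Q ℓ, f x * (2 * k x + fderiv ℝ k x x) ≤
        ∫ x in Q ℓ, (2 * f x + C1 / ℓ ^ 2 * (‖x‖ ^ 2 * f x)) := by
      refine integral_mono (integrableOn_Q_of_continuous hl0 _
        (cf.mul ((continuous_const.mul hk.sm.continuous).add cdk)))
        ((i0.const_mul _).add (i2.const_mul _)) fun x => ?_
      have h4 := (abs_le.1 (field_div c5 C ℓ k h5 h5' hC hl hk x)).2
      dsimp only
      have h6 : 2 * k x + fderiv ℝ k x x ≤ 2 + C1 * ‖x‖ ^ 2 / ℓ ^ 2 := by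
        rw [hC1]
        linarith
      calc f x * (2 * k x + fderiv ℝ k x x) ≤ f x * (2 + C1 * ‖x‖ ^ 2 / ℓ ^ 2) :=
            mul_le_mul_of_nonneg_left h6 (f0 x)
        _ = 2 * f x + C1 / ℓ ^ 2 * (‖x‖ ^ 2 * f x) := by ring
    refine h3.trans (le_of_eq ?_)
    rw [integral_add (i0.const_mul _) (i2.const_mul _), integral_const_mul, integral_const_mul,
      hint]
    ring
  -- the potential of the vortices
  have e2 : ∫ x in Q ℓ, f x * fderiv ℝ (Gam N ℓ) x (k x • x) ≤ -c2 * S + C2 * S4 / ℓ ^ 2 := by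
    have h3 : ∫ x in Q ℓ, f x * fderiv ℝ (Gam N ℓ) x (k x • x) ≤
        ∫ x in Q ℓ, (-c2 * (‖x‖ ^ 2 * f x) + C2 / ℓ ^ 2 * (‖x‖ ^ 4 * f x)) := by
      refine integral_mono iG ((i2.const_mul _).add (i4.const_mul _)) fun x => ?_
      dsimp only
      have hk0 := hk.nn x
      have hk1 := hk.le x
      have a1 : fderiv ℝ (Gam N ℓ) x (k x • x) ≤ k x * (-c2 * ‖x‖ ^ 2) := by
        rw [map_smul, smul_eq_mul]
        rcases le_or_gt ‖x‖ (c5 * ℓ) with hx | hx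
        · exact mul_le_mul_of_nonneg_left (hconc c ℓ N x hS.c0 hS.c1 hl hS.area hx) hk0
        · rw [hk.zero x hx.le, zero_mul, zero_mul]
      have a2 : (1 - k x) * ‖x‖ ^ 2 ≤ 4 / c5 ^ 2 * (‖x‖ ^ 4 / ℓ ^ 2) := by
        rcases le_or_gt ‖x‖ (c5 * ℓ / 2) with hx | hx
        · rw [hk.one x hx, sub_self, zero_mul]
          positivity
        · have a3 : 1 ≤ 4 / c5 ^ 2 * (‖x‖ ^ 2 / ℓ ^ 2) := by
            rw [div_mul_div_comm, le_div_iff₀ (by positivity), one_mul, ← mul_pow]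
            have a4 : c5 * ℓ ≤ 2 * ‖x‖ := by linarith
            have a5 : (c5 * ℓ) ^ 2 ≤ (2 * ‖x‖) ^ 2 := pow_le_pow_left₀ (by positivity) a4 2
            calc (c5 * ℓ) ^ 2 ≤ (2 * ‖x‖) ^ 2 := a5
              _ = 4 * ‖x‖ ^ 2 := by ring
          calc (1 - k x) * ‖x‖ ^ 2 ≤ 1 * ‖x‖ ^ 2 :=
                mul_le_mul_of_nonneg_right (by linarith) (by positivity)
            _ ≤ (4 / c5 ^ 2 * (‖x‖ ^ 2 / ℓ ^ 2)) * ‖x‖ ^ 2 :=
                mul_le_mul_of_nonneg_right a3 (by positivity)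
            _ = 4 / c5 ^ 2 * (‖x‖ ^ 4 / ℓ ^ 2) := by ring
      have a6 : fderiv ℝ (Gam N ℓ) x (k x • x) ≤
          -c2 * ‖x‖ ^ 2 + c2 * (4 / c5 ^ 2 * (‖x‖ ^ 4 / ℓ ^ 2)) := by
        have a7 := mul_le_mul_of_nonneg_left a2 h2.le
        calc fderiv ℝ (Gam N ℓ) x (k x • x) ≤ k x * (-c2 * ‖x‖ ^ 2) := a1
          _ = -c2 * ‖x‖ ^ 2 + c2 * ((1 - k x) * ‖x‖ ^ 2) := by ring
          _ ≤ _ := by linarith
      calc f x * fderiv ℝ (Gam N ℓ) x (k x • x) ≤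
            f x * (-c2 * ‖x‖ ^ 2 + c2 * (4 / c5 ^ 2 * (‖x‖ ^ 4 / ℓ ^ 2))) :=
            mul_le_mul_of_nonneg_left a6 (f0 x)
        _ = -c2 * (‖x‖ ^ 2 * f x) + C2 / ℓ ^ 2 * (‖x‖ ^ 4 * f x) := by
            rw [hC2]
            ring
    refine h3.trans (le_of_eq ?_)
    rw [integral_add (i2.const_mul _) (i4.const_mul _), integral_const_mul, integral_const_mul]
    ring
  -- the function B
  have e3 : -(∫ x in Q ℓ, f x * fderiv ℝ B x (k x • x)) ≤ CB * √(8 * π) * √c * √S := by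
    have h3 : -(∫ x in Q ℓ, f x * fderiv ℝ B x (k x • x)) ≤
        ∫ x in Q ℓ, CB * √c * (‖x‖ * f x) := by
      rw [← integral_neg]
      refine integral_mono (integrableOn_Q_of_continuous hl0 _ (cf.mul cdB).neg)
        (i1.const_mul _) fun x => ?_
      dsimp only
      have b1 : |fderiv ℝ B x (k x • x)| ≤ CB * √c * ‖x‖ := by
        rw [← Real.norm_eq_abs]
        refine ((fderiv ℝ B x).le_opNorm _).trans ?_
        exact mul_le_mul (hB c ℓ N A B hS x) (field_bd c5 C ℓ k h5 hl hk x).1 (norm_nonneg _)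
          (by positivity)
      have b2 := neg_le_of_abs_le b1
      calc -(f x * fderiv ℝ B x (k x • x)) = f x * (-fderiv ℝ B x (k x • x)) := by ring
        _ ≤ f x * (CB * √c * ‖x‖) := mul_le_mul_of_nonneg_left (by linarith) (f0 x)
        _ = CB * √c * (‖x‖ * f x) := by ring
    refine h3.trans ?_
    rw [integral_const_mul]
    have h4 := VirAux.cs hl0 f cf f0 hint
    calc CB * √c * ∫ x in Q ℓ, ‖x‖ * f x ≤ CB * √c * (√(8 * π) * √S) :=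
          mul_le_mul_of_nonneg_left h4 (by positivity)
      _ = CB * √(8 * π) * √c * √S := by ring
  have e4 : ∫ x in Q ℓ, f x * fderiv ℝ A x (k x • x) ≤ -(16 * π) + C' * S / ℓ ^ 2 := by
    have := (abs_le.1 hAA).2
    linarith
  have e5 : c2 * S ≤ CB * √(8 * π) * √c * √S + (C1 * S / ℓ ^ 2 + C' * S / ℓ ^ 2 +
      C2 * S4 / ℓ ^ 2) := by
    linarith
  refine e5.trans (add_le_add ?_ ?_)
  · refine mul_le_mul_of_nonneg_right (mul_le_mul_of_nonneg_right ?_ (Real.sqrt_nonneg _))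
      (Real.sqrt_nonneg _)
    linarith
  · have g0 : 0 ≤ CB * √(8 * π) := by positivity
    have g1 : 0 ≤ S / ℓ ^ 2 := by positivity
    have g2 : 0 ≤ S4 / ℓ ^ 2 := by positivity
    have g3 : (C1 + C') * (S / ℓ ^ 2) ≤ (CB * √(8 * π) + C1 + C' + C2 + 1) * (S / ℓ ^ 2) :=
      mul_le_mul_of_nonneg_right (by linarith) g1
    have g4 : C2 * (S4 / ℓ ^ 2) ≤ (CB * √(8 * π) + C1 + C' + C2 + 1) * (S4 / ℓ ^ 2) :=
      mul_le_mul_of_nonneg_right (by linarith) g2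
    calc C1 * S / ℓ ^ 2 + C' * S / ℓ ^ 2 + C2 * S4 / ℓ ^ 2
        = (C1 + C') * (S / ℓ ^ 2) + C2 * (S4 / ℓ ^ 2) := by ring
      _ ≤ (CB * √(8 * π) + C1 + C' + C2 + 1) * (S / ℓ ^ 2) +
          (CB * √(8 * π) + C1 + C' + C2 + 1) * (S4 / ℓ ^ 2) := add_le_add g3 g4
      _ = (CB * √(8 * π) + C1 + C' + C2 + 1) * (S + S4) / ℓ ^ 2 := by ring

end AO

end
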