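import Pool.Agent.Lib.AO.VirK
import Pool.Agent.Lib.AO.SysB2
import Pool.Agent.Lib.AO.Rep
import Pool.Agent.Lib.AO.KInt

/-
STUB VirA (library AO, MP_7bfba2_an). Replace the sorries, keep the statements.
Section 8, the self-interaction.  X z = k z • z.  rep_grad' (k = 8π/ℓ²): fderiv A x (X x) = ∫_Q fderiv Gl (x-y)(X x) ff y dy.  So I := ∫_Q ff x fderiv A x (X x) dx = ∫_Q ∫_Q ff x ff y fderiv Gl (x-y)(X x); exchanging the names of x, y, Fubini and g_odd: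
 I = (1/2) ∫∫ ff x ff y fderiv Gl (x-y)(X x - X y)  (all integrals absolutely convergent: |fderiv Gl (x-y)| <= C/dl(x-y), kint_inv, X bounded by c5 ℓ).
 vir_kernel (the diagonal x = y is a null set): |I + (1/2)(1/(2π))(8π)²| <= (1/2) C' ∫∫ (‖x‖²+‖y‖²)/ℓ² ff x ff y = 8π C' S/ℓ², S = ∫_Q ‖x‖² ff; and (1/2)(1/(2π))(8π)² = 16π.
-/

set_option autoImplicit false

open Complex MeasureTheory Set Metric Filter
open scoped Real ContDiff Topology

noncomputable section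

namespace AO

namespace VirAAux

variable {ℓ : ℝ}

theorem sub_not_lat (hl : 0 < ℓ) {x y : ℂ} (hx : x ∈ Q ℓ) (hy : y ∈ Q ℓ) (hxy : x ≠ y) :
    x - y ∉ Lat ℓ := by
  rintro ⟨m, n, h⟩
  obtain ⟨⟨a1, a2⟩, a3, a4⟩ := hx
  obtain ⟨⟨b1, b2⟩, b3, b4⟩ := hy
  have hre : x.re - y.re = ℓ * m := by
    have := congrArg Complex.re h
    simpa using this
  have him : x.im - y.im = ℓ * n := by
    have := congrArg Complex.im h
    simpa using this
  have key : ∀ (t : ℝ) (j : ℤ), t = ℓ * j → -ℓ < t → t < ℓ → t = 0 := by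
    intro t j h1 h2 h3
    have h4 : (-1 : ℝ) < j := by
      by_contra h5
      push Not at h5
      nlinarith
    have h5 : (j : ℝ) < 1 := by
      by_contra h5
      push Not at h5
      nlinarith
    have h6 : -1 < j := by exact_mod_cast h4
    have h7 : j < 1 := by exact_mod_cast h5
    have h8 : j = 0 := by omega
    rw [h1, h8]
    simp
  have e1 := key _ m hre (by linarith) (by linarith)
  have e2 := key _ n him (by linarith) (by linarith)
  exact hxy (Complex.ext (by linarith) (by linarith))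

theorem dG_zero (hl : 0 < ℓ) : fderiv ℝ (Gl ℓ) 0 = 0 := by
  have h := g_odd ℓ hl 0
  rw [neg_zero] at h
  ext e
  have h2 := congrArg (fun L : ℂ →L[ℝ] ℝ => L e) h
  simp only [ContinuousLinearMap.neg_apply] at h2
  rw [ContinuousLinearMap.zero_apply]
  linarith

theorem dG_bd : ∃ C : ℝ, 0 < C ∧ ∀ ℓ : ℝ, 0 < ℓ → ∀ x ∈ Q ℓ, ∀ y ∈ Q ℓ, ∀ e : ℂ,
    |fderiv ℝ (Gl ℓ) (x - y) e| ≤ C * ‖e‖ / dl ℓ (x - y) := by
  obtain ⟨C, hC, hg⟩ := g_grad
  refine ⟨C, hC, ?_⟩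
  intro ℓ hl x hx y hy e
  by_cases hxy : x = y
  · subst hxy
    rw [sub_self, dG_zero hl]
    simp only [ContinuousLinearMap.zero_apply, abs_zero]
    exact div_nonneg (by positivity) (dl_nonneg _)
  · have h1 := (hg ℓ (x - y) hl (sub_not_lat hl hx hy hxy)).2
    have h2 := (fderiv ℝ (Gl ℓ) (x - y)).le_opNorm e
    rw [Real.norm_eq_abs] at h2
    refine h2.trans ?_
    calc ‖fderiv ℝ (Gl ℓ) (x - y)‖ * ‖e‖ ≤ C / dl ℓ (x - y) * ‖e‖ :=
          mul_le_mul_of_nonneg_right h1 (norm_nonneg _)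
      _ = C * ‖e‖ / dl ℓ (x - y) := by ring

theorem meas_ker (g : ℂ × ℂ → ℂ) (hg : Measurable g) :
    Measurable (fun p : ℂ × ℂ => fderiv ℝ (Gl ℓ) (p.1 - p.2) (g p)) := by
  have h1 : (fun p : ℂ × ℂ => fderiv ℝ (Gl ℓ) (p.1 - p.2) (g p)) =
      fun p : ℂ × ℂ => (g p).re * fderiv ℝ (Gl ℓ) (p.1 - p.2) 1 +
        (g p).im * fderiv ℝ (Gl ℓ) (p.1 - p.2) I := by
    funext p
    conv_lhs => rw [show g p = ((g p).re : ℝ) • (1 : ℂ) + ((g p).im : ℝ) • I by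
      simp]
    rw [map_add, map_smul, map_smul, smul_eq_mul, smul_eq_mul]
  rw [h1]
  have h2 : Measurable (fun p : ℂ × ℂ => p.1 - p.2) := measurable_fst.sub measurable_snd
  exact ((Complex.measurable_re.comp hg).mul ((RepAAux.measurable_dG ℓ 1).comp h2)).add
    ((Complex.measurable_im.comp hg).mul ((RepAAux.measurable_dG ℓ I).comp h2))

theorem ae_Q (ℓ : ℝ) : ∀ᵐ p ∂((volume.restrict (Q ℓ)).prod (volume.restrict (Q ℓ)) : Measure (ℂ × ℂ)),
    p.1 ∈ Q ℓ ∧ p.2 ∈ Q ℓ ∧ p.1 ≠ p.2 := by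
  have hm : MeasurableSet {p : ℂ × ℂ | p.1 ∈ Q ℓ ∧ p.2 ∈ Q ℓ ∧ p.1 ≠ p.2} := by
    refine (measurable_fst measurableSet_Q).inter ((measurable_snd measurableSet_Q).inter ?_)
    exact (isClosed_eq continuous_fst continuous_snd).isOpen_compl.measurableSet
  rw [Measure.ae_prod_iff_ae_ae hm]
  filter_upwards [ae_restrict_mem measurableSet_Q] with x hx
  have h1 : ∀ᵐ y ∂(volume.restrict (Q ℓ) : Measure ℂ), y ≠ x := by
    apply ae_restrict_of_ae
    rw [ae_iff]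
    simp
  filter_upwards [ae_restrict_mem measurableSet_Q, h1] with y hy h2
  exact ⟨hx, hy, fun h => h2 h.symm⟩

theorem finiteQ (hl : 0 < ℓ) : IsFiniteMeasure (volume.restrict (Q ℓ) : Measure ℂ) := by
  have h : IntegrableOn (fun _ : ℂ => (1 : ℝ)) (Q ℓ) := integrableOn_Q_of_continuous hl _ continuous_const
  have h2 := (integrable_const_iff (μ := volume.restrict (Q ℓ)) (c := (1 : ℝ))).1 h
  rcases h2 with h3 | h3
  · norm_num at h3
  · exact h3

/-- the kernel function on the product is integrable -/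
theorem int_prod (hl : 0 < ℓ) (f : ℂ → ℝ) (hf : Continuous f) (pf : Per ℓ f) (f0 : ∀ z, 0 ≤ f z)
    (X : ℂ → ℂ) (hX : Measurable X) (D : ℝ) (hD : ∀ z, ‖X z‖ ≤ D) :
    Integrable (fun p : ℂ × ℂ => f p.1 * f p.2 * fderiv ℝ (Gl ℓ) (p.1 - p.2) (X p.1))
      ((volume.restrict (Q ℓ)).prod (volume.restrict (Q ℓ))) := by
  haveI := finiteQ hl
  obtain ⟨C, hC, hg⟩ := dG_bd
  obtain ⟨M, hM⟩ := per_bounded hl f pf hf
  have hM' : ∀ z, f z ≤ M := fun z => (le_abs_self _).trans (hM z)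
  have hM0 : 0 ≤ M := (f0 0).trans (hM' 0)
  have hD0 : 0 ≤ D := (norm_nonneg _).trans (hD 0)
  have hmeas : Measurable (fun p : ℂ × ℂ => f p.1 * f p.2 * fderiv ℝ (Gl ℓ) (p.1 - p.2) (X p.1)) :=
    ((hf.measurable.comp measurable_fst).mul (hf.measurable.comp measurable_snd)).mul
      (meas_ker (fun p => X p.1) (hX.comp measurable_fst))
  have hpt : ∀ x ∈ Q ℓ, ∀ y ∈ Q ℓ, ‖f x * f y * fderiv ℝ (Gl ℓ) (x - y) (X x)‖ ≤
      M * C * D * (f y / dl ℓ (x - y)) := by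
    intro x hx y hy
    rw [norm_mul, norm_mul, Real.norm_eq_abs, Real.norm_eq_abs, Real.norm_eq_abs,
      abs_of_nonneg (f0 x), abs_of_nonneg (f0 y)]
    have h1 := hg ℓ hl x hx y hy (X x)
    have h2 : C * ‖X x‖ / dl ℓ (x - y) ≤ C * D / dl ℓ (x - y) :=
      div_le_div_of_nonneg_right (mul_le_mul_of_nonneg_left (hD x) hC.le) (dl_nonneg _)
    have h3 : 0 ≤ C * D / dl ℓ (x - y) := div_nonneg (by positivity) (dl_nonneg _)
    calc f x * f y * |fderiv ℝ (Gl ℓ) (x - y) (X x)| ≤ M * f y * (C * D / dl ℓ (x - y)) := by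
          apply mul_le_mul _ (h1.trans h2) (abs_nonneg _) (mul_nonneg hM0 (f0 y))
          exact mul_le_mul_of_nonneg_right (hM' x) (f0 y)
      _ = M * C * D * (f y / dl ℓ (x - y)) := by ring
  have hki : ∀ x, IntegrableOn (fun y => f y / dl ℓ (x - y)) (Q ℓ) ∧
      ∫ y in Q ℓ, f y / dl ℓ (x - y) ≤ 2 * π * 1 * M + (∫ z in Q ℓ, f z) / 1 := fun x =>
    kint_inv hl f pf hf f0 M (∫ z in Q ℓ, f z) hM' le_rfl x 1 one_pos
  rw [integrable_prod_iff hmeas.aestronglyMeasurable]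
  constructor
  · filter_upwards [ae_restrict_mem measurableSet_Q] with x hx
    refine Integrable.mono' ((hki x).1.const_mul (M * C * D))
      (hmeas.comp measurable_prodMk_left).aestronglyMeasurable ?_
    filter_upwards [ae_restrict_mem measurableSet_Q] with y hy
    exact hpt x hx y hy
  · refine Integrable.mono' (integrable_const (M * C * D * (2 * π * 1 * M + (∫ z in Q ℓ, f z) / 1)))
      hmeas.aestronglyMeasurable.norm.integral_prod_right' ?_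
    filter_upwards [ae_restrict_mem measurableSet_Q] with x hx
    rw [Real.norm_of_nonneg (integral_nonneg fun _ => norm_nonneg _)]
    calc ∫ y in Q ℓ, ‖f x * f y * fderiv ℝ (Gl ℓ) (x - y) (X x)‖
        ≤ ∫ y in Q ℓ, M * C * D * (f y / dl ℓ (x - y)) := by
          apply integral_mono_of_nonneg
          · exact Eventually.of_forall fun _ => norm_nonneg _
          · exact (hki x).1.const_mul _
          · filter_upwards [ae_restrict_mem measurableSet_Q] with y hy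
            exact hpt x hx y hy
      _ = M * C * D * ∫ y in Q ℓ, (f y / dl ℓ (x - y)) := integral_const_mul _ _
      _ ≤ M * C * D * (2 * π * 1 * M + (∫ z in Q ℓ, f z) / 1) :=
          mul_le_mul_of_nonneg_left (hki x).2 (by positivity)

end VirAAux

open VirAAux

theorem vir_A (c5 C : ℝ) (h5 : 0 < c5) (h5' : c5 ≤ 1 / 8) (hC : 1 ≤ C) : ∃ C' : ℝ, 1 ≤ C' ∧
    ∀ (c ℓ : ℝ) (N : ℕ) (A B : ℂ → ℝ) (k : ℂ → ℝ), Sys c ℓ N A B → 10 ≤ ℓ → Fld c5 C ℓ k →
    |(∫ x in Q ℓ, ff N ℓ A B x * fderiv ℝ A x (k x • x)) + 16 * π| ≤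
      C' * (∫ x in Q ℓ, ‖x‖ ^ 2 * ff N ℓ A B x) / ℓ ^ 2 := by
  obtain ⟨C', hC', hker⟩ := vir_kernel c5 C h5 h5' hC
  have hpi := Real.pi_gt_three
  refine ⟨8 * π * C', by nlinarith, ?_⟩
  intro c ℓ N A B k hS hl10 hk
  have hl : 0 < ℓ := hS.l0
  haveI := finiteQ hl
  set f := ff N ℓ A B with hfdef
  have hf : Continuous f := hS.contDiff_ff.continuous
  have pf : Per ℓ f := hS.per_ff
  have f0 : ∀ z, 0 ≤ f z := ff_nonneg N ℓ A B
  have hint : ∫ z in Q ℓ, f z = 8 * π := hS.int_ff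
  have hkc : Continuous k := hk.sm.continuous
  have hXc : Continuous (fun x : ℂ => k x • x) := hkc.smul continuous_id
  have hXD : ∀ z : ℂ, ‖k z • z‖ ≤ c5 * ℓ := fun z => (field_bd c5 C ℓ k h5 hl10 hk z).2
  set μ : Measure ℂ := volume.restrict (Q ℓ) with hμ
  set H : ℂ × ℂ → ℝ := fun p => f p.1 * f p.2 * fderiv ℝ (Gl ℓ) (p.1 - p.2) (k p.1 • p.1) with hH
  have hHi : Integrable H (μ.prod μ) :=
    int_prod hl f hf pf f0 (fun x => k x • x) hXc.measurable (c5 * ℓ) hXD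
  -- the integral as a double integral
  have hI : ∫ x in Q ℓ, f x * fderiv ℝ A x (k x • x) = ∫ p, H p ∂(μ.prod μ) := by
    rw [integral_prod H hHi]
    refine integral_congr_ae (Eventually.of_forall fun x => ?_)
    show f x * fderiv ℝ A x (k x • x) = ∫ y in Q ℓ, f x * f y * fderiv ℝ (Gl ℓ) (x - y) (k x • x)
    rw [rep_grad' hl A hS.sA hS.pA (8 * π / ℓ ^ 2) f hS.eA x (k x • x), ← integral_const_mul]
    refine integral_congr_ae (Eventually.of_forall fun y => ?_)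
    show f x * (fderiv ℝ (Gl ℓ) (x - y) (k x • x) * f y) = f x * f y * fderiv ℝ (Gl ℓ) (x - y) (k x • x)
    ring
  have hswap : ∫ p, H p.swap ∂(μ.prod μ) = ∫ p, H p ∂(μ.prod μ) := integral_prod_swap H
  have hHs : Integrable (fun p : ℂ × ℂ => H p.swap) (μ.prod μ) := hHi.swap
  have hsum : ∀ p : ℂ × ℂ, H p + H p.swap =
      f p.1 * f p.2 * fderiv ℝ (Gl ℓ) (p.1 - p.2) (k p.1 • p.1 - k p.2 • p.2) := by
    intro p
    simp only [hH, Prod.fst_swap, Prod.snd_swap]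
    have h1 : fderiv ℝ (Gl ℓ) (p.2 - p.1) = -fderiv ℝ (Gl ℓ) (p.1 - p.2) := by
      rw [← neg_sub p.1 p.2]
      exact g_odd ℓ hl _
    rw [h1, map_sub, ContinuousLinearMap.neg_apply]
    ring
  -- the constant term
  have hfi : Integrable f μ := integrableOn_Q_of_continuous hl f hf
  have hff : Integrable (fun p : ℂ × ℂ => f p.1 * f p.2) (μ.prod μ) := hfi.mul_prod hfi
  have hffint : ∫ p, f p.1 * f p.2 ∂(μ.prod μ) = (8 * π) * (8 * π) := by
    rw [integral_prod_mul f f, hint]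
  have hdec : (∫ x in Q ℓ, f x * fderiv ℝ A x (k x • x)) + 16 * π =
      (1 / 2) * ∫ p, (H p + H p.swap + (1 / (2 * π)) * (f p.1 * f p.2)) ∂(μ.prod μ) := by
    have hHH : Integrable (fun p : ℂ × ℂ => H p + H p.swap) (μ.prod μ) := hHi.add hHs
    rw [integral_add hHH (hff.const_mul _), integral_add hHi hHs, hswap, ← hI,
      integral_const_mul, hffint]
    have : π ≠ 0 := Real.pi_ne_zero
    field_simp
    ring
  -- the bound
  have hni : Integrable (fun x : ℂ => ‖x‖ ^ 2 * f x) μ :=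
    integrableOn_Q_of_continuous hl _ ((continuous_norm.pow 2).mul hf)
  have hb1 : Integrable (fun p : ℂ × ℂ => (‖p.1‖ ^ 2 * f p.1) * f p.2) (μ.prod μ) := hni.mul_prod hfi
  have hb2 : Integrable (fun p : ℂ × ℂ => f p.1 * (‖p.2‖ ^ 2 * f p.2)) (μ.prod μ) := hfi.mul_prod hni
  have hbi : Integrable (fun p : ℂ × ℂ => C' / ℓ ^ 2 * ((‖p.1‖ ^ 2 * f p.1) * f p.2 +
      f p.1 * (‖p.2‖ ^ 2 * f p.2))) (μ.prod μ) := (hb1.add hb2).const_mul _
  have hbound : ‖∫ p, (H p + H p.swap + (1 / (2 * π)) * (f p.1 * f p.2)) ∂(μ.prod μ)‖ ≤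
      ∫ p, (C' / ℓ ^ 2 * ((‖p.1‖ ^ 2 * f p.1) * f p.2 + f p.1 * (‖p.2‖ ^ 2 * f p.2))) ∂(μ.prod μ) := by
    apply norm_integral_le_of_norm_le hbi
    filter_upwards [ae_Q ℓ] with p hp
    obtain ⟨h1, h2, h3⟩ := hp
    have h4 := hker ℓ k hl10 hk p.1 h1 p.2 h2 h3
    rw [hsum p, Real.norm_eq_abs]
    have e : f p.1 * f p.2 * fderiv ℝ (Gl ℓ) (p.1 - p.2) (k p.1 • p.1 - k p.2 • p.2) +
        (1 / (2 * π)) * (f p.1 * f p.2) = f p.1 * f p.2 *
        (fderiv ℝ (Gl ℓ) (p.1 - p.2) (k p.1 • p.1 - k p.2 • p.2) + 1 / (2 * π)) := by ring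
    rw [e, abs_mul, abs_of_nonneg (mul_nonneg (f0 _) (f0 _))]
    calc f p.1 * f p.2 * |fderiv ℝ (Gl ℓ) (p.1 - p.2) (k p.1 • p.1 - k p.2 • p.2) + 1 / (2 * π)|
        ≤ f p.1 * f p.2 * (C' * (‖p.1‖ ^ 2 + ‖p.2‖ ^ 2) / ℓ ^ 2) :=
          mul_le_mul_of_nonneg_left h4 (mul_nonneg (f0 _) (f0 _))
      _ = C' / ℓ ^ 2 * ((‖p.1‖ ^ 2 * f p.1) * f p.2 + f p.1 * (‖p.2‖ ^ 2 * f p.2)) := by ring
  have hval : ∫ p, (C' / ℓ ^ 2 * ((‖p.1‖ ^ 2 * f p.1) * f p.2 + f p.1 * (‖p.2‖ ^ 2 * f p.2))) ∂(μ.prod μ) =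
      2 * (8 * π * C' * (∫ x in Q ℓ, ‖x‖ ^ 2 * f x) / ℓ ^ 2) := by
    rw [integral_const_mul, integral_add hb1 hb2,
      integral_prod_mul (fun x : ℂ => ‖x‖ ^ 2 * f x) f, integral_prod_mul f (fun x : ℂ => ‖x‖ ^ 2 * f x),
      hint]
    ring
  rw [hval, Real.norm_eq_abs] at hbound
  rw [hdec, abs_mul, abs_of_pos (by norm_num : (0 : ℝ) < 1 / 2)]
  linarith

end AO

end
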