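import Pool.Agent.Lib.AO.Field
import Pool.Agent.Lib.AO.GBd
import Pool.Agent.Lib.AO.Dist

/-
STUB VirK (library AO, MP_7bfba2_an). Replace the sorries, keep the statements.
Section 8, kernel inequality.  If ‖x‖, ‖y‖ <= c5 ℓ/2: k = 1 at both points and with h = x - y ≠ 0, ‖h‖ <= ℓ/2, g_near (z = e = h; (h conj h).re = ‖h‖²) gives |fderiv Gl h h + 1/(2π)| <= C ‖h‖²/ℓ² <= 2C(‖x‖²+‖y‖²)/ℓ².
 Otherwise (‖x‖²+‖y‖²)/ℓ² >= c5²/4, and it suffices to bound |fderiv Gl (x-y) (X x - X y)| <= (C/dl(x-y)) ‖X x - X y‖ (g_grad; x - y is not in Lat ℓ because x ≠ y are both in the half-open cell) by a constant: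
 if X x = X y = 0 clear.  Otherwise one of ‖x‖, ‖y‖ is < c5 ℓ <= ℓ/8, say ‖x‖ (symmetric).  If ‖x-y‖ <= ℓ/2 then dl(x-y) = ‖x-y‖ (dl_eq_norm') and field_lip.  If ‖x-y‖ > ℓ/2 then dl(x-y) >= dl(y) - ‖x‖ = ‖y‖ - ‖x‖ >= ‖x-y‖ - 2‖x‖ >= ℓ/4
 (dl_eq_of_mem for y in Q) and ‖X x - X y‖ <= 2 c5 ℓ <= ℓ/4 (field_bd).
-/

set_option autoImplicit false

open Complex MeasureTheory Set Metric Filter
open scoped Real ContDiff Topology

noncomputable section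

namespace AO

namespace VirKAux

variable {ℓ : ℝ}

theorem sub_notMem {x y : ℂ} (hl : 0 < ℓ) (hx : x ∈ Q ℓ) (hy : y ∈ Q ℓ) (hxy : x ≠ y) :
    x - y ∉ Lat ℓ := by
  rintro ⟨m, n, h⟩
  obtain ⟨h1, h2⟩ := Dist2Aux.lat_re_im h
  obtain ⟨⟨a1, a2⟩, ⟨a3, a4⟩⟩ := hx
  obtain ⟨⟨b1, b2⟩, ⟨b3, b4⟩⟩ := hy
  rw [Complex.sub_re] at h1
  rw [Complex.sub_im] at h2
  have key : ∀ (t : ℝ) (j : ℤ), t = ℓ * j → -ℓ < t → t < ℓ → t = 0 := by
    intro t j ht h3 h4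
    have h5 : (j : ℝ) < 1 := by
      by_contra hc
      push Not at hc
      have := mul_le_mul_of_nonneg_left hc hl.le
      linarith
    have h6 : (-1 : ℝ) < j := by
      by_contra hc
      push Not at hc
      have := mul_le_mul_of_nonneg_left hc hl.le
      linarith
    have h7 : j < 1 := by exact_mod_cast h5
    have h8 : -1 < j := by exact_mod_cast h6
    have h9 : j = 0 := by omega
    rw [ht, h9]
    simp
  have e1 := key _ m h1 (by linarith) (by linarith)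
  have e2 := key _ n h2 (by linarith) (by linarith)
  apply hxy
  apply Complex.ext
  · linarith
  · linarith

theorem field_dl {c5 C : ℝ} {k : ℂ → ℝ} (h5 : 0 < c5) (h5' : c5 ≤ 1 / 8) (hC : 1 ≤ C)
    (hl : 10 ≤ ℓ) (h : Fld c5 C ℓ k) {a b : ℂ} (hb : b ∈ Q ℓ) (hac : ‖a‖ < c5 * ℓ) :
    ‖k a • a - k b • b‖ ≤ (1 + C) * dl ℓ (a - b) := by
  have hl0 : 0 < ℓ := by linarith
  by_cases hab : ‖a - b‖ ≤ ℓ / 2
  · rw [dl_eq_norm' hl0 _ hab]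
    exact field_lip c5 C ℓ k h5 h5' hC hl h a b
  · push Not at hab
    have h1 := dl_lip (ℓ := ℓ) (-b) (a - b)
    rw [dl_neg, dl_eq_of_mem hl0 b hb] at h1
    have h2 : ‖-b - (a - b)‖ = ‖a‖ := by
      rw [show -b - (a - b) = -a by ring, norm_neg]
    rw [h2] at h1
    have h3 : ‖a - b‖ ≤ ‖a‖ + ‖b‖ := norm_sub_le a b
    have h4 : c5 * ℓ ≤ 1 / 8 * ℓ := mul_le_mul_of_nonneg_right h5' hl0.le
    have h6 : ℓ / 4 ≤ dl ℓ (a - b) := by linarith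
    have h7 := (field_bd c5 C ℓ k h5 hl h a).2
    have h8 := (field_bd c5 C ℓ k h5 hl h b).2
    have h9 := norm_sub_le (k a • a) (k b • b)
    have h10 : 0 ≤ C * dl ℓ (a - b) := mul_nonneg (by linarith) (by linarith)
    calc ‖k a • a - k b • b‖ ≤ ℓ / 4 := by linarith
      _ ≤ dl ℓ (a - b) := h6
      _ ≤ (1 + C) * dl ℓ (a - b) := by linarith

end VirKAux

open VirKAux

theorem vir_kernel (c5 C : ℝ) (h5 : 0 < c5) (h5' : c5 ≤ 1 / 8) (hC : 1 ≤ C) : ∃ C' : ℝ, 1 ≤ C' ∧ ∀ (ℓ : ℝ) (k : ℂ → ℝ),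
    10 ≤ ℓ → Fld c5 C ℓ k → ∀ x ∈ Q ℓ, ∀ y ∈ Q ℓ, x ≠ y →
    |fderiv ℝ (Gl ℓ) (x - y) (k x • x - k y • y) + 1 / (2 * π)| ≤ C' * (‖x‖ ^ 2 + ‖y‖ ^ 2) / ℓ ^ 2 := by
  obtain ⟨Cn, hCn, hnear⟩ := g_near
  obtain ⟨Cg, hCg, hgrad⟩ := g_grad
  have hpi : 1 / (2 * π) ≤ 1 := by
    rw [div_le_one (by positivity)]
    linarith [Real.pi_gt_three]
  have hpi0 : 0 < 1 / (2 * π) := by positivity
  set K : ℝ := Cg * (1 + C) + 1 with hK
  have hK0 : 0 < K := by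
    have : 0 < Cg * (1 + C) := mul_pos hCg (by linarith)
    linarith
  have hc5 : 0 < c5 ^ 2 := by positivity
  have hq : 0 < K * (4 / c5 ^ 2) := by positivity
  refine ⟨1 + 2 * Cn + K * (4 / c5 ^ 2), by linarith, ?_⟩
  intro ℓ k hl h x hx y hy hxy
  have hl0 : 0 < ℓ := by linarith
  have hl2 : 0 < ℓ ^ 2 := by positivity
  have hs : 0 ≤ ‖x‖ ^ 2 + ‖y‖ ^ 2 := by positivity
  by_cases hcase : ‖x‖ ≤ c5 * ℓ / 2 ∧ ‖y‖ ≤ c5 * ℓ / 2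
  · obtain ⟨hx1, hy1⟩ := hcase
    rw [h.one x hx1, h.one y hy1, one_smul, one_smul]
    have hne : x - y ≠ 0 := sub_ne_zero.2 hxy
    have hn1 : ‖x - y‖ ≤ ‖x‖ + ‖y‖ := norm_sub_le x y
    have h4 : c5 * ℓ ≤ 1 / 8 * ℓ := mul_le_mul_of_nonneg_right h5' hl0.le
    have h1 := hnear ℓ (x - y) (x - y) hl0 hne (by linarith)
    have h2 : ((x - y) * (starRingEnd ℂ) (x - y)).re = ‖x - y‖ ^ 2 := by
      rw [Complex.mul_conj, Complex.ofReal_re, Complex.normSq_eq_norm_sq]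
    have hn0 : 0 < ‖x - y‖ := norm_pos_iff.2 hne
    have h3 : ‖x - y‖ ^ 2 / (2 * π * ‖x - y‖ ^ 2) = 1 / (2 * π) := by
      field_simp
    rw [h2, h3] at h1
    refine h1.trans ?_
    have h6 : ‖x - y‖ ^ 2 ≤ 2 * (‖x‖ ^ 2 + ‖y‖ ^ 2) := by
      nlinarith [sq_nonneg (‖x‖ - ‖y‖), norm_nonneg (x - y), norm_nonneg x, norm_nonneg y]
    calc Cn * ‖x - y‖ / ℓ ^ 2 * ‖x - y‖ = Cn * ‖x - y‖ ^ 2 / ℓ ^ 2 := by ring
      _ ≤ (1 + 2 * Cn + K * (4 / c5 ^ 2)) * (‖x‖ ^ 2 + ‖y‖ ^ 2) / ℓ ^ 2 := by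
          apply div_le_div_of_nonneg_right _ hl2.le
          have h7 : Cn * ‖x - y‖ ^ 2 ≤ Cn * (2 * (‖x‖ ^ 2 + ‖y‖ ^ 2)) :=
            mul_le_mul_of_nonneg_left h6 hCn.le
          have h8 : 0 ≤ (1 + K * (4 / c5 ^ 2)) * (‖x‖ ^ 2 + ‖y‖ ^ 2) :=
            mul_nonneg (by linarith) hs
          nlinarith
  · have hbig : c5 ^ 2 / 4 ≤ (‖x‖ ^ 2 + ‖y‖ ^ 2) / ℓ ^ 2 := by
      rw [le_div_iff₀ hl2]
      have hc : ∀ t : ℝ, c5 * ℓ / 2 < t → c5 ^ 2 / 4 * ℓ ^ 2 ≤ t ^ 2 := by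
        intro t ht
        have h1 : 0 < c5 * ℓ / 2 := by positivity
        have h2 : (c5 * ℓ / 2) ^ 2 ≤ t ^ 2 := pow_le_pow_left₀ h1.le ht.le 2
        calc c5 ^ 2 / 4 * ℓ ^ 2 = (c5 * ℓ / 2) ^ 2 := by ring
          _ ≤ t ^ 2 := h2
      have hx2 : 0 ≤ ‖x‖ ^ 2 := by positivity
      have hy2 : 0 ≤ ‖y‖ ^ 2 := by positivity
      by_cases hx1 : ‖x‖ ≤ c5 * ℓ / 2
      · have hy1 : c5 * ℓ / 2 < ‖y‖ := by
          by_contra hc'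
          exact hcase ⟨hx1, not_lt.1 hc'⟩
        have := hc _ hy1
        linarith
      · have := hc _ (not_le.1 hx1)
        linarith
    have hnl : x - y ∉ Lat ℓ := sub_notMem hl0 hx hy hxy
    have hd : 0 < dl ℓ (x - y) := (dl_pos_iff hl0 _).2 hnl
    have hX : ‖k x • x - k y • y‖ ≤ (1 + C) * dl ℓ (x - y) := by
      by_cases hx1 : ‖x‖ < c5 * ℓ
      · exact field_dl h5 h5' hC hl h hy hx1
      · by_cases hy1 : ‖y‖ < c5 * ℓ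
        · have h1 := field_dl h5 h5' hC hl h hx hy1
          rw [norm_sub_rev, show y - x = -(x - y) by ring, dl_neg] at h1
          exact h1
        · rw [h.zero x (not_lt.1 hx1), h.zero y (not_lt.1 hy1), zero_smul, zero_smul, sub_zero,
            norm_zero]
          exact mul_nonneg (by linarith) hd.le
    have hg := (hgrad ℓ (x - y) hl0 hnl).2
    have hval : |fderiv ℝ (Gl ℓ) (x - y) (k x • x - k y • y)| ≤ Cg * (1 + C) := by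
      have h1 := (fderiv ℝ (Gl ℓ) (x - y)).le_opNorm (k x • x - k y • y)
      rw [Real.norm_eq_abs] at h1
      refine h1.trans ?_
      calc ‖fderiv ℝ (Gl ℓ) (x - y)‖ * ‖k x • x - k y • y‖
          ≤ (Cg / dl ℓ (x - y)) * ((1 + C) * dl ℓ (x - y)) := by
            apply mul_le_mul hg hX (norm_nonneg _)
            positivity
        _ = Cg * (1 + C) := by
            field_simp
    have htot : |fderiv ℝ (Gl ℓ) (x - y) (k x • x - k y • y) + 1 / (2 * π)| ≤ K := by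
      refine (abs_add_le _ _).trans ?_
      rw [abs_of_pos hpi0]
      linarith
    refine htot.trans ?_
    have h8 : K = K * (4 / c5 ^ 2) * (c5 ^ 2 / 4) := by
      field_simp
    have h9 : K * (4 / c5 ^ 2) * (c5 ^ 2 / 4) ≤
        K * (4 / c5 ^ 2) * ((‖x‖ ^ 2 + ‖y‖ ^ 2) / ℓ ^ 2) :=
      mul_le_mul_of_nonneg_left hbig hq.le
    have h10 : 0 ≤ (1 + 2 * Cn) * ((‖x‖ ^ 2 + ‖y‖ ^ 2) / ℓ ^ 2) :=
      mul_nonneg (by linarith) (div_nonneg hs hl2.le)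
    calc K ≤ K * (4 / c5 ^ 2) * ((‖x‖ ^ 2 + ‖y‖ ^ 2) / ℓ ^ 2) := by rw [← h8] at h9; exact h9
      _ ≤ (1 + 2 * Cn + K * (4 / c5 ^ 2)) * ((‖x‖ ^ 2 + ‖y‖ ^ 2) / ℓ ^ 2) := by linarith
      _ = _ := by ring

end AO

end
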